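import Pool.Agent.Lib.MP_dd84fd_nt.TC.KfA

/-!
# TC-Abk: partial summation against the kernel

`E n = kf((n-y)/Δ)`, `|E n| ≤ 1`, `|E(n+1) - E n| ≤ 4/Δ` by `kf_lip`;
`∑_{n ≤ N} E(n) f(n) = E(N+1) F(N) - ∑_{k ≤ N} (E(k+1) - E(k)) F(k)` (see `abel` in LX/PwPV.lean).
-/

set_option autoImplicit false

namespace Pool.MP_dd84fd_nt.TC

open Finset

private theorem abk_sum (E f : ℕ → ℂ) (N : ℕ) :
    ∑ n ∈ Icc 1 N, E n * f n = E (N + 1) * (∑ n ∈ Icc 1 N, f n) -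
      ∑ k ∈ Icc 1 N, (E (k + 1) - E k) * ∑ n ∈ Icc 1 k, f n := by
  induction N with
  | zero => simp
  | succ N ih =>
    rw [Finset.sum_Icc_succ_top (by omega), Finset.sum_Icc_succ_top (by omega) f,
      Finset.sum_Icc_succ_top (by omega) (fun k => (E (k + 1) - E k) * ∑ n ∈ Icc 1 k, f n), ih,
      Finset.sum_Icc_succ_top (by omega) f]
    ring

theorem abk (f : ℕ → ℂ) (N : ℕ) (Δ y Bd : ℝ) (hΔ : 0 < Δ)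
    (h : ∀ k : ℕ, k ≤ N → ‖∑ n ∈ Icc 1 k, f n‖ ≤ Bd) :
    ‖∑ n ∈ Icc 1 N, ((kf (((n : ℝ) - y) / Δ) : ℝ) : ℂ) * f n‖ ≤ 4 * (1 + N / Δ) * Bd := by
  have hB : 0 ≤ Bd := (norm_nonneg _).trans (h 0 (Nat.zero_le _))
  obtain ⟨E, hE⟩ : ∃ E : ℕ → ℂ, E = fun n : ℕ => ((kf (((n : ℝ) - y) / Δ) : ℝ) : ℂ) := ⟨_, rfl⟩
  have e1 : ∑ n ∈ Icc 1 N, ((kf (((n : ℝ) - y) / Δ) : ℝ) : ℂ) * f n =
      ∑ n ∈ Icc 1 N, E n * f n := by rw [hE]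
  rw [e1, abk_sum]
  have h1 : ‖E (N + 1)‖ ≤ 1 := by
    rw [hE]
    show ‖((kf ((((N + 1 : ℕ) : ℝ) - y) / Δ) : ℝ) : ℂ)‖ ≤ 1
    rw [Complex.norm_real, Real.norm_of_nonneg (kf_nonneg _)]
    exact kf_le_one _
  have h2 : ∀ k : ℕ, ‖E (k + 1) - E k‖ ≤ 4 / Δ := by
    intro k
    rw [hE]
    show ‖((kf ((((k + 1 : ℕ) : ℝ) - y) / Δ) : ℝ) : ℂ) - ((kf (((k : ℝ) - y) / Δ) : ℝ) : ℂ)‖ ≤ 4 / Δ
    rw [← Complex.ofReal_sub, Complex.norm_real, Real.norm_eq_abs]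
    refine (kf_lip _ _).trans ?_
    have e : (((k + 1 : ℕ) : ℝ) - y) / Δ - ((k : ℝ) - y) / Δ = 1 / Δ := by
      push_cast
      ring
    rw [e, abs_of_pos (by positivity)]
    apply le_of_eq
    ring
  have h3 : ‖E (N + 1) * ∑ n ∈ Icc 1 N, f n‖ ≤ Bd := by
    rw [norm_mul]
    calc _ ≤ 1 * Bd := mul_le_mul h1 (h N le_rfl) (norm_nonneg _) zero_le_one
      _ = Bd := one_mul _
  have h4 : ‖∑ k ∈ Icc 1 N, (E (k + 1) - E k) * ∑ n ∈ Icc 1 k, f n‖ ≤ N * (4 / Δ * Bd) := by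
    refine (norm_sum_le _ _).trans ?_
    have h5 : ∀ k ∈ Icc 1 N, ‖(E (k + 1) - E k) * ∑ n ∈ Icc 1 k, f n‖ ≤ 4 / Δ * Bd := by
      intro k hk
      rw [norm_mul]
      exact mul_le_mul (h2 k) (h k (mem_Icc.1 hk).2) (norm_nonneg _) (by positivity)
    refine (sum_le_sum h5).trans ?_
    rw [sum_const, Nat.card_Icc, nsmul_eq_mul, Nat.add_sub_cancel]
  refine (norm_sub_le _ _).trans ?_
  have h6 : (N : ℝ) * (4 / Δ * Bd) = 4 * (N / Δ) * Bd := by ring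
  rw [h6] at h4
  nlinarith

/-- real version -/
theorem abk_real (f : ℕ → ℝ) (N : ℕ) (Δ y Bd : ℝ) (hΔ : 0 < Δ)
    (h : ∀ k : ℕ, k ≤ N → |∑ n ∈ Icc 1 k, f n| ≤ Bd) :
    |∑ n ∈ Icc 1 N, kf (((n : ℝ) - y) / Δ) * f n| ≤ 4 * (1 + N / Δ) * Bd := by
  have h1 := abk (fun n => ((f n : ℝ) : ℂ)) N Δ y Bd hΔ (fun k hk => by
    rw [← Complex.ofReal_sum, Complex.norm_real, Real.norm_eq_abs]
    exact h k hk)
  have e : ∑ n ∈ Icc 1 N, ((kf (((n : ℝ) - y) / Δ) : ℝ) : ℂ) * ((f n : ℝ) : ℂ) =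
      ((∑ n ∈ Icc 1 N, kf (((n : ℝ) - y) / Δ) * f n : ℝ) : ℂ) := by
    push_cast
    rfl
  rw [e, Complex.norm_real, Real.norm_eq_abs] at h1
  exact h1

end Pool.MP_dd84fd_nt.TC
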