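import Mathlib

/-!
# TC-Alg: the algebra of the core (Mathlib only)

Notation: `P` the primes, `w ≥ 0` their weights, `s` the expected mass, `F ≤ 3` the constant of the
sieve.

`cl_d` (duality): put `ν_k = (1/s) Σ w e_k`, `b = Σ |ν_k|²`.  Then `b = (1/s) Σ_p w(p) T(p)` with
`T = Σ_k conj(ν_k) e_k`, and by Cauchy-Schwarz `b² ≤ (Σ w / s) (Σ w |T|² / s) ≤ (1+η) F b`.

`cl_a`: `b = Σ |β_k|²`, `A(p) = Σ_i a_i e1_i(p)`, `B(p) = Σ_k conj(β_k) e2_k(p)`,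
`T = (1 - A/F) B = Σ_{i,k} t_{ik} e1_i e2_k` with `t_{ik} = (δ_{i,i0} - a_i/F) conj(β_k)` (because
`e1 i0 = 1` on `P`).  `b = (1/s) Σ w B` (real), so `b = (1/s) Σ w T + (1/(sF)) Σ w A B`, hence
`b ≤ √((1/s) Σ w) √((1/s) Σ w |T|²) + η/F ≤ √((1+η) F ‖t‖²) + η`, and
`‖t‖² = b Σ_i |δ_{i,i0} - a_i/F|² = b (1 - 2 Re a_{i0} / F + Σ |a_i|² / F²)
≤ b (1 - 2(1-η)/F + (1+η)/F) = b (1 - 1/F + 3η/F)`.  So `b ≤ √(G b) + η`,
`G = (1+η)(F - 1 + 3η) ≤ F - 1 + 5.3 η` (`F ≤ 3`, `η ≤ 1/10`); `√(G b) ≤ (G + b)/2` gives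
`b ≤ G + 2η ≤ F - 1 + 8η`.

`cl_b`: `(1-η)² ≤ |conj(β'_{k0}) θ_{k0} β_{k0}| ≤ η + Σ_{k ≠ k0} |β'_k| |β_k| ≤
η + √(Σ_{k≠k0} |β|²) √(Σ_{k≠k0} |β'|²) ≤ η + (F - 1 + 8η - (1-η)²)`, so `3 ≤ F + 13 η`.
-/

set_option autoImplicit false

namespace Pool.MP_dd84fd_nt.TC

open Finset ComplexConjugate

private lemma wcs (P : Finset ℕ) (w : ℕ → ℝ) (hw : ∀ p ∈ P, 0 ≤ w p) (T : ℕ → ℂ) :
    ‖∑ p ∈ P, (w p : ℂ) * T p‖ ^ 2 ≤ (∑ p ∈ P, w p) * ∑ p ∈ P, w p * ‖T p‖ ^ 2 := by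
  have h1 : ‖∑ p ∈ P, (w p : ℂ) * T p‖ ≤ ∑ p ∈ P, Real.sqrt (w p) * (Real.sqrt (w p) * ‖T p‖) := by
    refine norm_sum_le_of_le _ fun p hp => ?_
    rw [norm_mul, Complex.norm_real, Real.norm_eq_abs, abs_of_nonneg (hw p hp), ← mul_assoc,
      Real.mul_self_sqrt (hw p hp)]
  have h2 : 0 ≤ ‖∑ p ∈ P, (w p : ℂ) * T p‖ := norm_nonneg _
  calc ‖∑ p ∈ P, (w p : ℂ) * T p‖ ^ 2
      ≤ (∑ p ∈ P, Real.sqrt (w p) * (Real.sqrt (w p) * ‖T p‖)) ^ 2 := pow_le_pow_left₀ h2 h1 2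
    _ ≤ (∑ p ∈ P, Real.sqrt (w p) ^ 2) * ∑ p ∈ P, (Real.sqrt (w p) * ‖T p‖) ^ 2 :=
        Finset.sum_mul_sq_le_sq_mul_sq _ _ _
    _ = (∑ p ∈ P, w p) * ∑ p ∈ P, w p * ‖T p‖ ^ 2 := by
        congr 1
        · exact sum_congr rfl fun p hp => Real.sq_sqrt (hw p hp)
        · refine sum_congr rfl fun p hp => ?_
          rw [mul_pow, Real.sq_sqrt (hw p hp)]

private lemma dual {κ : Type*} (P : Finset ℕ) (w : ℕ → ℝ) (s : ℝ) (hs : 0 < s) (E : Finset κ)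
    (e : κ → ℕ → ℂ) (ν : κ → ℂ) (hν : ∀ k ∈ E, ν k = (1 / (s : ℂ)) * ∑ p ∈ P, (w p : ℂ) * e k p) :
    ∑ p ∈ P, (w p : ℂ) * ∑ k ∈ E, conj (ν k) * e k p = ((s * ∑ k ∈ E, ‖ν k‖ ^ 2 : ℝ) : ℂ) := by
  have hs' : (s : ℂ) ≠ 0 := by exact_mod_cast hs.ne'
  have h1 : ∑ p ∈ P, (w p : ℂ) * ∑ k ∈ E, conj (ν k) * e k p =
      ∑ k ∈ E, conj (ν k) * ∑ p ∈ P, (w p : ℂ) * e k p := by
    simp_rw [mul_sum]
    rw [sum_comm]
    refine sum_congr rfl fun k _ => sum_congr rfl fun p _ => ?_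
    ring
  rw [h1, Complex.ofReal_mul, Complex.ofReal_sum, mul_sum]
  refine sum_congr rfl fun k hk => ?_
  have h2 : ∑ p ∈ P, (w p : ℂ) * e k p = s * ν k := by
    rw [hν k hk]
    field_simp
  rw [h2, Complex.ofReal_pow, ← Complex.conj_mul']
  ring

theorem cl_d {κ : Type*} (P : Finset ℕ) (w : ℕ → ℝ) (hw : ∀ p ∈ P, 0 ≤ w p) (s F η : ℝ)
    (hs : 0 < s) (hF : 0 ≤ F) (hη : 0 ≤ η) (E : Finset κ) (e : κ → ℕ → ℂ)
    (hS : ∀ t : κ → ℂ, ∑ p ∈ P, w p * ‖∑ k ∈ E, t k * e k p‖ ^ 2 ≤ F * s * ∑ k ∈ E, ‖t k‖ ^ 2)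
    (hm : ∑ p ∈ P, w p ≤ (1 + η) * s) (ν : κ → ℂ)
    (hν : ∀ k ∈ E, ν k = (1 / (s : ℂ)) * ∑ p ∈ P, (w p : ℂ) * e k p) :
    ∑ k ∈ E, ‖ν k‖ ^ 2 ≤ F * (1 + η) := by
  set b := ∑ k ∈ E, ‖ν k‖ ^ 2 with hb
  have hb0 : 0 ≤ b := sum_nonneg fun k _ => by positivity
  have h1 := wcs P w hw (fun p => ∑ k ∈ E, conj (ν k) * e k p)
  have h2 := dual P w s hs E e ν hν
  rw [h2, Complex.norm_real, Real.norm_eq_abs, sq_abs, ← hb] at h1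
  have h3 := hS (fun k => conj (ν k))
  have h4 : ∑ k ∈ E, ‖conj (ν k)‖ ^ 2 = b := by
    rw [hb]
    exact sum_congr rfl fun k _ => by rw [RCLike.norm_conj]
  rw [h4] at h3
  have hW0 : 0 ≤ ∑ p ∈ P, w p := sum_nonneg hw
  have h5 : (s * b) ^ 2 ≤ ((1 + η) * s) * (F * s * b) := by
    refine h1.trans ?_
    refine mul_le_mul hm h3 ?_ (by positivity)
    exact sum_nonneg fun p hp => mul_nonneg (hw p hp) (by positivity)
  by_contra hcon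
  push Not at hcon
  have hbpos : 0 < b := lt_of_le_of_lt (by positivity) hcon
  have h6 : (F * (1 + η)) * (s ^ 2 * b) < b * (s ^ 2 * b) :=
    mul_lt_mul_of_pos_right hcon (by positivity)
  nlinarith

theorem cl_a {ι κ : Type*} [DecidableEq ι] (P : Finset ℕ) (w : ℕ → ℝ) (hw : ∀ p ∈ P, 0 ≤ w p)
    (s F η : ℝ) (hs : 0 < s) (hF1 : 1 ≤ F) (hF : F ≤ 3) (hη0 : 0 ≤ η) (hη : η ≤ 1 / 10)
    (E1 : Finset ι) (E2 : Finset κ) (e1 : ι → ℕ → ℂ) (e2 : κ → ℕ → ℂ) (i0 : ι) (hi0 : i0 ∈ E1)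
    (he1 : ∀ p ∈ P, e1 i0 p = 1)
    (hS : ∀ t : ι → κ → ℂ, ∑ p ∈ P, w p * ‖∑ i ∈ E1, ∑ k ∈ E2, t i k * e1 i p * e2 k p‖ ^ 2 ≤
      F * s * ∑ i ∈ E1, ∑ k ∈ E2, ‖t i k‖ ^ 2)
    (hm : ∑ p ∈ P, w p ≤ (1 + η) * s)
    (a : ι → ℂ) (ha0 : 1 - η ≤ (a i0).re) (ha : ∑ i ∈ E1, ‖a i‖ ^ 2 ≤ F * (1 + η))
    (β : κ → ℂ) (hβ : ∀ k ∈ E2, β k = (1 / (s : ℂ)) * ∑ p ∈ P, (w p : ℂ) * e2 k p)
    (h3 : ‖∑ p ∈ P, (w p : ℂ) * (∑ i ∈ E1, a i * e1 i p) * (∑ k ∈ E2, conj (β k) * e2 k p)‖ ≤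
      η * s) :
    ∑ k ∈ E2, ‖β k‖ ^ 2 ≤ F - 1 + 8 * η := by
  have hFpos : 0 < F := by linarith
  have hF' : (F : ℂ) ≠ 0 := by exact_mod_cast hFpos.ne'
  set b := ∑ k ∈ E2, ‖β k‖ ^ 2 with hb
  have hb0 : 0 ≤ b := sum_nonneg fun k _ => by positivity
  set A : ℕ → ℂ := fun p => ∑ i ∈ E1, a i * e1 i p with hA
  set Bf : ℕ → ℂ := fun p => ∑ k ∈ E2, conj (β k) * e2 k p with hB
  set d : ι → ℂ := fun i => (if i = i0 then 1 else 0) - a i / F with hd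
  set t : ι → κ → ℂ := fun i k => d i * conj (β k) with ht
  have hT : ∀ p ∈ P, ∑ i ∈ E1, ∑ k ∈ E2, t i k * e1 i p * e2 k p = (1 - A p / F) * Bf p := by
    intro p hp
    have e1' : ∑ i ∈ E1, ∑ k ∈ E2, t i k * e1 i p * e2 k p = (∑ i ∈ E1, d i * e1 i p) * Bf p := by
      rw [hB, sum_mul]
      refine sum_congr rfl fun i _ => ?_
      rw [mul_sum]
      refine sum_congr rfl fun k _ => ?_
      simp only [ht]
      ring
    rw [e1']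
    congr 1
    simp only [hd, sub_mul, sum_sub_distrib]
    congr 1
    · simp only [ite_mul, one_mul, zero_mul]
      rw [sum_ite_eq' E1 i0, if_pos hi0, he1 p hp]
    · rw [hA, sum_div]
      exact sum_congr rfl fun i _ => by ring
  -- the norm of `t`
  have hdn : ∑ i ∈ E1, ‖d i‖ ^ 2 ≤ 1 - 1 / F + 3 * η / F := by
    have h1 : ∀ i ∈ E1, ‖d i‖ ^ 2 = ‖a i‖ ^ 2 / F ^ 2 +
        (if i = i0 then 1 - 2 * (a i0).re / F else 0) := by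
      intro i _
      by_cases hi : i = i0
      · subst hi
        simp only [hd, if_true]
        rw [← Complex.normSq_eq_norm_sq, ← Complex.normSq_eq_norm_sq, Complex.normSq_apply,
          Complex.normSq_apply]
        have e3 : ((1 : ℂ) - a i / F).re = 1 - (a i).re / F := by
          rw [Complex.sub_re, Complex.one_re, Complex.div_ofReal_re]
        have e4 : ((1 : ℂ) - a i / F).im = - ((a i).im / F) := by
          rw [Complex.sub_im, Complex.one_im, Complex.div_ofReal_im]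
          ring
        rw [e3, e4]
        field_simp
        ring
      · simp only [hd, if_neg hi, zero_sub, norm_neg, norm_div, Complex.norm_real,
          Real.norm_eq_abs, abs_of_pos hFpos, add_zero]
        rw [div_pow]
    rw [sum_congr rfl h1, sum_add_distrib, ← sum_div, sum_ite_eq' E1 i0, if_pos hi0]
    have h2 : (∑ i ∈ E1, ‖a i‖ ^ 2) / F ^ 2 ≤ (1 + η) / F := by
      rw [div_le_div_iff₀ (by positivity) hFpos]
      calc (∑ i ∈ E1, ‖a i‖ ^ 2) * F ≤ (F * (1 + η)) * F :=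
            mul_le_mul_of_nonneg_right ha hFpos.le
        _ = (1 + η) * F ^ 2 := by ring
    have h4 : 2 * (1 - η) / F ≤ 2 * (a i0).re / F :=
      div_le_div_of_nonneg_right (by linarith) hFpos.le
    have h5 : (1 + η) / F + (1 - 2 * (1 - η) / F) = 1 - 1 / F + 3 * η / F := by
      field_simp
      ring
    linarith
  have htn : ∑ i ∈ E1, ∑ k ∈ E2, ‖t i k‖ ^ 2 ≤ (1 - 1 / F + 3 * η / F) * b := by
    have h1 : ∑ i ∈ E1, ∑ k ∈ E2, ‖t i k‖ ^ 2 = (∑ i ∈ E1, ‖d i‖ ^ 2) * b := by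
      rw [hb, sum_mul]
      refine sum_congr rfl fun i _ => ?_
      rw [mul_sum]
      refine sum_congr rfl fun k _ => ?_
      simp only [ht]
      rw [norm_mul, RCLike.norm_conj, mul_pow]
    rw [h1]
    exact mul_le_mul_of_nonneg_right hdn hb0
  -- the mean of `T`
  have hTs := hS t
  have hTs' : ∑ p ∈ P, w p * ‖(1 - A p / F) * Bf p‖ ^ 2 ≤ F * s * ∑ i ∈ E1, ∑ k ∈ E2, ‖t i k‖ ^ 2 := by
    refine le_trans (le_of_eq ?_) hTs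
    exact sum_congr rfl fun p hp => by rw [hT p hp]
  have hcs := wcs P w hw (fun p => (1 - A p / F) * Bf p)
  set M : ℂ := ∑ p ∈ P, (w p : ℂ) * ((1 - A p / F) * Bf p) with hM
  have hdual := dual P w s hs E2 e2 β hβ
  have hsplit : ((s * b : ℝ) : ℂ) = M + (1 / (F : ℂ)) *
      ∑ p ∈ P, (w p : ℂ) * (∑ i ∈ E1, a i * e1 i p) * (∑ k ∈ E2, conj (β k) * e2 k p) := by
    rw [← hdual, hM, mul_sum, ← sum_add_distrib]
    refine sum_congr rfl fun p _ => ?_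
    simp only [hA, hB]
    field_simp
    ring
  have hsb : s * b ≤ ‖M‖ + η * s / F := by
    have h1 : s * b = ‖((s * b : ℝ) : ℂ)‖ := by
      rw [Complex.norm_real, Real.norm_eq_abs, abs_of_nonneg (by positivity)]
    rw [h1, hsplit]
    refine (norm_add_le _ _).trans ?_
    have h2 : ‖(1 / (F : ℂ)) *
      ∑ p ∈ P, (w p : ℂ) * (∑ i ∈ E1, a i * e1 i p) * (∑ k ∈ E2, conj (β k) * e2 k p)‖ ≤
        η * s / F := by
      rw [norm_mul, norm_div, norm_one, Complex.norm_real, Real.norm_eq_abs, abs_of_pos hFpos,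
        one_div, inv_mul_eq_div]
      exact div_le_div_of_nonneg_right h3 hFpos.le
    linarith
  have hW0 : 0 ≤ ∑ p ∈ P, w p := sum_nonneg hw
  have hM2 : ‖M‖ ^ 2 ≤ s ^ 2 * (((1 + η) * (F - 1 + 3 * η)) * b) := by
    refine hcs.trans ?_
    have h1 : (∑ p ∈ P, w p) * ∑ p ∈ P, w p * ‖(1 - A p / F) * Bf p‖ ^ 2 ≤
        ((1 + η) * s) * (F * s * ((1 - 1 / F + 3 * η / F) * b)) := by
      refine mul_le_mul hm (hTs'.trans (mul_le_mul_of_nonneg_left htn (by positivity))) ?_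
        (by positivity)
      exact sum_nonneg fun p hp => mul_nonneg (hw p hp) (by positivity)
    refine h1.trans (le_of_eq ?_)
    field_simp
  set G := (1 + η) * (F - 1 + 3 * η) with hG
  have hG0 : 0 ≤ G := by
    rw [hG]
    exact mul_nonneg (by linarith) (by linarith)
  have hMle : ‖M‖ ≤ s * ((G + b) / 2) := by
    have h1 : (s * ((G + b) / 2)) ^ 2 ≥ s ^ 2 * (G * b) := by
      have : 0 ≤ s ^ 2 * (G - b) ^ 2 := by positivity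
      nlinarith
    exact abs_le_of_sq_le_sq' (hM2.trans h1) (by positivity) |>.2
  have h6 : s * b ≤ s * ((G + b) / 2) + s * η := by
    have : η * s / F ≤ s * η := by
      rw [div_le_iff₀ hFpos]
      nlinarith [mul_nonneg hs.le hη0]
    linarith
  have h7 : b ≤ (G + b) / 2 + η := by
    have h8 : s * b ≤ s * ((G + b) / 2 + η) := by rw [mul_add]; exact h6
    exact le_of_mul_le_mul_left h8 hs
  have h9 : G ≤ F - 1 + 6 * η := by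
    rw [hG]
    nlinarith
  linarith

theorem cl_b {κ : Type*} (E : Finset κ) (k0 : κ) (hk : k0 ∈ E) (β β' θ : κ → ℂ)
    (hθ : ∀ k ∈ E, ‖θ k‖ = 1) (F η : ℝ) (hη0 : 0 ≤ η) (hη : η ≤ 1 / 10)
    (h1 : ∑ k ∈ E, ‖β k‖ ^ 2 ≤ F - 1 + 8 * η) (h2 : ∑ k ∈ E, ‖β' k‖ ^ 2 ≤ F - 1 + 8 * η)
    (h3 : 1 - η ≤ ‖β k0‖) (h4 : 1 - η ≤ ‖β' k0‖)
    (h5 : ‖∑ k ∈ E, conj (β' k) * θ k * β k‖ ≤ η) : 3 ≤ F + 13 * η := by
  classical
  have e1 := add_sum_erase E (fun k => ‖β k‖ ^ 2) hk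
  have e2 := add_sum_erase E (fun k => ‖β' k‖ ^ 2) hk
  have e3 := add_sum_erase E (fun k => conj (β' k) * θ k * β k) hk
  have h6 : ‖∑ k ∈ E.erase k0, conj (β' k) * θ k * β k‖ ≤
      ∑ k ∈ E.erase k0, (‖β k‖ ^ 2 + ‖β' k‖ ^ 2) / 2 := by
    refine norm_sum_le_of_le _ fun k hk' => ?_
    rw [norm_mul, norm_mul, RCLike.norm_conj, hθ k (mem_of_mem_erase hk'), mul_one]
    nlinarith [sq_nonneg (‖β k‖ - ‖β' k‖)]
  have h7 : ∑ k ∈ E.erase k0, (‖β k‖ ^ 2 + ‖β' k‖ ^ 2) / 2 =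
      (∑ k ∈ E.erase k0, ‖β k‖ ^ 2 + ∑ k ∈ E.erase k0, ‖β' k‖ ^ 2) / 2 := by
    rw [← sum_div, sum_add_distrib]
  have h8 : ‖conj (β' k0) * θ k0 * β k0‖ ≤ η + ‖∑ k ∈ E.erase k0, conj (β' k) * θ k * β k‖ := by
    have h9 : conj (β' k0) * θ k0 * β k0 = (∑ k ∈ E, conj (β' k) * θ k * β k) -
        ∑ k ∈ E.erase k0, conj (β' k) * θ k * β k := by
      rw [← e3]
      ring
    rw [h9]
    exact (norm_sub_le _ _).trans (by linarith)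
  rw [norm_mul, norm_mul, RCLike.norm_conj, hθ k0 hk, mul_one] at h8
  have h10 : (1 - η) * (1 - η) ≤ ‖β' k0‖ * ‖β k0‖ :=
    mul_le_mul h4 h3 (by linarith) (by linarith)
  have h11 : (1 - η) ^ 2 ≤ ‖β k0‖ ^ 2 := pow_le_pow_left₀ (by linarith) h3 2
  have h12 : (1 - η) ^ 2 ≤ ‖β' k0‖ ^ 2 := pow_le_pow_left₀ (by linarith) h4 2
  nlinarith [sq_nonneg η]

end Pool.MP_dd84fd_nt.TC
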