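import Mathlib
import Pool.Agent.Lib.MP_dd84fd_nt.TC.Alg

/-!
# TC-AlgV: the algebra of the core for `F < 4`

As `cl_a`, with the mass `β` of the first family instead of `F (1 + η)`:
`T = (1 - A/β) B`, `‖t‖² ≤ b (1 - 1/β + 2η/β)`, hence `b ≤ F (1 - 1/β) + 11 η`.
Decrement: for `β ≥ 2` and `F = 4 - ν` one has `F (1 - 1/β) ≤ β - ν/2`.
-/

set_option autoImplicit false

namespace Pool.MP_dd84fd_nt.TC

open Finset ComplexConjugate

private lemma wcs' (P : Finset ℕ) (w : ℕ → ℝ) (hw : ∀ p ∈ P, 0 ≤ w p) (T : ℕ → ℂ) :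
    ‖∑ p ∈ P, (w p : ℂ) * T p‖ ^ 2 ≤ (∑ p ∈ P, w p) * ∑ p ∈ P, w p * ‖T p‖ ^ 2 := by
  have h1 : ‖∑ p ∈ P, (w p : ℂ) * T p‖ ≤ ∑ p ∈ P, Real.sqrt (w p) * (Real.sqrt (w p) * ‖T p‖) := by
    refine norm_sum_le_of_le _ fun p hp => ?_
    rw [norm_mul, Complex.norm_real, Real.norm_eq_abs, abs_of_nonneg (hw p hp), ← mul_assoc,
      Real.mul_self_sqrt (hw p hp)]
  have h2 : 0 ≤ ‖∑ p ∈ P, (w p : ℂ) * T p‖ := norm_nonneg _
  calc ‖∑ p ∈ P, (w p : ℂ) * T p‖ ^ 2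
      ≤ (∑ p ∈ P, Real.sqrt (w p) * (Real.sqrt (w p) * ‖T p‖)) ^ 2 := pow_le_pow_left₀ h2 h1 2
    _ ≤ (∑ p ∈ P, Real.sqrt (w p) ^ 2) * ∑ p ∈ P, (Real.sqrt (w p) * ‖T p‖) ^ 2 :=
        Finset.sum_mul_sq_le_sq_mul_sq _ _ _
    _ = (∑ p ∈ P, w p) * ∑ p ∈ P, w p * ‖T p‖ ^ 2 := by
        congr 1
        · exact sum_congr rfl fun p hp => Real.sq_sqrt (hw p hp)
        · refine sum_congr rfl fun p hp => ?_
          rw [mul_pow, Real.sq_sqrt (hw p hp)]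

private lemma dual' {κ : Type*} (P : Finset ℕ) (w : ℕ → ℝ) (s : ℝ) (hs : 0 < s) (E : Finset κ)
    (e : κ → ℕ → ℂ) (ν : κ → ℂ) (hν : ∀ k ∈ E, ν k = (1 / (s : ℂ)) * ∑ p ∈ P, (w p : ℂ) * e k p) :
    ∑ p ∈ P, (w p : ℂ) * ∑ k ∈ E, conj (ν k) * e k p = ((s * ∑ k ∈ E, ‖ν k‖ ^ 2 : ℝ) : ℂ) := by
  have hs' : (s : ℂ) ≠ 0 := by exact_mod_cast hs.ne'
  have h1 : ∑ p ∈ P, (w p : ℂ) * ∑ k ∈ E, conj (ν k) * e k p =
      ∑ k ∈ E, conj (ν k) * ∑ p ∈ P, (w p : ℂ) * e k p := by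
    simp_rw [mul_sum]
    rw [sum_comm]
    refine sum_congr rfl fun k _ => sum_congr rfl fun p _ => ?_
    ring
  rw [h1, Complex.ofReal_mul, Complex.ofReal_sum, mul_sum]
  refine sum_congr rfl fun k hk => ?_
  have h2 : ∑ p ∈ P, (w p : ℂ) * e k p = s * ν k := by
    rw [hν k hk]
    field_simp
  rw [h2, Complex.ofReal_pow, ← Complex.conj_mul']
  ring

/-- the mass of the second family when the first has mass at most `β` -/
theorem cv_a {ι κ : Type*} [DecidableEq ι] (P : Finset ℕ) (w : ℕ → ℝ) (hw : ∀ p ∈ P, 0 ≤ w p)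
    (s F η β : ℝ) (hs : 0 < s) (hF1 : 0 ≤ F) (hF : F ≤ 4) (hη0 : 0 ≤ η) (hη : η ≤ 1 / 10)
    (hβ1 : 1 ≤ β) (E1 : Finset ι) (E2 : Finset κ) (e1 : ι → ℕ → ℂ) (e2 : κ → ℕ → ℂ) (i0 : ι)
    (hi0 : i0 ∈ E1) (he1 : ∀ p ∈ P, e1 i0 p = 1)
    (hS : ∀ t : ι → κ → ℂ, ∑ p ∈ P, w p * ‖∑ i ∈ E1, ∑ k ∈ E2, t i k * e1 i p * e2 k p‖ ^ 2 ≤
      F * s * ∑ i ∈ E1, ∑ k ∈ E2, ‖t i k‖ ^ 2)
    (hm : ∑ p ∈ P, w p ≤ (1 + η) * s)
    (a : ι → ℂ) (ha0 : 1 - η ≤ (a i0).re) (ha : ∑ i ∈ E1, ‖a i‖ ^ 2 ≤ β)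
    (ν : κ → ℂ) (hν : ∀ k ∈ E2, ν k = (1 / (s : ℂ)) * ∑ p ∈ P, (w p : ℂ) * e2 k p)
    (h3 : ‖∑ p ∈ P, (w p : ℂ) * (∑ i ∈ E1, a i * e1 i p) * (∑ k ∈ E2, conj (ν k) * e2 k p)‖ ≤
      η * s) :
    ∑ k ∈ E2, ‖ν k‖ ^ 2 ≤ F * (1 - 1 / β) + 11 * η := by
  have hβ0 : 0 < β := by linarith
  have hβ' : (β : ℂ) ≠ 0 := by exact_mod_cast hβ0.ne'
  set b := ∑ k ∈ E2, ‖ν k‖ ^ 2 with hb
  have hb0 : 0 ≤ b := sum_nonneg fun k _ => by positivity
  set A : ℕ → ℂ := fun p => ∑ i ∈ E1, a i * e1 i p with hA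
  set Bf : ℕ → ℂ := fun p => ∑ k ∈ E2, conj (ν k) * e2 k p with hB
  set d : ι → ℂ := fun i => (if i = i0 then 1 else 0) - a i / β with hd
  set t : ι → κ → ℂ := fun i k => d i * conj (ν k) with ht
  have hT : ∀ p ∈ P, ∑ i ∈ E1, ∑ k ∈ E2, t i k * e1 i p * e2 k p = (1 - A p / β) * Bf p := by
    intro p hp
    have e1' : ∑ i ∈ E1, ∑ k ∈ E2, t i k * e1 i p * e2 k p = (∑ i ∈ E1, d i * e1 i p) * Bf p := by
      rw [hB, sum_mul]
      refine sum_congr rfl fun i _ => ?_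
      rw [mul_sum]
      refine sum_congr rfl fun k _ => ?_
      simp only [ht]
      ring
    rw [e1']
    congr 1
    simp only [hd, sub_mul, sum_sub_distrib]
    congr 1
    · simp only [ite_mul, one_mul, zero_mul]
      rw [sum_ite_eq' E1 i0, if_pos hi0, he1 p hp]
    · rw [hA, sum_div]
      exact sum_congr rfl fun i _ => by ring
  -- the norm of `t`
  have hdn : ∑ i ∈ E1, ‖d i‖ ^ 2 ≤ 1 - 1 / β + 2 * η / β := by
    have h1 : ∀ i ∈ E1, ‖d i‖ ^ 2 = ‖a i‖ ^ 2 / β ^ 2 +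
        (if i = i0 then 1 - 2 * (a i0).re / β else 0) := by
      intro i _
      by_cases hi : i = i0
      · subst hi
        simp only [hd, if_true]
        rw [← Complex.normSq_eq_norm_sq, ← Complex.normSq_eq_norm_sq, Complex.normSq_apply,
          Complex.normSq_apply]
        have e3 : ((1 : ℂ) - a i / β).re = 1 - (a i).re / β := by
          rw [Complex.sub_re, Complex.one_re, Complex.div_ofReal_re]
        have e4 : ((1 : ℂ) - a i / β).im = - ((a i).im / β) := by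
          rw [Complex.sub_im, Complex.one_im, Complex.div_ofReal_im]
          ring
        rw [e3, e4]
        field_simp
        ring
      · simp only [hd, if_neg hi, zero_sub, norm_neg, norm_div, Complex.norm_real,
          Real.norm_eq_abs, abs_of_pos hβ0, add_zero]
        rw [div_pow]
    rw [sum_congr rfl h1, sum_add_distrib, ← sum_div, sum_ite_eq' E1 i0, if_pos hi0]
    have h2 : (∑ i ∈ E1, ‖a i‖ ^ 2) / β ^ 2 ≤ 1 / β := by
      rw [div_le_div_iff₀ (by positivity) hβ0]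
      calc (∑ i ∈ E1, ‖a i‖ ^ 2) * β ≤ β * β :=
            mul_le_mul_of_nonneg_right ha hβ0.le
        _ = 1 * β ^ 2 := by ring
    have h4 : 2 * (1 - η) / β ≤ 2 * (a i0).re / β :=
      div_le_div_of_nonneg_right (by linarith) hβ0.le
    have h5 : 1 / β + (1 - 2 * (1 - η) / β) = 1 - 1 / β + 2 * η / β := by
      field_simp
      ring
    linarith
  have htn : ∑ i ∈ E1, ∑ k ∈ E2, ‖t i k‖ ^ 2 ≤ (1 - 1 / β + 2 * η / β) * b := by
    have h1 : ∑ i ∈ E1, ∑ k ∈ E2, ‖t i k‖ ^ 2 = (∑ i ∈ E1, ‖d i‖ ^ 2) * b := by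
      rw [hb, sum_mul]
      refine sum_congr rfl fun i _ => ?_
      rw [mul_sum]
      refine sum_congr rfl fun k _ => ?_
      simp only [ht]
      rw [norm_mul, RCLike.norm_conj, mul_pow]
    rw [h1]
    exact mul_le_mul_of_nonneg_right hdn hb0
  -- the mean of `T`
  have hTs := hS t
  have hTs' : ∑ p ∈ P, w p * ‖(1 - A p / β) * Bf p‖ ^ 2 ≤ F * s * ∑ i ∈ E1, ∑ k ∈ E2, ‖t i k‖ ^ 2 := by
    refine le_trans (le_of_eq ?_) hTs
    exact sum_congr rfl fun p hp => by rw [hT p hp]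
  have hcs := wcs' P w hw (fun p => (1 - A p / β) * Bf p)
  set M : ℂ := ∑ p ∈ P, (w p : ℂ) * ((1 - A p / β) * Bf p) with hM
  have hdual := dual' P w s hs E2 e2 ν hν
  have hsplit : ((s * b : ℝ) : ℂ) = M + (1 / (β : ℂ)) *
      ∑ p ∈ P, (w p : ℂ) * (∑ i ∈ E1, a i * e1 i p) * (∑ k ∈ E2, conj (ν k) * e2 k p) := by
    rw [← hdual, hM, mul_sum, ← sum_add_distrib]
    refine sum_congr rfl fun p _ => ?_
    simp only [hA, hB]
    field_simp
    ring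
  have hsb : s * b ≤ ‖M‖ + η * s / β := by
    have h1 : s * b = ‖((s * b : ℝ) : ℂ)‖ := by
      rw [Complex.norm_real, Real.norm_eq_abs, abs_of_nonneg (by positivity)]
    rw [h1, hsplit]
    refine (norm_add_le _ _).trans ?_
    have h2 : ‖(1 / (β : ℂ)) *
      ∑ p ∈ P, (w p : ℂ) * (∑ i ∈ E1, a i * e1 i p) * (∑ k ∈ E2, conj (ν k) * e2 k p)‖ ≤
        η * s / β := by
      rw [norm_mul, norm_div, norm_one, Complex.norm_real, Real.norm_eq_abs, abs_of_pos hβ0,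
        one_div, inv_mul_eq_div]
      exact div_le_div_of_nonneg_right h3 hβ0.le
    linarith
  have hW0 : 0 ≤ ∑ p ∈ P, w p := sum_nonneg hw
  have hq0 : 0 ≤ 1 - 1 / β := by
    have : 1 / β ≤ 1 := by rw [div_le_one hβ0]; exact hβ1
    linarith
  have hηβ : η / β ≤ η := by rw [div_le_iff₀ hβ0]; nlinarith
  have hηβ0 : 0 ≤ η / β := by positivity
  have hM2 : ‖M‖ ^ 2 ≤ s ^ 2 * (((1 + η) * (F * (1 - 1 / β + 2 * (η / β)))) * b) := by
    refine hcs.trans ?_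
    have h1 : (∑ p ∈ P, w p) * ∑ p ∈ P, w p * ‖(1 - A p / β) * Bf p‖ ^ 2 ≤
        ((1 + η) * s) * (F * s * ((1 - 1 / β + 2 * η / β) * b)) := by
      refine mul_le_mul hm (hTs'.trans (mul_le_mul_of_nonneg_left htn (by positivity))) ?_
        (by positivity)
      exact sum_nonneg fun p hp => mul_nonneg (hw p hp) (by positivity)
    refine h1.trans (le_of_eq ?_)
    rw [mul_div_assoc 2 η β]
    ring
  set G := (1 + η) * (F * (1 - 1 / β + 2 * (η / β))) with hG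
  have hG0 : 0 ≤ G := by
    rw [hG]
    refine mul_nonneg (by linarith) (mul_nonneg hF1 (by linarith))
  have hMle : ‖M‖ ≤ s * ((G + b) / 2) := by
    have h1 : (s * ((G + b) / 2)) ^ 2 ≥ s ^ 2 * (G * b) := by
      have : 0 ≤ s ^ 2 * (G - b) ^ 2 := by positivity
      nlinarith
    exact abs_le_of_sq_le_sq' (hM2.trans h1) (by positivity) |>.2
  have h7 : b ≤ (G + b) / 2 + η / β := by
    have h8 : s * b ≤ s * ((G + b) / 2 + η / β) := by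
      rw [mul_add]
      have : η * s / β = s * (η / β) := by ring
      linarith
    exact le_of_mul_le_mul_left h8 hs
  have h9 : G ≤ F * (1 - 1 / β) + 4 * η + 9 / 2 * (2 * (η / β)) - 4 * (η / β) := by
    rw [hG]
    have e1 : F * (1 - 1 / β) ≤ 4 * (1 - 1 / β) := mul_le_mul_of_nonneg_right hF hq0
    have e2 : F * (2 * (η / β)) ≤ 4 * (2 * (η / β)) :=
      mul_le_mul_of_nonneg_right hF (by positivity)
    have e3 : (1 + η) * (F * (1 - 1 / β + 2 * (η / β))) =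
        F * (1 - 1 / β) + η * (F * (1 - 1 / β)) + (1 + η) * (F * (2 * (η / β))) := by ring
    rw [e3]
    have e4 : η * (F * (1 - 1 / β)) ≤ η * (4 * (1 - 1 / β)) := mul_le_mul_of_nonneg_left e1 hη0
    have e5 : (1 + η) * (F * (2 * (η / β))) ≤ (1 + η) * (4 * (2 * (η / β))) :=
      mul_le_mul_of_nonneg_left e2 (by linarith)
    have e6 : (1 + η) * (4 * (2 * (η / β))) ≤ (11 / 10) * (4 * (2 * (η / β))) :=
      mul_le_mul_of_nonneg_right (by linarith) (by positivity)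
    have e7 : η * (4 * (1 - 1 / β)) = 4 * η - 4 * (η / β) := by
      field_simp
    linarith
  linarith

/-- the middle edge -/
theorem cv_b {κ : Type*} (E : Finset κ) (k0 : κ) (hk : k0 ∈ E) (β β' θ : κ → ℂ)
    (hθ : ∀ k ∈ E, ‖θ k‖ = 1) (b η : ℝ) (hη0 : 0 ≤ η) (hη : η ≤ 1 / 10)
    (h1 : ∑ k ∈ E, ‖β k‖ ^ 2 ≤ b) (h2 : ∑ k ∈ E, ‖β' k‖ ^ 2 ≤ b)
    (h3 : 1 - η ≤ ‖β k0‖) (h4 : 1 - η ≤ ‖β' k0‖)
    (h5 : ‖∑ k ∈ E, conj (β' k) * θ k * β k‖ ≤ η) : 2 ≤ b + 5 * η := by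
  have := cl_b E k0 hk β β' θ hθ (b + 1 - 8 * η) η hη0 hη (by linarith) (by linarith) h3 h4 h5
  linarith

/-- one step of the recursion -/
theorem cv_step {ν β : ℝ} (hν0 : 0 < ν) (hν : ν ≤ 1 / 20) (hβ1 : 1 ≤ β) (k : ℕ)
    (hβ : β ≤ max (2 - ν / 4) (4 - k * (ν / 4))) :
    (4 - ν) * (1 - 1 / β) + 11 * (ν / 100) ≤ max (2 - ν / 4) (4 - ((k + 1 : ℕ) : ℝ) * (ν / 4)) := by
  have hβ0 : 0 < β := by linarith
  have key : ∀ γ : ℝ, 2 ≤ γ → β ≤ γ → (4 - ν) * (1 - 1 / β) + 11 * (ν / 100) ≤ γ - ν / 4 := by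
    intro γ h2 hγ
    have hγ0 : 0 < γ := by linarith
    have e1 : 1 / γ ≤ 1 / β := one_div_le_one_div_of_le hβ0 hγ
    have e2 : (4 - ν) * (1 - 1 / β) ≤ (4 - ν) * (1 - 1 / γ) :=
      mul_le_mul_of_nonneg_left (by linarith) (by linarith)
    have e3 : 1 / γ ≤ 1 / 2 := one_div_le_one_div_of_le (by norm_num) h2
    have e4 : 4 * (1 - 1 / γ) ≤ γ := by
      have : γ - 4 * (1 - 1 / γ) = (γ - 2) ^ 2 / γ := by field_simp; ring
      have h0 : 0 ≤ (γ - 2) ^ 2 / γ := by positivity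
      linarith
    have e5 : ν * (1 / 2) ≤ ν * (1 - 1 / γ) := mul_le_mul_of_nonneg_left (by linarith) hν0.le
    nlinarith
  rcases le_total β 2 with h | h
  · exact (key 2 le_rfl h).trans (le_max_left _ _)
  · rcases le_max_iff.1 hβ with h' | h'
    · exact absurd h' (by linarith)
    · refine (key _ (h.trans h') h').trans ?_
      refine le_trans (le_of_eq ?_) (le_max_right _ _)
      push_cast
      ring

end Pool.MP_dd84fd_nt.TC
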