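import Pool.Agent.Lib.MP_dd84fd_nt.TC.KfA

/-!
# TC-Bes: Bessel's inequality over the windows

`y_j = y₀ + σ j Δ/2`, `S(x) = ∑ a(n) e(nx)`.  By `kf_fourier` (substitution `ξ = Δ x`)
`kf((n - y_j)/Δ) = ∫_{-1/Δ}^{1/Δ} Δ (1 - Δ|x|) e((n - y_j) x) dx`, so the inner sum is
`∫_{-1/Δ}^{1/Δ} G(x) e(-σ j Δ x/2) dx`, `G(x) = Δ (1 - Δ|x|) S(x) e(-y₀ x)`.  The functions
`e(j Δ x/2)`, `j ∈ ℤ`, are orthogonal on the interval, which has length `2/Δ`: Bessel's inequality gives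
`∑_j |∫ G e(..)|² ≤ (2/Δ) ∫ |G|² ≤ (2/Δ) Δ² ∫ |S|²` (Mathlib: `fourierCoeffOn`, or directly:
`0 ≤ ∫ |G - (Δ/2) ∑_j c_j e_j|²`).
-/

set_option autoImplicit false

namespace Pool.MP_dd84fd_nt.TC

open Finset Pool.MP_67663b_nt.Odd

private theorem bes_cont_ee : Continuous ee := by
  unfold ee
  fun_prop

/-- the substitution -/
private theorem bes_kf (Δ u : ℝ) (hΔ : 0 < Δ) : ((kf (u / Δ) : ℝ) : ℂ) =
    ∫ x in (-(1 / Δ))..(1 / Δ), ((Δ * (1 - Δ * |x|) : ℝ) : ℂ) * ee (u * x) := by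
  have h1 := intervalIntegral.integral_comp_mul_left
    (a := -(1 / Δ)) (b := 1 / Δ) (fun ξ : ℝ => ((1 - |ξ| : ℝ) : ℂ) * ee (ξ * (u / Δ))) hΔ.ne'
  have e1 : Δ * -(1 / Δ) = -1 := by field_simp
  have e2 : Δ * (1 / Δ) = 1 := by field_simp
  rw [e1, e2, ← kf_fourier] at h1
  have h2 : ((kf (u / Δ) : ℝ) : ℂ) =
      (Δ : ℂ) * ∫ x in (-(1 / Δ))..(1 / Δ), ((1 - |Δ * x| : ℝ) : ℂ) * ee (Δ * x * (u / Δ)) := by
    rw [h1, Complex.real_smul, Complex.ofReal_inv, ← mul_assoc, mul_inv_cancel₀, one_mul]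
    exact_mod_cast hΔ.ne'
  rw [h2, ← intervalIntegral.integral_const_mul]
  congr 1
  funext x
  have e3 : Δ * x * (u / Δ) = u * x := by field_simp
  rw [e3, abs_mul, abs_of_pos hΔ]
  push_cast
  ring

theorem bes (a : ℕ → ℂ) (N : ℕ) (Δ y₀ σ : ℝ) (hΔ : 0 < Δ) (hσ : σ = 1 ∨ σ = -1) (J : Finset ℕ) :
    ∑ j ∈ J, ‖∑ n ∈ Icc 1 N,
        ((kf (((n : ℝ) - (y₀ + σ * (j * Δ / 2))) / Δ) : ℝ) : ℂ) * a n‖ ^ 2 ≤
      2 * Δ * ∫ x in (-(1 / Δ))..(1 / Δ), ‖∑ n ∈ Icc 1 N, a n * ee ((n : ℝ) * x)‖ ^ 2 := by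
  have hab : -(1 / Δ) < 1 / Δ := by
    have : 0 < 1 / Δ := by positivity
    linarith
  have hlen : 1 / Δ - -(1 / Δ) = 2 / Δ := by ring
  set S : ℝ → ℂ := fun x => ∑ n ∈ Icc 1 N, a n * ee ((n : ℝ) * x) with hS
  have hScont : Continuous S := by
    refine continuous_finsetSum _ fun n _ => ?_
    exact continuous_const.mul (bes_cont_ee.comp (continuous_const.mul continuous_id))
  set G : ℝ → ℂ := fun x => ((Δ * (1 - Δ * |x|) : ℝ) : ℂ) * ee (-y₀ * x) * S x with hG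
  have hGcont : Continuous G := by
    refine Continuous.mul (Continuous.mul ?_ (bes_cont_ee.comp (continuous_const.mul continuous_id))) hScont
    exact Complex.continuous_ofReal.comp (by fun_prop)
  obtain ⟨s, hs⟩ : ∃ s : ℤ, (s : ℝ) = σ ∧ (s = 1 ∨ s = -1) := by
    rcases hσ with h | h
    · exact ⟨1, by rw [h]; norm_num, Or.inl rfl⟩
    · exact ⟨-1, by rw [h]; norm_num, Or.inr rfl⟩
  -- the inner sum as a Fourier coefficient
  have hI : ∀ j : ℕ, ∑ n ∈ Icc 1 N, ((kf (((n : ℝ) - (y₀ + σ * (j * Δ / 2))) / Δ) : ℝ) : ℂ) * a n =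
      ((2 / Δ : ℝ) : ℂ) * fourierCoeffOn hab G (s * j) := by
    intro j
    rw [fourierCoeffOn_eq_integral, hlen, Complex.real_smul, ← mul_assoc, ← Complex.ofReal_mul]
    have e1 : 2 / Δ * (1 / (2 / Δ)) = 1 := by field_simp
    rw [e1, Complex.ofReal_one, one_mul]
    have h1 : ∀ n ∈ Icc 1 N, ((kf (((n : ℝ) - (y₀ + σ * (j * Δ / 2))) / Δ) : ℝ) : ℂ) * a n =
        ∫ x in (-(1 / Δ))..(1 / Δ), ((Δ * (1 - Δ * |x|) : ℝ) : ℂ) *
          ee (((n : ℝ) - (y₀ + σ * (j * Δ / 2))) * x) * a n := by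
      intro n _
      rw [bes_kf _ _ hΔ, ← intervalIntegral.integral_mul_const]
    rw [Finset.sum_congr rfl h1, ← intervalIntegral.integral_finsetSum]
    · congr 1
      funext x
      rw [smul_eq_mul, fourier_coe_apply, hG, hS]
      simp only
      rw [Finset.mul_sum, Finset.mul_sum]
      refine Finset.sum_congr rfl fun n _ => ?_
      have e2 : ((n : ℝ) - (y₀ + σ * (j * Δ / 2))) * x = -(σ * (j * Δ / 2)) * x + (-y₀ * x + n * x) := by ring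
      have e3 : ee (-(σ * (j * Δ / 2)) * x) =
          Complex.exp (2 * Real.pi * Complex.I * ((-(s * (j : ℤ)) : ℤ) : ℂ) * (x : ℂ) / ((2 / Δ : ℝ) : ℂ)) := by
        unfold ee
        congr 1
        rw [← hs.1]
        have hΔ0 : (Δ : ℂ) ≠ 0 := by exact_mod_cast hΔ.ne'
        push_cast
        field_simp
      rw [e2, ee_add, ee_add, e3]
      ring
    · intro n _
      refine Continuous.intervalIntegrable ?_ _ _
      refine Continuous.mul (Continuous.mul ?_ (bes_cont_ee.comp (continuous_const.mul continuous_id))) continuous_const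
      exact Complex.continuous_ofReal.comp (by fun_prop)
  have hL2 : MeasureTheory.MemLp G 2 (MeasureTheory.volume.restrict (Set.Ioc (-(1 / Δ)) (1 / Δ))) := by
    obtain ⟨C, hC⟩ := (isCompact_Icc (a := -(1 / Δ)) (b := 1 / Δ)).exists_bound_of_continuousOn hGcont.continuousOn
    refine MeasureTheory.MemLp.of_bound hGcont.aestronglyMeasurable C ?_
    refine MeasureTheory.ae_restrict_of_forall_mem measurableSet_Ioc fun x hx => hC x ⟨hx.1.le, hx.2⟩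
  have hB := hasSum_sq_fourierCoeffOn hab hL2
  rw [hlen] at hB
  have hinj : ∀ j ∈ J, ∀ j' ∈ J, (s * (j : ℤ)) = s * (j' : ℤ) → j = j' := by
    intro j _ j' _ h
    have hs0 : s ≠ 0 := by
      rcases hs.2 with h | h <;> rw [h] <;> norm_num
    have := mul_left_cancel₀ hs0 h
    exact_mod_cast this
  have h2 : ∑ j ∈ J, ‖fourierCoeffOn hab G (s * j)‖ ^ 2 ≤ (2 / Δ)⁻¹ • ∫ x in (-(1 / Δ))..(1 / Δ), ‖G x‖ ^ 2 := by
    have h3 : ∑ j ∈ J, ‖fourierCoeffOn hab G (s * j)‖ ^ 2 =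
        ∑ i ∈ J.image (fun j : ℕ => s * (j : ℤ)), ‖fourierCoeffOn hab G i‖ ^ 2 := by
      rw [Finset.sum_image hinj]
    rw [h3]
    exact sum_le_hasSum _ (fun i _ => sq_nonneg _) hB
  have h4 : ∫ x in (-(1 / Δ))..(1 / Δ), ‖G x‖ ^ 2 ≤ Δ ^ 2 * ∫ x in (-(1 / Δ))..(1 / Δ), ‖S x‖ ^ 2 := by
    rw [← intervalIntegral.integral_const_mul]
    refine intervalIntegral.integral_mono_on hab.le ?_ ?_ fun x hx => ?_
    · exact (hGcont.norm.pow 2).intervalIntegrable _ _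
    · exact (continuous_const.mul (hScont.norm.pow 2)).intervalIntegrable _ _
    · have hx1 : |x| ≤ 1 / Δ := abs_le.2 ⟨hx.1, hx.2⟩
      have hx2 : Δ * |x| ≤ 1 := by
        rw [le_div_iff₀ hΔ] at hx1
        linarith
      have hx3 : 0 ≤ Δ * |x| := by positivity
      have h5 : ‖G x‖ = Δ * (1 - Δ * |x|) * ‖S x‖ := by
        rw [hG]
        simp only
        rw [norm_mul, norm_mul, norm_ee, mul_one, Complex.norm_real, Real.norm_eq_abs,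
          abs_of_nonneg (mul_nonneg hΔ.le (by linarith))]
      have h6 : ‖G x‖ ≤ Δ * ‖S x‖ := by
        rw [h5]
        refine mul_le_mul_of_nonneg_right ?_ (norm_nonneg _)
        nlinarith
      calc ‖G x‖ ^ 2 ≤ (Δ * ‖S x‖) ^ 2 := pow_le_pow_left₀ (norm_nonneg _) h6 2
        _ = Δ ^ 2 * ‖S x‖ ^ 2 := by ring
  calc ∑ j ∈ J, ‖∑ n ∈ Icc 1 N, ((kf (((n : ℝ) - (y₀ + σ * (j * Δ / 2))) / Δ) : ℝ) : ℂ) * a n‖ ^ 2
      = ∑ j ∈ J, (2 / Δ) ^ 2 * ‖fourierCoeffOn hab G (s * j)‖ ^ 2 := by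
        refine Finset.sum_congr rfl fun j _ => ?_
        rw [hI j, norm_mul, Complex.norm_real, Real.norm_eq_abs, abs_of_pos (by positivity), mul_pow]
    _ = (2 / Δ) ^ 2 * ∑ j ∈ J, ‖fourierCoeffOn hab G (s * j)‖ ^ 2 := by rw [Finset.mul_sum]
    _ ≤ (2 / Δ) ^ 2 * ((2 / Δ)⁻¹ • ∫ x in (-(1 / Δ))..(1 / Δ), ‖G x‖ ^ 2) :=
        mul_le_mul_of_nonneg_left h2 (by positivity)
    _ = 2 / Δ * ∫ x in (-(1 / Δ))..(1 / Δ), ‖G x‖ ^ 2 := by
        rw [smul_eq_mul]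
        field_simp
    _ ≤ 2 / Δ * (Δ ^ 2 * ∫ x in (-(1 / Δ))..(1 / Δ), ‖S x‖ ^ 2) :=
        mul_le_mul_of_nonneg_left h4 (by positivity)
    _ = 2 * Δ * ∫ x in (-(1 / Δ))..(1 / Δ), ‖S x‖ ^ 2 := by
        field_simp

end Pool.MP_dd84fd_nt.TC
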