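import Pool.Agent.Lib.MP_dd84fd_nt.TC.Str
import Pool.Agent.Lib.MP_dd84fd_nt.E2.MinorP

/-!
# TC-Cnt: few numbers have large moduli (helper15)

For given sets `T, T'` of characters and a given difference `n' - n` the conditions `q_T ∣ n Λ`,
`q_T' ∣ n' Λ` put `n` in one residue class modulo `ℓ / (ℓ, Λ)`, `ℓ = [q_T, q_T']`: at most
`X Λ / ℓ + 1` numbers.
-/

set_option autoImplicit false

namespace Pool.MP_dd84fd_nt.TC

open Finset Pool.MP_67663b_nt.Odd Pool.MP_dd84fd_nt.E2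
open Pool.MP_dd84fd_nt.BX (PC pv IsPC PR SX sN prc ind)

theorem ct_mod (X d : ℕ) (hd : 1 ≤ d) (S : Finset ℕ) (hS : S ⊆ Icc 1 X)
    (h : ∀ a ∈ S, ∀ b ∈ S, a ≡ b [MOD d]) : S.card ≤ X / d + 1 := by
  have h1 : S.card ≤ (range (X / d + 1)).card := by
    refine card_le_card_of_injOn (fun a => a / d) (fun a ha => ?_) (fun a ha b hb hab => ?_)
    · have h2 := (mem_Icc.1 (hS ha)).2
      rw [coe_range, Set.mem_Iio]
      exact Nat.lt_succ_of_le (Nat.div_le_div_right h2)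
    · have h3 : a % d = b % d := h a ha b hb
      have h4 : a / d = b / d := hab
      rw [← Nat.div_add_mod a d, ← Nat.div_add_mod b d, h3, h4]
  rwa [card_range] at h1

open Classical in
/-- the numbers `n ≤ X` with `a ∣ n Λ`, `b ∣ n' Λ`, `n' + M = n + i` -/
noncomputable def ctS (X Λ a b M i : ℕ) : Finset ℕ :=
  (Icc 1 X).filter (fun n => a ∣ n * Λ ∧ ∃ n', n' + M = n + i ∧ b ∣ n' * Λ)

theorem ct_pair (X Λ a b M i : ℕ) (hΛ : 0 < Λ) (ha : 0 < a) (hb : 0 < b) :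
    ((ctS X Λ a b M i).card : ℝ) ≤ X * Λ / (Nat.lcm a b : ℝ) + 1 := by
  classical
  obtain ⟨l, hl⟩ : ∃ l : ℕ, l = Nat.lcm a b := ⟨_, rfl⟩
  have hl0 : 0 < l := by rw [hl]; exact Nat.lcm_pos ha hb
  have hg0 : 0 < Nat.gcd l Λ := Nat.gcd_pos_of_pos_left _ hl0
  obtain ⟨d, hd⟩ : ∃ d : ℕ, d = l / Nat.gcd l Λ := ⟨_, rfl⟩
  have hld : Nat.gcd l Λ * d = l := by rw [hd]; exact Nat.mul_div_cancel' (Nat.gcd_dvd_left _ _)
  have hd0 : 0 < d := by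
    rcases Nat.eq_zero_or_pos d with h | h
    · rw [h, mul_zero] at hld; omega
    · exact h
  have h1 : (ctS X Λ a b M i).card ≤ X / d + 1 := by
    refine ct_mod X d hd0 _ (filter_subset _ _) fun n1 hn1 n2 hn2 => ?_
    unfold ctS at hn1 hn2
    rw [mem_filter] at hn1 hn2
    obtain ⟨-, a1, m1, e1, b1⟩ := hn1
    obtain ⟨-, a2, m2, e2, b2⟩ := hn2
    have k : n1 * Λ ≡ n2 * Λ [MOD l] := by
      rw [Nat.modEq_iff_dvd, hl]
      have c1 : (a : ℤ) ∣ ((n2 * Λ : ℕ) : ℤ) - ((n1 * Λ : ℕ) : ℤ) :=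
        dvd_sub (by exact_mod_cast a2) (by exact_mod_cast a1)
      have c2 : (b : ℤ) ∣ ((n2 * Λ : ℕ) : ℤ) - ((n1 * Λ : ℕ) : ℤ) := by
        have c3 : (b : ℤ) ∣ ((m2 * Λ : ℕ) : ℤ) - ((m1 * Λ : ℕ) : ℤ) :=
          dvd_sub (by exact_mod_cast b2) (by exact_mod_cast b1)
        have c4 : ((n2 * Λ : ℕ) : ℤ) - ((n1 * Λ : ℕ) : ℤ) =
            ((m2 * Λ : ℕ) : ℤ) - ((m1 * Λ : ℕ) : ℤ) := by
          have f1 : (m1 : ℤ) + M = n1 + i := by exact_mod_cast e1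
          have f2 : (m2 : ℤ) + M = n2 + i := by exact_mod_cast e2
          push_cast
          have f3 : (n2 : ℤ) - n1 = m2 - m1 := by linarith
          calc (n2 : ℤ) * Λ - n1 * Λ = (n2 - n1) * Λ := by ring
            _ = (m2 - m1) * Λ := by rw [f3]
            _ = _ := by ring
        rw [c4]
        exact c3
      have := Int.coe_lcm_dvd c1 c2
      simpa using this
    rw [hd]
    exact Nat.ModEq.cancel_right_div_gcd hl0 k
  have h2 : ((X / d : ℕ) : ℝ) ≤ (X : ℝ) / d := Nat.cast_div_le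
  have h3 : (X : ℝ) / d ≤ X * Λ / l := by
    rw [div_le_div_iff₀ (by exact_mod_cast hd0) (by exact_mod_cast hl0)]
    have h4 : l ≤ Λ * d := by
      rw [← hld]
      exact Nat.mul_le_mul_right _ (Nat.le_of_dvd hΛ (Nat.gcd_dvd_right _ _))
    have h5 : (l : ℝ) ≤ Λ * d := by exact_mod_cast h4
    calc (X : ℝ) * l ≤ X * (Λ * d) := mul_le_mul_of_nonneg_left h5 (Nat.cast_nonneg _)
      _ = X * Λ * d := by ring
  rw [← hl]
  calc ((ctS X Λ a b M i).card : ℝ) ≤ ((X / d + 1 : ℕ) : ℝ) := by exact_mod_cast h1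
    _ = ((X / d : ℕ) : ℝ) + 1 := by push_cast; ring
    _ ≤ X * Λ / l + 1 := by linarith

theorem cntT : CntT := by
  classical
  intro ν h0 h1 H N K
  obtain ⟨Λ, hΛ⟩ : ∃ Λ : ℕ, Λ = Lm H := ⟨_, rfl⟩
  have hΛ0 : 0 < Λ := by rw [hΛ]; exact Lm_pos H
  have hΛ1 : (1 : ℝ) ≤ Λ := by exact_mod_cast hΛ0
  obtain ⟨X1, hX1⟩ := MP_log_pow (9 * 4 ^ N * (Λ : ℝ) ^ 2) K (ε := ν) h0
  obtain ⟨X2, hX2⟩ := MP_log_large 1
  refine ⟨max X1 (max X2 1), fun X hX Y hYN hY => ?_⟩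
  simp only [max_le_iff] at hX
  obtain ⟨gX1, gX2, gX3⟩ := hX
  have g1 := hX1 X gX1
  have hL := hX2 X gX2
  have hXr : (1 : ℝ) ≤ X := by exact_mod_cast gX3
  have hX0 : (0 : ℝ) < X := by linarith
  obtain ⟨L, hLd⟩ : ∃ L : ℝ, L = Real.log X := ⟨_, rfl⟩
  rw [← hLd] at g1 hL ⊢
  have hLK : (1 : ℝ) ≤ L ^ K := one_le_pow₀ hL
  obtain ⟨M, hM⟩ : ∃ M : ℕ, M = ⌊L ^ K⌋₊ := ⟨_, rfl⟩
  have hML : (M : ℝ) ≤ L ^ K := by rw [hM]; exact Nat.floor_le (by linarith)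
  set q : Finset PC → ℕ := fun T => T.lcm (fun ψ => ψ.1) with hq
  have hqpos : ∀ T ∈ Y.powerset, 0 < q T := by
    intro T hT
    rw [hq, Nat.pos_iff_ne_zero]
    simp only
    rw [Ne, Finset.lcm_eq_zero_iff]
    rintro ⟨ψ, hψ, h⟩
    have := hY ψ (mem_powerset.1 hT hψ)
    omega
  set U : Finset PC × Finset PC × ℕ → Finset ℕ := fun t =>
    if (X : ℝ) ^ (2 / 3 - ν) < 2 * (Λ : ℝ) * (Nat.lcm (q t.1) (q t.2.1) : ℝ) then
      ctS X Λ (q t.1) (q t.2.1) M t.2.2 else ∅ with hU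
  set TT := Y.powerset ×ˢ Y.powerset ×ˢ range (2 * M + 1) with hTT
  have hsub : ((Icc 1 X).filter (fun n : ℕ => ∃ n' : ℕ, n' ≤ 2 * X ∧ |(n' : ℝ) - n| ≤ L ^ K ∧
      (X : ℝ) ^ (2 / 3 - ν) < 2 * (Lm H : ℝ) * (Nat.lcm (qY Y H n) (qY Y H n') : ℝ))) ⊆
      TT.biUnion U := by
    intro n hn
    rw [mem_filter] at hn
    obtain ⟨hn1, n', hn2, hn3, hn4⟩ := hn
    rw [mem_biUnion]
    have b1 : n ≤ n' + M := by
      have c1 : (n : ℝ) - n' ≤ L ^ K := by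
        have := (abs_le.1 hn3).1
        linarith
      by_contra hcon
      push Not at hcon
      have c2 : M + 1 ≤ n - n' := by omega
      have c3 : ((M + 1 : ℕ) : ℝ) ≤ ((n - n' : ℕ) : ℝ) := by exact_mod_cast c2
      rw [Nat.cast_sub (by omega)] at c3
      have c4 : L ^ K < (M : ℝ) + 1 := by rw [hM]; exact Nat.lt_floor_add_one _
      push_cast at c3
      linarith
    have b2 : n' ≤ n + M := by
      have c1 : (n' : ℝ) - n ≤ L ^ K := (abs_le.1 hn3).2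
      by_contra hcon
      push Not at hcon
      have c2 : M + 1 ≤ n' - n := by omega
      have c3 : ((M + 1 : ℕ) : ℝ) ≤ ((n' - n : ℕ) : ℝ) := by exact_mod_cast c2
      rw [Nat.cast_sub (by omega)] at c3
      have c4 : L ^ K < (M : ℝ) + 1 := by rw [hM]; exact Nat.lt_floor_add_one _
      push_cast at c3
      linarith
    refine ⟨(Y.filter (fun ψ => ψ.1 / Nat.gcd ψ.1 n ≤ H), Y.filter (fun ψ => ψ.1 / Nat.gcd ψ.1 n' ≤ H),
      n' + M - n), ?_, ?_⟩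
    · rw [hTT, mem_product, mem_product, mem_powerset, mem_powerset, mem_range]
      refine ⟨filter_subset _ _, filter_subset _ _, ?_⟩
      show n' + M - n < 2 * M + 1
      omega
    · have e1 : q (Y.filter (fun ψ => ψ.1 / Nat.gcd ψ.1 n ≤ H)) = qY Y H n := rfl
      have e2 : q (Y.filter (fun ψ => ψ.1 / Nat.gcd ψ.1 n' ≤ H)) = qY Y H n' := rfl
      rw [hU]
      simp only
      rw [e1, e2, hΛ, if_pos hn4]
      unfold ctS
      rw [mem_filter]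
      refine ⟨hn1, qY_dvd Y H n hY, n', by omega, qY_dvd Y H n' hY⟩
  have hUc : ∀ t ∈ TT, ((U t).card : ℝ) ≤ 3 * (Λ : ℝ) ^ 2 * (X : ℝ) ^ (1 / 3 + ν) := by
    intro t ht
    rw [hTT, mem_product, mem_product] at ht
    have p1 := hqpos _ ht.1
    have p2 := hqpos _ ht.2.1
    have hXν : (1 : ℝ) ≤ (X : ℝ) ^ (1 / 3 + ν) := Real.one_le_rpow hXr (by linarith)
    have hsq : (1 : ℝ) ≤ (Λ : ℝ) ^ 2 := one_le_pow₀ hΛ1
    rw [hU]
    simp only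
    split_ifs with hc
    · have k1 := ct_pair X Λ (q t.1) (q t.2.1) M t.2.2 hΛ0 p1 p2
      have hl : (0 : ℝ) < (Nat.lcm (q t.1) (q t.2.1) : ℝ) := by exact_mod_cast Nat.lcm_pos p1 p2
      have k2 : (X : ℝ) * Λ / (Nat.lcm (q t.1) (q t.2.1) : ℝ) ≤
          2 * (Λ : ℝ) ^ 2 * (X : ℝ) ^ (1 / 3 + ν) := by
        rw [div_le_iff₀ hl]
        have k3 : (X : ℝ) = (X : ℝ) ^ (1 / 3 + ν) * (X : ℝ) ^ (2 / 3 - ν) := by
          rw [← Real.rpow_add hX0]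
          norm_num
        calc (X : ℝ) * Λ = (X : ℝ) ^ (1 / 3 + ν) * (X : ℝ) ^ (2 / 3 - ν) * Λ := by rw [← k3]
          _ ≤ (X : ℝ) ^ (1 / 3 + ν) * (2 * (Λ : ℝ) * (Nat.lcm (q t.1) (q t.2.1) : ℝ)) * Λ :=
            mul_le_mul_of_nonneg_right (mul_le_mul_of_nonneg_left hc.le (by positivity))
              (by positivity)
          _ = _ := by ring
      have k4 : (1 : ℝ) ≤ (Λ : ℝ) ^ 2 * (X : ℝ) ^ (1 / 3 + ν) := by
        calc (1 : ℝ) = 1 * 1 := (one_mul _).symm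
          _ ≤ _ := mul_le_mul hsq hXν (by norm_num) (by positivity)
      linarith
    · rw [card_empty]
      push_cast
      positivity
  have hTc : (TT.card : ℝ) ≤ 4 ^ N * (3 * L ^ K) := by
    rw [hTT, card_product, card_product, card_powerset, card_range]
    have c1 : 2 ^ Y.card ≤ 2 ^ N := Nat.pow_le_pow_right (by norm_num) hYN
    have c2 : ((2 ^ Y.card : ℕ) : ℝ) ≤ 2 ^ N := by exact_mod_cast c1
    have c3 : ((2 * M + 1 : ℕ) : ℝ) ≤ 3 * L ^ K := by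
      push_cast
      linarith
    calc ((2 ^ Y.card * (2 ^ Y.card * (2 * M + 1)) : ℕ) : ℝ)
        = ((2 ^ Y.card : ℕ) : ℝ) * (((2 ^ Y.card : ℕ) : ℝ) * ((2 * M + 1 : ℕ) : ℝ)) := by
          push_cast; ring
      _ ≤ 2 ^ N * (2 ^ N * (3 * L ^ K)) := by gcongr
      _ = 4 ^ N * (3 * L ^ K) := by
          rw [show (4 : ℝ) = 2 * 2 by norm_num, mul_pow]
          ring
  calc (((Icc 1 X).filter (fun n : ℕ => ∃ n' : ℕ, n' ≤ 2 * X ∧ |(n' : ℝ) - n| ≤ L ^ K ∧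
      (X : ℝ) ^ (2 / 3 - ν) < 2 * (Lm H : ℝ) * (Nat.lcm (qY Y H n) (qY Y H n') : ℝ))).card : ℝ)
      ≤ ((TT.biUnion U).card : ℝ) := by exact_mod_cast card_le_card hsub
    _ ≤ ((∑ t ∈ TT, (U t).card : ℕ) : ℝ) := by exact_mod_cast card_biUnion_le
    _ = ∑ t ∈ TT, ((U t).card : ℝ) := by push_cast; rfl
    _ ≤ ∑ _t ∈ TT, 3 * (Λ : ℝ) ^ 2 * (X : ℝ) ^ (1 / 3 + ν) := sum_le_sum hUc
    _ = TT.card * (3 * (Λ : ℝ) ^ 2 * (X : ℝ) ^ (1 / 3 + ν)) := by rw [sum_const, nsmul_eq_mul]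
    _ ≤ 4 ^ N * (3 * L ^ K) * (3 * (Λ : ℝ) ^ 2 * (X : ℝ) ^ (1 / 3 + ν)) :=
        mul_le_mul_of_nonneg_right hTc (by positivity)
    _ = 9 * 4 ^ N * (Λ : ℝ) ^ 2 * L ^ K * (X : ℝ) ^ (1 / 3 + ν) := by ring
    _ ≤ (X : ℝ) ^ ν * (X : ℝ) ^ (1 / 3 + ν) := mul_le_mul_of_nonneg_right g1 (by positivity)
    _ = (X : ℝ) ^ (1 / 3 + 2 * ν) := by
        rw [← Real.rpow_add hX0]
        congr 1
        ring

end Pool.MP_dd84fd_nt.TC
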