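import Pool.Agent.Lib.MP_dd84fd_nt.TC.Cnt

/-!
# TC-CntA: few numbers have large moduli, pairs at distance at most `h` (helper15)

As TC/Cnt.lean with an arbitrary `h ≥ 1` in the place of `(log X)^K`, and the version for one number.
-/

set_option autoImplicit false

namespace Pool.MP_dd84fd_nt.TC

open Finset Pool.MP_67663b_nt.Odd Pool.MP_dd84fd_nt.E2
open Pool.MP_dd84fd_nt.BX (PC pv IsPC PR SX sN prc ind)

open Classical in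
theorem cnt_a (ν : ℝ) (h0 : 0 < ν) (h1 : ν ≤ 1 / 20) (H N : ℕ) : ∃ X0 : ℕ, ∀ X : ℕ, X0 ≤ X →
  ∀ Y : Finset PC, Y.card ≤ N → (∀ ψ ∈ Y, 1 ≤ ψ.1) → ∀ h : ℝ, 1 ≤ h →
    (((Icc 1 X).filter (fun n : ℕ => ∃ n' : ℕ, n' ≤ 2 * X ∧ |(n' : ℝ) - n| ≤ h ∧
      (X : ℝ) ^ (2 / 3 - ν) < 2 * (Lm H : ℝ) * (Nat.lcm (qY Y H n) (qY Y H n') : ℝ))).card : ℝ) ≤
      h * (X : ℝ) ^ (1 / 3 + 2 * ν) := by
  classical
  obtain ⟨Λ, hΛ⟩ : ∃ Λ : ℕ, Λ = Lm H := ⟨_, rfl⟩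
  have hΛ0 : 0 < Λ := by rw [hΛ]; exact Lm_pos H
  have hΛ1 : (1 : ℝ) ≤ Λ := by exact_mod_cast hΛ0
  obtain ⟨X1, hX1⟩ := MP_log_pow (9 * 4 ^ N * (Λ : ℝ) ^ 2) 0 (ε := ν) h0
  refine ⟨max X1 1, fun X hX Y hYN hY h hh => ?_⟩
  simp only [max_le_iff] at hX
  obtain ⟨gX1, gX3⟩ := hX
  have g1 := hX1 X gX1
  have hXr : (1 : ℝ) ≤ X := by exact_mod_cast gX3
  have hX0 : (0 : ℝ) < X := by linarith
  rw [pow_zero, mul_one] at g1
  obtain ⟨M, hM⟩ : ∃ M : ℕ, M = ⌊h⌋₊ := ⟨_, rfl⟩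
  have hML : (M : ℝ) ≤ h := by rw [hM]; exact Nat.floor_le (by linarith)
  set q : Finset PC → ℕ := fun T => T.lcm (fun ψ => ψ.1) with hq
  have hqpos : ∀ T ∈ Y.powerset, 0 < q T := by
    intro T hT
    rw [hq, Nat.pos_iff_ne_zero]
    simp only
    rw [Ne, Finset.lcm_eq_zero_iff]
    rintro ⟨ψ, hψ, h⟩
    have := hY ψ (mem_powerset.1 hT hψ)
    omega
  set U : Finset PC × Finset PC × ℕ → Finset ℕ := fun t =>
    if (X : ℝ) ^ (2 / 3 - ν) < 2 * (Λ : ℝ) * (Nat.lcm (q t.1) (q t.2.1) : ℝ) then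
      ctS X Λ (q t.1) (q t.2.1) M t.2.2 else ∅ with hU
  set TT := Y.powerset ×ˢ Y.powerset ×ˢ range (2 * M + 1) with hTT
  have hsub : ((Icc 1 X).filter (fun n : ℕ => ∃ n' : ℕ, n' ≤ 2 * X ∧ |(n' : ℝ) - n| ≤ h ∧
      (X : ℝ) ^ (2 / 3 - ν) < 2 * (Lm H : ℝ) * (Nat.lcm (qY Y H n) (qY Y H n') : ℝ))) ⊆
      TT.biUnion U := by
    intro n hn
    rw [mem_filter] at hn
    obtain ⟨hn1, n', hn2, hn3, hn4⟩ := hn
    rw [mem_biUnion]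
    have b1 : n ≤ n' + M := by
      have c1 : (n : ℝ) - n' ≤ h := by
        have := (abs_le.1 hn3).1
        linarith
      by_contra hcon
      push Not at hcon
      have c2 : M + 1 ≤ n - n' := by omega
      have c3 : ((M + 1 : ℕ) : ℝ) ≤ ((n - n' : ℕ) : ℝ) := by exact_mod_cast c2
      rw [Nat.cast_sub (by omega)] at c3
      have c4 : h < (M : ℝ) + 1 := by rw [hM]; exact Nat.lt_floor_add_one _
      push_cast at c3
      linarith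
    have b2 : n' ≤ n + M := by
      have c1 : (n' : ℝ) - n ≤ h := (abs_le.1 hn3).2
      by_contra hcon
      push Not at hcon
      have c2 : M + 1 ≤ n' - n := by omega
      have c3 : ((M + 1 : ℕ) : ℝ) ≤ ((n' - n : ℕ) : ℝ) := by exact_mod_cast c2
      rw [Nat.cast_sub (by omega)] at c3
      have c4 : h < (M : ℝ) + 1 := by rw [hM]; exact Nat.lt_floor_add_one _
      push_cast at c3
      linarith
    refine ⟨(Y.filter (fun ψ => ψ.1 / Nat.gcd ψ.1 n ≤ H), Y.filter (fun ψ => ψ.1 / Nat.gcd ψ.1 n' ≤ H),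
      n' + M - n), ?_, ?_⟩
    · rw [hTT, mem_product, mem_product, mem_powerset, mem_powerset, mem_range]
      refine ⟨filter_subset _ _, filter_subset _ _, ?_⟩
      show n' + M - n < 2 * M + 1
      omega
    · have e1 : q (Y.filter (fun ψ => ψ.1 / Nat.gcd ψ.1 n ≤ H)) = qY Y H n := rfl
      have e2 : q (Y.filter (fun ψ => ψ.1 / Nat.gcd ψ.1 n' ≤ H)) = qY Y H n' := rfl
      rw [hU]
      simp only
      rw [e1, e2, hΛ, if_pos hn4]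
      unfold ctS
      rw [mem_filter]
      refine ⟨hn1, qY_dvd Y H n hY, n', by omega, qY_dvd Y H n' hY⟩
  have hUc : ∀ t ∈ TT, ((U t).card : ℝ) ≤ 3 * (Λ : ℝ) ^ 2 * (X : ℝ) ^ (1 / 3 + ν) := by
    intro t ht
    rw [hTT, mem_product, mem_product] at ht
    have p1 := hqpos _ ht.1
    have p2 := hqpos _ ht.2.1
    have hXν : (1 : ℝ) ≤ (X : ℝ) ^ (1 / 3 + ν) := Real.one_le_rpow hXr (by linarith)
    have hsq : (1 : ℝ) ≤ (Λ : ℝ) ^ 2 := one_le_pow₀ hΛ1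
    rw [hU]
    simp only
    split_ifs with hc
    · have k1 := ct_pair X Λ (q t.1) (q t.2.1) M t.2.2 hΛ0 p1 p2
      have hl : (0 : ℝ) < (Nat.lcm (q t.1) (q t.2.1) : ℝ) := by exact_mod_cast Nat.lcm_pos p1 p2
      have k2 : (X : ℝ) * Λ / (Nat.lcm (q t.1) (q t.2.1) : ℝ) ≤
          2 * (Λ : ℝ) ^ 2 * (X : ℝ) ^ (1 / 3 + ν) := by
        rw [div_le_iff₀ hl]
        have k3 : (X : ℝ) = (X : ℝ) ^ (1 / 3 + ν) * (X : ℝ) ^ (2 / 3 - ν) := by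
          rw [← Real.rpow_add hX0]
          norm_num
        calc (X : ℝ) * Λ = (X : ℝ) ^ (1 / 3 + ν) * (X : ℝ) ^ (2 / 3 - ν) * Λ := by rw [← k3]
          _ ≤ (X : ℝ) ^ (1 / 3 + ν) * (2 * (Λ : ℝ) * (Nat.lcm (q t.1) (q t.2.1) : ℝ)) * Λ :=
            mul_le_mul_of_nonneg_right (mul_le_mul_of_nonneg_left hc.le (by positivity))
              (by positivity)
          _ = _ := by ring
      have k4 : (1 : ℝ) ≤ (Λ : ℝ) ^ 2 * (X : ℝ) ^ (1 / 3 + ν) := by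
        calc (1 : ℝ) = 1 * 1 := (one_mul _).symm
          _ ≤ _ := mul_le_mul hsq hXν (by norm_num) (by positivity)
      linarith
    · rw [card_empty]
      push_cast
      positivity
  have hTc : (TT.card : ℝ) ≤ 4 ^ N * (3 * h) := by
    rw [hTT, card_product, card_product, card_powerset, card_range]
    have c1 : 2 ^ Y.card ≤ 2 ^ N := Nat.pow_le_pow_right (by norm_num) hYN
    have c2 : ((2 ^ Y.card : ℕ) : ℝ) ≤ 2 ^ N := by exact_mod_cast c1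
    have c3 : ((2 * M + 1 : ℕ) : ℝ) ≤ 3 * h := by
      push_cast
      linarith
    calc ((2 ^ Y.card * (2 ^ Y.card * (2 * M + 1)) : ℕ) : ℝ)
        = ((2 ^ Y.card : ℕ) : ℝ) * (((2 ^ Y.card : ℕ) : ℝ) * ((2 * M + 1 : ℕ) : ℝ)) := by
          push_cast; ring
      _ ≤ 2 ^ N * (2 ^ N * (3 * h)) := by gcongr
      _ = 4 ^ N * (3 * h) := by
          rw [show (4 : ℝ) = 2 * 2 by norm_num, mul_pow]
          ring
  calc (((Icc 1 X).filter (fun n : ℕ => ∃ n' : ℕ, n' ≤ 2 * X ∧ |(n' : ℝ) - n| ≤ h ∧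
      (X : ℝ) ^ (2 / 3 - ν) < 2 * (Lm H : ℝ) * (Nat.lcm (qY Y H n) (qY Y H n') : ℝ))).card : ℝ)
      ≤ ((TT.biUnion U).card : ℝ) := by exact_mod_cast card_le_card hsub
    _ ≤ ((∑ t ∈ TT, (U t).card : ℕ) : ℝ) := by exact_mod_cast card_biUnion_le
    _ = ∑ t ∈ TT, ((U t).card : ℝ) := by push_cast; rfl
    _ ≤ ∑ _t ∈ TT, 3 * (Λ : ℝ) ^ 2 * (X : ℝ) ^ (1 / 3 + ν) := sum_le_sum hUc
    _ = TT.card * (3 * (Λ : ℝ) ^ 2 * (X : ℝ) ^ (1 / 3 + ν)) := by rw [sum_const, nsmul_eq_mul]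
    _ ≤ 4 ^ N * (3 * h) * (3 * (Λ : ℝ) ^ 2 * (X : ℝ) ^ (1 / 3 + ν)) :=
        mul_le_mul_of_nonneg_right hTc (by positivity)
    _ = 9 * 4 ^ N * (Λ : ℝ) ^ 2 * (h * (X : ℝ) ^ (1 / 3 + ν)) := by ring
    _ ≤ (X : ℝ) ^ ν * (h * (X : ℝ) ^ (1 / 3 + ν)) := mul_le_mul_of_nonneg_right g1 (by positivity)
    _ = h * (X : ℝ) ^ (1 / 3 + 2 * ν) := by
        have e1 : (X : ℝ) ^ (1 / 3 + 2 * ν) = (X : ℝ) ^ ν * (X : ℝ) ^ (1 / 3 + ν) := by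
          rw [← Real.rpow_add hX0]
          congr 1
          ring
        rw [e1]
        ring

open Classical in
theorem cnt_b (ν : ℝ) (h0 : 0 < ν) (h1 : ν ≤ 1 / 20) (H N : ℕ) : ∃ X0 : ℕ, ∀ X : ℕ, X0 ≤ X →
  ∀ Y : Finset PC, Y.card ≤ N → (∀ ψ ∈ Y, 1 ≤ ψ.1) →
    (((Icc 1 X).filter (fun n : ℕ =>
      (X : ℝ) ^ (1 / 3 - ν) < 2 * (Lm H : ℝ) * (qY Y H n : ℝ))).card : ℝ) ≤
      (X : ℝ) ^ (2 / 3 + 2 * ν) := by
  classical
  obtain ⟨Λ, hΛ⟩ : ∃ Λ : ℕ, Λ = Lm H := ⟨_, rfl⟩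
  have hΛ0 : 0 < Λ := by rw [hΛ]; exact Lm_pos H
  have hΛ1 : (1 : ℝ) ≤ Λ := by exact_mod_cast hΛ0
  obtain ⟨X1, hX1⟩ := MP_log_pow (3 * 2 ^ N * (Λ : ℝ) ^ 2) 0 (ε := ν) h0
  refine ⟨max X1 1, fun X hX Y hYN hY => ?_⟩
  simp only [max_le_iff] at hX
  obtain ⟨gX1, gX3⟩ := hX
  have g1 := hX1 X gX1
  rw [pow_zero, mul_one] at g1
  have hXr : (1 : ℝ) ≤ X := by exact_mod_cast gX3
  have hX0 : (0 : ℝ) < X := by linarith
  set q : Finset PC → ℕ := fun T => T.lcm (fun ψ => ψ.1) with hq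
  have hqpos : ∀ T ∈ Y.powerset, 0 < q T := by
    intro T hT
    rw [hq, Nat.pos_iff_ne_zero]
    simp only
    rw [Ne, Finset.lcm_eq_zero_iff]
    rintro ⟨ψ, hψ, h⟩
    have := hY ψ (mem_powerset.1 hT hψ)
    omega
  set U : Finset PC → Finset ℕ := fun t =>
    if (X : ℝ) ^ (1 / 3 - ν) < 2 * (Λ : ℝ) * (q t : ℝ) then
      ctS X Λ (q t) (q t) 0 0 else ∅ with hU
  have hsub : ((Icc 1 X).filter (fun n : ℕ =>
      (X : ℝ) ^ (1 / 3 - ν) < 2 * (Lm H : ℝ) * (qY Y H n : ℝ))) ⊆ Y.powerset.biUnion U := by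
    intro n hn
    rw [mem_filter] at hn
    obtain ⟨hn1, hn4⟩ := hn
    rw [mem_biUnion]
    refine ⟨Y.filter (fun ψ => ψ.1 / Nat.gcd ψ.1 n ≤ H), mem_powerset.2 (filter_subset _ _), ?_⟩
    have e1 : q (Y.filter (fun ψ => ψ.1 / Nat.gcd ψ.1 n ≤ H)) = qY Y H n := rfl
    rw [hU]
    simp only
    rw [e1, hΛ, if_pos hn4]
    unfold ctS
    rw [mem_filter]
    exact ⟨hn1, qY_dvd Y H n hY, n, rfl, qY_dvd Y H n hY⟩
  have hUc : ∀ t ∈ Y.powerset, ((U t).card : ℝ) ≤ 3 * (Λ : ℝ) ^ 2 * (X : ℝ) ^ (2 / 3 + ν) := by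
    intro t ht
    have p1 := hqpos _ ht
    have hXν : (1 : ℝ) ≤ (X : ℝ) ^ (2 / 3 + ν) := Real.one_le_rpow hXr (by linarith)
    have hsq : (1 : ℝ) ≤ (Λ : ℝ) ^ 2 := one_le_pow₀ hΛ1
    rw [hU]
    simp only
    split_ifs with hc
    · have k1 := ct_pair X Λ (q t) (q t) 0 0 hΛ0 p1 p1
      rw [Nat.lcm_self] at k1
      have hl : (0 : ℝ) < (q t : ℝ) := by exact_mod_cast p1
      have k2 : (X : ℝ) * Λ / (q t : ℝ) ≤ 2 * (Λ : ℝ) ^ 2 * (X : ℝ) ^ (2 / 3 + ν) := by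
        rw [div_le_iff₀ hl]
        have k3 : (X : ℝ) = (X : ℝ) ^ (2 / 3 + ν) * (X : ℝ) ^ (1 / 3 - ν) := by
          rw [← Real.rpow_add hX0]
          norm_num
        calc (X : ℝ) * Λ = (X : ℝ) ^ (2 / 3 + ν) * (X : ℝ) ^ (1 / 3 - ν) * Λ := by rw [← k3]
          _ ≤ (X : ℝ) ^ (2 / 3 + ν) * (2 * (Λ : ℝ) * (q t : ℝ)) * Λ :=
            mul_le_mul_of_nonneg_right (mul_le_mul_of_nonneg_left hc.le (by positivity))
              (by positivity)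
          _ = _ := by ring
      have k4 : (1 : ℝ) ≤ (Λ : ℝ) ^ 2 * (X : ℝ) ^ (2 / 3 + ν) := by
        calc (1 : ℝ) = 1 * 1 := (one_mul _).symm
          _ ≤ _ := mul_le_mul hsq hXν (by norm_num) (by positivity)
      linarith
    · rw [card_empty]
      push_cast
      positivity
  have hTc : (Y.powerset.card : ℝ) ≤ 2 ^ N := by
    rw [card_powerset]
    have c1 : 2 ^ Y.card ≤ 2 ^ N := Nat.pow_le_pow_right (by norm_num) hYN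
    exact_mod_cast c1
  calc (((Icc 1 X).filter (fun n : ℕ =>
      (X : ℝ) ^ (1 / 3 - ν) < 2 * (Lm H : ℝ) * (qY Y H n : ℝ))).card : ℝ)
      ≤ ((Y.powerset.biUnion U).card : ℝ) := by exact_mod_cast card_le_card hsub
    _ ≤ ((∑ t ∈ Y.powerset, (U t).card : ℕ) : ℝ) := by exact_mod_cast card_biUnion_le
    _ = ∑ t ∈ Y.powerset, ((U t).card : ℝ) := by push_cast; rfl
    _ ≤ ∑ _t ∈ Y.powerset, 3 * (Λ : ℝ) ^ 2 * (X : ℝ) ^ (2 / 3 + ν) := sum_le_sum hUc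
    _ = Y.powerset.card * (3 * (Λ : ℝ) ^ 2 * (X : ℝ) ^ (2 / 3 + ν)) := by
        rw [sum_const, nsmul_eq_mul]
    _ ≤ 2 ^ N * (3 * (Λ : ℝ) ^ 2 * (X : ℝ) ^ (2 / 3 + ν)) :=
        mul_le_mul_of_nonneg_right hTc (by positivity)
    _ = 3 * 2 ^ N * (Λ : ℝ) ^ 2 * (X : ℝ) ^ (2 / 3 + ν) := by ring
    _ ≤ (X : ℝ) ^ ν * (X : ℝ) ^ (2 / 3 + ν) := mul_le_mul_of_nonneg_right g1 (by positivity)
    _ = (X : ℝ) ^ (2 / 3 + 2 * ν) := by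
        rw [← Real.rpow_add hX0]
        congr 1
        ring

end Pool.MP_dd84fd_nt.TC
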