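import Pool.Agent.Lib.MP_dd84fd_nt.TC.GDefs

/-!
# Project TC, pairs of failures at any distance (helper39, after helper45's GDefs and helper94's count)

The same as TC/GDefs.lean, but the two numbers `n`, `n'` may have any distance in `[0.6 X, 0.9 X]`; the
only condition is `(n, n') ≤ X^c`.  The windows are `y_j` (class `c`), `n - y_j` (class `n - c`),
`n' - y_j` (class `n' - c`), `y_j + (n - n')` (class `n - (n' - c)`), with `35/100 X ≤ y_j ≤ X/2`.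
`ExG`, `SVG`, `NoH`, `Dv` as in GDefs.
-/

set_option autoImplicit false

namespace Pool.MP_dd84fd_nt.TC

open Finset Pool.MP_67663b_nt.Odd Pool.MP_dd84fd_nt.En Pool.MP_dd84fd_nt.E2 Pool.MP_dd84fd_nt.LS
open Pool.MP_dd84fd_nt.GX Pool.MP_dd84fd_nt.HX Pool.MP_dd84fd_nt.IX
open Pool.MP_dd84fd_nt.BX (PC pv IsPC PR SX sN prc ind)

/-- (RCH) the sum of `RC` over the windows (shifted by `t`) and classes is bounded by `LC` -/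
def RcH : Prop := ∃ C : ℝ, 0 < C ∧ ∀ (B : ℕ), 1 ≤ B → ∃ X0 : ℕ, ∀ X : ℕ, X0 ≤ X →
  ∀ R W Q n : ℕ, 1 ≤ Q → W ∣ Q → 1 ≤ W → ∀ t : ℝ,
    ∑ j ∈ JW X (Dl B X), ∑ c ∈ range W,
      RC X (Dl B X) R W Q n (t + j * Dl B X / 2) (n - t - j * Dl B X / 2) (c : ZMod W) ≤
    C * ((Nat.totient Q : ℝ) / ((Nat.totient W : ℝ) * (sw X (Dl B X) W) ^ 2)) *
      LC X (Dl B X) n Q

/-- (MAH) the masses of the classes modulo `W`, on average over any set of windows inside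
`[X/20, 9X/10]` -/
def MaH : Prop := ∀ ν : ℝ, 0 < ν → ν ≤ 1 / 20 → ∃ C : ℝ, 0 < C ∧ ∀ (B : ℕ) (κ : ℝ), 1 ≤ B →
  0 < κ → κ ≤ 1 → ∃ X0 : ℕ, ∀ X : ℕ, X0 ≤ X → ∀ R W : ℕ, 1 ≤ R → R ≤ X → W ∣ R →
  (W : ℝ) ≤ (X : ℝ) ^ (2 / 3 - ν) → NoH X B W κ → ∀ y₀ σ : ℝ, (σ = 1 ∨ σ = -1) →
  ∀ J ⊆ JW X (Dl B X), (∀ j ∈ J, (X : ℝ) / 20 ≤ y₀ + σ * (j * Dl B X / 2) ∧
    y₀ + σ * (j * Dl B X / 2) ≤ 9 / 10 * X) →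
    ∑ j ∈ J, ∑ c ∈ range W,
      Dv X (Dl B X) R W (y₀ + σ * (j * Dl B X / 2)) (c : ZMod W) ≤
        C * κ * Nat.totient W * (X / Dl B X)

/-- (COREH) two failures at any distance, `W ≤ X^(ν/100)` without heavy characters -/
def CoreH : Prop := ∀ ν : ℝ, 0 < ν → ν ≤ 1 / 20 → ∃ c0 : ℝ, 0 < c0 ∧ ∀ (B : ℕ) (ρ : ℝ), 1 ≤ B →
  0 < ρ → ρ ≤ 1 → ∃ κ : ℝ, 0 < κ ∧ κ ≤ 1 ∧ ∃ X0 : ℕ, ∀ X : ℕ, X0 ≤ X → ∀ n n' Q1 Q2 W : ℕ,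
  1 ≤ Q1 → 1 ≤ Q2 → Nat.gcd Q1 Q2 = W → (W : ℝ) ≤ (X : ℝ) ^ (ν / 100) → NoH X B W κ →
  Q1 ∣ n * W → Q2 ∣ n' * W → (Nat.lcm Q1 Q2 : ℝ) ≤ (X : ℝ) ^ (2 / 3 - ν) →
  6 / 10 * (X : ℝ) ≤ n → (n : ℝ) ≤ 9 / 10 * X → 6 / 10 * (X : ℝ) ≤ n' → (n' : ℝ) ≤ 9 / 10 * X →
  ρ * Nat.totient W ≤ ((PathSet W n n').card : ℝ) →
  LC X (Dl B X) n Q1 ≤ c0 * ρ ^ 2 * LM X (Dl B X) n Q1 →
  LC X (Dl B X) n' Q2 ≤ c0 * ρ ^ 2 * LM X (Dl B X) n' Q2 → False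

/-- (STH) the moduli: `W` divides `2 Λ (n, n')` -/
def StrH : Prop := ∀ (Y : Finset PC) (H n n' : ℕ), (∀ ψ ∈ Y, 1 ≤ ψ.1) → 2 ≤ H → 1 ≤ n → 1 ≤ n' →
  ∃ W Q1 Q2 : ℕ, 1 ≤ Q1 ∧ 1 ≤ Q2 ∧ Nat.gcd Q1 Q2 = W ∧ 2 ∣ W ∧
    W ∣ 2 * Lm H * Nat.gcd n n' ∧ Q1 ∣ n * W ∧ Q2 ∣ n' * W ∧
    Nat.lcm Q1 Q2 ≤ 2 * Lm H * Nat.lcm (qY Y H n) (qY Y H n') ∧
    (∀ ψ ∈ Y, ψ.1 / Nat.gcd ψ.1 n ≤ H → ψ.1 ∣ Q1) ∧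
    (∀ ψ ∈ Y, ψ.1 / Nat.gcd ψ.1 n' ≤ H → ψ.1 ∣ Q2) ∧
    (∀ p : ℕ, p.Prime → p ∣ W → p ≤ H ∨ (p ∣ n ∧ p ∣ n'))

open Classical in
/-- (CNH) few `n` have large moduli: with a partner at distance at most `h`; alone -/
def CntH : Prop := ∀ ν : ℝ, 0 < ν → ν ≤ 1 / 20 → ∀ H N : ℕ, ∃ X0 : ℕ, ∀ X : ℕ, X0 ≤ X →
  ∀ Y : Finset PC, Y.card ≤ N → (∀ ψ ∈ Y, 1 ≤ ψ.1) →
    (∀ h : ℕ, 1 ≤ h → (((Icc 1 X).filter (fun n : ℕ => ∃ n' : ℕ, 1 ≤ n' ∧ n' ≤ 2 * X ∧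
      n' ≤ n + h ∧ n ≤ n' + h ∧
      (X : ℝ) ^ (2 / 3 - ν) < 2 * (Lm H : ℝ) * (Nat.lcm (qY Y H n) (qY Y H n') : ℝ))).card : ℝ) ≤
        h * (X : ℝ) ^ (1 / 3 + 2 * ν)) ∧
    (((Icc 1 X).filter (fun n : ℕ =>
      (X : ℝ) ^ (2 / 3 - ν) < 2 * (Lm H : ℝ) * (qY Y H n : ℝ) ^ 2)).card : ℝ) ≤
        (X : ℝ) ^ (2 / 3 + 2 * ν)

/-- one scale: two failures outside a small set with small greatest common divisor have a heavy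
character of modulus at most `X^(2c)` in common -/
def OneH : Prop := ∀ ν : ℝ, 0 < ν → ν ≤ 1 / 20 → ∃ δ κ : ℝ, ∃ B M : ℕ, 0 < δ ∧ 0 < κ ∧ 1 ≤ B ∧
  1 ≤ M ∧ ∀ c : ℝ, 0 < c → c ≤ ν / 200 → ∃ X0 : ℕ, ∀ X : ℕ, X0 ≤ X → ∀ h : ℕ, 1 ≤ h →
    ∃ G : Finset ℕ, (G.card : ℝ) ≤ min (h : ℝ) ((X : ℝ) ^ (1 / 3 : ℝ)) * (X : ℝ) ^ (1 / 3 + 3 * ν) ∧
      ∀ m m' : ℕ, 6 / 10 * (X : ℝ) ≤ m → m < m' → m' ≤ m + h → (m' : ℝ) ≤ 9 / 10 * X →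
      m ∉ G → m' ∉ G → Bd δ m → Bd δ m' → m * m' % 3 ≠ 2 → (Nat.gcd m m' : ℝ) ≤ (X : ℝ) ^ c →
        ∃ ψ : PC, IsPC ψ ∧ 2 ≤ ψ.1 ∧ (ψ.1 : ℝ) ≤ (X : ℝ) ^ (2 * c) ∧
          κ ≤ sN X (4 * (Real.log X) ^ B) ψ ∧ ψ.1 ∣ M * Nat.gcd m m'

/-- the theorem: for every `h` two failures `m < m' ≤ min (m + h, 5m/4)`, `m m' ≢ 2 (mod 3)`, outside a
set of at most `min(h, X^(1/3)) X^(1/3+ε)` numbers have `(m, m') > X^c` or are divisible by one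
number `d` -/
def FinH : Prop := ∀ ε : ℝ, 0 < ε → ∃ δ c : ℝ, 0 < δ ∧ 0 < c ∧ ∀ K : ℕ, ∃ X0 : ℕ, ∀ X : ℕ,
  X0 ≤ X → ∃ d : ℕ, (Real.log X) ^ K < d ∧ ∀ h : ℕ, 1 ≤ h → ∃ G : Finset ℕ,
    (G.card : ℝ) ≤ min (h : ℝ) ((X : ℝ) ^ (1 / 3 : ℝ)) * (X : ℝ) ^ (1 / 3 + ε) ∧
    ∀ m m' : ℕ, m < m' → m' ≤ X → m' ≤ m + h → 4 * m' ≤ 5 * m → m ∉ G → m' ∉ G →
      Bd δ m → Bd δ m' → m * m' % 3 ≠ 2 → (Nat.gcd m m' : ℝ) ≤ (X : ℝ) ^ c → d ∣ Nat.gcd m m'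

end Pool.MP_dd84fd_nt.TC
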