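import Pool.Agent.Lib.MP_dd84fd_nt.TC.CntA
import Pool.Agent.Lib.MP_dd84fd_nt.TC.HDefs

/-!
# TC-CntH: few numbers have large moduli (helper15)
-/

set_option autoImplicit false

namespace Pool.MP_dd84fd_nt.TC

open Finset Pool.MP_67663b_nt.Odd Pool.MP_dd84fd_nt.E2
open Pool.MP_dd84fd_nt.BX (PC pv IsPC PR SX sN prc ind)

theorem cntH : CntH := by
  classical
  intro ν h0 h1 H N
  obtain ⟨X1, hX1⟩ := cnt_a ν h0 h1 H N
  obtain ⟨X2, hX2⟩ := cnt_b ν h0 h1 H N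
  refine ⟨max X1 (max X2 1), fun X hX Y hYN hY => ⟨fun h hh => ?_, ?_⟩⟩
  · simp only [max_le_iff] at hX
    have g1 := hX1 X hX.1 Y hYN hY (h : ℝ) (by exact_mod_cast hh)
    refine le_trans ?_ g1
    refine Nat.cast_le.2 (card_le_card fun n hn => ?_)
    rw [mem_filter] at hn ⊢
    obtain ⟨a1, n', a2, a3, a4, a5, a6⟩ := hn
    refine ⟨a1, n', a3, ?_, a6⟩
    have b1 : (n' : ℝ) ≤ n + h := by exact_mod_cast a4
    have b2 : (n : ℝ) ≤ n' + h := by exact_mod_cast a5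
    rw [abs_le]
    constructor <;> linarith
  · simp only [max_le_iff] at hX
    have hXr : (1 : ℝ) ≤ X := by exact_mod_cast hX.2.2
    have hX0 : (0 : ℝ) < X := by linarith
    have g1 := hX2 X hX.2.1 Y hYN hY
    refine le_trans ?_ g1
    refine Nat.cast_le.2 (card_le_card fun n hn => ?_)
    rw [mem_filter] at hn ⊢
    refine ⟨hn.1, ?_⟩
    by_contra hcon
    push Not at hcon
    have hΛ1 : (1 : ℝ) ≤ (Lm H : ℝ) := by exact_mod_cast Lm_pos H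
    obtain ⟨Λ, hΛ⟩ : ∃ Λ : ℝ, Λ = (Lm H : ℝ) := ⟨_, rfl⟩
    obtain ⟨q, hq⟩ : ∃ q : ℝ, q = (qY Y H n : ℝ) := ⟨_, rfl⟩
    have hq0 : 0 ≤ q := by rw [hq]; exact Nat.cast_nonneg _
    have h2 := hn.2
    rw [← hΛ, ← hq] at hcon h2
    rw [← hΛ] at hΛ1
    have h3 : (2 * Λ * q) ^ 2 ≤ ((X : ℝ) ^ (1 / 3 - ν)) ^ 2 :=
      pow_le_pow_left₀ (by positivity) hcon 2
    have h4 : ((X : ℝ) ^ (1 / 3 - ν)) ^ 2 ≤ (X : ℝ) ^ (2 / 3 - ν) := by
      rw [← Real.rpow_natCast, ← Real.rpow_mul hX0.le]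
      refine Real.rpow_le_rpow_of_exponent_le hXr ?_
      push_cast
      linarith
    have h5 : 2 * Λ * q ^ 2 ≤ (2 * Λ * q) ^ 2 := by
      have e1 : (2 * Λ * q) ^ 2 = (2 * Λ) * (2 * Λ * q ^ 2) := by ring
      rw [e1]
      have e2 : 0 ≤ 2 * Λ * q ^ 2 := by positivity
      nlinarith
    linarith

end Pool.MP_dd84fd_nt.TC
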