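import Pool.Agent.Lib.MP_dd84fd_nt.TC.HDefs

/-!
# Project TC-V (MP_dd84fd): pairs of failures in one residue class modulo `M`, moduli up to `X^(1-ν)`

The sieve for characters modulo `R ≤ X^(1-ν)` has the constant `F = 4 - ν`.  Path of `L` vertices:
`v_0 = c`, `v_(i+1) = n - v_i` (`i` even), `v_(i+1) = n' - v_i` (`i` odd), for the classes modulo `W` and for the
centres of the windows.  If `b` is the mass of one family at `v_i`, the mass of the other family at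
`v_(i+1)` is at most `F (1 - 1/b) + small ≤ b - (4-F)/8` as long as `b ≥ 2`; from both ends of a long path one
comes to an edge with both masses `< 2`, which contradicts the orthogonality.  The families at the distance `k`
from the middle edge have the threshold `κ_k`, `κ_(k+1)` much smaller than `κ_k`; therefore `ρ ^ a`.
Outside `p ≤ L + 1` there are always units `v_i`; for `p ≤ L + 1` this needs `n ≡ n' (mod p)`.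
-/

set_option autoImplicit false

namespace Pool.MP_dd84fd_nt.TC

open Finset Pool.MP_67663b_nt.Odd Pool.MP_dd84fd_nt.En Pool.MP_dd84fd_nt.E2 Pool.MP_dd84fd_nt.LS
open Pool.MP_dd84fd_nt.GX Pool.MP_dd84fd_nt.HX Pool.MP_dd84fd_nt.IX
open Pool.MP_dd84fd_nt.BX (PC pv IsPC PR SX sN prc ind)

/-- the vertices of the path; edges `v_i + v_(i+1) = n` for even `i`, `= n'` for odd `i` -/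
def vtx {A : Type*} [AddCommGroup A] (n n' c : A) : ℕ → A
  | 0 => c
  | i + 1 => (if Even i then n else n') - vtx n n' c i

open Classical in
/-- the classes `c` modulo `W` for which the first `L` vertices are units -/
noncomputable def PSet (W n n' L : ℕ) : Finset ℕ :=
  (range W).filter (fun c => ∀ i < L, IsUnit (vtx (n : ZMod W) (n' : ZMod W) (c : ZMod W) i))

/-- (SVV) the sieve, `R ≤ X^(1-ν)`, `W ≤ X^(ν/100)` -/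
def SVV : Prop := ∀ ν : ℝ, 0 < ν → ν ≤ 1 / 20 → ∀ B N0 : ℕ, 1 ≤ B → ∃ X0 : ℕ, ∀ X : ℕ,
  X0 ≤ X → ∀ R W : ℕ, 1 ≤ R → (R : ℝ) ≤ (X : ℝ) ^ (1 - ν) → W ∣ R →
  (W : ℝ) ≤ (X : ℝ) ^ (ν / 100) → ∀ c : ZMod W, ∀ y : ℝ, (X : ℝ) / 20 ≤ y → y ≤ X →
  ∀ Γ : Finset (DirichletCharacter ℂ R), Γ.card ≤ N0 → Ineq W Γ →
  ∀ t : DirichletCharacter ℂ R → ℂ,
    ∑ p ∈ UP X R, wv (Dl B X) y W c p * ‖∑ χ ∈ Γ, t χ * χ (p : ZMod R)‖ ^ 2 ≤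
      (4 - ν) * sw X (Dl B X) W * ∑ χ ∈ Γ, ‖t χ‖ ^ 2

/-- (COREV) two failures, path of `L` vertices -/
def CoreV : Prop := ∀ ν : ℝ, 0 < ν → ν ≤ 1 / 20 → ∃ (L a : ℕ) (c0 : ℝ), 2 ≤ L ∧ 0 < c0 ∧
  ∀ (B : ℕ) (ρ : ℝ), 1 ≤ B → 0 < ρ → ρ ≤ 1 → ∃ κ : ℝ, 0 < κ ∧ κ ≤ 1 ∧ ∃ X0 : ℕ, ∀ X : ℕ,
  X0 ≤ X → ∀ n n' Q1 Q2 W : ℕ,
  1 ≤ Q1 → 1 ≤ Q2 → Nat.gcd Q1 Q2 = W → (W : ℝ) ≤ (X : ℝ) ^ (ν / 100) → NoH X B W κ →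
  Q1 ∣ n * W → Q2 ∣ n' * W → (Q1 : ℝ) ≤ (X : ℝ) ^ (2 / 3 - ν) → (Q2 : ℝ) ≤ (X : ℝ) ^ (2 / 3 - ν) →
  (Nat.lcm Q1 Q2 : ℝ) ≤ (X : ℝ) ^ (1 - ν) →
  6 / 10 * (X : ℝ) ≤ n → (n : ℝ) ≤ 9 / 10 * X → |(n' : ℝ) - n| * (20 * L) ≤ X →
  ρ * Nat.totient W ≤ ((PSet W n n' L).card : ℝ) →
  LC X (Dl B X) n Q1 ≤ c0 * ρ ^ a * LM X (Dl B X) n Q1 →
  LC X (Dl B X) n' Q2 ≤ c0 * ρ ^ a * LM X (Dl B X) n' Q2 → False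

/-- (STRV) the moduli, as `StrH`, with bounds for `Q1`, `Q2` -/
def StrV : Prop := ∀ (Y : Finset PC) (H n n' : ℕ), (∀ ψ ∈ Y, 1 ≤ ψ.1) → 2 ≤ H → 1 ≤ n → 1 ≤ n' →
  ∃ W Q1 Q2 : ℕ, 1 ≤ Q1 ∧ 1 ≤ Q2 ∧ Nat.gcd Q1 Q2 = W ∧ 2 ∣ W ∧
    W ∣ 2 * Lm H * Nat.gcd n n' ∧ Q1 ∣ n * W ∧ Q2 ∣ n' * W ∧
    Q1 ≤ qY Y H n * W ∧ Q2 ≤ qY Y H n' * W ∧
    Nat.lcm Q1 Q2 ≤ 2 * Lm H * Nat.lcm (qY Y H n) (qY Y H n') ∧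
    (∀ ψ ∈ Y, ψ.1 / Nat.gcd ψ.1 n ≤ H → ψ.1 ∣ Q1) ∧
    (∀ ψ ∈ Y, ψ.1 / Nat.gcd ψ.1 n' ≤ H → ψ.1 ∣ Q2) ∧
    (∀ p : ℕ, p.Prime → p ∣ W → p ≤ H ∨ (p ∣ n ∧ p ∣ n'))

/-- (PATHV) the number of paths, `n ≡ n' (mod M)` -/
def PathV : Prop := ∀ L : ℕ, ∃ (M a : ℕ) (c : ℝ), 1 ≤ M ∧ 0 < c ∧ ∀ H W n n' : ℕ, 2 ≤ H → 1 ≤ W →
  Even n → Even n' → (∀ p : ℕ, p.Prime → p ∣ W → p ≤ H ∨ (p ∣ n ∧ p ∣ n')) → n ≡ n' [MOD M] →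
  c / (Real.log H) ^ a * Nat.totient W ≤ ((PSet W n n' L).card : ℝ)

open Classical in
/-- (CNV) few `n` have large moduli: alone; with a partner at distance at most `h`; alone, square -/
def CntV : Prop := ∀ ν : ℝ, 0 < ν → ν ≤ 1 / 20 → ∀ H N : ℕ, ∃ X0 : ℕ, ∀ X : ℕ, X0 ≤ X →
  ∀ Y : Finset PC, Y.card ≤ N → (∀ ψ ∈ Y, 1 ≤ ψ.1) →
    (((Icc 1 X).filter (fun n : ℕ =>
      (X : ℝ) ^ (2 / 3 - ν) < (qY Y H n : ℝ) * (X : ℝ) ^ (ν / 100))).card : ℝ) ≤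
        (X : ℝ) ^ (1 / 3 + 2 * ν) ∧
    (∀ h : ℕ, 1 ≤ h → (((Icc 1 X).filter (fun n : ℕ => ∃ n' : ℕ, 1 ≤ n' ∧ n' ≤ 2 * X ∧
      n' ≤ n + h ∧ n ≤ n' + h ∧
      (X : ℝ) ^ (1 - ν) < 2 * (Lm H : ℝ) * (Nat.lcm (qY Y H n) (qY Y H n') : ℝ))).card : ℝ) ≤
        h * (X : ℝ) ^ (2 * ν)) ∧
    (((Icc 1 X).filter (fun n : ℕ =>
      (X : ℝ) ^ (1 - ν) < 2 * (Lm H : ℝ) * (qY Y H n : ℝ) ^ 2)).card : ℝ) ≤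
        (X : ℝ) ^ (1 / 2 + 2 * ν)

/-- one scale -/
def OneV : Prop := ∀ ν : ℝ, 0 < ν → ν ≤ 1 / 20 → ∃ δ κ : ℝ, ∃ B M L : ℕ, 0 < δ ∧ 0 < κ ∧ 1 ≤ B ∧
  1 ≤ M ∧ 1 ≤ L ∧ ∀ c : ℝ, 0 < c → c ≤ ν / 200 → ∃ X0 : ℕ, ∀ X : ℕ, X0 ≤ X → ∀ h : ℕ, 1 ≤ h →
    ∃ G : Finset ℕ, (G.card : ℝ) ≤ (X : ℝ) ^ (1 / 3 + 3 * ν) +
        min (h : ℝ) ((X : ℝ) ^ (1 / 2 : ℝ)) * (X : ℝ) ^ (3 * ν) ∧
      ∀ m m' : ℕ, 6 / 10 * (X : ℝ) ≤ m → m < m' → m' ≤ m + h → (m' : ℝ) ≤ 9 / 10 * X →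
      ((m' : ℝ) - m) * (20 * L) ≤ X → m ∉ G → m' ∉ G → Bd δ m → Bd δ m' → m ≡ m' [MOD M] →
      (Nat.gcd m m' : ℝ) ≤ (X : ℝ) ^ c →
        ∃ ψ : PC, IsPC ψ ∧ 2 ≤ ψ.1 ∧ (ψ.1 : ℝ) ≤ (X : ℝ) ^ (2 * c) ∧
          κ ≤ sN X (4 * (Real.log X) ^ B) ψ ∧ ψ.1 ∣ M * Nat.gcd m m'

/-- the theorem: U and V together, with one number `d` -/
def FinV : Prop := ∀ ε : ℝ, 0 < ε → ∃ δ c : ℝ, ∃ M : ℕ, 0 < δ ∧ 0 < c ∧ 1 ≤ M ∧ ∀ K : ℕ,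
  ∃ X0 : ℕ, ∀ X : ℕ, X0 ≤ X → ∃ d : ℕ, (Real.log X) ^ K < d ∧ ∀ h : ℕ, 1 ≤ h →
    (∃ G : Finset ℕ, (G.card : ℝ) ≤ min (h : ℝ) ((X : ℝ) ^ (1 / 3 : ℝ)) * (X : ℝ) ^ (1 / 3 + ε) ∧
      ∀ m m' : ℕ, m < m' → m' ≤ X → m' ≤ m + h → 4 * m' ≤ 5 * m → m ∉ G → m' ∉ G →
        Bd δ m → Bd δ m' → m * m' % 3 ≠ 2 → (Nat.gcd m m' : ℝ) ≤ (X : ℝ) ^ c →
        d ∣ Nat.gcd m m') ∧
    (∃ G : Finset ℕ, (G.card : ℝ) ≤ (X : ℝ) ^ (1 / 3 + ε) +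
        min (h : ℝ) ((X : ℝ) ^ (1 / 2 : ℝ)) * (X : ℝ) ^ ε ∧
      ∀ m m' : ℕ, m < m' → m' ≤ X → m' ≤ m + h → M * m' ≤ (M + 1) * m → m ∉ G → m' ∉ G →
        Bd δ m → Bd δ m' → m ≡ m' [MOD M] → (Nat.gcd m m' : ℝ) ≤ (X : ℝ) ^ c →
        d ∣ Nat.gcd m m')

end Pool.MP_dd84fd_nt.TC
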