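import Pool.Agent.Lib.MP_dd84fd_nt.TC.Cnt
import Pool.Agent.Lib.MP_dd84fd_nt.TC.VDefs

/-!
# TC-CntV: few numbers have large moduli (helper15)

As TC/CntA.lean with an arbitrary exponent `e ≤ 1` for the size of the moduli.
-/

set_option autoImplicit false

namespace Pool.MP_dd84fd_nt.TC

open Finset Pool.MP_67663b_nt.Odd Pool.MP_dd84fd_nt.E2
open Pool.MP_dd84fd_nt.BX (PC pv IsPC PR SX sN prc ind)

open Classical in
theorem cntg_a (e ν : ℝ) (h0 : 0 < ν) (h1 : e ≤ 1) (H N : ℕ) : ∃ X0 : ℕ, ∀ X : ℕ, X0 ≤ X →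
  ∀ Y : Finset PC, Y.card ≤ N → (∀ ψ ∈ Y, 1 ≤ ψ.1) → ∀ h : ℝ, 1 ≤ h →
    (((Icc 1 X).filter (fun n : ℕ => ∃ n' : ℕ, n' ≤ 2 * X ∧ |(n' : ℝ) - n| ≤ h ∧
      (X : ℝ) ^ e < 2 * (Lm H : ℝ) * (Nat.lcm (qY Y H n) (qY Y H n') : ℝ))).card : ℝ) ≤
      h * (X : ℝ) ^ (1 - e + ν) := by
  classical
  obtain ⟨Λ, hΛ⟩ : ∃ Λ : ℕ, Λ = Lm H := ⟨_, rfl⟩
  have hΛ0 : 0 < Λ := by rw [hΛ]; exact Lm_pos H
  have hΛ1 : (1 : ℝ) ≤ Λ := by exact_mod_cast hΛ0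
  obtain ⟨X1, hX1⟩ := MP_log_pow (9 * 4 ^ N * (Λ : ℝ) ^ 2) 0 (ε := ν) h0
  refine ⟨max X1 1, fun X hX Y hYN hY h hh => ?_⟩
  simp only [max_le_iff] at hX
  obtain ⟨gX1, gX3⟩ := hX
  have g1 := hX1 X gX1
  have hXr : (1 : ℝ) ≤ X := by exact_mod_cast gX3
  have hX0 : (0 : ℝ) < X := by linarith
  rw [pow_zero, mul_one] at g1
  obtain ⟨M, hM⟩ : ∃ M : ℕ, M = ⌊h⌋₊ := ⟨_, rfl⟩
  have hML : (M : ℝ) ≤ h := by rw [hM]; exact Nat.floor_le (by linarith)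
  set q : Finset PC → ℕ := fun T => T.lcm (fun ψ => ψ.1) with hq
  have hqpos : ∀ T ∈ Y.powerset, 0 < q T := by
    intro T hT
    rw [hq, Nat.pos_iff_ne_zero]
    simp only
    rw [Ne, Finset.lcm_eq_zero_iff]
    rintro ⟨ψ, hψ, h⟩
    have := hY ψ (mem_powerset.1 hT hψ)
    omega
  set U : Finset PC × Finset PC × ℕ → Finset ℕ := fun t =>
    if (X : ℝ) ^ e < 2 * (Λ : ℝ) * (Nat.lcm (q t.1) (q t.2.1) : ℝ) then
      ctS X Λ (q t.1) (q t.2.1) M t.2.2 else ∅ with hU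
  set TT := Y.powerset ×ˢ Y.powerset ×ˢ range (2 * M + 1) with hTT
  have hsub : ((Icc 1 X).filter (fun n : ℕ => ∃ n' : ℕ, n' ≤ 2 * X ∧ |(n' : ℝ) - n| ≤ h ∧
      (X : ℝ) ^ e < 2 * (Lm H : ℝ) * (Nat.lcm (qY Y H n) (qY Y H n') : ℝ))) ⊆
      TT.biUnion U := by
    intro n hn
    rw [mem_filter] at hn
    obtain ⟨hn1, n', hn2, hn3, hn4⟩ := hn
    rw [mem_biUnion]
    have b1 : n ≤ n' + M := by
      have c1 : (n : ℝ) - n' ≤ h := by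
        have := (abs_le.1 hn3).1
        linarith
      by_contra hcon
      push Not at hcon
      have c2 : M + 1 ≤ n - n' := by omega
      have c3 : ((M + 1 : ℕ) : ℝ) ≤ ((n - n' : ℕ) : ℝ) := by exact_mod_cast c2
      rw [Nat.cast_sub (by omega)] at c3
      have c4 : h < (M : ℝ) + 1 := by rw [hM]; exact Nat.lt_floor_add_one _
      push_cast at c3
      linarith
    have b2 : n' ≤ n + M := by
      have c1 : (n' : ℝ) - n ≤ h := (abs_le.1 hn3).2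
      by_contra hcon
      push Not at hcon
      have c2 : M + 1 ≤ n' - n := by omega
      have c3 : ((M + 1 : ℕ) : ℝ) ≤ ((n' - n : ℕ) : ℝ) := by exact_mod_cast c2
      rw [Nat.cast_sub (by omega)] at c3
      have c4 : h < (M : ℝ) + 1 := by rw [hM]; exact Nat.lt_floor_add_one _
      push_cast at c3
      linarith
    refine ⟨(Y.filter (fun ψ => ψ.1 / Nat.gcd ψ.1 n ≤ H), Y.filter (fun ψ => ψ.1 / Nat.gcd ψ.1 n' ≤ H),
      n' + M - n), ?_, ?_⟩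
    · rw [hTT, mem_product, mem_product, mem_powerset, mem_powerset, mem_range]
      refine ⟨filter_subset _ _, filter_subset _ _, ?_⟩
      show n' + M - n < 2 * M + 1
      omega
    · have e1 : q (Y.filter (fun ψ => ψ.1 / Nat.gcd ψ.1 n ≤ H)) = qY Y H n := rfl
      have e2 : q (Y.filter (fun ψ => ψ.1 / Nat.gcd ψ.1 n' ≤ H)) = qY Y H n' := rfl
      rw [hU]
      simp only
      rw [e1, e2, hΛ, if_pos hn4]
      unfold ctS
      rw [mem_filter]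
      refine ⟨hn1, qY_dvd Y H n hY, n', by omega, qY_dvd Y H n' hY⟩
  have hUc : ∀ t ∈ TT, ((U t).card : ℝ) ≤ 3 * (Λ : ℝ) ^ 2 * (X : ℝ) ^ (1 - e) := by
    intro t ht
    rw [hTT, mem_product, mem_product] at ht
    have p1 := hqpos _ ht.1
    have p2 := hqpos _ ht.2.1
    have hXν : (1 : ℝ) ≤ (X : ℝ) ^ (1 - e) := Real.one_le_rpow hXr (by linarith)
    have hsq : (1 : ℝ) ≤ (Λ : ℝ) ^ 2 := one_le_pow₀ hΛ1
    rw [hU]
    simp only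
    split_ifs with hc
    · have k1 := ct_pair X Λ (q t.1) (q t.2.1) M t.2.2 hΛ0 p1 p2
      have hl : (0 : ℝ) < (Nat.lcm (q t.1) (q t.2.1) : ℝ) := by exact_mod_cast Nat.lcm_pos p1 p2
      have k2 : (X : ℝ) * Λ / (Nat.lcm (q t.1) (q t.2.1) : ℝ) ≤
          2 * (Λ : ℝ) ^ 2 * (X : ℝ) ^ (1 - e) := by
        rw [div_le_iff₀ hl]
        have k3 : (X : ℝ) = (X : ℝ) ^ (1 - e) * (X : ℝ) ^ e := by
          rw [← Real.rpow_add hX0]
          norm_num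
        calc (X : ℝ) * Λ = (X : ℝ) ^ (1 - e) * (X : ℝ) ^ e * Λ := by rw [← k3]
          _ ≤ (X : ℝ) ^ (1 - e) * (2 * (Λ : ℝ) * (Nat.lcm (q t.1) (q t.2.1) : ℝ)) * Λ :=
            mul_le_mul_of_nonneg_right (mul_le_mul_of_nonneg_left hc.le (by positivity))
              (by positivity)
          _ = _ := by ring
      have k4 : (1 : ℝ) ≤ (Λ : ℝ) ^ 2 * (X : ℝ) ^ (1 - e) := by
        calc (1 : ℝ) = 1 * 1 := (one_mul _).symm
          _ ≤ _ := mul_le_mul hsq hXν (by norm_num) (by positivity)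
      linarith
    · rw [card_empty]
      push_cast
      positivity
  have hTc : (TT.card : ℝ) ≤ 4 ^ N * (3 * h) := by
    rw [hTT, card_product, card_product, card_powerset, card_range]
    have c1 : 2 ^ Y.card ≤ 2 ^ N := Nat.pow_le_pow_right (by norm_num) hYN
    have c2 : ((2 ^ Y.card : ℕ) : ℝ) ≤ 2 ^ N := by exact_mod_cast c1
    have c3 : ((2 * M + 1 : ℕ) : ℝ) ≤ 3 * h := by
      push_cast
      linarith
    calc ((2 ^ Y.card * (2 ^ Y.card * (2 * M + 1)) : ℕ) : ℝ)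
        = ((2 ^ Y.card : ℕ) : ℝ) * (((2 ^ Y.card : ℕ) : ℝ) * ((2 * M + 1 : ℕ) : ℝ)) := by
          push_cast; ring
      _ ≤ 2 ^ N * (2 ^ N * (3 * h)) := by gcongr
      _ = 4 ^ N * (3 * h) := by
          rw [show (4 : ℝ) = 2 * 2 by norm_num, mul_pow]
          ring
  calc (((Icc 1 X).filter (fun n : ℕ => ∃ n' : ℕ, n' ≤ 2 * X ∧ |(n' : ℝ) - n| ≤ h ∧
      (X : ℝ) ^ e < 2 * (Lm H : ℝ) * (Nat.lcm (qY Y H n) (qY Y H n') : ℝ))).card : ℝ)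
      ≤ ((TT.biUnion U).card : ℝ) := by exact_mod_cast card_le_card hsub
    _ ≤ ((∑ t ∈ TT, (U t).card : ℕ) : ℝ) := by exact_mod_cast card_biUnion_le
    _ = ∑ t ∈ TT, ((U t).card : ℝ) := by push_cast; rfl
    _ ≤ ∑ _t ∈ TT, 3 * (Λ : ℝ) ^ 2 * (X : ℝ) ^ (1 - e) := sum_le_sum hUc
    _ = TT.card * (3 * (Λ : ℝ) ^ 2 * (X : ℝ) ^ (1 - e)) := by rw [sum_const, nsmul_eq_mul]
    _ ≤ 4 ^ N * (3 * h) * (3 * (Λ : ℝ) ^ 2 * (X : ℝ) ^ (1 - e)) :=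
        mul_le_mul_of_nonneg_right hTc (by positivity)
    _ = 9 * 4 ^ N * (Λ : ℝ) ^ 2 * (h * (X : ℝ) ^ (1 - e)) := by ring
    _ ≤ (X : ℝ) ^ ν * (h * (X : ℝ) ^ (1 - e)) := mul_le_mul_of_nonneg_right g1 (by positivity)
    _ = h * (X : ℝ) ^ (1 - e + ν) := by
        have e1 : (X : ℝ) ^ (1 - e + ν) = (X : ℝ) ^ ν * (X : ℝ) ^ (1 - e) := by
          rw [← Real.rpow_add hX0]
          congr 1
          ring
        rw [e1]
        ring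

open Classical in
theorem cntg_b (e ν : ℝ) (h0 : 0 < ν) (h1 : e ≤ 1) (H N : ℕ) : ∃ X0 : ℕ, ∀ X : ℕ, X0 ≤ X →
  ∀ Y : Finset PC, Y.card ≤ N → (∀ ψ ∈ Y, 1 ≤ ψ.1) →
    (((Icc 1 X).filter (fun n : ℕ =>
      (X : ℝ) ^ e < 2 * (Lm H : ℝ) * (qY Y H n : ℝ))).card : ℝ) ≤
      (X : ℝ) ^ (1 - e + ν) := by
  classical
  obtain ⟨Λ, hΛ⟩ : ∃ Λ : ℕ, Λ = Lm H := ⟨_, rfl⟩
  have hΛ0 : 0 < Λ := by rw [hΛ]; exact Lm_pos H
  have hΛ1 : (1 : ℝ) ≤ Λ := by exact_mod_cast hΛ0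
  obtain ⟨X1, hX1⟩ := MP_log_pow (3 * 2 ^ N * (Λ : ℝ) ^ 2) 0 (ε := ν) h0
  refine ⟨max X1 1, fun X hX Y hYN hY => ?_⟩
  simp only [max_le_iff] at hX
  obtain ⟨gX1, gX3⟩ := hX
  have g1 := hX1 X gX1
  rw [pow_zero, mul_one] at g1
  have hXr : (1 : ℝ) ≤ X := by exact_mod_cast gX3
  have hX0 : (0 : ℝ) < X := by linarith
  set q : Finset PC → ℕ := fun T => T.lcm (fun ψ => ψ.1) with hq
  have hqpos : ∀ T ∈ Y.powerset, 0 < q T := by
    intro T hT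
    rw [hq, Nat.pos_iff_ne_zero]
    simp only
    rw [Ne, Finset.lcm_eq_zero_iff]
    rintro ⟨ψ, hψ, h⟩
    have := hY ψ (mem_powerset.1 hT hψ)
    omega
  set U : Finset PC → Finset ℕ := fun t =>
    if (X : ℝ) ^ e < 2 * (Λ : ℝ) * (q t : ℝ) then
      ctS X Λ (q t) (q t) 0 0 else ∅ with hU
  have hsub : ((Icc 1 X).filter (fun n : ℕ =>
      (X : ℝ) ^ e < 2 * (Lm H : ℝ) * (qY Y H n : ℝ))) ⊆ Y.powerset.biUnion U := by
    intro n hn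
    rw [mem_filter] at hn
    obtain ⟨hn1, hn4⟩ := hn
    rw [mem_biUnion]
    refine ⟨Y.filter (fun ψ => ψ.1 / Nat.gcd ψ.1 n ≤ H), mem_powerset.2 (filter_subset _ _), ?_⟩
    have e1 : q (Y.filter (fun ψ => ψ.1 / Nat.gcd ψ.1 n ≤ H)) = qY Y H n := rfl
    rw [hU]
    simp only
    rw [e1, hΛ, if_pos hn4]
    unfold ctS
    rw [mem_filter]
    exact ⟨hn1, qY_dvd Y H n hY, n, rfl, qY_dvd Y H n hY⟩
  have hUc : ∀ t ∈ Y.powerset, ((U t).card : ℝ) ≤ 3 * (Λ : ℝ) ^ 2 * (X : ℝ) ^ (1 - e) := by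
    intro t ht
    have p1 := hqpos _ ht
    have hXν : (1 : ℝ) ≤ (X : ℝ) ^ (1 - e) := Real.one_le_rpow hXr (by linarith)
    have hsq : (1 : ℝ) ≤ (Λ : ℝ) ^ 2 := one_le_pow₀ hΛ1
    rw [hU]
    simp only
    split_ifs with hc
    · have k1 := ct_pair X Λ (q t) (q t) 0 0 hΛ0 p1 p1
      rw [Nat.lcm_self] at k1
      have hl : (0 : ℝ) < (q t : ℝ) := by exact_mod_cast p1
      have k2 : (X : ℝ) * Λ / (q t : ℝ) ≤ 2 * (Λ : ℝ) ^ 2 * (X : ℝ) ^ (1 - e) := by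
        rw [div_le_iff₀ hl]
        have k3 : (X : ℝ) = (X : ℝ) ^ (1 - e) * (X : ℝ) ^ e := by
          rw [← Real.rpow_add hX0]
          norm_num
        calc (X : ℝ) * Λ = (X : ℝ) ^ (1 - e) * (X : ℝ) ^ e * Λ := by rw [← k3]
          _ ≤ (X : ℝ) ^ (1 - e) * (2 * (Λ : ℝ) * (q t : ℝ)) * Λ :=
            mul_le_mul_of_nonneg_right (mul_le_mul_of_nonneg_left hc.le (by positivity))
              (by positivity)
          _ = _ := by ring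
      have k4 : (1 : ℝ) ≤ (Λ : ℝ) ^ 2 * (X : ℝ) ^ (1 - e) := by
        calc (1 : ℝ) = 1 * 1 := (one_mul _).symm
          _ ≤ _ := mul_le_mul hsq hXν (by norm_num) (by positivity)
      linarith
    · rw [card_empty]
      push_cast
      positivity
  have hTc : (Y.powerset.card : ℝ) ≤ 2 ^ N := by
    rw [card_powerset]
    have c1 : 2 ^ Y.card ≤ 2 ^ N := Nat.pow_le_pow_right (by norm_num) hYN
    exact_mod_cast c1
  calc (((Icc 1 X).filter (fun n : ℕ =>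
      (X : ℝ) ^ e < 2 * (Lm H : ℝ) * (qY Y H n : ℝ))).card : ℝ)
      ≤ ((Y.powerset.biUnion U).card : ℝ) := by exact_mod_cast card_le_card hsub
    _ ≤ ((∑ t ∈ Y.powerset, (U t).card : ℕ) : ℝ) := by exact_mod_cast card_biUnion_le
    _ = ∑ t ∈ Y.powerset, ((U t).card : ℝ) := by push_cast; rfl
    _ ≤ ∑ _t ∈ Y.powerset, 3 * (Λ : ℝ) ^ 2 * (X : ℝ) ^ (1 - e) := sum_le_sum hUc
    _ = Y.powerset.card * (3 * (Λ : ℝ) ^ 2 * (X : ℝ) ^ (1 - e)) := by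
        rw [sum_const, nsmul_eq_mul]
    _ ≤ 2 ^ N * (3 * (Λ : ℝ) ^ 2 * (X : ℝ) ^ (1 - e)) :=
        mul_le_mul_of_nonneg_right hTc (by positivity)
    _ = 3 * 2 ^ N * (Λ : ℝ) ^ 2 * (X : ℝ) ^ (1 - e) := by ring
    _ ≤ (X : ℝ) ^ ν * (X : ℝ) ^ (1 - e) := mul_le_mul_of_nonneg_right g1 (by positivity)
    _ = (X : ℝ) ^ (1 - e + ν) := by
        rw [← Real.rpow_add hX0]
        congr 1
        ring

theorem cntV : CntV := by
  classical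
  intro ν h0 h1 H N
  obtain ⟨X1, hX1⟩ := cntg_b (2 / 3 - ν - ν / 100) (9 / 10 * ν) (by linarith) (by linarith) H N
  obtain ⟨X2, hX2⟩ := cntg_a (1 - ν) ν h0 (by linarith) H N
  obtain ⟨X3, hX3⟩ := cntg_b ((1 - ν) / 2) ν h0 (by linarith) H N
  refine ⟨max X1 (max X2 (max X3 1)), fun X hX Y hYN hY => ?_⟩
  simp only [max_le_iff] at hX
  obtain ⟨gX1, gX2, gX3, gX4⟩ := hX
  have hXr : (1 : ℝ) ≤ X := by exact_mod_cast gX4
  have hX0 : (0 : ℝ) < X := by linarith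
  have hΛ1 : (1 : ℝ) ≤ (Lm H : ℝ) := by exact_mod_cast Lm_pos H
  refine ⟨?_, fun h hh => ?_, ?_⟩
  · have g1 := hX1 X gX1 Y hYN hY
    have g2 : (X : ℝ) ^ (1 - (2 / 3 - ν - ν / 100) + 9 / 10 * ν) ≤ (X : ℝ) ^ (1 / 3 + 2 * ν) :=
      Real.rpow_le_rpow_of_exponent_le hXr (by linarith)
    refine le_trans (le_trans ?_ g1) g2
    refine Nat.cast_le.2 (card_le_card fun n hn => ?_)
    rw [mem_filter] at hn ⊢
    refine ⟨hn.1, ?_⟩
    have h2 := hn.2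
    obtain ⟨q, hq⟩ : ∃ q : ℝ, q = (qY Y H n : ℝ) := ⟨_, rfl⟩
    have hq0 : 0 ≤ q := by rw [hq]; exact Nat.cast_nonneg _
    rw [← hq] at h2 ⊢
    have e1 : (X : ℝ) ^ (2 / 3 - ν) = (X : ℝ) ^ (2 / 3 - ν - ν / 100) * (X : ℝ) ^ (ν / 100) := by
      rw [← Real.rpow_add hX0]
      congr 1
      ring
    rw [e1] at h2
    have h3 : (X : ℝ) ^ (2 / 3 - ν - ν / 100) < q :=
      lt_of_mul_lt_mul_right h2 (Real.rpow_nonneg hX0.le _)
    nlinarith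
  · have g1 := hX2 X gX2 Y hYN hY (h : ℝ) (by exact_mod_cast hh)
    have e0 : (1 - (1 - ν) + ν : ℝ) = 2 * ν := by ring
    rw [e0] at g1
    refine le_trans ?_ g1
    refine Nat.cast_le.2 (card_le_card fun n hn => ?_)
    rw [mem_filter] at hn ⊢
    obtain ⟨a1, n', a2, a3, a4, a5, a6⟩ := hn
    refine ⟨a1, n', a3, ?_, a6⟩
    have b1 : (n' : ℝ) ≤ n + h := by exact_mod_cast a4
    have b2 : (n : ℝ) ≤ n' + h := by exact_mod_cast a5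
    rw [abs_le]
    constructor <;> linarith
  · have g1 := hX3 X gX3 Y hYN hY
    have g2 : (X : ℝ) ^ (1 - (1 - ν) / 2 + ν) ≤ (X : ℝ) ^ (1 / 2 + 2 * ν) :=
      Real.rpow_le_rpow_of_exponent_le hXr (by linarith)
    refine le_trans (le_trans ?_ g1) g2
    refine Nat.cast_le.2 (card_le_card fun n hn => ?_)
    rw [mem_filter] at hn ⊢
    refine ⟨hn.1, ?_⟩
    by_contra hcon
    push Not at hcon
    obtain ⟨Λ, hΛ⟩ : ∃ Λ : ℝ, Λ = (Lm H : ℝ) := ⟨_, rfl⟩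
    obtain ⟨q, hq⟩ : ∃ q : ℝ, q = (qY Y H n : ℝ) := ⟨_, rfl⟩
    have hq0 : 0 ≤ q := by rw [hq]; exact Nat.cast_nonneg _
    have h2 := hn.2
    rw [← hΛ, ← hq] at hcon h2
    rw [← hΛ] at hΛ1
    have h3 : (2 * Λ * q) ^ 2 ≤ ((X : ℝ) ^ ((1 - ν) / 2)) ^ 2 :=
      pow_le_pow_left₀ (by positivity) hcon 2
    have h4 : ((X : ℝ) ^ ((1 - ν) / 2)) ^ 2 = (X : ℝ) ^ (1 - ν) := by
      rw [← Real.rpow_natCast, ← Real.rpow_mul hX0.le]
      congr 1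
      push_cast
      ring
    have h5 : 2 * Λ * q ^ 2 ≤ (2 * Λ * q) ^ 2 := by
      have e1 : (2 * Λ * q) ^ 2 = (2 * Λ) * (2 * Λ * q ^ 2) := by ring
      rw [e1]
      have e2 : 0 ≤ 2 * Λ * q ^ 2 := by positivity
      nlinarith
    linarith

end Pool.MP_dd84fd_nt.TC
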