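import Pool.Agent.Lib.MP_dd84fd_nt.TC.CoreA

/-!
# TC-Core: two failures contradict each other, `CoreF` (helper45)

Selection of a window and of a path of classes by averaging, then `core_pt`.
-/

set_option autoImplicit false

namespace Pool.MP_dd84fd_nt.TC

open Finset Pool.MP_67663b_nt.Odd Pool.MP_dd84fd_nt.En Pool.MP_dd84fd_nt.E2 Pool.MP_dd84fd_nt.LS
open Pool.MP_dd84fd_nt.GX Pool.MP_dd84fd_nt.HX Pool.MP_dd84fd_nt.IX
open Pool.MP_dd84fd_nt.BX (PC pv IsPC PR SX sN prc ind)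

theorem sum_path {W : ℕ} (hW : 1 ≤ W) (S : Finset ℕ) (hS : S ⊆ range W) (g : ZMod W → ℝ)
    (hg : ∀ z, 0 ≤ g z) (f : ZMod W → ZMod W) (hf : Function.Injective f) :
    ∑ c ∈ S, g (f (c : ZMod W)) ≤ ∑ c ∈ range W, g (c : ZMod W) := by
  classical
  have : NeZero W := ⟨by omega⟩
  have key : ∀ h : ZMod W → ℝ, ∑ c ∈ range W, h (c : ZMod W) = ∑ z : ZMod W, h z := by
    intro h
    refine sum_bij' (fun c _ => (c : ZMod W)) (fun z _ => z.val) ?_ ?_ ?_ ?_ ?_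
    · intro c _; exact mem_univ _
    · intro z _; rw [mem_range]; exact ZMod.val_lt z
    · intro c hc; exact ZMod.val_cast_of_lt (mem_range.1 hc)
    · intro z _; exact ZMod.natCast_zmod_val z
    · intro c _; rfl
  calc ∑ c ∈ S, g (f (c : ZMod W)) ≤ ∑ c ∈ range W, g (f (c : ZMod W)) :=
        sum_le_sum_of_subset_of_nonneg hS fun _ _ _ => hg _
    _ = ∑ z : ZMod W, g (f z) := key (fun z => g (f z))
    _ = ∑ z : ZMod W, g z :=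
        Function.Bijective.sum_comp (Finite.injective_iff_bijective.1 hf) g
    _ = ∑ c ∈ range W, g (c : ZMod W) := (key g).symm

/-- the number of windows -/
theorem card_JW {X : ℕ} {Δ : ℝ} (hΔ : 0 < Δ) (h : 7 ≤ (X : ℝ) / Δ) :
    3 / 4 * ((X : ℝ) / Δ) ≤ ((JW X Δ).card : ℝ) := by
  classical
  have hX0 : (0 : ℝ) ≤ X := Nat.cast_nonneg X
  have h1 : Icc ⌈(X : ℝ) / (10 * Δ)⌉₊ ⌊(X : ℝ) / Δ⌋₊ ⊆ JW X Δ := by
    intro j hj
    rw [mem_Icc] at hj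
    unfold JW
    rw [mem_filter, mem_range]
    have a1 : (X : ℝ) / (10 * Δ) ≤ j := (Nat.le_ceil _).trans (by exact_mod_cast hj.1)
    have a2 : (j : ℝ) ≤ X / Δ := (by exact_mod_cast hj.2 : (j : ℝ) ≤ ⌊(X : ℝ) / Δ⌋₊).trans
      (Nat.floor_le (by positivity))
    refine ⟨?_, ?_, ?_⟩
    · have a3 : ⌊(X : ℝ) / Δ⌋₊ ≤ ⌈(X : ℝ) / Δ⌉₊ := Nat.floor_le_ceil _
      omega
    · rw [div_le_iff₀ (by positivity)] at a1
      linarith
    · rw [le_div_iff₀ hΔ] at a2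
      linarith
  have h2 := card_le_card h1
  rw [Nat.card_Icc] at h2
  have h3 : ((⌊(X : ℝ) / Δ⌋₊ + 1 - ⌈(X : ℝ) / (10 * Δ)⌉₊ : ℕ) : ℝ) ≤ ((JW X Δ).card : ℝ) := by
    exact_mod_cast h2
  have h4 : (X : ℝ) / Δ < ⌊(X : ℝ) / Δ⌋₊ + 1 := Nat.lt_floor_add_one _
  have h5 : (⌈(X : ℝ) / (10 * Δ)⌉₊ : ℝ) < X / (10 * Δ) + 1 := Nat.ceil_lt_add_one (by positivity)
  have h6 : (X : ℝ) / (10 * Δ) = 1 / 10 * (X / Δ) := by field_simp
  have h8 := le_tsub_add (a := ⌈(X : ℝ) / (10 * Δ)⌉₊) (b := ⌊(X : ℝ) / Δ⌋₊ + 1)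
  have h9 : ((⌊(X : ℝ) / Δ⌋₊ : ℝ) + 1) ≤
    ((⌊(X : ℝ) / Δ⌋₊ + 1 - ⌈(X : ℝ) / (10 * Δ)⌉₊ : ℕ) : ℝ) + ⌈(X : ℝ) / (10 * Δ)⌉₊ := by
    exact_mod_cast h8
  linarith

/-- `φ(Q) / Q ≤ φ(d) / d` for `d ∣ Q` -/
theorem tot_div {Q d : ℕ} (hQ : 1 ≤ Q) (h : d ∣ Q) :
    (Nat.totient Q : ℝ) / Q * ((d : ℝ) / (Nat.totient d : ℝ)) ≤ 1 := by
  have hd : 1 ≤ d := Nat.pos_of_dvd_of_pos h hQ
  have key : ∀ m : ℕ, 1 ≤ m → (Nat.totient m : ℝ) / m = ∏ p ∈ m.primeFactors, (1 - (p : ℝ)⁻¹) := by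
    intro m hm
    have e := Nat.totient_eq_mul_prod_factors m
    have e2 : (Nat.totient m : ℝ) = m * ∏ p ∈ m.primeFactors, (1 - (p : ℝ)⁻¹) := by
      have e1 := congrArg (fun q : ℚ => (q : ℝ)) e
      push_cast at e1
      exact e1
    rw [e2]
    have : (m : ℝ) ≠ 0 := by positivity
    field_simp
  have hφ : (0 : ℝ) < (Nat.totient d : ℝ) := by exact_mod_cast Nat.totient_pos.2 hd
  have hd0 : (0 : ℝ) < d := by exact_mod_cast hd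
  have h2 : (Nat.totient Q : ℝ) / Q ≤ (Nat.totient d : ℝ) / d := by
    rw [key Q hQ, key d hd]
    have hsub : d.primeFactors ⊆ Q.primeFactors := Nat.primeFactors_mono h (by omega)
    rw [← prod_sdiff hsub]
    have h3 : ∏ p ∈ Q.primeFactors \ d.primeFactors, (1 - (p : ℝ)⁻¹) ≤ 1 := by
      refine prod_le_one ?_ ?_
      · intro p hp
        have h4 : 1 ≤ p := (Nat.prime_of_mem_primeFactors (mem_sdiff.1 hp).1).one_lt.le
        have h5 : (p : ℝ)⁻¹ ≤ 1 := inv_le_one_of_one_le₀ (by exact_mod_cast h4)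
        linarith
      · intro p _
        have : (0 : ℝ) ≤ (p : ℝ)⁻¹ := by positivity
        linarith
    have h6 : 0 ≤ ∏ p ∈ d.primeFactors, (1 - (p : ℝ)⁻¹) := by
      refine prod_nonneg ?_
      intro p hp
      have h4 : 1 ≤ p := (Nat.prime_of_mem_primeFactors hp).one_lt.le
      have h5 : (p : ℝ)⁻¹ ≤ 1 := inv_le_one_of_one_le₀ (by exact_mod_cast h4)
      linarith
    exact mul_le_of_le_one_left h6 h3
  calc (Nat.totient Q : ℝ) / Q * ((d : ℝ) / (Nat.totient d : ℝ)) ≤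
      (Nat.totient d : ℝ) / d * ((d : ℝ) / (Nat.totient d : ℝ)) :=
        mul_le_mul_of_nonneg_right h2 (by positivity)
    _ = 1 := by field_simp

/-- the expected size of `LC`, normalised -/
theorem lm_norm {X n Q W : ℕ} {Δ : ℝ} (hΔ : 0 < Δ) (hX : 3 ≤ X) (hQ : 1 ≤ Q) (hW : 1 ≤ W) :
    (Nat.totient Q : ℝ) / ((Nat.totient W : ℝ) * (sw X Δ W) ^ 2) * LM X Δ n Q ≤
      Nat.totient W * (X / Δ) := by
  have hL : 0 < Real.log X := Real.log_pos (by exact_mod_cast (by omega : 1 < X))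
  have hφW : (0 : ℝ) < (Nat.totient W : ℝ) := by exact_mod_cast Nat.totient_pos.2 hW
  have hQ0 : (0 : ℝ) < Q := by exact_mod_cast hQ
  have hd : 1 ≤ Nat.gcd n Q := Nat.gcd_pos_of_pos_right n hQ
  have hφd : (0 : ℝ) < (Nat.totient (Nat.gcd n Q) : ℝ) := by exact_mod_cast Nat.totient_pos.2 hd
  have h1 := tot_div hQ (Nat.gcd_dvd_right n Q)
  have e : (Nat.totient Q : ℝ) / ((Nat.totient W : ℝ) * (sw X Δ W) ^ 2) * LM X Δ n Q =
      Nat.totient W * (X / Δ) *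
      ((Nat.totient Q : ℝ) / Q * ((Nat.gcd n Q : ℝ) / (Nat.totient (Nat.gcd n Q) : ℝ))) := by
    unfold LM sw
    field_simp
  rw [e]
  exact mul_le_of_le_one_right (by positivity) h1

/-- selection by averaging -/
theorem sel {ι : Type*} [Fintype ι] (J P : Finset ℕ) (f : ι → ℕ → ℕ → ℝ) (τ b : ι → ℝ)
    (hτ : ∀ i, 0 < τ i) (hf : ∀ i j c, 0 ≤ f i j c)
    (hb : ∀ i, ∑ j ∈ J, ∑ c ∈ P, f i j c ≤ b i)
    (hlt : ∑ i, b i / τ i < (J.card : ℝ) * (P.card : ℝ)) :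
    ∃ j ∈ J, ∃ c ∈ P, ∀ i, f i j c ≤ τ i := by
  by_contra h
  push Not at h
  have h1 : ∀ j ∈ J, ∀ c ∈ P, (1 : ℝ) ≤ ∑ i, f i j c / τ i := by
    intro j hj c hc
    obtain ⟨i, hi⟩ := h j hj c hc
    have h2 : (1 : ℝ) ≤ f i j c / τ i := by
      rw [le_div_iff₀ (hτ i)]; linarith
    exact h2.trans (single_le_sum (f := fun i => f i j c / τ i)
      (fun k _ => div_nonneg (hf k j c) (hτ k).le) (mem_univ i))
  have h2 : (J.card : ℝ) * (P.card : ℝ) ≤ ∑ j ∈ J, ∑ c ∈ P, ∑ i, f i j c / τ i := by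
    calc (J.card : ℝ) * (P.card : ℝ) = ∑ j ∈ J, ∑ c ∈ P, (1 : ℝ) := by
          rw [sum_const, sum_const, nsmul_eq_mul, nsmul_eq_mul, mul_one]
      _ ≤ _ := sum_le_sum fun j hj => sum_le_sum fun c hc => h1 j hj c hc
  have h3 : ∑ j ∈ J, ∑ c ∈ P, ∑ i, f i j c / τ i = ∑ i, (∑ j ∈ J, ∑ c ∈ P, f i j c) / τ i := by
    have e1 : ∀ j ∈ J, ∑ c ∈ P, ∑ i, f i j c / τ i = ∑ i, ∑ c ∈ P, f i j c / τ i :=
      fun j _ => sum_comm
    rw [sum_congr rfl e1, sum_comm]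
    refine sum_congr rfl fun i _ => ?_
    rw [sum_div]
    refine sum_congr rfl fun j _ => ?_
    rw [sum_div]
  have h4 : ∑ i, (∑ j ∈ J, ∑ c ∈ P, f i j c) / τ i ≤ ∑ i, b i / τ i :=
    sum_le_sum fun i _ => div_le_div_of_nonneg_right (hb i) (hτ i).le
  linarith

/-- selection for nine functions -/
theorem sel9 (J P : Finset ℕ) (r1 r3 r2 a0 a1 a2 a3 b1 b2 : ℕ → ℕ → ℝ) (t e d d2 R A G : ℝ)
    (ht : 0 < t) (he : 0 < e) (hd : 0 < d) (hd2 : 0 < d2)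
    (n1 : ∀ j c, 0 ≤ r1 j c) (n3 : ∀ j c, 0 ≤ r3 j c) (n2 : ∀ j c, 0 ≤ r2 j c)
    (m0 : ∀ j c, 0 ≤ a0 j c) (m1 : ∀ j c, 0 ≤ a1 j c) (m2 : ∀ j c, 0 ≤ a2 j c)
    (m3 : ∀ j c, 0 ≤ a3 j c) (l1 : ∀ j c, 0 ≤ b1 j c) (l2 : ∀ j c, 0 ≤ b2 j c)
    (s1 : ∑ j ∈ J, ∑ c ∈ P, r1 j c ≤ R) (s3 : ∑ j ∈ J, ∑ c ∈ P, r3 j c ≤ R)
    (s2 : ∑ j ∈ J, ∑ c ∈ P, r2 j c ≤ R)
    (u0 : ∑ j ∈ J, ∑ c ∈ P, a0 j c ≤ A) (u1 : ∑ j ∈ J, ∑ c ∈ P, a1 j c ≤ A)
    (u2 : ∑ j ∈ J, ∑ c ∈ P, a2 j c ≤ A) (u3 : ∑ j ∈ J, ∑ c ∈ P, a3 j c ≤ A)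
    (v1 : ∑ j ∈ J, ∑ c ∈ P, b1 j c ≤ G) (v2 : ∑ j ∈ J, ∑ c ∈ P, b2 j c ≤ G)
    (hlt : 2 * R / t + R / e + 4 * A / d + G / 1 + G / d2 < (J.card : ℝ) * (P.card : ℝ)) :
    ∃ j ∈ J, ∃ c ∈ P, r1 j c ≤ t ∧ r3 j c ≤ t ∧ r2 j c ≤ e ∧ a0 j c ≤ d ∧ a1 j c ≤ d ∧
      a2 j c ≤ d ∧ a3 j c ≤ d ∧ b1 j c ≤ 1 ∧ b2 j c ≤ d2 := by
  obtain ⟨j, hj, c, hc, hall⟩ := sel (ι := Fin 9) J P ![r1, r3, r2, a0, a1, a2, a3, b1, b2]
    ![t, t, e, d, d, d, d, 1, d2] ![R, R, R, A, A, A, A, G, G]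
    (by
      intro i
      fin_cases i
      · exact ht
      · exact ht
      · exact he
      · exact hd
      · exact hd
      · exact hd
      · exact hd
      · exact one_pos
      · exact hd2)
    (by
      intro i j c
      fin_cases i
      · exact n1 j c
      · exact n3 j c
      · exact n2 j c
      · exact m0 j c
      · exact m1 j c
      · exact m2 j c
      · exact m3 j c
      · exact l1 j c
      · exact l2 j c)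
    (by
      intro i
      fin_cases i
      · exact s1
      · exact s3
      · exact s2
      · exact u0
      · exact u1
      · exact u2
      · exact u3
      · exact v1
      · exact v2)
    (by
      have e1 : ∑ i : Fin 9, (![R, R, R, A, A, A, A, G, G] : Fin 9 → ℝ) i /
          (![t, t, e, d, d, d, d, 1, d2] : Fin 9 → ℝ) i =
          R / t + R / t + R / e + A / d + A / d + A / d + A / d + G / 1 + G / d2 := by
        simp [Fin.sum_univ_succ]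
        ring
      rw [e1]
      have e2 : 2 * R / t = R / t + R / t := by ring
      have e3 : 4 * A / d = A / d + A / d + A / d + A / d := by ring
      linarith)
  exact ⟨j, hj, c, hc, hall 0, hall 1, hall 2, hall 3, hall 4, hall 5, hall 6, hall 7, hall 8⟩

/-- the constants -/
theorem consts {C1 C2 η ρ : ℝ} (h1 : 0 < C1) (h2 : 0 < C2) (hη0 : 0 < η) (hη : η ≤ 1 / 10)
    (hρ0 : 0 < ρ) (hρ : ρ ≤ 1) :
    ∃ κ1 κ2 M : ℝ, 0 < κ1 ∧ κ1 ≤ 1 ∧ 0 < κ2 ∧ κ2 ≤ 1 ∧ 0 < M ∧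
      Real.sqrt (4 * (1 + C1 / κ2)) ≤ M ∧ (η / (2 * M)) ^ 2 / 5 ≤ 1 ∧
      2 * (C2 * (η ^ 2 / (1280 * C2 * (C1 + 1)) * ρ ^ 2)) / (η / (2 * M)) +
        C2 * (η ^ 2 / (1280 * C2 * (C1 + 1)) * ρ ^ 2) / (η / 2) +
        4 * (C1 * κ1) / ((η / (2 * M)) ^ 2 / 5) + C1 * κ2 / 1 + C1 * κ2 / (η ^ 2 / 20) ≤
        ρ / 2 := by
  obtain ⟨κ2, hκ2⟩ : ∃ κ2 : ℝ, κ2 = ρ * η ^ 2 / (400 * (C1 + 1)) := ⟨_, rfl⟩
  obtain ⟨M, hM⟩ : ∃ M : ℝ, M = Real.sqrt (4 * (1 + C1 / κ2)) := ⟨_, rfl⟩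
  obtain ⟨d1, hd1⟩ : ∃ d1 : ℝ, d1 = (η / (2 * M)) ^ 2 / 5 := ⟨_, rfl⟩
  obtain ⟨κ1, hκ1⟩ : ∃ κ1 : ℝ, κ1 = ρ * d1 / (32 * (C1 + 1)) := ⟨_, rfl⟩
  have hκ20 : 0 < κ2 := by rw [hκ2]; positivity
  have hη2 : η ^ 2 ≤ 1 := by nlinarith
  have hκ21 : κ2 ≤ 1 := by
    rw [hκ2, div_le_one (by positivity)]
    nlinarith [mul_le_mul hρ hη2 (by positivity) (by norm_num : (0 : ℝ) ≤ 1)]
  have hMs : M ^ 2 = 4 * (1 + C1 / κ2) := by rw [hM, Real.sq_sqrt (by positivity)]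
  have hM0 : 0 < M := by rw [hM]; exact Real.sqrt_pos.2 (by positivity)
  have hM2 : 4 ≤ M ^ 2 := by
    rw [hMs]
    have : 0 < C1 / κ2 := by positivity
    linarith
  have hM1 : 2 ≤ M := by nlinarith
  have hd10 : 0 < d1 := by rw [hd1]; positivity
  have hd11 : d1 ≤ 1 := by
    rw [hd1]
    have : η / (2 * M) ≤ 1 := by rw [div_le_one (by positivity)]; linarith
    have h3 : (η / (2 * M)) ^ 2 ≤ 1 := pow_le_one₀ (by positivity) this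
    linarith
  have hκ10 : 0 < κ1 := by rw [hκ1]; positivity
  have hκ11 : κ1 ≤ 1 := by
    rw [hκ1, div_le_one (by positivity)]
    nlinarith [mul_le_mul hρ hd11 hd10.le (by norm_num : (0 : ℝ) ≤ 1)]
  refine ⟨κ1, κ2, M, hκ10, hκ11, hκ20, hκ21, hM0, hM.ge, ?_, ?_⟩
  · rw [← hd1]; exact hd11
  · rw [← hd1]
    have hC : 0 < C1 + 1 := by linarith
    -- the third term
    have t3 : 4 * (C1 * κ1) / d1 ≤ ρ / 8 := by
      have : 4 * (C1 * κ1) / d1 = C1 / (C1 + 1) * (ρ / 8) := by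
        rw [hκ1]; field_simp; ring
      rw [this]
      have h3 : C1 / (C1 + 1) ≤ 1 := by rw [div_le_one hC]; linarith
      exact mul_le_of_le_one_left (by positivity) h3
    have t4 : C1 * κ2 / 1 + C1 * κ2 / (η ^ 2 / 20) ≤ ρ / 8 := by
      have e : C1 * κ2 / 1 + C1 * κ2 / (η ^ 2 / 20) =
          C1 / (C1 + 1) * (ρ * (η ^ 2 + 20) / 400) := by
        rw [hκ2]; field_simp
      rw [e]
      have h3 : C1 / (C1 + 1) ≤ 1 := by rw [div_le_one hC]; linarith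
      refine (mul_le_of_le_one_left (by positivity) h3).trans ?_
      nlinarith [mul_nonneg hρ0.le (sub_nonneg.2 hη2)]
    have t2 : C2 * (η ^ 2 / (1280 * C2 * (C1 + 1)) * ρ ^ 2) / (η / 2) ≤ ρ / 8 := by
      have e : C2 * (η ^ 2 / (1280 * C2 * (C1 + 1)) * ρ ^ 2) / (η / 2) =
          η * ρ ^ 2 / (640 * (C1 + 1)) := by
        field_simp; ring
      rw [e, div_le_iff₀ (by positivity)]
      have : η * ρ ^ 2 ≤ ρ := by nlinarith [mul_nonneg hη0.le hρ0.le]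
      nlinarith
    have hρM : ρ * M ≤ 40 * (C1 + 1) / η := by
      have h3 : (ρ * M) ^ 2 ≤ (40 * (C1 + 1) / η) ^ 2 := by
        have e1 : (ρ * M) ^ 2 = 4 * ρ ^ 2 + 1600 * C1 * (C1 + 1) * ρ / η ^ 2 := by
          rw [mul_pow, hMs, hκ2]; field_simp; ring
        have e2 : (40 * (C1 + 1) / η) ^ 2 = 1600 * (C1 + 1) ^ 2 / η ^ 2 := by
          field_simp; ring
        rw [e1, e2]
        have h4 : 4 * ρ ^ 2 ≤ 4 / η ^ 2 := by
          rw [le_div_iff₀ (by positivity)]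
          nlinarith [mul_le_mul (pow_le_one₀ hρ0.le hρ : ρ ^ 2 ≤ 1) hη2 (by positivity)
            (by norm_num : (0 : ℝ) ≤ 1)]
        have h5 : 1600 * C1 * (C1 + 1) * ρ / η ^ 2 ≤ 1600 * C1 * (C1 + 1) / η ^ 2 := by
          apply div_le_div_of_nonneg_right _ (by positivity)
          exact mul_le_of_le_one_right (by positivity) hρ
        have h6 : 4 / η ^ 2 + 1600 * C1 * (C1 + 1) / η ^ 2 ≤ 1600 * (C1 + 1) ^ 2 / η ^ 2 := by
          rw [← add_div]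
          apply div_le_div_of_nonneg_right _ (by positivity)
          nlinarith
        linarith
      exact le_of_sq_le_sq h3 (by positivity)
    have t1 : 2 * (C2 * (η ^ 2 / (1280 * C2 * (C1 + 1)) * ρ ^ 2)) / (η / (2 * M)) ≤ ρ / 8 := by
      have e : 2 * (C2 * (η ^ 2 / (1280 * C2 * (C1 + 1)) * ρ ^ 2)) / (η / (2 * M)) =
          η / (320 * (C1 + 1)) * ρ * (ρ * M) := by
        field_simp; ring
      rw [e]
      calc η / (320 * (C1 + 1)) * ρ * (ρ * M) ≤ η / (320 * (C1 + 1)) * ρ *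
            (40 * (C1 + 1) / η) := mul_le_mul_of_nonneg_left hρM (by positivity)
        _ = ρ / 8 := by field_simp; ring
    linarith

theorem core_big (B K : ℕ) (hB : 1 ≤ B) : ∃ X0 : ℕ, ∀ X : ℕ, X0 ≤ X → 3 ≤ X ∧
    (Real.log X) ^ K ≤ Dl B X ∧ 7 ≤ (X : ℝ) / Dl B X ∧ 0 < Dl B X ∧ 1 ≤ Real.log X := by
  have h1 : ∀ᶠ x : ℝ in Filter.atTop, (Real.log x) ^ (K + B) ≤ x / 4 := by
    have h2 := (isLittleO_log_rpow_rpow_atTop (s := 1) ((K + B : ℕ) : ℝ) (by norm_num)).bound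
      (by norm_num : (0 : ℝ) < 1 / 4)
    filter_upwards [h2, Filter.eventually_ge_atTop (Real.exp 1)] with x hx hx1
    have hx0 : 0 < x := (Real.exp_pos 1).trans_le hx1
    have hl : 0 ≤ Real.log x := (by
      have := Real.log_le_log (Real.exp_pos 1) hx1
      rw [Real.log_exp] at this; linarith)
    rw [Real.rpow_natCast, Real.rpow_one, Real.norm_of_nonneg (pow_nonneg hl _),
      Real.norm_of_nonneg hx0.le] at hx
    linarith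
  have h3 : ∀ᶠ X : ℕ in Filter.atTop, (Real.log (X : ℝ)) ^ (K + B) ≤ (X : ℝ) / 4 :=
    tendsto_natCast_atTop_atTop.eventually h1
  have h4 : ∀ᶠ X : ℕ in Filter.atTop, Real.exp 2 ≤ (X : ℝ) :=
    tendsto_natCast_atTop_atTop.eventually (Filter.eventually_ge_atTop (Real.exp 2))
  obtain ⟨X0, hX0⟩ := Filter.eventually_atTop.1 (h3.and (h4.and (Filter.eventually_ge_atTop 3)))
  refine ⟨X0, fun X hX => ?_⟩
  obtain ⟨a1, a2, a3⟩ := hX0 X hX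
  have hXp : (0 : ℝ) < X := (Real.exp_pos 2).trans_le a2
  have hL : 2 ≤ Real.log X := by
    have := Real.log_le_log (Real.exp_pos 2) a2
    rwa [Real.log_exp] at this
  have hL0 : 0 < Real.log X := by linarith
  have hLB : 0 < (Real.log X) ^ B := pow_pos hL0 B
  refine ⟨a3, ?_, ?_, ?_, by linarith⟩
  · unfold Dl
    rw [le_div_iff₀ (by positivity)]
    rw [pow_add] at a1
    linarith
  · have e : (X : ℝ) / Dl B X = 4 * (Real.log X) ^ B := by unfold Dl; field_simp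
    rw [e]
    have h5 : (2 : ℝ) ≤ (Real.log X) ^ B := by
      calc (2 : ℝ) = 2 ^ 1 := by norm_num
        _ ≤ (Real.log X) ^ 1 := pow_le_pow_left₀ (by norm_num) hL 1
        _ ≤ (Real.log X) ^ B := pow_le_pow_right₀ (by linarith) hB
    linarith
  · unfold Dl; positivity

theorem RC_sum {X n n₀ R W Q B : ℕ} {C2 c0 ρ : ℝ} (hC2 : 0 ≤ C2) (hΔ : 0 < Dl B X) (hX : 3 ≤ X)
    (hQ : 1 ≤ Q) (hW : 1 ≤ W)
    (hR : ∑ j ∈ JW X (Dl B X), ∑ c ∈ range W,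
      RC X (Dl B X) R W Q n (j * Dl B X / 2) (n₀ - j * Dl B X / 2) (c : ZMod W) ≤
      C2 * ((Nat.totient Q : ℝ) / ((Nat.totient W : ℝ) * (sw X (Dl B X) W) ^ 2)) *
      LC X (Dl B X) n Q) (hLC : LC X (Dl B X) n Q ≤ c0 * ρ ^ 2 * LM X (Dl B X) n Q)
    (hc : 0 ≤ c0 * ρ ^ 2) :
    ∑ j ∈ JW X (Dl B X), ∑ c ∈ range W,
      RC X (Dl B X) R W Q n (j * Dl B X / 2) (n₀ - j * Dl B X / 2) (c : ZMod W) ≤
      C2 * (c0 * ρ ^ 2) * (Nat.totient W * (X / Dl B X)) := by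
  have h1 := lm_norm (n := n) hΔ hX hQ hW
  have hco : 0 ≤ (Nat.totient Q : ℝ) / ((Nat.totient W : ℝ) * (sw X (Dl B X) W) ^ 2) := by
    positivity
  refine hR.trans ?_
  calc _ ≤ C2 * ((Nat.totient Q : ℝ) / ((Nat.totient W : ℝ) * (sw X (Dl B X) W) ^ 2)) *
        (c0 * ρ ^ 2 * LM X (Dl B X) n Q) := mul_le_mul_of_nonneg_left hLC (by positivity)
    _ = C2 * (c0 * ρ ^ 2) * ((Nat.totient Q : ℝ) /
        ((Nat.totient W : ℝ) * (sw X (Dl B X) W) ^ 2) * LM X (Dl B X) n Q) := by ring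
    _ ≤ _ := mul_le_mul_of_nonneg_left h1 (by positivity)

theorem coreF (hS : SVF) (hM : MassF) (hE : ExcF) (hR : RCSF) : CoreF := by
  classical
  intro ν hν0 hν
  obtain ⟨C1, hC1, hE⟩ := hE ν hν0 hν
  obtain ⟨C2, hC2, hR⟩ := hR
  obtain ⟨η, hη⟩ : ∃ η : ℝ, η = ν / 30 := ⟨_, rfl⟩
  have hη0 : 0 < η := by rw [hη]; positivity
  have hη1 : η ≤ 1 / 10 := by rw [hη]; linarith
  refine ⟨η ^ 2 / (1280 * C2 * (C1 + 1)), by positivity, ?_⟩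
  intro B K ρ hB hρ0 hρ1
  obtain ⟨κ1, κ2, M, hκ10, hκ11, hκ20, hκ21, hM0, hMs, hd11, hcon⟩ :=
    consts hC1 hC2 hη0 hη1 hρ0 hρ1
  obtain ⟨N0, hN0⟩ : ∃ N0 : ℕ, (1 + C1 / κ1) * (1 + C1 / κ2) ≤ N0 := exists_nat_ge _
  obtain ⟨X1, hX1⟩ := hS ν hν0 hν B K N0 hB
  obtain ⟨X2, hX2⟩ := hM B K η hB hη0
  obtain ⟨X3, hX3⟩ := hE B K κ1 hB hκ10 hκ11
  obtain ⟨X4, hX4⟩ := hE B K κ2 hB hκ20 hκ21
  obtain ⟨X5, hX5⟩ := hR B hB
  obtain ⟨X6, hX6⟩ := core_big B K hB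
  refine ⟨max (max X1 X2) (max (max X3 X4) (max X5 X6)), fun X hX => ?_⟩
  simp only [max_le_iff] at hX
  obtain ⟨⟨g1, g2⟩, ⟨g3, g4⟩, g5, g6⟩ := hX
  obtain ⟨hX3', hDK, hX7, hΔ, hL1⟩ := hX6 X g6
  intro n n' Q1 Q2 W hQ1 hQ2 hW hWK hn hn' hlcm hn6 hn9 hnn hpath hLC1 hLC2
  subst hW
  set W := Nat.gcd Q1 Q2 with hWdef
  set R := Nat.lcm Q1 Q2 with hRdef
  have hXr : (0 : ℝ) < X := by exact_mod_cast (by omega : 0 < X)
  have hX1r : (1 : ℝ) ≤ X := by exact_mod_cast (by omega : 1 ≤ X)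
  have hWp : 1 ≤ W := Nat.gcd_pos_of_pos_left _ hQ1
  have hRp : 1 ≤ R := Nat.lcm_pos hQ1 hQ2
  have hWQ1 : W ∣ Q1 := Nat.gcd_dvd_left _ _
  have hWQ2 : W ∣ Q2 := Nat.gcd_dvd_right _ _
  have hQR1 : Q1 ∣ R := Nat.dvd_lcm_left _ _
  have hQR2 : Q2 ∣ R := Nat.dvd_lcm_right _ _
  have hWR : W ∣ R := hWQ1.trans hQR1
  have hRX : R ≤ X := by
    have h1 : (R : ℝ) ≤ X := hlcm.trans (by
      calc (X : ℝ) ^ (2 / 3 - ν) ≤ (X : ℝ) ^ (1 : ℝ) :=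
            Real.rpow_le_rpow_of_exponent_le hX1r (by linarith)
        _ = X := Real.rpow_one _)
    exact_mod_cast h1
  have hQ1X : (Q1 : ℝ) ≤ (X : ℝ) ^ (2 / 3 - ν) :=
    le_trans (by exact_mod_cast Nat.le_of_dvd hRp hQR1) hlcm
  have hQ2X : (Q2 : ℝ) ≤ (X : ℝ) ^ (2 / 3 - ν) :=
    le_trans (by exact_mod_cast Nat.le_of_dvd hRp hQR2) hlcm
  obtain ⟨E1, ho1, hcard1, hI1, hD1⟩ := hX3 X g3 R W Q1 hRp hRX hWQ1 hQR1 hQ1X hWK
  obtain ⟨E2, ho2, hcard2, hI2, hD2⟩ := hX4 X g4 R W Q2 hRp hRX hWQ2 hQR2 hQ2X hWK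
  have hs : 0 < sw X (Dl B X) W := by
    unfold sw
    have : (0 : ℝ) < (Nat.totient W : ℝ) := by exact_mod_cast Nat.totient_pos.2 hWp
    have : 0 < Real.log X := by linarith
    positivity
  have hNN : E1.card * E2.card ≤ N0 := by
    have h1 : (E1.card : ℝ) * E2.card ≤ N0 :=
      (mul_le_mul hcard1 hcard2 (by positivity) (by positivity)).trans hN0
    exact_mod_cast h1
  have hMc : Real.sqrt (4 * (E2.card : ℝ)) ≤ M :=
    (Real.sqrt_le_sqrt (by linarith)).trans hMs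
  -- the windows
  have hwin : ∀ y : ℝ, (X : ℝ) / 20 ≤ y → y ≤ 9 / 10 * X →
      Win X (Dl B X) Q1 Q2 (3 - ν) η y N0 := by
    intro y hy1 hy2
    refine ⟨fun c Γ hΓ hI t => ?_, fun c hc => ?_⟩
    · exact hX1 X g1 R W hRp hlcm hWR hWK c y hy1 (by linarith) Γ hΓ hI t
    · exact hX2 X g2 R W hRp hRX hWR hWK c hc y hy1 hy2
  -- the sums
  have hA0 : 0 ≤ (Nat.totient W : ℝ) * (X / Dl B X) := by positivity
  have hc0 : 0 ≤ η ^ 2 / (1280 * C2 * (C1 + 1)) * ρ ^ 2 := by positivity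
  have hP : PathSet W n n' ⊆ range W := filter_subset _ _
  have hn0 : |(n : ℝ) - n| ≤ Dl B X := by rw [sub_self, abs_zero]; exact hΔ.le
  have sR1 := RC_sum hC2.le hΔ hX3' hQ1 hWp (hX5 X g5 R W Q1 n n hQ1 hWQ1 hWp hn0) hLC1 hc0
  have sR2 := RC_sum hC2.le hΔ hX3' hQ2 hWp
    (hX5 X g5 R W Q2 n' n hQ2 hWQ2 hWp (hnn.trans hDK)) hLC2 hc0
  have sD1 := hD1 0 1 (Or.inl rfl)
  have sD1' := hD1 n (-1) (Or.inr rfl)
  have sD2 := hD2 0 1 (Or.inl rfl)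
  have sD2' := hD2 n (-1) (Or.inr rfl)
  simp only [zero_add, one_mul] at sD1 sD2
  have hneg : ∀ j : ℕ, (n : ℝ) + -1 * (j * Dl B X / 2) = n - j * Dl B X / 2 := fun j => by ring
  simp only [hneg] at sD1' sD2'
  obtain ⟨f0, hf0⟩ : ∃ f0 : ZMod W → ZMod W, f0 = fun c => (n : ZMod W) - c := ⟨_, rfl⟩
  obtain ⟨f2, hf2⟩ : ∃ f2 : ZMod W → ZMod W, f2 = fun c => (n' : ZMod W) - c := ⟨_, rfl⟩
  obtain ⟨f3, hf3⟩ : ∃ f3 : ZMod W → ZMod W, f3 = fun c => (n : ZMod W) - ((n' : ZMod W) - c) :=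
    ⟨_, rfl⟩
  have if0 : Function.Injective f0 := by rw [hf0]; intro a b h; simpa using h
  have if2 : Function.Injective f2 := by rw [hf2]; intro a b h; simpa using h
  have if3 : Function.Injective f3 := by rw [hf3]; intro a b h; simpa using h
  have iid : Function.Injective (fun c : ZMod W => c) := fun a b h => h
  have hRCn : ∀ (Q m : ℕ) (y₁ y₂ : ℝ) (z : ZMod W), 0 ≤ RC X (Dl B X) R W Q m y₁ y₂ z :=
    fun Q m y₁ y₂ z => RC_nonneg _ _ _ _ _ _ _ _ _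
  have hDDn : ∀ (Q : ℕ) (E : Finset (DirichletCharacter ℂ Q)) (y : ℝ) (z : ZMod W),
    0 ≤ DD X (Dl B X) R W Q E y z := fun Q E y z => DD_nonneg _ _ _ _ _ _ _ _
  have key : ∀ (g : ℕ → ZMod W → ℝ) (b : ℝ) (f : ZMod W → ZMod W), (∀ j z, 0 ≤ g j z) →
      Function.Injective f → ∑ j ∈ JW X (Dl B X), ∑ c ∈ range W, g j (c : ZMod W) ≤ b →
      ∑ j ∈ JW X (Dl B X), ∑ c ∈ PathSet W n n', g j (f (c : ZMod W)) ≤ b := by
    intro g b f hg hf hb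
    exact (sum_le_sum fun j _ => sum_path hWp _ hP (g j) (hg j) f hf).trans hb
  have hη2 : 0 < η / (2 * M) := by positivity
  have w1 := key (fun j z => RC X (Dl B X) R W Q1 n (j * Dl B X / 2) (n - j * Dl B X / 2) z) _
    (fun c => c) (fun j z => hRCn _ _ _ _ _) iid sR1
  have w3 := key (fun j z => RC X (Dl B X) R W Q1 n (j * Dl B X / 2) (n - j * Dl B X / 2) z) _
    f3 (fun j z => hRCn _ _ _ _ _) if3 sR1
  have w2 := key (fun j z => RC X (Dl B X) R W Q2 n' (j * Dl B X / 2) (n - j * Dl B X / 2) z) _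
    (fun c => c) (fun j z => hRCn _ _ _ _ _) iid sR2
  have x0 := key (fun j z => DD X (Dl B X) R W Q1 E1 (n - j * Dl B X / 2) z) _ f0
    (fun j z => hDDn _ _ _ _) if0 sD1'
  have x1 := key (fun j z => DD X (Dl B X) R W Q1 E1 (j * Dl B X / 2) z) _ (fun c => c)
    (fun j z => hDDn _ _ _ _) iid sD1
  have x2 := key (fun j z => DD X (Dl B X) R W Q1 E1 (n - j * Dl B X / 2) z) _ f2
    (fun j z => hDDn _ _ _ _) if2 sD1'
  have x3 := key (fun j z => DD X (Dl B X) R W Q1 E1 (j * Dl B X / 2) z) _ f3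
    (fun j z => hDDn _ _ _ _) if3 sD1
  have z1 := key (fun j z => DD X (Dl B X) R W Q2 E2 (j * Dl B X / 2) z) _ (fun c => c)
    (fun j z => hDDn _ _ _ _) iid sD2
  have z2 := key (fun j z => DD X (Dl B X) R W Q2 E2 (n - j * Dl B X / 2) z) _ f2
    (fun j z => hDDn _ _ _ _) if2 sD2'
  have hA1 : 0 < (Nat.totient W : ℝ) * (X / Dl B X) := by
    have : (0 : ℝ) < (Nat.totient W : ℝ) := by exact_mod_cast Nat.totient_pos.2 hWp
    positivity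
  obtain ⟨j, hj, c, hc, q1, q3, q2, p0, p1, p2, p3, o1, o2⟩ := sel9 (JW X (Dl B X))
    (PathSet W n n') _ _ _ _ _ _ _ _ _ (η / (2 * M)) (η / 2) ((η / (2 * M)) ^ 2 / 5)
    (η ^ 2 / 20) _ _ _ hη2 (by positivity) (by positivity) (by positivity)
    (fun j c => hRCn _ _ _ _ _) (fun j c => hRCn _ _ _ _ _) (fun j c => hRCn _ _ _ _ _)
    (fun j c => hDDn _ _ _ _) (fun j c => hDDn _ _ _ _) (fun j c => hDDn _ _ _ _)
    (fun j c => hDDn _ _ _ _) (fun j c => hDDn _ _ _ _) (fun j c => hDDn _ _ _ _)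
    w1 w3 w2 x0 x1 x2 x3 z1 z2 (by
      have b1 := card_JW hΔ hX7
      have b2 : 3 / 4 * ((X : ℝ) / Dl B X) * (ρ * Nat.totient W) ≤
          ((JW X (Dl B X)).card : ℝ) * ((PathSet W n n').card : ℝ) :=
        mul_le_mul b1 hpath (by positivity) (by positivity)
      refine lt_of_lt_of_le ?_ b2
      have b3 := mul_le_mul_of_nonneg_right hcon hA1.le
      have b4 : ρ / 2 * ((Nat.totient W : ℝ) * (X / Dl B X)) <
          3 / 4 * ((X : ℝ) / Dl B X) * (ρ * Nat.totient W) := by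
        have : 0 < ρ * ((Nat.totient W : ℝ) * (X / Dl B X)) := mul_pos hρ0 hA1
        linarith
      refine lt_of_le_of_lt (le_of_eq ?_) (lt_of_le_of_lt b3 b4)
      ring)
  have hcu : IsUnit (c : ZMod W) ∧ IsUnit ((n : ZMod W) - c) ∧ IsUnit ((n' : ZMod W) - c) ∧
      IsUnit ((n : ZMod W) - ((n' : ZMod W) - c)) := by
    unfold PathSet at hc
    exact (mem_filter.1 hc).2
  have hjj : (X : ℝ) / 20 ≤ j * Dl B X / 2 ∧ j * Dl B X / 2 ≤ (X : ℝ) / 2 := by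
    unfold JW at hj
    exact (mem_filter.1 hj).2
  have hy1 := hwin (j * Dl B X / 2) hjj.1 (by linarith)
  have hy2 := hwin (n - j * Dl B X / 2) (by linarith) (by linarith)
  simp only [hf0, hf2, hf3] at q1 q3 q2 p0 p1 p2 p3 o1 o2
  exact core_pt hX3' hΔ hy1 hy2 hQ1 hQ2 hs (by linarith) hη0.le hη1 (by rw [hη]; linarith) E1 E2
    hI1 hI2 ho1 ho2 hNN hn hn' (c : ZMod W) hcu.1 hcu.2.1 hcu.2.2.1 hcu.2.2.2 M hMc hM0 q1 q3 q2
    (p1.trans hd11) p0 (p2.trans hd11) p3 o1 o2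

end Pool.MP_dd84fd_nt.TC
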