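import Pool.Agent.Lib.MP_dd84fd_nt.TC.Defs

/-!
# TC-Rfl: the reflection `p ↦ n - p`

`W ∣ Q`, `Q ∣ n W`, `c` and `n - c` units modulo `W`.
`refl_unit`: for `p` coprime to `Q`, `p ≡ c (W)`, the residue `n - p` is a unit modulo `Q`: for a prime
`ℓ ∣ Q`: if `ℓ ∣ W` then `n - p ≡ n - c (mod ℓ)` is not `0`; if `ℓ ∤ W` then `ℓ ∣ n` and `n - p ≡ -p`.
`refl_ex`: fix one such `p₀` (if there is none take `θ = 1`).  `χ(n - p) = χ(p) χ(n p⁻¹ - 1)`, and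
`n p⁻¹ = n p₀⁻¹` in `ZMod Q`, because `n (p₀ - p) = 0` in `ZMod Q` (`W ∣ p₀ - p`, `Q ∣ n W`).  So
`θ = χ(n p₀⁻¹ - 1) = χ(n - p₀) / χ(p₀)`, of absolute value 1 by `refl_unit`.
`refl_inj`: `p ↦ n - p` on residues.
-/

set_option autoImplicit false

namespace Pool.MP_dd84fd_nt.TC

open Finset Pool.MP_67663b_nt.Odd Pool.MP_dd84fd_nt.En Pool.MP_dd84fd_nt.E2 Pool.MP_dd84fd_nt.LS
open Pool.MP_dd84fd_nt.GX Pool.MP_dd84fd_nt.HX Pool.MP_dd84fd_nt.IX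
open Pool.MP_dd84fd_nt.BX (PC pv IsPC PR SX sN prc ind)

theorem refl_unit {W Q n : ℕ} (hQ : 1 ≤ Q) (hW : W ∣ Q) (hn : Q ∣ n * W) (c : ZMod W)
    (hc : IsUnit ((n : ZMod W) - c)) (p : ℕ) (hp : Nat.Coprime p Q) (hpc : (p : ZMod W) = c) :
    IsUnit ((n : ZMod Q) - p) := by
  have h1 : ((n : ZMod Q) - p) = (((n : ℤ) - p : ℤ) : ZMod Q) := by push_cast; rfl
  have h2 : ((n : ZMod W) - c) = (((n : ℤ) - p : ℤ) : ZMod W) := by rw [← hpc]; push_cast; rfl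
  rw [h2, ZMod.coe_int_isUnit_iff_isCoprime] at hc
  rw [h1, ZMod.coe_int_isUnit_iff_isCoprime, Int.isCoprime_iff_gcd_eq_one]
  by_contra h
  obtain ⟨l, hl, hld⟩ := Nat.exists_prime_and_dvd h
  have hl1 : (l : ℤ) ∣ (Q : ℤ) := (Int.natCast_dvd_natCast.2 hld).trans (Int.gcd_dvd_left ..)
  have hl2 : (l : ℤ) ∣ ((n : ℤ) - p) := (Int.natCast_dvd_natCast.2 hld).trans (Int.gcd_dvd_right ..)
  have hlQ : l ∣ Q := Int.natCast_dvd_natCast.1 hl1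
  by_cases hlW : l ∣ W
  · have h3 := hc.isUnit_of_dvd' (Int.natCast_dvd_natCast.2 hlW) hl2
    rw [Int.ofNat_isUnit, Nat.isUnit_iff] at h3
    exact hl.one_lt.ne' h3
  · have h3 : l ∣ n := ((hl.dvd_mul).1 (hlQ.trans hn)).resolve_right hlW
    have h4 : (l : ℤ) ∣ p := by
      have h5 := dvd_sub (Int.natCast_dvd_natCast.2 h3) hl2
      rwa [sub_sub_cancel] at h5
    have h5 : l ∣ Nat.gcd p Q := Nat.dvd_gcd (Int.natCast_dvd_natCast.1 h4) hlQ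
    rw [Nat.Coprime] at hp
    rw [hp] at h5
    exact hl.one_lt.ne' (Nat.dvd_one.1 h5)

theorem refl_ex {W Q n : ℕ} (hQ : 1 ≤ Q) (hW : W ∣ Q) (hn : Q ∣ n * W) (c : ZMod W)
    (hc : IsUnit ((n : ZMod W) - c)) (χ : DirichletCharacter ℂ Q) :
    ∃ θ : ℂ, ‖θ‖ = 1 ∧ (χ = 1 → θ = 1) ∧ ∀ p : ℕ, Nat.Coprime p Q → (p : ZMod W) = c →
      χ ((n : ZMod Q) - p) = θ * χ (p : ZMod Q) := by
  by_cases hex : ∃ p₀ : ℕ, Nat.Coprime p₀ Q ∧ (p₀ : ZMod W) = c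
  swap
  · exact ⟨1, norm_one, fun _ => rfl, fun p hp hpc => absurd ⟨p, hp, hpc⟩ hex⟩
  obtain ⟨p₀, hp₀, hpc₀⟩ := hex
  have hu₀ := refl_unit hQ hW hn c hc p₀ hp₀ hpc₀
  have hup₀ : IsUnit (p₀ : ZMod Q) := (ZMod.isUnit_iff_coprime p₀ Q).2 hp₀
  have hnorm : ∀ a : ZMod Q, IsUnit a → ‖χ a‖ = 1 := by
    intro a ha
    obtain ⟨u, rfl⟩ := ha
    exact χ.unit_norm_eq_one u
  have hne : χ (p₀ : ZMod Q) ≠ 0 := by
    intro h
    have h1 := hnorm _ hup₀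
    rw [h, norm_zero] at h1
    exact zero_ne_one h1
  refine ⟨χ ((n : ZMod Q) - p₀) * (χ (p₀ : ZMod Q))⁻¹, ?_, ?_, ?_⟩
  · rw [norm_mul, norm_inv, hnorm _ hu₀, hnorm _ hup₀, inv_one, mul_one]
  · intro h
    subst h
    rw [MulChar.one_apply hu₀, MulChar.one_apply hup₀, inv_one, mul_one]
  · intro p hp hpc
    have h1 : (((n : ZMod Q) - p) * (p₀ : ZMod Q)) = ((n : ZMod Q) - p₀) * (p : ZMod Q) := by
      have h2 : ((n : ZMod Q) * ((p₀ : ZMod Q) - p)) = 0 := by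
        have h3 : ((((p₀ : ℤ) - p : ℤ)) : ZMod W) = 0 := by
          push_cast
          rw [hpc₀, hpc, sub_self]
        rw [ZMod.intCast_zmod_eq_zero_iff_dvd] at h3
        obtain ⟨k, hk⟩ := h3
        have h4 : ((n : ZMod Q) * ((p₀ : ZMod Q) - p)) = (((n : ℤ) * ((p₀ : ℤ) - p) : ℤ) : ZMod Q) := by
          push_cast
          rfl
        rw [h4, ZMod.intCast_zmod_eq_zero_iff_dvd, hk, ← mul_assoc]
        refine Dvd.dvd.mul_right ?_ k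
        exact_mod_cast hn
      linear_combination h2
    have h2 := congrArg χ h1
    rw [map_mul, map_mul] at h2
    field_simp
    exact h2

end Pool.MP_dd84fd_nt.TC
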