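import Pool.Agent.Lib.MP_dd84fd_nt.TC.Cos
import Pool.Agent.Lib.MP_dd84fd_nt.TC.Rfl

/-!
# TC-H3: the projection of the density of the reflected primes, tested on the primes

Write `w1 = wv Δ y₁ W c`, `w2 = wv Δ y₂ W (n - c)`, `s = sw`, `P = UP X R`, `ν2(χ) = nu … y₂ (n-c) χ`,
`N2(b) = (φ(Q)/(φ(W) s)) Σ_{q ≡ b (Q)} w2(q)`, `N2^h(b) = Σ_{χ ∈ E} ν2(χ) conj χ(b)`, `D = N2 - N2^h`
(functions of `b ∈ AC Q W (n-c)`; `b = n - p` for `p ∈ P`, `p ≡ c (W)`, is a unit modulo `Q`,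
`refl_unit`).  Since `N2 ≥ 0`,
`|Σ_p w1(p) conj(N2^h(n-p)) B(p)| ≤ M Σ_p w1(p) N2(n-p) + M Σ_p w1(p) |D(n-p)|`.
First sum: `= (φ(Q)/(φ(W) s)) Σ_{p,q, p+q ≡ n (Q)} w1(p) w2(q) = s RC` (`p ≡ c` and `p + q ≡ n (Q)`
imply `q ≡ n - c (W)`, so `w2(q) = kf((q-y₂)/Δ)`).
Second sum: group by `a = p mod Q` in `AC Q W c`, Cauchy-Schwarz:
`≤ √(Σ_a (Σ_{p ≡ a} w1)²) √(Σ_{a ∈ AC Q W c} |D(n-a)|²)`; `a ↦ n - a mod Q` maps `AC Q W c`
injectively into `AC Q W (n-c)`, so the second factor is `≤ √(Σ_b |D(b)|²)`, and `par_c` (with `w2`,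
divided by `s²`) gives `Σ_b |D(b)|² = (φ(Q)/φ(W)) DD(y₂, n-c)`.  `par_n` gives
`Σ_a (Σ_{p ≡ a} w1)² = (s²/φ(Q)) Σ_χ |ν1(χ)|² ≤ (s²/φ(Q)) φ(W) (Σ_{χ ∈ E} |ν1(χ)|² + DD(y₁,c))`
(`sum_all`).  The product of the two square roots is `s √((…) DD(y₂, n-c))`.
-/

set_option autoImplicit false

namespace Pool.MP_dd84fd_nt.TC

open Finset Pool.MP_67663b_nt.Odd Pool.MP_dd84fd_nt.En Pool.MP_dd84fd_nt.E2 Pool.MP_dd84fd_nt.LS
open Pool.MP_dd84fd_nt.GX Pool.MP_dd84fd_nt.HX Pool.MP_dd84fd_nt.IX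
open Pool.MP_dd84fd_nt.BX (PC pv IsPC PR SX sN prc ind)
open ComplexConjugate

private theorem h3_kf_nonneg (u : ℝ) : 0 ≤ kf u := sq_nonneg _

private theorem h3_wv_nonneg (Δ y : ℝ) (W : ℕ) (c : ZMod W) (p : ℕ) : 0 ≤ wv Δ y W c p := by
  unfold wv
  split_ifs
  · exact h3_kf_nonneg _
  · exact le_rfl

private theorem h3_wv_zero (Δ y : ℝ) {W : ℕ} {c : ZMod W} {p : ℕ} (h : (p : ZMod W) ≠ c) :
    wv Δ y W c p = 0 := by
  unfold wv
  rw [if_neg h]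

private theorem h3_wv_pos (Δ y : ℝ) {W : ℕ} {c : ZMod W} {p : ℕ} (h : (p : ZMod W) = c) :
    wv Δ y W c p = kf (((p : ℝ) - y) / Δ) := by
  unfold wv
  rw [if_pos h]

private theorem h3_sw_pos {X : ℕ} (hX : 3 ≤ X) {Δ : ℝ} (hΔ : 0 < Δ) {W : ℕ} (hW : 0 < W) :
    0 < sw X Δ W := by
  have h1 : (0 : ℝ) < Nat.totient W := by exact_mod_cast Nat.totient_pos.mpr hW
  have h2 : (0 : ℝ) < Real.log X := Real.log_pos (by exact_mod_cast (by omega : 1 < X))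
  unfold sw
  positivity

private theorem h3_mod {Q W n p q : ℕ} (hW : W ∣ Q) (h : p + q ≡ n [MOD Q]) :
    (p : ZMod W) + q = n := by
  have h1 : p + q ≡ n [MOD W] := h.of_dvd hW
  have h2 := (ZMod.natCast_eq_natCast_iff _ _ _).mpr h1
  rw [← h2]
  push_cast
  ring

/-- grouping by residue classes -/
private theorem h3_group {Q W : ℕ} (hQ : 0 < Q) (hW : W ∣ Q) (c : ZMod W) (P : Finset ℕ)
    (hP : ∀ p ∈ P, Nat.Coprime p Q) (w f : ℕ → ℝ) (hw : ∀ p ∈ P, (p : ZMod W) ≠ c → w p = 0)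
    (hf : ∀ p a : ℕ, p ≡ a [MOD Q] → f p = f a) :
    ∑ p ∈ P, w p * f p =
      ∑ a ∈ AC Q W c, (∑ p ∈ P.filter (fun p => p ≡ a [MOD Q]), w p) * f a := by
  classical
  have h1 : ∑ p ∈ P, w p * f p = ∑ p ∈ P.filter (fun p : ℕ => (p : ZMod W) = c), w p * f p := by
    rw [sum_filter]
    refine sum_congr rfl fun p hp => ?_
    by_cases h : (p : ZMod W) = c
    · rw [if_pos h]
    · rw [if_neg h, hw p hp h, zero_mul]
  have hcong : ∀ p a : ℕ, p ≡ a [MOD Q] → (p : ZMod W) = (a : ZMod W) := fun p a h =>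
    (ZMod.natCast_eq_natCast_iff _ _ _).mpr (h.of_dvd hW)
  have h2 : ∀ p ∈ P.filter (fun p : ℕ => (p : ZMod W) = c), p % Q ∈ AC Q W c := by
    intro p hp
    rw [mem_filter] at hp
    unfold AC
    rw [mem_filter, mem_range]
    refine ⟨Nat.mod_lt _ hQ, ?_, ?_⟩
    · have h3 := hP p hp.1
      unfold Nat.Coprime at h3 ⊢
      rw [← h3]
      exact (Nat.mod_modEq p Q).gcd_eq
    · rw [hcong _ _ (Nat.mod_modEq p Q)]
      exact hp.2
  rw [h1, ← sum_fiberwise_of_maps_to h2]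
  refine sum_congr rfl fun a ha => ?_
  unfold AC at ha
  rw [mem_filter, mem_range] at ha
  rw [sum_mul]
  have h3 : (P.filter (fun p : ℕ => (p : ZMod W) = c)).filter (fun p => p % Q = a) =
      P.filter (fun p => p ≡ a [MOD Q]) := by
    ext p
    simp only [mem_filter]
    constructor
    · rintro ⟨⟨hp, -⟩, h⟩
      refine ⟨hp, ?_⟩
      unfold Nat.ModEq
      rw [h, Nat.mod_eq_of_lt ha.1]
    · rintro ⟨hp, h⟩
      refine ⟨⟨hp, ?_⟩, ?_⟩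
      · rw [hcong _ _ h]
        exact ha.2.2
      · unfold Nat.ModEq at h
        rw [h, Nat.mod_eq_of_lt ha.1]
  rw [h3]
  refine sum_congr rfl fun p hp => ?_
  rw [mem_filter] at hp
  rw [hf p a hp.2]

private theorem h3_UP_cop {X R Q : ℕ} (hQR : Q ∣ R) : ∀ p ∈ UP X R, Nat.Coprime p Q := by
  intro p hp
  unfold UP at hp
  rw [mem_filter] at hp
  exact Nat.Coprime.coprime_dvd_right hQR hp.2.2.2

private theorem h3_DD (X : ℕ) (Δ : ℝ) (R W Q : ℕ) (hQ : Q ≠ 0)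
    (E : Finset (DirichletCharacter ℂ Q)) (y : ℝ) (c : ZMod W) [NeZero Q]
    [DecidablePred fun χ : DirichletCharacter ℂ Q => ∀ χ' ∈ E, ¬ Eqv W χ' χ] :
    DD X Δ R W Q E y c = (1 / (Nat.totient W : ℝ)) *
      ∑ χ ∈ (univ : Finset (DirichletCharacter ℂ Q)).filter (fun χ => ∀ χ' ∈ E, ¬ Eqv W χ' χ),
        ‖nu X Δ R W y c χ‖ ^ 2 := by
  unfold DD
  rw [dif_neg hQ]
  congr!

private theorem h3_nu (X : ℕ) (Δ : ℝ) (R W : ℕ) (hs : 0 < sw X Δ W) (y : ℝ) (c : ZMod W) {Q : ℕ}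
    (χ : DirichletCharacter ℂ Q) :
    ∑ p ∈ UP X R, ((wv Δ y W c p : ℝ) : ℂ) * χ (p : ZMod Q) =
      (sw X Δ W : ℂ) * nu X Δ R W y c χ := by
  have h0 : (sw X Δ W : ℂ) ≠ 0 := by exact_mod_cast hs.ne'
  unfold nu
  field_simp

private theorem h3_nu_norm (X : ℕ) (Δ : ℝ) (R W : ℕ) (hs : 0 < sw X Δ W) (y : ℝ) (c : ZMod W)
    {Q : ℕ} (χ : DirichletCharacter ℂ Q) :
    ‖∑ p ∈ UP X R, ((wv Δ y W c p : ℝ) : ℂ) * χ (p : ZMod Q)‖ ^ 2 =
      (sw X Δ W) ^ 2 * ‖nu X Δ R W y c χ‖ ^ 2 := by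
  rw [h3_nu X Δ R W hs, norm_mul, Complex.norm_real, Real.norm_of_nonneg hs.le, mul_pow]

theorem h3 (X : ℕ) (hX : 3 ≤ X) (Δ : ℝ) (hΔ : 0 < Δ) {R W Q n : ℕ} (hR : 1 ≤ R) (hW : W ∣ Q)
    (hQR : Q ∣ R) (hn : Q ∣ n * W) (y₁ y₂ : ℝ) (c : ZMod W) (hc : IsUnit c)
    (hc' : IsUnit ((n : ZMod W) - c)) (E : Finset (DirichletCharacter ℂ Q)) (hE : Ineq W E)
    (B : ℕ → ℂ) (M : ℝ) (hB : ∀ p ∈ UP X R, ‖B p‖ ≤ M) :
    ‖∑ p ∈ UP X R, ((wv Δ y₁ W c p : ℝ) : ℂ) *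
        conj (∑ χ ∈ E, nu X Δ R W y₂ ((n : ZMod W) - c) χ * conj (χ ((n : ZMod Q) - p))) * B p‖ ≤
      M * (sw X Δ W * (RC X Δ R W Q n y₁ y₂ c +
        Real.sqrt ((∑ χ ∈ E, ‖nu X Δ R W y₁ c χ‖ ^ 2 + DD X Δ R W Q E y₁ c) *
          DD X Δ R W Q E y₂ ((n : ZMod W) - c)))) := by
  classical
  have hQ1 : 0 < Q := Nat.pos_of_dvd_of_pos hQR hR
  have hW1 : 0 < W := Nat.pos_of_dvd_of_pos hW hQ1
  have hQ0 : Q ≠ 0 := hQ1.ne'
  have : NeZero Q := ⟨hQ0⟩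
  have hs := h3_sw_pos hX hΔ hW1
  obtain ⟨s, hsdef⟩ : ∃ s : ℝ, s = sw X Δ W := ⟨_, rfl⟩
  have hφQ : (0 : ℝ) < Nat.totient Q := by exact_mod_cast Nat.totient_pos.mpr hQ1
  have hφW : (0 : ℝ) < Nat.totient W := by exact_mod_cast Nat.totient_pos.mpr hW1
  rcases (UP X R).eq_empty_or_nonempty with hemp | hne
  · have e1 : RC X Δ R W Q n y₁ y₂ c = 0 := by
      unfold RC
      rw [hemp]
      simp
    have e2 : DD X Δ R W Q E y₂ ((n : ZMod W) - c) = 0 := by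
      rw [h3_DD X Δ R W Q hQ0]
      unfold nu
      rw [hemp]
      simp
    rw [e1, e2, hemp]
    simp
  have hM : 0 ≤ M := by
    obtain ⟨p, hp⟩ := hne
    exact (norm_nonneg _).trans (hB p hp)
  have hcop := h3_UP_cop (X := X) hQR
  have hw1 : ∀ p ∈ UP X R, (p : ZMod W) ≠ c → wv Δ y₁ W c p = 0 := fun p _ h => h3_wv_zero Δ y₁ h
  have hw2 : ∀ p ∈ UP X R, (p : ZMod W) ≠ (n : ZMod W) - c →
      wv Δ y₂ W ((n : ZMod W) - c) p = 0 := fun p _ h => h3_wv_zero Δ y₂ h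
  -- the reflection
  obtain ⟨b, hb⟩ : ∃ b : ℕ → ℕ, b = fun a : ℕ => ((n : ZMod Q) - (a : ZMod Q)).val := ⟨_, rfl⟩
  have hbc : ∀ a, ((b a : ℕ) : ZMod Q) = (n : ZMod Q) - a := by
    intro a
    rw [hb]
    exact ZMod.natCast_zmod_val _
  have hbmod : ∀ a, a + b a ≡ n [MOD Q] := by
    intro a
    rw [← ZMod.natCast_eq_natCast_iff]
    push_cast
    rw [hbc]
    ring
  have hbmem : ∀ a, Nat.Coprime a Q → (a : ZMod W) = c → b a ∈ AC Q W ((n : ZMod W) - c) := by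
    intro a ha hac
    unfold AC
    rw [mem_filter, mem_range]
    refine ⟨?_, ?_, ?_⟩
    · rw [hb]
      exact ZMod.val_lt _
    · have h1 := refl_unit hQ1 hW hn c hc' a ha hac
      rw [← hbc] at h1
      exact (ZMod.isUnit_iff_coprime _ _).mp h1
    · have h1 := h3_mod hW (hbmod a)
      rw [hac] at h1
      rw [← h1]
      ring
  -- the function `G = s D`
  obtain ⟨G, hG⟩ : ∃ G : ℕ → ℂ, G = fun a : ℕ => ((Nat.totient Q : ℂ) / (Nat.totient W : ℂ)) *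
        (∑ q ∈ (UP X R).filter (fun q => q ≡ a [MOD Q]),
          ((wv Δ y₂ W ((n : ZMod W) - c) q : ℝ) : ℂ)) -
        ∑ χ ∈ E, (∑ q ∈ UP X R, ((wv Δ y₂ W ((n : ZMod W) - c) q : ℝ) : ℂ) * χ (q : ZMod Q)) *
          conj (χ (a : ZMod Q)) := ⟨_, rfl⟩
  have hGtot : ∑ a ∈ AC Q W ((n : ZMod W) - c), ‖G a‖ ^ 2 =
      (Nat.totient Q : ℝ) / (Nat.totient W : ℝ) * s ^ 2 *
        DD X Δ R W Q E y₂ ((n : ZMod W) - c) := by
    rw [hG]
    have h1 := par_c hW ((n : ZMod W) - c) hc' (UP X R) hcop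
      (fun q => wv Δ y₂ W ((n : ZMod W) - c) q) hw2 E hE
    rw [h1, h3_DD X Δ R W Q hQ0, mul_sum, mul_sum, mul_sum]
    refine sum_congr (by congr!) fun χ _ => ?_
    rw [h3_nu_norm X Δ R W hs, hsdef]
    field_simp
  -- the masses of the residue classes
  obtain ⟨A, hA⟩ : ∃ A : ℕ → ℝ, A = fun a : ℕ =>
      ∑ p ∈ (UP X R).filter (fun p => p ≡ a [MOD Q]), wv Δ y₁ W c p := ⟨_, rfl⟩
  obtain ⟨S1, hS1⟩ : ∃ S1 : ℝ, S1 = ∑ χ ∈ E, ‖nu X Δ R W y₁ c χ‖ ^ 2 + DD X Δ R W Q E y₁ c :=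
    ⟨_, rfl⟩
  obtain ⟨D2, hD2⟩ : ∃ D2 : ℝ, D2 = DD X Δ R W Q E y₂ ((n : ZMod W) - c) := ⟨_, rfl⟩
  have hS10 : 0 ≤ S1 := by
    rw [hS1]
    exact add_nonneg (sum_nonneg fun _ _ => sq_nonneg _) (DD_nonneg X Δ R W Q E y₁ c)
  have hD20 : 0 ≤ D2 := by
    rw [hD2]
    exact DD_nonneg X Δ R W Q E y₂ _
  have hAtot : ∑ a ∈ AC Q W c, A a ^ 2 ≤ s ^ 2 / (Nat.totient Q : ℝ) * (Nat.totient W : ℝ) * S1 := by
    rw [hA]
    have h1 := par_n hW c (UP X R) hcop (fun p => wv Δ y₁ W c p) hw1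
    rw [h1]
    have h2 : ∑ χ : DirichletCharacter ℂ Q,
        ‖∑ p ∈ UP X R, ((wv Δ y₁ W c p : ℝ) : ℂ) * χ (p : ZMod Q)‖ ^ 2 =
        s ^ 2 * ∑ χ : DirichletCharacter ℂ Q, ‖nu X Δ R W y₁ c χ‖ ^ 2 := by
      rw [mul_sum]
      refine sum_congr rfl fun χ _ => ?_
      rw [h3_nu_norm X Δ R W hs, hsdef]
    rw [h2]
    have h3 := sum_all X Δ hQR hW y₁ c E
    rw [← hS1] at h3
    calc 1 / (Nat.totient Q : ℝ) * (s ^ 2 * ∑ χ : DirichletCharacter ℂ Q,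
          ‖nu X Δ R W y₁ c χ‖ ^ 2)
        = s ^ 2 / (Nat.totient Q : ℝ) * ∑ χ : DirichletCharacter ℂ Q,
          ‖nu X Δ R W y₁ c χ‖ ^ 2 := by ring
      _ ≤ s ^ 2 / (Nat.totient Q : ℝ) * ((Nat.totient W : ℝ) * S1) :=
          mul_le_mul_of_nonneg_left h3 (by positivity)
      _ = _ := by ring
  -- second sum
  have hsec : ∑ p ∈ UP X R, wv Δ y₁ W c p * ‖G (b p)‖ ≤ s ^ 2 * Real.sqrt (S1 * D2) := by
    have h1 := h3_group hQ1 hW c (UP X R) hcop (fun p => wv Δ y₁ W c p) (fun a => ‖G (b a)‖) hw1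
      (fun p a h => by
        have h2 : b p = b a := by
          rw [hb]
          show ((n : ZMod Q) - (p : ZMod Q)).val = ((n : ZMod Q) - (a : ZMod Q)).val
          rw [(ZMod.natCast_eq_natCast_iff _ _ _).mpr h]
        show ‖G (b p)‖ = ‖G (b a)‖
        rw [h2])
    have h1' : ∑ p ∈ UP X R, wv Δ y₁ W c p * ‖G (b p)‖ = ∑ a ∈ AC Q W c, A a * ‖G (b a)‖ := by
      rw [hA]
      exact h1
    rw [h1']
    have h2 : ∑ a ∈ AC Q W c, ‖G (b a)‖ ^ 2 ≤ ∑ a ∈ AC Q W ((n : ZMod W) - c), ‖G a‖ ^ 2 := by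
      have hinj : Set.InjOn b (AC Q W c) := by
        intro a ha a' ha' h
        rw [mem_coe] at ha ha'
        unfold AC at ha ha'
        rw [mem_filter, mem_range] at ha ha'
        have e1 := hbc a
        have e2 := hbc a'
        rw [h, e2] at e1
        have e3 : (a : ZMod Q) = (a' : ZMod Q) := by linear_combination e1
        rw [ZMod.natCast_eq_natCast_iff'] at e3
        rwa [Nat.mod_eq_of_lt ha.1, Nat.mod_eq_of_lt ha'.1] at e3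
      rw [← sum_image (f := fun a => ‖G a‖ ^ 2) hinj]
      refine sum_le_sum_of_subset_of_nonneg ?_ fun _ _ _ => sq_nonneg _
      intro x hx
      rw [mem_image] at hx
      obtain ⟨a, ha, rfl⟩ := hx
      unfold AC at ha
      rw [mem_filter, mem_range] at ha
      exact hbmem a ha.2.1 ha.2.2
    have h3 : ∑ a ∈ AC Q W c, ‖G (b a)‖ ^ 2 ≤
        (Nat.totient Q : ℝ) / (Nat.totient W : ℝ) * s ^ 2 * D2 := by
      rw [hD2, ← hGtot]
      exact h2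
    have h4 := sum_mul_sq_le_sq_mul_sq (AC Q W c) A (fun a => ‖G (b a)‖)
    have h5 : (∑ a ∈ AC Q W c, A a * ‖G (b a)‖) ^ 2 ≤ (s ^ 2 * Real.sqrt (S1 * D2)) ^ 2 := by
      refine h4.trans ?_
      rw [mul_pow, Real.sq_sqrt (mul_nonneg hS10 hD20)]
      calc (∑ a ∈ AC Q W c, A a ^ 2) * ∑ a ∈ AC Q W c, ‖G (b a)‖ ^ 2
          ≤ (s ^ 2 / (Nat.totient Q : ℝ) * (Nat.totient W : ℝ) * S1) *
            ((Nat.totient Q : ℝ) / (Nat.totient W : ℝ) * s ^ 2 * D2) :=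
            mul_le_mul hAtot h3 (sum_nonneg fun _ _ => sq_nonneg _) (by positivity)
        _ = (s ^ 2) ^ 2 * (S1 * D2) := by field_simp
    have h6 : 0 ≤ s ^ 2 * Real.sqrt (S1 * D2) := by positivity
    exact abs_le_of_sq_le_sq' h5 h6 |>.2
  -- first sum
  have hfst : ∑ p ∈ UP X R, wv Δ y₁ W c p * ((Nat.totient Q : ℝ) / (Nat.totient W : ℝ) *
      ∑ q ∈ (UP X R).filter (fun q => q ≡ b p [MOD Q]), wv Δ y₂ W ((n : ZMod W) - c) q) =
      s ^ 2 * RC X Δ R W Q n y₁ y₂ c := by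
    unfold RC
    rw [← hsdef]
    have hs2 : s ≠ 0 := by rw [hsdef]; exact hs.ne'
    have e0 : s ^ 2 * ((Nat.totient Q : ℝ) / ((Nat.totient W : ℝ) * s ^ 2) *
        ∑ p ∈ UP X R, ∑ q ∈ UP X R, if p + q ≡ n [MOD Q] then
          wv Δ y₁ W c p * kf (((q : ℝ) - y₂) / Δ) else 0) =
        (Nat.totient Q : ℝ) / (Nat.totient W : ℝ) *
        ∑ p ∈ UP X R, ∑ q ∈ UP X R, if p + q ≡ n [MOD Q] then
          wv Δ y₁ W c p * kf (((q : ℝ) - y₂) / Δ) else 0 := by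
      field_simp
    rw [e0, mul_sum]
    refine sum_congr rfl fun p _ => ?_
    rw [mul_left_comm]
    congr 1
    rw [sum_filter, mul_sum]
    refine sum_congr rfl fun q _ => ?_
    have hiff : q ≡ b p [MOD Q] ↔ p + q ≡ n [MOD Q] := by
      rw [← ZMod.natCast_eq_natCast_iff, ← ZMod.natCast_eq_natCast_iff, hbc]
      push_cast
      constructor
      · intro h
        rw [h]
        ring
      · intro h
        rw [← h]
        ring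
    by_cases h : p + q ≡ n [MOD Q]
    · rw [if_pos (hiff.mpr h), if_pos h]
      by_cases hp : (p : ZMod W) = c
      · have h1 := h3_mod hW h
        have h2 : (q : ZMod W) = (n : ZMod W) - c := by
          rw [← h1, hp]
          ring
        rw [h3_wv_pos Δ y₂ h2]
      · rw [h3_wv_zero Δ y₁ hp, zero_mul, zero_mul]
    · rw [if_neg (fun h' => h (hiff.mp h')), if_neg h, mul_zero]
  -- assembling
  have hs0 : 0 < s := by rw [hsdef]; exact hs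
  have hterm : ∀ p ∈ UP X R, ‖((wv Δ y₁ W c p : ℝ) : ℂ) *
      conj (∑ χ ∈ E, nu X Δ R W y₂ ((n : ZMod W) - c) χ * conj (χ ((n : ZMod Q) - p))) * B p‖ ≤
      M * (s⁻¹ * (wv Δ y₁ W c p * ((Nat.totient Q : ℝ) / (Nat.totient W : ℝ) *
      ∑ q ∈ (UP X R).filter (fun q => q ≡ b p [MOD Q]), wv Δ y₂ W ((n : ZMod W) - c) q) +
        wv Δ y₁ W c p * ‖G (b p)‖)) := by
    intro p hp
    rw [norm_mul, norm_mul, Complex.norm_real, Real.norm_of_nonneg (h3_wv_nonneg _ _ _ _ _),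
      Complex.norm_conj]
    have h1 : (s : ℂ) * ∑ χ ∈ E, nu X Δ R W y₂ ((n : ZMod W) - c) χ *
        conj (χ ((n : ZMod Q) - p)) = ((Nat.totient Q : ℂ) / (Nat.totient W : ℂ)) *
        (∑ q ∈ (UP X R).filter (fun q => q ≡ b p [MOD Q]),
          ((wv Δ y₂ W ((n : ZMod W) - c) q : ℝ) : ℂ)) - G (b p) := by
      rw [hG]
      show _ = _ - (_ - _)
      rw [sub_sub_cancel, mul_sum]
      refine sum_congr rfl fun χ _ => ?_
      rw [h3_nu X Δ R W hs, hbc, hsdef]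
      ring
    have h2 : ‖∑ χ ∈ E, nu X Δ R W y₂ ((n : ZMod W) - c) χ * conj (χ ((n : ZMod Q) - p))‖ ≤
        s⁻¹ * ((Nat.totient Q : ℝ) / (Nat.totient W : ℝ) *
        ∑ q ∈ (UP X R).filter (fun q => q ≡ b p [MOD Q]), wv Δ y₂ W ((n : ZMod W) - c) q +
          ‖G (b p)‖) := by
      have h3 : s * ‖∑ χ ∈ E, nu X Δ R W y₂ ((n : ZMod W) - c) χ *
          conj (χ ((n : ZMod Q) - p))‖ ≤ (Nat.totient Q : ℝ) / (Nat.totient W : ℝ) *
        ∑ q ∈ (UP X R).filter (fun q => q ≡ b p [MOD Q]), wv Δ y₂ W ((n : ZMod W) - c) q +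
          ‖G (b p)‖ := by
        calc s * ‖∑ χ ∈ E, nu X Δ R W y₂ ((n : ZMod W) - c) χ * conj (χ ((n : ZMod Q) - p))‖
            = ‖(s : ℂ) * ∑ χ ∈ E, nu X Δ R W y₂ ((n : ZMod W) - c) χ *
              conj (χ ((n : ZMod Q) - p))‖ := by
              rw [norm_mul, Complex.norm_real, Real.norm_of_nonneg hs0.le]
          _ ≤ ‖((Nat.totient Q : ℂ) / (Nat.totient W : ℂ)) *
              (∑ q ∈ (UP X R).filter (fun q => q ≡ b p [MOD Q]),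
              ((wv Δ y₂ W ((n : ZMod W) - c) q : ℝ) : ℂ))‖ + ‖G (b p)‖ := by
              rw [h1]
              exact norm_sub_le _ _
          _ = _ := by
              congr 1
              rw [norm_mul, norm_div, Complex.norm_natCast, Complex.norm_natCast,
                ← Complex.ofReal_sum, Complex.norm_real, Real.norm_of_nonneg
                (sum_nonneg fun _ _ => h3_wv_nonneg _ _ _ _ _)]
      rw [inv_mul_eq_div, le_div_iff₀ hs0, mul_comm]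
      exact h3
    have hw0 := h3_wv_nonneg Δ y₁ W c p
    calc wv Δ y₁ W c p * ‖∑ χ ∈ E, nu X Δ R W y₂ ((n : ZMod W) - c) χ *
          conj (χ ((n : ZMod Q) - p))‖ * ‖B p‖
        ≤ wv Δ y₁ W c p * (s⁻¹ * ((Nat.totient Q : ℝ) / (Nat.totient W : ℝ) *
        ∑ q ∈ (UP X R).filter (fun q => q ≡ b p [MOD Q]), wv Δ y₂ W ((n : ZMod W) - c) q +
          ‖G (b p)‖)) * M := by
          refine mul_le_mul (mul_le_mul_of_nonneg_left h2 hw0) (hB p hp) (norm_nonneg _) ?_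
          exact mul_nonneg hw0 ((norm_nonneg _).trans h2)
      _ = _ := by ring
  refine (norm_sum_le_of_le _ hterm).trans ?_
  rw [← mul_sum, ← mul_sum, sum_add_distrib, hfst]
  refine mul_le_mul_of_nonneg_left ?_ hM
  rw [← hsdef, ← hS1, ← hD2]
  calc s⁻¹ * (s ^ 2 * RC X Δ R W Q n y₁ y₂ c + ∑ p ∈ UP X R, wv Δ y₁ W c p * ‖G (b p)‖)
      ≤ s⁻¹ * (s ^ 2 * RC X Δ R W Q n y₁ y₂ c + s ^ 2 * Real.sqrt (S1 * D2)) :=
        mul_le_mul_of_nonneg_left (by linarith) (inv_nonneg.mpr hs0.le)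
    _ = s * (RC X Δ R W Q n y₁ y₂ c + Real.sqrt (S1 * D2)) := by field_simp

/-- symmetry -/
theorem RC_symm (X : ℕ) (Δ : ℝ) {R W Q n : ℕ} (hW : W ∣ Q) (y₁ y₂ : ℝ) (c : ZMod W) :
    RC X Δ R W Q n y₁ y₂ c = RC X Δ R W Q n y₂ y₁ ((n : ZMod W) - c) := by
  unfold RC
  congr 1
  rw [sum_comm]
  refine sum_congr rfl fun q _ => sum_congr rfl fun p _ => ?_
  by_cases h : p + q ≡ n [MOD Q]
  · have h' : q + p ≡ n [MOD Q] := by rw [add_comm]; exact h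
    rw [if_pos h, if_pos h']
    have h1 := h3_mod hW h
    by_cases hp : (p : ZMod W) = c
    · have h2 : (q : ZMod W) = (n : ZMod W) - c := by
        rw [← h1, hp]
        ring
      rw [h3_wv_pos Δ y₁ hp, h3_wv_pos Δ y₂ h2, mul_comm]
    · have h2 : (q : ZMod W) ≠ (n : ZMod W) - c := by
        intro h3
        apply hp
        rw [h3] at h1
        linear_combination h1
      rw [h3_wv_zero Δ y₁ hp, h3_wv_zero Δ y₂ h2, zero_mul, zero_mul]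
  · have h' : ¬ q + p ≡ n [MOD Q] := by rw [add_comm]; exact h
    rw [if_neg h, if_neg h']

theorem RC_nonneg (X : ℕ) (Δ : ℝ) (R W Q n : ℕ) (y₁ y₂ : ℝ) (c : ZMod W) :
    0 ≤ RC X Δ R W Q n y₁ y₂ c := by
  unfold RC
  refine mul_nonneg (by positivity) (sum_nonneg fun p _ => sum_nonneg fun q _ => ?_)
  split_ifs
  · exact mul_nonneg (h3_wv_nonneg _ _ _ _ _) (h3_kf_nonneg _)
  · exact le_rfl

end Pool.MP_dd84fd_nt.TC
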