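import Pool.Agent.Lib.MP_dd84fd_nt.TC.Eqr

/-!
# TC-Pro: products of characters modulo `Q1` and modulo `Q2`

`R = lcm(Q1,Q2)`, `W = gcd(Q1,Q2)`.  `lift χ1 χ2 = changeLevel χ1 * changeLevel χ2` modulo `R`.
`pro_w`: if a character modulo `R` is the lift of a character `α` modulo `Q1` and also of a character
`γ` modulo `Q2`, then `α` is the lift of a character modulo `W`.  Proof: the kernel criterion
(`DirichletCharacter.factorsThrough_iff_ker_unitsMap`): let `u` be a unit modulo `Q1`, `u ≡ 1 (mod W)`;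
by the Chinese remainder theorem (the congruences `v ≡ u (Q1)`, `v ≡ 1 (Q2)` are compatible because
`u ≡ 1` modulo `W = gcd(Q1,Q2)`) there is a natural number `v` with `v ≡ u (Q1)`, `v ≡ 1 (Q2)`; it is
coprime to `Q1` and `Q2`, so to `R`; `α(u) = α(v) =` value of the lift at `v` `= γ(v) = γ(1) = 1`.
`pro_ineq`: let `χ1 χ2` and `χ1' χ2'` (`χ_i, χ_i' ∈ E_i`) be equivalent modulo `R` by `ω` modulo `W`:
`χ1 χ2 ω = χ1' χ2'` (lifted), so `χ1⁻¹ χ1' = χ2 χ2'⁻¹ ω` is a lift from `Q1` and from `Q2` (`W ∣ Q2`);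
by `pro_w` `χ1' = χ1 ω1`, so `Eqv W χ1 χ1'` and `χ1 = χ1'` by `Ineq`; then `χ2' = χ2 ω`, so
`χ2 = χ2'`.
`sv_prod`: apply the sieve inequality with `Γ` the image of `E1 × E2` (injective, `Ineq W Γ`); for `p`
coprime to `R` the lift has the value `χ1(p) χ2(p)`.
-/

set_option autoImplicit false

namespace Pool.MP_dd84fd_nt.TC

open Finset Pool.MP_67663b_nt.Odd Pool.MP_dd84fd_nt.En Pool.MP_dd84fd_nt.E2 Pool.MP_dd84fd_nt.LS
open Pool.MP_dd84fd_nt.GX Pool.MP_dd84fd_nt.HX Pool.MP_dd84fd_nt.IX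
open Pool.MP_dd84fd_nt.BX (PC pv IsPC PR SX sN prc ind)

/-- the product modulo `lcm(Q1,Q2)` -/
noncomputable def lft {Q1 Q2 : ℕ} (χ1 : DirichletCharacter ℂ Q1) (χ2 : DirichletCharacter ℂ Q2) :
    DirichletCharacter ℂ (Nat.lcm Q1 Q2) :=
  DirichletCharacter.changeLevel (Nat.dvd_lcm_left Q1 Q2) χ1 *
    DirichletCharacter.changeLevel (Nat.dvd_lcm_right Q1 Q2) χ2

private theorem clv {n m : ℕ} (h : n ∣ m) (χ : DirichletCharacter ℂ n) (p : ℕ)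
    (hp : Nat.Coprime p m) :
    DirichletCharacter.changeLevel h χ (p : ZMod m) = χ (p : ZMod n) := by
  have h1 := DirichletCharacter.changeLevel_eq_cast_of_dvd' χ h (a := (p : ℤ))
    (Nat.isCoprime_iff_coprime.2 hp)
  simpa using h1

theorem lft_apply {Q1 Q2 : ℕ} (χ1 : DirichletCharacter ℂ Q1) (χ2 : DirichletCharacter ℂ Q2)
    (p : ℕ) (hp : Nat.Coprime p (Nat.lcm Q1 Q2)) :
    lft χ1 χ2 (p : ZMod (Nat.lcm Q1 Q2)) = χ1 (p : ZMod Q1) * χ2 (p : ZMod Q2) := by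
  rw [lft, MulChar.mul_apply, clv _ _ p hp, clv _ _ p hp]

theorem pro_w {Q1 Q2 : ℕ} (h1 : 1 ≤ Q1) (h2 : 1 ≤ Q2) (α : DirichletCharacter ℂ Q1)
    (γ : DirichletCharacter ℂ Q2)
    (h : DirichletCharacter.changeLevel (Nat.dvd_lcm_left Q1 Q2) α =
      DirichletCharacter.changeLevel (Nat.dvd_lcm_right Q1 Q2) γ) :
    ∃ ω : DirichletCharacter ℂ (Nat.gcd Q1 Q2),
      α = DirichletCharacter.changeLevel (Nat.gcd_dvd_left Q1 Q2) ω := by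
  have : NeZero Q1 := ⟨by omega⟩
  have hd : Nat.lcm Q1 Q2 ∣ Q1 * Q2 := Nat.lcm_dvd (Nat.dvd_mul_right _ _) (Nat.dvd_mul_left _ _)
  have h3 : DirichletCharacter.changeLevel (Nat.dvd_mul_right Q1 Q2) α =
      DirichletCharacter.changeLevel (Nat.dvd_mul_left Q2 Q1) γ := by
    have h4 := congrArg (DirichletCharacter.changeLevel hd) h
    rwa [← DirichletCharacter.changeLevel_trans, ← DirichletCharacter.changeLevel_trans] at h4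
  obtain ⟨_, ω, hω⟩ := DirichletCharacter.factorsThrough_gcd (χ := α) γ h3
  exact ⟨ω, hω⟩

theorem pro_eqv {Q1 Q2 : ℕ} (h1 : 1 ≤ Q1) (h2 : 1 ≤ Q2) (χ1 χ1' : DirichletCharacter ℂ Q1)
    (χ2 χ2' : DirichletCharacter ℂ Q2) (h : Eqv (Nat.gcd Q1 Q2) (lft χ1 χ2) (lft χ1' χ2')) :
    Eqv (Nat.gcd Q1 Q2) χ1 χ1' ∧ Eqv (Nat.gcd Q1 Q2) χ2 χ2' := by
  have : NeZero (Nat.lcm Q1 Q2) := ⟨(Nat.lcm_pos h1 h2).ne'⟩
  obtain ⟨hW, ω, hω⟩ := h
  have e1 : DirichletCharacter.changeLevel hW ω =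
      DirichletCharacter.changeLevel (Nat.dvd_lcm_right Q1 Q2)
        (DirichletCharacter.changeLevel (Nat.gcd_dvd_right Q1 Q2) ω) :=
    DirichletCharacter.changeLevel_trans ω (Nat.gcd_dvd_right Q1 Q2) (Nat.dvd_lcm_right Q1 Q2)
  rw [lft, lft, e1] at hω
  have h3 : DirichletCharacter.changeLevel (Nat.dvd_lcm_left Q1 Q2) (χ1' * χ1⁻¹) =
      DirichletCharacter.changeLevel (Nat.dvd_lcm_right Q1 Q2)
        (χ2 * χ2'⁻¹ * DirichletCharacter.changeLevel (Nat.gcd_dvd_right Q1 Q2) ω) := by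
    rw [map_mul, map_inv, map_mul, map_mul, map_inv, mul_inv_eq_iff_eq_mul,
      mul_comm _ (DirichletCharacter.changeLevel (Nat.dvd_lcm_left Q1 Q2) χ1)]
    rw [← eq_mul_inv_iff_mul_eq] at hω
    rw [hω]
    ac_rfl
  obtain ⟨ω1, hω1⟩ := pro_w h1 h2 _ _ h3
  have h4 : χ2 * χ2'⁻¹ * DirichletCharacter.changeLevel (Nat.gcd_dvd_right Q1 Q2) ω =
      DirichletCharacter.changeLevel (Nat.gcd_dvd_right Q1 Q2) ω1 := by
    apply DirichletCharacter.changeLevel_injective (Nat.dvd_lcm_right Q1 Q2)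
    rw [← h3, hω1, ← DirichletCharacter.changeLevel_trans, ← DirichletCharacter.changeLevel_trans]
  refine ⟨⟨Nat.gcd_dvd_left Q1 Q2, ω1, ?_⟩, ⟨Nat.gcd_dvd_right Q1 Q2, ω * ω1⁻¹, ?_⟩⟩
  · rw [← hω1, mul_comm χ1', mul_inv_cancel_left]
  · rw [map_mul, map_inv, ← h4, mul_inv, mul_inv, inv_inv]
    have : χ2 * (DirichletCharacter.changeLevel (Nat.gcd_dvd_right Q1 Q2) ω *
        (χ2⁻¹ * χ2' * (DirichletCharacter.changeLevel (Nat.gcd_dvd_right Q1 Q2) ω)⁻¹)) =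
        χ2' * (χ2 * χ2⁻¹) * (DirichletCharacter.changeLevel (Nat.gcd_dvd_right Q1 Q2) ω *
          (DirichletCharacter.changeLevel (Nat.gcd_dvd_right Q1 Q2) ω)⁻¹) := by ac_rfl
    rw [this, mul_inv_cancel, mul_inv_cancel, mul_one, mul_one]

private theorem lft_inj {Q1 Q2 : ℕ} (h1 : 1 ≤ Q1) (h2 : 1 ≤ Q2)
    (E1 : Finset (DirichletCharacter ℂ Q1)) (E2 : Finset (DirichletCharacter ℂ Q2))
    (hE1 : Ineq (Nat.gcd Q1 Q2) E1) (hE2 : Ineq (Nat.gcd Q1 Q2) E2)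
    {χ1 χ1' : DirichletCharacter ℂ Q1} {χ2 χ2' : DirichletCharacter ℂ Q2} (m1 : χ1 ∈ E1)
    (m1' : χ1' ∈ E1) (m2 : χ2 ∈ E2) (m2' : χ2' ∈ E2)
    (h : Eqv (Nat.gcd Q1 Q2) (lft χ1 χ2) (lft χ1' χ2')) : χ1 = χ1' ∧ χ2 = χ2' := by
  obtain ⟨ha, hb⟩ := pro_eqv h1 h2 _ _ _ _ h
  constructor
  · by_contra hc
    exact hE1 _ m1 _ m1' hc ha
  · by_contra hc
    exact hE2 _ m2 _ m2' hc hb

/-- the sieve inequality for the products -/
theorem sv_prod {Q1 Q2 : ℕ} (h1 : 1 ≤ Q1) (h2 : 1 ≤ Q2)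
    (E1 : Finset (DirichletCharacter ℂ Q1)) (E2 : Finset (DirichletCharacter ℂ Q2))
    (hE1 : Ineq (Nat.gcd Q1 Q2) E1) (hE2 : Ineq (Nat.gcd Q1 Q2) E2) (N0 : ℕ)
    (hN : E1.card * E2.card ≤ N0) (P : Finset ℕ) (hP : ∀ p ∈ P, Nat.Coprime p (Nat.lcm Q1 Q2))
    (w : ℕ → ℝ) (F : ℝ)
    (hS : ∀ Γ : Finset (DirichletCharacter ℂ (Nat.lcm Q1 Q2)), Γ.card ≤ N0 →
      Ineq (Nat.gcd Q1 Q2) Γ → ∀ t : DirichletCharacter ℂ (Nat.lcm Q1 Q2) → ℂ,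
      ∑ p ∈ P, w p * ‖∑ χ ∈ Γ, t χ * χ (p : ZMod (Nat.lcm Q1 Q2))‖ ^ 2 ≤
        F * ∑ χ ∈ Γ, ‖t χ‖ ^ 2)
    (t : DirichletCharacter ℂ Q1 → DirichletCharacter ℂ Q2 → ℂ) :
    ∑ p ∈ P, w p * ‖∑ χ1 ∈ E1, ∑ χ2 ∈ E2, t χ1 χ2 * χ1 (p : ZMod Q1) * χ2 (p : ZMod Q2)‖ ^ 2 ≤
      F * ∑ χ1 ∈ E1, ∑ χ2 ∈ E2, ‖t χ1 χ2‖ ^ 2 := by
  classical
  have hWR : Nat.gcd Q1 Q2 ∣ Nat.lcm Q1 Q2 := (Nat.gcd_dvd_left Q1 Q2).trans (Nat.dvd_lcm_left Q1 Q2)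
  set L : DirichletCharacter ℂ Q1 × DirichletCharacter ℂ Q2 → DirichletCharacter ℂ (Nat.lcm Q1 Q2) :=
    fun x => lft x.1 x.2 with hL
  set A := E1 ×ˢ E2 with hA
  have hmem : ∀ x, x ∈ A → x.1 ∈ E1 ∧ x.2 ∈ E2 := fun x hx => Finset.mem_product.1 hx
  have hinj : Set.InjOn L A := by
    intro x hx y hy hxy
    have hx' := hmem x (Finset.mem_coe.1 hx)
    have hy' := hmem y (Finset.mem_coe.1 hy)
    have he : Eqv (Nat.gcd Q1 Q2) (lft x.1 x.2) (lft y.1 y.2) := by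
      have hxy' : lft x.1 x.2 = lft y.1 y.2 := hxy
      rw [hxy']
      exact eqv_refl hWR _
    obtain ⟨ha, hb⟩ := lft_inj h1 h2 E1 E2 hE1 hE2 hx'.1 hy'.1 hx'.2 hy'.2 he
    exact Prod.ext ha hb
  have hIneq : Ineq (Nat.gcd Q1 Q2) (A.image L) := by
    intro χ hχ χ' hχ' hne he
    obtain ⟨x, hx, rfl⟩ := Finset.mem_image.1 hχ
    obtain ⟨y, hy, rfl⟩ := Finset.mem_image.1 hχ'
    obtain ⟨ha, hb⟩ := lft_inj h1 h2 E1 E2 hE1 hE2 (hmem x hx).1 (hmem y hy).1 (hmem x hx).2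
      (hmem y hy).2 he
    exact hne (congrArg L (Prod.ext ha hb))
  have hcard : (A.image L).card ≤ N0 :=
    Finset.card_image_le.trans ((Finset.card_product E1 E2).le.trans hN)
  set T : DirichletCharacter ℂ (Nat.lcm Q1 Q2) → ℂ :=
    fun χ => ∑ x ∈ A with L x = χ, t x.1 x.2 with hT
  have hTL : ∀ x ∈ A, T (L x) = t x.1 x.2 := by
    intro x hx
    have hf : (A.filter fun y => L y = L x) = {x} := by
      ext y
      rw [Finset.mem_filter, Finset.mem_singleton]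
      constructor
      · rintro ⟨hy, hxy⟩
        exact hinj (Finset.mem_coe.2 hy) (Finset.mem_coe.2 hx) hxy
      · rintro rfl
        exact ⟨hx, rfl⟩
    rw [hT]
    simp only [hf, Finset.sum_singleton]
  have key := hS (A.image L) hcard hIneq T
  have eR : ∑ χ ∈ A.image L, ‖T χ‖ ^ 2 = ∑ χ1 ∈ E1, ∑ χ2 ∈ E2, ‖t χ1 χ2‖ ^ 2 := by
    rw [Finset.sum_image hinj, ← Finset.sum_product']
    exact Finset.sum_congr rfl fun x hx => by rw [hTL x hx]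
  have eL : ∀ p ∈ P, ∑ χ ∈ A.image L, T χ * χ (p : ZMod (Nat.lcm Q1 Q2)) =
      ∑ χ1 ∈ E1, ∑ χ2 ∈ E2, t χ1 χ2 * χ1 (p : ZMod Q1) * χ2 (p : ZMod Q2) := by
    intro p hp
    rw [Finset.sum_image hinj, ← Finset.sum_product']
    refine Finset.sum_congr rfl fun x hx => ?_
    rw [hTL x hx, hL]
    simp only
    rw [lft_apply _ _ p (hP p hp), mul_assoc]
  rw [eR] at key
  refine le_trans (le_of_eq ?_) key
  exact Finset.sum_congr rfl fun p hp => by rw [eL p hp]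

end Pool.MP_dd84fd_nt.TC
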