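import Pool.Agent.Lib.MP_dd84fd_nt.TC.GCoreA
import Pool.Agent.Lib.MP_dd84fd_nt.TC.AlgV
import Pool.Agent.Lib.MP_dd84fd_nt.TC.VDefs

/-!
# TC-CoreVA: the core at one path of `2K + 2` vertices
-/

set_option autoImplicit false

namespace Pool.MP_dd84fd_nt.TC

open Finset Pool.MP_67663b_nt.Odd Pool.MP_dd84fd_nt.En Pool.MP_dd84fd_nt.E2 Pool.MP_dd84fd_nt.LS
open Pool.MP_dd84fd_nt.GX Pool.MP_dd84fd_nt.HX Pool.MP_dd84fd_nt.IX
open Pool.MP_dd84fd_nt.BX (PC pv IsPC PR SX sN prc ind)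
open ComplexConjugate

/-- the sieve for the products of two families, at one window and class -/
def SvP (X : ℕ) (Δ : ℝ) (R W : ℕ) {Q Q' : ℕ} (F y : ℝ) (c : ZMod W)
    (E : Finset (DirichletCharacter ℂ Q)) (E' : Finset (DirichletCharacter ℂ Q')) : Prop :=
  ∀ t : DirichletCharacter ℂ Q → DirichletCharacter ℂ Q' → ℂ,
    ∑ p ∈ UP X R, wv Δ y W c p *
      ‖∑ χ ∈ E, ∑ χ' ∈ E', t χ χ' * χ (p : ZMod Q) * χ' (p : ZMod Q')‖ ^ 2 ≤
      F * sw X Δ W * ∑ χ ∈ E, ∑ χ' ∈ E', ‖t χ χ'‖ ^ 2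

theorem SvP.symm {X : ℕ} {Δ : ℝ} {R W Q Q' : ℕ} {F y : ℝ} {c : ZMod W}
    {E : Finset (DirichletCharacter ℂ Q)} {E' : Finset (DirichletCharacter ℂ Q')}
    (h : SvP X Δ R W F y c E E') : SvP X Δ R W F y c E' E := by
  intro t
  have h1 := h (fun χ χ' => t χ' χ)
  rw [sum_comm (s := E')]
  refine le_trans (le_of_eq ?_) h1
  refine sum_congr rfl fun p _ => ?_
  congr 3
  rw [sum_comm]
  refine sum_congr rfl fun χ _ => sum_congr rfl fun χ' _ => ?_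
  ring

/-- the mass of the class `c` at the window `y` is close to its expected value -/
def MsR (X : ℕ) (Δ : ℝ) (R W : ℕ) (η y : ℝ) (c : ZMod W) : Prop :=
  |∑ p ∈ UP X R, wv Δ y W c p - sw X Δ W| ≤ η * sw X Δ W

section

variable {X : ℕ} {Δ : ℝ} {R W Q Q' : ℕ} {F η y : ℝ}

/-- the mass of the first family -/
theorem mass1 {c : ZMod W} {E : Finset (DirichletCharacter ℂ Q)}
    {E' : Finset (DirichletCharacter ℂ Q')} (hS : SvP X Δ R W F y c E E') (hQ'R : Q' ∣ R)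
    (hs : 0 < sw X Δ W) (hF : 0 ≤ F) (hη : 0 ≤ η) (ho : 1 ∈ E') (hm : MsR X Δ R W η y c) :
    ∑ χ ∈ E, ‖nu X Δ R W y c χ‖ ^ 2 ≤ F * (1 + η) := by
  classical
  refine cl_d (UP X R) (fun p => wv Δ y W c p)
    (fun p _ => wv_nonneg _ _ _ _ _) (sw X Δ W) F η hs hF hη E
    (fun χ p => χ (p : ZMod Q)) ?_ ?_ _ (fun χ _ => rfl)
  · intro t
    have h := hS (fun χ1 χ2 => if χ2 = 1 then t χ1 else 0)
    have e1 : ∀ χ1 ∈ E, ∑ χ2 ∈ E', ‖(if χ2 = (1 : DirichletCharacter ℂ Q') then t χ1 else 0)‖ ^ 2 =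
        ‖t χ1‖ ^ 2 := by
      intro χ1 _
      rw [sum_eq_single (1 : DirichletCharacter ℂ Q')]
      · rw [if_pos rfl]
      · intro b _ hb
        rw [if_neg hb]; simp
      · intro h; exact absurd ho h
    rw [sum_congr rfl e1] at h
    refine le_trans (le_of_eq ?_) h
    refine sum_congr rfl fun p hp => ?_
    congr 3
    refine sum_congr rfl fun χ1 _ => ?_
    rw [sum_eq_single (1 : DirichletCharacter ℂ Q')]
    · rw [if_pos rfl, one_val hQ'R (up_coprime hp), mul_one]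
    · intro b _ hb
      rw [if_neg hb]; simp
    · intro h; exact absurd ho h
  · have h := hm
    unfold MsR at h
    rw [abs_le] at h
    linarith [h.2]

/-- the principal coefficient -/
theorem mass_one {c : ZMod W} (hQR : Q ∣ R) (hs : 0 < sw X Δ W) (hm : MsR X Δ R W η y c) :
    1 - η ≤ (nu X Δ R W y c (1 : DirichletCharacter ℂ Q)).re := by
  have e : nu X Δ R W y c (1 : DirichletCharacter ℂ Q) =
      (((1 / sw X Δ W) * ∑ p ∈ UP X R, wv Δ y W c p : ℝ) : ℂ) := by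
    unfold nu
    push_cast
    congr 1
    refine sum_congr rfl fun p hp => ?_
    rw [one_val hQR (up_coprime hp), mul_one]
  rw [e, Complex.ofReal_re]
  have h := hm
  unfold MsR at h
  rw [abs_le] at h
  rw [one_div, inv_mul_eq_div, le_div_iff₀ hs]
  linarith [h.1]

/-- one step: the family `E'` (modulo `Q'`) at the vertex `(y, c)` with the partner `(y', n - c)`, where
the family `E` (modulo `Q`) has mass at most `β` -/
theorem stepV (hX : 3 ≤ X) (hΔ : 0 < Δ) {y y' : ℝ} (hR : 1 ≤ R) (hWQ : W ∣ Q) (hQR : Q ∣ R)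
    (hQ'R : Q' ∣ R) (hs : 0 < sw X Δ W) (hF0 : 0 ≤ F) (hF4 : F * (1 + η) ≤ 4) (hη0 : 0 ≤ η)
    (hη : η ≤ 1 / 10)
    (E : Finset (DirichletCharacter ℂ Q)) (E' : Finset (DirichletCharacter ℂ Q'))
    (hE : Ineq W E) (ho : 1 ∈ E) (ho' : 1 ∈ E') {n : ℕ} (hn : Q ∣ n * W)
    (c : ZMod W) (hc : IsUnit c) (hc' : IsUnit ((n : ZMod W) - c))
    (hS : SvP X Δ R W F y c E E')
    (hm : MsR X Δ R W η y c) (hm' : MsR X Δ R W η y' ((n : ZMod W) - c))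
    (M : ℝ) (hM : Real.sqrt (4 * (E'.card : ℝ)) ≤ M) (hM0 : 0 < M)
    (hRC : RC X Δ R W Q n y y' c ≤ η / (2 * M))
    (hD : DD X Δ R W Q E y c ≤ 1)
    (hD' : DD X Δ R W Q E y' ((n : ZMod W) - c) ≤ (η / (2 * M)) ^ 2 / 5)
    (β : ℝ) (hβ1 : 1 ≤ β)
    (hβ : ∑ χ ∈ E, ‖nu X Δ R W y' ((n : ZMod W) - c) χ‖ ^ 2 ≤ β) :
    ∑ χ ∈ E', ‖nu X Δ R W y c χ‖ ^ 2 ≤ F * (1 - 1 / β) + 11 * η := by
  classical
  have hQ : 1 ≤ Q := Nat.pos_of_dvd_of_pos hQR hR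
  choose θ hθ1 hθo hθ using refl_ex hQ hWQ hn c hc'
  have m1 := mass1 hS hQ'R hs hF0 hη0 ho' hm
  have m2 := mass1 hS.symm hQR hs hF0 hη0 ho hm
  have hF4' : F ≤ 4 := by nlinarith
  have hmass : ∑ p ∈ UP X R, wv Δ y W c p ≤ (1 + η) * sw X Δ W := by
    have h := hm
    unfold MsR at h
    rw [abs_le] at h
    linarith [h.2]
  refine cv_a (UP X R) (fun p => wv Δ y W c p)
    (fun p _ => wv_nonneg _ _ _ _ _) (sw X Δ W) F η β hs hF0 hF4' hη0 hη hβ1 E E'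
    (fun χ p => χ (p : ZMod Q)) (fun χ p => χ (p : ZMod Q')) 1 ho
    (fun p hp => one_val hQR (up_coprime hp)) hS hmass
    (fun χ => conj (nu X Δ R W y' ((n : ZMod W) - c) χ) * θ χ) ?_ ?_
    (fun χ => nu X Δ R W y c χ) (fun χ _ => rfl) ?_
  · rw [hθo 1 rfl, mul_one, Complex.conj_re]
    exact mass_one hQR hs hm'
  · refine le_trans (le_of_eq ?_) hβ
    refine sum_congr rfl fun χ _ => ?_
    rw [norm_mul, hθ1, mul_one, RCLike.norm_conj]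
  · -- the error
    have hB : ∀ p ∈ UP X R, ‖∑ χ ∈ E',
        conj (nu X Δ R W y c χ) * χ (p : ZMod Q')‖ ≤ M := by
      intro p _
      refine le_trans ?_ hM
      have e1 : ‖∑ χ ∈ E', conj (nu X Δ R W y c χ) *
          χ (p : ZMod Q')‖ ≤ ∑ χ ∈ E', 1 * ‖nu X Δ R W y c χ‖ := by
        refine (norm_sum_le _ _).trans (sum_le_sum fun χ _ => ?_)
        rw [norm_mul, RCLike.norm_conj, one_mul]
        exact mul_le_of_le_one_right (norm_nonneg _) (DirichletCharacter.norm_le_one _ _)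
      refine e1.trans ((Real.le_sqrt (sum_nonneg fun _ _ => by positivity) (by positivity)).2 ?_)
      refine (sum_mul_sq_le_sq_mul_sq E' (fun _ => (1 : ℝ))
        (fun χ => ‖nu X Δ R W y c χ‖)).trans ?_
      rw [one_pow, sum_const, nsmul_eq_mul, mul_one]
      nlinarith [m2, (Nat.cast_nonneg E'.card : (0 : ℝ) ≤ E'.card)]
    have k := h3 X hX Δ hΔ hR hWQ hQR hn y y' c hc hc' E hE
      (fun p => ∑ χ ∈ E', conj (nu X Δ R W y c χ) * χ (p : ZMod Q')) M hB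
    have k2 : ∑ p ∈ UP X R, ((wv Δ y W c p : ℝ) : ℂ) *
        (∑ χ ∈ E, conj (nu X Δ R W y' ((n : ZMod W) - c) χ) * θ χ * χ (p : ZMod Q)) *
        (∑ χ ∈ E', conj (nu X Δ R W y c χ) * χ (p : ZMod Q')) =
        ∑ p ∈ UP X R, ((wv Δ y W c p : ℝ) : ℂ) *
        conj (∑ χ ∈ E, nu X Δ R W y' ((n : ZMod W) - c) χ * conj (χ ((n : ZMod Q) - p))) *
        (∑ χ ∈ E', conj (nu X Δ R W y c χ) * χ (p : ZMod Q')) := by
      refine sum_congr rfl fun p hp => ?_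
      by_cases hpc : (p : ZMod W) = c
      · rw [proj_eq hQR c E θ hθ _ p (up_coprime hp) hpc]
      · have : wv Δ y W c p = 0 := by unfold wv; rw [if_neg hpc]
        rw [this]; simp
    rw [k2]
    refine k.trans ?_
    have k3 : Real.sqrt ((∑ χ ∈ E, ‖nu X Δ R W y c χ‖ ^ 2 +
        DD X Δ R W Q E y c) *
        DD X Δ R W Q E y' ((n : ZMod W) - c)) ≤ η / (2 * M) := by
      rw [Real.sqrt_le_left (by positivity)]
      have a1 := DD_nonneg X Δ R W Q E y' ((n : ZMod W) - c)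
      have a2 : ∑ χ ∈ E, ‖nu X Δ R W y c χ‖ ^ 2 + DD X Δ R W Q E y c ≤ 5 := by linarith
      calc _ ≤ 5 * ((η / (2 * M)) ^ 2 / 5) := mul_le_mul a2 hD' a1 (by norm_num)
        _ = _ := by ring
    have k4 : RC X Δ R W Q n y y' c + Real.sqrt ((∑ χ ∈ E,
        ‖nu X Δ R W y c χ‖ ^ 2 + DD X Δ R W Q E y c) *
        DD X Δ R W Q E y' ((n : ZMod W) - c)) ≤ η / M := by
      have e : η / M = η / (2 * M) + η / (2 * M) := by field_simp; ring
      rw [e]; exact add_le_add hRC k3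
    calc _ ≤ M * (sw X Δ W * (η / M)) :=
          mul_le_mul_of_nonneg_left (mul_le_mul_of_nonneg_left k4 hs.le) hM0.le
      _ = η * sw X Δ W := by field_simp

/-- the middle edge: both masses below 2 contradict the orthogonality -/
theorem midV (hX : 3 ≤ X) (hΔ : 0 < Δ) {y y' : ℝ} (hR : 1 ≤ R) (hWQ : W ∣ Q) (hQR : Q ∣ R)
    (hs : 0 < sw X Δ W) (hη0 : 0 ≤ η) (hη : η ≤ 1 / 10)
    (E : Finset (DirichletCharacter ℂ Q)) (hE : Ineq W E) (ho : 1 ∈ E) {n : ℕ} (hn : Q ∣ n * W)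
    (c : ZMod W) (hc : IsUnit c) (hc' : IsUnit ((n : ZMod W) - c))
    (hm : MsR X Δ R W η y c) (hm' : MsR X Δ R W η y' ((n : ZMod W) - c))
    (hRC : RC X Δ R W Q n y y' c ≤ η / 2)
    (hD : DD X Δ R W Q E y c ≤ 1)
    (hD' : DD X Δ R W Q E y' ((n : ZMod W) - c) ≤ η ^ 2 / 20)
    (b : ℝ) (hb4 : b ≤ 4) (hb : ∑ χ ∈ E, ‖nu X Δ R W y c χ‖ ^ 2 ≤ b)
    (hb' : ∑ χ ∈ E, ‖nu X Δ R W y' ((n : ZMod W) - c) χ‖ ^ 2 ≤ b) :
    2 ≤ b + 5 * η := by
  classical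
  have hQ : 1 ≤ Q := Nat.pos_of_dvd_of_pos hQR hR
  choose θ hθ1 hθo hθ using refl_ex hQ hWQ hn c hc'
  have k := h3 X hX Δ hΔ hR hWQ hQR hn y y' c hc hc' E hE (fun _ => 1) 1
    (fun p _ => by simp)
  have k2 : ∑ p ∈ UP X R, ((wv Δ y W c p : ℝ) : ℂ) *
      conj (∑ χ ∈ E, nu X Δ R W y' ((n : ZMod W) - c) χ * conj (χ ((n : ZMod Q) - p))) * 1 =
      (sw X Δ W : ℂ) * ∑ χ ∈ E, conj (nu X Δ R W y' ((n : ZMod W) - c) χ) * θ χ *
        nu X Δ R W y c χ := by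
    have hsc : (sw X Δ W : ℂ) ≠ 0 := by exact_mod_cast hs.ne'
    have e1 : ∀ p ∈ UP X R, ((wv Δ y W c p : ℝ) : ℂ) *
      conj (∑ χ ∈ E, nu X Δ R W y' ((n : ZMod W) - c) χ * conj (χ ((n : ZMod Q) - p))) * 1 =
        ∑ χ ∈ E, ((wv Δ y W c p : ℝ) : ℂ) *
          (conj (nu X Δ R W y' ((n : ZMod W) - c) χ) * θ χ * χ (p : ZMod Q)) := by
      intro p hp
      rw [← mul_sum, mul_one]
      by_cases hpc : (p : ZMod W) = c
      · rw [proj_eq hQR c E θ hθ _ p (up_coprime hp) hpc]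
      · have : wv Δ y W c p = 0 := by unfold wv; rw [if_neg hpc]
        rw [this]; simp
    rw [sum_congr rfl e1, sum_comm, mul_sum]
    refine sum_congr rfl fun χ _ => ?_
    have e3 : (sw X Δ W : ℂ) * nu X Δ R W y c χ =
        ∑ p ∈ UP X R, ((wv Δ y W c p : ℝ) : ℂ) * χ (p : ZMod Q) := by
      unfold nu
      rw [← mul_assoc, mul_one_div, div_self hsc, one_mul]
    rw [mul_left_comm, e3, mul_sum]
    refine sum_congr rfl fun p _ => ?_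
    ring
  rw [k2, norm_mul, Complex.norm_real, Real.norm_of_nonneg hs.le, one_mul] at k
  have k5 := le_of_mul_le_mul_left k hs
  have k3 : Real.sqrt ((∑ χ ∈ E, ‖nu X Δ R W y c χ‖ ^ 2 + DD X Δ R W Q E y c) *
      DD X Δ R W Q E y' ((n : ZMod W) - c)) ≤ η / 2 := by
    rw [Real.sqrt_le_left (by positivity)]
    have a1 := DD_nonneg X Δ R W Q E y' ((n : ZMod W) - c)
    have a2 : ∑ χ ∈ E, ‖nu X Δ R W y c χ‖ ^ 2 + DD X Δ R W Q E y c ≤ 5 := by linarith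
    calc _ ≤ 5 * (η ^ 2 / 20) := mul_le_mul a2 hD' a1 (by norm_num)
      _ = _ := by ring
  have k6 : ‖∑ χ ∈ E, conj (nu X Δ R W y' ((n : ZMod W) - c) χ) * θ χ *
        nu X Δ R W y c χ‖ ≤ η := by
    linarith
  have n1 : 1 - η ≤ ‖nu X Δ R W y c (1 : DirichletCharacter ℂ Q)‖ :=
    (mass_one hQR hs hm).trans (Complex.re_le_norm _)
  have n2 : 1 - η ≤ ‖nu X Δ R W y' ((n : ZMod W) - c) (1 : DirichletCharacter ℂ Q)‖ :=
    (mass_one hQR hs hm').trans (Complex.re_le_norm _)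
  exact cv_b E 1 ho _ _ θ (fun χ _ => hθ1 χ) b η hη0 hη hb hb' n1 n2 k6

end

/-- half of the path: from the far end to the middle -/
theorem halfV {X : ℕ} {Δ : ℝ} {Q1 Q2 R W : ℕ} {ν η : ℝ} (hX : 3 ≤ X) (hΔ : 0 < Δ) (hR : 1 ≤ R)
    (hW1 : W ∣ Q1) (hW2 : W ∣ Q2) (hQ1R : Q1 ∣ R) (hQ2R : Q2 ∣ R) (hs : 0 < sw X Δ W)
    (hν0 : 0 < ν) (hν : ν ≤ 1 / 20) (hη : η = ν / 100) (K : ℕ) (hKo : Odd K)
    (E1 : ℕ → Finset (DirichletCharacter ℂ Q1)) (E2 : ℕ → Finset (DirichletCharacter ℂ Q2))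
    (hE1 : ∀ k ≤ K, Ineq W (E1 k) ∧ 1 ∈ E1 k) (hE2 : ∀ k ≤ K, Ineq W (E2 k) ∧ 1 ∈ E2 k)
    {n n' : ℕ} (hn : Q1 ∣ n * W) (hn' : Q2 ∣ n' * W) (y : ℕ → ℝ) (c : ℕ → ZMod W)
    (hc : ∀ k < K, c (k + 1) = (if Even k then (n : ZMod W) else n') - c k)
    (hu : ∀ k ≤ K, IsUnit (c k))
    (hS : ∀ i ≤ K, ∀ k ≤ K, ∀ k' ≤ K, SvP X Δ R W (4 - ν) (y i) (c i) (E1 k) (E2 k'))
    (hm : ∀ k ≤ K, MsR X Δ R W η (y k) (c k))
    (M : ℕ → ℝ) (hM1 : ∀ k ≤ K, Real.sqrt (4 * ((E1 k).card : ℝ)) ≤ M k)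
    (hM2 : ∀ k ≤ K, Real.sqrt (4 * ((E2 k).card : ℝ)) ≤ M k) (hM0 : ∀ k ≤ K, 0 < M k)
    (hRC1 : ∀ k < K, Even k → RC X Δ R W Q1 n (y k) (y (k + 1)) (c k) ≤ η / (2 * M k))
    (hRC2 : ∀ k < K, Odd k → RC X Δ R W Q2 n' (y k) (y (k + 1)) (c k) ≤ η / (2 * M k))
    (d : ℕ → ℝ) (hd1 : ∀ k ≤ K, d k ≤ 1)
    (hd : ∀ k < K, d (k + 1) ≤ (η / (2 * M k)) ^ 2 / 5)
    (hD1 : ∀ i ≤ K, ∀ k ≤ K, DD X Δ R W Q1 (E1 k) (y i) (c i) ≤ d k)
    (hD2 : ∀ i ≤ K, ∀ k ≤ K, DD X Δ R W Q2 (E2 k) (y i) (c i) ≤ d k) :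
    ∑ χ ∈ E2 0, ‖nu X Δ R W (y 0) (c 0) χ‖ ^ 2 ≤ max (2 - ν / 4) (4 - K * (ν / 4)) := by
  have hF0 : 0 ≤ 4 - ν := by linarith
  have hF4 : (4 - ν) * (1 + η) ≤ 4 := by rw [hη]; nlinarith
  have hη0 : 0 ≤ η := by rw [hη]; positivity
  have hη1 : η ≤ 1 / 10 := by rw [hη]; linarith
  have hβ1 : ∀ j : ℕ, 1 ≤ max (2 - ν / 4) (4 - (j : ℝ) * (ν / 4)) := fun j =>
    le_max_of_le_left (by linarith)
  have key : ∀ j : ℕ, ∀ k : ℕ, k + j = K →
      (Even k → ∑ χ ∈ E2 k, ‖nu X Δ R W (y k) (c k) χ‖ ^ 2 ≤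
        max (2 - ν / 4) (4 - (j : ℝ) * (ν / 4))) ∧
      (Odd k → ∑ χ ∈ E1 k, ‖nu X Δ R W (y k) (c k) χ‖ ^ 2 ≤
        max (2 - ν / 4) (4 - (j : ℝ) * (ν / 4))) := by
    intro j
    induction j with
    | zero =>
      intro k hk
      rw [add_zero] at hk
      subst hk
      refine ⟨fun h => ?_, fun _ => ?_⟩
      · exact absurd hKo (Nat.not_odd_iff_even.2 h)
      · refine (mass1 (hS k le_rfl k le_rfl k le_rfl) hQ2R hs hF0 hη0 (hE2 k le_rfl).2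
          (hm k le_rfl)).trans (hF4.trans ?_)
        refine le_max_of_le_right ?_
        simp
    | succ j ih =>
      intro k hk
      have hkK : k < K := by omega
      have hk1 : k + 1 ≤ K := by omega
      obtain ⟨ihe, iho⟩ := ih (k + 1) (by omega)
      refine ⟨fun h => ?_, fun h => ?_⟩
      · have hck : c (k + 1) = (n : ZMod W) - c k := by rw [hc k hkK, if_pos h]
        have hodd : Odd (k + 1) := h.add_one
        have hb := iho hodd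
        rw [hck] at hb
        have hst := stepV hX hΔ hR hW1 hQ1R hQ2R hs hF0 hF4 hη0 hη1 (E1 (k + 1)) (E2 k)
          (hE1 (k + 1) hk1).1 (hE1 (k + 1) hk1).2 (hE2 k hkK.le).2 hn (c k) (hu k hkK.le)
          (by rw [← hck]; exact hu (k + 1) hk1) (hS k hkK.le (k + 1) hk1 k hkK.le) (hm k hkK.le)
          (by rw [← hck]; exact hm (k + 1) hk1) (M k) (hM2 k hkK.le) (hM0 k hkK.le)
          (hRC1 k hkK h) ((hD1 k hkK.le (k + 1) hk1).trans (hd1 (k + 1) hk1))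
          (by rw [← hck]; exact (hD1 (k + 1) hk1 (k + 1) hk1).trans (hd k hkK))
          _ (hβ1 j) hb
        refine hst.trans ?_
        rw [hη]
        exact cv_step hν0 hν (hβ1 j) j le_rfl
      · have hne : ¬ Even k := Nat.not_even_iff_odd.2 h
        have hck : c (k + 1) = (n' : ZMod W) - c k := by rw [hc k hkK, if_neg hne]
        have heven : Even (k + 1) := h.add_one
        have hb := ihe heven
        rw [hck] at hb
        have hst := stepV hX hΔ hR hW2 hQ2R hQ1R hs hF0 hF4 hη0 hη1 (E2 (k + 1)) (E1 k)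
          (hE2 (k + 1) hk1).1 (hE2 (k + 1) hk1).2 (hE1 k hkK.le).2 hn' (c k) (hu k hkK.le)
          (by rw [← hck]; exact hu (k + 1) hk1) (hS k hkK.le k hkK.le (k + 1) hk1).symm
          (hm k hkK.le)
          (by rw [← hck]; exact hm (k + 1) hk1) (M k) (hM1 k hkK.le) (hM0 k hkK.le)
          (hRC2 k hkK h) ((hD2 k hkK.le (k + 1) hk1).trans (hd1 (k + 1) hk1))
          (by rw [← hck]; exact (hD2 (k + 1) hk1 (k + 1) hk1).trans (hd k hkK))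
          _ (hβ1 j) hb
        refine hst.trans ?_
        rw [hη]
        exact cv_step hν0 hν (hβ1 j) j le_rfl
  have h0 := (key K 0 (by omega)).1 (by simp)
  exact h0

/-- the core at one path: `2K+2` vertices, `K` odd; `E1 k`, `E2 k` the families used at the distance `k`
from the middle edge -/
theorem core_ptV {X : ℕ} {Δ : ℝ} {Q1 Q2 N0 : ℕ} {ν η τ : ℝ} (hX : 3 ≤ X) (hΔ : 0 < Δ)
    (h1 : 1 ≤ Q1) (h2 : 1 ≤ Q2) (hs : 0 < sw X Δ (Nat.gcd Q1 Q2)) (hν0 : 0 < ν) (hν : ν ≤ 1 / 20)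
    (hη : η = ν / 100) (K : ℕ) (hK : 8 / ν + 1 ≤ (K : ℝ)) (hKo : Odd K)
    (E1 : ℕ → Finset (DirichletCharacter ℂ Q1)) (E2 : ℕ → Finset (DirichletCharacter ℂ Q2))
    (hE1 : ∀ k ≤ K, Ineq (Nat.gcd Q1 Q2) (E1 k) ∧ 1 ∈ E1 k)
    (hE2 : ∀ k ≤ K, Ineq (Nat.gcd Q1 Q2) (E2 k) ∧ 1 ∈ E2 k)
    (hN : ∀ k ≤ K, ∀ k' ≤ K, (E1 k).card * (E2 k').card ≤ N0)
    {n n' : ℕ} (hn : Q1 ∣ n * Nat.gcd Q1 Q2) (hn' : Q2 ∣ n' * Nat.gcd Q1 Q2)
    (y : ℕ → ℝ) (c : ℕ → ZMod (Nat.gcd Q1 Q2))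
    (hc : ∀ i, c (i + 1) = (if Even i then (n : ZMod (Nat.gcd Q1 Q2)) else n') - c i)
    (hu : ∀ i < 2 * K + 2, IsUnit (c i))
    (hw : ∀ i < 2 * K + 2, SvW X Δ Q1 Q2 (4 - ν) (y i) N0)
    (hm : ∀ i < 2 * K + 2, MsW X Δ Q1 Q2 η (y i) (c i))
    (M : ℕ → ℝ) (hM1 : ∀ k ≤ K, Real.sqrt (4 * ((E1 k).card : ℝ)) ≤ M k)
    (hM2 : ∀ k ≤ K, Real.sqrt (4 * ((E2 k).card : ℝ)) ≤ M k) (hM0 : ∀ k ≤ K, 0 < M k)
    (hτ : ∀ k ≤ K, τ ≤ η / (2 * M k)) (hτ0 : τ ≤ η / 2)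
    (hRC1 : ∀ i < 2 * K + 1, Even i →
      RC X Δ (Nat.lcm Q1 Q2) (Nat.gcd Q1 Q2) Q1 n (y i) (y (i + 1)) (c i) ≤ τ)
    (hRC2 : ∀ i < 2 * K + 1, Odd i →
      RC X Δ (Nat.lcm Q1 Q2) (Nat.gcd Q1 Q2) Q2 n' (y i) (y (i + 1)) (c i) ≤ τ)
    (d : ℕ → ℝ) (hd0 : d 0 ≤ η ^ 2 / 20) (hd1 : ∀ k ≤ K, d k ≤ 1)
    (hd : ∀ k < K, d (k + 1) ≤ (η / (2 * M k)) ^ 2 / 5)
    (hD1 : ∀ i < 2 * K + 2, ∀ k ≤ K,
      DD X Δ (Nat.lcm Q1 Q2) (Nat.gcd Q1 Q2) Q1 (E1 k) (y i) (c i) ≤ d k)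
    (hD2 : ∀ i < 2 * K + 2, ∀ k ≤ K,
      DD X Δ (Nat.lcm Q1 Q2) (Nat.gcd Q1 Q2) Q2 (E2 k) (y i) (c i) ≤ d k) : False := by
  have hR : 1 ≤ Nat.lcm Q1 Q2 := Nat.lcm_pos h1 h2
  have hW1 : Nat.gcd Q1 Q2 ∣ Q1 := Nat.gcd_dvd_left _ _
  have hW2 : Nat.gcd Q1 Q2 ∣ Q2 := Nat.gcd_dvd_right _ _
  have hQ1R : Q1 ∣ Nat.lcm Q1 Q2 := Nat.dvd_lcm_left _ _
  have hQ2R : Q2 ∣ Nat.lcm Q1 Q2 := Nat.dvd_lcm_right _ _
  have hη0 : 0 ≤ η := by rw [hη]; positivity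
  have hη1 : η ≤ 1 / 10 := by rw [hη]; linarith
  have hSv : ∀ i < 2 * K + 2, ∀ k ≤ K, ∀ k' ≤ K,
      SvP X Δ (Nat.lcm Q1 Q2) (Nat.gcd Q1 Q2) (4 - ν) (y i) (c i) (E1 k) (E2 k') := by
    intro i hi k hk k' hk' t
    exact gwin_prod (hw i hi) h1 h2 (E1 k) (E2 k') (hE1 k hk).1 (hE2 k' hk').1 (hN k hk k' hk')
      (c i) t
  have hmv : ∀ i < 2 * K + 2, MsR X Δ (Nat.lcm Q1 Q2) (Nat.gcd Q1 Q2) η (y i) (c i) := hm
  have hcK : c (K + 1) = (n' : ZMod (Nat.gcd Q1 Q2)) - c K := by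
    rw [hc K, if_neg (Nat.not_even_iff_odd.2 hKo)]
  -- the left half
  have L1 := halfV hX hΔ hR hW1 hW2 hQ1R hQ2R hs hν0 hν hη K hKo E1 E2 hE1 hE2 hn hn'
    (fun k => y (K - k)) (fun k => c (K - k)) (by
      intro k hk
      have e1 : K - k = (K - (k + 1)) + 1 := by omega
      have e2 := hc (K - (k + 1))
      have e3 : (Even (K - (k + 1)) ↔ Even k) := by
        have : K = (K - (k + 1)) + (k + 1) := by omega
        rw [this] at hKo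
        rw [Nat.odd_add] at hKo
        rw [← Nat.not_odd_iff_even, hKo, Nat.even_add_one, not_not]
      simp only [e3] at e2
      rw [← e1] at e2
      show c (K - (k + 1)) = _ - c (K - k)
      rw [e2]; ring)
    (fun k hk => hu _ (by omega)) (fun i hi k hk k' hk' => hSv _ (by omega) k hk k' hk')
    (fun k hk => hmv _ (by omega)) M hM1 hM2 hM0
    (by
      intro k hk he
      have e1 : K - k = (K - (k + 1)) + 1 := by omega
      have e3 : Even (K - (k + 1)) := by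
        have : K = (K - (k + 1)) + (k + 1) := by omega
        rw [this] at hKo
        rw [Nat.odd_add] at hKo
        rw [← Nat.not_odd_iff_even, hKo, Nat.even_add_one, not_not]
        exact he
      have h := hRC1 (K - (k + 1)) (by omega) e3
      rw [RC_symm X Δ hW1, ← e1] at h
      have e2 := hc (K - (k + 1))
      rw [if_pos e3, ← e1] at e2
      rw [← e2] at h
      exact h.trans (hτ k hk.le))
    (by
      intro k hk ho
      have e1 : K - k = (K - (k + 1)) + 1 := by omega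
      have e3 : Odd (K - (k + 1)) := by
        have : K = (K - (k + 1)) + (k + 1) := by omega
        rw [this] at hKo
        rw [Nat.odd_add] at hKo
        rw [hKo]
        exact ho.add_one
      have h := hRC2 (K - (k + 1)) (by omega) e3
      rw [RC_symm X Δ hW2, ← e1] at h
      have e2 := hc (K - (k + 1))
      rw [if_neg (Nat.not_even_iff_odd.2 e3), ← e1] at e2
      rw [← e2] at h
      exact h.trans (hτ k hk.le))
    d hd1 hd (fun i hi k hk => hD1 _ (by omega) k hk) (fun i hi k hk => hD2 _ (by omega) k hk)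
  -- the right half
  have R1 := halfV hX hΔ hR hW1 hW2 hQ1R hQ2R hs hν0 hν hη K hKo E1 E2 hE1 hE2 hn hn'
    (fun k => y (K + 1 + k)) (fun k => c (K + 1 + k)) (by
      intro k hk
      have e3 : (Even (K + 1 + k) ↔ Even k) := by
        rw [Nat.even_add]
        have : Even (K + 1) := hKo.add_one
        tauto
      have e2 := hc (K + 1 + k)
      simp only [e3] at e2
      exact e2)
    (fun k hk => hu _ (by omega)) (fun i hi k hk k' hk' => hSv _ (by omega) k hk k' hk')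
    (fun k hk => hmv _ (by omega)) M hM1 hM2 hM0
    (by
      intro k hk he
      have e3 : Even (K + 1 + k) := by
        rw [Nat.even_add]
        have : Even (K + 1) := hKo.add_one
        tauto
      exact (hRC1 (K + 1 + k) (by omega) e3).trans (hτ k hk.le))
    (by
      intro k hk ho
      have e3 : Odd (K + 1 + k) := by
        rw [Nat.odd_add]
        have h1 : Even (K + 1) := hKo.add_one
        have h2 : ¬ Odd (K + 1) := Nat.not_odd_iff_even.2 h1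
        have h3 : ¬ Even k := Nat.not_even_iff_odd.2 ho
        tauto
      exact (hRC2 (K + 1 + k) (by omega) e3).trans (hτ k hk.le))
    d hd1 hd (fun i hi k hk => hD1 _ (by omega) k hk) (fun i hi k hk => hD2 _ (by omega) k hk)
  have hbound : max (2 - ν / 4) (4 - (K : ℝ) * (ν / 4)) ≤ 2 - ν / 4 := by
    refine max_le le_rfl ?_
    have h3 : (8 / ν + 1) * (ν / 4) ≤ (K : ℝ) * (ν / 4) :=
      mul_le_mul_of_nonneg_right hK (by positivity)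
    have h4 : (8 / ν + 1) * (ν / 4) = 2 + ν / 4 := by field_simp; ring
    linarith
  simp only [Nat.sub_zero, add_zero] at L1 R1
  rw [hcK] at R1
  have hfin := midV hX hΔ (y := y K) (y' := y (K + 1)) hR hW2 hQ2R hs hη0 hη1 (E2 0)
    (hE2 0 (Nat.zero_le _)).1 (hE2 0 (Nat.zero_le _)).2 hn' (c K) (hu K (by omega))
    (by rw [← hcK]; exact hu (K + 1) (by omega)) (hmv K (by omega))
    (by rw [← hcK]; exact hmv (K + 1) (by omega)) ((hRC2 K (by omega) hKo).trans hτ0)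
    ((hD2 K (by omega) 0 (Nat.zero_le _)).trans (hd1 0 (Nat.zero_le _)))
    (by rw [← hcK]; exact (hD2 (K + 1) (by omega) 0 (Nat.zero_le _)).trans hd0)
    (2 - ν / 4) (by linarith) (L1.trans hbound) (R1.trans hbound)
  rw [hη] at hfin
  linarith

end Pool.MP_dd84fd_nt.TC
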