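import Pool.Agent.Lib.MP_dd84fd_nt.TC.CoreVS
import Pool.Agent.Lib.MP_dd84fd_nt.TC.CoreVA

/-!
# TC-CoreV: two failures in one residue class modulo `M`, `CoreV` (helper45)

Families `E1 k`, `E2 k` for `κ_k = (ρ q)^(k+1)`; selection of a window and of a path of `2K + 2` classes by
averaging (`selV`), then `core_ptV`.
-/

set_option autoImplicit false

namespace Pool.MP_dd84fd_nt.TC

open Finset Pool.MP_67663b_nt.Odd Pool.MP_dd84fd_nt.En Pool.MP_dd84fd_nt.E2 Pool.MP_dd84fd_nt.LS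
open Pool.MP_dd84fd_nt.GX Pool.MP_dd84fd_nt.HX Pool.MP_dd84fd_nt.IX
open Pool.MP_dd84fd_nt.BX (PC pv IsPC PR SX sN prc ind)

/-- the sum of `RC` in terms of the expected size -/
theorem RC_sumV {X n R W Q B : ℕ} {C2 lam t : ℝ} (hC2 : 0 ≤ C2) (hΔ : 0 < Dl B X) (hX : 3 ≤ X)
    (hQ : 1 ≤ Q) (hW : 1 ≤ W)
    (hR : ∑ j ∈ JW X (Dl B X), ∑ c ∈ range W,
      RC X (Dl B X) R W Q n (t + j * Dl B X / 2) (n - t - j * Dl B X / 2) (c : ZMod W) ≤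
      C2 * ((Nat.totient Q : ℝ) / ((Nat.totient W : ℝ) * (sw X (Dl B X) W) ^ 2)) *
      LC X (Dl B X) n Q) (hLC : LC X (Dl B X) n Q ≤ lam * LM X (Dl B X) n Q)
    (hc : 0 ≤ lam) :
    ∑ j ∈ JW X (Dl B X), ∑ c ∈ range W,
      RC X (Dl B X) R W Q n (t + j * Dl B X / 2) (n - t - j * Dl B X / 2) (c : ZMod W) ≤
      C2 * lam * (Nat.totient W * (X / Dl B X)) := by
  have h1 := lm_norm (n := n) hΔ hX hQ hW
  have hco : 0 ≤ (Nat.totient Q : ℝ) / ((Nat.totient W : ℝ) * (sw X (Dl B X) W) ^ 2) := by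
    positivity
  refine hR.trans ?_
  calc _ ≤ C2 * ((Nat.totient Q : ℝ) / ((Nat.totient W : ℝ) * (sw X (Dl B X) W) ^ 2)) *
        (lam * LM X (Dl B X) n Q) := mul_le_mul_of_nonneg_left hLC (by positivity)
    _ = C2 * lam * ((Nat.totient Q : ℝ) /
        ((Nat.totient W : ℝ) * (sw X (Dl B X) W) ^ 2) * LM X (Dl B X) n Q) := by ring
    _ ≤ _ := mul_le_mul_of_nonneg_left h1 (by positivity)

/-- the constants -/
theorem constsV {C1 C2 C3 η : ℝ} (h1 : 0 < C1) (h2 : 0 < C2) (h3 : 0 < C3) (hη0 : 0 < η)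
    (hη : η ≤ 1 / 10) (K : ℕ) : ∃ c0 : ℝ, 0 < c0 ∧ ∀ ρ : ℝ, 0 < ρ → ρ ≤ 1 →
    ∃ (κ M d : ℕ → ℝ) (τ κ3 : ℝ), (∀ k, 0 < κ k ∧ κ k ≤ 1) ∧ 0 < κ3 ∧ κ3 ≤ 1 ∧ 0 < τ ∧
      (∀ k, 0 < M k) ∧ (∀ k, Real.sqrt (4 * (1 + C1 / κ k)) ≤ M k) ∧
      (∀ k ≤ K, τ ≤ η / (2 * M k)) ∧ τ ≤ η / 2 ∧ (∀ k, 0 < d k) ∧ d 0 ≤ η ^ 2 / 20 ∧
      (∀ k, d k ≤ 1) ∧ (∀ k, d (k + 1) ≤ (η / (2 * M k)) ^ 2 / 5) ∧
      ((2 * K + 2 : ℕ) : ℝ) * (C2 * (c0 * ρ ^ (K + 2)) / τ + C3 * κ3 / η ^ 2 +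
        ∑ k ∈ range (K + 1), (C1 * κ k / d k + C1 * κ k / d k)) ≤ 3 * ρ / 16 := by
  obtain ⟨L, hL⟩ : ∃ L : ℝ, L = ((2 * K + 2 : ℕ) : ℝ) := ⟨_, rfl⟩
  have hL2 : 2 ≤ L := by rw [hL]; push_cast; linarith [(Nat.cast_nonneg K : (0 : ℝ) ≤ K)]
  have hK0 : (0 : ℝ) ≤ K := Nat.cast_nonneg K
  obtain ⟨q, hq⟩ : ∃ q : ℝ, q = η ^ 2 / (2560 * L * (K + 1) * (1 + C1) ^ 2) := ⟨_, rfl⟩
  have hq0 : 0 < q := by rw [hq]; positivity
  have hη2 : η ^ 2 ≤ 1 := by nlinarith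
  have hC1 : 1 ≤ (1 + C1) := by linarith
  have hC12 : 1 ≤ (1 + C1) ^ 2 := one_le_pow₀ hC1
  have hq1 : q ≤ 1 := by
    rw [hq, div_le_one (by positivity)]
    have : 1 ≤ 2560 * L * (K + 1) * (1 + C1) ^ 2 := by
      have a1 : 1 ≤ 2560 * L := by linarith
      have a2 : (1 : ℝ) ≤ (K : ℝ) + 1 := by linarith
      calc (1 : ℝ) = 1 * 1 * 1 := by norm_num
        _ ≤ 2560 * L * (K + 1) * (1 + C1) ^ 2 := by gcongr
    linarith
  rw [← hL]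
  refine ⟨η * q ^ (K + 1) / (64 * L * C2 * (1 + C1)), by positivity, ?_⟩
  intro ρ hρ0 hρ1
  have hρq : 0 < ρ * q := by positivity
  have hρq1 : ρ * q ≤ 1 := mul_le_one₀ hρ1 hq0.le hq1
  obtain ⟨κ, hκ⟩ : ∃ κ : ℕ → ℝ, κ = fun k => (ρ * q) ^ (k + 1) := ⟨_, rfl⟩
  have hκ0 : ∀ k, 0 < κ k := fun k => by rw [hκ]; positivity
  have hκ1 : ∀ k, κ k ≤ 1 := fun k => by rw [hκ]; exact pow_le_one₀ hρq.le hρq1
  have hκs : ∀ k, κ (k + 1) = κ k * (ρ * q) := fun k => by rw [hκ]; ring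
  obtain ⟨M, hM⟩ : ∃ M : ℕ → ℝ, M = fun k => Real.sqrt (4 * (1 + C1) / κ k) := ⟨_, rfl⟩
  have hM0 : ∀ k, 0 < M k := fun k => by
    have := hκ0 k
    rw [hM]; exact Real.sqrt_pos.2 (by positivity)
  have hMs : ∀ k, M k ^ 2 = 4 * (1 + C1) / κ k := fun k => by
    have := hκ0 k
    rw [hM]; exact Real.sq_sqrt (by positivity)
  obtain ⟨d, hd⟩ : ∃ d : ℕ → ℝ, d = fun k => if k = 0 then η ^ 2 / 20 else
    η ^ 2 * κ (k - 1) / (80 * (1 + C1)) := ⟨_, rfl⟩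
  have hd0 : ∀ k, 0 < d k := fun k => by
    rw [hd]; simp only
    split_ifs
    · positivity
    · have := hκ0 (k - 1); positivity
  have hds : ∀ k, d (k + 1) = η ^ 2 * κ k / (80 * (1 + C1)) := fun k => by
    rw [hd]; simp
  have hdz : d 0 = η ^ 2 / 20 := by rw [hd]; simp
  obtain ⟨τ, hτ⟩ : ∃ τ : ℝ, τ = η * κ K / (4 * (1 + C1)) := ⟨_, rfl⟩
  obtain ⟨κ3, hκ3⟩ : ∃ κ3 : ℝ, κ3 = ρ * η ^ 2 / (16 * L * (C3 + 1)) := ⟨_, rfl⟩
  have hτ0 : 0 < τ := by rw [hτ]; have := hκ0 K; positivity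
  have hmono : ∀ k ≤ K, κ K ≤ κ k := by
    intro k hk
    rw [hκ]
    exact pow_le_pow_of_le_one hρq.le hρq1 (by omega)
  have hτM : ∀ k ≤ K, τ ≤ η / (2 * M k) := by
    intro k hk
    have h4 : M k ≤ 2 * (1 + C1) / κ K := by
      have h5 : M k ^ 2 ≤ (2 * (1 + C1) / κ K) ^ 2 := by
        rw [hMs, div_pow]
        have h6 := hκ0 k
        have h7 := hκ0 K
        rw [div_le_div_iff₀ h6 (by positivity)]
        have h8 := hmono k hk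
        have h9 : κ K ^ 2 ≤ κ k := by nlinarith [hκ1 K]
        have h10 : 4 * (1 + C1) * κ K ^ 2 ≤ 4 * (1 + C1) * κ k :=
          mul_le_mul_of_nonneg_left h9 (by positivity)
        have h11 : 4 * (1 + C1) * κ k ≤ (2 * (1 + C1)) ^ 2 * κ k := by
          apply mul_le_mul_of_nonneg_right _ h6.le
          nlinarith
        linarith
      have h7 := hκ0 K
      exact le_of_sq_le_sq h5 (by positivity)
    rw [hτ, div_le_div_iff₀ (by positivity) (by have := hM0 k; positivity)]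
    have h7 := hκ0 K
    rw [le_div_iff₀ h7] at h4
    have h8 := mul_le_mul_of_nonneg_left h4 hη0.le
    nlinarith
  have hκ31 : κ3 ≤ 1 := by
    rw [hκ3, div_le_one (by positivity)]
    have h4 : ρ * η ^ 2 ≤ 1 := mul_le_one₀ hρ1 (by positivity) hη2
    nlinarith [mul_nonneg (by linarith : (0 : ℝ) ≤ L - 2) h3.le]
  refine ⟨κ, M, d, τ, κ3, fun k => ⟨hκ0 k, hκ1 k⟩, by rw [hκ3]; positivity, hκ31, hτ0, hM0, ?_,
    hτM, ?_, hd0, hdz.le, ?_, ?_, ?_⟩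
  · intro k
    rw [hM]
    apply Real.sqrt_le_sqrt
    have h4 := hκ0 k
    have h5 : 1 ≤ 1 / κ k := by rw [le_div_iff₀ h4]; linarith [hκ1 k]
    have h6 : 4 * (1 + C1) / κ k = 4 * (1 / κ k + C1 / κ k) := by field_simp
    rw [h6]
    linarith
  · have h4 := hκ1 K
    rw [hτ, div_le_div_iff₀ (by positivity) (by norm_num)]
    have h5 : η * κ K ≤ η := mul_le_of_le_one_right hη0.le h4
    nlinarith [mul_nonneg hη0.le h1.le]
  · intro k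
    rcases k with _ | k
    · rw [hdz]; linarith
    · rw [hds, div_le_one (by positivity)]
      have h5 : η ^ 2 * κ k ≤ 1 := mul_le_one₀ hη2 (hκ0 k).le (hκ1 k)
      linarith
  · intro k
    rw [hds, div_pow, mul_pow, hMs]
    have h4 := hκ0 k
    apply le_of_eq
    field_simp
    ring
  · -- the sum
    have t0 : L * (C2 * (η * q ^ (K + 1) / (64 * L * C2 * (1 + C1)) * ρ ^ (K + 2)) / τ) =
        ρ / 16 := by
      rw [hτ, hκ]
      simp only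
      rw [mul_pow]
      field_simp
      ring
    have t1 : L * (C3 * κ3 / η ^ 2) ≤ ρ / 16 := by
      have e : L * (C3 * κ3 / η ^ 2) = C3 / (C3 + 1) * (ρ / 16) := by
        rw [hκ3]; field_simp
      rw [e]
      have h4 : C3 / (C3 + 1) ≤ 1 := by rw [div_le_one (by positivity)]; linarith
      exact mul_le_of_le_one_left (by positivity) h4
    have t2 : ∀ k ∈ range (K + 1), C1 * κ k / d k + C1 * κ k / d k ≤ ρ / (16 * L * (K + 1)) := by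
      intro k _
      have e1 : C1 * κ k / d k ≤ 80 * (1 + C1) ^ 2 * (ρ * q) / η ^ 2 := by
        rcases k with _ | k
        · rw [hdz, hκ]
          simp only
          rw [zero_add, pow_one, div_le_div_iff₀ (by positivity) (by positivity)]
          have h5 : C1 ≤ 4 * (1 + C1) ^ 2 := by nlinarith
          have h6 : 0 ≤ ρ * q * η ^ 2 := by positivity
          nlinarith [mul_le_mul_of_nonneg_right h5 h6]
        · rw [hds, hκs, div_le_div_iff₀ (by have := hκ0 k; positivity) (by positivity)]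
          have h4 := hκ0 k
          have h5 : C1 ≤ 1 + C1 := by linarith
          have h6 : 0 ≤ κ k * (ρ * q) * η ^ 2 * (1 + C1) := by positivity
          have h7 := mul_le_mul_of_nonneg_right h5 h6
          have e2 : 80 * (1 + C1) ^ 2 * (ρ * q) * (η ^ 2 * κ k / (80 * (1 + C1))) =
              (1 + C1) * (κ k * (ρ * q) * η ^ 2) := by
            field_simp
          rw [e2]
          have h8 : 0 ≤ κ k * (ρ * q) * η ^ 2 := by positivity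
          nlinarith [mul_le_mul_of_nonneg_right h5 h8]
      have e3 : 80 * (1 + C1) ^ 2 * (ρ * q) / η ^ 2 = ρ / (32 * L * (K + 1)) := by
        rw [hq]; field_simp; ring
      have e4 : ρ / (16 * L * (K + 1)) = ρ / (32 * L * (K + 1)) + ρ / (32 * L * (K + 1)) := by
        field_simp; ring
      rw [e4]
      linarith
    have t3 : L * ∑ k ∈ range (K + 1), (C1 * κ k / d k + C1 * κ k / d k) ≤ ρ / 16 := by
      have h4 := sum_le_sum t2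
      rw [sum_const, card_range, nsmul_eq_mul] at h4
      have h5 := mul_le_mul_of_nonneg_left h4 (by linarith : (0 : ℝ) ≤ L)
      refine h5.trans (le_of_eq ?_)
      push_cast
      field_simp
    calc _ = L * (C2 * (η * q ^ (K + 1) / (64 * L * C2 * (1 + C1)) * ρ ^ (K + 2)) / τ) +
          L * (C3 * κ3 / η ^ 2) +
          L * ∑ k ∈ range (K + 1), (C1 * κ k / d k + C1 * κ k / d k) := by ring
      _ ≤ _ := by linarith

theorem coreV (hS : SVV) (hM : MaH) (hE : ExG) (hR : RcH) : CoreV := by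
  classical
  intro ν hν0 hν
  obtain ⟨C1, hC1, hE⟩ := hE ν hν0 hν
  obtain ⟨C2, hC2, hR⟩ := hR
  obtain ⟨C3, hC3, hM⟩ := hM ν hν0 hν
  obtain ⟨η, hη⟩ : ∃ η : ℝ, η = ν / 100 := ⟨_, rfl⟩
  have hη0 : 0 < η := by rw [hη]; positivity
  have hη1 : η ≤ 1 / 10 := by rw [hη]; linarith
  obtain ⟨K, hK, hKo⟩ : ∃ K : ℕ, 8 / ν + 1 ≤ (K : ℝ) ∧ Odd K := by
    refine ⟨2 * ⌈8 / ν⌉₊ + 1, ?_, ⟨_, rfl⟩⟩
    have h1 : 8 / ν ≤ ⌈8 / ν⌉₊ := Nat.le_ceil _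
    have h2 : (0 : ℝ) ≤ ⌈8 / ν⌉₊ := Nat.cast_nonneg _
    push_cast
    linarith
  obtain ⟨c0, hc0, hcon⟩ := constsV hC1 hC2 hC3 hη0 hη1 K
  refine ⟨2 * K + 2, K + 2, c0, by omega, hc0, ?_⟩
  intro B ρ hB hρ0 hρ1
  obtain ⟨κ, M, d, τ, κ3, hκ, hκ30, hκ31, hτ0, hM0, hMs, hτM, hτη, hd0, hdz, hd1, hdM, hsum⟩ :=
    hcon ρ hρ0 hρ1
  obtain ⟨N0, hN0⟩ : ∃ N0 : ℕ, ∑ k ∈ range (K + 1), ∑ k' ∈ range (K + 1),
      (1 + C1 / κ k) * (1 + C1 / κ k') ≤ N0 := exists_nat_ge _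
  have hN0' : ∀ k ≤ K, ∀ k' ≤ K, (1 + C1 / κ k) * (1 + C1 / κ k') ≤ N0 := by
    intro k hk k' hk'
    refine le_trans ?_ hN0
    have hp : ∀ a b : ℕ, 0 ≤ (1 + C1 / κ a) * (1 + C1 / κ b) := by
      intro a b
      have := (hκ a).1
      have := (hκ b).1
      positivity
    refine le_trans ?_ (single_le_sum (f := fun k => ∑ k' ∈ range (K + 1),
      (1 + C1 / κ k) * (1 + C1 / κ k')) (fun a _ => sum_nonneg fun b _ => hp a b)
      (mem_range.2 (by omega : k < K + 1)))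
    exact single_le_sum (f := fun k' => (1 + C1 / κ k) * (1 + C1 / κ k')) (fun b _ => hp k b)
      (mem_range.2 (by omega : k' < K + 1))
  obtain ⟨X1, hX1⟩ := hS ν hν0 hν B N0 hB
  obtain ⟨X2, hX2⟩ := hM B κ3 hB hκ30 hκ31
  choose X3 hX3 using fun k : ℕ => hE B (κ k) hB (hκ k).1 (hκ k).2
  obtain ⟨X5, hX5⟩ := hR B hB
  obtain ⟨X6, hX6⟩ := hcore_big B hB
  refine ⟨κ3, hκ30, hκ31, max (max X1 X2) (max ((range (K + 1)).sup X3) (max X5 X6)),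
    fun X hX => ?_⟩
  simp only [max_le_iff] at hX
  obtain ⟨⟨g1, g2⟩, g3, g5, g6⟩ := hX
  have g3' : ∀ k ≤ K, X3 k ≤ X := fun k hk =>
    (le_sup (f := X3) (mem_range.2 (by omega : k < K + 1))).trans g3
  obtain ⟨hX3', hX7, hΔ, hL1⟩ := hX6 X g6
  intro n n' Q1 Q2 W hQ1 hQ2 hW hWK hNoH hn hn' hQ1X hQ2X hlcm hn6 hn9 hnn hpath hLC1 hLC2
  subst hW
  set W := Nat.gcd Q1 Q2 with hWdef
  set R := Nat.lcm Q1 Q2 with hRdef
  have hXr : (0 : ℝ) < X := by exact_mod_cast (by omega : 0 < X)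
  have hX1r : (1 : ℝ) ≤ X := by exact_mod_cast (by omega : 1 ≤ X)
  have hWp : 1 ≤ W := Nat.gcd_pos_of_pos_left _ hQ1
  have hRp : 1 ≤ R := Nat.lcm_pos hQ1 hQ2
  have hWQ1 : W ∣ Q1 := Nat.gcd_dvd_left _ _
  have hWQ2 : W ∣ Q2 := Nat.gcd_dvd_right _ _
  have hQR1 : Q1 ∣ R := Nat.dvd_lcm_left _ _
  have hQR2 : Q2 ∣ R := Nat.dvd_lcm_right _ _
  have hWR : W ∣ R := hWQ1.trans hQR1
  have hRX : R ≤ X := by
    have h1 : (R : ℝ) ≤ X := hlcm.trans (by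
      calc (X : ℝ) ^ (1 - ν) ≤ (X : ℝ) ^ (1 : ℝ) :=
            Real.rpow_le_rpow_of_exponent_le hX1r (by linarith)
        _ = X := Real.rpow_one _)
    exact_mod_cast h1
  have hEx1 : ∀ k : ℕ, ∃ E : Finset (DirichletCharacter ℂ Q1), k ≤ K → (1 ∈ E ∧
      (E.card : ℝ) ≤ 1 + C1 / κ k ∧ Ineq W E ∧ ∀ y₀ σ : ℝ, (σ = 1 ∨ σ = -1) →
      ∑ j ∈ JW X (Dl B X), ∑ c ∈ range W,
        DD X (Dl B X) R W Q1 E (y₀ + σ * (j * Dl B X / 2)) (c : ZMod W) ≤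
          C1 * κ k * Nat.totient W * (X / Dl B X)) := by
    intro k
    by_cases hk : k ≤ K
    · obtain ⟨E, hE⟩ := hX3 k X (g3' k hk) R W Q1 hRp hRX hWQ1 hQR1 hQ1X
      exact ⟨E, fun _ => hE⟩
    · exact ⟨∅, fun h => absurd h hk⟩
  have hEx2 : ∀ k : ℕ, ∃ E : Finset (DirichletCharacter ℂ Q2), k ≤ K → (1 ∈ E ∧
      (E.card : ℝ) ≤ 1 + C1 / κ k ∧ Ineq W E ∧ ∀ y₀ σ : ℝ, (σ = 1 ∨ σ = -1) →
      ∑ j ∈ JW X (Dl B X), ∑ c ∈ range W,
        DD X (Dl B X) R W Q2 E (y₀ + σ * (j * Dl B X / 2)) (c : ZMod W) ≤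
          C1 * κ k * Nat.totient W * (X / Dl B X)) := by
    intro k
    by_cases hk : k ≤ K
    · obtain ⟨E, hE⟩ := hX3 k X (g3' k hk) R W Q2 hRp hRX hWQ2 hQR2 hQ2X
      exact ⟨E, fun _ => hE⟩
    · exact ⟨∅, fun h => absurd h hk⟩
  choose E1 hE1 using hEx1
  choose E2 hE2 using hEx2
  have hs : 0 < sw X (Dl B X) W := by
    unfold sw
    have : (0 : ℝ) < (Nat.totient W : ℝ) := by exact_mod_cast Nat.totient_pos.2 hWp
    have : 0 < Real.log X := by linarith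
    positivity
  have hNN : ∀ k ≤ K, ∀ k' ≤ K, (E1 k).card * (E2 k').card ≤ N0 := by
    intro k hk k' hk'
    have h1 : ((E1 k).card : ℝ) * (E2 k').card ≤ N0 :=
      (mul_le_mul (hE1 k hk).2.1 (hE2 k' hk').2.1 (by positivity) (by
        have := (hκ k).1; positivity)).trans (hN0' k hk k' hk')
    exact_mod_cast h1
  have hMc1 : ∀ k ≤ K, Real.sqrt (4 * ((E1 k).card : ℝ)) ≤ M k := fun k hk =>
    (Real.sqrt_le_sqrt (by linarith [(hE1 k hk).2.1])).trans (hMs k)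
  have hMc2 : ∀ k ≤ K, Real.sqrt (4 * ((E2 k).card : ℝ)) ≤ M k := fun k hk =>
    (Real.sqrt_le_sqrt (by linarith [(hE2 k hk).2.1])).trans (hMs k)
  -- the windows
  have hwin : ∀ y : ℝ, (X : ℝ) / 20 ≤ y → y ≤ 9 / 10 * X →
      SvW X (Dl B X) Q1 Q2 (4 - ν) y N0 := by
    intro y hy1 hy2 c Γ hΓ hI t
    exact hX1 X g1 R W hRp hlcm hWR hWK c y hy1 (by linarith) Γ hΓ hI t
  -- the sums
  have hA1 : 0 < (Nat.totient W : ℝ) * (X / Dl B X) := by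
    have : (0 : ℝ) < (Nat.totient W : ℝ) := by exact_mod_cast Nat.totient_pos.2 hWp
    positivity
  have hP : PSet W n n' (2 * K + 2) ⊆ range W := filter_subset _ _
  have hlam : 0 ≤ c0 * ρ ^ (K + 2) := by positivity
  have sR1 : ∀ t : ℝ, ∑ j ∈ JW X (Dl B X), ∑ c ∈ range W,
      RC X (Dl B X) R W Q1 n (t + j * Dl B X / 2) (n - t - j * Dl B X / 2) (c : ZMod W) ≤
      C2 * (c0 * ρ ^ (K + 2)) * (Nat.totient W * (X / Dl B X)) := fun t =>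
    RC_sumV hC2.le hΔ hX3' hQ1 hWp (hX5 X g5 R W Q1 n hQ1 hWQ1 hWp t) hLC1 hlam
  have sR2 : ∀ t : ℝ, ∑ j ∈ JW X (Dl B X), ∑ c ∈ range W,
      RC X (Dl B X) R W Q2 n' (t + j * Dl B X / 2) (n' - t - j * Dl B X / 2) (c : ZMod W) ≤
      C2 * (c0 * ρ ^ (K + 2)) * (Nat.totient W * (X / Dl B X)) := fun t =>
    RC_sumV hC2.le hΔ hX3' hQ2 hWp (hX5 X g5 R W Q2 n' hQ2 hWQ2 hWp t) hLC2 hlam
  have hWX : (W : ℝ) ≤ (X : ℝ) ^ (2 / 3 - ν) :=
    hWK.trans (Real.rpow_le_rpow_of_exponent_le hX1r (by linarith))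
  obtain ⟨j, hj, c, hc, hsel⟩ := selV (JH X (Dl B X)) (PSet W n n' (2 * K + 2)) (2 * K + 2) K
    (fun i j c => RCe X (Dl B X) R W Q1 Q2 n n' (j * Dl B X / 2) (c : ZMod W) i)
    (fun i j c => Dv X (Dl B X) R W (vtx (n : ℝ) (n' : ℝ) (j * Dl B X / 2) i)
        (vtx (n : ZMod W) (n' : ZMod W) (c : ZMod W) i))
    (fun i k j c => DD X (Dl B X) R W Q1 (E1 k) (vtx (n : ℝ) (n' : ℝ) (j * Dl B X / 2) i)
        (vtx (n : ZMod W) (n' : ZMod W) (c : ZMod W) i))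
    (fun i k j c => DD X (Dl B X) R W Q2 (E2 k) (vtx (n : ℝ) (n' : ℝ) (j * Dl B X / 2) i)
        (vtx (n : ZMod W) (n' : ZMod W) (c : ZMod W) i))
    τ (η ^ 2) (C2 * (c0 * ρ ^ (K + 2)) * (Nat.totient W * (X / Dl B X)))
    (C3 * κ3 * Nat.totient W * (X / Dl B X)) d
    (fun k => C1 * κ k * Nat.totient W * (X / Dl B X)) hτ0 (by positivity) (fun k _ => hd0 k)
    (fun i j c => RCe_nonneg _ _ _ _ _ _ _ _ _ _)
    (fun i j c => Dv_nonneg _ _ _ _ _ _)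
    (fun i k j c => DD_nonneg _ _ _ _ _ _ _ _)
    (fun i k j c => DD_nonneg _ _ _ _ _ _ _ _)
    (fun i _ => RCe_sum hP hWp hWQ2 sR1 sR2 i)
    (fun i hi => Dve_sum hP hWp hn6 hn9 hnn
      (hX2 X g2 R W hRp hRX hWR hWX hNoH) hi.le)
    (fun i _ k hk => DDe_sum hP hWp (E1 k) (hE1 k hk).2.2.2 i)
    (fun i _ k hk => DDe_sum hP hWp (E2 k) (hE2 k hk).2.2.2 i)
    (by
      have b1 := card_JH hΔ hX7
      have b2 : 1 / 4 * ((X : ℝ) / Dl B X) * (ρ * Nat.totient W) ≤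
          ((JH X (Dl B X)).card : ℝ) * ((PSet W n n' (2 * K + 2)).card : ℝ) :=
        mul_le_mul b1 hpath (by positivity) (by positivity)
      refine lt_of_lt_of_le ?_ b2
      have b3 := mul_le_mul_of_nonneg_right hsum hA1.le
      have b4 : 3 * ρ / 16 * ((Nat.totient W : ℝ) * (X / Dl B X)) <
          1 / 4 * ((X : ℝ) / Dl B X) * (ρ * Nat.totient W) := by
        have h1 : 0 < ρ * ((Nat.totient W : ℝ) * (X / Dl B X)) := mul_pos hρ0 hA1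
        nlinarith
      refine lt_of_le_of_lt (le_of_eq ?_) (lt_of_le_of_lt b3 b4)
      have e : ∀ k ∈ range (K + 1), C1 * κ k * Nat.totient W * (X / Dl B X) / d k +
          C1 * κ k * Nat.totient W * (X / Dl B X) / d k =
          (C1 * κ k / d k + C1 * κ k / d k) * (Nat.totient W * (X / Dl B X)) := by
        intro k _
        ring
      rw [sum_congr rfl e, ← sum_mul]
      ring)
  have hcu : ∀ i < 2 * K + 2, IsUnit (vtx (n : ZMod W) (n' : ZMod W) (c : ZMod W) i) := by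
    unfold PSet at hc
    exact (mem_filter.1 hc).2
  have hjj : 35 / 100 * (X : ℝ) ≤ j * Dl B X / 2 ∧ j * Dl B X / 2 ≤ (X : ℝ) / 2 := by
    unfold JH JW at hj
    rw [mem_filter, mem_filter] at hj
    exact ⟨hj.2, hj.1.2.2⟩
  refine core_ptV (τ := τ) (N0 := N0) hX3' hΔ hQ1 hQ2 hs hν0 hν hη K hK hKo E1 E2
    (fun k hk => ⟨(hE1 k hk).2.2.1, (hE1 k hk).1⟩) (fun k hk => ⟨(hE2 k hk).2.2.1, (hE2 k hk).1⟩)
    hNN hn hn' (fun i => vtx (n : ℝ) (n' : ℝ) (j * Dl B X / 2) i)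
    (fun i => vtx (n : ZMod W) (n' : ZMod W) (c : ZMod W) i) (fun i => vtx_succ _ _ _ i) hcu
    (fun i hi => ?_) (fun i hi => ms_of_dv hη0.le hs _ (hcu i hi) (hsel i hi).2.1) M hMc1 hMc2
    (fun k _ => hM0 k) hτM hτη (fun i hi he => ?_) (fun i hi ho => ?_) d hdz
    (fun k _ => hd1 k) (fun k _ => hdM k) (fun i hi k hk => ((hsel i hi).2.2 k hk).1)
    (fun i hi k hk => ((hsel i hi).2.2 k hk).2)
  · have h1 := vtx_range (Nat.cast_nonneg X) hi.le hn6 hn9 hnn hjj.1 hjj.2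
    exact hwin _ h1.1 h1.2
  · have h1 := (hsel i (by omega)).1
    unfold RCe at h1
    rw [if_pos he] at h1
    exact h1
  · have h1 := (hsel i (by omega)).1
    unfold RCe at h1
    rw [if_neg (Nat.not_even_iff_odd.2 ho)] at h1
    exact h1

end Pool.MP_dd84fd_nt.TC
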