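import Pool.Agent.Lib.MP_dd84fd_nt.TC.HCoreA
import Pool.Agent.Lib.MP_dd84fd_nt.TC.HDefs

/-!
# TC-HCore: two failures at any distance contradict each other, `CoreH` (helper45)

Selection of a window and of a path of classes by averaging, then `hcore_pt`.  The centres are
`y_j`, `n - y_j`, `n' - y_j`, `y_j + (n - n')`, `35/100 X ≤ y_j ≤ X/2`.
-/

set_option autoImplicit false

namespace Pool.MP_dd84fd_nt.TC

open Finset Pool.MP_67663b_nt.Odd Pool.MP_dd84fd_nt.En Pool.MP_dd84fd_nt.E2 Pool.MP_dd84fd_nt.LS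
open Pool.MP_dd84fd_nt.GX Pool.MP_dd84fd_nt.HX Pool.MP_dd84fd_nt.IX
open Pool.MP_dd84fd_nt.BX (PC pv IsPC PR SX sN prc ind)

/-- the windows with `35/100 X ≤ j Δ/2 ≤ X/2` -/
noncomputable def JH (X : ℕ) (Δ : ℝ) : Finset ℕ :=
  (JW X Δ).filter (fun j => 35 / 100 * (X : ℝ) ≤ j * Δ / 2)

/-- the number of windows -/
theorem card_JH {X : ℕ} {Δ : ℝ} (hΔ : 0 < Δ) (h : 20 ≤ (X : ℝ) / Δ) :
    1 / 4 * ((X : ℝ) / Δ) ≤ ((JH X Δ).card : ℝ) := by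
  classical
  have hX0 : (0 : ℝ) ≤ X := Nat.cast_nonneg X
  have h1 : Icc ⌈7 / 10 * ((X : ℝ) / Δ)⌉₊ ⌊(X : ℝ) / Δ⌋₊ ⊆ JH X Δ := by
    intro j hj
    rw [mem_Icc] at hj
    unfold JH JW
    rw [mem_filter, mem_filter, mem_range]
    have a1 : 7 / 10 * ((X : ℝ) / Δ) ≤ j := (Nat.le_ceil _).trans (by exact_mod_cast hj.1)
    have a2 : (j : ℝ) ≤ X / Δ := (by exact_mod_cast hj.2 : (j : ℝ) ≤ ⌊(X : ℝ) / Δ⌋₊).trans
      (Nat.floor_le (by positivity))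
    have a4 : 7 / 10 * (X : ℝ) ≤ j * Δ := by
      have : 7 / 10 * ((X : ℝ) / Δ) = (7 / 10 * X) / Δ := by ring
      rw [this, div_le_iff₀ hΔ] at a1
      exact a1
    rw [le_div_iff₀ hΔ] at a2
    refine ⟨⟨?_, ?_, ?_⟩, ?_⟩
    · have a3 : ⌊(X : ℝ) / Δ⌋₊ ≤ ⌈(X : ℝ) / Δ⌉₊ := Nat.floor_le_ceil _
      omega
    · linarith
    · linarith
    · linarith
  have h2 := card_le_card h1
  rw [Nat.card_Icc] at h2
  have h3 : ((⌊(X : ℝ) / Δ⌋₊ + 1 - ⌈7 / 10 * ((X : ℝ) / Δ)⌉₊ : ℕ) : ℝ) ≤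
      ((JH X Δ).card : ℝ) := by
    exact_mod_cast h2
  have h4 : (X : ℝ) / Δ < ⌊(X : ℝ) / Δ⌋₊ + 1 := Nat.lt_floor_add_one _
  have h5 : (⌈7 / 10 * ((X : ℝ) / Δ)⌉₊ : ℝ) < 7 / 10 * (X / Δ) + 1 :=
    Nat.ceil_lt_add_one (by positivity)
  have h8 := le_tsub_add (a := ⌈7 / 10 * ((X : ℝ) / Δ)⌉₊) (b := ⌊(X : ℝ) / Δ⌋₊ + 1)
  have h9 : ((⌊(X : ℝ) / Δ⌋₊ : ℝ) + 1) ≤
    ((⌊(X : ℝ) / Δ⌋₊ + 1 - ⌈7 / 10 * ((X : ℝ) / Δ)⌉₊ : ℕ) : ℝ) +
      ⌈7 / 10 * ((X : ℝ) / Δ)⌉₊ := by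
    exact_mod_cast h8
  linarith

theorem JH_sub (X : ℕ) (Δ : ℝ) : JH X Δ ⊆ JW X Δ := filter_subset _ _

theorem hcore_big (B : ℕ) (hB : 1 ≤ B) : ∃ X0 : ℕ, ∀ X : ℕ, X0 ≤ X → 3 ≤ X ∧
    20 ≤ (X : ℝ) / Dl B X ∧ 0 < Dl B X ∧ 1 ≤ Real.log X := by
  have h4 : ∀ᶠ X : ℕ in Filter.atTop, Real.exp 5 ≤ (X : ℝ) :=
    tendsto_natCast_atTop_atTop.eventually (Filter.eventually_ge_atTop (Real.exp 5))
  obtain ⟨X0, hX0⟩ := Filter.eventually_atTop.1 (h4.and (Filter.eventually_ge_atTop 3))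
  refine ⟨X0, fun X hX => ?_⟩
  obtain ⟨a2, a3⟩ := hX0 X hX
  have hXp : (0 : ℝ) < X := (Real.exp_pos 5).trans_le a2
  have hL : 5 ≤ Real.log X := by
    have := Real.log_le_log (Real.exp_pos 5) a2
    rwa [Real.log_exp] at this
  have hL0 : 0 < Real.log X := by linarith
  have hLB : 0 < (Real.log X) ^ B := pow_pos hL0 B
  refine ⟨a3, ?_, ?_, by linarith⟩
  · have e : (X : ℝ) / Dl B X = 4 * (Real.log X) ^ B := by unfold Dl; field_simp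
    rw [e]
    have h5 : (5 : ℝ) ≤ (Real.log X) ^ B := by
      calc (5 : ℝ) = 5 ^ 1 := by norm_num
        _ ≤ (Real.log X) ^ 1 := pow_le_pow_left₀ (by norm_num) hL 1
        _ ≤ (Real.log X) ^ B := pow_le_pow_right₀ (by linarith) hB
    linarith
  · unfold Dl; positivity

theorem RC_sumH {X n R W Q B : ℕ} {C2 c0 ρ t : ℝ} (hC2 : 0 ≤ C2) (hΔ : 0 < Dl B X) (hX : 3 ≤ X)
    (hQ : 1 ≤ Q) (hW : 1 ≤ W)
    (hR : ∑ j ∈ JW X (Dl B X), ∑ c ∈ range W,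
      RC X (Dl B X) R W Q n (t + j * Dl B X / 2) (n - t - j * Dl B X / 2) (c : ZMod W) ≤
      C2 * ((Nat.totient Q : ℝ) / ((Nat.totient W : ℝ) * (sw X (Dl B X) W) ^ 2)) *
      LC X (Dl B X) n Q) (hLC : LC X (Dl B X) n Q ≤ c0 * ρ ^ 2 * LM X (Dl B X) n Q)
    (hc : 0 ≤ c0 * ρ ^ 2) :
    ∑ j ∈ JW X (Dl B X), ∑ c ∈ range W,
      RC X (Dl B X) R W Q n (t + j * Dl B X / 2) (n - t - j * Dl B X / 2) (c : ZMod W) ≤
      C2 * (c0 * ρ ^ 2) * (Nat.totient W * (X / Dl B X)) := by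
  have h1 := lm_norm (n := n) hΔ hX hQ hW
  have hco : 0 ≤ (Nat.totient Q : ℝ) / ((Nat.totient W : ℝ) * (sw X (Dl B X) W) ^ 2) := by
    positivity
  refine hR.trans ?_
  calc _ ≤ C2 * ((Nat.totient Q : ℝ) / ((Nat.totient W : ℝ) * (sw X (Dl B X) W) ^ 2)) *
        (c0 * ρ ^ 2 * LM X (Dl B X) n Q) := mul_le_mul_of_nonneg_left hLC (by positivity)
    _ = C2 * (c0 * ρ ^ 2) * ((Nat.totient Q : ℝ) /
        ((Nat.totient W : ℝ) * (sw X (Dl B X) W) ^ 2) * LM X (Dl B X) n Q) := by ring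
    _ ≤ _ := mul_le_mul_of_nonneg_left h1 (by positivity)

theorem coreH (hS : SVG) (hM : MaH) (hE : ExG) (hR : RcH) : CoreH := by
  classical
  intro ν hν0 hν
  obtain ⟨C1, hC1, hE⟩ := hE ν hν0 hν
  obtain ⟨C2, hC2, hR⟩ := hR
  obtain ⟨C3, hC3, hM⟩ := hM ν hν0 hν
  obtain ⟨η, hη⟩ : ∃ η : ℝ, η = ν / 30 := ⟨_, rfl⟩
  have hη0 : 0 < η := by rw [hη]; positivity
  have hη1 : η ≤ 1 / 10 := by rw [hη]; linarith
  refine ⟨η ^ 2 / (1280 * C2 * (C1 + 1)) / 16, by positivity, ?_⟩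
  intro B ρ' hB hρ0' hρ1'
  obtain ⟨ρ, hρ⟩ : ∃ ρ : ℝ, ρ = ρ' / 4 := ⟨_, rfl⟩
  have hρ0 : 0 < ρ := by rw [hρ]; linarith
  have hρ1 : ρ ≤ 1 := by rw [hρ]; linarith
  obtain ⟨κ1, κ2, M, hκ10, hκ11, hκ20, hκ21, hM0, hMs, hd11, hcon⟩ :=
    consts hC1 hC2 hη0 hη1 hρ0 hρ1
  obtain ⟨N0, hN0⟩ : ∃ N0 : ℕ, (1 + C1 / κ1) * (1 + C1 / κ2) ≤ N0 := exists_nat_ge _
  obtain ⟨κ3, hκ3⟩ : ∃ κ3 : ℝ, κ3 = ρ * η ^ 2 / (32 * (C3 + 1)) := ⟨_, rfl⟩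
  have hκ30 : 0 < κ3 := by rw [hκ3]; positivity
  have hη2' : η ^ 2 ≤ 1 := by nlinarith
  have hκ31 : κ3 ≤ 1 := by
    rw [hκ3, div_le_one (by positivity)]
    nlinarith [mul_le_mul hρ1 hη2' (by positivity) (by norm_num : (0 : ℝ) ≤ 1)]
  have hcon3 : 4 * (C3 * κ3) / η ^ 2 ≤ ρ / 8 := by
    have : 4 * (C3 * κ3) / η ^ 2 = C3 / (C3 + 1) * (ρ / 8) := by
      rw [hκ3]; field_simp; ring
    rw [this]
    have h3 : C3 / (C3 + 1) ≤ 1 := by rw [div_le_one (by positivity)]; linarith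
    exact mul_le_of_le_one_left (by positivity) h3
  obtain ⟨X1, hX1⟩ := hS ν hν0 hν B N0 hB
  obtain ⟨X2, hX2⟩ := hM B κ3 hB hκ30 hκ31
  obtain ⟨X3, hX3⟩ := hE B κ1 hB hκ10 hκ11
  obtain ⟨X4, hX4⟩ := hE B κ2 hB hκ20 hκ21
  obtain ⟨X5, hX5⟩ := hR B hB
  obtain ⟨X6, hX6⟩ := hcore_big B hB
  refine ⟨κ3, hκ30, hκ31, max (max X1 X2) (max (max X3 X4) (max X5 X6)), fun X hX => ?_⟩
  simp only [max_le_iff] at hX
  obtain ⟨⟨g1, g2⟩, ⟨g3, g4⟩, g5, g6⟩ := hX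
  obtain ⟨hX3', hX7, hΔ, hL1⟩ := hX6 X g6
  intro n n' Q1 Q2 W hQ1 hQ2 hW hWK hNoH hn hn' hlcm hn6 hn9 hn6' hn9' hpath hLC1 hLC2
  subst hW
  set W := Nat.gcd Q1 Q2 with hWdef
  set R := Nat.lcm Q1 Q2 with hRdef
  have hXr : (0 : ℝ) < X := by exact_mod_cast (by omega : 0 < X)
  have hX1r : (1 : ℝ) ≤ X := by exact_mod_cast (by omega : 1 ≤ X)
  have hWp : 1 ≤ W := Nat.gcd_pos_of_pos_left _ hQ1
  have hRp : 1 ≤ R := Nat.lcm_pos hQ1 hQ2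
  have hWQ1 : W ∣ Q1 := Nat.gcd_dvd_left _ _
  have hWQ2 : W ∣ Q2 := Nat.gcd_dvd_right _ _
  have hQR1 : Q1 ∣ R := Nat.dvd_lcm_left _ _
  have hQR2 : Q2 ∣ R := Nat.dvd_lcm_right _ _
  have hWR : W ∣ R := hWQ1.trans hQR1
  have hRX : R ≤ X := by
    have h1 : (R : ℝ) ≤ X := hlcm.trans (by
      calc (X : ℝ) ^ (2 / 3 - ν) ≤ (X : ℝ) ^ (1 : ℝ) :=
            Real.rpow_le_rpow_of_exponent_le hX1r (by linarith)
        _ = X := Real.rpow_one _)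
    exact_mod_cast h1
  have hQ1X : (Q1 : ℝ) ≤ (X : ℝ) ^ (2 / 3 - ν) :=
    le_trans (by exact_mod_cast Nat.le_of_dvd hRp hQR1) hlcm
  have hQ2X : (Q2 : ℝ) ≤ (X : ℝ) ^ (2 / 3 - ν) :=
    le_trans (by exact_mod_cast Nat.le_of_dvd hRp hQR2) hlcm
  obtain ⟨E1, ho1, hcard1, hI1, hD1⟩ := hX3 X g3 R W Q1 hRp hRX hWQ1 hQR1 hQ1X
  obtain ⟨E2, ho2, hcard2, hI2, hD2⟩ := hX4 X g4 R W Q2 hRp hRX hWQ2 hQR2 hQ2X
  have hs : 0 < sw X (Dl B X) W := by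
    unfold sw
    have : (0 : ℝ) < (Nat.totient W : ℝ) := by exact_mod_cast Nat.totient_pos.2 hWp
    have : 0 < Real.log X := by linarith
    positivity
  have hNN : E1.card * E2.card ≤ N0 := by
    have h1 : (E1.card : ℝ) * E2.card ≤ N0 :=
      (mul_le_mul hcard1 hcard2 (by positivity) (by positivity)).trans hN0
    exact_mod_cast h1
  have hMc : Real.sqrt (4 * (E2.card : ℝ)) ≤ M :=
    (Real.sqrt_le_sqrt (by linarith)).trans hMs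
  -- the windows
  have hwin : ∀ y : ℝ, (X : ℝ) / 20 ≤ y → y ≤ 9 / 10 * X →
      SvW X (Dl B X) Q1 Q2 (3 - ν) y N0 := by
    intro y hy1 hy2 c Γ hΓ hI t
    exact hX1 X g1 R W hRp hlcm hWR hWK c y hy1 (by linarith) Γ hΓ hI t
  -- the sums
  have hA0 : 0 ≤ (Nat.totient W : ℝ) * (X / Dl B X) := by positivity
  have hc0 : 0 ≤ η ^ 2 / (1280 * C2 * (C1 + 1)) * ρ ^ 2 := by positivity
  have hP : PathSet W n n' ⊆ range W := filter_subset _ _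
  have hLC1' : LC X (Dl B X) n Q1 ≤
      η ^ 2 / (1280 * C2 * (C1 + 1)) * ρ ^ 2 * LM X (Dl B X) n Q1 := by
    refine hLC1.trans (le_of_eq ?_)
    rw [hρ]; ring
  have hLC2' : LC X (Dl B X) n' Q2 ≤
      η ^ 2 / (1280 * C2 * (C1 + 1)) * ρ ^ 2 * LM X (Dl B X) n' Q2 := by
    refine hLC2.trans (le_of_eq ?_)
    rw [hρ]; ring
  have sR1 := RC_sumH (t := 0) hC2.le hΔ hX3' hQ1 hWp (hX5 X g5 R W Q1 n hQ1 hWQ1 hWp 0) hLC1' hc0
  have sR3 := RC_sumH (t := (n : ℝ) - n') hC2.le hΔ hX3' hQ1 hWp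
    (hX5 X g5 R W Q1 n hQ1 hWQ1 hWp ((n : ℝ) - n')) hLC1' hc0
  have sR2 := RC_sumH (t := 0) hC2.le hΔ hX3' hQ2 hWp
    (hX5 X g5 R W Q2 n' hQ2 hWQ2 hWp 0) hLC2' hc0
  have sD1 := hD1 0 1 (Or.inl rfl)
  have sD0 := hD1 n (-1) (Or.inr rfl)
  have sD2' := hD1 n' (-1) (Or.inr rfl)
  have sD3 := hD1 ((n : ℝ) - n') 1 (Or.inl rfl)
  have sG1 := hD2 0 1 (Or.inl rfl)
  have sG2 := hD2 n' (-1) (Or.inr rfl)
  have hWX : (W : ℝ) ≤ (X : ℝ) ^ (2 / 3 - ν) :=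
    hWK.trans (Real.rpow_le_rpow_of_exponent_le hX1r (by linarith))
  have hjr : ∀ j ∈ JH X (Dl B X), 35 / 100 * (X : ℝ) ≤ j * Dl B X / 2 ∧
      j * Dl B X / 2 ≤ (X : ℝ) / 2 := by
    intro j hj
    unfold JH JW at hj
    rw [mem_filter, mem_filter] at hj
    exact ⟨hj.2, hj.1.2.2⟩
  have sM1 := hX2 X g2 R W hRp hRX hWR hWX hNoH 0 1 (Or.inl rfl) _ (JH_sub X (Dl B X)) (by
    intro j hj
    have := hjr j hj
    constructor <;> linarith [this.1, this.2])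
  have sM0 := hX2 X g2 R W hRp hRX hWR hWX hNoH n (-1) (Or.inr rfl) _ (JH_sub X (Dl B X)) (by
    intro j hj
    have := hjr j hj
    constructor <;> linarith [this.1, this.2])
  have sM2 := hX2 X g2 R W hRp hRX hWR hWX hNoH n' (-1) (Or.inr rfl) _ (JH_sub X (Dl B X)) (by
    intro j hj
    have := hjr j hj
    constructor <;> linarith [this.1, this.2])
  have sM3 := hX2 X g2 R W hRp hRX hWR hWX hNoH ((n : ℝ) - n') 1 (Or.inl rfl) _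
    (JH_sub X (Dl B X)) (by
    intro j hj
    have := hjr j hj
    constructor <;> linarith [this.1, this.2])
  have hneg : ∀ (a : ℝ) (j : ℕ), a + -1 * (j * Dl B X / 2) = a - j * Dl B X / 2 :=
    fun a j => by ring
  have hpos : ∀ (a : ℝ) (j : ℕ), a + 1 * (j * Dl B X / 2) = a + j * Dl B X / 2 :=
    fun a j => by ring
  have hnn : ∀ j : ℕ, (n : ℝ) - (n - n') - j * Dl B X / 2 = n' - j * Dl B X / 2 :=
    fun j => by ring
  simp only [hneg, hpos, zero_add] at sD1 sD0 sD2' sD3 sG1 sG2 sM1 sM0 sM2 sM3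
  simp only [zero_add, sub_zero] at sR1 sR2
  simp only [hnn] at sR3
  obtain ⟨f0, hf0⟩ : ∃ f0 : ZMod W → ZMod W, f0 = fun c => (n : ZMod W) - c := ⟨_, rfl⟩
  obtain ⟨f2, hf2⟩ : ∃ f2 : ZMod W → ZMod W, f2 = fun c => (n' : ZMod W) - c := ⟨_, rfl⟩
  obtain ⟨f3, hf3⟩ : ∃ f3 : ZMod W → ZMod W, f3 = fun c => (n : ZMod W) - ((n' : ZMod W) - c) :=
    ⟨_, rfl⟩
  have if0 : Function.Injective f0 := by rw [hf0]; intro a b h; simpa using h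
  have if2 : Function.Injective f2 := by rw [hf2]; intro a b h; simpa using h
  have if3 : Function.Injective f3 := by rw [hf3]; intro a b h; simpa using h
  have iid : Function.Injective (fun c : ZMod W => c) := fun a b h => h
  have hRCn : ∀ (Q m : ℕ) (y₁ y₂ : ℝ) (z : ZMod W), 0 ≤ RC X (Dl B X) R W Q m y₁ y₂ z :=
    fun Q m y₁ y₂ z => RC_nonneg _ _ _ _ _ _ _ _ _
  have hDDn : ∀ (Q : ℕ) (E : Finset (DirichletCharacter ℂ Q)) (y : ℝ) (z : ZMod W),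
    0 ≤ DD X (Dl B X) R W Q E y z := fun Q E y z => DD_nonneg _ _ _ _ _ _ _ _
  have key : ∀ (g : ℕ → ZMod W → ℝ) (b : ℝ) (f : ZMod W → ZMod W), (∀ j z, 0 ≤ g j z) →
      Function.Injective f → ∑ j ∈ JH X (Dl B X), ∑ c ∈ range W, g j (c : ZMod W) ≤ b →
      ∑ j ∈ JH X (Dl B X), ∑ c ∈ PathSet W n n', g j (f (c : ZMod W)) ≤ b := by
    intro g b f hg hf hb
    exact (sum_le_sum fun j _ => sum_path hWp _ hP (g j) (hg j) f hf).trans hb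
  have kJ : ∀ (g : ℕ → ZMod W → ℝ) (b : ℝ) (f : ZMod W → ZMod W), (∀ j z, 0 ≤ g j z) →
      Function.Injective f → ∑ j ∈ JW X (Dl B X), ∑ c ∈ range W, g j (c : ZMod W) ≤ b →
      ∑ j ∈ JH X (Dl B X), ∑ c ∈ PathSet W n n', g j (f (c : ZMod W)) ≤ b := by
    intro g b f hg hf hb
    exact key g b f hg hf ((sum_le_sum_of_subset_of_nonneg (JH_sub X (Dl B X))
      fun j _ _ => sum_nonneg fun c _ => hg j _).trans hb)
  have hη2 : 0 < η / (2 * M) := by positivity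
  have w1 := kJ (fun j z => RC X (Dl B X) R W Q1 n (j * Dl B X / 2) (n - j * Dl B X / 2) z) _
    (fun c => c) (fun j z => hRCn _ _ _ _ _) iid sR1
  have w3 := kJ (fun j z => RC X (Dl B X) R W Q1 n ((n : ℝ) - n' + j * Dl B X / 2)
    (n' - j * Dl B X / 2) z) _
    f3 (fun j z => hRCn _ _ _ _ _) if3 sR3
  have w2 := kJ (fun j z => RC X (Dl B X) R W Q2 n' (j * Dl B X / 2) (n' - j * Dl B X / 2) z) _
    (fun c => c) (fun j z => hRCn _ _ _ _ _) iid sR2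
  have x0 := kJ (fun j z => DD X (Dl B X) R W Q1 E1 (n - j * Dl B X / 2) z) _ f0
    (fun j z => hDDn _ _ _ _) if0 sD0
  have x1 := kJ (fun j z => DD X (Dl B X) R W Q1 E1 (j * Dl B X / 2) z) _ (fun c => c)
    (fun j z => hDDn _ _ _ _) iid sD1
  have x2 := kJ (fun j z => DD X (Dl B X) R W Q1 E1 (n' - j * Dl B X / 2) z) _ f2
    (fun j z => hDDn _ _ _ _) if2 sD2'
  have x3 := kJ (fun j z => DD X (Dl B X) R W Q1 E1 ((n : ℝ) - n' + j * Dl B X / 2) z) _ f3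
    (fun j z => hDDn _ _ _ _) if3 sD3
  have z1 := kJ (fun j z => DD X (Dl B X) R W Q2 E2 (j * Dl B X / 2) z) _ (fun c => c)
    (fun j z => hDDn _ _ _ _) iid sG1
  have z2 := kJ (fun j z => DD X (Dl B X) R W Q2 E2 (n' - j * Dl B X / 2) z) _ f2
    (fun j z => hDDn _ _ _ _) if2 sG2
  have hDvn : ∀ (y : ℝ) (z : ZMod W), 0 ≤ Dv X (Dl B X) R W y z :=
    fun y z => Dv_nonneg _ _ _ _ _ _
  have y1 := key (fun j z => Dv X (Dl B X) R W (j * Dl B X / 2) z) _ (fun c => c)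
    (fun j z => hDvn _ _) iid sM1
  have y0 := key (fun j z => Dv X (Dl B X) R W (n - j * Dl B X / 2) z) _ f0
    (fun j z => hDvn _ _) if0 sM0
  have y2 := key (fun j z => Dv X (Dl B X) R W (n' - j * Dl B X / 2) z) _ f2
    (fun j z => hDvn _ _) if2 sM2
  have y3 := key (fun j z => Dv X (Dl B X) R W ((n : ℝ) - n' + j * Dl B X / 2) z) _ f3
    (fun j z => hDvn _ _) if3 sM3
  have yy : ∑ j ∈ JH X (Dl B X), ∑ c ∈ PathSet W n n',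
      (Dv X (Dl B X) R W (j * Dl B X / 2) (c : ZMod W) +
        Dv X (Dl B X) R W (n - j * Dl B X / 2) (f0 (c : ZMod W)) +
        Dv X (Dl B X) R W (n' - j * Dl B X / 2) (f2 (c : ZMod W)) +
        Dv X (Dl B X) R W ((n : ℝ) - n' + j * Dl B X / 2) (f3 (c : ZMod W))) ≤
      4 * (C3 * κ3 * Nat.totient W * (X / Dl B X)) := by
    simp only [sum_add_distrib]
    linarith
  have hA1 : 0 < (Nat.totient W : ℝ) * (X / Dl B X) := by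
    have : (0 : ℝ) < (Nat.totient W : ℝ) := by exact_mod_cast Nat.totient_pos.2 hWp
    positivity
  obtain ⟨j, hj, c, hc, q1, q3, q2, p0, p1, p2, p3, o1, o2, o3⟩ := sel10 (JH X (Dl B X))
    (PathSet W n n') _ _ _ _ _ _ _ _ _ _ (η / (2 * M)) (η / 2) ((η / (2 * M)) ^ 2 / 5)
    (η ^ 2 / 20) (η ^ 2) _ _ _ _ hη2 (by positivity) (by positivity) (by positivity)
    (by positivity)
    (fun j c => hRCn _ _ _ _ _) (fun j c => hRCn _ _ _ _ _) (fun j c => hRCn _ _ _ _ _)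
    (fun j c => hDDn _ _ _ _) (fun j c => hDDn _ _ _ _) (fun j c => hDDn _ _ _ _)
    (fun j c => hDDn _ _ _ _) (fun j c => hDDn _ _ _ _) (fun j c => hDDn _ _ _ _)
    (fun j c => add_nonneg (add_nonneg (add_nonneg (hDvn _ _) (hDvn _ _)) (hDvn _ _))
      (hDvn _ _))
    w1 w3 w2 x0 x1 x2 x3 z1 z2 yy (by
      have b1 := card_JH hΔ hX7
      have b2 : 1 / 4 * ((X : ℝ) / Dl B X) * (ρ' * Nat.totient W) ≤
          ((JH X (Dl B X)).card : ℝ) * ((PathSet W n n').card : ℝ) :=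
        mul_le_mul b1 hpath (by positivity) (by positivity)
      refine lt_of_lt_of_le ?_ b2
      have b3 := mul_le_mul_of_nonneg_right (add_le_add hcon hcon3) hA1.le
      have b4 : (ρ / 2 + ρ / 8) * ((Nat.totient W : ℝ) * (X / Dl B X)) <
          1 / 4 * ((X : ℝ) / Dl B X) * (ρ' * Nat.totient W) := by
        have h1 : 0 < ρ * ((Nat.totient W : ℝ) * (X / Dl B X)) := mul_pos hρ0 hA1
        have h2 : 1 / 4 * ((X : ℝ) / Dl B X) * (ρ' * Nat.totient W) =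
            ρ * ((Nat.totient W : ℝ) * (X / Dl B X)) := by rw [hρ]; ring
        rw [h2]
        linarith
      refine lt_of_le_of_lt (le_of_eq ?_) (lt_of_le_of_lt b3 b4)
      ring)
  have hcu : IsUnit (c : ZMod W) ∧ IsUnit ((n : ZMod W) - c) ∧ IsUnit ((n' : ZMod W) - c) ∧
      IsUnit ((n : ZMod W) - ((n' : ZMod W) - c)) := by
    unfold PathSet at hc
    exact (mem_filter.1 hc).2
  have hjj := hjr j hj
  have hd1 := hDvn (j * Dl B X / 2) (c : ZMod W)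
  have hd0 := hDvn (n - j * Dl B X / 2) (f0 (c : ZMod W))
  have hd2 := hDvn (n' - j * Dl B X / 2) (f2 (c : ZMod W))
  have hd3 := hDvn ((n : ℝ) - n' + j * Dl B X / 2) (f3 (c : ZMod W))
  have k1 : Dv X (Dl B X) R W (j * Dl B X / 2) (c : ZMod W) ≤ η ^ 2 := by linarith
  have k0 : Dv X (Dl B X) R W (n - j * Dl B X / 2) ((n : ZMod W) - c) ≤ η ^ 2 := by
    simp only [hf0] at hd0 o3 ⊢; linarith
  have k2 : Dv X (Dl B X) R W (n' - j * Dl B X / 2) ((n' : ZMod W) - c) ≤ η ^ 2 := by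
    simp only [hf2] at hd2 o3 ⊢; linarith
  have k3 : Dv X (Dl B X) R W ((n : ℝ) - n' + j * Dl B X / 2)
      ((n : ZMod W) - ((n' : ZMod W) - c)) ≤ η ^ 2 := by
    simp only [hf3] at hd3 o3 ⊢; linarith
  have e1 : MsW X (Dl B X) Q1 Q2 η (j * Dl B X / 2) (c : ZMod W) :=
    ms_of_dv hη0.le hs _ hcu.1 k1
  have e0 : MsW X (Dl B X) Q1 Q2 η (n - j * Dl B X / 2) ((n : ZMod W) - c) :=
    ms_of_dv hη0.le hs _ hcu.2.1 k0
  have e2 : MsW X (Dl B X) Q1 Q2 η (n' - j * Dl B X / 2) ((n' : ZMod W) - c) :=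
    ms_of_dv hη0.le hs _ hcu.2.2.1 k2
  have e3 : MsW X (Dl B X) Q1 Q2 η ((n : ℝ) - n' + j * Dl B X / 2)
      ((n : ZMod W) - ((n' : ZMod W) - c)) :=
    ms_of_dv hη0.le hs _ hcu.2.2.2 k3
  have hy1 := hwin (j * Dl B X / 2) (by linarith) (by linarith)
  have hy0 := hwin (n - j * Dl B X / 2) (by linarith) (by linarith)
  have hy2 := hwin (n' - j * Dl B X / 2) (by linarith) (by linarith)
  have hy3 := hwin ((n : ℝ) - n' + j * Dl B X / 2) (by linarith) (by linarith)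
  simp only [hf0, hf2, hf3] at q1 q3 q2 p0 p1 p2 p3 o1 o2
  exact hcore_pt hX3' hΔ hy1 hy0 hy2 hy3 hQ1 hQ2 hs (by linarith) hη0.le hη1 (by rw [hη]; linarith) E1 E2
    hI1 hI2 ho1 ho2 hNN hn hn' (c : ZMod W) hcu.1 hcu.2.1 hcu.2.2.1 hcu.2.2.2 e1 e0 e2 e3
    M hMc hM0 q1 q3 q2
    (p1.trans hd11) p0 (p2.trans hd11) p3 o1 o2

end Pool.MP_dd84fd_nt.TC
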