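import Pool.Agent.Lib.MP_dd84fd_nt.TC.VDefs
import Pool.Agent.Lib.MP_dd84fd_nt.TC.HCore

/-!
# TC-CoreVS: selection of a window and of a path of classes (helper45)

The centres of the windows are `vtx n n' (j Δ/2) i`, `35/100 X ≤ j Δ/2 ≤ X/2`, the classes
`vtx n n' c i`, `c ∈ PSet W n n' L`.
-/

set_option autoImplicit false

namespace Pool.MP_dd84fd_nt.TC

open Finset Pool.MP_67663b_nt.Odd Pool.MP_dd84fd_nt.En Pool.MP_dd84fd_nt.E2 Pool.MP_dd84fd_nt.LS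
open Pool.MP_dd84fd_nt.GX Pool.MP_dd84fd_nt.HX Pool.MP_dd84fd_nt.IX
open Pool.MP_dd84fd_nt.BX (PC pv IsPC PR SX sN prc ind)

/-! ### the vertices -/

theorem vtx_pair {A : Type*} [AddCommGroup A] (n n' c : A) (k : ℕ) :
    vtx n n' c (2 * k) = c + k • (n' - n) ∧ vtx n n' c (2 * k + 1) = n - c - k • (n' - n) := by
  induction k with
  | zero =>
    refine ⟨by simp [vtx], ?_⟩
    simp [vtx]
  | succ k ih =>
    have e1 : vtx n n' c (2 * (k + 1)) = c + (k + 1) • (n' - n) := by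
      have e : 2 * (k + 1) = 2 * k + 1 + 1 := by ring
      rw [e]
      have hodd : ¬ Even (2 * k + 1) := by
        rw [Nat.not_even_iff_odd]; exact ⟨k, rfl⟩
      show (if Even (2 * k + 1) then n else n') - vtx n n' c (2 * k + 1) = _
      rw [if_neg hodd, ih.2, add_smul, one_smul]
      abel
    refine ⟨e1, ?_⟩
    have hev : Even (2 * (k + 1)) := ⟨k + 1, by ring⟩
    show (if Even (2 * (k + 1)) then n else n') - vtx n n' c (2 * (k + 1)) = _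
    rw [if_pos hev, e1]
    abel

theorem vtx_even {A : Type*} [AddCommGroup A] (n n' c : A) {i : ℕ} (h : Even i) :
    vtx n n' c i = c + (i / 2) • (n' - n) := by
  obtain ⟨k, hk⟩ := h
  have e : i = 2 * k := by omega
  have e2 : i / 2 = k := by omega
  rw [e2, e]
  exact (vtx_pair n n' c k).1

theorem vtx_odd {A : Type*} [AddCommGroup A] (n n' c : A) {i : ℕ} (h : ¬ Even i) :
    vtx n n' c i = n - c - (i / 2) • (n' - n) := by
  rw [Nat.not_even_iff_odd] at h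
  obtain ⟨k, hk⟩ := h
  have e2 : i / 2 = k := by omega
  rw [e2, hk]
  exact (vtx_pair n n' c k).2

theorem vtx_succ {A : Type*} [AddCommGroup A] (n n' c : A) (i : ℕ) :
    vtx n n' c (i + 1) = (if Even i then n else n') - vtx n n' c i := rfl

theorem vtx_inj {A : Type*} [AddCommGroup A] (n n' : A) (i : ℕ) :
    Function.Injective (fun c => vtx n n' c i) := by
  intro a b h
  induction i with
  | zero => exact h
  | succ i ih =>
    apply ih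
    simp only [vtx_succ] at h
    exact sub_right_injective h

/-- the centre as `y₀ + σ y` -/
theorem vtx_cen (n n' : ℝ) (i : ℕ) : ∃ y₀ σ : ℝ, (σ = 1 ∨ σ = -1) ∧
    ∀ y : ℝ, vtx n n' y i = y₀ + σ * y := by
  by_cases h : Even i
  · refine ⟨(i / 2 : ℕ) • (n' - n), 1, Or.inl rfl, fun y => ?_⟩
    rw [vtx_even n n' y h]; ring
  · refine ⟨n - (i / 2 : ℕ) • (n' - n), -1, Or.inr rfl, fun y => ?_⟩
    rw [vtx_odd n n' y h]; ring

/-- the centres lie in `[X/20, 9X/10]` -/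
theorem vtx_range {X : ℝ} (hX : 0 ≤ X) {n n' y : ℝ} {i L : ℕ} (hi : i ≤ L)
    (hn6 : 6 / 10 * X ≤ n) (hn9 : n ≤ 9 / 10 * X) (hnn : |n' - n| * (20 * L) ≤ X)
    (hy1 : 35 / 100 * X ≤ y) (hy2 : y ≤ X / 2) :
    X / 20 ≤ vtx n n' y i ∧ vtx n n' y i ≤ 9 / 10 * X := by
  have h1 : |((i / 2 : ℕ) : ℝ) * (n' - n)| ≤ X / 40 := by
    rw [abs_mul, abs_of_nonneg (Nat.cast_nonneg _)]
    have h2 : ((i / 2 : ℕ) : ℝ) ≤ L / 2 := by
      have h3 : (i / 2 : ℕ) * 2 ≤ L := by omega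
      have h4 : (((i / 2 : ℕ) : ℝ)) * 2 ≤ L := by exact_mod_cast h3
      linarith
    have h3 := mul_le_mul_of_nonneg_right h2 (abs_nonneg (n' - n))
    linarith
  rw [abs_le] at h1
  by_cases h : Even i
  · rw [vtx_even n n' y h, nsmul_eq_mul]
    constructor <;> linarith [h1.1, h1.2]
  · rw [vtx_odd n n' y h, nsmul_eq_mul]
    constructor <;> linarith [h1.1, h1.2]

/-! ### the sums -/

/-- `RC` for the edge `v_i v_(i+1)` -/
noncomputable def RCe (X : ℕ) (Δ : ℝ) (R W Q1 Q2 n n' : ℕ) (y : ℝ) (c : ZMod W) (i : ℕ) : ℝ :=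
  if Even i then RC X Δ R W Q1 n (vtx (n : ℝ) (n' : ℝ) y i) (vtx (n : ℝ) (n' : ℝ) y (i + 1))
    (vtx (n : ZMod W) (n' : ZMod W) c i)
  else RC X Δ R W Q2 n' (vtx (n : ℝ) (n' : ℝ) y i) (vtx (n : ℝ) (n' : ℝ) y (i + 1))
    (vtx (n : ZMod W) (n' : ZMod W) c i)

theorem RCe_nonneg (X : ℕ) {Δ : ℝ} (R W Q1 Q2 n n' : ℕ) (y : ℝ) (c : ZMod W) (i : ℕ) :
    0 ≤ RCe X Δ R W Q1 Q2 n n' y c i := by
  unfold RCe
  split_ifs
  · exact RC_nonneg _ _ _ _ _ _ _ _ _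
  · exact RC_nonneg _ _ _ _ _ _ _ _ _

/-- the sum of `RCe` over the windows and classes -/
theorem RCe_sum {X n n' R W Q1 Q2 B : ℕ} {b : ℝ} {P : Finset ℕ} (hP : P ⊆ range W) (hW : 1 ≤ W)
    (hW2 : W ∣ Q2)
    (h1 : ∀ t : ℝ, ∑ j ∈ JW X (Dl B X), ∑ c ∈ range W,
      RC X (Dl B X) R W Q1 n (t + j * Dl B X / 2) (n - t - j * Dl B X / 2) (c : ZMod W) ≤ b)
    (h2 : ∀ t : ℝ, ∑ j ∈ JW X (Dl B X), ∑ c ∈ range W,
      RC X (Dl B X) R W Q2 n' (t + j * Dl B X / 2) (n' - t - j * Dl B X / 2) (c : ZMod W) ≤ b)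
    (i : ℕ) :
    ∑ j ∈ JH X (Dl B X), ∑ c ∈ P,
      RCe X (Dl B X) R W Q1 Q2 n n' (j * Dl B X / 2) (c : ZMod W) i ≤ b := by
  have hsub : ∀ g : ℕ → ℝ, (∀ j, 0 ≤ g j) → ∑ j ∈ JH X (Dl B X), g j ≤ ∑ j ∈ JW X (Dl B X), g j :=
    fun g hg => sum_le_sum_of_subset_of_nonneg (JH_sub X (Dl B X)) fun j _ _ => hg j
  by_cases h : Even i
  · refine le_trans ?_ (h1 ((i / 2 : ℕ) * ((n' : ℝ) - n)))
    refine le_trans ?_ (hsub _ fun j => sum_nonneg fun c _ => RC_nonneg _ _ _ _ _ _ _ _ _)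
    refine sum_le_sum fun j _ => ?_
    have e : ∀ c : ℕ, RCe X (Dl B X) R W Q1 Q2 n n' (j * Dl B X / 2) (c : ZMod W) i =
        RC X (Dl B X) R W Q1 n ((i / 2 : ℕ) * ((n' : ℝ) - n) + j * Dl B X / 2)
          (n - (i / 2 : ℕ) * ((n' : ℝ) - n) - j * Dl B X / 2)
          (vtx (n : ZMod W) (n' : ZMod W) (c : ZMod W) i) := by
      intro c
      unfold RCe
      rw [if_pos h]
      congr 1
      · rw [vtx_even _ _ _ h, nsmul_eq_mul]; ring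
      · rw [vtx_succ, if_pos h, vtx_even _ _ _ h, nsmul_eq_mul]; ring
    simp only [e]
    exact sum_path hW P hP (fun z => RC X (Dl B X) R W Q1 n
      ((i / 2 : ℕ) * ((n' : ℝ) - n) + j * Dl B X / 2)
      (n - (i / 2 : ℕ) * ((n' : ℝ) - n) - j * Dl B X / 2) z) (fun z => RC_nonneg _ _ _ _ _ _ _ _ _)
      (fun c => vtx (n : ZMod W) (n' : ZMod W) c i) (vtx_inj _ _ i)
  · have hs : Even (i + 1) := by
      rw [Nat.not_even_iff_odd] at h
      exact h.add_one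
    have hk : (i + 1) / 2 = i / 2 + 1 := by
      rw [Nat.not_even_iff_odd] at h
      obtain ⟨k, hk⟩ := h
      omega
    refine le_trans ?_ (h2 (((i + 1) / 2 : ℕ) * ((n' : ℝ) - n)))
    refine le_trans ?_ (hsub _ fun j => sum_nonneg fun c _ => RC_nonneg _ _ _ _ _ _ _ _ _)
    refine sum_le_sum fun j _ => ?_
    have e : ∀ c : ℕ, RCe X (Dl B X) R W Q1 Q2 n n' (j * Dl B X / 2) (c : ZMod W) i =
        RC X (Dl B X) R W Q2 n' (((i + 1) / 2 : ℕ) * ((n' : ℝ) - n) + j * Dl B X / 2)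
          (n' - ((i + 1) / 2 : ℕ) * ((n' : ℝ) - n) - j * Dl B X / 2)
          (vtx (n : ZMod W) (n' : ZMod W) (c : ZMod W) (i + 1)) := by
      intro c
      unfold RCe
      rw [if_neg h, RC_symm X (Dl B X) hW2]
      congr 1
      · rw [vtx_even _ _ _ hs, nsmul_eq_mul]; ring
      · rw [vtx_odd _ _ _ h, nsmul_eq_mul, hk]; push_cast; ring
      · rw [vtx_succ, if_neg h]
    simp only [e]
    exact sum_path hW P hP (fun z => RC X (Dl B X) R W Q2 n'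
      (((i + 1) / 2 : ℕ) * ((n' : ℝ) - n) + j * Dl B X / 2)
      (n' - ((i + 1) / 2 : ℕ) * ((n' : ℝ) - n) - j * Dl B X / 2) z)
      (fun z => RC_nonneg _ _ _ _ _ _ _ _ _)
      (fun c => vtx (n : ZMod W) (n' : ZMod W) c (i + 1)) (vtx_inj _ _ (i + 1))

/-- the sum of `DD` over the windows and classes, at the vertex `i` -/
theorem DDe_sum {X n n' R W Q B : ℕ} {b : ℝ} {P : Finset ℕ} (hP : P ⊆ range W) (hW : 1 ≤ W)
    (E : Finset (DirichletCharacter ℂ Q))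
    (h1 : ∀ y₀ σ : ℝ, (σ = 1 ∨ σ = -1) →
      ∑ j ∈ JW X (Dl B X), ∑ c ∈ range W,
        DD X (Dl B X) R W Q E (y₀ + σ * (j * Dl B X / 2)) (c : ZMod W) ≤ b) (i : ℕ) :
    ∑ j ∈ JH X (Dl B X), ∑ c ∈ P,
      DD X (Dl B X) R W Q E (vtx (n : ℝ) (n' : ℝ) (j * Dl B X / 2) i)
        (vtx (n : ZMod W) (n' : ZMod W) (c : ZMod W) i) ≤ b := by
  obtain ⟨y₀, σ, hσ, hy⟩ := vtx_cen (n : ℝ) (n' : ℝ) i
  refine le_trans ?_ (h1 y₀ σ hσ)
  refine le_trans ?_ (sum_le_sum_of_subset_of_nonneg (JH_sub X (Dl B X)) fun j _ _ =>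
    sum_nonneg fun c _ => DD_nonneg _ _ _ _ _ _ _ _)
  refine sum_le_sum fun j _ => ?_
  rw [hy]
  exact sum_path hW P hP (fun z => DD X (Dl B X) R W Q E (y₀ + σ * (j * Dl B X / 2)) z)
    (fun z => DD_nonneg _ _ _ _ _ _ _ _)
    (fun c => vtx (n : ZMod W) (n' : ZMod W) c i) (vtx_inj _ _ i)

/-- the sum of `Dv` over the windows and classes, at the vertex `i` -/
theorem Dve_sum {X n n' R W B L : ℕ} {b : ℝ} {P : Finset ℕ} (hP : P ⊆ range W) (hW : 1 ≤ W)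
    (hn6 : 6 / 10 * (X : ℝ) ≤ n) (hn9 : (n : ℝ) ≤ 9 / 10 * X)
    (hnn : |(n' : ℝ) - n| * (20 * L) ≤ X)
    (h1 : ∀ y₀ σ : ℝ, (σ = 1 ∨ σ = -1) → ∀ J ⊆ JW X (Dl B X),
      (∀ j ∈ J, (X : ℝ) / 20 ≤ y₀ + σ * (j * Dl B X / 2) ∧
        y₀ + σ * (j * Dl B X / 2) ≤ 9 / 10 * X) →
      ∑ j ∈ J, ∑ c ∈ range W,
        Dv X (Dl B X) R W (y₀ + σ * (j * Dl B X / 2)) (c : ZMod W) ≤ b) {i : ℕ} (hi : i ≤ L) :
    ∑ j ∈ JH X (Dl B X), ∑ c ∈ P,
      Dv X (Dl B X) R W (vtx (n : ℝ) (n' : ℝ) (j * Dl B X / 2) i)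
        (vtx (n : ZMod W) (n' : ZMod W) (c : ZMod W) i) ≤ b := by
  obtain ⟨y₀, σ, hσ, hy⟩ := vtx_cen (n : ℝ) (n' : ℝ) i
  refine le_trans ?_ (h1 y₀ σ hσ (JH X (Dl B X)) (JH_sub X (Dl B X)) ?_)
  · refine sum_le_sum fun j _ => ?_
    rw [hy]
    exact sum_path hW P hP (fun z => Dv X (Dl B X) R W (y₀ + σ * (j * Dl B X / 2)) z)
      (fun z => Dv_nonneg _ _ _ _ _ _)
      (fun c => vtx (n : ZMod W) (n' : ZMod W) c i) (vtx_inj _ _ i)
  · intro j hj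
    unfold JH JW at hj
    rw [mem_filter, mem_filter] at hj
    rw [← hy]
    exact vtx_range (Nat.cast_nonneg X) hi hn6 hn9 hnn hj.2 hj.1.2.2

/-! ### the selection -/

theorem avg_lt {α β : Type*} (J : Finset α) (P : Finset β) (F : α → β → ℝ)
    (h : ∑ j ∈ J, ∑ c ∈ P, F j c < (J.card : ℝ) * (P.card : ℝ)) :
    ∃ j ∈ J, ∃ c ∈ P, F j c < 1 := by
  by_contra hcon
  push Not at hcon
  have e : (J.card : ℝ) * (P.card : ℝ) = ∑ j ∈ J, ∑ c ∈ P, (1 : ℝ) := by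
    simp [sum_const]
  rw [e] at h
  exact absurd h (not_lt.2 (sum_le_sum fun j hj => sum_le_sum fun c hc => hcon j hj c hc))

/-- averaging: a pair where all functions are at most their thresholds -/
theorem selV {α β : Type*} (J : Finset α) (P : Finset β) (L K : ℕ) (f0 f1 : ℕ → α → β → ℝ)
    (f2 f3 : ℕ → ℕ → α → β → ℝ) (a0 a1 b0 b1 : ℝ) (a2 b2 : ℕ → ℝ) (h0 : 0 < a0) (h1 : 0 < a1)
    (h2 : ∀ k ≤ K, 0 < a2 k)
    (g0 : ∀ i j c, 0 ≤ f0 i j c) (g1 : ∀ i j c, 0 ≤ f1 i j c) (g2 : ∀ i k j c, 0 ≤ f2 i k j c)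
    (g3 : ∀ i k j c, 0 ≤ f3 i k j c)
    (s0 : ∀ i < L, ∑ j ∈ J, ∑ c ∈ P, f0 i j c ≤ b0) (s1 : ∀ i < L, ∑ j ∈ J, ∑ c ∈ P, f1 i j c ≤ b1)
    (s2 : ∀ i < L, ∀ k ≤ K, ∑ j ∈ J, ∑ c ∈ P, f2 i k j c ≤ b2 k)
    (s3 : ∀ i < L, ∀ k ≤ K, ∑ j ∈ J, ∑ c ∈ P, f3 i k j c ≤ b2 k)
    (hlt : L * (b0 / a0 + b1 / a1 + ∑ k ∈ range (K + 1), (b2 k / a2 k + b2 k / a2 k)) <
      (J.card : ℝ) * (P.card : ℝ)) :
    ∃ j ∈ J, ∃ c ∈ P, ∀ i < L, f0 i j c ≤ a0 ∧ f1 i j c ≤ a1 ∧ ∀ k ≤ K, f2 i k j c ≤ a2 k ∧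
      f3 i k j c ≤ a2 k := by
  classical
  obtain ⟨Φ, hΦ⟩ : ∃ Φ : ℕ → α → β → ℝ, Φ = fun i j c => f0 i j c / a0 + f1 i j c / a1 +
    ∑ k ∈ range (K + 1), (f2 i k j c / a2 k + f3 i k j c / a2 k) := ⟨_, rfl⟩
  have hr : ∀ k ∈ range (K + 1), 0 < a2 k := fun k hk => h2 k (by rw [mem_range] at hk; omega)
  have t2 : ∀ i j c, ∀ k ∈ range (K + 1), 0 ≤ f2 i k j c / a2 k + f3 i k j c / a2 k := by
    intro i j c k hk
    exact add_nonneg (div_nonneg (g2 i k j c) (hr k hk).le) (div_nonneg (g3 i k j c) (hr k hk).le)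
  have t0 : ∀ i j c, 0 ≤ Φ i j c := by
    intro i j c
    rw [hΦ]
    exact add_nonneg (add_nonneg (div_nonneg (g0 i j c) h0.le) (div_nonneg (g1 i j c) h1.le))
      (sum_nonneg (t2 i j c))
  have hsum : ∑ j ∈ J, ∑ c ∈ P, ∑ i ∈ range L, Φ i j c < (J.card : ℝ) * (P.card : ℝ) := by
    refine lt_of_le_of_lt ?_ hlt
    have e : ∑ j ∈ J, ∑ c ∈ P, ∑ i ∈ range L, Φ i j c =
        ∑ i ∈ range L, ∑ j ∈ J, ∑ c ∈ P, Φ i j c := by
      rw [sum_comm]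
      have : ∀ c ∈ P, ∑ j ∈ J, ∑ i ∈ range L, Φ i j c = ∑ i ∈ range L, ∑ j ∈ J, Φ i j c :=
        fun c _ => sum_comm
      rw [sum_congr rfl this, sum_comm]
      refine sum_congr rfl fun i _ => ?_
      rw [sum_comm]
    rw [e]
    have e2 : ∀ i ∈ range L, ∑ j ∈ J, ∑ c ∈ P, Φ i j c ≤
        b0 / a0 + b1 / a1 + ∑ k ∈ range (K + 1), (b2 k / a2 k + b2 k / a2 k) := by
      intro i hi
      rw [mem_range] at hi
      rw [hΦ]
      simp only [sum_add_distrib, ← sum_div]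
      have k0 := div_le_div_of_nonneg_right (s0 i hi) h0.le
      have k1 := div_le_div_of_nonneg_right (s1 i hi) h1.le
      have ex : ∀ f : ℕ → ℕ → α → β → ℝ, (∀ k ≤ K, ∑ j ∈ J, ∑ c ∈ P, f i k j c ≤ b2 k) →
          ∑ j ∈ J, ∑ c ∈ P, ∑ k ∈ range (K + 1), f i k j c / a2 k ≤
            ∑ k ∈ range (K + 1), b2 k / a2 k := by
        intro f hf
        have e : ∑ j ∈ J, ∑ c ∈ P, ∑ k ∈ range (K + 1), f i k j c / a2 k =
            ∑ k ∈ range (K + 1), ∑ j ∈ J, ∑ c ∈ P, f i k j c / a2 k := by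
          rw [sum_comm]
          have : ∀ c ∈ P, ∑ j ∈ J, ∑ k ∈ range (K + 1), f i k j c / a2 k =
            ∑ k ∈ range (K + 1), ∑ j ∈ J, f i k j c / a2 k := fun c _ => sum_comm
          rw [sum_congr rfl this, sum_comm]
          refine sum_congr rfl fun i _ => ?_
          rw [sum_comm]
        rw [e]
        refine sum_le_sum fun k hk => ?_
        simp only [← sum_div]
        exact div_le_div_of_nonneg_right (hf k (by rw [mem_range] at hk; omega)) (hr k hk).le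
      have k2 := ex f2 (s2 i hi)
      have k3 := ex f3 (s3 i hi)
      linarith
    refine (sum_le_sum e2).trans (le_of_eq ?_)
    rw [sum_const, card_range, nsmul_eq_mul]
  obtain ⟨j, hj, c, hc, hjc⟩ := avg_lt J P (fun j c => ∑ i ∈ range L, Φ i j c) hsum
  refine ⟨j, hj, c, hc, fun i hi => ?_⟩
  have k1 : Φ i j c < 1 :=
    lt_of_le_of_lt (single_le_sum (f := fun i => Φ i j c) (fun i _ => t0 i j c)
      (mem_range.2 hi)) hjc
  have d0 := div_nonneg (g0 i j c) h0.le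
  have d1 := div_nonneg (g1 i j c) h1.le
  have d2 : ∀ k ≤ K, f2 i k j c / a2 k + f3 i k j c / a2 k ≤
      ∑ k ∈ range (K + 1), (f2 i k j c / a2 k + f3 i k j c / a2 k) := fun k hk =>
    single_le_sum (f := fun k => f2 i k j c / a2 k + f3 i k j c / a2 k) (t2 i j c)
      (mem_range.2 (by omega))
  have d3 := sum_nonneg (t2 i j c)
  rw [hΦ] at k1
  simp only at k1
  refine ⟨?_, ?_, fun k hk => ⟨?_, ?_⟩⟩
  · have : f0 i j c / a0 ≤ 1 := by linarith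
    exact (div_le_one h0).1 this
  · have : f1 i j c / a1 ≤ 1 := by linarith
    exact (div_le_one h1).1 this
  · have d4 := d2 k hk
    have d5 := div_nonneg (g3 i k j c) (h2 k hk).le
    have : f2 i k j c / a2 k ≤ 1 := by linarith
    exact (div_le_one (h2 k hk)).1 this
  · have d4 := d2 k hk
    have d5 := div_nonneg (g2 i k j c) (h2 k hk).le
    have : f3 i k j c / a2 k ≤ 1 := by linarith
    exact (div_le_one (h2 k hk)).1 this

end Pool.MP_dd84fd_nt.TC
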