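import Pool.Agent.Lib.MP_dd84fd_nt.TC.Eqr

/-!
# TC-Cos: orthogonality and Parseval in a coset

`AC Q W c`: the residues `a < Q`, `(a,Q) = 1`, `a ≡ c (mod W)`; `W ∣ Q`, `c` a unit.
`ac_orth`: `Σ_{a ∈ AC} conj χ(a) χ'(a)` is `(φ(Q)/φ(W)) ω(c)` if `χ' = χ ω` and `0` if `χ, χ'` are not
equivalent.  Proof: for `a` coprime to `Q` the indicator of `a ≡ c (W)` is
`(1/φ(W)) Σ_ω conj ω(c) ω(a)` (`DirichletCharacter.sum_char_inv_mul_char_eq`, `c` unit), and
`Σ_{a mod Q} conj χ(a) χ'(a) ω(a) = φ(Q)` if `χ = χ' ω` and `0` otherwise.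
`par_all` (Parseval): for `f` on `AC` extended by 0: `Σ_{a ∈ AC} |f(a)|² = (1/φ(Q)) Σ_χ |Σ_a f(a) χ(a)|²`
(expand the square on the right, orthogonality of the second kind).
`par_c`: let `F(χ) = Σ_p w(p) χ(p)`, `N(a) = (φ(Q)/φ(W)) Σ_{p ≡ a (Q)} w(p)`,
`N^h(a) = Σ_{χ ∈ E} F(χ) conj χ(a)`.  `Σ_a N(a) χ(a) = (φ(Q)/φ(W)) F(χ)` (all `p` with `w(p) ≠ 0` lie in
the class `c` and are coprime to `Q`), and for `χ' = χ₀ ω`, `χ₀ ∈ E`:
`Σ_a N^h(a) χ'(a) = (φ(Q)/φ(W)) F(χ₀) ω(c) = (φ(Q)/φ(W)) F(χ')` (`ac_orth` and `Ineq W E`: only `χ₀`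
contributes); for `χ'` not equivalent to a character of `E` it is `0`.  So
`Σ_a |N - N^h|² = (1/φ(Q)) (φ(Q)/φ(W))² Σ_{χ not equivalent to E} |F(χ)|²` by `par_all`.
-/

set_option autoImplicit false

namespace Pool.MP_dd84fd_nt.TC

open Finset Pool.MP_67663b_nt.Odd Pool.MP_dd84fd_nt.En Pool.MP_dd84fd_nt.E2 Pool.MP_dd84fd_nt.LS
open Pool.MP_dd84fd_nt.GX Pool.MP_dd84fd_nt.HX Pool.MP_dd84fd_nt.IX
open Pool.MP_dd84fd_nt.BX (PC pv IsPC PR SX sN prc ind)
open ComplexConjugate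

open Classical in
/-- the residues `a < Q` coprime to `Q` and `≡ c (mod W)` -/
noncomputable def AC (Q W : ℕ) (c : ZMod W) : Finset ℕ :=
  (range Q).filter (fun a => Nat.Coprime a Q ∧ (a : ZMod W) = c)

private theorem mem_AC {Q W : ℕ} {c : ZMod W} {a : ℕ} :
    a ∈ AC Q W c ↔ a < Q ∧ Nat.Coprime a Q ∧ (a : ZMod W) = c := by
  unfold AC
  rw [Finset.mem_filter, Finset.mem_range]

private theorem cl_val {W Q : ℕ} (h : W ∣ Q) (ω : DirichletCharacter ℂ W) {a : ℕ}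
    (ha : Nat.Coprime a Q) :
    (DirichletCharacter.changeLevel h ω) (a : ZMod Q) = ω (a : ZMod W) := by
  have h1 := DirichletCharacter.changeLevel_eq_cast_of_dvd ω h (ZMod.unitOfCoprime a ha)
  rw [ZMod.coe_unitOfCoprime] at h1
  rw [h1]
  congr 1
  rw [ZMod.cast_natCast h]

private theorem norm_ch {n : ℕ} [NeZero n] (χ : DirichletCharacter ℂ n) {a : ZMod n}
    (ha : IsUnit a) : conj (χ a) * χ a = 1 := by
  obtain ⟨u, rfl⟩ := ha
  have := DirichletCharacter.unit_norm_eq_one χ u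
  rw [← Complex.normSq_eq_conj_mul_self, Complex.normSq_eq_norm_sq, this]
  norm_num

/-- sums over `AC` are sums over the residue classes -/
private theorem sum_AC {W Q : ℕ} [NeZero Q] (F : ZMod Q → ℂ)
    (hF : ∀ a : ZMod Q, ¬ IsUnit a → F a = 0) (g : ZMod W → ℂ) (h : W ∣ Q) :
    ∑ a ∈ (range Q).filter (fun a => Nat.Coprime a Q), F (a : ZMod Q) * g (a : ZMod W) =
      ∑ a : ZMod Q, F a * g (ZMod.castHom h (ZMod W) a) := by
  classical
  rw [← Finset.sum_filter_add_sum_filter_not (univ : Finset (ZMod Q)) (fun a => IsUnit a)]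
  rw [Finset.sum_eq_zero (s := (univ : Finset (ZMod Q)).filter (fun a => ¬ IsUnit a))
    (fun a ha => by rw [hF a (Finset.mem_filter.mp ha).2, zero_mul]), add_zero]
  refine Finset.sum_nbij' (fun a : ℕ => (a : ZMod Q)) (fun a : ZMod Q => a.val) ?_ ?_ ?_ ?_ ?_
  · intro a ha
    simp only [Finset.mem_filter, Finset.mem_range, Finset.mem_univ, true_and] at ha ⊢
    exact (ZMod.isUnit_iff_coprime a Q).mpr ha.2
  · intro a ha
    simp only [Finset.mem_filter, Finset.mem_range, Finset.mem_univ, true_and] at ha ⊢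
    refine ⟨ZMod.val_lt a, ?_⟩
    rw [← ZMod.isUnit_iff_coprime, ZMod.natCast_zmod_val]
    exact ha
  · intro a ha
    simp only [Finset.mem_filter, Finset.mem_range] at ha
    exact ZMod.val_cast_of_lt ha.1
  · intro a ha
    exact ZMod.natCast_zmod_val a
  · intro a ha
    simp only [map_natCast]

open Classical in
private theorem ac_gen {W Q : ℕ} [NeZero Q] [NeZero W] (h : W ∣ Q) (c : ZMod W) (hc : IsUnit c)
    (χ χ' : DirichletCharacter ℂ Q) :
    ∑ a ∈ AC Q W c, conj (χ (a : ZMod Q)) * χ' (a : ZMod Q) =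
      (1 / (Nat.totient W : ℂ)) * ∑ ω : DirichletCharacter ℂ W, ω c⁻¹ *
        (if χ⁻¹ * χ' * DirichletCharacter.changeLevel h ω = 1 then (Nat.totient Q : ℂ) else 0) := by
  have hW : (Nat.totient W : ℂ) ≠ 0 := by
    have := Nat.totient_pos.mpr (Nat.pos_of_ne_zero (NeZero.ne W))
    exact_mod_cast this.ne'
  have h1 : ∑ a ∈ AC Q W c, conj (χ (a : ZMod Q)) * χ' (a : ZMod Q) =
      ∑ a ∈ (range Q).filter (fun a => Nat.Coprime a Q), (1 / (Nat.totient W : ℂ)) *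
        ∑ ω : DirichletCharacter ℂ W, ω c⁻¹ * ((χ⁻¹ * χ') (a : ZMod Q) * ω (a : ZMod W)) := by
    have h2 : AC Q W c = ((range Q).filter (fun a => Nat.Coprime a Q)).filter
        (fun a : ℕ => (a : ZMod W) = c) := by
      ext a
      rw [mem_AC, Finset.mem_filter, Finset.mem_filter, Finset.mem_range, and_assoc]
    rw [h2, Finset.sum_filter]
    refine Finset.sum_congr rfl (fun a ha => ?_)
    have h3 := DirichletCharacter.sum_char_inv_mul_char_eq ℂ hc (a : ZMod W)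
    have h4 : ∑ ω : DirichletCharacter ℂ W, ω c⁻¹ * ((χ⁻¹ * χ') (a : ZMod Q) * ω (a : ZMod W)) =
        (χ⁻¹ * χ') (a : ZMod Q) * ∑ ω : DirichletCharacter ℂ W, ω c⁻¹ * ω (a : ZMod W) := by
      rw [Finset.mul_sum]
      exact Finset.sum_congr rfl (fun ω _ => by ring)
    rw [h4, h3]
    have h5 : conj (χ (a : ZMod Q)) = χ⁻¹ (a : ZMod Q) := MulChar.star_apply' χ _
    rw [h5, MulChar.mul_apply]
    by_cases h6 : (a : ZMod W) = c
    · rw [if_pos h6, if_pos h6.symm]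
      field_simp
    · rw [if_neg h6, if_neg (fun h7 => h6 h7.symm)]
      ring
  rw [h1, ← Finset.mul_sum, Finset.sum_comm]
  congr 1
  refine Finset.sum_congr rfl (fun ω _ => ?_)
  rw [← Finset.mul_sum]
  congr 1
  rw [sum_AC (fun a => (χ⁻¹ * χ') a) (fun a ha => MulChar.map_nonunit _ ha) (fun b => ω b) h]
  have h7 : ∀ a : ZMod Q, (χ⁻¹ * χ') a * ω (ZMod.castHom h (ZMod W) a) =
      (χ⁻¹ * χ' * DirichletCharacter.changeLevel h ω) a := by
    intro a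
    by_cases ha : IsUnit a
    · obtain ⟨u, rfl⟩ := ha
      rw [MulChar.mul_apply (χ⁻¹ * χ'), DirichletCharacter.changeLevel_eq_cast_of_dvd ω h u]
      rfl
    · rw [MulChar.map_nonunit _ ha, MulChar.map_nonunit _ ha, zero_mul]
  rw [Finset.sum_congr rfl (fun a _ => h7 a)]
  by_cases h8 : χ⁻¹ * χ' * DirichletCharacter.changeLevel h ω = 1
  · rw [if_pos h8, h8, MulChar.sum_one_eq_card_units, ZMod.card_units_eq_totient]
  · rw [if_neg h8, MulChar.sum_eq_zero_of_ne_one h8]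

open Classical in
/-- orthogonality in a coset -/
theorem ac_orth {W Q : ℕ} [NeZero Q] (h : W ∣ Q) (c : ZMod W) (hc : IsUnit c)
    (χ : DirichletCharacter ℂ Q) (ω : DirichletCharacter ℂ W) :
    ∑ a ∈ AC Q W c, conj (χ (a : ZMod Q)) *
      (χ * DirichletCharacter.changeLevel h ω) (a : ZMod Q) =
      ((Nat.totient Q : ℂ) / (Nat.totient W : ℂ)) * ω c := by
  have : NeZero W := ⟨ne_zero_of_dvd_ne_zero (NeZero.ne Q) h⟩
  rw [ac_gen h c hc]
  have h1 : ∀ ω' : DirichletCharacter ℂ W,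
      (χ⁻¹ * (χ * DirichletCharacter.changeLevel h ω) * DirichletCharacter.changeLevel h ω' = 1)
        ↔ ω' = ω⁻¹ := by
    intro ω'
    rw [inv_mul_cancel_left, ← map_mul]
    constructor
    · intro h2
      have h3 : ω * ω' = 1 := by
        apply DirichletCharacter.changeLevel_injective h
        rw [h2, map_one]
      exact (inv_eq_of_mul_eq_one_right h3).symm
    · rintro rfl
      rw [mul_inv_cancel, map_one]
  have h2 : ∑ ω' : DirichletCharacter ℂ W, ω' c⁻¹ *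
      (if χ⁻¹ * (χ * DirichletCharacter.changeLevel h ω) *
        DirichletCharacter.changeLevel h ω' = 1 then (Nat.totient Q : ℂ) else 0) =
      ω⁻¹ c⁻¹ * (Nat.totient Q : ℂ) := by
    rw [Finset.sum_eq_single ω⁻¹]
    · rw [if_pos ((h1 _).mpr rfl)]
    · intro ω' _ h3
      rw [if_neg (fun h4 => h3 ((h1 _).mp h4)), mul_zero]
    · intro h3
      exact absurd (Finset.mem_univ _) h3
  rw [h2]
  have h3 : ω⁻¹ c⁻¹ = ω c := by
    obtain ⟨u, rfl⟩ := hc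
    rw [ZMod.inv_coe_unit, MulChar.inv_apply_eq_inv, Ring.inverse_eq_inv']
    have h4 : ω ((u⁻¹ : (ZMod W)ˣ) : ZMod W) * ω (u : ZMod W) = 1 := by
      rw [← map_mul, Units.inv_mul, map_one]
    exact inv_eq_of_mul_eq_one_right h4
  rw [h3]
  ring

theorem ac_orth0 {W Q : ℕ} [NeZero Q] (h : W ∣ Q) (c : ZMod W) (hc : IsUnit c)
    (χ χ' : DirichletCharacter ℂ Q) (hne : ¬ Eqv W χ χ') :
    ∑ a ∈ AC Q W c, conj (χ (a : ZMod Q)) * χ' (a : ZMod Q) = 0 := by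
  have : NeZero W := ⟨ne_zero_of_dvd_ne_zero (NeZero.ne Q) h⟩
  rw [ac_gen h c hc, Finset.sum_eq_zero, mul_zero]
  intro ω _
  rw [if_neg, mul_zero]
  intro h1
  apply hne
  refine ⟨h, ω⁻¹, ?_⟩
  rw [map_inv]
  have h2 : χ⁻¹ * χ' = (DirichletCharacter.changeLevel h ω)⁻¹ := eq_inv_of_mul_eq_one_left h1
  rw [← h2, mul_inv_cancel_left]

theorem par_all {W Q : ℕ} [NeZero Q] (h : W ∣ Q) (c : ZMod W) (f : ℕ → ℂ) :
    ∑ a ∈ AC Q W c, ‖f a‖ ^ 2 = 1 / (Nat.totient Q : ℝ) *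
      ∑ χ : DirichletCharacter ℂ Q, ‖∑ a ∈ AC Q W c, f a * χ (a : ZMod Q)‖ ^ 2 := by
  classical
  have hQ0 : (Nat.totient Q : ℂ) ≠ 0 := by
    have := Nat.totient_pos.mpr (Nat.pos_of_ne_zero (NeZero.ne Q))
    exact_mod_cast this.ne'
  have hsq : ∀ z : ℂ, ((‖z‖ ^ 2 : ℝ) : ℂ) = z * conj z := by
    intro z
    rw [Complex.mul_conj, Complex.normSq_eq_norm_sq]
  have key : ∑ χ : DirichletCharacter ℂ Q, (∑ a ∈ AC Q W c, f a * χ (a : ZMod Q)) *
      conj (∑ a ∈ AC Q W c, f a * χ (a : ZMod Q)) =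
      (Nat.totient Q : ℂ) * ∑ a ∈ AC Q W c, f a * conj (f a) := by
    have h1 : ∀ χ : DirichletCharacter ℂ Q, (∑ a ∈ AC Q W c, f a * χ (a : ZMod Q)) *
        conj (∑ a ∈ AC Q W c, f a * χ (a : ZMod Q)) =
        ∑ b ∈ AC Q W c, ∑ a ∈ AC Q W c,
          (f a * conj (f b)) * (χ (b : ZMod Q)⁻¹ * χ (a : ZMod Q)) := by
      intro χ
      rw [map_sum, Finset.mul_sum]
      refine Finset.sum_congr rfl (fun b hb => ?_)
      rw [Finset.sum_mul]
      refine Finset.sum_congr rfl (fun a _ => ?_)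
      have hbu : IsUnit (b : ZMod Q) := (ZMod.isUnit_iff_coprime b Q).mpr (mem_AC.mp hb).2.1
      have h2 : conj (χ (b : ZMod Q)) = χ (b : ZMod Q)⁻¹ := by
        have h3 : conj (χ (b : ZMod Q)) = χ⁻¹ (b : ZMod Q) := MulChar.star_apply' χ _
        rw [h3, MulChar.inv_apply]
        obtain ⟨u, hu⟩ := hbu
        rw [← hu, ZMod.inv_coe_unit, Ring.inverse_unit]
      rw [map_mul, h2]
      ring
    rw [Finset.sum_congr rfl (fun χ _ => h1 χ), Finset.sum_comm, Finset.mul_sum]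
    refine Finset.sum_congr rfl (fun b hb => ?_)
    have hbu : IsUnit (b : ZMod Q) := (ZMod.isUnit_iff_coprime b Q).mpr (mem_AC.mp hb).2.1
    rw [Finset.sum_comm, Finset.sum_eq_single b]
    · rw [← Finset.mul_sum, DirichletCharacter.sum_char_inv_mul_char_eq ℂ hbu, if_pos rfl]
      ring
    · intro a ha hab
      rw [← Finset.mul_sum, DirichletCharacter.sum_char_inv_mul_char_eq ℂ hbu, if_neg, mul_zero]
      intro h4
      apply hab
      have h5 := (ZMod.natCast_eq_natCast_iff' b a Q).mp h4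
      rw [Nat.mod_eq_of_lt (mem_AC.mp hb).1, Nat.mod_eq_of_lt (mem_AC.mp ha).1] at h5
      exact h5.symm
    · intro h4
      exact absurd hb h4
  apply Complex.ofReal_injective
  push_cast
  have hsq' : ∀ z : ℂ, ((‖z‖ : ℝ) : ℂ) ^ 2 = z * conj z := by
    intro z
    have := hsq z
    push_cast at this
    exact this
  simp only [hsq']
  rw [key]
  field_simp

open Classical in
/-- the character sums of the residue sums -/
private theorem res_char {W Q : ℕ} [NeZero Q] (h : W ∣ Q) (c : ZMod W) (P : Finset ℕ)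
    (hP : ∀ p ∈ P, Nat.Coprime p Q) (w : ℕ → ℝ) (hw : ∀ p ∈ P, (p : ZMod W) ≠ c → w p = 0)
    (χ : DirichletCharacter ℂ Q) :
    ∑ a ∈ AC Q W c, (∑ p ∈ P.filter (fun p => p ≡ a [MOD Q]), (w p : ℂ)) * χ (a : ZMod Q) =
      ∑ p ∈ P, (w p : ℂ) * χ (p : ZMod Q) := by
  have hQ : 0 < Q := Nat.pos_of_ne_zero (NeZero.ne Q)
  have h1 : ∀ a ∈ AC Q W c,
      (∑ p ∈ P.filter (fun p => p ≡ a [MOD Q]), (w p : ℂ)) * χ (a : ZMod Q) =
      ∑ p ∈ P, if p ≡ a [MOD Q] then (w p : ℂ) * χ (p : ZMod Q) else 0 := by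
    intro a _
    rw [Finset.sum_filter, Finset.sum_mul]
    refine Finset.sum_congr rfl (fun p _ => ?_)
    by_cases h2 : p ≡ a [MOD Q]
    · rw [if_pos h2, if_pos h2, (ZMod.natCast_eq_natCast_iff p a Q).mpr h2]
    · rw [if_neg h2, if_neg h2, zero_mul]
  rw [Finset.sum_congr rfl h1, Finset.sum_comm]
  refine Finset.sum_congr rfl (fun p hp => ?_)
  by_cases hpc : (p : ZMod W) = c
  · rw [Finset.sum_eq_single (p % Q)]
    · rw [if_pos (Nat.mod_modEq p Q).symm]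
    · intro a ha hne
      rw [if_neg]
      intro h3
      apply hne
      have h4 : p % Q = a % Q := h3
      rw [Nat.mod_eq_of_lt (mem_AC.mp ha).1] at h4
      exact h4.symm
    · intro h3
      exfalso
      apply h3
      rw [mem_AC]
      refine ⟨Nat.mod_lt p hQ, ?_, ?_⟩
      · have := hP p hp
        unfold Nat.Coprime at this ⊢
        rw [← this, Nat.gcd_comm (p % Q) Q, Nat.gcd_comm p Q]
        exact (Nat.gcd_rec Q p ▸ Nat.gcd_comm (p % Q) Q ▸ rfl)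
      · rw [← hpc]
        exact (ZMod.natCast_eq_natCast_iff (p % Q) p W).mpr ((Nat.mod_modEq p Q).of_dvd h)
  · rw [hw p hp hpc, Finset.sum_eq_zero]
    · rw [Complex.ofReal_zero, zero_mul]
    · intro a _
      rw [Complex.ofReal_zero, zero_mul]
      exact ite_self _

open Classical in
theorem par_c {W Q : ℕ} [NeZero Q] (h : W ∣ Q) (c : ZMod W) (hc : IsUnit c) (P : Finset ℕ)
    (hP : ∀ p ∈ P, Nat.Coprime p Q) (w : ℕ → ℝ) (hw : ∀ p ∈ P, (p : ZMod W) ≠ c → w p = 0)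
    (E : Finset (DirichletCharacter ℂ Q)) (hE : Ineq W E) :
    ∑ a ∈ AC Q W c, ‖((Nat.totient Q : ℂ) / (Nat.totient W : ℂ)) *
        (∑ p ∈ P.filter (fun p => p ≡ a [MOD Q]), (w p : ℂ)) -
        ∑ χ ∈ E, (∑ p ∈ P, (w p : ℂ) * χ (p : ZMod Q)) * conj (χ (a : ZMod Q))‖ ^ 2 =
      (Nat.totient Q : ℝ) / (Nat.totient W : ℝ) ^ 2 *
        ∑ χ ∈ (univ : Finset (DirichletCharacter ℂ Q)).filter (fun χ => ∀ χ' ∈ E, ¬ Eqv W χ' χ),
          ‖∑ p ∈ P, (w p : ℂ) * χ (p : ZMod Q)‖ ^ 2 := by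
  have hQ0 : (Nat.totient Q : ℝ) ≠ 0 := by
    have := Nat.totient_pos.mpr (Nat.pos_of_ne_zero (NeZero.ne Q))
    exact_mod_cast this.ne'
  set k : ℂ := (Nat.totient Q : ℂ) / (Nat.totient W : ℂ) with hk
  set F : DirichletCharacter ℂ Q → ℂ := fun χ => ∑ p ∈ P, (w p : ℂ) * χ (p : ZMod Q) with hF
  have hmain : ∀ χ' : DirichletCharacter ℂ Q,
      ∑ a ∈ AC Q W c, (k * (∑ p ∈ P.filter (fun p => p ≡ a [MOD Q]), (w p : ℂ)) -
        ∑ χ ∈ E, F χ * conj (χ (a : ZMod Q))) * χ' (a : ZMod Q) =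
      if (∀ χ ∈ E, ¬ Eqv W χ χ') then k * F χ' else 0 := by
    intro χ'
    have h1 : ∑ a ∈ AC Q W c, (k * (∑ p ∈ P.filter (fun p => p ≡ a [MOD Q]), (w p : ℂ)) -
        ∑ χ ∈ E, F χ * conj (χ (a : ZMod Q))) * χ' (a : ZMod Q) =
        k * F χ' - ∑ χ ∈ E, F χ * ∑ a ∈ AC Q W c, conj (χ (a : ZMod Q)) * χ' (a : ZMod Q) := by
      have h2 : ∀ a ∈ AC Q W c, (k * (∑ p ∈ P.filter (fun p => p ≡ a [MOD Q]), (w p : ℂ)) -
        ∑ χ ∈ E, F χ * conj (χ (a : ZMod Q))) * χ' (a : ZMod Q) =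
          k * ((∑ p ∈ P.filter (fun p => p ≡ a [MOD Q]), (w p : ℂ)) * χ' (a : ZMod Q)) -
          ∑ χ ∈ E, F χ * (conj (χ (a : ZMod Q)) * χ' (a : ZMod Q)) := by
        intro a _
        rw [sub_mul, mul_assoc]
        congr 1
        rw [Finset.sum_mul]
        exact Finset.sum_congr rfl (fun χ _ => by ring)
      rw [Finset.sum_congr rfl h2, Finset.sum_sub_distrib, ← Finset.mul_sum,
        res_char h c P hP w hw χ', Finset.sum_comm]
      congr 1
      exact Finset.sum_congr rfl (fun χ _ => by rw [Finset.mul_sum])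
    rw [h1]
    by_cases h3 : ∀ χ ∈ E, ¬ Eqv W χ χ'
    · rw [if_pos h3, Finset.sum_eq_zero, sub_zero]
      intro χ hχ
      rw [ac_orth0 h c hc χ χ' (h3 χ hχ), mul_zero]
    · rw [if_neg h3]
      push Not at h3
      obtain ⟨χ₀, hχ₀, h4⟩ := h3
      rw [Finset.sum_eq_single χ₀]
      · obtain ⟨h5, ω, rfl⟩ := h4
        rw [ac_orth h c hc χ₀ ω]
        have h6 : F (χ₀ * DirichletCharacter.changeLevel h5 ω) = ω c * F χ₀ := by
          simp only [hF]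
          rw [Finset.mul_sum]
          refine Finset.sum_congr rfl (fun p hp => ?_)
          by_cases hpc : (p : ZMod W) = c
          · rw [MulChar.mul_apply, cl_val h5 ω (hP p hp), hpc]
            ring
          · rw [hw p hp hpc]
            simp
        rw [h6]
        ring
      · intro χ hχ hne
        rw [ac_orth0 h c hc χ χ', mul_zero]
        intro h7
        exact hE χ hχ χ₀ hχ₀ hne (eqv_trans h7 (eqv_symm h4))
      · intro h8
        exact absurd hχ₀ h8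
  rw [par_all h c]
  have h9 : ∀ χ' : DirichletCharacter ℂ Q,
      ‖∑ a ∈ AC Q W c, (k * (∑ p ∈ P.filter (fun p => p ≡ a [MOD Q]), (w p : ℂ)) -
        ∑ χ ∈ E, F χ * conj (χ (a : ZMod Q))) * χ' (a : ZMod Q)‖ ^ 2 =
      if (∀ χ ∈ E, ¬ Eqv W χ χ') then ‖k‖ ^ 2 * ‖F χ'‖ ^ 2 else 0 := by
    intro χ'
    rw [hmain χ']
    split_ifs
    · rw [norm_mul, mul_pow]
    · simp
  rw [Finset.sum_congr rfl (fun χ' _ => h9 χ'), ← Finset.sum_filter, ← Finset.mul_sum]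
  have h10 : ‖k‖ ^ 2 = (Nat.totient Q : ℝ) ^ 2 / (Nat.totient W : ℝ) ^ 2 := by
    rw [hk, norm_div, Complex.norm_natCast, Complex.norm_natCast, _root_.div_pow]
  rw [h10, ← mul_assoc]
  congr 1
  field_simp

open Classical in
/-- Parseval for the residue sums -/
theorem par_n {W Q : ℕ} [NeZero Q] (h : W ∣ Q) (c : ZMod W) (P : Finset ℕ)
    (hP : ∀ p ∈ P, Nat.Coprime p Q) (w : ℕ → ℝ) (hw : ∀ p ∈ P, (p : ZMod W) ≠ c → w p = 0) :
    ∑ a ∈ AC Q W c, (∑ p ∈ P.filter (fun p => p ≡ a [MOD Q]), w p) ^ 2 =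
      1 / (Nat.totient Q : ℝ) * ∑ χ : DirichletCharacter ℂ Q,
        ‖∑ p ∈ P, (w p : ℂ) * χ (p : ZMod Q)‖ ^ 2 := by
  have h1 := par_all h c (fun a => ∑ p ∈ P.filter (fun p => p ≡ a [MOD Q]), (w p : ℂ))
  have h2 : ∀ a ∈ AC Q W c, ‖∑ p ∈ P.filter (fun p => p ≡ a [MOD Q]), (w p : ℂ)‖ ^ 2 =
      (∑ p ∈ P.filter (fun p => p ≡ a [MOD Q]), w p) ^ 2 := by
    intro a _
    rw [← Complex.ofReal_sum, Complex.norm_real, Real.norm_eq_abs, sq_abs]
  rw [← Finset.sum_congr rfl h2, h1]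
  congr 1
  refine Finset.sum_congr rfl (fun χ _ => ?_)
  rw [res_char h c P hP w hw χ]

end Pool.MP_dd84fd_nt.TC
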