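import Pool.Agent.Lib.MP_dd84fd_nt.TC.Defs

/-!
# G6-One: one scale (helper39)

`OneF` from `CoreF`, `TransF`, `PathF`, `StrF`, `CntT`.  `δ` is so small that `C0 δ ≤ c0 ρ²` with
`ρ = min 1 (c/(log H)^10)` for every `H ≤ C0/δ^C0`.  Two failures `m < m'` outside the exceptional set,
and with small moduli, contradict (CORE); the condition modulo 3 allows one of the two orders.
-/

set_option autoImplicit false

namespace Pool.MP_dd84fd_nt.TC

open Finset Pool.MP_67663b_nt.Odd Pool.MP_dd84fd_nt.En Pool.MP_dd84fd_nt.E2 Pool.MP_dd84fd_nt.LS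
open Pool.MP_dd84fd_nt.GX Pool.MP_dd84fd_nt.HX Pool.MP_dd84fd_nt.IX
open Pool.MP_dd84fd_nt.BX (PC pv IsPC PR SX sN prc ind)

/-- powers of the logarithm are smaller than powers of `X` -/
theorem g6_pow_log_le (K : ℕ) (C ν : ℝ) (hν : 0 < ν) :
    ∃ X0 : ℕ, ∀ X : ℕ, X0 ≤ X → C * (Real.log X) ^ K ≤ (X : ℝ) ^ ν := by
  have h := isLittleO_log_rpow_rpow_atTop (K : ℝ) hν
  have h2 := h.bound (c := 1 / (|C| + 1)) (by positivity)
  have h3 := (tendsto_natCast_atTop_atTop (R := ℝ)).eventually h2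
  obtain ⟨X1, hX1⟩ := Filter.eventually_atTop.1 h3
  refine ⟨max X1 3, fun X hX => ?_⟩
  have h4 := hX1 X (le_trans (le_max_left _ _) hX)
  have hX3 : 3 ≤ X := le_trans (le_max_right _ _) hX
  have hXp : (0 : ℝ) < X := by exact_mod_cast (by omega : 0 < X)
  have hlog : 0 ≤ Real.log X := Real.log_nonneg (by exact_mod_cast (by omega : 1 ≤ X))
  rw [Real.rpow_natCast, Real.norm_of_nonneg (pow_nonneg hlog K),
    Real.norm_of_nonneg (Real.rpow_nonneg hXp.le ν)] at h4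
  have h5 : (|C| + 1) * (Real.log X) ^ K ≤ (X : ℝ) ^ ν := by
    have : (|C| + 1) * (Real.log X) ^ K ≤ (|C| + 1) * (1 / (|C| + 1) * (X : ℝ) ^ ν) :=
      mul_le_mul_of_nonneg_left h4 (by positivity)
    refine this.trans (le_of_eq ?_)
    field_simp
  refine le_trans ?_ h5
  exact mul_le_mul_of_nonneg_right (by linarith [le_abs_self C]) (pow_nonneg hlog K)

/-- the logarithm is large -/
theorem g6_log_ge (M : ℝ) : ∃ X0 : ℕ, ∀ X : ℕ, X0 ≤ X → M ≤ Real.log X := by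
  have h := (Real.tendsto_log_atTop.comp (tendsto_natCast_atTop_atTop (R := ℝ))).eventually_ge_atTop M
  obtain ⟨X0, hX0⟩ := Filter.eventually_atTop.1 h
  exact ⟨X0, fun X hX => hX0 X hX⟩

/-- the choice of `δ` -/
theorem g6_delta (c0 c : ℝ) (C0 : ℕ) (hc0 : 0 < c0) (hc : 0 < c) :
    ∃ δ : ℝ, 0 < δ ∧ δ ≤ 1 ∧ ∀ H : ℕ, 2 ≤ H → (H : ℝ) ≤ C0 / δ ^ C0 →
      C0 * δ ≤ c0 * (min 1 (c / (Real.log H) ^ 10)) ^ 2 := by
  rcases Nat.eq_zero_or_pos C0 with hz | hpos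
  · refine ⟨1, one_pos, le_rfl, fun H hH hH2 => ?_⟩
    subst hz
    simp only [Nat.cast_zero, zero_mul]
    positivity
  have hC1 : (1 : ℝ) ≤ C0 := by exact_mod_cast hpos
  have t1 := Real.tendsto_pow_mul_exp_neg_atTop_nhds_zero 20
  have t0 := Real.tendsto_pow_mul_exp_neg_atTop_nhds_zero 0
  have e1 : (0 : ℝ) < c0 * c ^ 2 / ((C0 : ℝ) * (2 * C0) ^ 20) := by positivity
  have e0 : (0 : ℝ) < c0 / C0 := by positivity
  have h1 := t1.eventually (gt_mem_nhds e1)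
  have h0 := t0.eventually (gt_mem_nhds e0)
  obtain ⟨t, ⟨ht1, ht0⟩, ht⟩ := ((h1.and h0).and (Filter.eventually_ge_atTop (1 : ℝ))).exists
  refine ⟨Real.exp (-t), Real.exp_pos _, Real.exp_le_one_iff.2 (by linarith), fun H hH hH2 => ?_⟩
  have hHr : (2 : ℝ) ≤ H := by exact_mod_cast hH
  have hlH : 0 < Real.log H := Real.log_pos (by linarith)
  have hlog : Real.log H ≤ 2 * C0 * t := by
    have h2 : Real.log H ≤ Real.log (C0 / Real.exp (-t) ^ C0) :=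
      Real.log_le_log (by linarith) hH2
    have h3 : Real.log (C0 / Real.exp (-t) ^ C0) = Real.log C0 + C0 * t := by
      rw [Real.log_div (by positivity) (by positivity), Real.log_pow, Real.log_exp]
      ring
    have h4 : Real.log C0 ≤ C0 := (Real.log_le_sub_one_of_pos (by linarith)).trans (by linarith)
    have h5 : (C0 : ℝ) ≤ C0 * t := by nlinarith
    linarith
  have hd : Real.exp (-t) ≤ c0 / C0 := by
    have := ht0.le
    simpa using this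
  rcases min_cases 1 (c / (Real.log H) ^ 10) with ⟨hm, _⟩ | ⟨hm, _⟩
  · rw [hm]
    have := mul_le_mul_of_nonneg_left hd (by linarith : (0 : ℝ) ≤ C0)
    have h6 : (C0 : ℝ) * (c0 / C0) = c0 := by field_simp
    linarith
  · rw [hm, div_pow, ← pow_mul]
    have h7 : t ^ 20 * Real.exp (-t) ≤ c0 * c ^ 2 / ((C0 : ℝ) * (2 * C0) ^ 20) := ht1.le
    have h8 : (Real.log H) ^ (10 * 2) ≤ (2 * C0 * t) ^ 20 := pow_le_pow_left₀ hlH.le hlog 20
    rw [mul_div_assoc', le_div_iff₀ (by positivity)]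
    calc (C0 : ℝ) * Real.exp (-t) * Real.log H ^ (10 * 2)
        ≤ (C0 : ℝ) * Real.exp (-t) * (2 * C0 * t) ^ 20 :=
          mul_le_mul_of_nonneg_left h8 (by positivity)
      _ = ((C0 : ℝ) * (2 * C0) ^ 20) * (t ^ 20 * Real.exp (-t)) := by ring
      _ ≤ ((C0 : ℝ) * (2 * C0) ^ 20) * (c0 * c ^ 2 / ((C0 : ℝ) * (2 * C0) ^ 20)) :=
          mul_le_mul_of_nonneg_left h7 (by positivity)
      _ = c0 * c ^ 2 := by field_simp

private theorem LM_nonneg (X : ℕ) (B n Q : ℕ) (hX : 1 ≤ X) : 0 ≤ LM X (Dl B X) n Q := by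
  have h1 : 0 ≤ Real.log X := Real.log_nonneg (by exact_mod_cast hX)
  unfold LM Dl
  positivity

/-- one scale -/
theorem oneF (hC : CoreF) (hT : TransF) (hP : PathF) (hS : StrF) (hN : CntT) : OneF := by
  intro ν h0 h1
  obtain ⟨c0, hc0, hC⟩ := hC ν h0 h1
  obtain ⟨C0, B1, hB1, hT⟩ := hT ν h0 h1
  obtain ⟨c, hc, hP⟩ := hP
  obtain ⟨δ, hδ0, hδ1, hδ⟩ := g6_delta c0 c C0 hc0 hc
  refine ⟨δ, hδ0, fun K => ?_⟩
  obtain ⟨H, N, hH, hH2, XT, hT⟩ := hT B1 le_rfl δ hδ0 hδ1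
  have hδ := hδ H hH2 hH
  have hHr : (2 : ℝ) ≤ H := by exact_mod_cast hH2
  have hlH : 0 < Real.log H := Real.log_pos (by linarith)
  set ρ : ℝ := min 1 (c / (Real.log H) ^ 10) with hρdef
  have hρ0 : 0 < ρ := lt_min one_pos (by positivity)
  have hρ1 : ρ ≤ 1 := min_le_left _ _
  have hρ2 : ρ ≤ c / (Real.log H) ^ 10 := min_le_right _ _
  obtain ⟨XC, hC⟩ := hC B1 (K + 1) ρ hB1 hρ0 hρ1
  obtain ⟨XN, hN⟩ := hN ν h0 h1 H N K
  obtain ⟨Xa, ha⟩ := g6_pow_log_le K 20 1 one_pos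
  obtain ⟨Xb, hb⟩ := g6_pow_log_le K 4 ν h0
  obtain ⟨Xc, hc'⟩ := g6_log_ge (max 1 (2 * (Lm H : ℝ) ^ 2))
  refine ⟨max (max (max XT XC) (max XN Xa)) (max (max Xb Xc) 1), fun X hX => ?_⟩
  have hXT : XT ≤ X := le_trans (le_trans (le_trans (le_max_left _ _) (le_max_left _ _))
    (le_max_left _ _)) hX
  have hXC : XC ≤ X := le_trans (le_trans (le_trans (le_max_right _ _) (le_max_left _ _))
    (le_max_left _ _)) hX
  have hXN : XN ≤ X := le_trans (le_trans (le_trans (le_max_left _ _) (le_max_right _ _))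
    (le_max_left _ _)) hX
  have hXa : Xa ≤ X := le_trans (le_trans (le_trans (le_max_right _ _) (le_max_right _ _))
    (le_max_left _ _)) hX
  have hXb : Xb ≤ X := le_trans (le_trans (le_trans (le_max_left _ _) (le_max_left _ _))
    (le_max_right _ _)) hX
  have hXc : Xc ≤ X := le_trans (le_trans (le_trans (le_max_right _ _) (le_max_left _ _))
    (le_max_right _ _)) hX
  have hX1 : 1 ≤ X := le_trans (le_trans (le_max_right _ _) (le_max_right _ _)) hX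
  have hXr : (1 : ℝ) ≤ X := by exact_mod_cast hX1
  obtain ⟨Y, Ex, hY, hEx, hY1, hT⟩ := hT X hXT
  have ha := ha X hXa
  have hb := hb X hXb
  have hc' := hc' X hXc
  have hN := hN X hXN Y hY (fun ψ hψ => (hY1 ψ hψ).1)
  rw [Real.rpow_one] at ha
  have hL1 : 1 ≤ Real.log X := le_trans (le_max_left _ _) hc'
  have hL2 : 2 * (Lm H : ℝ) ^ 2 ≤ Real.log X := le_trans (le_max_right _ _) hc'
  have hLK : 1 ≤ (Real.log X) ^ K := one_le_pow₀ hL1
  have hLK1 : (Real.log X) ^ K ≤ (Real.log X) ^ (K + 1) := pow_le_pow_right₀ hL1 (Nat.le_succ K)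
  -- two failures
  have key : ∀ n n' : ℕ, n ≠ n' → 6 / 10 * (X : ℝ) ≤ n → (n : ℝ) ≤ 9 / 10 * X →
      6 / 10 * (X : ℝ) ≤ n' → (n' : ℝ) ≤ 9 / 10 * X → |(n' : ℝ) - n| ≤ (Real.log X) ^ K →
      Bd δ n → Bd δ n' → n ∉ Ex → n' ∉ Ex →
      2 * (Lm H : ℝ) * (Nat.lcm (qY Y H n) (qY Y H n') : ℝ) ≤ (X : ℝ) ^ (2 / 3 - ν) →
      (n % 3 = 0 ∨ n % 3 = n' % 3) → False := by
    intro n n' hne a1 a2 b1 b2 hd g1 g2 e1 e2 hl h3
    have hn1 : 1 ≤ n := by
      have : (0 : ℝ) < n := by linarith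
      exact_mod_cast this
    have hn1' : 1 ≤ n' := by
      have : (0 : ℝ) < n' := by linarith
      exact_mod_cast this
    obtain ⟨W, Q1, Q2, q1, q2, hgcd, h2W, hW, d1, d2, hlcm, f1, f2, hpr⟩ :=
      hS Y H n n' (fun ψ hψ => (hY1 ψ hψ).1) hH2 hn1 hn1' hne
    have hW1 : 1 ≤ W := by
      rw [← hgcd]
      exact Nat.gcd_pos_of_pos_left _ q1
    have hlcm' : (Nat.lcm Q1 Q2 : ℝ) ≤ (X : ℝ) ^ (2 / 3 - ν) := by
      refine le_trans ?_ hl
      exact_mod_cast hlcm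
    have hlpos : 0 < Nat.lcm Q1 Q2 := Nat.lcm_pos q1 q2
    have hQ1 : (Q1 : ℝ) ≤ (X : ℝ) ^ (2 / 3 - ν) := by
      refine le_trans ?_ hlcm'
      exact_mod_cast Nat.le_of_dvd hlpos (Nat.dvd_lcm_left Q1 Q2)
    have hQ2 : (Q2 : ℝ) ≤ (X : ℝ) ^ (2 / 3 - ν) := by
      refine le_trans ?_ hlcm'
      exact_mod_cast Nat.le_of_dvd hlpos (Nat.dvd_lcm_right Q1 Q2)
    have hWQ1 : W ∣ Q1 := by rw [← hgcd]; exact Nat.gcd_dvd_left _ _
    have hWQ2 : W ∣ Q2 := by rw [← hgcd]; exact Nat.gcd_dvd_right _ _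
    have hWK : (W : ℝ) ≤ (Real.log X) ^ (K + 1) := by
      refine hW.trans ?_
      calc 2 * (Lm H : ℝ) ^ 2 * |(n' : ℝ) - n| ≤ Real.log X * (Real.log X) ^ K :=
            mul_le_mul hL2 hd (abs_nonneg _) (by linarith)
        _ = (Real.log X) ^ (K + 1) := by ring
    have T1 := hT n a1 a2 g1.1 e1 g1.2 Q1 q1 (h2W.trans hWQ1) hQ1 f1
    have T2 := hT n' b1 b2 g2.1 e2 g2.2 Q2 q2 (h2W.trans hWQ2) hQ2 f2
    have hPa := hP H W n n' hH2 hW1 g1.1 g2.1 hpr h3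
    have hPb : ρ * Nat.totient W ≤ ((PathSet W n n').card : ℝ) :=
      le_trans (mul_le_mul_of_nonneg_right hρ2 (Nat.cast_nonneg _)) hPa
    exact hC X hXC n n' Q1 Q2 W q1 q2 hgcd hWK d1 d2 hlcm' a1 a2 (hd.trans hLK1) hPb
      (T1.trans (mul_le_mul_of_nonneg_right hδ (LM_nonneg X B1 n Q1 hX1)))
      (T2.trans (mul_le_mul_of_nonneg_right hδ (LM_nonneg X B1 n' Q2 hX1)))
  -- counting
  classical
  set S := (Icc 1 X).filter (fun n : ℕ => ∃ n' : ℕ, n' ≤ 2 * X ∧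
    |(n' : ℝ) - n| ≤ (Real.log X) ^ K ∧
      (X : ℝ) ^ (2 / 3 - ν) < 2 * (Lm H : ℝ) * (Nat.lcm (qY Y H n) (qY Y H n') : ℝ)) with hSdef
  have hScard : (S.card : ℝ) ≤ (X : ℝ) ^ (1 / 3 + 2 * ν) := hN
  set L := ⌊(Real.log X) ^ K⌋₊ with hLdef
  have hLr : (L : ℝ) ≤ (Real.log X) ^ K := Nat.floor_le (by positivity)
  have hsub : ((Icc 1 X).filter (fun n : ℕ => 65 / 100 * (X : ℝ) ≤ n ∧ (n : ℝ) ≤ 85 / 100 * X ∧
      ∃ m m' : ℕ, n ≤ m ∧ m < m' ∧ (m' : ℝ) ≤ n + (Real.log X) ^ K ∧ Bd δ m ∧ Bd δ m' ∧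
        m * m' % 3 ≠ 2)) ⊆ (Ex ∪ S).biUnion (fun e => Icc (e - L) e) := by
    intro n hn
    rw [mem_filter] at hn
    obtain ⟨hnI, hn1, hn2, m, m', hm, hmm, hm', g1, g2, h3⟩ := hn
    have hmr : (n : ℝ) ≤ m := by exact_mod_cast hm
    have hmmr : (m : ℝ) < m' := by exact_mod_cast hmm
    have hloc : ∀ e : ℕ, n ≤ e → (e : ℝ) ≤ n + (Real.log X) ^ K → n ∈ Icc (e - L) e := by
      intro e he he'
      rw [mem_Icc]
      refine ⟨?_, he⟩
      have h5 : ((e - n : ℕ) : ℝ) ≤ (Real.log X) ^ K := by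
        rw [Nat.cast_sub he]; linarith
      have h6 : e - n ≤ L := Nat.le_floor h5
      omega
    rw [mem_biUnion]
    by_cases e1 : m ∈ Ex
    · exact ⟨m, mem_union_left _ e1, hloc m hm (by linarith)⟩
    by_cases e2 : m' ∈ Ex
    · exact ⟨m', mem_union_left _ e2, hloc m' (by omega) hm'⟩
    by_cases e3 : m ∈ S
    · exact ⟨m, mem_union_right _ e3, hloc m hm (by linarith)⟩
    exfalso
    have hm09 : (m' : ℝ) ≤ 9 / 10 * X := by linarith
    have habs : |(m' : ℝ) - m| ≤ (Real.log X) ^ K := by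
      rw [abs_of_pos (by linarith)]; linarith
    have hl : 2 * (Lm H : ℝ) * (Nat.lcm (qY Y H m) (qY Y H m') : ℝ) ≤ (X : ℝ) ^ (2 / 3 - ν) := by
      by_contra hcon
      push Not at hcon
      apply e3
      rw [hSdef, mem_filter, mem_Icc]
      refine ⟨⟨?_, ?_⟩, m', ?_, habs, hcon⟩
      · have := (mem_Icc.1 hnI).1; omega
      · have : (m : ℝ) ≤ X := by linarith
        exact_mod_cast this
      · have : (m' : ℝ) ≤ ((2 * X : ℕ) : ℝ) := by push_cast; linarith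
        exact_mod_cast this
    have hmm3 : m * m' % 3 = (m % 3) * (m' % 3) % 3 := Nat.mul_mod m m' 3
    have hcase : (m % 3 = 0 ∨ m % 3 = m' % 3) ∨ (m' % 3 = 0 ∨ m' % 3 = m % 3) := by
      have r1 : m % 3 = 0 ∨ m % 3 = 1 ∨ m % 3 = 2 := by omega
      have r2 : m' % 3 = 0 ∨ m' % 3 = 1 ∨ m' % 3 = 2 := by omega
      rcases r1 with r1 | r1 | r1 <;> rcases r2 with r2 | r2 | r2 <;> rw [r1, r2] at hmm3 ⊢ <;>
        omega
    rcases hcase with h | h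
    · exact key m m' (by omega) (by linarith) (by linarith) (by linarith) hm09 habs g1 g2 e1 e2 hl h
    · refine key m' m (by omega) (by linarith) hm09 (by linarith) (by linarith) ?_ g2 g1 e2 e1 ?_ h
      · rw [abs_sub_comm]; exact habs
      · rw [Nat.lcm_comm]; exact hl
  have hcard : (((Icc 1 X).filter (fun n : ℕ => 65 / 100 * (X : ℝ) ≤ n ∧ (n : ℝ) ≤ 85 / 100 * X ∧
      ∃ m m' : ℕ, n ≤ m ∧ m < m' ∧ (m' : ℝ) ≤ n + (Real.log X) ^ K ∧ Bd δ m ∧ Bd δ m' ∧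
        m * m' % 3 ≠ 2)).card) ≤ (Ex.card + S.card) * (L + 1) := by
    refine (card_le_card hsub).trans (card_biUnion_le.trans ?_)
    calc ∑ e ∈ Ex ∪ S, (Icc (e - L) e).card ≤ ∑ e ∈ Ex ∪ S, (L + 1) := by
          refine sum_le_sum fun e _ => ?_
          rw [Nat.card_Icc]; omega
      _ = (Ex ∪ S).card * (L + 1) := by rw [sum_const, smul_eq_mul]
      _ ≤ (Ex.card + S.card) * (L + 1) := Nat.mul_le_mul_right _ (card_union_le _ _)
  have hcardr : ((((Icc 1 X).filter (fun n : ℕ => 65 / 100 * (X : ℝ) ≤ n ∧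
      (n : ℝ) ≤ 85 / 100 * X ∧
      ∃ m m' : ℕ, n ≤ m ∧ m < m' ∧ (m' : ℝ) ≤ n + (Real.log X) ^ K ∧ Bd δ m ∧ Bd δ m' ∧
        m * m' % 3 ≠ 2)).card : ℕ) : ℝ) ≤ ((Ex.card : ℝ) + S.card) * (L + 1) := by
    exact_mod_cast hcard
  have hmono : (X : ℝ) ^ (1 / 3 + ν) ≤ (X : ℝ) ^ (1 / 3 + 2 * ν) :=
    Real.rpow_le_rpow_of_exponent_le hXr (by linarith)
  have hfin : ((Ex.card : ℝ) + S.card) * (L + 1) ≤ (X : ℝ) ^ (1 / 3 + 3 * ν) := by
    calc ((Ex.card : ℝ) + S.card) * (L + 1)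
        ≤ (2 * (X : ℝ) ^ (1 / 3 + 2 * ν)) * (2 * (Real.log X) ^ K) :=
          mul_le_mul (by linarith) (by linarith) (by positivity) (by positivity)
      _ = (X : ℝ) ^ (1 / 3 + 2 * ν) * (4 * (Real.log X) ^ K) := by ring
      _ ≤ (X : ℝ) ^ (1 / 3 + 2 * ν) * (X : ℝ) ^ ν :=
          mul_le_mul_of_nonneg_left hb (by positivity)
      _ = (X : ℝ) ^ (1 / 3 + 3 * ν) := by
          rw [← Real.rpow_add (by linarith)]
          congr 1
          ring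
  exact hcardr.trans hfin

end Pool.MP_dd84fd_nt.TC
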