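import Pool.Agent.Lib.MP_dd84fd_nt.TC.HDefs
import Pool.Agent.Lib.MP_dd84fd_nt.TC.One
import Pool.Agent.Lib.MP_dd84fd_nt.QZ.Za
import Pool.Agent.Lib.MP_dd84fd_nt.QZ.Hv
import Pool.Agent.Lib.MP_dd84fd_nt.SW.LamChar

/-!
# G6-FinH: the theorem for pairs of failures at any distance from one scale (helper18)

Scales `Y = ⌊(11/10)^i⌋`: for `(11/10)^i ≤ 10 m / 6 < (11/10)^(i+1)` and `m < m' ≤ 5 m / 4` one has
`6/10 Y ≤ m` and `m' ≤ 9/10 Y`.  The heavy character of a pair is heavy on `[(2X)^(1/7), 2X]`, so by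
`QZ.za` it is the same for all pairs and all scales; its modulus is larger than every power of `log X`
(`hvy_sw`, Siegel-Walfisz).
-/

set_option autoImplicit false

namespace Pool.MP_dd84fd_nt.TC

open Finset Pool.MP_67663b_nt.Odd Pool.MP_dd84fd_nt.En Pool.MP_dd84fd_nt.E2 Pool.MP_dd84fd_nt.LS
open Pool.MP_dd84fd_nt.GX Pool.MP_dd84fd_nt.HX Pool.MP_dd84fd_nt.IX
open Pool.MP_dd84fd_nt.BX (PC pv IsPC PR SX sN prc ind)
open Pool.MP_dd84fd_nt.QZ (Hvy)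

private theorem fh_ne_one (ψ : PC) (h1 : IsPC ψ) (h2 : 2 ≤ ψ.1) : ψ.2 ≠ 1 := by
  intro h
  have h4 : ψ.2.conductor = ψ.1 := h1.2
  rw [h] at h4
  have : NeZero ψ.1 := ⟨by omega⟩
  rw [DirichletCharacter.conductor_one] at h4
  omega

/-- the modulus of a heavy character is larger than every power of `log X` -/
theorem hvy_sw (lam c : ℝ) (hlam : 0 < lam) (hc : 0 < c) (B K : ℕ) : ∃ X0 : ℕ, ∀ X : ℕ, X0 ≤ X →
    ∀ ψ : PC, IsPC ψ → 2 ≤ ψ.1 → Hvy lam c B X ψ → Real.log X ^ K < ψ.1 := by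
  obtain ⟨N0, hN⟩ := SW.lam_char (B + 1) (K + 1)
  obtain ⟨X0, hX0⟩ := g6_log_ge (max (max (2 * Real.log 2 / c) (Real.log (2 * N0 + 4) / c))
    (max (max ((2 / c) ^ (K + 1)) (8 * (2 / c) ^ (B + 1) / lam)) 1))
  refine ⟨max X0 1, fun X hX ψ h1 h2 hh => ?_⟩
  have hb := hX0 X ((le_max_left _ _).trans hX)
  have hX1 : 1 ≤ X := (le_max_right _ _).trans hX
  have hXp : (0 : ℝ) < X := by exact_mod_cast hX1
  obtain ⟨L, hL⟩ : ∃ L : ℝ, L = Real.log X := ⟨_, rfl⟩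
  rw [← hL] at hb ⊢
  have e1 : 2 * Real.log 2 / c ≤ L := ((le_max_left _ _).trans (le_max_left _ _)).trans hb
  have e2 : Real.log (2 * N0 + 4) / c ≤ L := ((le_max_right _ _).trans (le_max_left _ _)).trans hb
  have e3 : (2 / c) ^ (K + 1) ≤ L :=
    (((le_max_left _ _).trans (le_max_left _ _)).trans (le_max_right _ _)).trans hb
  have e4 : 8 * (2 / c) ^ (B + 1) / lam ≤ L :=
    (((le_max_right _ _).trans (le_max_left _ _)).trans (le_max_right _ _)).trans hb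
  have e5 : (1 : ℝ) ≤ L := ((le_max_right _ _).trans (le_max_right _ _)).trans hb
  rw [div_le_iff₀ hc] at e1 e2
  rw [div_le_iff₀ hlam] at e4
  by_contra hcon
  rw [not_lt] at hcon
  obtain ⟨x, H, hH, hx, hxX, hHx, hxH, hS⟩ := hh
  rw [← hL] at hxH
  have hXc : 0 < (X : ℝ) ^ c := Real.rpow_pos_of_pos hXp c
  have hxp : 0 < x := hXc.trans_le hx
  have hlogx : L * c ≤ Real.log x := by
    have h3 := Real.log_le_log hXc hx
    rw [Real.log_rpow hXp, ← hL] at h3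
    linarith
  have hN0 : (0 : ℝ) ≤ N0 := Nat.cast_nonneg _
  have hx4 : 2 * (N0 : ℝ) + 4 ≤ x :=
    (Real.log_le_log_iff (by linarith) hxp).1 (e2.trans hlogx)
  have hNx : ((⌊x⌋₊ : ℕ) : ℝ) ≤ x := Nat.floor_le hxp.le
  have hxN : x < (⌊x⌋₊ : ℕ) + 1 := Nat.lt_floor_add_one x
  have hNN : ⌊x⌋₊ ≤ ⌊x + H⌋₊ := Nat.floor_mono (by linarith)
  have hNx' : ((⌊x + H⌋₊ : ℕ) : ℝ) ≤ x + H := Nat.floor_le (by linarith)
  have hne := fh_ne_one ψ h1 h2
  -- the sums over initial intervals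
  have key : ∀ M : ℕ, ⌊x⌋₊ ≤ M →
      ‖∑ n ∈ Icc 1 M, ((ArithmeticFunction.vonMangoldt n : ℝ) : ℂ) * pv ψ n‖ ≤
        M / (c * L / 2) ^ (B + 1) := by
    intro M hM
    have hMx : (⌊x⌋₊ : ℝ) ≤ M := by exact_mod_cast hM
    have hM0 : N0 ≤ M := by
      have : (N0 : ℝ) ≤ M := by linarith
      exact_mod_cast this
    have hlogM : c * L / 2 ≤ Real.log M := by
      have h3 : x / 2 ≤ M := by linarith
      have h4 := Real.log_le_log (by positivity) h3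
      rw [Real.log_div hxp.ne' (by norm_num)] at h4
      linarith
    have hcL : 0 < c * L / 2 := by positivity
    have hq : (ψ.1 : ℝ) ≤ Real.log M ^ (K + 1) := by
      refine hcon.trans ?_
      have h5 : L ^ K ≤ (c * L / 2) ^ (K + 1) := by
        have h6 : 1 ≤ (c / 2) ^ (K + 1) * L := by
          have h7 : (c / 2) ^ (K + 1) * (2 / c) ^ (K + 1) = 1 := by
            rw [← mul_pow]
            have : c / 2 * (2 / c) = 1 := by field_simp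
            rw [this, one_pow]
          calc (1 : ℝ) = (c / 2) ^ (K + 1) * (2 / c) ^ (K + 1) := h7.symm
            _ ≤ (c / 2) ^ (K + 1) * L := mul_le_mul_of_nonneg_left e3 (by positivity)
        calc L ^ K = 1 * L ^ K := (one_mul _).symm
          _ ≤ ((c / 2) ^ (K + 1) * L) * L ^ K := mul_le_mul_of_nonneg_right h6 (by positivity)
          _ = (c * L / 2) ^ (K + 1) := by
            rw [show c * L / 2 = c / 2 * L by ring, mul_pow, pow_succ L K]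
            ring
      exact h5.trans (pow_le_pow_left₀ hcL.le hlogM _)
    have h8 := hN M hM0 ψ.1 ψ.2 h1.1 hq hne
    refine le_trans h8 ?_
    exact div_le_div_of_nonneg_left (Nat.cast_nonneg _) (by positivity)
      (pow_le_pow_left₀ hcL.le hlogM _)
  have hsum : ∑ n ∈ Ioc ⌊x⌋₊ ⌊x + H⌋₊, ((ArithmeticFunction.vonMangoldt n : ℝ) : ℂ) * pv ψ n =
      ∑ n ∈ Icc 1 ⌊x + H⌋₊, ((ArithmeticFunction.vonMangoldt n : ℝ) : ℂ) * pv ψ n -
      ∑ n ∈ Icc 1 ⌊x⌋₊, ((ArithmeticFunction.vonMangoldt n : ℝ) : ℂ) * pv ψ n := by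
    have hI : ∀ b : ℕ, Icc 1 b = Ioc 0 b := by
      intro b
      ext n
      rw [mem_Icc, mem_Ioc]
      omega
    rw [hI, hI, ← Finset.sum_Ioc_consecutive _ (Nat.zero_le _) hNN]
    ring
  have hcLp : 0 < (c * L / 2) ^ (B + 1) := by positivity
  have hnorm : lam * H ≤ 3 * x / (c * L / 2) ^ (B + 1) := by
    refine hS.trans ?_
    rw [hsum]
    refine (norm_sub_le _ _).trans ((add_le_add (key _ hNN) (key _ le_rfl)).trans ?_)
    rw [← add_div]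
    exact div_le_div_of_nonneg_right (by linarith) hcLp.le
  rw [le_div_iff₀ hcLp] at hnorm
  have h9 : lam * x * (c * L / 2) ^ (B + 1) ≤ 3 * x * L ^ B := by
    calc lam * x * (c * L / 2) ^ (B + 1) ≤ lam * (H * L ^ B) * (c * L / 2) ^ (B + 1) := by
          refine mul_le_mul_of_nonneg_right (mul_le_mul_of_nonneg_left hxH hlam.le) hcLp.le
      _ = lam * H * (c * L / 2) ^ (B + 1) * L ^ B := by ring
      _ ≤ 3 * x * L ^ B := mul_le_mul_of_nonneg_right hnorm (by positivity)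
  have h10 : (c * L / 2) ^ (B + 1) = (c / 2) ^ (B + 1) * L * L ^ B := by
    rw [show c * L / 2 = c / 2 * L by ring, mul_pow, pow_succ L B]
    ring
  rw [h10] at h9
  have hLB : 0 < L ^ B := by positivity
  have h11 : lam * ((c / 2) ^ (B + 1) * L) ≤ 3 := by
    have h12 : (lam * ((c / 2) ^ (B + 1) * L)) * (x * L ^ B) ≤ 3 * (x * L ^ B) := by
      calc (lam * ((c / 2) ^ (B + 1) * L)) * (x * L ^ B) =
          lam * x * ((c / 2) ^ (B + 1) * L * L ^ B) := by ring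
        _ ≤ 3 * x * L ^ B := h9
        _ = 3 * (x * L ^ B) := by ring
    exact le_of_mul_le_mul_right h12 (by positivity)
  have h13 : (c / 2) ^ (B + 1) * (2 / c) ^ (B + 1) = 1 := by
    rw [← mul_pow]
    have : c / 2 * (2 / c) = 1 := by field_simp
    rw [this, one_pow]
  have h14 : 8 ≤ lam * ((c / 2) ^ (B + 1) * L) := by
    calc (8 : ℝ) = 8 * ((c / 2) ^ (B + 1) * (2 / c) ^ (B + 1)) := by rw [h13, mul_one]
      _ = (c / 2) ^ (B + 1) * (8 * (2 / c) ^ (B + 1)) := by ring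
      _ ≤ (c / 2) ^ (B + 1) * (L * lam) := mul_le_mul_of_nonneg_left e4 (by positivity)
      _ = lam * ((c / 2) ^ (B + 1) * L) := by ring
  linarith

/-- a heavy character at the scale `Y` is heavy on `[(2X)^(1/7), 2X]` -/
private theorem fh_hvy {lam : ℝ} {B' X Y : ℕ} {ψ : PC} (hX : 6 ≤ Real.log X)
    (h1 : (X : ℝ) ^ (1 / 3 : ℝ) ≤ Y) (h2 : Y ≤ 2 * X) (h3 : 1 ≤ Y)
    (hh : Hvy lam (1 / 2) B' Y ψ) : Hvy lam (1 / 7) B' (2 * X) ψ := by
  obtain ⟨x, H, hH, hx, hxX, hHx, hxH, hS⟩ := hh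
  have hXp : (0 : ℝ) < X := by
    by_contra hcon
    have h0 : (X : ℝ) = 0 := le_antisymm (not_lt.1 hcon) (Nat.cast_nonneg _)
    rw [h0, Real.log_zero] at hX
    linarith
  have hYp : (0 : ℝ) < Y := by exact_mod_cast h3
  have hY2 : (Y : ℝ) ≤ ((2 * X : ℕ) : ℝ) := by exact_mod_cast h2
  refine ⟨x, H, hH, ?_, hxX.trans hY2, hHx, ?_, hS⟩
  · refine le_trans ?_ hx
    have h4 : ((X : ℝ) ^ (1 / 3 : ℝ)) ^ (1 / 2 : ℝ) ≤ (Y : ℝ) ^ (1 / 2 : ℝ) :=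
      Real.rpow_le_rpow (by positivity) h1 (by norm_num)
    refine le_trans ?_ h4
    rw [← Real.rpow_mul hXp.le, Real.rpow_def_of_pos (by push_cast; positivity),
      Real.rpow_def_of_pos hXp]
    refine Real.exp_le_exp.2 ?_
    push_cast
    rw [Real.log_mul (by norm_num) hXp.ne']
    have h5 : Real.log 2 ≤ 1 := by
      have := Real.log_two_lt_d9
      linarith
    linarith
  · refine hxH.trans (mul_le_mul_of_nonneg_left ?_ hH.le)
    exact pow_le_pow_left₀ (Real.log_nonneg (by exact_mod_cast h3))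
      (Real.log_le_log hYp hY2) _

/-- the scale of `m` -/
private theorem fh_scale (m : ℕ) (hm : 10 ≤ m) : ∃ i : ℕ, ((11 / 10 : ℝ)) ^ i ≤ 10 / 6 * m ∧
    6 / 10 * ((⌊(11 / 10 : ℝ) ^ i⌋₊ : ℕ) : ℝ) ≤ m ∧
    (m : ℝ) ≤ 66 / 100 * (((⌊(11 / 10 : ℝ) ^ i⌋₊ : ℕ) : ℝ) + 1) := by
  have hmr : (10 : ℝ) ≤ m := by exact_mod_cast hm
  obtain ⟨i, hi1, hi2⟩ := exists_nat_pow_near (x := 10 / 6 * (m : ℝ)) (y := (11 / 10 : ℝ))
    (by linarith) (by norm_num)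
  refine ⟨i, hi1, ?_, ?_⟩
  · have := Nat.floor_le (a := (11 / 10 : ℝ) ^ i) (by positivity)
    linarith
  · have h1 := Nat.lt_floor_add_one ((11 / 10 : ℝ) ^ i)
    rw [pow_succ] at hi2
    linarith

/-- the number of scales -/
private theorem fh_scale_le (i : ℕ) (X : ℝ) (hX : 2 ≤ X) (h : (11 / 10 : ℝ) ^ i ≤ 2 * X) :
    (i : ℝ) ≤ 22 * Real.log X := by
  have h1 : (i : ℝ) * Real.log (11 / 10) ≤ Real.log (2 * X) := by
    rw [← Real.log_pow]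
    exact Real.log_le_log (by positivity) h
  have h2 : (1 : ℝ) / 11 ≤ Real.log (11 / 10) := by
    have := Real.one_sub_inv_le_log_of_pos (x := (11 / 10 : ℝ)) (by norm_num)
    norm_num at this ⊢
    linarith
  have h3 : Real.log (2 * X) ≤ 2 * Real.log X := by
    rw [Real.log_mul (by norm_num) (by linarith)]
    have := Real.log_le_log (by norm_num) hX
    linarith
  have h4 : (i : ℝ) * (1 / 11) ≤ i * Real.log (11 / 10) :=
    mul_le_mul_of_nonneg_left h2 (Nat.cast_nonneg i)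
  linarith

/-- `q / (q, M)` divides `g` if `q ∣ M g` -/
private theorem fh_dvd {q M g : ℕ} (hq : 1 ≤ q) (h : q ∣ M * g) : q / Nat.gcd q M ∣ g := by
  have hG : 0 < Nat.gcd q M := Nat.gcd_pos_of_pos_left _ hq
  have h1 : Nat.Coprime (q / Nat.gcd q M) (M / Nat.gcd q M) := Nat.coprime_div_gcd_div_gcd hG
  refine h1.dvd_of_dvd_mul_left ?_
  have h2 : q / Nat.gcd q M * Nat.gcd q M ∣ M / Nat.gcd q M * g * Nat.gcd q M := by
    rw [Nat.div_mul_cancel (Nat.gcd_dvd_left q M), mul_right_comm,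
      Nat.div_mul_cancel (Nat.gcd_dvd_right q M)]
    exact h
  exact Nat.dvd_of_mul_dvd_mul_right hG h2

open Classical in
/-- the theorem -/
theorem finH (h : OneH) : FinH := by
  intro ε hε
  obtain ⟨ν, hν0, hν1, hν2⟩ : ∃ ν : ℝ, 0 < ν ∧ ν ≤ 1 / 20 ∧ 3 * ν ≤ ε / 2 :=
    ⟨min (1 / 20) (ε / 6), lt_min (by norm_num) (by positivity), min_le_left _ _, by
      have := min_le_right (1 / 20 : ℝ) (ε / 6); linarith⟩
  obtain ⟨δ, κ, B, M, hδ, hκ, hB, hM, h⟩ := h ν hν0 hν1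
  obtain ⟨lam, hlam, hw⟩ := QZ.hv_win κ hκ
  obtain ⟨B', Xw, hw⟩ := hw (B + 1)
  obtain ⟨δ', hδ', hz⟩ := QZ.za lam (1 / 7) hlam (by norm_num)
  obtain ⟨Xz, hz⟩ := hz B'
  obtain ⟨c, hc0, hc1, hc2⟩ : ∃ c : ℝ, 0 < c ∧ c ≤ ν / 200 ∧ c ≤ δ' / 8 :=
    ⟨min (ν / 200) (δ' / 8), lt_min (by positivity) (by positivity), min_le_left _ _,
      min_le_right _ _⟩
  obtain ⟨X1, h⟩ := h c hc0 hc1
  choose! GG hGG using h
  refine ⟨δ, c / 3, hδ, by positivity, fun K => ?_⟩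
  obtain ⟨Xs, hs⟩ := hvy_sw lam (1 / 7) hlam (by norm_num) B' (K + 1)
  obtain ⟨Xa, ha⟩ := g6_pow_log_le 1 100 (ε / 2) (by positivity)
  obtain ⟨Xb, hb⟩ := g6_log_ge (max 12 M)
  refine ⟨max (max (max Xa Xb) (max Xz Xs)) (max ((X1 + Xw + 11) ^ 3) 2), fun X hX => ?_⟩
  simp only [max_le_iff] at hX
  obtain ⟨⟨⟨hXa, hXb⟩, hXz, hXs⟩, hX3, hX2⟩ := hX
  have ha := ha X hXa
  have hb := hb X hXb
  rw [pow_one] at ha
  have hL12 : 12 ≤ Real.log X := (le_max_left _ _).trans hb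
  have hLM : (M : ℝ) ≤ Real.log X := (le_max_right _ _).trans hb
  have hXr : (2 : ℝ) ≤ X := by exact_mod_cast hX2
  have hXp : (0 : ℝ) < X := by linarith
  have hX1r : (1 : ℝ) ≤ X := by linarith
  have hcube : ((X1 : ℝ) + Xw + 11) ≤ (X : ℝ) ^ (1 / 3 : ℝ) := by
    have h1 : (((X1 : ℝ) + Xw + 11) ^ 3) ≤ X := by exact_mod_cast hX3
    have h2 : (((X1 : ℝ) + Xw + 11) ^ 3) ^ (1 / 3 : ℝ) ≤ (X : ℝ) ^ (1 / 3 : ℝ) :=
      Real.rpow_le_rpow (by positivity) h1 (by norm_num)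
    rwa [← Real.rpow_natCast, ← Real.rpow_mul (by positivity),
      show (((3 : ℕ) : ℝ) * (1 / 3)) = 1 by norm_num, Real.rpow_one] at h2
  have hX2le : (X : ℝ) ≤ ((2 * X : ℕ) : ℝ) := by
    push_cast
    linarith
  have hlog2 : Real.log X ≤ Real.log ((2 * X : ℕ) : ℝ) := Real.log_le_log hXp hX2le
  have hz2 := hz (2 * X) (by omega)
  have hs2 := hs (2 * X) (by omega)
  -- the number `d`
  obtain ⟨d, hd1, hd2⟩ : ∃ d : ℕ, (Real.log X) ^ K < d ∧ ∀ (ψ : PC) (g : ℕ), IsPC ψ → 2 ≤ ψ.1 →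
      (ψ.1 : ℝ) ≤ ((2 * X : ℕ) : ℝ) ^ δ' → Hvy lam (1 / 7) B' (2 * X) ψ → ψ.1 ∣ M * g → d ∣ g := by
    by_cases hex : ∃ ψ : PC, IsPC ψ ∧ 2 ≤ ψ.1 ∧ (ψ.1 : ℝ) ≤ ((2 * X : ℕ) : ℝ) ^ δ' ∧
        Hvy lam (1 / 7) B' (2 * X) ψ
    · obtain ⟨ψ₀, a1, a2, a3, a4⟩ := hex
      refine ⟨ψ₀.1 / Nat.gcd ψ₀.1 M, ?_, ?_⟩
      · have h1 := hs2 ψ₀ a1 a2 a4
        have hG : 0 < Nat.gcd ψ₀.1 M := Nat.gcd_pos_of_pos_left _ (by omega)
        have hGM : Nat.gcd ψ₀.1 M ≤ M := Nat.le_of_dvd (by omega) (Nat.gcd_dvd_right _ _)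
        have h2 : ψ₀.1 / Nat.gcd ψ₀.1 M * Nat.gcd ψ₀.1 M = ψ₀.1 :=
          Nat.div_mul_cancel (Nat.gcd_dvd_left _ _)
        have h3 : ψ₀.1 ≤ ψ₀.1 / Nat.gcd ψ₀.1 M * M := by
          calc ψ₀.1 = ψ₀.1 / Nat.gcd ψ₀.1 M * Nat.gcd ψ₀.1 M := h2.symm
            _ ≤ ψ₀.1 / Nat.gcd ψ₀.1 M * M := Nat.mul_le_mul_left _ hGM
        have h4 : (ψ₀.1 : ℝ) ≤ ((ψ₀.1 / Nat.gcd ψ₀.1 M : ℕ) : ℝ) * M := by exact_mod_cast h3
        have hMr : (1 : ℝ) ≤ M := by exact_mod_cast hM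
        have h5 : Real.log X ^ K * M ≤ Real.log ((2 * X : ℕ) : ℝ) ^ (K + 1) := by
          calc Real.log X ^ K * M ≤ Real.log X ^ K * Real.log X :=
                mul_le_mul_of_nonneg_left hLM (by positivity)
            _ = Real.log X ^ (K + 1) := (pow_succ _ _).symm
            _ ≤ Real.log ((2 * X : ℕ) : ℝ) ^ (K + 1) :=
                pow_le_pow_left₀ (by linarith) hlog2 _
        have h6 : Real.log X ^ K * M < ((ψ₀.1 / Nat.gcd ψ₀.1 M : ℕ) : ℝ) * M := by linarith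
        exact lt_of_mul_lt_mul_right h6 (by linarith)
      · intro ψ g b1 b2 b3 b4 b5
        have h1 : ψ = ψ₀ := hz2 ψ ψ₀ b1 a1 b2 a2 b3 a3 b4 a4
        rw [h1] at b5
        exact fh_dvd (by omega) b5
    · refine ⟨⌊Real.log X ^ K⌋₊ + 1, ?_, ?_⟩
      · push_cast
        exact Nat.lt_floor_add_one _
      · intro ψ g b1 b2 b3 b4 b5
        exact absurd ⟨ψ, b1, b2, b3, b4⟩ hex
  refine ⟨d, hd1, fun hh hh1 => ?_⟩
  obtain ⟨N, hN⟩ : ∃ N : ℕ, N = ⌊22 * Real.log X⌋₊ + 1 := ⟨_, rfl⟩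
  obtain ⟨R, hR⟩ : ∃ R : ℕ, R = ⌊(X : ℝ) ^ (1 / 3 : ℝ)⌋₊ := ⟨_, rfl⟩
  have hRr : (R : ℝ) ≤ (X : ℝ) ^ (1 / 3 : ℝ) := by
    rw [hR]
    exact Nat.floor_le (by positivity)
  obtain ⟨Yi, hYi⟩ : ∃ Yi : ℕ → ℕ, Yi = fun i => ⌊(11 / 10 : ℝ) ^ i⌋₊ := ⟨_, rfl⟩
  obtain ⟨I, hI⟩ : ∃ I : Finset ℕ, I = (range N).filter (fun i => X1 ≤ Yi i ∧ Yi i ≤ 2 * X) :=
    ⟨_, rfl⟩
  obtain ⟨m0, hm0⟩ : ∃ m0 : ℝ, m0 = min (hh : ℝ) ((X : ℝ) ^ (1 / 3 : ℝ)) := ⟨_, rfl⟩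
  have hX13 : (1 : ℝ) ≤ (X : ℝ) ^ (1 / 3 : ℝ) := Real.one_le_rpow hX1r (by norm_num)
  have hh1r : (1 : ℝ) ≤ hh := by exact_mod_cast hh1
  have hm01 : 1 ≤ m0 := by rw [hm0]; exact le_min hh1r hX13
  refine ⟨Icc 0 R ∪ I.biUnion (fun i => GG (Yi i) hh), ?_, ?_⟩
  · -- the number of exceptions
    rw [← hm0]
    have hcard : ∀ i ∈ I, ((GG (Yi i) hh).card : ℝ) ≤
        4 * (m0 * (X : ℝ) ^ (1 / 3 + 3 * ν)) := by
      intro i hi
      rw [hI, mem_filter] at hi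
      have h1 := (hGG (Yi i) hi.2.1 hh hh1).1
      have h2 : ((Yi i : ℕ) : ℝ) ≤ 2 * X := by exact_mod_cast hi.2.2
      have h3 : ∀ a : ℝ, 0 ≤ a → a ≤ 1 → ((Yi i : ℕ) : ℝ) ^ a ≤ 2 * (X : ℝ) ^ a := by
        intro a ha0 ha1
        calc ((Yi i : ℕ) : ℝ) ^ a ≤ (2 * (X : ℝ)) ^ a :=
              Real.rpow_le_rpow (Nat.cast_nonneg _) h2 ha0
          _ = 2 ^ a * (X : ℝ) ^ a := Real.mul_rpow (by norm_num) (by linarith)
          _ ≤ 2 * (X : ℝ) ^ a := by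
              refine mul_le_mul_of_nonneg_right ?_ (by positivity)
              calc (2 : ℝ) ^ a ≤ 2 ^ (1 : ℝ) :=
                    Real.rpow_le_rpow_of_exponent_le (by norm_num) ha1
                _ = 2 := Real.rpow_one 2
      have h4 : min (hh : ℝ) (((Yi i : ℕ) : ℝ) ^ (1 / 3 : ℝ)) ≤ 2 * m0 := by
        rw [hm0, mul_min_of_nonneg _ _ (by norm_num : (0 : ℝ) ≤ 2)]
        exact min_le_min (by linarith) (h3 _ (by norm_num) (by norm_num))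
      refine h1.trans ?_
      calc min (hh : ℝ) (((Yi i : ℕ) : ℝ) ^ (1 / 3 : ℝ)) * ((Yi i : ℕ) : ℝ) ^ (1 / 3 + 3 * ν)
          ≤ (2 * m0) * (2 * (X : ℝ) ^ (1 / 3 + 3 * ν)) := by
            refine mul_le_mul h4 (h3 _ (by linarith) (by linarith)) (by positivity) (by linarith)
        _ = 4 * (m0 * (X : ℝ) ^ (1 / 3 + 3 * ν)) := by ring
    have hNr : (N : ℝ) ≤ 22 * Real.log X + 1 := by
      rw [hN]; push_cast
      have := Nat.floor_le (a := 22 * Real.log X) (by linarith)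
      linarith
    have hIc : (I.card : ℝ) ≤ 22 * Real.log X + 1 := by
      refine le_trans ?_ hNr
      have : I.card ≤ N := by
        rw [hI]
        exact (card_filter_le _ _).trans (le_of_eq (card_range N))
      exact_mod_cast this
    have hc1 : ((I.biUnion (fun i => GG (Yi i) hh)).card : ℝ) ≤
        (22 * Real.log X + 1) * (4 * (m0 * (X : ℝ) ^ (1 / 3 + 3 * ν))) := by
      calc ((I.biUnion (fun i => GG (Yi i) hh)).card : ℝ)
          ≤ ((∑ i ∈ I, (GG (Yi i) hh).card : ℕ) : ℝ) := by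
            exact_mod_cast card_biUnion_le
        _ = ∑ i ∈ I, ((GG (Yi i) hh).card : ℝ) := by push_cast; rfl
        _ ≤ ∑ i ∈ I, 4 * (m0 * (X : ℝ) ^ (1 / 3 + 3 * ν)) := sum_le_sum hcard
        _ = (I.card : ℝ) * (4 * (m0 * (X : ℝ) ^ (1 / 3 + 3 * ν))) := by
            rw [sum_const, nsmul_eq_mul]
        _ ≤ (22 * Real.log X + 1) * (4 * (m0 * (X : ℝ) ^ (1 / 3 + 3 * ν))) :=
            mul_le_mul_of_nonneg_right hIc (by positivity)
    have hc0 : ((Icc 0 R ∪ I.biUnion (fun i => GG (Yi i) hh)).card : ℝ) ≤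
        ((R : ℝ) + 1) + (I.biUnion (fun i => GG (Yi i) hh)).card := by
      have h1 := card_union_le (Icc 0 R) (I.biUnion (fun i => GG (Yi i) hh))
      rw [Nat.card_Icc] at h1
      have h2 : (R + 1 - 0 : ℕ) = R + 1 := by omega
      rw [h2] at h1
      exact_mod_cast h1
    have hm1 : (X : ℝ) ^ (1 / 3 : ℝ) ≤ m0 * (X : ℝ) ^ (1 / 3 + 3 * ν) := by
      have h1 : (X : ℝ) ^ (1 / 3 : ℝ) ≤ (X : ℝ) ^ (1 / 3 + 3 * ν) :=
        Real.rpow_le_rpow_of_exponent_le hX1r (by linarith)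
      have h2 : 0 ≤ (X : ℝ) ^ (1 / 3 + 3 * ν) := by positivity
      nlinarith
    have hpos : 0 ≤ m0 * (X : ℝ) ^ (1 / 3 + 3 * ν) := by positivity
    refine hc0.trans ?_
    calc ((R : ℝ) + 1) + (I.biUnion (fun i => GG (Yi i) hh)).card
        ≤ 2 * (m0 * (X : ℝ) ^ (1 / 3 + 3 * ν)) +
          (22 * Real.log X + 1) * (4 * (m0 * (X : ℝ) ^ (1 / 3 + 3 * ν))) := by linarith
      _ = (m0 * (X : ℝ) ^ (1 / 3 + 3 * ν)) * (88 * Real.log X + 6) := by ring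
      _ ≤ (m0 * (X : ℝ) ^ (1 / 3 + 3 * ν)) * (X : ℝ) ^ (ε / 2) :=
          mul_le_mul_of_nonneg_left (by linarith) hpos
      _ = m0 * (X : ℝ) ^ (1 / 3 + 3 * ν + ε / 2) := by
          rw [mul_assoc, ← Real.rpow_add hXp]
      _ ≤ m0 * (X : ℝ) ^ (1 / 3 + ε) :=
          mul_le_mul_of_nonneg_left (Real.rpow_le_rpow_of_exponent_le hX1r (by linarith))
            (by linarith)
  · -- pairs
    intro m m' hmm hm'X hmh h45 hmG hm'G hbd hbd' hmod hgcd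
    rw [mem_union, not_or, mem_Icc, mem_biUnion] at hmG hm'G
    obtain ⟨hmR, hmI⟩ := hmG
    obtain ⟨-, hm'I⟩ := hm'G
    have hmR' : R < m := by omega
    have hmX13 : (X : ℝ) ^ (1 / 3 : ℝ) ≤ m := by
      rw [hR] at hmR'
      exact ((Nat.floor_lt (by positivity)).1 hmR').le
    have hm11 : ((X1 : ℝ) + Xw + 11) ≤ m := hcube.trans hmX13
    have hm11' : X1 + Xw + 11 ≤ m := by exact_mod_cast hm11
    obtain ⟨i, hi0, hi1, hi2⟩ := fh_scale m (by omega)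
    have hYe : (⌊(11 / 10 : ℝ) ^ i⌋₊ : ℕ) = Yi i := by rw [hYi]
    rw [hYe] at hi1 hi2
    have hmXr : (m : ℝ) ≤ X := by exact_mod_cast (by omega : m ≤ X)
    have hpow : (11 / 10 : ℝ) ^ i ≤ 2 * X := by linarith
    have hYm : (m : ℝ) ≤ (Yi i : ℕ) := by
      have hYnn : (0 : ℝ) ≤ ((Yi i : ℕ) : ℝ) := Nat.cast_nonneg _
      have : (11 : ℝ) ≤ m := by exact_mod_cast (by omega : 11 ≤ m)
      linarith
    have hYmN : m ≤ Yi i := by exact_mod_cast hYm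
    have hY2 : Yi i ≤ 2 * X := by
      have : ((Yi i : ℕ) : ℝ) ≤ ((2 * X : ℕ) : ℝ) := by
        rw [← hYe]
        push_cast
        exact (Nat.floor_le (by positivity)).trans hpow
      exact_mod_cast this
    have hiI : i ∈ I := by
      rw [hI, mem_filter, mem_range]
      refine ⟨?_, by omega, hY2⟩
      rw [hN]
      exact Nat.lt_succ_of_le (Nat.le_floor (fh_scale_le i X hXr hpow))
    have hmi : m ∉ GG (Yi i) hh := fun hcon => hmI ⟨i, hiI, hcon⟩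
    have hm'i : m' ∉ GG (Yi i) hh := fun hcon => hm'I ⟨i, hiI, hcon⟩
    have hXY : (X : ℝ) ^ (1 / 3 : ℝ) ≤ ((Yi i : ℕ) : ℝ) := hmX13.trans hYm
    have hYp : (0 : ℝ) < ((Yi i : ℕ) : ℝ) := by linarith
    have hm'9 : (m' : ℝ) ≤ 9 / 10 * ((Yi i : ℕ) : ℝ) := by
      have h1 : 4 * (m' : ℝ) ≤ 5 * m := by exact_mod_cast h45
      have h2 : (11 : ℝ) ≤ ((Yi i : ℕ) : ℝ) := by exact_mod_cast (by omega : 11 ≤ Yi i)
      linarith
    have hgcd' : (Nat.gcd m m' : ℝ) ≤ ((Yi i : ℕ) : ℝ) ^ c := by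
      refine hgcd.trans ?_
      calc (X : ℝ) ^ (c / 3) = ((X : ℝ) ^ (1 / 3 : ℝ)) ^ c := by
            rw [← Real.rpow_mul hXp.le]
            congr 1
            ring
        _ ≤ ((Yi i : ℕ) : ℝ) ^ c := Real.rpow_le_rpow (by positivity) hXY hc0.le
    obtain ⟨ψ, b1, b2, b3, b4, b5⟩ := (hGG (Yi i) (by omega) hh hh1).2 m m' hi1 hmm hmh hm'9 hmi
      hm'i hbd hbd' hmod hgcd'
    have hlY : 1 / 3 * Real.log X ≤ Real.log ((Yi i : ℕ) : ℝ) := by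
      rw [← Real.log_rpow hXp]
      exact Real.log_le_log (by positivity) hXY
    have hlY4 : 4 ≤ Real.log ((Yi i : ℕ) : ℝ) := by linarith
    have hT1 : 1 ≤ 4 * Real.log ((Yi i : ℕ) : ℝ) ^ B := by
      have : (1 : ℝ) ≤ Real.log ((Yi i : ℕ) : ℝ) ^ B := one_le_pow₀ (by linarith)
      linarith
    have hT2 : 4 * Real.log ((Yi i : ℕ) : ℝ) ^ B ≤ Real.log ((Yi i : ℕ) : ℝ) ^ (B + 1) := by
      rw [pow_succ, mul_comm]
      exact mul_le_mul_of_nonneg_left hlY4 (by positivity)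
    have hv := fh_hvy (by linarith) hXY hY2 (by omega)
      (hw (Yi i) (by omega) _ hT1 hT2 ψ b4)
    refine hd2 ψ _ b1 b2 (b3.trans ?_) hv b5
    have hYX2 : ((Yi i : ℕ) : ℝ) ≤ ((2 * X : ℕ) : ℝ) := by exact_mod_cast hY2
    calc ((Yi i : ℕ) : ℝ) ^ (2 * c) ≤ ((2 * X : ℕ) : ℝ) ^ (2 * c) :=
          Real.rpow_le_rpow hYp.le hYX2 (by positivity)
      _ ≤ ((2 * X : ℕ) : ℝ) ^ δ' :=
          Real.rpow_le_rpow_of_exponent_le (by linarith) (by linarith)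

end Pool.MP_dd84fd_nt.TC
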