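import Pool.Agent.Lib.MP_dd84fd_nt.TC.DZDefs
import Pool.Agent.Lib.MP_dd84fd_nt.TC.FinH
import Pool.Agent.Lib.MP_dd84fd_nt.QZ.QSm
import Pool.Agent.Lib.MP_dd84fd_nt.RZ.Rzz
import Pool.Agent.Lib.MP_dd84fd_nt.RZ.Inf

/-!
# TC-DZ: the number `d`

For every `X` at most one number `d = r / k`, `k ≤ M'`, `r` the conductor of a real primitive character with a
real zero `β ≥ 1 - M'/log X`; every heavy character of small conductor has a conductor divisible by `d`; `d` is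
larger than every power of `log X`, and for arbitrarily large `X` there is no such `d`.
-/

set_option autoImplicit false

namespace Pool.MP_dd84fd_nt.TC

open Finset
open Pool.MP_dd84fd_nt.BX (PC pv IsPC)
open Pool.MP_dd84fd_nt.QZ (Hvy)

private theorem dz_dvd {q M g : ℕ} (hq : 1 ≤ q) (h : q ∣ M * g) : q / Nat.gcd q M ∣ g := by
  have hG : 0 < Nat.gcd q M := Nat.gcd_pos_of_pos_left _ hq
  have h1 : Nat.Coprime (q / Nat.gcd q M) (M / Nat.gcd q M) := Nat.coprime_div_gcd_div_gcd hG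
  refine h1.dvd_of_dvd_mul_left ?_
  have h2 : q / Nat.gcd q M * Nat.gcd q M ∣ M / Nat.gcd q M * g * Nat.gcd q M := by
    rw [Nat.div_mul_cancel (Nat.gcd_dvd_left q M), mul_right_comm,
      Nat.div_mul_cancel (Nat.gcd_dvd_right q M)]
    exact h
  exact Nat.dvd_of_mul_dvd_mul_right hG h2

/-- a character which is heavy at the scale `E = 2 ⌊N/2⌋` is heavy at `N` -/
private theorem dz_even {lam : ℝ} {B' N E : ℕ} (h1 : E ≤ N) (h2 : N ≤ E + 1) (h3 : 128 ≤ E)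
    {ψ : PC} (hh : Hvy lam (1 / 7) B' E ψ) : Hvy lam (1 / 8) B' N ψ := by
  obtain ⟨x, H, hH, hx, hxX, hHx, hxH, hS⟩ := hh
  have h1r : (E : ℝ) ≤ N := by exact_mod_cast h1
  have h2r : (N : ℝ) ≤ E + 1 := by exact_mod_cast h2
  have h3r : (128 : ℝ) ≤ E := by exact_mod_cast h3
  have hE0 : (0 : ℝ) < E := by linarith
  refine ⟨x, H, hH, le_trans ?_ hx, hxX.trans h1r, hHx, ?_, hS⟩
  · have h4 : (2 : ℝ) ≤ (E : ℝ) ^ (1 / 7 : ℝ) := by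
      have h5 : ((2 : ℝ) ^ (7 : ℕ)) ^ (1 / 7 : ℝ) ≤ (E : ℝ) ^ (1 / 7 : ℝ) :=
        Real.rpow_le_rpow (by norm_num) (by norm_num; linarith) (by norm_num)
      rwa [← Real.rpow_natCast, ← Real.rpow_mul (by norm_num),
        show (((7 : ℕ) : ℝ) * (1 / 7)) = 1 by norm_num, Real.rpow_one] at h5
    have h6 : (N : ℝ) ≤ (E : ℝ) ^ (8 / 7 : ℝ) := by
      have h7 : (E : ℝ) ^ (8 / 7 : ℝ) = (E : ℝ) ^ (1 / 7 : ℝ) * E := by
        rw [show (8 / 7 : ℝ) = 1 / 7 + 1 by norm_num, Real.rpow_add hE0, Real.rpow_one]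
      rw [h7]
      nlinarith
    calc (N : ℝ) ^ (1 / 8 : ℝ) ≤ ((E : ℝ) ^ (8 / 7 : ℝ)) ^ (1 / 8 : ℝ) :=
          Real.rpow_le_rpow (Nat.cast_nonneg N) h6 (by norm_num)
      _ = (E : ℝ) ^ (1 / 7 : ℝ) := by
          rw [← Real.rpow_mul hE0.le]
          congr 1
          norm_num
  · refine hxH.trans (mul_le_mul_of_nonneg_left ?_ hH.le)
    exact pow_le_pow_left₀ (Real.log_nonneg (by linarith)) (Real.log_le_log (by linarith) h1r) _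

open Classical in
/-- the number `d` -/
theorem dz : DzS := by
  intro lam hlam B' M hM
  obtain ⟨δ1, hδ1, hz⟩ := QZ.za lam (1 / 7) hlam (by norm_num)
  obtain ⟨Xz, hz⟩ := hz B'
  obtain ⟨δ2, Mz, hδ2, hMz, hr⟩ := RZ.real_zero lam (1 / 7) hlam (by norm_num)
  obtain ⟨Xr, hr⟩ := hr B'
  obtain ⟨δ3, hδ3, hi⟩ := RZ.inf_hvy lam (1 / 8) hlam (by norm_num) B'
  obtain ⟨δ, hδ, hδa, hδb, hδc⟩ : ∃ δ : ℝ, 0 < δ ∧ δ ≤ δ1 ∧ δ ≤ δ2 ∧ δ ≤ δ3 :=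
    ⟨min δ1 (min δ2 δ3), lt_min hδ1 (lt_min hδ2 hδ3), min_le_left _ _,
      (min_le_right _ _).trans (min_le_left _ _), (min_le_right _ _).trans (min_le_right _ _)⟩
  obtain ⟨M', hM'⟩ : ∃ M' : ℕ, M' = M + ⌈Mz⌉₊ := ⟨_, rfl⟩
  -- the heavy characters
  obtain ⟨P, hP⟩ : ∃ P : ℕ → PC → Prop, P = fun X ψ => IsPC ψ ∧ 2 ≤ ψ.1 ∧
    (ψ.1 : ℝ) ≤ ((2 * X : ℕ) : ℝ) ^ δ ∧ Hvy lam (1 / 7) B' (2 * X) ψ := ⟨_, rfl⟩
  have hex : ∀ X : ℕ, ∃ S : Finset ℕ, S.card ≤ 1 ∧ ((∀ ψ, ¬ P X ψ) → S = ∅) ∧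
      (∀ d ∈ S, ∃ ψ, P X ψ ∧ d = ψ.1 / Nat.gcd ψ.1 M) ∧
      ((∃ ψ, P X ψ) → ∃ ψ, P X ψ ∧ ψ.1 / Nat.gcd ψ.1 M ∈ S) := by
    intro X
    by_cases h : ∃ ψ, P X ψ
    · obtain ⟨ψ, hψ⟩ := h
      refine ⟨{ψ.1 / Nat.gcd ψ.1 M}, by simp, fun h => absurd hψ (h ψ), ?_,
        fun _ => ⟨ψ, hψ, mem_singleton_self _⟩⟩
      intro d hd
      exact ⟨ψ, hψ, mem_singleton.1 hd⟩
    · refine ⟨∅, by simp, fun _ => rfl, ?_, fun h' => absurd h' h⟩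
      intro d hd
      exact absurd hd (notMem_empty d)
  choose D hD1 hD2 hD3 hD4 using hex
  refine ⟨δ, hδ, M', D, hD1, ?_, ?_, ?_⟩
  · -- no heavy character
    intro X1
    obtain ⟨N, hN, hN'⟩ := hi (2 * X1 + 130)
    refine ⟨N / 2, by omega, hD2 _ fun ψ hψ => ?_⟩
    rw [hP] at hψ
    obtain ⟨a1, a2, a3, a4⟩ := hψ
    have hNE : ((2 * (N / 2) : ℕ) : ℝ) ≤ N := by exact_mod_cast (by omega : 2 * (N / 2) ≤ N)
    have hE1 : (1 : ℝ) ≤ ((2 * (N / 2) : ℕ) : ℝ) := by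
      exact_mod_cast (by omega : 1 ≤ 2 * (N / 2))
    refine hN' ψ a1 a2 (a3.trans ?_) (dz_even (by omega) (by omega) (by omega) a4)
    calc ((2 * (N / 2) : ℕ) : ℝ) ^ δ ≤ (N : ℝ) ^ δ :=
          Real.rpow_le_rpow (by linarith) hNE hδ.le
      _ ≤ (N : ℝ) ^ δ3 := Real.rpow_le_rpow_of_exponent_le (by linarith) hδc
  · -- the size of `d` and the zero
    intro K
    obtain ⟨Xs, hs⟩ := hvy_sw lam (1 / 7) hlam (by norm_num) B' (K + 1)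
    obtain ⟨Xb, hb⟩ := g6_log_ge (max 1 M)
    refine ⟨max (max Xs Xb) (max (max Xz Xr) 1), fun X hX d hd => ?_⟩
    simp only [max_le_iff] at hX
    obtain ⟨⟨hXs, hXb⟩, ⟨hXz, hXr⟩, hX1⟩ := hX
    have hb := hb X hXb
    have hL1 : 1 ≤ Real.log X := (le_max_left _ _).trans hb
    have hLM : (M : ℝ) ≤ Real.log X := (le_max_right _ _).trans hb
    have hXr1 : (1 : ℝ) ≤ X := by exact_mod_cast hX1
    have hX2le : (X : ℝ) ≤ ((2 * X : ℕ) : ℝ) := by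
      push_cast
      linarith
    have hlog2 : Real.log X ≤ Real.log ((2 * X : ℕ) : ℝ) := Real.log_le_log (by linarith) hX2le
    obtain ⟨ψ₀, hψ, hdψ⟩ := hD3 X d hd
    rw [hP] at hψ
    obtain ⟨a1, a2, a3, a4⟩ := hψ
    have a3' : (ψ₀.1 : ℝ) ≤ ((2 * X : ℕ) : ℝ) ^ δ1 :=
      a3.trans (Real.rpow_le_rpow_of_exponent_le (by linarith) hδa)
    have a3'' : (ψ₀.1 : ℝ) ≤ ((2 * X : ℕ) : ℝ) ^ δ2 :=
      a3.trans (Real.rpow_le_rpow_of_exponent_le (by linarith) hδb)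
    have h1 := hs (2 * X) (by omega) ψ₀ a1 a2 a4
    have hG : 0 < Nat.gcd ψ₀.1 M := Nat.gcd_pos_of_pos_left _ (by omega)
    have hGM : Nat.gcd ψ₀.1 M ≤ M := Nat.le_of_dvd (by omega) (Nat.gcd_dvd_right _ _)
    have h2 : d * Nat.gcd ψ₀.1 M = ψ₀.1 := by
      rw [hdψ]
      exact Nat.div_mul_cancel (Nat.gcd_dvd_left _ _)
    refine ⟨?_, ?_⟩
    · have h3 : ψ₀.1 ≤ d * M := by
        calc ψ₀.1 = d * Nat.gcd ψ₀.1 M := h2.symm
          _ ≤ d * M := Nat.mul_le_mul_left _ hGM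
      have h4 : (ψ₀.1 : ℝ) ≤ (d : ℝ) * M := by exact_mod_cast h3
      have hMr : (1 : ℝ) ≤ M := by exact_mod_cast hM
      have h5 : Real.log X ^ K * M ≤ Real.log ((2 * X : ℕ) : ℝ) ^ (K + 1) := by
        calc Real.log X ^ K * M ≤ Real.log X ^ K * Real.log X :=
              mul_le_mul_of_nonneg_left hLM (by positivity)
          _ = Real.log X ^ (K + 1) := (pow_succ _ _).symm
          _ ≤ Real.log ((2 * X : ℕ) : ℝ) ^ (K + 1) :=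
              pow_le_pow_left₀ (by linarith) hlog2 _
      have h6 : Real.log X ^ K * M < (d : ℝ) * M := by linarith
      exact lt_of_mul_lt_mul_right h6 (by linarith)
    · have hreal : ψ₀.2 ^ 2 = 1 :=
        QZ.real_of_cj (hz (2 * X) (by omega) ψ₀ (QZ.cj ψ₀) a1 (QZ.isPC_cj a1) a2 a2 a3' a3' a4
          (QZ.hvy_cj a4))
      obtain ⟨β, z1, z2, z3⟩ := hr (2 * X) (by omega) ψ₀ a1 a2 a3'' hreal a4
      refine ⟨ψ₀.1, Nat.gcd ψ₀.1 M, ψ₀.2, a1.2, hreal, hG, by omega, h2, β, le_trans ?_ z1, z2,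
        z3⟩
      have e1 : Mz ≤ (M' : ℝ) := by
        refine (Nat.le_ceil Mz).trans ?_
        exact_mod_cast (by omega : ⌈Mz⌉₊ ≤ M')
      have e2 : Mz / Real.log ((2 * X : ℕ) : ℝ) ≤ M' / Real.log X :=
        div_le_div₀ (Nat.cast_nonneg _) e1 (by linarith) hlog2
      linarith
  · -- the divisor
    refine ⟨max Xz 1, fun X hX ψ g b1 b2 b3 b4 b5 => ?_⟩
    simp only [max_le_iff] at hX
    obtain ⟨hXz, hX1⟩ := hX
    have hXr1 : (1 : ℝ) ≤ X := by exact_mod_cast hX1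
    have hX2le : (X : ℝ) ≤ ((2 * X : ℕ) : ℝ) := by
      push_cast
      linarith
    have hPψ : P X ψ := by
      rw [hP]
      exact ⟨b1, b2, b3, b4⟩
    obtain ⟨ψ₀, hψ₀, hmem⟩ := hD4 X ⟨ψ, hPψ⟩
    rw [hP] at hψ₀
    obtain ⟨a1, a2, a3, a4⟩ := hψ₀
    have hpw : ((2 * X : ℕ) : ℝ) ^ δ ≤ ((2 * X : ℕ) : ℝ) ^ δ1 :=
      Real.rpow_le_rpow_of_exponent_le (by linarith) hδa
    have h1 : ψ = ψ₀ := hz (2 * X) (by omega) ψ ψ₀ b1 a1 b2 a2 (b3.trans hpw) (a3.trans hpw) b4 a4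
    refine ⟨_, hmem, ?_⟩
    rw [h1] at b5
    exact dz_dvd (by omega) b5

end Pool.MP_dd84fd_nt.TC
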