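import Pool.Agent.Lib.MP_dd84fd_nt.TC.VDefs
import Pool.Agent.Lib.MP_dd84fd_nt.QZ.Hv

/-!
# Project TC-V (MP_dd84fd): the number `d` comes from a Landau-Siegel zero (helper98, helper18)

`RZd M X d`: `d = r / k`, `k ≤ M`, `r` the conductor of a real primitive character whose `L`-function has a
real zero `β ≥ 1 - M / log X`.  `DzS`: the statement of `dz` (helper98).  `FinHZ`, `FinVZ`: the final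
theorems with the set `D X` of at most one number, which is empty for arbitrarily large `X`.
-/

set_option autoImplicit false

namespace Pool.MP_dd84fd_nt.TC

open Finset Pool.MP_67663b_nt.Odd Pool.MP_dd84fd_nt.En Pool.MP_dd84fd_nt.E2 Pool.MP_dd84fd_nt.LS
open Pool.MP_dd84fd_nt.GX Pool.MP_dd84fd_nt.HX Pool.MP_dd84fd_nt.IX
open Pool.MP_dd84fd_nt.BX (PC pv IsPC PR SX sN prc ind)
open Pool.MP_dd84fd_nt.QZ (Hvy)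

/-- `d = r / k`, `1 ≤ k ≤ M`, `r` the conductor of a real primitive character whose `L`-function has a
real zero `β`, `1 - M / log X ≤ β < 1` -/
def RZd (M X d : ℕ) : Prop :=
  ∃ (r k : ℕ) (χ : DirichletCharacter ℂ r), χ.IsPrimitive ∧ χ ^ 2 = 1 ∧ 1 ≤ k ∧ k ≤ M ∧ d * k = r ∧
    ∃ β : ℝ, 1 - M / Real.log X ≤ β ∧ β < 1 ∧ ∃ _ : NeZero r, DirichletCharacter.LFunction χ β = 0

/-- (DZ) the heavy characters of small conductor -/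
def DzS : Prop := ∀ lam : ℝ, 0 < lam → ∀ B' M : ℕ, 1 ≤ M → ∃ δ' : ℝ, 0 < δ' ∧ ∃ M' : ℕ,
  ∃ D : ℕ → Finset ℕ, (∀ X, (D X).card ≤ 1) ∧ (∀ X1 : ℕ, ∃ X : ℕ, X1 ≤ X ∧ D X = ∅) ∧
    (∀ K : ℕ, ∃ X0 : ℕ, ∀ X : ℕ, X0 ≤ X → ∀ d ∈ D X, (Real.log X) ^ K < d ∧ RZd M' X d) ∧
    ∃ X0 : ℕ, ∀ X : ℕ, X0 ≤ X → ∀ (ψ : PC) (g : ℕ), IsPC ψ → 2 ≤ ψ.1 →
      (ψ.1 : ℝ) ≤ ((2 * X : ℕ) : ℝ) ^ δ' → Hvy lam (1 / 7) B' (2 * X) ψ → ψ.1 ∣ M * g →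
        ∃ d ∈ D X, d ∣ g

/-- the set `D X`: at most one number, none for arbitrarily large `X`, larger than every power of `log X`,
from a real zero -/
def DOk (M : ℕ) (D : ℕ → Finset ℕ) : Prop :=
  (∀ X, (D X).card ≤ 1) ∧ (∀ X1 : ℕ, ∃ X : ℕ, X1 ≤ X ∧ D X = ∅) ∧
    ∀ K : ℕ, ∃ X0 : ℕ, ∀ X : ℕ, X0 ≤ X → ∀ d ∈ D X, (Real.log X) ^ K < d ∧ RZd M X d

/-- the theorem U with the nature of `d` -/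
def FinHZ : Prop := ∀ ε : ℝ, 0 < ε → ∃ δ c : ℝ, ∃ M : ℕ, 0 < δ ∧ 0 < c ∧ 1 ≤ M ∧
  ∃ D : ℕ → Finset ℕ, DOk M D ∧ ∃ X0 : ℕ, ∀ X : ℕ, X0 ≤ X → ∀ h : ℕ, 1 ≤ h → ∃ G : Finset ℕ,
    (G.card : ℝ) ≤ min (h : ℝ) ((X : ℝ) ^ (1 / 3 : ℝ)) * (X : ℝ) ^ (1 / 3 + ε) ∧
    ∀ m m' : ℕ, m < m' → m' ≤ X → m' ≤ m + h → 4 * m' ≤ 5 * m → m ∉ G → m' ∉ G →
      Bd δ m → Bd δ m' → m * m' % 3 ≠ 2 → (Nat.gcd m m' : ℝ) ≤ (X : ℝ) ^ c →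
      ∃ d ∈ D X, d ∣ Nat.gcd m m'

/-- the theorems U and V with the nature of `d` -/
def FinVZ : Prop := ∀ ε : ℝ, 0 < ε → ∃ δ c : ℝ, ∃ M : ℕ, 0 < δ ∧ 0 < c ∧ 1 ≤ M ∧
  ∃ D : ℕ → Finset ℕ, DOk M D ∧ ∃ X0 : ℕ, ∀ X : ℕ, X0 ≤ X → ∀ h : ℕ, 1 ≤ h →
    (∃ G : Finset ℕ, (G.card : ℝ) ≤ min (h : ℝ) ((X : ℝ) ^ (1 / 3 : ℝ)) * (X : ℝ) ^ (1 / 3 + ε) ∧
      ∀ m m' : ℕ, m < m' → m' ≤ X → m' ≤ m + h → 4 * m' ≤ 5 * m → m ∉ G → m' ∉ G →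
        Bd δ m → Bd δ m' → m * m' % 3 ≠ 2 → (Nat.gcd m m' : ℝ) ≤ (X : ℝ) ^ c →
        ∃ d ∈ D X, d ∣ Nat.gcd m m') ∧
    (∃ G : Finset ℕ, (G.card : ℝ) ≤ (X : ℝ) ^ (1 / 3 + ε) +
        min (h : ℝ) ((X : ℝ) ^ (1 / 2 : ℝ)) * (X : ℝ) ^ ε ∧
      ∀ m m' : ℕ, m < m' → m' ≤ X → m' ≤ m + h → M * m' ≤ (M + 1) * m → m ∉ G → m' ∉ G →
        Bd δ m → Bd δ m' → m ≡ m' [MOD M] → (Nat.gcd m m' : ℝ) ≤ (X : ℝ) ^ c →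
        ∃ d ∈ D X, d ∣ Nat.gcd m m')

end Pool.MP_dd84fd_nt.TC
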