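import Mathlib

/-!
# Project TC (MP_dd84fd): definitions which need Mathlib only

`kf` the Fejér kernel; `wk` the weight of the averages; `Eqv`: characters modulo `Q` which agree up to a
character modulo `W`; `Ineq`: a family without two equivalent characters.
-/

set_option autoImplicit false

namespace Pool.MP_dd84fd_nt.TC

/-- the Fejér kernel, `∫ kf = 1`, Fourier transform `(1 - |ξ|)₊` -/
noncomputable def kf (u : ℝ) : ℝ := Real.sinc (Real.pi * u) ^ 2

/-- the weight of the averages over residue classes -/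
noncomputable def wk (Δ u : ℝ) : ℝ := if |u| ≤ Δ then 1 else (Δ / u) ^ 2

/-- `χ` and `χ'` modulo `Q` agree up to a character modulo `W` -/
def Eqv (W : ℕ) {Q : ℕ} (χ χ' : DirichletCharacter ℂ Q) : Prop :=
  ∃ (h : W ∣ Q) (ω : DirichletCharacter ℂ W), χ' = χ * DirichletCharacter.changeLevel h ω

/-- a family of characters modulo `R` without two equivalent ones -/
def Ineq (W : ℕ) {R : ℕ} (Γ : Finset (DirichletCharacter ℂ R)) : Prop :=
  ∀ χ ∈ Γ, ∀ χ' ∈ Γ, χ ≠ χ' → ¬ Eqv W χ χ'

end Pool.MP_dd84fd_nt.TC
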