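import Pool.Agent.Lib.MP_dd84fd_nt.BX.AsDefs
import Pool.Agent.Lib.MP_dd84fd_nt.TC.KDefs

/-!
# Project TC (MP_dd84fd): two failures in a short window (helper45)

Paper: /team-store/TC_paper.md.  Theorem: for all but `X^(1/3 + ε)` numbers `n ≤ X`, two different even
numbers `m, m'` of `[n, n + (log X)^K]` with `m m' ≢ 2 (mod 3)` do not both fail.
`PC`, `IsPC`: BX/Defs; `sN`: BX/AsDefs; `zI X = ⌈X^(1/10)⌉`; `Dl B X = X / (4 (log X)^B)` is the length of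
the windows; `kf` the Fejér kernel; `UP X R` the primes `zI X ≤ p ≤ X`, `p ∤ R`; `wv` the weight of the
window with centre `y` and the residue class `c` modulo `W`; `sw` its expected mass; `nu` the normalised
character sum; `RC` the number of solutions `p + q ≡ n (mod Q)`, `p` near `y₁`, `q` near `y₂`, `p ≡ c`,
normalised; `DD` the mass of the characters which are not equivalent to a character in `E`.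
-/

set_option autoImplicit false

namespace Pool.MP_dd84fd_nt.TC

open Finset Pool.MP_67663b_nt.Odd Pool.MP_dd84fd_nt.En Pool.MP_dd84fd_nt.E2 Pool.MP_dd84fd_nt.LS
open Pool.MP_dd84fd_nt.GX Pool.MP_dd84fd_nt.HX Pool.MP_dd84fd_nt.IX
open Pool.MP_dd84fd_nt.BX (PC pv IsPC PR SX sN prc ind)

/-! ### Objects -/

/-- the length of the windows; `1 / Dl B X = 4 (log X)^B / X` -/
noncomputable def Dl (B X : ℕ) : ℝ := (X : ℝ) / (4 * (Real.log X) ^ B)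

/-- average of the number of representations over the class of `n` modulo `Q` -/
noncomputable def LC (X : ℕ) (Δ : ℝ) (n Q : ℕ) : ℝ :=
  ∑ m ∈ (Icc 1 (2 * X)).filter (fun m => m ≡ n [MOD Q]), wk Δ ((m : ℝ) - n) * (g m : ℝ)

/-- `(Δ / Q) ((n,Q) / φ((n,Q))) X / (log X)²`: the expected size of `LC` -/
noncomputable def LM (X : ℕ) (Δ : ℝ) (n Q : ℕ) : ℝ :=
  Δ / Q * ((Nat.gcd n Q : ℝ) / (Nat.totient (Nat.gcd n Q) : ℝ)) * (X / (Real.log X) ^ 2)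

open Classical in
/-- the primes `zI X ≤ p ≤ X` which do not divide `R` -/
noncomputable def UP (X R : ℕ) : Finset ℕ :=
  (Icc 1 X).filter (fun p => p.Prime ∧ zI X ≤ p ∧ Nat.Coprime p R)

/-- the expected mass of a window in a residue class modulo `W` -/
noncomputable def sw (X : ℕ) (Δ : ℝ) (W : ℕ) : ℝ := Δ / ((Nat.totient W : ℝ) * Real.log X)

open Classical in
/-- the weight of the window with centre `y` and of the class `c` modulo `W` -/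
noncomputable def wv (Δ y : ℝ) (W : ℕ) (c : ZMod W) (p : ℕ) : ℝ :=
  if (p : ZMod W) = c then kf (((p : ℝ) - y) / Δ) else 0

/-- `(1/s) Σ_{p ≡ c (W)} kf((p - y)/Δ) χ(p)`, `χ` modulo `Q` -/
noncomputable def nu (X : ℕ) (Δ : ℝ) (R W : ℕ) (y : ℝ) (c : ZMod W) {Q : ℕ}
    (χ : DirichletCharacter ℂ Q) : ℂ :=
  (1 / (sw X Δ W : ℂ)) * ∑ p ∈ UP X R, ((wv Δ y W c p : ℝ) : ℂ) * χ (p : ZMod Q)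

open Classical in
/-- normalised number of `p + q ≡ n (mod Q)`, `p ≡ c (mod W)`, `p` near `y₁`, `q` near `y₂` -/
noncomputable def RC (X : ℕ) (Δ : ℝ) (R W Q n : ℕ) (y₁ y₂ : ℝ) (c : ZMod W) : ℝ :=
  (Nat.totient Q : ℝ) / ((Nat.totient W : ℝ) * (sw X Δ W) ^ 2) *
    ∑ p ∈ UP X R, ∑ q ∈ UP X R, if p + q ≡ n [MOD Q] then
      wv Δ y₁ W c p * kf (((q : ℝ) - y₂) / Δ) else 0

open Classical in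
/-- `(1/φ(W)) Σ |ν_χ(y,c)|²` over the characters `χ` modulo `Q` not equivalent to a character in `E` -/
noncomputable def DD (X : ℕ) (Δ : ℝ) (R W Q : ℕ) (E : Finset (DirichletCharacter ℂ Q)) (y : ℝ)
    (c : ZMod W) : ℝ :=
  if h : Q = 0 then 0 else
    haveI : NeZero Q := ⟨h⟩
    (1 / (Nat.totient W : ℝ)) *
      ∑ χ ∈ (univ : Finset (DirichletCharacter ℂ Q)).filter (fun χ => ∀ χ' ∈ E, ¬ Eqv W χ' χ),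
        ‖nu X Δ R W y c χ‖ ^ 2

open Classical in
/-- the classes `c` modulo `W` such that `c, n - c, n' - c, n - (n' - c)` are units -/
noncomputable def PathSet (W n n' : ℕ) : Finset ℕ :=
  (range W).filter (fun c => IsUnit ((c : ZMod W)) ∧ IsUnit ((n : ZMod W) - c) ∧
    IsUnit ((n' : ZMod W) - c) ∧ IsUnit ((n : ZMod W) - ((n' : ZMod W) - c)))

/-- the index set of the windows: `X/20 ≤ j Δ/2 ≤ X/2` -/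
noncomputable def JW (X : ℕ) (Δ : ℝ) : Finset ℕ :=
  (range (⌈(X : ℝ) / Δ⌉₊ + 1)).filter (fun j => (X : ℝ) / 20 ≤ j * Δ / 2 ∧ j * Δ / 2 ≤ (X : ℝ) / 2)

/-! ### Interface -/

/-- (SV) the sieve for boundedly many inequivalent characters -/
def SVF : Prop := ∀ ν : ℝ, 0 < ν → ν ≤ 1 / 20 → ∀ B K N0 : ℕ, 1 ≤ B → ∃ X0 : ℕ, ∀ X : ℕ,
  X0 ≤ X → ∀ R W : ℕ, 1 ≤ R → (R : ℝ) ≤ (X : ℝ) ^ (2 / 3 - ν) → W ∣ R →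
  (W : ℝ) ≤ (Real.log X) ^ K → ∀ c : ZMod W, ∀ y : ℝ, (X : ℝ) / 20 ≤ y → y ≤ X →
  ∀ Γ : Finset (DirichletCharacter ℂ R), Γ.card ≤ N0 → Ineq W Γ →
  ∀ t : DirichletCharacter ℂ R → ℂ,
    ∑ p ∈ UP X R, wv (Dl B X) y W c p * ‖∑ χ ∈ Γ, t χ * χ (p : ZMod R)‖ ^ 2 ≤
      (3 - ν) * sw X (Dl B X) W * ∑ χ ∈ Γ, ‖t χ‖ ^ 2

/-- (MASS) the number of primes in the windows and in the classes modulo `W` -/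
def MassF : Prop := ∀ (B K : ℕ) (η : ℝ), 1 ≤ B → 0 < η → ∃ X0 : ℕ, ∀ X : ℕ, X0 ≤ X →
  ∀ R W : ℕ, 1 ≤ R → R ≤ X → W ∣ R → (W : ℝ) ≤ (Real.log X) ^ K → ∀ c : ZMod W, IsUnit c →
  ∀ y : ℝ, (X : ℝ) / 20 ≤ y → y ≤ 9 / 10 * X →
    |∑ p ∈ UP X R, wv (Dl B X) y W c p - sw X (Dl B X) W| ≤ η * sw X (Dl B X) W

/-- (L2N) the primitive characters whose modulus divides `Q`: few have large norm, the others have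
small total -/
def L2N : Prop := ∀ ν : ℝ, 0 < ν → ν ≤ 1 / 20 → ∃ C : ℝ, 0 < C ∧ ∀ (B : ℕ) (κ : ℝ), 0 < κ →
  κ ≤ 1 → ∃ X0 : ℕ, ∀ X : ℕ, X0 ≤ X → ∀ Q : ℕ, 1 ≤ Q → (Q : ℝ) ≤ (X : ℝ) ^ (2 / 3 - ν) →
  ∀ Y : Finset PC, (∀ ψ ∈ Y, IsPC ψ ∧ 2 ≤ ψ.1 ∧ ψ.1 ∣ Q) →
    ((∀ ψ ∈ Y, κ ≤ sN X (4 * (Real.log X) ^ B) ψ) → (Y.card : ℝ) ≤ C / κ) ∧
    ((∀ ψ ∈ Y, sN X (4 * (Real.log X) ^ B) ψ ≤ κ) →
      ∑ ψ ∈ Y, sN X (4 * (Real.log X) ^ B) ψ ^ 2 ≤ C * κ)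

/-- (EXC) few inequivalent characters modulo `Q` carry almost everything, for all windows together;
`y₀ = 0, σ = 1` or `y₀ = n, σ = -1` -/
def ExcF : Prop := ∀ ν : ℝ, 0 < ν → ν ≤ 1 / 20 → ∃ C : ℝ, 0 < C ∧ ∀ (B K : ℕ) (κ : ℝ), 1 ≤ B →
  0 < κ → κ ≤ 1 → ∃ X0 : ℕ, ∀ X : ℕ, X0 ≤ X → ∀ R W Q : ℕ, 1 ≤ R → R ≤ X → W ∣ Q → Q ∣ R →
  (Q : ℝ) ≤ (X : ℝ) ^ (2 / 3 - ν) → (W : ℝ) ≤ (Real.log X) ^ K →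
  ∃ E : Finset (DirichletCharacter ℂ Q), 1 ∈ E ∧ (E.card : ℝ) ≤ 1 + C / κ ∧ Ineq W E ∧
    ∀ y₀ σ : ℝ, (σ = 1 ∨ σ = -1) →
      ∑ j ∈ JW X (Dl B X), ∑ c ∈ range W,
        DD X (Dl B X) R W Q E (y₀ + σ * (j * Dl B X / 2)) (c : ZMod W) ≤
          C * κ * Nat.totient W * (X / Dl B X)

/-- (RCS) the sum of `RC` over the windows and classes is bounded by `LC` -/
def RCSF : Prop := ∃ C : ℝ, 0 < C ∧ ∀ (B : ℕ), 1 ≤ B → ∃ X0 : ℕ, ∀ X : ℕ, X0 ≤ X →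
  ∀ R W Q n n₀ : ℕ, 1 ≤ Q → W ∣ Q → 1 ≤ W → |(n : ℝ) - n₀| ≤ Dl B X →
    ∑ j ∈ JW X (Dl B X), ∑ c ∈ range W,
      RC X (Dl B X) R W Q n (j * Dl B X / 2) (n₀ - j * Dl B X / 2) (c : ZMod W) ≤
    C * ((Nat.totient Q : ℝ) / ((Nat.totient W : ℝ) * (sw X (Dl B X) W) ^ 2)) *
      LC X (Dl B X) n Q

/-- (CORE) two failures -/
def CoreF : Prop := ∀ ν : ℝ, 0 < ν → ν ≤ 1 / 20 → ∃ c0 : ℝ, 0 < c0 ∧ ∀ (B K : ℕ) (ρ : ℝ), 1 ≤ B →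
  0 < ρ → ρ ≤ 1 → ∃ X0 : ℕ, ∀ X : ℕ, X0 ≤ X → ∀ n n' Q1 Q2 W : ℕ, 1 ≤ Q1 → 1 ≤ Q2 →
  Nat.gcd Q1 Q2 = W → (W : ℝ) ≤ (Real.log X) ^ K → Q1 ∣ n * W → Q2 ∣ n' * W →
  (Nat.lcm Q1 Q2 : ℝ) ≤ (X : ℝ) ^ (2 / 3 - ν) → 6 / 10 * (X : ℝ) ≤ n → (n : ℝ) ≤ 9 / 10 * X →
  |(n' : ℝ) - n| ≤ (Real.log X) ^ K → ρ * Nat.totient W ≤ ((PathSet W n n').card : ℝ) →
  LC X (Dl B X) n Q1 ≤ c0 * ρ ^ 2 * LM X (Dl B X) n Q1 →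
  LC X (Dl B X) n' Q2 ≤ c0 * ρ ^ 2 * LM X (Dl B X) n' Q2 → False

/-- (TRANS) a failure makes the average over a residue class small -/
def TransF : Prop := ∀ ν : ℝ, 0 < ν → ν ≤ 1 / 20 → ∃ C0 B1 : ℕ, 1 ≤ B1 ∧ ∀ B : ℕ, B1 ≤ B →
  ∀ δ : ℝ, 0 < δ → δ ≤ 1 → ∃ H N : ℕ, (H : ℝ) ≤ C0 / δ ^ C0 ∧ 2 ≤ H ∧ ∃ X0 : ℕ, ∀ X : ℕ, X0 ≤ X →
  ∃ (Y : Finset PC) (Ex : Finset ℕ), Y.card ≤ N ∧ (Ex.card : ℝ) ≤ (X : ℝ) ^ (1 / 3 + ν) ∧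
    (∀ ψ ∈ Y, 1 ≤ ψ.1 ∧ ψ.1 ≤ X) ∧ ∀ n : ℕ, 6 / 10 * (X : ℝ) ≤ n → (n : ℝ) ≤ 9 / 10 * X →
    Even n → n ∉ Ex → (g n : ℝ) ≤ δ * (SS n * JJ n) → ∀ Q : ℕ, 1 ≤ Q → 2 ∣ Q →
    (Q : ℝ) ≤ (X : ℝ) ^ (2 / 3 - ν) → (∀ ψ ∈ Y, ψ.1 / Nat.gcd ψ.1 n ≤ H → ψ.1 ∣ Q) →
    LC X (Dl B X) n Q ≤ C0 * δ * LM X (Dl B X) n Q

/-- the bad numbers -/
def Bd (δ : ℝ) (n : ℕ) : Prop := Even n ∧ (g n : ℝ) ≤ δ * (SS n * JJ n)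

/-- (PATH) the number of paths -/
def PathF : Prop := ∃ c : ℝ, 0 < c ∧ ∀ H W n n' : ℕ, 2 ≤ H → 1 ≤ W → Even n → Even n' →
  (∀ p : ℕ, p.Prime → p ∣ W → p ≤ H ∨ (p ∣ n ∧ p ∣ n')) → (n % 3 = 0 ∨ n % 3 = n' % 3) →
  c / (Real.log H) ^ 10 * Nat.totient W ≤ ((PathSet W n n').card : ℝ)

open Classical in
/-- the least common multiple of the moduli which almost divide `n` -/
noncomputable def qY (Y : Finset PC) (H n : ℕ) : ℕ :=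
  (Y.filter (fun ψ => ψ.1 / Nat.gcd ψ.1 n ≤ H)).lcm (fun ψ => ψ.1)

/-- `lcm(1, …, H)` -/
def Lm (H : ℕ) : ℕ := (Icc 1 H).lcm id

/-- (STR) the moduli -/
def StrF : Prop := ∀ (Y : Finset PC) (H n n' : ℕ), (∀ ψ ∈ Y, 1 ≤ ψ.1) → 2 ≤ H → 1 ≤ n → 1 ≤ n' →
  n ≠ n' → ∃ W Q1 Q2 : ℕ, 1 ≤ Q1 ∧ 1 ≤ Q2 ∧ Nat.gcd Q1 Q2 = W ∧ 2 ∣ W ∧
    (W : ℝ) ≤ 2 * (Lm H : ℝ) ^ 2 * |(n' : ℝ) - n| ∧ Q1 ∣ n * W ∧ Q2 ∣ n' * W ∧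
    Nat.lcm Q1 Q2 ≤ 2 * Lm H * Nat.lcm (qY Y H n) (qY Y H n') ∧
    (∀ ψ ∈ Y, ψ.1 / Nat.gcd ψ.1 n ≤ H → ψ.1 ∣ Q1) ∧
    (∀ ψ ∈ Y, ψ.1 / Nat.gcd ψ.1 n' ≤ H → ψ.1 ∣ Q2) ∧
    (∀ p : ℕ, p.Prime → p ∣ W → p ≤ H ∨ (p ∣ n ∧ p ∣ n'))

open Classical in
/-- (CNT) few `n` have large moduli -/
def CntT : Prop := ∀ ν : ℝ, 0 < ν → ν ≤ 1 / 20 → ∀ H N K : ℕ, ∃ X0 : ℕ, ∀ X : ℕ, X0 ≤ X →
  ∀ Y : Finset PC, Y.card ≤ N → (∀ ψ ∈ Y, 1 ≤ ψ.1) →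
    (((Icc 1 X).filter (fun n : ℕ => ∃ n' : ℕ, n' ≤ 2 * X ∧ |(n' : ℝ) - n| ≤ (Real.log X) ^ K ∧
      (X : ℝ) ^ (2 / 3 - ν) < 2 * (Lm H : ℝ) * (Nat.lcm (qY Y H n) (qY Y H n') : ℝ))).card : ℝ) ≤
      (X : ℝ) ^ (1 / 3 + 2 * ν)

open Classical in
/-- one scale -/
def OneF : Prop := ∀ ν : ℝ, 0 < ν → ν ≤ 1 / 20 → ∃ δ : ℝ, 0 < δ ∧ ∀ K : ℕ, ∃ X0 : ℕ, ∀ X : ℕ,
  X0 ≤ X →
    (((Icc 1 X).filter (fun n : ℕ => 65 / 100 * (X : ℝ) ≤ n ∧ (n : ℝ) ≤ 85 / 100 * X ∧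
      ∃ m m' : ℕ, n ≤ m ∧ m < m' ∧ (m' : ℝ) ≤ n + (Real.log X) ^ K ∧ Bd δ m ∧ Bd δ m' ∧
        m * m' % 3 ≠ 2)).card : ℝ) ≤ (X : ℝ) ^ (1 / 3 + 3 * ν)

open Classical in
/-- the theorem -/
def FinT : Prop := ∀ ε : ℝ, 0 < ε → ∃ δ : ℝ, 0 < δ ∧ ∀ K : ℕ, ∃ X0 : ℕ, ∀ X : ℕ, X0 ≤ X →
    (((Icc 1 X).filter (fun n : ℕ => ∃ m m' : ℕ, n ≤ m ∧ m < m' ∧
      (m' : ℝ) ≤ n + (Real.log X) ^ K ∧ Bd δ m ∧ Bd δ m' ∧ m * m' % 3 ≠ 2)).card : ℝ) ≤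
      (X : ℝ) ^ (1 / 3 + ε)

end Pool.MP_dd84fd_nt.TC
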