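import Pool.Agent.Lib.MP_dd84fd_nt.TC.Defs

/-!
# TC-Eqr: equivalence of characters modulo `Q` up to characters modulo `W`

`Eqv W χ χ'`: `χ' = χ * changeLevel h ω` for a character `ω` modulo `W`, `W ∣ Q`.
Equivalence relation: `ω = 1`, `ω⁻¹`, products (`changeLevel` is multiplicative).
`eqv_val`: if `p` is coprime to `Q` then `χ'(p) = χ(p) ω(p)` and `|ω(p)| = 1`; if moreover all `p` of
`UP X R` with `wv ≠ 0` satisfy `p ≡ c (W)`, then `ω(p) = ω(c)` is a constant of absolute value 1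
(`c` is a unit because `p` is coprime to `W`; if no such `p` exists both sums are 0), hence
`|nu χ'| = |nu χ|` (`eqv_nu`).
`rep_ex`: in a finite set `S ∋ 1` choose a maximal (by cardinality) subset `E ∋ 1` without two
equivalent characters.
`eqv_card`: `ω ↦ χ * changeLevel h ω` is injective (`DirichletCharacter.changeLevel_injective`, and
characters form a group), so a class has `φ(W)` elements (number of characters modulo `W`, e.g.
`DirichletCharacter.card_eq_totient_of_hasEnoughRootsOfUnity`).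
`sum_all`: the characters modulo `Q` are those equivalent to a character of `E` (at most `φ(W)` for each,
each with the same `|nu|`) and the others, which give `φ(W) DD`.
-/

set_option autoImplicit false

namespace Pool.MP_dd84fd_nt.TC

open Finset Pool.MP_67663b_nt.Odd Pool.MP_dd84fd_nt.En Pool.MP_dd84fd_nt.E2 Pool.MP_dd84fd_nt.LS
open Pool.MP_dd84fd_nt.GX Pool.MP_dd84fd_nt.HX Pool.MP_dd84fd_nt.IX
open Pool.MP_dd84fd_nt.BX (PC pv IsPC PR SX sN prc ind)

theorem eqv_refl {W Q : ℕ} (h : W ∣ Q) (χ : DirichletCharacter ℂ Q) : Eqv W χ χ :=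
  ⟨h, 1, by rw [map_one, mul_one]⟩

theorem eqv_symm {W Q : ℕ} {χ χ' : DirichletCharacter ℂ Q} (h : Eqv W χ χ') : Eqv W χ' χ := by
  obtain ⟨hW, ω, hω⟩ := h
  exact ⟨hW, ω⁻¹, by rw [hω, map_inv, mul_inv_cancel_right]⟩

theorem eqv_trans {W Q : ℕ} {χ χ' χ'' : DirichletCharacter ℂ Q} (h : Eqv W χ χ')
    (h' : Eqv W χ' χ'') : Eqv W χ χ'' := by
  obtain ⟨hW, ω, hω⟩ := h
  obtain ⟨hW', ω', hω'⟩ := h'
  exact ⟨hW, ω * ω', by rw [hω', hω, map_mul, mul_assoc]⟩

private theorem Eqr_val {W Q : ℕ} (h : W ∣ Q) (ω : DirichletCharacter ℂ W) {p : ℕ}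
    (hp : Nat.Coprime p Q) :
    DirichletCharacter.changeLevel h ω (p : ZMod Q) = ω (p : ZMod W) := by
  have h1 := DirichletCharacter.changeLevel_eq_cast_of_dvd' ω h (a := (p : ℤ))
    (Nat.isCoprime_iff_coprime.mpr hp)
  simpa using h1

theorem eqv_nu (X : ℕ) (Δ : ℝ) {R W Q : ℕ} (hQR : Q ∣ R) (y : ℝ) (c : ZMod W)
    {χ χ' : DirichletCharacter ℂ Q} (h : Eqv W χ χ') :
    ‖nu X Δ R W y c χ'‖ = ‖nu X Δ R W y c χ‖ := by
  classical
  obtain ⟨hW, ω, hω⟩ := h
  have hcop : ∀ p ∈ UP X R, Nat.Coprime p Q := by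
    intro p hp
    unfold UP at hp
    have h1 := (Finset.mem_filter.mp hp).2.2.2
    exact h1.coprime_dvd_right hQR
  by_cases hc : IsUnit c
  · have hterm : ∀ p ∈ UP X R, ((wv Δ y W c p : ℝ) : ℂ) * χ' (p : ZMod Q) =
        ω c * (((wv Δ y W c p : ℝ) : ℂ) * χ (p : ZMod Q)) := by
      intro p hp
      rw [hω]
      have e1 : (χ * DirichletCharacter.changeLevel hW ω) (p : ZMod Q) =
          χ (p : ZMod Q) * ω (p : ZMod W) := by
        rw [MulChar.mul_apply, Eqr_val hW ω (hcop p hp)]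
      rw [e1]
      unfold wv
      by_cases hpc : (p : ZMod W) = c
      · rw [hpc]
        ring
      · rw [if_neg hpc]
        simp
    have hsum : nu X Δ R W y c χ' = ω c * nu X Δ R W y c χ := by
      have h1 : ∑ p ∈ UP X R, ((wv Δ y W c p : ℝ) : ℂ) * χ' (p : ZMod Q) =
          ω c * ∑ p ∈ UP X R, ((wv Δ y W c p : ℝ) : ℂ) * χ (p : ZMod Q) := by
        rw [Finset.mul_sum]
        refine Finset.sum_congr rfl fun p hp => ?_
        exact hterm p hp
      unfold nu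
      rw [h1]
      ring
    rw [hsum, norm_mul]
    obtain ⟨u, rfl⟩ := hc
    rw [DirichletCharacter.unit_norm_eq_one, one_mul]
  · have hz : ∀ p ∈ UP X R, wv Δ y W c p = 0 := by
      intro p hp
      unfold wv
      rw [if_neg]
      intro hpc
      apply hc
      rw [← hpc]
      exact (ZMod.isUnit_iff_coprime p W).mpr ((hcop p hp).coprime_dvd_right hW)
    have h0 : ∀ ψ : DirichletCharacter ℂ Q, nu X Δ R W y c ψ = 0 := by
      intro ψ
      unfold nu
      have h1 : ∑ p ∈ UP X R, ((wv Δ y W c p : ℝ) : ℂ) * ψ (p : ZMod Q) = 0 :=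
        Finset.sum_eq_zero fun p hp => by
          rw [hz p hp]
          simp
      rw [h1, mul_zero]
    rw [h0, h0]

theorem rep_ex {W Q : ℕ} (h : W ∣ Q) (S : Finset (DirichletCharacter ℂ Q)) (h1 : 1 ∈ S) :
    ∃ E ⊆ S, 1 ∈ E ∧ Ineq W E ∧ ∀ χ ∈ S, ∃ χ' ∈ E, Eqv W χ' χ := by
  classical
  obtain ⟨F, hF⟩ : ∃ F : Finset (Finset (DirichletCharacter ℂ Q)),
      F = S.powerset.filter (fun E => 1 ∈ E ∧ Ineq W E) := ⟨_, rfl⟩
  have hne : F.Nonempty := by
    refine ⟨{1}, ?_⟩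
    rw [hF, Finset.mem_filter, Finset.mem_powerset]
    refine ⟨Finset.singleton_subset_iff.mpr h1, Finset.mem_singleton_self _, ?_⟩
    intro χ hχ χ' hχ' hne
    rw [Finset.mem_singleton] at hχ hχ'
    exact absurd (hχ.trans hχ'.symm) hne
  obtain ⟨E, hE, hmax⟩ := Finset.exists_max_image F Finset.card hne
  rw [hF, Finset.mem_filter, Finset.mem_powerset] at hE
  obtain ⟨hES, hE1, hEI⟩ := hE
  refine ⟨E, hES, hE1, hEI, fun χ hχ => ?_⟩
  by_cases hχE : χ ∈ E
  · exact ⟨χ, hχE, eqv_refl h χ⟩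
  · by_contra hcon
    push Not at hcon
    have hins : insert χ E ∈ F := by
      rw [hF, Finset.mem_filter, Finset.mem_powerset]
      refine ⟨Finset.insert_subset hχ hES, Finset.mem_insert_of_mem hE1, ?_⟩
      intro a ha b hb hab heq
      rw [Finset.mem_insert] at ha hb
      rcases ha with rfl | ha
      · rcases hb with rfl | hb
        · exact hab rfl
        · exact hcon b hb (eqv_symm heq)
      · rcases hb with rfl | hb
        · exact hcon a ha heq
        · exact hEI a ha b hb hab heq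
    have := hmax _ hins
    rw [Finset.card_insert_of_notMem hχE] at this
    omega

private theorem Eqr_biUnion {α β : Type*} [DecidableEq β] (s : Finset α) (t : α → Finset β)
    (f : β → ℝ) (hf : ∀ b, 0 ≤ f b) : ∑ b ∈ s.biUnion t, f b ≤ ∑ a ∈ s, ∑ b ∈ t a, f b := by
  classical
  induction s using Finset.induction_on with
  | empty => simp
  | insert a s ha ih =>
    rw [Finset.biUnion_insert, Finset.sum_insert ha]
    have h1 : ∑ b ∈ t a ∪ s.biUnion t, f b + ∑ b ∈ t a ∩ s.biUnion t, f b =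
        ∑ b ∈ t a, f b + ∑ b ∈ s.biUnion t, f b := Finset.sum_union_inter
    have h2 : 0 ≤ ∑ b ∈ t a ∩ s.biUnion t, f b := Finset.sum_nonneg fun b _ => hf b
    linarith

open Classical in
theorem eqv_card {W Q : ℕ} [NeZero Q] (h : W ∣ Q) (χ : DirichletCharacter ℂ Q) :
    ((univ : Finset (DirichletCharacter ℂ Q)).filter (fun χ' => Eqv W χ χ')).card =
      Nat.totient W := by
  have hW0 : W ≠ 0 := by
    rintro rfl
    exact NeZero.ne Q (Nat.eq_zero_of_zero_dvd h)
  have hWn : NeZero W := ⟨hW0⟩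
  have e1 : (univ : Finset (DirichletCharacter ℂ Q)).filter (fun χ' => Eqv W χ χ') =
      (univ : Finset (DirichletCharacter ℂ W)).image
        (fun ω => χ * DirichletCharacter.changeLevel h ω) := by
    ext χ'
    rw [Finset.mem_filter, Finset.mem_image]
    constructor
    · rintro ⟨-, h', ω, hω⟩
      exact ⟨ω, Finset.mem_univ _, hω.symm⟩
    · rintro ⟨ω, -, hω⟩
      exact ⟨Finset.mem_univ _, h, ω, hω.symm⟩
  rw [e1, Finset.card_image_of_injective, Finset.card_univ, ← Nat.card_eq_fintype_card,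
    DirichletCharacter.card_eq_totient_of_hasEnoughRootsOfUnity]
  intro ω ω' hωω
  exact DirichletCharacter.changeLevel_injective h (mul_left_cancel hωω)

theorem DD_nonneg (X : ℕ) (Δ : ℝ) (R W Q : ℕ) (E : Finset (DirichletCharacter ℂ Q)) (y : ℝ)
    (c : ZMod W) : 0 ≤ DD X Δ R W Q E y c := by
  unfold DD
  split_ifs
  · exact le_refl 0
  · exact mul_nonneg (by positivity) (Finset.sum_nonneg fun _ _ => by positivity)

theorem sum_all (X : ℕ) (Δ : ℝ) {R W Q : ℕ} [NeZero Q] (hQR : Q ∣ R) (h : W ∣ Q) (y : ℝ)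
    (c : ZMod W) (E : Finset (DirichletCharacter ℂ Q)) :
    ∑ χ : DirichletCharacter ℂ Q, ‖nu X Δ R W y c χ‖ ^ 2 ≤
      (Nat.totient W : ℝ) * (∑ χ ∈ E, ‖nu X Δ R W y c χ‖ ^ 2 + DD X Δ R W Q E y c) := by
  classical
  have hQ0 : Q ≠ 0 := NeZero.ne Q
  have hW0 : 0 < W := Nat.pos_of_ne_zero (by
    rintro rfl
    exact hQ0 (Nat.eq_zero_of_zero_dvd h))
  have hφ : (0 : ℝ) < (Nat.totient W : ℝ) := by exact_mod_cast Nat.totient_pos.mpr hW0
  have hDD : (Nat.totient W : ℝ) * DD X Δ R W Q E y c =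
      ∑ χ ∈ (univ : Finset (DirichletCharacter ℂ Q)).filter (fun χ => ∀ χ' ∈ E, ¬ Eqv W χ' χ),
        ‖nu X Δ R W y c χ‖ ^ 2 := by
    unfold DD
    rw [dif_neg hQ0, ← mul_assoc, mul_one_div_cancel hφ.ne', one_mul]
  have hE : ∑ χ ∈ (univ : Finset (DirichletCharacter ℂ Q)).filter
      (fun χ => ¬ ∀ χ' ∈ E, ¬ Eqv W χ' χ), ‖nu X Δ R W y c χ‖ ^ 2 ≤
      (Nat.totient W : ℝ) * ∑ χ ∈ E, ‖nu X Δ R W y c χ‖ ^ 2 := by
    have hsub : (univ : Finset (DirichletCharacter ℂ Q)).filter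
        (fun χ => ¬ ∀ χ' ∈ E, ¬ Eqv W χ' χ) ⊆ E.biUnion (fun χ' =>
          (univ : Finset (DirichletCharacter ℂ Q)).filter (fun χ => Eqv W χ' χ)) := by
      intro χ hχ
      rw [Finset.mem_filter] at hχ
      have h2 := hχ.2
      push Not at h2
      obtain ⟨χ', hχ', he⟩ := h2
      rw [Finset.mem_biUnion]
      exact ⟨χ', hχ', Finset.mem_filter.mpr ⟨Finset.mem_univ _, he⟩⟩
    refine (Finset.sum_le_sum_of_subset_of_nonneg hsub (fun _ _ _ => by positivity)).trans ?_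
    refine (Eqr_biUnion E (fun χ' => (univ : Finset (DirichletCharacter ℂ Q)).filter
      (fun χ => Eqv W χ' χ)) (fun χ => ‖nu X Δ R W y c χ‖ ^ 2) (fun _ => by positivity)).trans ?_
    rw [Finset.mul_sum]
    refine Finset.sum_le_sum fun χ' _ => ?_
    have e2 : ∑ χ ∈ (univ : Finset (DirichletCharacter ℂ Q)).filter (fun χ => Eqv W χ' χ),
        ‖nu X Δ R W y c χ‖ ^ 2 = ∑ _χ ∈ (univ : Finset (DirichletCharacter ℂ Q)).filter
          (fun χ => Eqv W χ' χ), ‖nu X Δ R W y c χ'‖ ^ 2 := by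
      refine Finset.sum_congr rfl fun χ hχ => ?_
      rw [Finset.mem_filter] at hχ
      rw [eqv_nu X Δ hQR y c hχ.2]
    rw [e2, Finset.sum_const, eqv_card h χ', nsmul_eq_mul]
  have hsplit := Finset.sum_filter_add_sum_filter_not (univ : Finset (DirichletCharacter ℂ Q))
    (fun χ => ∀ χ' ∈ E, ¬ Eqv W χ' χ) (fun χ => ‖nu X Δ R W y c χ‖ ^ 2)
  rw [mul_add, hDD, ← hsplit]
  linarith

end Pool.MP_dd84fd_nt.TC
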