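import Pool.Agent.Lib.MP_dd84fd_nt.TC.KfA

/-!
# TC-KerS: sums of the kernel over the windows

`ker_one`: `kf(u) ≤ min(1, 1/(π u)²)`; among the `j` at most `4` have `|x/Δ - j/2| ≤ 1/2`... and for the
others compare with `∑_{k ≥ 1} 4/k²`: `∑_j kf((x - jΔ/2)/Δ) ≤ 40`, any constant will do.
`ker_s`: put `a = (p - jΔ/2)/Δ`, `b = (q - n + jΔ/2)/Δ`, `s = a + b = (p+q-n)/Δ`.  If `|s| ≤ 1` use
`kf b ≤ 1` and `ker_one`.  If `|s| > 1` then `|a| ≥ |s|/2` or `|b| ≥ |s|/2`, so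
`kf a * kf b ≤ (4/(π² s²)) (kf a + kf b)`, and `ker_one` twice (the second one with `σ = -1`).
-/

set_option autoImplicit false

namespace Pool.MP_dd84fd_nt.TC

open Finset

private theorem sum_range_le (M : ℕ) :
    ∑ d ∈ range M, 1 / (1 + (d : ℝ) ^ 2) ≤ 4 - 4 / ((M : ℝ) + 1) := by
  induction M with
  | zero => simp
  | succ M ih =>
    rw [sum_range_succ]
    have h1 : 1 / (1 + (M : ℝ) ^ 2) ≤ 4 / ((M : ℝ) + 1) - 4 / ((M : ℝ) + 1 + 1) := by
      rw [div_sub_div _ _ (by positivity) (by positivity), div_le_div_iff₀ (by positivity) (by positivity)]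
      nlinarith [sq_nonneg ((M : ℝ) - 1), sq_nonneg (M : ℝ)]
    push_cast
    linarith

private theorem sum_nat_le (D : Finset ℕ) : ∑ d ∈ D, 1 / (1 + (d : ℝ) ^ 2) ≤ 4 := by
  have h1 : D ⊆ range (D.sup id + 1) := fun d hd =>
    mem_range.2 (Nat.lt_succ_of_le (le_sup (f := id) hd))
  refine (sum_le_sum_of_subset_of_nonneg h1 fun _ _ _ => by positivity).trans
    ((sum_range_le _).trans ?_)
  have : 0 ≤ 4 / (((D.sup id + 1 : ℕ) : ℝ) + 1) := by positivity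
  linarith

private theorem sum_int_le (J : Finset ℕ) (m : ℤ) :
    ∑ j ∈ J, 1 / (1 + ((j : ℝ) - m) ^ 2) ≤ 8 := by
  classical
  rw [← sum_filter_add_sum_filter_not J (fun j : ℕ => m ≤ (j : ℤ))]
  have h1 : ∑ j ∈ J.filter (fun j : ℕ => m ≤ (j : ℤ)), 1 / (1 + ((j : ℝ) - m) ^ 2) ≤ 4 := by
    refine le_trans (le_of_eq ?_)
      (sum_nat_le ((J.filter (fun j : ℕ => m ≤ (j : ℤ))).image fun j : ℕ => ((j : ℤ) - m).toNat))
    rw [sum_image]
    · refine sum_congr rfl fun j hj => ?_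
      have h := (mem_filter.1 hj).2
      have h2 : ((((j : ℤ) - m).toNat : ℕ) : ℝ) = (j : ℝ) - m := by
        have h3 : ((((j : ℤ) - m).toNat : ℕ) : ℤ) = (j : ℤ) - m := Int.toNat_of_nonneg (by omega)
        exact_mod_cast congrArg (fun z : ℤ => (z : ℝ)) h3
      rw [h2]
    · intro a ha b hb hab
      have h1 := (mem_filter.1 (mem_coe.1 ha)).2
      have h2 := (mem_filter.1 (mem_coe.1 hb)).2
      simp only at hab
      omega
  have h2 : ∑ j ∈ J.filter (fun j : ℕ => ¬ m ≤ (j : ℤ)), 1 / (1 + ((j : ℝ) - m) ^ 2) ≤ 4 := by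
    refine le_trans (le_of_eq ?_)
      (sum_nat_le ((J.filter (fun j : ℕ => ¬ m ≤ (j : ℤ))).image fun j : ℕ => (m - (j : ℤ)).toNat))
    rw [sum_image]
    · refine sum_congr rfl fun j hj => ?_
      have h := (mem_filter.1 hj).2
      have h2 : (((m - (j : ℤ)).toNat : ℕ) : ℝ) = (m : ℝ) - j := by
        have h3 : (((m - (j : ℤ)).toNat : ℕ) : ℤ) = m - (j : ℤ) := Int.toNat_of_nonneg (by omega)
        exact_mod_cast congrArg (fun z : ℤ => (z : ℝ)) h3
      rw [h2]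
      congr 2
      ring
    · intro a ha b hb hab
      have h1 := (mem_filter.1 (mem_coe.1 ha)).2
      have h2 := (mem_filter.1 (mem_coe.1 hb)).2
      simp only at hab
      omega
  linarith

private theorem kf_le_floor (u : ℝ) (m : ℤ) (h1 : (m : ℝ) ≤ 2 * u) (h2 : 2 * u < m + 1) (j : ℤ) :
    kf (u - j / 2) ≤ 4 * (1 / (1 + ((j : ℝ) - m) ^ 2)) := by
  have hle := kf_le_one (u - j / 2)
  have hdec := kf_decay (u - j / 2)
  have h0 := kf_nonneg (u - j / 2)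
  have hpi : (9 : ℝ) ≤ Real.pi ^ 2 := by nlinarith [Real.pi_gt_three]
  have hd : |(j : ℝ) - m| ≤ 1 ∨ 2 ≤ |(j : ℝ) - m| := by
    have : |j - m| ≤ 1 ∨ 2 ≤ |j - m| := by omega
    rcases this with h | h
    · left
      exact_mod_cast h
    · right
      exact_mod_cast h
  rw [mul_one_div, le_div_iff₀ (by positivity)]
  rcases hd with h | h
  · have h3 : ((j : ℝ) - m) ^ 2 ≤ 1 := by
      rw [← sq_abs]
      nlinarith [abs_nonneg ((j : ℝ) - m)]
    nlinarith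
  · -- `|j - 2u| ≥ |j - m| - 1 ≥ |j - m| / 2`
    have h4 : |(j : ℝ) - m| / 2 ≤ |2 * u - j| := by
      have h5 : |(j : ℝ) - m| ≤ |2 * u - j| + |2 * u - m| := by
        have h6 := abs_sub_abs_le_abs_sub ((j : ℝ) - m) (2 * u - m)
        have h7 : |(j : ℝ) - m - (2 * u - m)| = |2 * u - j| := by
          rw [abs_sub_comm]
          congr 1
          ring
        rw [h7] at h6
        linarith
      have h6 : |2 * u - m| ≤ 1 := by
        rw [abs_le]
        constructor <;> linarith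
      linarith
    have h5 : ((j : ℝ) - m) ^ 2 / 4 ≤ (2 * u - j) ^ 2 := by
      have h6 : (|(j : ℝ) - m| / 2) ^ 2 ≤ |2 * u - j| ^ 2 := by gcongr
      rw [sq_abs, div_pow, sq_abs] at h6
      linarith
    have h6 : (4 : ℝ) ≤ ((j : ℝ) - m) ^ 2 := by
      rw [← sq_abs]
      nlinarith
    have h7 : (Real.pi * (u - j / 2)) ^ 2 = Real.pi ^ 2 / 4 * (2 * u - j) ^ 2 := by ring
    rw [h7] at hdec
    have h8 : kf (u - j / 2) * (9 / 16 * ((j : ℝ) - m) ^ 2) ≤ 1 := by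
      refine le_trans (mul_le_mul_of_nonneg_left ?_ h0) hdec
      calc 9 / 16 * ((j : ℝ) - m) ^ 2 = 9 / 4 * (((j : ℝ) - m) ^ 2 / 4) := by ring
        _ ≤ Real.pi ^ 2 / 4 * (2 * u - j) ^ 2 := by gcongr
    nlinarith

theorem ker_one (J : Finset ℕ) (Δ x σ : ℝ) (hΔ : 0 < Δ) (hσ : σ = 1 ∨ σ = -1) :
    ∑ j ∈ J, kf ((x - σ * (j * Δ / 2)) / Δ) ≤ 40 := by
  have key : ∀ u : ℝ, ∑ j ∈ J, kf (u - j / 2) ≤ 40 := by
    intro u
    calc ∑ j ∈ J, kf (u - j / 2) ≤ ∑ j ∈ J, 4 * (1 / (1 + ((j : ℝ) - ⌊2 * u⌋) ^ 2)) := by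
          refine sum_le_sum fun j _ => ?_
          have := kf_le_floor u ⌊2 * u⌋ (Int.floor_le _) (Int.lt_floor_add_one _) (j : ℤ)
          simpa using this
      _ = 4 * ∑ j ∈ J, 1 / (1 + ((j : ℝ) - ⌊2 * u⌋) ^ 2) := by rw [mul_sum]
      _ ≤ 4 * 8 := by gcongr; exact sum_int_le J _
      _ ≤ 40 := by norm_num
  rcases hσ with rfl | rfl
  · refine le_trans (le_of_eq (sum_congr rfl fun j _ => ?_)) (key (x / Δ))
    congr 1
    field_simp
  · refine le_trans (le_of_eq (sum_congr rfl fun j _ => ?_)) (key (-(x / Δ)))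
    rw [← kf_even]
    congr 1
    field_simp
    ring

theorem ker_s (J : Finset ℕ) (Δ p q n : ℝ) (hΔ : 0 < Δ) :
    ∑ j ∈ J, kf ((p - j * Δ / 2) / Δ) * kf ((q - (n - j * Δ / 2)) / Δ) ≤
      80 * wk Δ (p + q - n) := by
  have hA : ∑ j ∈ J, kf ((p - j * Δ / 2) / Δ) ≤ 40 := by
    simpa using ker_one J Δ p 1 hΔ (Or.inl rfl)
  have hB : ∑ j ∈ J, kf ((q - (n - j * Δ / 2)) / Δ) ≤ 40 := by
    refine le_trans (le_of_eq (sum_congr rfl fun j _ => ?_)) (ker_one J Δ (q - n) (-1) hΔ (Or.inr rfl))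
    congr 2
    ring
  unfold wk
  split_ifs with h
  · rw [mul_one]
    refine le_trans (sum_le_sum fun j _ => ?_) (hA.trans (by norm_num))
    exact mul_le_of_le_one_right (kf_nonneg _) (kf_le_one _)
  · push Not at h
    have hs : 0 < |p + q - n| := hΔ.trans h
    have hs0 : p + q - n ≠ 0 := abs_pos.1 hs
    have hpi : (9 : ℝ) ≤ Real.pi ^ 2 := by nlinarith [Real.pi_gt_three]
    have hk : ∀ u : ℝ, |(p + q - n) / Δ| / 2 ≤ |u| → kf u ≤ (Δ / (p + q - n)) ^ 2 := by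
      intro u hu
      have h1 := kf_decay u
      have h2 : ((p + q - n) / Δ) ^ 2 / 4 ≤ u ^ 2 := by
        have h3 : (|(p + q - n) / Δ| / 2) ^ 2 ≤ |u| ^ 2 := by gcongr
        rw [sq_abs, div_pow, sq_abs] at h3
        linarith
      have h4 : 0 < ((p + q - n) / Δ) ^ 2 := by positivity
      have h5 : (Δ / (p + q - n)) ^ 2 = 1 / ((p + q - n) / Δ) ^ 2 := by
        rw [one_div, ← inv_pow, inv_div]
      rw [h5, le_div_iff₀ h4]
      refine le_trans (mul_le_mul_of_nonneg_left ?_ (kf_nonneg u)) h1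
      rw [mul_pow]
      nlinarith
    have hj : ∀ j ∈ J, kf ((p - j * Δ / 2) / Δ) * kf ((q - (n - j * Δ / 2)) / Δ) ≤
        (Δ / (p + q - n)) ^ 2 *
          (kf ((p - j * Δ / 2) / Δ) + kf ((q - (n - j * Δ / 2)) / Δ)) := by
      intro j _
      have hsum : (p + q - n) / Δ = (p - j * Δ / 2) / Δ + (q - (n - j * Δ / 2)) / Δ := by
        rw [← add_div]
        congr 1
        ring
      have h0 : 0 ≤ (Δ / (p + q - n)) ^ 2 := sq_nonneg _
      have ha := kf_nonneg ((p - j * Δ / 2) / Δ)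
      have hb := kf_nonneg ((q - (n - j * Δ / 2)) / Δ)
      rcases le_total (|(p + q - n) / Δ| / 2) |(p - j * Δ / 2) / Δ| with h1 | h1
      · have h2 := mul_le_mul_of_nonneg_right (hk _ h1) hb
        nlinarith [mul_nonneg h0 ha]
      · have h3 : |(p + q - n) / Δ| / 2 ≤ |(q - (n - j * Δ / 2)) / Δ| := by
          have h4 := abs_add_le ((p - j * Δ / 2) / Δ) ((q - (n - j * Δ / 2)) / Δ)
          rw [← hsum] at h4
          linarith
        have h2 := mul_le_mul_of_nonneg_left (hk _ h3) ha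
        nlinarith [mul_nonneg h0 hb]
    calc ∑ j ∈ J, kf ((p - j * Δ / 2) / Δ) * kf ((q - (n - j * Δ / 2)) / Δ)
        ≤ ∑ j ∈ J, (Δ / (p + q - n)) ^ 2 *
          (kf ((p - j * Δ / 2) / Δ) + kf ((q - (n - j * Δ / 2)) / Δ)) := sum_le_sum hj
      _ = (Δ / (p + q - n)) ^ 2 * (∑ j ∈ J, kf ((p - j * Δ / 2) / Δ) +
          ∑ j ∈ J, kf ((q - (n - j * Δ / 2)) / Δ)) := by rw [← mul_sum, sum_add_distrib]
      _ ≤ (Δ / (p + q - n)) ^ 2 * (40 + 40) := by gcongr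
      _ = 80 * (Δ / (p + q - n)) ^ 2 := by ring

end Pool.MP_dd84fd_nt.TC
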