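import Pool.Agent.Lib.MP_dd84fd_nt.TC.Defs
import Pool.Agent.Lib.MP_dd84fd_nt.TC.KerS
import Pool.Agent.Lib.MP_dd84fd_nt.TC.Bes

/-!
# TC-FP: the windows of one character are controlled by the exponential sum

`χ` modulo `Q`, `ψ = prc χ`, `Q ∣ R ≤ X`.  For `p ∈ UP X R` (coprime to `R`, so to `Q`)
`χ(p) = ψ(p) = pv ψ p`.  Hence `Σ_{p ∈ UP X R} kf(…) χ(p) = Σ_{n ≤ X} wP(n) pv ψ n kf(…) - e_j`, where
`e_j` is the sum over the primes `zI X ≤ p ≤ X` which divide `R`; there are at most `10` of them (their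
product is `≤ R ≤ X`, each is `≥ X^(1/10)`, `≥ 2`).  `|a - b|² ≤ 2|a|² + 2|b|²`; the first part by `bes`
(`SX X ψ x = Σ wP(n) pv ψ n e(nx)`), the second: `|e_j|² ≤ 10 Σ_{p ∣ R} kf(…)² ≤ 10 Σ_{p ∣ R} kf(…)`
(`0 ≤ kf ≤ 1`), sum over `j`: `≤ 100 C` (`ker_one` with `u = p - y₀`).
-/

set_option autoImplicit false

namespace Pool.MP_dd84fd_nt.TC

open Finset Pool.MP_67663b_nt.Odd Pool.MP_dd84fd_nt.En Pool.MP_dd84fd_nt.E2 Pool.MP_dd84fd_nt.LS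
open Pool.MP_dd84fd_nt.GX Pool.MP_dd84fd_nt.HX Pool.MP_dd84fd_nt.IX
open Pool.MP_dd84fd_nt.BX (PC pv IsPC PR SX sN prc ind)

private theorem fp_UP (X R : ℕ) [DecidablePred fun p : ℕ => p.Prime ∧ zI X ≤ p ∧ Nat.Coprime p R] :
    UP X R = (Icc 1 X).filter (fun p : ℕ => p.Prime ∧ zI X ≤ p ∧ Nat.Coprime p R) := by
  unfold UP
  congr!

/-- at most `10` of the primes `zI X ≤ p` divide `R ≤ X` -/
private theorem fp_card {X R : ℕ} (hX : 3 ≤ X) (hR : 1 ≤ R) (hRX : R ≤ X) (B : Finset ℕ)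
    (hB : ∀ p ∈ B, p.Prime ∧ zI X ≤ p ∧ p ∣ R) : B.card ≤ 10 := by
  by_contra hcon
  push Not at hcon
  have hX1 : (1 : ℝ) < X := by exact_mod_cast (by omega : 1 < X)
  have h1 : ∏ p ∈ B, p ∣ R := by
    refine Finset.prod_primes_dvd R (fun p hp => (hB p hp).1.prime) (fun p hp => (hB p hp).2.2)
  have h2 : ∏ p ∈ B, p ≤ R := Nat.le_of_dvd hR h1
  have h3 : ((X : ℝ) ^ (1 / 10 : ℝ)) ^ B.card ≤ ∏ p ∈ B, (p : ℝ) := by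
    rw [← prod_const]
    refine prod_le_prod (fun p _ => by positivity) fun p hp => ?_
    refine (Nat.le_ceil _).trans ?_
    exact_mod_cast (hB p hp).2.1
  have h4 : ∏ p ∈ B, (p : ℝ) ≤ X := by
    have : ((∏ p ∈ B, p : ℕ) : ℝ) ≤ X := by exact_mod_cast h2.trans hRX
    rwa [Nat.cast_prod] at this
  have h5 : (X : ℝ) < ((X : ℝ) ^ (1 / 10 : ℝ)) ^ B.card := by
    rw [← Real.rpow_natCast, ← Real.rpow_mul (by positivity)]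
    calc (X : ℝ) = (X : ℝ) ^ (1 : ℝ) := (Real.rpow_one _).symm
      _ < (X : ℝ) ^ ((1 / 10 : ℝ) * (B.card : ℕ)) := by
        refine Real.rpow_lt_rpow_of_exponent_lt hX1 ?_
        have : (11 : ℝ) ≤ (B.card : ℕ) := by exact_mod_cast hcon
        linarith
  linarith

theorem prc_val {Q : ℕ} [NeZero Q] (χ : DirichletCharacter ℂ Q) (p : ℕ) (hp : Nat.Coprime p Q) :
    χ (p : ZMod Q) = pv (prc χ) p := by
  have h1 := DirichletCharacter.changeLevel_eq_cast_of_dvd' χ.primitiveCharacter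
    χ.conductor_dvd_level (a := (p : ℤ)) (Nat.isCoprime_iff_coprime.mpr hp)
  rw [DirichletCharacter.changeLevel_primitiveCharacter] at h1
  unfold BX.pv prc
  exact_mod_cast h1

theorem fp : ∃ C : ℝ, 0 < C ∧ ∀ (X : ℕ), 3 ≤ X → ∀ (R Q : ℕ) [NeZero Q], 1 ≤ R → R ≤ X → Q ∣ R →
    ∀ (χ : DirichletCharacter ℂ Q) (Δ : ℝ), 0 < Δ → ∀ y₀ σ : ℝ, (σ = 1 ∨ σ = -1) →
    ∀ J : Finset ℕ,
      ∑ j ∈ J, ‖∑ p ∈ UP X R, ((kf (((p : ℝ) - (y₀ + σ * (j * Δ / 2))) / Δ) : ℝ) : ℂ) *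
        χ (p : ZMod Q)‖ ^ 2 ≤
      4 * Δ * (∫ x in (-(1 / Δ))..(1 / Δ), ‖SX X (prc χ) x‖ ^ 2) + C := by
  classical
  refine ⟨8000, by norm_num, ?_⟩
  intro X hX R Q _ hR hRX hQR χ Δ hΔ y₀ σ hσ J
  obtain ⟨k, hk⟩ : ∃ k : ℕ → ℕ → ℝ, k = fun (j n : ℕ) =>
    kf (((n : ℝ) - (y₀ + σ * (j * Δ / 2))) / Δ) := ⟨_, rfl⟩
  obtain ⟨B, hB⟩ : ∃ B : Finset ℕ, B = (Icc 1 X).filter
    (fun p : ℕ => p.Prime ∧ zI X ≤ p ∧ ¬ Nat.Coprime p R) := ⟨_, rfl⟩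
  have hBc : B.card ≤ 10 := by
    refine fp_card hX hR hRX B fun p hp => ?_
    rw [hB, mem_filter] at hp
    refine ⟨hp.2.1, hp.2.2.1, ?_⟩
    by_contra h
    exact hp.2.2.2 ((Nat.Prime.coprime_iff_not_dvd hp.2.1).mpr h)
  have hk0 : ∀ j n, 0 ≤ k j n := fun j n => by rw [hk]; exact kf_nonneg _
  have hk1 : ∀ j n, k j n ≤ 1 := fun j n => by rw [hk]; exact kf_le_one _
  -- the splitting
  have hsp : ∀ j : ℕ, ∑ p ∈ UP X R, ((k j p : ℝ) : ℂ) * χ (p : ZMod Q) =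
      ∑ n ∈ Icc 1 X, ((k j n : ℝ) : ℂ) * (((JX.wP X n : ℝ) : ℂ) * pv (prc χ) n) -
        ∑ p ∈ B, ((k j p : ℝ) : ℂ) * pv (prc χ) p := by
    intro j
    rw [fp_UP X R, hB, sum_filter, sum_filter, ← sum_sub_distrib]
    refine sum_congr rfl fun n _ => ?_
    unfold JX.wP
    by_cases h1 : n.Prime ∧ zI X ≤ n
    · by_cases h2 : Nat.Coprime n R
      · rw [if_pos ⟨h1.1, h1.2, h2⟩, if_pos h1, if_neg (fun h => h.2.2 h2),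
          prc_val χ n (Nat.Coprime.coprime_dvd_right hQR h2)]
        push_cast
        ring
      · rw [if_neg (fun h => h2 h.2.2), if_pos h1, if_pos ⟨h1.1, h1.2, h2⟩]
        push_cast
        ring
    · rw [if_neg (fun h => h1 ⟨h.1, h.2.1⟩), if_neg h1, if_neg (fun h => h1 ⟨h.1, h.2.1⟩)]
      push_cast
      ring
  have hj : ∀ j ∈ J, ‖∑ p ∈ UP X R, ((k j p : ℝ) : ℂ) * χ (p : ZMod Q)‖ ^ 2 ≤
      2 * ‖∑ n ∈ Icc 1 X, ((k j n : ℝ) : ℂ) * (((JX.wP X n : ℝ) : ℂ) * pv (prc χ) n)‖ ^ 2 +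
        20 * ∑ p ∈ B, k j p := by
    intro j _
    rw [hsp j]
    obtain ⟨a, ha⟩ : ∃ a : ℂ, a = ∑ n ∈ Icc 1 X, ((k j n : ℝ) : ℂ) *
      (((JX.wP X n : ℝ) : ℂ) * pv (prc χ) n) := ⟨_, rfl⟩
    obtain ⟨b, hb⟩ : ∃ b : ℂ, b = ∑ p ∈ B, ((k j p : ℝ) : ℂ) * pv (prc χ) p := ⟨_, rfl⟩
    rw [← ha, ← hb]
    have h1 : ‖b‖ ≤ ∑ p ∈ B, k j p := by
      rw [hb]
      refine (norm_sum_le _ _).trans (sum_le_sum fun p _ => ?_)
      rw [norm_mul, Complex.norm_real, Real.norm_of_nonneg (hk0 j p)]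
      have h2 : ‖pv (prc χ) p‖ ≤ 1 := BX.pv_norm_le _ _
      nlinarith [hk0 j p, norm_nonneg (pv (prc χ) p)]
    have h2 : ∑ p ∈ B, k j p ≤ 10 := by
      calc ∑ p ∈ B, k j p ≤ ∑ p ∈ B, (1 : ℝ) := sum_le_sum fun p _ => hk1 j p
        _ = (B.card : ℝ) := by simp
        _ ≤ 10 := by exact_mod_cast hBc
    have h3 : ‖b‖ ^ 2 ≤ 10 * ∑ p ∈ B, k j p := by
      have h30 : 0 ≤ ∑ p ∈ B, k j p := sum_nonneg fun p _ => hk0 j p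
      nlinarith [norm_nonneg b]
    have h4 : ‖a - b‖ ≤ ‖a‖ + ‖b‖ := norm_sub_le _ _
    have h5 : ‖a - b‖ ^ 2 ≤ 2 * ‖a‖ ^ 2 + 2 * ‖b‖ ^ 2 := by
      nlinarith [norm_nonneg (a - b), norm_nonneg a, norm_nonneg b, sq_nonneg (‖a‖ - ‖b‖)]
    linarith
  have hbes := bes (fun n => ((JX.wP X n : ℝ) : ℂ) * pv (prc χ) n) X Δ y₀ σ hΔ hσ J
  have hker : ∑ j ∈ J, ∑ p ∈ B, k j p ≤ 400 := by
    rw [sum_comm]
    calc ∑ p ∈ B, ∑ j ∈ J, k j p ≤ ∑ p ∈ B, (40 : ℝ) := by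
          refine sum_le_sum fun p _ => ?_
          refine le_trans (le_of_eq (sum_congr rfl fun j _ => ?_)) (ker_one J Δ ((p : ℝ) - y₀) σ hΔ hσ)
          rw [hk]
          simp only
          congr 2
          ring
      _ = B.card * 40 := by simp
      _ ≤ 10 * 40 := by
        have : (B.card : ℝ) ≤ 10 := by exact_mod_cast hBc
        nlinarith
      _ = 400 := by norm_num
  have hSX : ∀ x : ℝ, SX X (prc χ) x = ∑ n ∈ Icc 1 X, (fun n => ((JX.wP X n : ℝ) : ℂ) *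
      pv (prc χ) n) n * ee ((n : ℝ) * x) := fun x => rfl
  have hgoal : ∑ j ∈ J, ‖∑ p ∈ UP X R, ((k j p : ℝ) : ℂ) * χ (p : ZMod Q)‖ ^ 2 ≤
      4 * Δ * (∫ x in (-(1 / Δ))..(1 / Δ), ‖SX X (prc χ) x‖ ^ 2) + 8000 := by
    calc ∑ j ∈ J, ‖∑ p ∈ UP X R, ((k j p : ℝ) : ℂ) * χ (p : ZMod Q)‖ ^ 2
        ≤ ∑ j ∈ J, (2 * ‖∑ n ∈ Icc 1 X, ((k j n : ℝ) : ℂ) *
          (((JX.wP X n : ℝ) : ℂ) * pv (prc χ) n)‖ ^ 2 + 20 * ∑ p ∈ B, k j p) := sum_le_sum hj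
      _ = 2 * ∑ j ∈ J, ‖∑ n ∈ Icc 1 X, ((k j n : ℝ) : ℂ) *
          (((JX.wP X n : ℝ) : ℂ) * pv (prc χ) n)‖ ^ 2 + 20 * ∑ j ∈ J, ∑ p ∈ B, k j p := by
        rw [sum_add_distrib, ← mul_sum, ← mul_sum]
      _ ≤ 2 * (2 * Δ * ∫ x in (-(1 / Δ))..(1 / Δ), ‖SX X (prc χ) x‖ ^ 2) + 20 * 400 := by
        rw [hk]
        exact add_le_add (mul_le_mul_of_nonneg_left hbes (by norm_num))
          (mul_le_mul_of_nonneg_left (by rw [hk] at hker; exact hker) (by norm_num))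
      _ = 4 * Δ * (∫ x in (-(1 / Δ))..(1 / Δ), ‖SX X (prc χ) x‖ ^ 2) + 8000 := by ring
  rw [hk] at hgoal
  exact hgoal

end Pool.MP_dd84fd_nt.TC
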