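import Pool.Agent.Lib.MP_dd84fd_nt.TC.Defs

/-!
# Project TC, windows of length `X^c` (helper45)

The same as TC/Defs.lean, but the modulus `W` of the classes may be a small power of `X`; instead of
Siegel-Walfisz it is assumed that no nonprincipal character modulo `W` is heavy (`NoH`).  For windows of
length `X^c` this holds for all pairs of failures which are not both divisible by one number `d` (the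
modulus of the only heavy character of small conductor, divided by a bounded number).
-/

set_option autoImplicit false

namespace Pool.MP_dd84fd_nt.TC

open Finset Pool.MP_67663b_nt.Odd Pool.MP_dd84fd_nt.En Pool.MP_dd84fd_nt.E2 Pool.MP_dd84fd_nt.LS
open Pool.MP_dd84fd_nt.GX Pool.MP_dd84fd_nt.HX Pool.MP_dd84fd_nt.IX
open Pool.MP_dd84fd_nt.BX (PC pv IsPC PR SX sN prc ind)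

/-- no nonprincipal character modulo `W` is heavy -/
def NoH (X B W : ℕ) (κ : ℝ) : Prop :=
  ∀ ψ : PC, IsPC ψ → 2 ≤ ψ.1 → ψ.1 ∣ W → sN X (4 * (Real.log X) ^ B) ψ ≤ κ

/-- (SVG) the sieve, `W ≤ X^(ν/100)` -/
def SVG : Prop := ∀ ν : ℝ, 0 < ν → ν ≤ 1 / 20 → ∀ B N0 : ℕ, 1 ≤ B → ∃ X0 : ℕ, ∀ X : ℕ,
  X0 ≤ X → ∀ R W : ℕ, 1 ≤ R → (R : ℝ) ≤ (X : ℝ) ^ (2 / 3 - ν) → W ∣ R →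
  (W : ℝ) ≤ (X : ℝ) ^ (ν / 100) → ∀ c : ZMod W, ∀ y : ℝ, (X : ℝ) / 20 ≤ y → y ≤ X →
  ∀ Γ : Finset (DirichletCharacter ℂ R), Γ.card ≤ N0 → Ineq W Γ →
  ∀ t : DirichletCharacter ℂ R → ℂ,
    ∑ p ∈ UP X R, wv (Dl B X) y W c p * ‖∑ χ ∈ Γ, t χ * χ (p : ZMod R)‖ ^ 2 ≤
      (3 - ν) * sw X (Dl B X) W * ∑ χ ∈ Γ, ‖t χ‖ ^ 2

open Classical in
/-- the deviation of the mass of the class `c` (a unit) from its expected value, squared -/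
noncomputable def Dv (X : ℕ) (Δ : ℝ) (R W : ℕ) (y : ℝ) (c : ZMod W) : ℝ :=
  if IsUnit c then ((∑ p ∈ UP X R, wv Δ y W c p) / sw X Δ W - 1) ^ 2 else 0

/-- (MAG) the masses of the classes modulo `W`, on average -/
def MAG : Prop := ∀ ν : ℝ, 0 < ν → ν ≤ 1 / 20 → ∃ C : ℝ, 0 < C ∧ ∀ (B : ℕ) (κ : ℝ), 1 ≤ B →
  0 < κ → κ ≤ 1 → ∃ X0 : ℕ, ∀ X : ℕ, X0 ≤ X → ∀ R W : ℕ, 1 ≤ R → R ≤ X → W ∣ R →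
  (W : ℝ) ≤ (X : ℝ) ^ (2 / 3 - ν) → NoH X B W κ → ∀ y₀ σ : ℝ, (σ = 1 ∨ σ = -1) →
  (∀ j ∈ JW X (Dl B X), (X : ℝ) / 20 ≤ y₀ + σ * (j * Dl B X / 2) ∧
    y₀ + σ * (j * Dl B X / 2) ≤ 9 / 10 * X) →
    ∑ j ∈ JW X (Dl B X), ∑ c ∈ range W,
      Dv X (Dl B X) R W (y₀ + σ * (j * Dl B X / 2)) (c : ZMod W) ≤
        C * κ * Nat.totient W * (X / Dl B X)

/-- (EXG) as `ExcF`, no condition on `W` -/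
def ExG : Prop := ∀ ν : ℝ, 0 < ν → ν ≤ 1 / 20 → ∃ C : ℝ, 0 < C ∧ ∀ (B : ℕ) (κ : ℝ), 1 ≤ B →
  0 < κ → κ ≤ 1 → ∃ X0 : ℕ, ∀ X : ℕ, X0 ≤ X → ∀ R W Q : ℕ, 1 ≤ R → R ≤ X → W ∣ Q → Q ∣ R →
  (Q : ℝ) ≤ (X : ℝ) ^ (2 / 3 - ν) →
  ∃ E : Finset (DirichletCharacter ℂ Q), 1 ∈ E ∧ (E.card : ℝ) ≤ 1 + C / κ ∧ Ineq W E ∧
    ∀ y₀ σ : ℝ, (σ = 1 ∨ σ = -1) →
      ∑ j ∈ JW X (Dl B X), ∑ c ∈ range W,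
        DD X (Dl B X) R W Q E (y₀ + σ * (j * Dl B X / 2)) (c : ZMod W) ≤
          C * κ * Nat.totient W * (X / Dl B X)

/-- (COREG) two failures, `W ≤ X^(ν/100)` without heavy characters -/
def CoreG : Prop := ∀ ν : ℝ, 0 < ν → ν ≤ 1 / 20 → ∃ c0 : ℝ, 0 < c0 ∧ ∀ (B : ℕ) (ρ : ℝ), 1 ≤ B →
  0 < ρ → ρ ≤ 1 → ∃ κ : ℝ, 0 < κ ∧ κ ≤ 1 ∧ ∃ X0 : ℕ, ∀ X : ℕ, X0 ≤ X → ∀ n n' Q1 Q2 W : ℕ,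
  1 ≤ Q1 → 1 ≤ Q2 → Nat.gcd Q1 Q2 = W → (W : ℝ) ≤ (X : ℝ) ^ (ν / 100) → NoH X B W κ →
  Q1 ∣ n * W → Q2 ∣ n' * W → (Nat.lcm Q1 Q2 : ℝ) ≤ (X : ℝ) ^ (2 / 3 - ν) →
  6 / 10 * (X : ℝ) ≤ n → (n : ℝ) ≤ 9 / 10 * X → |(n' : ℝ) - n| ≤ (X : ℝ) ^ (ν / 100) →
  ρ * Nat.totient W ≤ ((PathSet W n n').card : ℝ) →
  LC X (Dl B X) n Q1 ≤ c0 * ρ ^ 2 * LM X (Dl B X) n Q1 →
  LC X (Dl B X) n' Q2 ≤ c0 * ρ ^ 2 * LM X (Dl B X) n' Q2 → False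

/-- (STG) the moduli, with `W ∣ 2 Λ n` -/
def StrG : Prop := ∀ (Y : Finset PC) (H n n' : ℕ), (∀ ψ ∈ Y, 1 ≤ ψ.1) → 2 ≤ H → 1 ≤ n → 1 ≤ n' →
  n ≠ n' → ∃ W Q1 Q2 : ℕ, 1 ≤ Q1 ∧ 1 ≤ Q2 ∧ Nat.gcd Q1 Q2 = W ∧ 2 ∣ W ∧
    (W : ℝ) ≤ 2 * (Lm H : ℝ) ^ 2 * |(n' : ℝ) - n| ∧ Q1 ∣ n * W ∧ Q2 ∣ n' * W ∧
    W ∣ 2 * Lm H * n ∧ W ∣ 2 * Lm H * n' ∧
    Nat.lcm Q1 Q2 ≤ 2 * Lm H * Nat.lcm (qY Y H n) (qY Y H n') ∧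
    (∀ ψ ∈ Y, ψ.1 / Nat.gcd ψ.1 n ≤ H → ψ.1 ∣ Q1) ∧
    (∀ ψ ∈ Y, ψ.1 / Nat.gcd ψ.1 n' ≤ H → ψ.1 ∣ Q2) ∧
    (∀ p : ℕ, p.Prime → p ∣ W → p ≤ H ∨ (p ∣ n ∧ p ∣ n'))

open Classical in
/-- (CNG) few `n` have large moduli, windows `X^(ν/200)` -/
def CntG : Prop := ∀ ν : ℝ, 0 < ν → ν ≤ 1 / 20 → ∀ H N : ℕ, ∃ X0 : ℕ, ∀ X : ℕ, X0 ≤ X →
  ∀ Y : Finset PC, Y.card ≤ N → (∀ ψ ∈ Y, 1 ≤ ψ.1) →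
    (((Icc 1 X).filter (fun n : ℕ => ∃ n' : ℕ, n' ≤ 2 * X ∧ |(n' : ℝ) - n| ≤ (X : ℝ) ^ (ν / 200) ∧
      (X : ℝ) ^ (2 / 3 - ν) < 2 * (Lm H : ℝ) * (Nat.lcm (qY Y H n) (qY Y H n') : ℝ))).card : ℝ) ≤
      (X : ℝ) ^ (1 / 3 + 2 * ν)

open Classical in
/-- one scale: two failures in a window of length `X^c`, outside a small set, have a heavy character
of modulus at most `X^(2c)` in common -/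
def OneG : Prop := ∀ ν : ℝ, 0 < ν → ν ≤ 1 / 20 → ∃ δ κ : ℝ, ∃ B M : ℕ, 0 < δ ∧ 0 < κ ∧ 1 ≤ B ∧
  1 ≤ M ∧ ∀ c : ℝ, 0 < c → c ≤ ν / 200 → ∃ X0 : ℕ, ∀ X : ℕ, X0 ≤ X →
    (((Icc 1 X).filter (fun n : ℕ => 65 / 100 * (X : ℝ) ≤ n ∧ (n : ℝ) ≤ 85 / 100 * X ∧
      ∃ m m' : ℕ, n ≤ m ∧ m < m' ∧ (m' : ℝ) ≤ n + (X : ℝ) ^ c ∧ Bd δ m ∧ Bd δ m' ∧
        m * m' % 3 ≠ 2 ∧ ¬ ∃ ψ : PC, IsPC ψ ∧ 2 ≤ ψ.1 ∧ (ψ.1 : ℝ) ≤ (X : ℝ) ^ (2 * c) ∧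
          κ ≤ sN X (4 * (Real.log X) ^ B) ψ ∧ ψ.1 ∣ M * m ∧ ψ.1 ∣ M * m')).card : ℝ) ≤
      (X : ℝ) ^ (1 / 3 + 3 * ν)

open Classical in
/-- the theorem: windows of length `X^c`, one number `d` -/
def FinG : Prop := ∀ ε : ℝ, 0 < ε → ∃ δ c : ℝ, 0 < δ ∧ 0 < c ∧ ∀ K : ℕ, ∃ X0 : ℕ, ∀ X : ℕ,
  X0 ≤ X → ∃ d : ℕ, (Real.log X) ^ K < d ∧
    (((Icc 1 X).filter (fun n : ℕ => ∃ m m' : ℕ, n ≤ m ∧ m < m' ∧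
      (m' : ℝ) ≤ n + (X : ℝ) ^ c ∧ Bd δ m ∧ Bd δ m' ∧ m * m' % 3 ≠ 2 ∧
      ¬ (d ∣ m ∧ d ∣ m'))).card : ℝ) ≤ (X : ℝ) ^ (1 / 3 + ε)

end Pool.MP_dd84fd_nt.TC
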