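import Pool.Agent.Lib.MP_dd84fd_nt.TC.FW
import Pool.Agent.Lib.MP_dd84fd_nt.TC.FP

/-!
# TC-Exc: few inequivalent characters carry almost everything

Let `C₁` be the constant of `L2N`, `C₂` that of `fp`, `C = 4 C₁ + 1`, `T = 4 (log X)^B`
(`1/Dl B X = T/X`), `s = sw X Δ W = Δ/(φ(W) L)`.
`S` = the characters `χ` modulo `Q` with `(prc χ).1 = 1` or `κ ≤ sN X T (prc χ)`; `1 ∈ S`; `E` from
`rep_ex`.  Number: the only `χ` modulo `Q` with `(prc χ).1 = 1` (conductor 1) is `1`; the other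
`χ ∈ E` have `prc χ` primitive, modulus `≥ 2`, dividing `Q`, `sN ≥ κ`, and `χ ↦ prc χ` is injective
(`χ` is determined by the primitive character: `χ = changeLevel _ χ.primitiveCharacter`); `L2N` for the
image: `≤ C₁/κ`.
A `χ` not equivalent to a character of `E` is not in `S` (each element of `S` is equivalent to one of
`E`), so `2 ≤ (prc χ).1` and `sN X T (prc χ) ≤ κ`.  By `fw` and `fp`,
`Σ_j Σ_c DD ≤ (1/(φ(W) s²)) Σ_χ (4 Δ ∫ |SX(prc χ)|² + C₂)`,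
`∫_{|x| ≤ T/X} |SX ψ|² = (X/L²) sN(ψ)²`, `Σ_χ sN(prc χ)² ≤ C₁ κ` (`L2N`, `prc` injective), number of `χ`
at most `Q` (`φ(Q)` characters).  So the sum is `≤ (φ(W) L²/Δ²)(4 Δ (X/L²) C₁ κ + C₂ Q) =
4 C₁ κ φ(W) X/Δ + C₂ φ(W) Q L²/Δ²`, and `C₂ Q L² ≤ κ Δ X` for large `X` (`Q ≤ X^(2/3)`,
`Δ = X/(4 L^B)`).
-/

set_option autoImplicit false

namespace Pool.MP_dd84fd_nt.TC

open Finset Pool.MP_67663b_nt.Odd Pool.MP_dd84fd_nt.En Pool.MP_dd84fd_nt.E2 Pool.MP_dd84fd_nt.LS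
open Pool.MP_dd84fd_nt.GX Pool.MP_dd84fd_nt.HX Pool.MP_dd84fd_nt.IX
open Pool.MP_dd84fd_nt.BX (PC pv IsPC PR SX sN prc ind)

private theorem exc_ind_prc {q : ℕ} (χ : DirichletCharacter ℂ q) :
    Pool.MP_dd84fd_nt.BX.ind q (prc χ) = χ := by
  have h : (prc χ).1 ∣ q := χ.conductor_dvd_level
  unfold Pool.MP_dd84fd_nt.BX.ind
  rw [dif_pos h]
  exact DirichletCharacter.changeLevel_primitiveCharacter χ

private theorem exc_prc_inj {q : ℕ} : Function.Injective (prc (q := q)) := by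
  intro χ χ' h
  rw [← exc_ind_prc χ, ← exc_ind_prc χ', h]

private theorem exc_isPC {q : ℕ} [NeZero q] (χ : DirichletCharacter ℂ q) : IsPC (prc χ) :=
  ⟨Nat.one_le_iff_ne_zero.2 (DirichletCharacter.conductor_ne_zero χ),
    DirichletCharacter.primitiveCharacter_isPrimitive χ⟩

private theorem exc_int (X : ℕ) (hX : 3 ≤ X) (T : ℝ) (hT : 0 ≤ T) (ψ : PC) :
    ∫ x in (-(T / X))..(T / X), ‖SX X ψ x‖ ^ 2 =
      X / (Real.log X) ^ 2 * sN X T ψ ^ 2 := by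
  have hX0 : (0 : ℝ) < X := by exact_mod_cast (by omega : 0 < X)
  have hL : 0 < Real.log X := Real.log_pos (by exact_mod_cast (by omega : 1 < X))
  have hI : 0 ≤ ∫ x in (-(T / X))..(T / X), ‖SX X ψ x‖ ^ 2 := by
    refine intervalIntegral.integral_nonneg ?_ fun x _ => sq_nonneg _
    have : 0 ≤ T / X := by positivity
    linarith
  unfold sN
  rw [mul_pow, div_pow, Real.sq_sqrt hI, Real.sq_sqrt hX0.le]
  field_simp

private theorem exc_large (C2 κ : ℝ) (hC2 : 0 < C2) (hκ : 0 < κ) (B : ℕ) :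
    ∃ X0 : ℕ, ∀ X : ℕ, X0 ≤ X → 4 * C2 * (Real.log X) ^ (B + 2) ≤ κ * X := by
  have h1 := (Real.isLittleO_pow_log_id_atTop (n := B + 2)).comp_tendsto
    (tendsto_natCast_atTop_atTop (R := ℝ))
  have h2 := h1.bound (show (0 : ℝ) < κ / (4 * C2) by positivity)
  obtain ⟨X0, hX0⟩ := Filter.eventually_atTop.1 h2
  refine ⟨X0, fun X hX => ?_⟩
  have h3 := hX0 X hX
  simp only [Function.comp_apply, id, Real.norm_eq_abs, Nat.abs_cast] at h3
  have h4 := (le_abs_self _).trans h3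
  rw [div_mul_eq_mul_div, le_div_iff₀ (by positivity)] at h4
  linarith

theorem excF (h : L2N) : ExcF := by
  classical
  intro ν hν0 hν1
  obtain ⟨C1, hC1, hL2⟩ := h ν hν0 hν1
  obtain ⟨C2, hC2, hfp⟩ := fp
  refine ⟨4 * C1 + 1, by positivity, fun B K κ hB hκ0 hκ1 => ?_⟩
  obtain ⟨X1, hX1⟩ := hL2 B κ hκ0 hκ1
  obtain ⟨X2, hX2⟩ := exc_large C2 κ hC2 hκ0 B
  refine ⟨max (max X1 X2) 3, fun X hX R W Q hR hRX hWQ hQR hQX hWX => ?_⟩
  have hXa : X1 ≤ X := le_trans (le_trans (le_max_left _ _) (le_max_left _ _)) hX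
  have hXb : X2 ≤ X := le_trans (le_trans (le_max_right _ _) (le_max_left _ _)) hX
  have hX3 : 3 ≤ X := le_trans (le_max_right _ _) hX
  have hQ1 : 1 ≤ Q := Nat.pos_of_dvd_of_pos hQR hR
  have hW1 : 1 ≤ W := Nat.pos_of_dvd_of_pos hWQ hQ1
  have : NeZero Q := ⟨by omega⟩
  have hX0 : (0 : ℝ) < X := by exact_mod_cast (by omega : 0 < X)
  have hL : 0 < Real.log X := Real.log_pos (by exact_mod_cast (by omega : 1 < X))
  have hbig := hX2 X hXb
  obtain ⟨L, hLdef⟩ : ∃ L, L = Real.log (X : ℝ) := ⟨_, rfl⟩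
  have hT0 : 0 ≤ 4 * (Real.log X) ^ B := by positivity
  have hΔ : 0 < Dl B X := by
    unfold Dl
    positivity
  have hΔT : 1 / Dl B X = 4 * (Real.log X) ^ B / X := by
    unfold Dl
    rw [one_div_div]
  -- the family `E`
  obtain ⟨S, hS⟩ : ∃ S : Finset (DirichletCharacter ℂ Q), S =
    (univ : Finset (DirichletCharacter ℂ Q)).filter
      (fun χ => (prc χ).1 = 1 ∨ κ ≤ sN X (4 * (Real.log X) ^ B) (prc χ)) := ⟨_, rfl⟩
  have h1S : (1 : DirichletCharacter ℂ Q) ∈ S := by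
    rw [hS, Finset.mem_filter]
    exact ⟨Finset.mem_univ _, Or.inl DirichletCharacter.conductor_one⟩
  obtain ⟨E, hES, h1E, hIneq, hrep⟩ := rep_ex hWQ S h1S
  have hcond : ∀ χ : DirichletCharacter ℂ Q, (prc χ).1 ≠ 1 →
      IsPC (prc χ) ∧ 2 ≤ (prc χ).1 ∧ (prc χ).1 ∣ Q := by
    intro χ hχ
    have h1 := exc_isPC χ
    refine ⟨h1, ?_, χ.conductor_dvd_level⟩
    have h2 := h1.1
    omega
  have hEcard : (E.card : ℝ) ≤ 1 + C1 / κ := by
    have hmem : ∀ χ ∈ E.erase 1, (prc χ).1 ≠ 1 ∧ κ ≤ sN X (4 * (Real.log X) ^ B) (prc χ) := by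
      intro χ hχ
      rw [Finset.mem_erase] at hχ
      have h1 : (prc χ).1 ≠ 1 := fun h2 =>
        hχ.1 (DirichletCharacter.eq_one_iff_conductor_eq_one.2 h2)
      have h2 := hES hχ.2
      rw [hS, Finset.mem_filter] at h2
      exact ⟨h1, h2.2.resolve_left h1⟩
    have h1 := (hX1 X hXa Q hQ1 hQX ((E.erase 1).image prc) (by
      intro ψ hψ
      obtain ⟨χ, hχ, rfl⟩ := Finset.mem_image.1 hψ
      exact hcond χ (hmem χ hχ).1)).1 (by
      intro ψ hψ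
      obtain ⟨χ, hχ, rfl⟩ := Finset.mem_image.1 hψ
      exact (hmem χ hχ).2)
    rw [Finset.card_image_of_injective _ exc_prc_inj] at h1
    have h2 : (E.card : ℝ) = ((E.erase 1).card : ℝ) + 1 := by
      exact_mod_cast (Finset.card_erase_add_one h1E).symm
    rw [h2]
    linarith
  refine ⟨E, h1E, hEcard.trans ?_, hIneq, fun y₀ σ hσ => ?_⟩
  · have : C1 / κ ≤ (4 * C1 + 1) / κ := by
      apply div_le_div_of_nonneg_right _ hκ0.le
      linarith
    linarith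
  -- the sum over the characters not equivalent to one in `E`
  obtain ⟨FF, hFF⟩ : ∃ FF : Finset (DirichletCharacter ℂ Q), FF =
    (univ : Finset (DirichletCharacter ℂ Q)).filter (fun χ => ∀ χ' ∈ E, ¬ Eqv W χ' χ) :=
    ⟨_, rfl⟩
  have hFS : ∀ χ ∈ FF, (prc χ).1 ≠ 1 ∧ sN X (4 * (Real.log X) ^ B) (prc χ) ≤ κ := by
    intro χ hχ
    rw [hFF, Finset.mem_filter] at hχ
    have h1 : χ ∉ S := fun h2 => by
      obtain ⟨χ', hχ', he⟩ := hrep χ h2
      exact hχ.2 χ' hχ' he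
    rw [hS, Finset.mem_filter] at h1
    push Not at h1
    have h2 := h1 (Finset.mem_univ _)
    exact ⟨h2.1, h2.2.le⟩
  have hsum : ∑ χ ∈ FF, sN X (4 * (Real.log X) ^ B) (prc χ) ^ 2 ≤ C1 * κ := by
    have h1 := (hX1 X hXa Q hQ1 hQX (FF.image prc) (by
      intro ψ hψ
      obtain ⟨χ, hχ, rfl⟩ := Finset.mem_image.1 hψ
      exact hcond χ (hFS χ hχ).1)).2 (by
      intro ψ hψ
      obtain ⟨χ, hχ, rfl⟩ := Finset.mem_image.1 hψ
      exact (hFS χ hχ).2)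
    rwa [Finset.sum_image (fun a _ b _ hab => exc_prc_inj hab)] at h1
  have hFcard : (FF.card : ℝ) ≤ X := by
    have h1 : FF.card ≤ Fintype.card (DirichletCharacter ℂ Q) := Finset.card_le_univ FF
    have h2 : Fintype.card (DirichletCharacter ℂ Q) = Nat.totient Q := by
      rw [← Nat.card_eq_fintype_card]
      exact DirichletCharacter.card_eq_totient_of_hasEnoughRootsOfUnity ℂ Q
    have h3 : FF.card ≤ X := by
      calc FF.card ≤ Nat.totient Q := h2 ▸ h1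
        _ ≤ Q := Nat.totient_le Q
        _ ≤ R := Nat.le_of_dvd hR hQR
        _ ≤ X := hRX
    exact_mod_cast h3
  have hφ : (0 : ℝ) < Nat.totient W := by exact_mod_cast Nat.totient_pos.2 hW1
  have hsw : 1 / ((Nat.totient W : ℝ) * (sw X (Dl B X) W) ^ 2) =
      Nat.totient W * (Real.log X) ^ 2 / (Dl B X) ^ 2 := by
    unfold sw
    field_simp
  have hchi : ∀ χ ∈ FF, ∑ j ∈ JW X (Dl B X), ‖∑ p ∈ UP X R,
      ((kf (((p : ℝ) - (y₀ + σ * (j * Dl B X / 2))) / Dl B X) : ℝ) : ℂ) *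
        χ (p : ZMod Q)‖ ^ 2 ≤
      4 * Dl B X * (X / (Real.log X) ^ 2 * sN X (4 * (Real.log X) ^ B) (prc χ) ^ 2) + C2 := by
    intro χ _
    have h1 := hfp X hX3 R Q hR hRX hQR χ (Dl B X) hΔ y₀ σ hσ (JW X (Dl B X))
    rw [hΔT, exc_int X hX3 _ hT0] at h1
    exact h1
  have hfw : ∀ j ∈ JW X (Dl B X), ∑ c ∈ range W,
      DD X (Dl B X) R W Q E (y₀ + σ * (j * Dl B X / 2)) (c : ZMod W) ≤
      1 / ((Nat.totient W : ℝ) * (sw X (Dl B X) W) ^ 2) * ∑ χ ∈ FF, ‖∑ p ∈ UP X R,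
      ((kf (((p : ℝ) - (y₀ + σ * (j * Dl B X / 2))) / Dl B X) : ℝ) : ℂ) *
        χ (p : ZMod Q)‖ ^ 2 := by
    intro j _
    have h1 := fw X hX3 (Dl B X) hΔ hWQ hQR E (y₀ + σ * (j * Dl B X / 2))
    rw [hFF]
    exact h1
  have hkey : C2 * (X * (Real.log X) ^ 2) ≤ κ * X * Dl B X := by
    have h1 : κ * X * Dl B X = X * (κ * X) / (4 * (Real.log X) ^ B) := by
      unfold Dl
      ring
    rw [h1, le_div_iff₀ (by positivity)]
    have h2 : C2 * (X * (Real.log X) ^ 2) * (4 * (Real.log X) ^ B) =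
        X * (4 * C2 * (Real.log X) ^ (B + 2)) := by
      rw [pow_add]
      ring
    rw [h2]
    exact mul_le_mul_of_nonneg_left hbig hX0.le
  calc ∑ j ∈ JW X (Dl B X), ∑ c ∈ range W,
        DD X (Dl B X) R W Q E (y₀ + σ * (j * Dl B X / 2)) (c : ZMod W)
      ≤ ∑ j ∈ JW X (Dl B X), 1 / ((Nat.totient W : ℝ) * (sw X (Dl B X) W) ^ 2) *
        ∑ χ ∈ FF, ‖∑ p ∈ UP X R,
        ((kf (((p : ℝ) - (y₀ + σ * (j * Dl B X / 2))) / Dl B X) : ℝ) : ℂ) *
          χ (p : ZMod Q)‖ ^ 2 := Finset.sum_le_sum hfw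
    _ = Nat.totient W * (Real.log X) ^ 2 / (Dl B X) ^ 2 *
        ∑ χ ∈ FF, ∑ j ∈ JW X (Dl B X), ‖∑ p ∈ UP X R,
        ((kf (((p : ℝ) - (y₀ + σ * (j * Dl B X / 2))) / Dl B X) : ℝ) : ℂ) *
          χ (p : ZMod Q)‖ ^ 2 := by
        rw [← Finset.mul_sum, Finset.sum_comm, hsw]
    _ ≤ Nat.totient W * (Real.log X) ^ 2 / (Dl B X) ^ 2 *
        ∑ χ ∈ FF, (4 * Dl B X * (X / (Real.log X) ^ 2 *
          sN X (4 * (Real.log X) ^ B) (prc χ) ^ 2) + C2) :=
        mul_le_mul_of_nonneg_left (Finset.sum_le_sum hchi) (by positivity)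
    _ = Nat.totient W * (Real.log X) ^ 2 / (Dl B X) ^ 2 *
        (4 * Dl B X * (X / (Real.log X) ^ 2) *
          (∑ χ ∈ FF, sN X (4 * (Real.log X) ^ B) (prc χ) ^ 2) + C2 * FF.card) := by
        rw [Finset.sum_add_distrib, Finset.sum_const, nsmul_eq_mul, Finset.mul_sum]
        congr 2
        · exact Finset.sum_congr rfl fun χ _ => by ring
        · ring
    _ ≤ Nat.totient W * (Real.log X) ^ 2 / (Dl B X) ^ 2 *
        (4 * Dl B X * (X / (Real.log X) ^ 2) * (C1 * κ) + C2 * X) := by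
        apply mul_le_mul_of_nonneg_left _ (by positivity)
        apply add_le_add
        · exact mul_le_mul_of_nonneg_left hsum (by positivity)
        · exact mul_le_mul_of_nonneg_left hFcard hC2.le
    _ = Nat.totient W / (Dl B X) ^ 2 * (4 * Dl B X * X * (C1 * κ) +
        C2 * (X * (Real.log X) ^ 2)) := by
        field_simp
    _ ≤ Nat.totient W / (Dl B X) ^ 2 * (4 * Dl B X * X * (C1 * κ) + κ * X * Dl B X) := by
        apply mul_le_mul_of_nonneg_left _ (by positivity)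
        linarith
    _ = (4 * C1 + 1) * κ * Nat.totient W * (X / Dl B X) := by
        field_simp

end Pool.MP_dd84fd_nt.TC
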