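import Pool.Agent.Lib.MP_dd84fd_nt.TC.Eqr
import Pool.Agent.Lib.MP_dd84fd_nt.L2G.CharOrth

/-!
# TC-FW: the sum of `DD` over the classes modulo `W`

`F(χ) = Σ_{p ∈ UP X R} kf((p-y)/Δ) χ(p)`, `χ` modulo `Q`, `W ∣ Q ∣ R`.  For a unit `c`:
`nu(c, χ) = (1/s) (1/φ(W)) Σ_ω conj ω(c) F(χ ω)` (`ω` modulo `W`; orthogonality), for a non-unit `c` it
is `0`; so by Parseval modulo `W`
`Σ_c |nu(c,χ)|² = (1/s²) (1/φ(W)) Σ_ω |F(χ ω)|²`.  (Equivalently: expand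
`Σ_ω |F(χω)|² = Σ_{p,p'} … Σ_ω ω(p) conj ω(p') = φ(W) Σ_c |Σ_{p ≡ c}|²`.)
Sum over the `χ` not equivalent to a character of `E` (a set `S` closed under `χ ↦ χ ω`): for each `ω`
the map `χ ↦ χ ω` is a bijection of `S`, so `Σ_{χ ∈ S} Σ_ω |F(χω)|² = φ(W) Σ_{χ ∈ S} |F(χ)|²`, and
`Σ_c DD(c) = (1/φ(W)) Σ_{χ ∈ S} Σ_c |nu|² = (1/(φ(W) s²)) Σ_{χ ∈ S} |F(χ)|²`.
The classes are represented by `c ∈ range W`.
-/

set_option autoImplicit false

namespace Pool.MP_dd84fd_nt.TC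

open Finset Pool.MP_67663b_nt.Odd Pool.MP_dd84fd_nt.En Pool.MP_dd84fd_nt.E2 Pool.MP_dd84fd_nt.LS
open Pool.MP_dd84fd_nt.GX Pool.MP_dd84fd_nt.HX Pool.MP_dd84fd_nt.IX
open Pool.MP_dd84fd_nt.BX (PC pv IsPC PR SX sN prc ind)

private theorem FW_coprime {X R Q : ℕ} (hQR : Q ∣ R) {p : ℕ} (hp : p ∈ UP X R) : Nat.Coprime p Q := by
  classical
  unfold UP at hp
  rw [Finset.mem_filter] at hp
  exact Nat.Coprime.coprime_dvd_right hQR hp.2.2.2

private theorem FW_level {W Q : ℕ} [NeZero Q] (hW : W ∣ Q) (ω : DirichletCharacter ℂ W) {p : ℕ}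
    (hp : Nat.Coprime p Q) :
    DirichletCharacter.changeLevel hW ω (p : ZMod Q) = ω (p : ZMod W) := by
  have h1 : ((ZMod.unitOfCoprime p hp : (ZMod Q)ˣ) : ZMod Q) = (p : ZMod Q) :=
    ZMod.coe_unitOfCoprime p hp
  rw [← h1, DirichletCharacter.changeLevel_eq_cast_of_dvd, h1, ZMod.cast_natCast hW]

private theorem FW_range {W : ℕ} [NeZero W] (f : ZMod W → ℝ) :
    ∑ c ∈ range W, f (c : ZMod W) = ∑ b : ZMod W, f b := by
  refine Finset.sum_nbij' (fun c : ℕ => (c : ZMod W)) (fun b : ZMod W => b.val) ?_ ?_ ?_ ?_ ?_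
  · intro c _
    exact Finset.mem_univ _
  · intro b _
    rw [Finset.mem_range]
    exact ZMod.val_lt b
  · intro c hc
    rw [Finset.mem_range] at hc
    exact ZMod.val_cast_of_lt hc
  · intro b _
    exact ZMod.natCast_zmod_val b
  · intro c _
    rfl

open Classical in
theorem fw (X : ℕ) (hX : 3 ≤ X) (Δ : ℝ) (hΔ : 0 < Δ) {R W Q : ℕ} [NeZero Q] (hW : W ∣ Q)
    (hQR : Q ∣ R) (E : Finset (DirichletCharacter ℂ Q)) (y : ℝ) :
    ∑ c ∈ range W, DD X Δ R W Q E y (c : ZMod W) ≤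
      1 / ((Nat.totient W : ℝ) * (sw X Δ W) ^ 2) *
        ∑ χ ∈ (univ : Finset (DirichletCharacter ℂ Q)).filter (fun χ => ∀ χ' ∈ E, ¬ Eqv W χ' χ),
          ‖∑ p ∈ UP X R, ((kf (((p : ℝ) - y) / Δ) : ℝ) : ℂ) * χ (p : ZMod Q)‖ ^ 2 := by
  have hQ0 : Q ≠ 0 := NeZero.ne Q
  have hW0 : W ≠ 0 := fun h0 => hQ0 (Nat.eq_zero_of_zero_dvd (h0 ▸ hW))
  have : NeZero W := ⟨hW0⟩
  have hφ : (0 : ℝ) < (Nat.totient W : ℝ) := by
    exact_mod_cast Nat.totient_pos.mpr (Nat.pos_of_ne_zero hW0)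
  have hs : 0 < sw X Δ W := by
    unfold sw
    have hlog : 0 < Real.log X := Real.log_pos (by
      have : (3 : ℝ) ≤ X := by exact_mod_cast hX
      linarith)
    positivity
  set S := (univ : Finset (DirichletCharacter ℂ Q)).filter (fun χ => ∀ χ' ∈ E, ¬ Eqv W χ' χ) with hS
  set F : DirichletCharacter ℂ Q → ℂ := fun χ =>
    ∑ p ∈ UP X R, ((kf (((p : ℝ) - y) / Δ) : ℝ) : ℂ) * χ (p : ZMod Q) with hF
  -- the sums over a class
  set G : DirichletCharacter ℂ Q → ZMod W → ℂ := fun χ b =>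
    ∑ p ∈ (UP X R).filter (fun p : ℕ => (p : ZMod W) = b),
      ((kf (((p : ℝ) - y) / Δ) : ℝ) : ℂ) * χ (p : ZMod Q) with hG
  have hnu : ∀ (χ : DirichletCharacter ℂ Q) (c : ZMod W),
      ‖nu X Δ R W y c χ‖ ^ 2 = 1 / (sw X Δ W) ^ 2 * ‖G χ c‖ ^ 2 := by
    intro χ c
    have h1 : nu X Δ R W y c χ = (1 / (sw X Δ W : ℂ)) * G χ c := by
      unfold nu
      congr 1
      show _ = ∑ p ∈ (UP X R).filter (fun p : ℕ => (p : ZMod W) = c),
        ((kf (((p : ℝ) - y) / Δ) : ℝ) : ℂ) * χ (p : ZMod Q)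
      rw [Finset.sum_filter]
      refine Finset.sum_congr rfl fun p _ => ?_
      unfold wv
      split_ifs with h
      · rfl
      · rw [Complex.ofReal_zero, zero_mul]
    rw [h1, norm_mul, mul_pow, norm_div, norm_one, Complex.norm_real, Real.norm_of_nonneg hs.le]
    rw [div_pow, one_pow]
  have hDD : ∀ c : ZMod W, DD X Δ R W Q E y c =
      (1 / (Nat.totient W : ℝ)) * ∑ χ ∈ S, 1 / (sw X Δ W) ^ 2 * ‖G χ c‖ ^ 2 := by
    intro c
    unfold DD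
    rw [dif_neg hQ0]
    congr 1
    exact Finset.sum_congr rfl fun χ _ => hnu χ c
  -- Parseval modulo `W`
  have hpar : ∀ χ : DirichletCharacter ℂ Q,
      (Nat.totient W : ℝ) * ∑ b : ZMod W, ‖G χ b‖ ^ 2 =
        ∑ ω : DirichletCharacter ℂ W, ‖F (χ * DirichletCharacter.changeLevel hW ω)‖ ^ 2 := by
    intro χ
    have h1 := L2G.char_parseval W (UP X R)
      (fun p => ((kf (((p : ℝ) - y) / Δ) : ℝ) : ℂ) * χ (p : ZMod Q))
    have h2 : ∀ ω : DirichletCharacter ℂ W, F (χ * DirichletCharacter.changeLevel hW ω) =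
        ∑ n ∈ UP X R, ((kf (((n : ℝ) - y) / Δ) : ℝ) : ℂ) * χ (n : ZMod Q) * ω (n : ZMod W) := by
      intro ω
      rw [hF]
      refine Finset.sum_congr rfl fun p hp => ?_
      rw [MulChar.mul_apply, FW_level hW ω (FW_coprime hQR hp)]
      ring
    have h0 : ∑ ω : DirichletCharacter ℂ W, ‖F (χ * DirichletCharacter.changeLevel hW ω)‖ ^ 2 =
        ∑ ω : DirichletCharacter ℂ W, ‖∑ n ∈ UP X R,
          ((kf (((n : ℝ) - y) / Δ) : ℝ) : ℂ) * χ (n : ZMod Q) * ω (n : ZMod W)‖ ^ 2 :=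
      Finset.sum_congr rfl fun ω _ => by rw [h2 ω]
    rw [h0, h1]
    congr 1
    rw [← Finset.sum_filter_add_sum_filter_not univ (fun b : ZMod W => IsUnit b)]
    rw [hG]
    have h3 : ∑ b ∈ univ.filter (fun b : ZMod W => ¬ IsUnit b),
        ‖∑ p ∈ (UP X R).filter (fun p : ℕ => (p : ZMod W) = b),
          ((kf (((p : ℝ) - y) / Δ) : ℝ) : ℂ) * χ (p : ZMod Q)‖ ^ 2 = 0 := by
      refine Finset.sum_eq_zero fun b hb => ?_
      rw [Finset.mem_filter] at hb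
      have h4 : (UP X R).filter (fun p : ℕ => (p : ZMod W) = b) = ∅ := by
        rw [Finset.filter_eq_empty_iff]
        intro p hp h5
        apply hb.2
        rw [← h5]
        exact (ZMod.isUnit_iff_coprime p W).mpr
          (Nat.Coprime.coprime_dvd_right hW (FW_coprime hQR hp))
      rw [h4, Finset.sum_empty, norm_zero]
      ring
    rw [h3, add_zero]
  -- the shift by a character modulo `W`
  have hshift : ∀ ω : DirichletCharacter ℂ W,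
      ∑ χ ∈ S, ‖F (χ * DirichletCharacter.changeLevel hW ω)‖ ^ 2 = ∑ χ ∈ S, ‖F χ‖ ^ 2 := by
    intro ω
    refine Finset.sum_equiv (Equiv.mulRight (DirichletCharacter.changeLevel hW ω)) ?_ ?_
    · intro χ
      rw [hS, Finset.mem_filter, Finset.mem_filter, Equiv.coe_mulRight]
      have h1 : Eqv W χ (χ * DirichletCharacter.changeLevel hW ω) := ⟨hW, ω, rfl⟩
      constructor
      · rintro ⟨-, h⟩
        exact ⟨Finset.mem_univ _, fun χ' hχ' h2 => h χ' hχ' (eqv_trans h2 (eqv_symm h1))⟩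
      · rintro ⟨-, h⟩
        exact ⟨Finset.mem_univ _, fun χ' hχ' h2 => h χ' hχ' (eqv_trans h2 h1)⟩
    · intro χ _
      rw [Equiv.coe_mulRight]
  have hcard : ((Finset.univ : Finset (DirichletCharacter ℂ W)).card : ℝ) = (Nat.totient W : ℝ) := by
    have h1 := DirichletCharacter.card_eq_totient_of_hasEnoughRootsOfUnity ℂ W
    rw [Nat.card_eq_fintype_card] at h1
    rw [Finset.card_univ, h1]
  have hmain : (Nat.totient W : ℝ) * ∑ χ ∈ S, ∑ b : ZMod W, ‖G χ b‖ ^ 2 =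
      (Nat.totient W : ℝ) * ∑ χ ∈ S, ‖F χ‖ ^ 2 := by
    rw [Finset.mul_sum, Finset.sum_congr rfl fun χ _ => hpar χ, Finset.sum_comm,
      Finset.sum_congr rfl fun ω _ => hshift ω, Finset.sum_const, nsmul_eq_mul, hcard]
  have hmain' : ∑ χ ∈ S, ∑ b : ZMod W, ‖G χ b‖ ^ 2 = ∑ χ ∈ S, ‖F χ‖ ^ 2 :=
    mul_left_cancel₀ hφ.ne' hmain
  refine le_of_eq ?_
  rw [FW_range (DD X Δ R W Q E y), Finset.sum_congr rfl fun c _ => hDD c]
  rw [← Finset.mul_sum, Finset.sum_comm]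
  have h9 : ∑ χ ∈ S, ∑ b : ZMod W, 1 / (sw X Δ W) ^ 2 * ‖G χ b‖ ^ 2 =
      1 / (sw X Δ W) ^ 2 * ∑ χ ∈ S, ‖F χ‖ ^ 2 := by
    rw [← hmain', Finset.mul_sum]
    exact Finset.sum_congr rfl fun χ _ => (Finset.mul_sum _ _ _).symm
  rw [h9, one_div, one_div, one_div, mul_inv]
  ring

end Pool.MP_dd84fd_nt.TC
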