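import Pool.Agent.Lib.MP_dd84fd_nt.TC.One

/-!
# G6-Fin: the theorem from one scale (helper39)

Scales `Y = ⌊(6/5)^i⌋`: for `n ≥ 10` and `(6/5)^i ≤ 100 n / 65 < (6/5)^(i+1)` one has
`65/100 Y ≤ n ≤ 85/100 Y`.  The numbers `n ≤ X^(1/3)` are counted trivially; there are at most
`12 log X + 1` scales, and `(log X)^K ≤ (log Y)^(K+1)`.
-/

set_option autoImplicit false

namespace Pool.MP_dd84fd_nt.TC

open Finset Pool.MP_67663b_nt.Odd Pool.MP_dd84fd_nt.En Pool.MP_dd84fd_nt.E2 Pool.MP_dd84fd_nt.LS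
open Pool.MP_dd84fd_nt.GX Pool.MP_dd84fd_nt.HX Pool.MP_dd84fd_nt.IX

/-- the scale of `n` -/
private theorem scale_of (n : ℕ) (hn : 10 ≤ n) : ∃ i : ℕ, ((6 / 5 : ℝ)) ^ i ≤ 100 / 65 * n ∧
    65 / 100 * ((⌊(6 / 5 : ℝ) ^ i⌋₊ : ℕ) : ℝ) ≤ n ∧
    (n : ℝ) ≤ 85 / 100 * ((⌊(6 / 5 : ℝ) ^ i⌋₊ : ℕ) : ℝ) := by
  have hnr : (10 : ℝ) ≤ n := by exact_mod_cast hn
  obtain ⟨i, hi1, hi2⟩ := exists_nat_pow_near (x := 100 / 65 * (n : ℝ)) (y := (6 / 5 : ℝ))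
    (by linarith) (by norm_num)
  refine ⟨i, hi1, ?_, ?_⟩
  · have := Nat.floor_le (a := (6 / 5 : ℝ) ^ i) (by positivity)
    linarith
  · have h1 := Nat.lt_floor_add_one ((6 / 5 : ℝ) ^ i)
    rw [pow_succ] at hi2
    linarith

/-- the number of scales -/
private theorem scale_le (i : ℕ) (X : ℝ) (hX : 2 ≤ X) (h : (6 / 5 : ℝ) ^ i ≤ 2 * X) :
    (i : ℝ) ≤ 12 * Real.log X := by
  have h1 : (i : ℝ) * Real.log (6 / 5) ≤ Real.log (2 * X) := by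
    rw [← Real.log_pow]
    exact Real.log_le_log (by positivity) h
  have h2 : (1 : ℝ) / 6 ≤ Real.log (6 / 5) := by
    have := Real.one_sub_inv_le_log_of_pos (x := (6 / 5 : ℝ)) (by norm_num)
    norm_num at this ⊢
    linarith
  have h3 : Real.log (2 * X) ≤ 2 * Real.log X := by
    rw [Real.log_mul (by norm_num) (by linarith)]
    have := Real.log_le_log (by norm_num) hX
    linarith
  have h4 : (i : ℝ) * (1 / 6) ≤ i * Real.log (6 / 5) :=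
    mul_le_mul_of_nonneg_left h2 (Nat.cast_nonneg i)
  linarith

/-- the theorem -/
theorem finT (h : OneF) : FinT := by
  intro ε hε
  obtain ⟨ν, hν0, hν1, hν2⟩ : ∃ ν : ℝ, 0 < ν ∧ ν ≤ 1 / 20 ∧ 3 * ν ≤ ε / 2 :=
    ⟨min (1 / 20) (ε / 6), lt_min (by norm_num) (by positivity), min_le_left _ _, by
      have := min_le_right (1 / 20 : ℝ) (ε / 6); linarith⟩
  obtain ⟨δ, hδ, h⟩ := h ν hν0 hν1
  refine ⟨δ, hδ, fun K => ?_⟩
  obtain ⟨X1, h⟩ := h (K + 1)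
  obtain ⟨Xa, ha⟩ := g6_pow_log_le 1 60 (ε / 2) (by positivity)
  obtain ⟨Xb, hb⟩ := g6_log_ge (max 3 ((3 : ℝ) ^ (K + 1)))
  refine ⟨max (max Xa Xb) (max ((X1 + 10) ^ 3) 2), fun X hX => ?_⟩
  have hXa : Xa ≤ X := le_trans (le_trans (le_max_left _ _) (le_max_left _ _)) hX
  have hXb : Xb ≤ X := le_trans (le_trans (le_max_right _ _) (le_max_left _ _)) hX
  have hX3 : (X1 + 10) ^ 3 ≤ X := le_trans (le_trans (le_max_left _ _) (le_max_right _ _)) hX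
  have hX2 : 2 ≤ X := le_trans (le_trans (le_max_right _ _) (le_max_right _ _)) hX
  have hXr : (2 : ℝ) ≤ X := by exact_mod_cast hX2
  have ha := ha X hXa
  have hb := hb X hXb
  rw [pow_one] at ha
  have hL3 : 3 ≤ Real.log X := le_trans (le_max_left _ _) hb
  have hLK : (3 : ℝ) ^ (K + 1) ≤ Real.log X := le_trans (le_max_right _ _) hb
  have hcube : ((X1 : ℝ) + 10) ≤ (X : ℝ) ^ (1 / 3 : ℝ) := by
    have h1 : (((X1 : ℝ) + 10) ^ 3) ≤ X := by exact_mod_cast hX3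
    have h2 : (((X1 : ℝ) + 10) ^ 3) ^ (1 / 3 : ℝ) ≤ (X : ℝ) ^ (1 / 3 : ℝ) :=
      Real.rpow_le_rpow (by positivity) h1 (by norm_num)
    rwa [← Real.rpow_natCast, ← Real.rpow_mul (by positivity),
      show (((3 : ℕ) : ℝ) * (1 / 3)) = 1 by norm_num, Real.rpow_one] at h2
  classical
  set M := ⌊12 * Real.log X⌋₊ + 1 with hM
  set R := ⌊(X : ℝ) ^ (1 / 3 : ℝ)⌋₊ with hR
  have hRr : (R : ℝ) ≤ (X : ℝ) ^ (1 / 3 : ℝ) := Nat.floor_le (by positivity)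
  let Yi : ℕ → ℕ := fun i => ⌊(6 / 5 : ℝ) ^ i⌋₊
  let Si : ℕ → Finset ℕ := fun i => (Icc 1 (Yi i)).filter (fun n : ℕ =>
    65 / 100 * ((Yi i : ℕ) : ℝ) ≤ n ∧ (n : ℝ) ≤ 85 / 100 * (Yi i : ℕ) ∧
      ∃ m m' : ℕ, n ≤ m ∧ m < m' ∧ (m' : ℝ) ≤ n + (Real.log (Yi i)) ^ (K + 1) ∧ Bd δ m ∧ Bd δ m' ∧
        m * m' % 3 ≠ 2)
  set I := (range M).filter (fun i => X1 ≤ Yi i ∧ Yi i ≤ 2 * X) with hI
  have hsub : ((Icc 1 X).filter (fun n : ℕ => ∃ m m' : ℕ, n ≤ m ∧ m < m' ∧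
      (m' : ℝ) ≤ n + (Real.log X) ^ K ∧ Bd δ m ∧ Bd δ m' ∧ m * m' % 3 ≠ 2)) ⊆
      Icc 1 R ∪ I.biUnion Si := by
    intro n hn
    rw [mem_filter, mem_Icc] at hn
    obtain ⟨⟨hn1, hnX⟩, m, m', hm, hmm, hm', g1, g2, h3⟩ := hn
    by_cases hnR : n ≤ R
    · exact mem_union_left _ (mem_Icc.2 ⟨hn1, hnR⟩)
    apply mem_union_right
    have hnR' : (X : ℝ) ^ (1 / 3 : ℝ) ≤ n := by
      have h1 : ⌊(X : ℝ) ^ (1 / 3 : ℝ)⌋₊ < n := by omega
      exact ((Nat.floor_lt (by positivity)).1 h1).le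
    have hn10r : (X1 : ℝ) + 10 ≤ n := hcube.trans hnR'
    have hn10 : X1 + 10 ≤ n := by exact_mod_cast hn10r
    have hnXr : (n : ℝ) ≤ X := by exact_mod_cast hnX
    obtain ⟨i, hi0, hi1, hi2⟩ := scale_of n (by omega)
    have hpow : (6 / 5 : ℝ) ^ i ≤ 2 * X := by linarith
    have hYn : n ≤ Yi i := by
      have : (n : ℝ) ≤ (Yi i : ℕ) := by
        have hYnn : (0 : ℝ) ≤ ((Yi i : ℕ) : ℝ) := Nat.cast_nonneg _
        change (n : ℝ) ≤ ((⌊(6 / 5 : ℝ) ^ i⌋₊ : ℕ) : ℝ)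
        change (0 : ℝ) ≤ ((⌊(6 / 5 : ℝ) ^ i⌋₊ : ℕ) : ℝ) at hYnn
        linarith
      exact_mod_cast this
    have hY2 : Yi i ≤ 2 * X := by
      have : ((Yi i : ℕ) : ℝ) ≤ ((2 * X : ℕ) : ℝ) := by
        push_cast
        exact (Nat.floor_le (by positivity)).trans hpow
      exact_mod_cast this
    rw [mem_biUnion]
    refine ⟨i, ?_, ?_⟩
    · rw [hI, mem_filter, mem_range]
      refine ⟨?_, by omega, hY2⟩
      rw [hM]
      exact Nat.lt_succ_of_le (Nat.le_floor (scale_le i X hXr hpow))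
    · rw [mem_filter, mem_Icc]
      refine ⟨⟨hn1, hYn⟩, hi1, hi2, m, m', hm, hmm, ?_, g1, g2, h3⟩
      refine hm'.trans ?_
      have hYr : (X : ℝ) ^ (1 / 3 : ℝ) ≤ ((Yi i : ℕ) : ℝ) :=
        hnR'.trans (by exact_mod_cast hYn)
      have hlY : 1 / 3 * Real.log X ≤ Real.log ((Yi i : ℕ) : ℝ) := by
        rw [← Real.log_rpow (by linarith)]
        exact Real.log_le_log (by positivity) hYr
      have h5 : (Real.log X) ^ K ≤ (1 / 3 * Real.log X) ^ (K + 1) := by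
        rw [mul_pow, pow_succ (Real.log X) K]
        have h6 : (1 : ℝ) ≤ (1 / 3) ^ (K + 1) * Real.log X := by
          have h7 : (1 / 3 : ℝ) ^ (K + 1) * (3 : ℝ) ^ (K + 1) = 1 := by
            rw [← mul_pow]; norm_num
          calc (1 : ℝ) = (1 / 3 : ℝ) ^ (K + 1) * (3 : ℝ) ^ (K + 1) := h7.symm
            _ ≤ (1 / 3) ^ (K + 1) * Real.log X := mul_le_mul_of_nonneg_left hLK (by positivity)
        calc (Real.log X) ^ K = 1 * (Real.log X) ^ K := (one_mul _).symm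
          _ ≤ ((1 / 3) ^ (K + 1) * Real.log X) * (Real.log X) ^ K :=
              mul_le_mul_of_nonneg_right h6 (by positivity)
          _ = (1 / 3) ^ (K + 1) * (Real.log X ^ K * Real.log X) := by ring
      have h8 : (1 / 3 * Real.log X) ^ (K + 1) ≤ (Real.log ((Yi i : ℕ) : ℝ)) ^ (K + 1) :=
        pow_le_pow_left₀ (by positivity) hlY _
      linarith
  have hSi : ∀ i ∈ I, ((Si i).card : ℝ) ≤ 2 * (X : ℝ) ^ (1 / 3 + 3 * ν) := by
    intro i hi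
    rw [hI, mem_filter] at hi
    have h1 := h (Yi i) hi.2.1
    have h2 : ((Yi i : ℕ) : ℝ) ≤ 2 * X := by exact_mod_cast hi.2.2
    refine le_trans h1 ?_
    calc ((Yi i : ℕ) : ℝ) ^ (1 / 3 + 3 * ν) ≤ (2 * (X : ℝ)) ^ (1 / 3 + 3 * ν) :=
          Real.rpow_le_rpow (Nat.cast_nonneg _) h2 (by linarith)
      _ = 2 ^ (1 / 3 + 3 * ν) * (X : ℝ) ^ (1 / 3 + 3 * ν) :=
          Real.mul_rpow (by norm_num) (by linarith)
      _ ≤ 2 * (X : ℝ) ^ (1 / 3 + 3 * ν) := by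
          refine mul_le_mul_of_nonneg_right ?_ (by positivity)
          calc (2 : ℝ) ^ (1 / 3 + 3 * ν) ≤ 2 ^ (1 : ℝ) :=
                Real.rpow_le_rpow_of_exponent_le (by norm_num) (by linarith)
            _ = 2 := Real.rpow_one 2
  have hMr : (M : ℝ) ≤ 12 * Real.log X + 1 := by
    rw [hM]; push_cast
    have := Nat.floor_le (a := 12 * Real.log X) (by linarith)
    linarith
  have hc1 : ((I.biUnion Si).card : ℝ) ≤ (12 * Real.log X + 1) * (2 * (X : ℝ) ^ (1 / 3 + 3 * ν)) := by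
    calc ((I.biUnion Si).card : ℝ) ≤ ((∑ i ∈ I, (Si i).card : ℕ) : ℝ) := by
          exact_mod_cast card_biUnion_le
      _ = ∑ i ∈ I, ((Si i).card : ℝ) := by push_cast; rfl
      _ ≤ ∑ i ∈ I, 2 * (X : ℝ) ^ (1 / 3 + 3 * ν) := sum_le_sum hSi
      _ = (I.card : ℝ) * (2 * (X : ℝ) ^ (1 / 3 + 3 * ν)) := by rw [sum_const, nsmul_eq_mul]
      _ ≤ (12 * Real.log X + 1) * (2 * (X : ℝ) ^ (1 / 3 + 3 * ν)) := by
          refine mul_le_mul_of_nonneg_right ?_ (by positivity)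
          have : I.card ≤ M := by
            rw [hI]
            exact (card_filter_le _ _).trans (le_of_eq (card_range M))
          exact le_trans (by exact_mod_cast this) hMr
  have hc0 : (((Icc 1 X).filter (fun n : ℕ => ∃ m m' : ℕ, n ≤ m ∧ m < m' ∧
      (m' : ℝ) ≤ n + (Real.log X) ^ K ∧ Bd δ m ∧ Bd δ m' ∧ m * m' % 3 ≠ 2)).card : ℝ) ≤
      (R : ℝ) + (I.biUnion Si).card := by
    have h1 := (card_le_card hsub).trans (card_union_le _ _)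
    rw [Nat.card_Icc, Nat.add_sub_cancel] at h1
    exact_mod_cast h1
  have hX1r : (1 : ℝ) ≤ X := by linarith
  have hm1 : (X : ℝ) ^ (1 / 3 : ℝ) ≤ (X : ℝ) ^ (1 / 3 + ε / 2) :=
    Real.rpow_le_rpow_of_exponent_le hX1r (by linarith)
  have hm2 : (X : ℝ) ^ (1 / 3 + 3 * ν) ≤ (X : ℝ) ^ (1 / 3 + ε / 2) :=
    Real.rpow_le_rpow_of_exponent_le hX1r (by linarith)
  have hpos : (0 : ℝ) ≤ (X : ℝ) ^ (1 / 3 + ε / 2) := by positivity
  refine hc0.trans ?_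
  calc (R : ℝ) + (I.biUnion Si).card
      ≤ (X : ℝ) ^ (1 / 3 + ε / 2) + (12 * Real.log X + 1) * (2 * (X : ℝ) ^ (1 / 3 + ε / 2)) := by
        have h9 : (12 * Real.log X + 1) * (2 * (X : ℝ) ^ (1 / 3 + 3 * ν)) ≤
            (12 * Real.log X + 1) * (2 * (X : ℝ) ^ (1 / 3 + ε / 2)) :=
          mul_le_mul_of_nonneg_left (by linarith) (by linarith)
        linarith
    _ = (X : ℝ) ^ (1 / 3 + ε / 2) * (24 * Real.log X + 3) := by ring
    _ ≤ (X : ℝ) ^ (1 / 3 + ε / 2) * (X : ℝ) ^ (ε / 2) := by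
        refine mul_le_mul_of_nonneg_left ?_ hpos
        linarith
    _ = (X : ℝ) ^ (1 / 3 + ε) := by
        rw [← Real.rpow_add (by linarith)]
        congr 1
        ring

end Pool.MP_dd84fd_nt.TC
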