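import Pool.Agent.Lib.MP_dd84fd_nt.TC.VDefs
import Pool.Agent.Lib.MP_dd84fd_nt.TC.FinH
import Pool.Agent.Lib.MP_dd84fd_nt.En.Sing

/-!
# G6-FinV: theorems U and V together, with one number `d` (helper18)

As FinH: scales `Y = ⌊(11/10)^i⌋`; the heavy characters of all pairs (of both clauses) are heavy on
`[(2X)^(1/7), 2X]`, so there is only one, and its modulus is larger than every power of `log X`.
-/

set_option autoImplicit false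

namespace Pool.MP_dd84fd_nt.TC

open Finset Pool.MP_67663b_nt.Odd Pool.MP_dd84fd_nt.En Pool.MP_dd84fd_nt.E2 Pool.MP_dd84fd_nt.LS
open Pool.MP_dd84fd_nt.GX Pool.MP_dd84fd_nt.HX Pool.MP_dd84fd_nt.IX
open Pool.MP_dd84fd_nt.BX (PC pv IsPC PR SX sN prc ind)
open Pool.MP_dd84fd_nt.QZ (Hvy)

theorem fv_SJ (n : ℕ) : 0 ≤ SS n * JJ n := by
  have s1 : 2 * Pool.MP_dd84fd_nt.En.C2 ≤ SS n := SS_ge n
  have s2 : 0 < Pool.MP_dd84fd_nt.En.C2 := C2_pos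
  have s3 : 0 ≤ JJ n := by
    unfold JJ
    refine Finset.sum_nonneg fun m _ => ?_
    exact div_nonneg zero_le_one
      (mul_nonneg (Real.log_natCast_nonneg _) (Real.log_natCast_nonneg _))
  exact mul_nonneg (by linarith) s3

theorem fv_mono {δ δ' : ℝ} (h : δ ≤ δ') {m : ℕ} (hb : Bd δ m) : Bd δ' m :=
  ⟨hb.1, hb.2.trans (mul_le_mul_of_nonneg_right h (fv_SJ m))⟩

/-- a heavy character at the scale `Y` is heavy on `[(2X)^(1/7), 2X]` -/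
theorem fv_hvy {lam : ℝ} {B' X Y : ℕ} {ψ : PC} (hX : 6 ≤ Real.log X)
    (h1 : (X : ℝ) ^ (1 / 3 : ℝ) ≤ Y) (h2 : Y ≤ 2 * X) (h3 : 1 ≤ Y)
    (hh : Hvy lam (1 / 2) B' Y ψ) : Hvy lam (1 / 7) B' (2 * X) ψ := by
  obtain ⟨x, H, hH, hx, hxX, hHx, hxH, hS⟩ := hh
  have hXp : (0 : ℝ) < X := by
    by_contra hcon
    have h0 : (X : ℝ) = 0 := le_antisymm (not_lt.1 hcon) (Nat.cast_nonneg _)
    rw [h0, Real.log_zero] at hX
    linarith
  have hYp : (0 : ℝ) < Y := by exact_mod_cast h3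
  have hY2 : (Y : ℝ) ≤ ((2 * X : ℕ) : ℝ) := by exact_mod_cast h2
  refine ⟨x, H, hH, ?_, hxX.trans hY2, hHx, ?_, hS⟩
  · refine le_trans ?_ hx
    have h4 : ((X : ℝ) ^ (1 / 3 : ℝ)) ^ (1 / 2 : ℝ) ≤ (Y : ℝ) ^ (1 / 2 : ℝ) :=
      Real.rpow_le_rpow (by positivity) h1 (by norm_num)
    refine le_trans ?_ h4
    rw [← Real.rpow_mul hXp.le, Real.rpow_def_of_pos (by push_cast; positivity),
      Real.rpow_def_of_pos hXp]
    refine Real.exp_le_exp.2 ?_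
    push_cast
    rw [Real.log_mul (by norm_num) hXp.ne']
    have h5 : Real.log 2 ≤ 1 := by
      have := Real.log_two_lt_d9
      linarith
    linarith
  · refine hxH.trans (mul_le_mul_of_nonneg_left ?_ hH.le)
    exact pow_le_pow_left₀ (Real.log_nonneg (by exact_mod_cast h3))
      (Real.log_le_log hYp hY2) _

/-- the scale of `m` -/
theorem fv_scale (m : ℕ) (hm : 10 ≤ m) : ∃ i : ℕ, ((11 / 10 : ℝ)) ^ i ≤ 10 / 6 * m ∧
    6 / 10 * ((⌊(11 / 10 : ℝ) ^ i⌋₊ : ℕ) : ℝ) ≤ m ∧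
    (m : ℝ) ≤ 66 / 100 * (((⌊(11 / 10 : ℝ) ^ i⌋₊ : ℕ) : ℝ) + 1) := by
  have hmr : (10 : ℝ) ≤ m := by exact_mod_cast hm
  obtain ⟨i, hi1, hi2⟩ := exists_nat_pow_near (x := 10 / 6 * (m : ℝ)) (y := (11 / 10 : ℝ))
    (by linarith) (by norm_num)
  refine ⟨i, hi1, ?_, ?_⟩
  · have := Nat.floor_le (a := (11 / 10 : ℝ) ^ i) (by positivity)
    linarith
  · have h1 := Nat.lt_floor_add_one ((11 / 10 : ℝ) ^ i)
    rw [pow_succ] at hi2
    linarith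

/-- the number of scales -/
theorem fv_scale_le (i : ℕ) (X : ℝ) (hX : 2 ≤ X) (h : (11 / 10 : ℝ) ^ i ≤ 2 * X) :
    (i : ℝ) ≤ 22 * Real.log X := by
  have h1 : (i : ℝ) * Real.log (11 / 10) ≤ Real.log (2 * X) := by
    rw [← Real.log_pow]
    exact Real.log_le_log (by positivity) h
  have h2 : (1 : ℝ) / 11 ≤ Real.log (11 / 10) := by
    have := Real.one_sub_inv_le_log_of_pos (x := (11 / 10 : ℝ)) (by norm_num)
    norm_num at this ⊢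
    linarith
  have h3 : Real.log (2 * X) ≤ 2 * Real.log X := by
    rw [Real.log_mul (by norm_num) (by linarith)]
    have := Real.log_le_log (by norm_num) hX
    linarith
  have h4 : (i : ℝ) * (1 / 11) ≤ i * Real.log (11 / 10) :=
    mul_le_mul_of_nonneg_left h2 (Nat.cast_nonneg i)
  linarith

/-- `q / (q, M)` divides `g` if `q ∣ M g` -/
theorem fv_dvd {q M g : ℕ} (hq : 1 ≤ q) (h : q ∣ M * g) : q / Nat.gcd q M ∣ g := by
  have hG : 0 < Nat.gcd q M := Nat.gcd_pos_of_pos_left _ hq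
  have h1 : Nat.Coprime (q / Nat.gcd q M) (M / Nat.gcd q M) := Nat.coprime_div_gcd_div_gcd hG
  refine h1.dvd_of_dvd_mul_left ?_
  have h2 : q / Nat.gcd q M * Nat.gcd q M ∣ M / Nat.gcd q M * g * Nat.gcd q M := by
    rw [Nat.div_mul_cancel (Nat.gcd_dvd_left q M), mul_right_comm,
      Nat.div_mul_cancel (Nat.gcd_dvd_right q M)]
    exact h
  exact Nat.dvd_of_mul_dvd_mul_right hG h2

/-- the scales `Y = ⌊(11/10)^i⌋` between `X^(1/3)` and `2X` -/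
theorem fv_scales (X N0 : ℕ) (hX2 : 2 ≤ X) (hX3 : (N0 + 11) ^ 3 ≤ X) (GG : ℕ → Finset ℕ)
    (b : ℝ) (hb0 : 0 ≤ b) (hb : ∀ Y : ℕ, N0 ≤ Y → Y ≤ 2 * X → ((GG Y).card : ℝ) ≤ b) :
    ∃ G : Finset ℕ, (G.card : ℝ) ≤ (X : ℝ) ^ (1 / 3 : ℝ) + 1 + (22 * Real.log X + 1) * b ∧
      ∀ m : ℕ, m ≤ X → m ∉ G → ∃ Y : ℕ, N0 + 11 ≤ Y ∧ Y ≤ 2 * X ∧ (X : ℝ) ^ (1 / 3 : ℝ) ≤ Y ∧
        m ≤ Y ∧ 11 ≤ m ∧ 6 / 10 * (Y : ℝ) ≤ m ∧ (m : ℝ) ≤ 66 / 100 * ((Y : ℝ) + 1) ∧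
        ∀ m' : ℕ, m' ∉ G → m' ∉ GG Y := by
  classical
  have hXr : (2 : ℝ) ≤ X := by exact_mod_cast hX2
  have hXp : (0 : ℝ) < X := by linarith
  have hlog0 : 0 ≤ Real.log X := Real.log_nonneg (by linarith)
  have hcube : ((N0 : ℝ) + 11) ≤ (X : ℝ) ^ (1 / 3 : ℝ) := by
    have h1 : (((N0 : ℝ) + 11) ^ 3) ≤ X := by exact_mod_cast hX3
    have h2 : (((N0 : ℝ) + 11) ^ 3) ^ (1 / 3 : ℝ) ≤ (X : ℝ) ^ (1 / 3 : ℝ) :=
      Real.rpow_le_rpow (by positivity) h1 (by norm_num)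
    rwa [← Real.rpow_natCast, ← Real.rpow_mul (by positivity),
      show (((3 : ℕ) : ℝ) * (1 / 3)) = 1 by norm_num, Real.rpow_one] at h2
  obtain ⟨N, hN⟩ : ∃ N : ℕ, N = ⌊22 * Real.log X⌋₊ + 1 := ⟨_, rfl⟩
  obtain ⟨R, hR⟩ : ∃ R : ℕ, R = ⌊(X : ℝ) ^ (1 / 3 : ℝ)⌋₊ := ⟨_, rfl⟩
  have hRr : (R : ℝ) ≤ (X : ℝ) ^ (1 / 3 : ℝ) := by
    rw [hR]
    exact Nat.floor_le (by positivity)
  obtain ⟨Yi, hYi⟩ : ∃ Yi : ℕ → ℕ, Yi = fun i => ⌊(11 / 10 : ℝ) ^ i⌋₊ := ⟨_, rfl⟩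
  obtain ⟨I, hI⟩ : ∃ I : Finset ℕ, I = (range N).filter (fun i => N0 ≤ Yi i ∧ Yi i ≤ 2 * X) :=
    ⟨_, rfl⟩
  refine ⟨Icc 0 R ∪ I.biUnion (fun i => GG (Yi i)), ?_, ?_⟩
  · have hcard : ∀ i ∈ I, ((GG (Yi i)).card : ℝ) ≤ b := by
      intro i hi
      rw [hI, mem_filter] at hi
      exact hb _ hi.2.1 hi.2.2
    have hNr : (N : ℝ) ≤ 22 * Real.log X + 1 := by
      rw [hN]; push_cast
      have := Nat.floor_le (a := 22 * Real.log X) (by linarith)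
      linarith
    have hIc : (I.card : ℝ) ≤ 22 * Real.log X + 1 := by
      refine le_trans ?_ hNr
      have : I.card ≤ N := by
        rw [hI]
        exact (card_filter_le _ _).trans (le_of_eq (card_range N))
      exact_mod_cast this
    have hc1 : ((I.biUnion (fun i => GG (Yi i))).card : ℝ) ≤ (22 * Real.log X + 1) * b := by
      calc ((I.biUnion (fun i => GG (Yi i))).card : ℝ)
          ≤ ((∑ i ∈ I, (GG (Yi i)).card : ℕ) : ℝ) := by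
            exact_mod_cast card_biUnion_le
        _ = ∑ i ∈ I, ((GG (Yi i)).card : ℝ) := by push_cast; rfl
        _ ≤ ∑ i ∈ I, b := sum_le_sum hcard
        _ = (I.card : ℝ) * b := by rw [sum_const, nsmul_eq_mul]
        _ ≤ (22 * Real.log X + 1) * b := mul_le_mul_of_nonneg_right hIc hb0
    have hc0 : ((Icc 0 R ∪ I.biUnion (fun i => GG (Yi i))).card : ℝ) ≤
        ((R : ℝ) + 1) + (I.biUnion (fun i => GG (Yi i))).card := by
      have h1 := card_union_le (Icc 0 R) (I.biUnion (fun i => GG (Yi i)))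
      rw [Nat.card_Icc] at h1
      have h2 : (R + 1 - 0 : ℕ) = R + 1 := by omega
      rw [h2] at h1
      exact_mod_cast h1
    linarith
  · intro m hmX hmG
    have hmG' := hmG
    rw [mem_union, not_or, mem_Icc, mem_biUnion] at hmG'
    obtain ⟨hmR, hmI⟩ := hmG'
    have hmR' : R < m := by omega
    have hmX13 : (X : ℝ) ^ (1 / 3 : ℝ) ≤ m := by
      rw [hR] at hmR'
      exact ((Nat.floor_lt (by positivity)).1 hmR').le
    have hm11 : ((N0 : ℝ) + 11) ≤ m := hcube.trans hmX13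
    have hm11' : N0 + 11 ≤ m := by exact_mod_cast hm11
    obtain ⟨i, hi0, hi1, hi2⟩ := fv_scale m (by omega)
    have hYe : (⌊(11 / 10 : ℝ) ^ i⌋₊ : ℕ) = Yi i := by rw [hYi]
    rw [hYe] at hi1 hi2
    have hmXr : (m : ℝ) ≤ X := by exact_mod_cast hmX
    have hpow : (11 / 10 : ℝ) ^ i ≤ 2 * X := by linarith
    have hYm : (m : ℝ) ≤ (Yi i : ℕ) := by
      have hYnn : (0 : ℝ) ≤ ((Yi i : ℕ) : ℝ) := Nat.cast_nonneg _
      have : (11 : ℝ) ≤ m := by exact_mod_cast (by omega : 11 ≤ m)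
      linarith
    have hYmN : m ≤ Yi i := by exact_mod_cast hYm
    have hY2 : Yi i ≤ 2 * X := by
      have : ((Yi i : ℕ) : ℝ) ≤ ((2 * X : ℕ) : ℝ) := by
        rw [← hYe]
        push_cast
        exact (Nat.floor_le (by positivity)).trans hpow
      exact_mod_cast this
    have hiI : i ∈ I := by
      rw [hI, mem_filter, mem_range]
      refine ⟨?_, by omega, hY2⟩
      rw [hN]
      exact Nat.lt_succ_of_le (Nat.le_floor (fv_scale_le i X hXr hpow))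
    refine ⟨Yi i, by omega, hY2, hmX13.trans hYm, hYmN, by omega, hi1, hi2, ?_⟩
    intro m' hm' hcon
    refine hm' ?_
    rw [mem_union, mem_biUnion]
    exact Or.inr ⟨i, hiI, hcon⟩

/-- the number `d` -/
theorem fv_d (κ : ℝ) (hκ : 0 < κ) (B M : ℕ) (hM : 1 ≤ M) : ∃ c0 : ℝ, 0 < c0 ∧ ∃ N1 : ℕ,
    ∀ K : ℕ, ∃ X0 : ℕ, ∀ X : ℕ, X0 ≤ X → ∃ d : ℕ, (Real.log X) ^ K < d ∧
      ∀ (c : ℝ) (Y B1 : ℕ) (ψ : PC) (g : ℕ), 0 < c → c ≤ c0 → N1 ≤ Y →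
        (X : ℝ) ^ (1 / 3 : ℝ) ≤ Y → Y ≤ 2 * X → B1 ≤ B → IsPC ψ → 2 ≤ ψ.1 →
        (ψ.1 : ℝ) ≤ (Y : ℝ) ^ (2 * c) → κ ≤ sN Y (4 * (Real.log Y) ^ B1) ψ → ψ.1 ∣ M * g →
        d ∣ g := by
  obtain ⟨lam, hlam, hw⟩ := QZ.hv_win κ hκ
  obtain ⟨B', Xw, hw⟩ := hw (B + 1)
  obtain ⟨δ', hδ', hz⟩ := QZ.za lam (1 / 7) hlam (by norm_num)
  obtain ⟨Xz, hz⟩ := hz B'
  refine ⟨δ' / 8, by positivity, Xw + 1, fun K => ?_⟩
  obtain ⟨Xs, hs⟩ := hvy_sw lam (1 / 7) hlam (by norm_num) B' (K + 1)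
  obtain ⟨Xb, hb⟩ := g6_log_ge (max 12 M)
  refine ⟨max (max Xb Xz) (max Xs 2), fun X hX => ?_⟩
  simp only [max_le_iff] at hX
  obtain ⟨⟨hXb, hXz⟩, hXs, hX2⟩ := hX
  have hb := hb X hXb
  have hL12 : 12 ≤ Real.log X := (le_max_left _ _).trans hb
  have hLM : (M : ℝ) ≤ Real.log X := (le_max_right _ _).trans hb
  have hXr : (2 : ℝ) ≤ X := by exact_mod_cast hX2
  have hXp : (0 : ℝ) < X := by linarith
  have hX2le : (X : ℝ) ≤ ((2 * X : ℕ) : ℝ) := by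
    push_cast
    linarith
  have hlog2 : Real.log X ≤ Real.log ((2 * X : ℕ) : ℝ) := Real.log_le_log hXp hX2le
  have hz2 := hz (2 * X) (by omega)
  have hs2 := hs (2 * X) (by omega)
  obtain ⟨d, hd1, hd2⟩ : ∃ d : ℕ, (Real.log X) ^ K < d ∧ ∀ (ψ : PC) (g : ℕ), IsPC ψ → 2 ≤ ψ.1 →
      (ψ.1 : ℝ) ≤ ((2 * X : ℕ) : ℝ) ^ δ' → Hvy lam (1 / 7) B' (2 * X) ψ → ψ.1 ∣ M * g → d ∣ g := by
    by_cases hex : ∃ ψ : PC, IsPC ψ ∧ 2 ≤ ψ.1 ∧ (ψ.1 : ℝ) ≤ ((2 * X : ℕ) : ℝ) ^ δ' ∧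
        Hvy lam (1 / 7) B' (2 * X) ψ
    · obtain ⟨ψ₀, a1, a2, a3, a4⟩ := hex
      refine ⟨ψ₀.1 / Nat.gcd ψ₀.1 M, ?_, ?_⟩
      · have h1 := hs2 ψ₀ a1 a2 a4
        have hG : 0 < Nat.gcd ψ₀.1 M := Nat.gcd_pos_of_pos_left _ (by omega)
        have hGM : Nat.gcd ψ₀.1 M ≤ M := Nat.le_of_dvd (by omega) (Nat.gcd_dvd_right _ _)
        have h2 : ψ₀.1 / Nat.gcd ψ₀.1 M * Nat.gcd ψ₀.1 M = ψ₀.1 :=
          Nat.div_mul_cancel (Nat.gcd_dvd_left _ _)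
        have h3 : ψ₀.1 ≤ ψ₀.1 / Nat.gcd ψ₀.1 M * M := by
          calc ψ₀.1 = ψ₀.1 / Nat.gcd ψ₀.1 M * Nat.gcd ψ₀.1 M := h2.symm
            _ ≤ ψ₀.1 / Nat.gcd ψ₀.1 M * M := Nat.mul_le_mul_left _ hGM
        have h4 : (ψ₀.1 : ℝ) ≤ ((ψ₀.1 / Nat.gcd ψ₀.1 M : ℕ) : ℝ) * M := by exact_mod_cast h3
        have hMr : (1 : ℝ) ≤ M := by exact_mod_cast hM
        have h5 : Real.log X ^ K * M ≤ Real.log ((2 * X : ℕ) : ℝ) ^ (K + 1) := by
          calc Real.log X ^ K * M ≤ Real.log X ^ K * Real.log X :=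
                mul_le_mul_of_nonneg_left hLM (by positivity)
            _ = Real.log X ^ (K + 1) := (pow_succ _ _).symm
            _ ≤ Real.log ((2 * X : ℕ) : ℝ) ^ (K + 1) :=
                pow_le_pow_left₀ (by linarith) hlog2 _
        have h6 : Real.log X ^ K * M < ((ψ₀.1 / Nat.gcd ψ₀.1 M : ℕ) : ℝ) * M := by linarith
        exact lt_of_mul_lt_mul_right h6 (by linarith)
      · intro ψ g b1 b2 b3 b4 b5
        have h1 : ψ = ψ₀ := hz2 ψ ψ₀ b1 a1 b2 a2 b3 a3 b4 a4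
        rw [h1] at b5
        exact fv_dvd (by omega) b5
    · refine ⟨⌊Real.log X ^ K⌋₊ + 1, ?_, ?_⟩
      · push_cast
        exact Nat.lt_floor_add_one _
      · intro ψ g b1 b2 b3 b4 b5
        exact absurd ⟨ψ, b1, b2, b3, b4⟩ hex
  refine ⟨d, hd1, fun c Y B1 ψ g hc0 hcc hY1 hXY hY2 hB1 b1 b2 b3 b4 b5 => ?_⟩
  have hY1r : (1 : ℝ) ≤ Y := by exact_mod_cast (by omega : 1 ≤ Y)
  have hYp : (0 : ℝ) < Y := by linarith
  have hlY : 1 / 3 * Real.log X ≤ Real.log (Y : ℝ) := by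
    rw [← Real.log_rpow hXp]
    exact Real.log_le_log (by positivity) hXY
  have hlY4 : 4 ≤ Real.log (Y : ℝ) := by linarith
  have hT1 : 1 ≤ 4 * Real.log (Y : ℝ) ^ B1 := by
    have : (1 : ℝ) ≤ Real.log (Y : ℝ) ^ B1 := one_le_pow₀ (by linarith)
    linarith
  have hT2 : 4 * Real.log (Y : ℝ) ^ B1 ≤ Real.log (Y : ℝ) ^ (B + 1) := by
    have h1 : Real.log (Y : ℝ) ^ B1 ≤ Real.log (Y : ℝ) ^ B :=
      pow_le_pow_right₀ (by linarith) hB1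
    rw [pow_succ, mul_comm]
    exact mul_le_mul h1 hlY4 (by norm_num) (by positivity)
  have hv := fv_hvy (by linarith) hXY hY2 (by omega)
    (hw Y (by omega) _ hT1 hT2 ψ b4)
  refine hd2 ψ _ b1 b2 (b3.trans ?_) hv b5
  have hYX2 : (Y : ℝ) ≤ ((2 * X : ℕ) : ℝ) := by exact_mod_cast hY2
  calc (Y : ℝ) ^ (2 * c) ≤ ((2 * X : ℕ) : ℝ) ^ (2 * c) :=
        Real.rpow_le_rpow hYp.le hYX2 (by positivity)
    _ ≤ ((2 * X : ℕ) : ℝ) ^ δ' :=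
        Real.rpow_le_rpow_of_exponent_le (by linarith) (by linarith)

/-- powers at the scale `Y ≤ 2X` -/
theorem fv_pow {X Y : ℕ} (h2 : Y ≤ 2 * X) (a : ℝ) (ha0 : 0 ≤ a) (ha1 : a ≤ 1) :
    (Y : ℝ) ^ a ≤ 2 * (X : ℝ) ^ a := by
  have h2r : (Y : ℝ) ≤ 2 * X := by exact_mod_cast h2
  calc (Y : ℝ) ^ a ≤ (2 * (X : ℝ)) ^ a := Real.rpow_le_rpow (Nat.cast_nonneg _) h2r ha0
    _ = 2 ^ a * (X : ℝ) ^ a := Real.mul_rpow (by norm_num) (Nat.cast_nonneg _)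
    _ ≤ 2 * (X : ℝ) ^ a := by
        refine mul_le_mul_of_nonneg_right ?_ (by positivity)
        calc (2 : ℝ) ^ a ≤ 2 ^ (1 : ℝ) :=
              Real.rpow_le_rpow_of_exponent_le (by norm_num) ha1
          _ = 2 := Real.rpow_one 2

theorem fv_min {X Y h : ℕ} (h2 : Y ≤ 2 * X) (a : ℝ) (ha0 : 0 ≤ a) (ha1 : a ≤ 1) :
    min (h : ℝ) ((Y : ℝ) ^ a) ≤ 2 * min (h : ℝ) ((X : ℝ) ^ a) := by
  rw [mul_min_of_nonneg _ _ (by norm_num : (0 : ℝ) ≤ 2)]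
  exact min_le_min (by linarith [(Nat.cast_nonneg h : (0 : ℝ) ≤ (h : ℝ))]) (fv_pow h2 a ha0 ha1)

/-- the theorem -/
theorem finV (h1 : OneH) (h2 : OneV) : FinV := by
  intro ε hε
  obtain ⟨ν, hν0, hν1, hν2⟩ : ∃ ν : ℝ, 0 < ν ∧ ν ≤ 1 / 20 ∧ 3 * ν ≤ ε / 2 :=
    ⟨min (1 / 20) (ε / 6), lt_min (by norm_num) (by positivity), min_le_left _ _, by
      have := min_le_right (1 / 20 : ℝ) (ε / 6); linarith⟩
  obtain ⟨δ1, κ1, B1, M1, hδ1, hκ1, -, hM1, h1⟩ := h1 ν hν0 hν1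
  obtain ⟨δ2, κ2, B2, M2, L, hδ2, hκ2, -, hM2, hL, h2⟩ := h2 ν hν0 hν1
  obtain ⟨c0, hc00, N1, hd⟩ := fv_d (min κ1 κ2) (lt_min hκ1 hκ2) (max B1 B2) (M1 * M2)
    (Nat.mul_pos hM1 hM2)
  obtain ⟨c, hc0, hc1, hc2⟩ : ∃ c : ℝ, 0 < c ∧ c ≤ ν / 200 ∧ c ≤ c0 :=
    ⟨min (ν / 200) c0, lt_min (by positivity) hc00, min_le_left _ _, min_le_right _ _⟩
  obtain ⟨X1, h1⟩ := h1 c hc0 hc1
  obtain ⟨X2, h2⟩ := h2 c hc0 hc1
  choose! GG1 hG1 using h1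
  choose! GG2 hG2 using h2
  refine ⟨min δ1 δ2, c / 3, M2 * (80 * L), lt_min hδ1 hδ2, by positivity, by
    have : 1 ≤ M2 * L := Nat.mul_pos hM2 hL
    nlinarith, fun K => ?_⟩
  obtain ⟨Xd, hd⟩ := hd K
  obtain ⟨Xa, ha⟩ := g6_pow_log_le 1 100 (ε / 2) (by positivity)
  obtain ⟨Xb, hb⟩ := g6_log_ge 12
  refine ⟨max (max (max Xa Xb) Xd) (max ((X1 + X2 + N1 + 11) ^ 3) 2), fun X hX => ?_⟩
  simp only [max_le_iff] at hX
  obtain ⟨⟨⟨hXa, hXb⟩, hXd⟩, hX3, hX2⟩ := hX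
  have ha := ha X hXa
  have hL12 := hb X hXb
  rw [pow_one] at ha
  have hXr : (2 : ℝ) ≤ X := by exact_mod_cast hX2
  have hXp : (0 : ℝ) < X := by linarith
  have hX1r : (1 : ℝ) ≤ X := by linarith
  obtain ⟨d, hd1, hd2⟩ := hd X hXd
  refine ⟨d, hd1, fun hh hh1 => ⟨?_, ?_⟩⟩
  · -- U
    obtain ⟨m0, hm0⟩ : ∃ m0 : ℝ, m0 = min (hh : ℝ) ((X : ℝ) ^ (1 / 3 : ℝ)) := ⟨_, rfl⟩
    have hX13 : (1 : ℝ) ≤ (X : ℝ) ^ (1 / 3 : ℝ) := Real.one_le_rpow hX1r (by norm_num)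
    have hh1r : (1 : ℝ) ≤ hh := by exact_mod_cast hh1
    have hm01 : 1 ≤ m0 := by rw [hm0]; exact le_min hh1r hX13
    obtain ⟨G, hGc, hG⟩ := fv_scales X (X1 + X2 + N1) hX2 hX3 (fun Y => GG1 Y hh)
      (4 * (m0 * (X : ℝ) ^ (1 / 3 + 3 * ν))) (by positivity) (by
        intro Y hY1 hY2
        refine (hG1 Y (by omega) hh hh1).1.trans ?_
        calc min (hh : ℝ) ((Y : ℝ) ^ (1 / 3 : ℝ)) * (Y : ℝ) ^ (1 / 3 + 3 * ν)
            ≤ (2 * m0) * (2 * (X : ℝ) ^ (1 / 3 + 3 * ν)) := by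
              refine mul_le_mul ?_ (fv_pow hY2 _ (by linarith) (by linarith)) (by positivity)
                (by linarith)
              rw [hm0]
              exact fv_min hY2 _ (by norm_num) (by norm_num)
          _ = 4 * (m0 * (X : ℝ) ^ (1 / 3 + 3 * ν)) := by ring)
    refine ⟨G, ?_, ?_⟩
    · rw [← hm0]
      have hm1 : (X : ℝ) ^ (1 / 3 : ℝ) ≤ m0 * (X : ℝ) ^ (1 / 3 + 3 * ν) := by
        have h1 : (X : ℝ) ^ (1 / 3 : ℝ) ≤ (X : ℝ) ^ (1 / 3 + 3 * ν) :=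
          Real.rpow_le_rpow_of_exponent_le hX1r (by linarith)
        have h2 : 0 ≤ (X : ℝ) ^ (1 / 3 + 3 * ν) := by positivity
        nlinarith
      have hpos : 0 ≤ m0 * (X : ℝ) ^ (1 / 3 + 3 * ν) := by positivity
      refine hGc.trans ?_
      calc (X : ℝ) ^ (1 / 3 : ℝ) + 1 +
            (22 * Real.log X + 1) * (4 * (m0 * (X : ℝ) ^ (1 / 3 + 3 * ν)))
          ≤ 2 * (m0 * (X : ℝ) ^ (1 / 3 + 3 * ν)) +
            (22 * Real.log X + 1) * (4 * (m0 * (X : ℝ) ^ (1 / 3 + 3 * ν))) := by linarith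
        _ = (m0 * (X : ℝ) ^ (1 / 3 + 3 * ν)) * (88 * Real.log X + 6) := by ring
        _ ≤ (m0 * (X : ℝ) ^ (1 / 3 + 3 * ν)) * (X : ℝ) ^ (ε / 2) :=
            mul_le_mul_of_nonneg_left (by linarith) hpos
        _ = m0 * (X : ℝ) ^ (1 / 3 + 3 * ν + ε / 2) := by
            rw [mul_assoc, ← Real.rpow_add hXp]
        _ ≤ m0 * (X : ℝ) ^ (1 / 3 + ε) :=
            mul_le_mul_of_nonneg_left (Real.rpow_le_rpow_of_exponent_le hX1r (by linarith))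
              (by linarith)
    · intro m m' hmm hm'X hmh h45 hmG hm'G hbd hbd' hmod hgcd
      obtain ⟨Y, hY0, hY2, hXY, hmY, hm11, hi1, hi2, hYG⟩ := hG m (by omega) hmG
      have hm'9 : (m' : ℝ) ≤ 9 / 10 * (Y : ℝ) := by
        have h1 : 4 * (m' : ℝ) ≤ 5 * m := by exact_mod_cast h45
        have h2 : (11 : ℝ) ≤ (Y : ℝ) := by exact_mod_cast (by omega : 11 ≤ Y)
        linarith
      have hgcd' : (Nat.gcd m m' : ℝ) ≤ (Y : ℝ) ^ c := by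
        refine hgcd.trans ?_
        calc (X : ℝ) ^ (c / 3) = ((X : ℝ) ^ (1 / 3 : ℝ)) ^ c := by
              rw [← Real.rpow_mul hXp.le]
              congr 1
              ring
          _ ≤ (Y : ℝ) ^ c := Real.rpow_le_rpow (by positivity) hXY hc0.le
      obtain ⟨ψ, b1, b2, b3, b4, b5⟩ := (hG1 Y (by omega) hh hh1).2 m m' hi1 hmm hmh hm'9
        (hYG m hmG) (hYG m' hm'G) (fv_mono (min_le_left _ _) hbd) (fv_mono (min_le_left _ _) hbd')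
        hmod hgcd'
      refine hd2 c Y B1 ψ _ hc0 hc2 (by omega) hXY hY2 (le_max_left _ _) b1 b2 b3
        ((min_le_left _ _).trans b4) ?_
      rw [mul_assoc, mul_left_comm]
      exact Dvd.dvd.mul_left b5 M2
  · -- V
    obtain ⟨m0, hm0⟩ : ∃ m0 : ℝ, m0 = min (hh : ℝ) ((X : ℝ) ^ (1 / 2 : ℝ)) := ⟨_, rfl⟩
    have hX12 : (1 : ℝ) ≤ (X : ℝ) ^ (1 / 2 : ℝ) := Real.one_le_rpow hX1r (by norm_num)
    have hh1r : (1 : ℝ) ≤ hh := by exact_mod_cast hh1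
    have hm01 : 1 ≤ m0 := by rw [hm0]; exact le_min hh1r hX12
    obtain ⟨G, hGc, hG⟩ := fv_scales X (X1 + X2 + N1) hX2 hX3 (fun Y => GG2 Y hh)
      (4 * ((X : ℝ) ^ (1 / 3 + 3 * ν) + m0 * (X : ℝ) ^ (3 * ν))) (by positivity) (by
        intro Y hY1 hY2
        refine (hG2 Y (by omega) hh hh1).1.trans ?_
        have e1 : (Y : ℝ) ^ (1 / 3 + 3 * ν) ≤ 2 * (X : ℝ) ^ (1 / 3 + 3 * ν) :=
          fv_pow hY2 _ (by linarith) (by linarith)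
        have e2 : min (hh : ℝ) ((Y : ℝ) ^ (1 / 2 : ℝ)) * (Y : ℝ) ^ (3 * ν)
            ≤ (2 * m0) * (2 * (X : ℝ) ^ (3 * ν)) := by
          refine mul_le_mul ?_ (fv_pow hY2 _ (by linarith) (by linarith)) (by positivity)
            (by linarith)
          rw [hm0]
          exact fv_min hY2 _ (by norm_num) (by norm_num)
        have e3 : 0 ≤ (X : ℝ) ^ (1 / 3 + 3 * ν) := by positivity
        linarith)
    refine ⟨G, ?_, ?_⟩
    · rw [← hm0]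
      have hA1 : (1 : ℝ) ≤ (X : ℝ) ^ (1 / 3 + 3 * ν) := Real.one_le_rpow hX1r (by linarith)
      have hm1 : (X : ℝ) ^ (1 / 3 : ℝ) ≤ (X : ℝ) ^ (1 / 3 + 3 * ν) :=
        Real.rpow_le_rpow_of_exponent_le hX1r (by linarith)
      have hpos2 : 0 ≤ m0 * (X : ℝ) ^ (3 * ν) := by positivity
      have hpos : 0 ≤ (X : ℝ) ^ (1 / 3 + 3 * ν) + m0 * (X : ℝ) ^ (3 * ν) := by positivity
      refine hGc.trans ?_
      calc (X : ℝ) ^ (1 / 3 : ℝ) + 1 +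
            (22 * Real.log X + 1) * (4 * ((X : ℝ) ^ (1 / 3 + 3 * ν) + m0 * (X : ℝ) ^ (3 * ν)))
          ≤ 2 * ((X : ℝ) ^ (1 / 3 + 3 * ν) + m0 * (X : ℝ) ^ (3 * ν)) +
            (22 * Real.log X + 1) * (4 * ((X : ℝ) ^ (1 / 3 + 3 * ν) + m0 * (X : ℝ) ^ (3 * ν))) := by
              linarith
        _ = ((X : ℝ) ^ (1 / 3 + 3 * ν) + m0 * (X : ℝ) ^ (3 * ν)) * (88 * Real.log X + 6) := by ring
        _ ≤ ((X : ℝ) ^ (1 / 3 + 3 * ν) + m0 * (X : ℝ) ^ (3 * ν)) * (X : ℝ) ^ (ε / 2) :=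
            mul_le_mul_of_nonneg_left (by linarith) hpos
        _ = (X : ℝ) ^ (1 / 3 + 3 * ν + ε / 2) + m0 * (X : ℝ) ^ (3 * ν + ε / 2) := by
            rw [add_mul, mul_assoc, ← Real.rpow_add hXp, ← Real.rpow_add hXp]
        _ ≤ (X : ℝ) ^ (1 / 3 + ε) + m0 * (X : ℝ) ^ ε :=
            add_le_add (Real.rpow_le_rpow_of_exponent_le hX1r (by linarith))
              (mul_le_mul_of_nonneg_left (Real.rpow_le_rpow_of_exponent_le hX1r (by linarith))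
                (by linarith))
    · intro m m' hmm hm'X hmh h45 hmG hm'G hbd hbd' hmod hgcd
      obtain ⟨Y, hY0, hY2, hXY, hmY, hm11, hi1, hi2, hYG⟩ := hG m (by omega) hmG
      have hLr : (1 : ℝ) ≤ L := by exact_mod_cast hL
      have hM2r : (1 : ℝ) ≤ M2 := by exact_mod_cast hM2
      have hM80 : 80 * (L : ℝ) ≤ ((M2 * (80 * L) : ℕ) : ℝ) := by
        push_cast
        nlinarith
      have hmr : (0 : ℝ) ≤ m := Nat.cast_nonneg _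
      have hsub : 0 ≤ (m' : ℝ) - m := by
        have : (m : ℝ) ≤ m' := by exact_mod_cast hmm.le
        linarith
      -- `M (m' - m) ≤ m`
      have hdiff : 80 * (L : ℝ) * ((m' : ℝ) - m) ≤ m := by
        have h1 : ((M2 * (80 * L) : ℕ) : ℝ) * m' ≤ (((M2 * (80 * L) : ℕ) : ℝ) + 1) * m := by
          exact_mod_cast h45
        have h2 : ((M2 * (80 * L) : ℕ) : ℝ) * ((m' : ℝ) - m) ≤ m := by linarith
        exact (mul_le_mul_of_nonneg_right hM80 hsub).trans h2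
      have hdiff2 : 80 * ((m' : ℝ) - m) ≤ m := by
        refine le_trans ?_ hdiff
        refine mul_le_mul_of_nonneg_right ?_ hsub
        linarith
      have hYr : (m : ℝ) ≤ Y := by exact_mod_cast hmY
      have hm'9 : (m' : ℝ) ≤ 9 / 10 * (Y : ℝ) := by
        have h2 : (11 : ℝ) ≤ (Y : ℝ) := by exact_mod_cast (by omega : 11 ≤ Y)
        linarith
      have hgcd' : (Nat.gcd m m' : ℝ) ≤ (Y : ℝ) ^ c := by
        refine hgcd.trans ?_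
        calc (X : ℝ) ^ (c / 3) = ((X : ℝ) ^ (1 / 3 : ℝ)) ^ c := by
              rw [← Real.rpow_mul hXp.le]
              congr 1
              ring
          _ ≤ (Y : ℝ) ^ c := Real.rpow_le_rpow (by positivity) hXY hc0.le
      obtain ⟨ψ, b1, b2, b3, b4, b5⟩ := (hG2 Y (by omega) hh hh1).2 m m' hi1 hmm hmh hm'9
        (by nlinarith) (hYG m hmG) (hYG m' hm'G) (fv_mono (min_le_right _ _) hbd)
        (fv_mono (min_le_right _ _) hbd') (hmod.of_mul_right _) hgcd'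
      refine hd2 c Y B2 ψ _ hc0 hc2 (by omega) hXY hY2 (le_max_right _ _) b1 b2 b3
        ((min_le_right _ _).trans b4) ?_
      rw [mul_assoc]
      exact Dvd.dvd.mul_left b5 M1

end Pool.MP_dd84fd_nt.TC
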