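import Pool.Agent.Lib.MP_dd84fd_nt.TC.DZDefs
import Pool.Agent.Lib.MP_dd84fd_nt.TC.FinV

/-!
# G6-FinZ: theorems U and V with the nature of `d` (helper18)

As FinV, with `dz` (helper98): there is at most one number `d`, it comes from a Landau-Siegel zero, and
for arbitrarily large `X` there is none.
-/

set_option autoImplicit false

namespace Pool.MP_dd84fd_nt.TC

open Finset Pool.MP_67663b_nt.Odd Pool.MP_dd84fd_nt.En Pool.MP_dd84fd_nt.E2 Pool.MP_dd84fd_nt.LS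
open Pool.MP_dd84fd_nt.GX Pool.MP_dd84fd_nt.HX Pool.MP_dd84fd_nt.IX
open Pool.MP_dd84fd_nt.BX (PC pv IsPC PR SX sN prc ind)
open Pool.MP_dd84fd_nt.QZ (Hvy)

theorem rzd_mono {M M' X d : ℕ} (h : M ≤ M') (hd : RZd M X d) : RZd M' X d := by
  obtain ⟨r, k, χ, h1, h2, h3, h4, h5, β, h6, h7⟩ := hd
  refine ⟨r, k, χ, h1, h2, h3, h4.trans h, h5, β, ?_, h7⟩
  have h8 : (M : ℝ) / Real.log X ≤ M' / Real.log X :=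
    div_le_div_of_nonneg_right (by exact_mod_cast h) (Real.log_natCast_nonneg X)
  linarith

theorem dok_mono {M M' : ℕ} {D : ℕ → Finset ℕ} (h : M ≤ M') (hd : DOk M D) : DOk M' D := by
  obtain ⟨h1, h2, h3⟩ := hd
  refine ⟨h1, h2, fun K => ?_⟩
  obtain ⟨X0, h4⟩ := h3 K
  exact ⟨X0, fun X hX d hd => ⟨(h4 X hX d hd).1, rzd_mono h (h4 X hX d hd).2⟩⟩

/-- the set `D X` and the heavy characters at the scales `Y` -/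
theorem fz_d (hz : DzS) (κ : ℝ) (hκ : 0 < κ) (B M : ℕ) (hM : 1 ≤ M) : ∃ c0 : ℝ, 0 < c0 ∧
    ∃ N1 M' : ℕ, ∃ D : ℕ → Finset ℕ, DOk M' D ∧ ∃ X0 : ℕ, ∀ X : ℕ, X0 ≤ X →
      ∀ (c : ℝ) (Y B1 : ℕ) (ψ : PC) (g : ℕ), 0 < c → c ≤ c0 → N1 ≤ Y →
        (X : ℝ) ^ (1 / 3 : ℝ) ≤ Y → Y ≤ 2 * X → B1 ≤ B → IsPC ψ → 2 ≤ ψ.1 →
        (ψ.1 : ℝ) ≤ (Y : ℝ) ^ (2 * c) → κ ≤ sN Y (4 * (Real.log Y) ^ B1) ψ → ψ.1 ∣ M * g →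
        ∃ d ∈ D X, d ∣ g := by
  obtain ⟨lam, hlam, hw⟩ := QZ.hv_win κ hκ
  obtain ⟨B', Xw, hw⟩ := hw (B + 1)
  obtain ⟨δ', hδ', M', D, hD1, hD2, hD3, Xz, hz⟩ := hz lam hlam B' M hM
  refine ⟨δ' / 8, by positivity, Xw + 1, M', D, ⟨hD1, hD2, hD3⟩, ?_⟩
  obtain ⟨Xb, hb⟩ := g6_log_ge 12
  refine ⟨max (max Xb Xz) 2, fun X hX => ?_⟩
  simp only [max_le_iff] at hX
  obtain ⟨⟨hXb, hXz⟩, hX2⟩ := hX
  have hL12 := hb X hXb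
  have hXr : (2 : ℝ) ≤ X := by exact_mod_cast hX2
  have hXp : (0 : ℝ) < X := by linarith
  have hX2le : (X : ℝ) ≤ ((2 * X : ℕ) : ℝ) := by
    push_cast
    linarith
  intro c Y B1 ψ g hc0 hcc hY1 hXY hY2 hB1 b1 b2 b3 b4 b5
  have hY1r : (1 : ℝ) ≤ Y := by exact_mod_cast (by omega : 1 ≤ Y)
  have hYp : (0 : ℝ) < Y := by linarith
  have hlY : 1 / 3 * Real.log X ≤ Real.log (Y : ℝ) := by
    rw [← Real.log_rpow hXp]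
    exact Real.log_le_log (by positivity) hXY
  have hlY4 : 4 ≤ Real.log (Y : ℝ) := by linarith
  have hT1 : 1 ≤ 4 * Real.log (Y : ℝ) ^ B1 := by
    have : (1 : ℝ) ≤ Real.log (Y : ℝ) ^ B1 := one_le_pow₀ (by linarith)
    linarith
  have hT2 : 4 * Real.log (Y : ℝ) ^ B1 ≤ Real.log (Y : ℝ) ^ (B + 1) := by
    have h1 : Real.log (Y : ℝ) ^ B1 ≤ Real.log (Y : ℝ) ^ B :=
      pow_le_pow_right₀ (by linarith) hB1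
    rw [pow_succ, mul_comm]
    exact mul_le_mul h1 hlY4 (by norm_num) (by positivity)
  have hv := fv_hvy (by linarith) hXY hY2 (by omega)
    (hw Y (by omega) _ hT1 hT2 ψ b4)
  refine hz X hXz ψ _ b1 b2 (b3.trans ?_) hv b5
  have hYX2 : (Y : ℝ) ≤ ((2 * X : ℕ) : ℝ) := by exact_mod_cast hY2
  calc (Y : ℝ) ^ (2 * c) ≤ ((2 * X : ℕ) : ℝ) ^ (2 * c) :=
        Real.rpow_le_rpow hYp.le hYX2 (by positivity)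
    _ ≤ ((2 * X : ℕ) : ℝ) ^ δ' :=
        Real.rpow_le_rpow_of_exponent_le (by linarith) (by linarith)

/-- the clause of U at `X` -/
theorem fz_U {ε ν δ κ c c0 : ℝ} {B M X1 N1 X hh : ℕ} {D : ℕ → Finset ℕ} {GG1 : ℕ → ℕ → Finset ℕ}
    (hν0 : 0 < ν) (hν1 : ν ≤ 1 / 20) (hν2 : 3 * ν ≤ ε / 2) (hc0 : 0 < c)
    (hc2 : c ≤ c0) (ha : 100 * Real.log X ^ 1 ≤ (X : ℝ) ^ (ε / 2)) (hL12 : 12 ≤ Real.log X)
    (hX2 : 2 ≤ X) (hX3 : (X1 + N1 + 11) ^ 3 ≤ X) (hh1 : 1 ≤ hh)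
    (hG1 : ∀ Y : ℕ, X1 ≤ Y → ∀ h : ℕ, 1 ≤ h →
      ((GG1 Y h).card : ℝ) ≤ min (h : ℝ) ((Y : ℝ) ^ (1 / 3 : ℝ)) * (Y : ℝ) ^ (1 / 3 + 3 * ν) ∧
      ∀ m m' : ℕ, 6 / 10 * (Y : ℝ) ≤ m → m < m' → m' ≤ m + h → (m' : ℝ) ≤ 9 / 10 * Y →
        m ∉ GG1 Y h → m' ∉ GG1 Y h → Bd δ m → Bd δ m' → m * m' % 3 ≠ 2 →
        (Nat.gcd m m' : ℝ) ≤ (Y : ℝ) ^ c →
          ∃ ψ : PC, IsPC ψ ∧ 2 ≤ ψ.1 ∧ (ψ.1 : ℝ) ≤ (Y : ℝ) ^ (2 * c) ∧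
            κ ≤ sN Y (4 * (Real.log Y) ^ B) ψ ∧ ψ.1 ∣ M * Nat.gcd m m')
    (hd2 : ∀ (Y : ℕ) (ψ : PC) (g : ℕ), N1 ≤ Y →
        (X : ℝ) ^ (1 / 3 : ℝ) ≤ Y → Y ≤ 2 * X → IsPC ψ → 2 ≤ ψ.1 →
        (ψ.1 : ℝ) ≤ (Y : ℝ) ^ (2 * c) → κ ≤ sN Y (4 * (Real.log Y) ^ B) ψ → ψ.1 ∣ M * g →
        ∃ d ∈ D X, d ∣ g) :
    ∃ G : Finset ℕ,
    (G.card : ℝ) ≤ min (hh : ℝ) ((X : ℝ) ^ (1 / 3 : ℝ)) * (X : ℝ) ^ (1 / 3 + ε) ∧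
    ∀ m m' : ℕ, m < m' → m' ≤ X → m' ≤ m + hh → 4 * m' ≤ 5 * m → m ∉ G → m' ∉ G →
      Bd δ m → Bd δ m' → m * m' % 3 ≠ 2 → (Nat.gcd m m' : ℝ) ≤ (X : ℝ) ^ (c / 3) →
      ∃ d ∈ D X, d ∣ Nat.gcd m m' := by
  rw [pow_one] at ha
  have hXr : (2 : ℝ) ≤ X := by exact_mod_cast hX2
  have hXp : (0 : ℝ) < X := by linarith
  have hX1r : (1 : ℝ) ≤ X := by linarith
  obtain ⟨m0, hm0⟩ : ∃ m0 : ℝ, m0 = min (hh : ℝ) ((X : ℝ) ^ (1 / 3 : ℝ)) := ⟨_, rfl⟩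
  have hX13 : (1 : ℝ) ≤ (X : ℝ) ^ (1 / 3 : ℝ) := Real.one_le_rpow hX1r (by norm_num)
  have hh1r : (1 : ℝ) ≤ hh := by exact_mod_cast hh1
  have hm01 : 1 ≤ m0 := by rw [hm0]; exact le_min hh1r hX13
  obtain ⟨G, hGc, hG⟩ := fv_scales X (X1 + N1) hX2 hX3 (fun Y => GG1 Y hh)
    (4 * (m0 * (X : ℝ) ^ (1 / 3 + 3 * ν))) (by positivity) (by
      intro Y hY1 hY2
      refine (hG1 Y (by omega) hh hh1).1.trans ?_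
      calc min (hh : ℝ) ((Y : ℝ) ^ (1 / 3 : ℝ)) * (Y : ℝ) ^ (1 / 3 + 3 * ν)
          ≤ (2 * m0) * (2 * (X : ℝ) ^ (1 / 3 + 3 * ν)) := by
            refine mul_le_mul ?_ (fv_pow hY2 _ (by linarith) (by linarith)) (by positivity)
              (by linarith)
            rw [hm0]
            exact fv_min hY2 _ (by norm_num) (by norm_num)
        _ = 4 * (m0 * (X : ℝ) ^ (1 / 3 + 3 * ν)) := by ring)
  refine ⟨G, ?_, ?_⟩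
  · rw [← hm0]
    have hm1 : (X : ℝ) ^ (1 / 3 : ℝ) ≤ m0 * (X : ℝ) ^ (1 / 3 + 3 * ν) := by
      have h1 : (X : ℝ) ^ (1 / 3 : ℝ) ≤ (X : ℝ) ^ (1 / 3 + 3 * ν) :=
        Real.rpow_le_rpow_of_exponent_le hX1r (by linarith)
      have h2 : 0 ≤ (X : ℝ) ^ (1 / 3 + 3 * ν) := by positivity
      nlinarith
    have hpos : 0 ≤ m0 * (X : ℝ) ^ (1 / 3 + 3 * ν) := by positivity
    refine hGc.trans ?_
    calc (X : ℝ) ^ (1 / 3 : ℝ) + 1 +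
          (22 * Real.log X + 1) * (4 * (m0 * (X : ℝ) ^ (1 / 3 + 3 * ν)))
        ≤ 2 * (m0 * (X : ℝ) ^ (1 / 3 + 3 * ν)) +
          (22 * Real.log X + 1) * (4 * (m0 * (X : ℝ) ^ (1 / 3 + 3 * ν))) := by linarith
      _ = (m0 * (X : ℝ) ^ (1 / 3 + 3 * ν)) * (88 * Real.log X + 6) := by ring
      _ ≤ (m0 * (X : ℝ) ^ (1 / 3 + 3 * ν)) * (X : ℝ) ^ (ε / 2) :=
          mul_le_mul_of_nonneg_left (by linarith) hpos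
      _ = m0 * (X : ℝ) ^ (1 / 3 + 3 * ν + ε / 2) := by
          rw [mul_assoc, ← Real.rpow_add hXp]
      _ ≤ m0 * (X : ℝ) ^ (1 / 3 + ε) :=
          mul_le_mul_of_nonneg_left (Real.rpow_le_rpow_of_exponent_le hX1r (by linarith))
            (by linarith)
  · intro m m' hmm hm'X hmh h45 hmG hm'G hbd hbd' hmod hgcd
    obtain ⟨Y, hY0, hY2, hXY, hmY, hm11, hi1, hi2, hYG⟩ := hG m (by omega) hmG
    have hm'9 : (m' : ℝ) ≤ 9 / 10 * (Y : ℝ) := by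
      have h1 : 4 * (m' : ℝ) ≤ 5 * m := by exact_mod_cast h45
      have h2 : (11 : ℝ) ≤ (Y : ℝ) := by exact_mod_cast (by omega : 11 ≤ Y)
      linarith
    have hgcd' : (Nat.gcd m m' : ℝ) ≤ (Y : ℝ) ^ c := by
      refine hgcd.trans ?_
      calc (X : ℝ) ^ (c / 3) = ((X : ℝ) ^ (1 / 3 : ℝ)) ^ c := by
            rw [← Real.rpow_mul hXp.le]
            congr 1
            ring
        _ ≤ (Y : ℝ) ^ c := Real.rpow_le_rpow (by positivity) hXY hc0.le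
    obtain ⟨ψ, b1, b2, b3, b4, b5⟩ := (hG1 Y (by omega) hh hh1).2 m m' hi1 hmm hmh hm'9
      (hYG m hmG) (hYG m' hm'G) hbd hbd'
      hmod hgcd'
    exact hd2 Y ψ _ (by omega) hXY hY2 b1 b2 b3 b4 b5

/-- the clause of V at `X` -/
theorem fz_V {ε ν δ κ c c0 : ℝ} {B M M2 L MM X1 N1 X hh : ℕ} {D : ℕ → Finset ℕ}
    {GG2 : ℕ → ℕ → Finset ℕ}
    (hν0 : 0 < ν) (hν1 : ν ≤ 1 / 20) (hν2 : 3 * ν ≤ ε / 2) (hc0 : 0 < c)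
    (hc2 : c ≤ c0) (ha : 100 * Real.log X ^ 1 ≤ (X : ℝ) ^ (ε / 2)) (hL12 : 12 ≤ Real.log X)
    (hX2 : 2 ≤ X) (hX3 : (X1 + N1 + 11) ^ 3 ≤ X) (hh1 : 1 ≤ hh) (hL : 1 ≤ L) (hM2 : 1 ≤ M2)
    (hMM : M2 * (80 * L) ∣ MM) (hMM1 : 1 ≤ MM)
    (hG2 : ∀ Y : ℕ, X1 ≤ Y → ∀ h : ℕ, 1 ≤ h →
      ((GG2 Y h).card : ℝ) ≤ (Y : ℝ) ^ (1 / 3 + 3 * ν) +
        min (h : ℝ) ((Y : ℝ) ^ (1 / 2 : ℝ)) * (Y : ℝ) ^ (3 * ν) ∧
      ∀ m m' : ℕ, 6 / 10 * (Y : ℝ) ≤ m → m < m' → m' ≤ m + h → (m' : ℝ) ≤ 9 / 10 * Y →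
        ((m' : ℝ) - m) * (20 * L) ≤ Y →
        m ∉ GG2 Y h → m' ∉ GG2 Y h → Bd δ m → Bd δ m' → m ≡ m' [MOD M2] →
        (Nat.gcd m m' : ℝ) ≤ (Y : ℝ) ^ c →
          ∃ ψ : PC, IsPC ψ ∧ 2 ≤ ψ.1 ∧ (ψ.1 : ℝ) ≤ (Y : ℝ) ^ (2 * c) ∧
            κ ≤ sN Y (4 * (Real.log Y) ^ B) ψ ∧ ψ.1 ∣ M * Nat.gcd m m')
    (hd2 : ∀ (Y : ℕ) (ψ : PC) (g : ℕ), N1 ≤ Y →
        (X : ℝ) ^ (1 / 3 : ℝ) ≤ Y → Y ≤ 2 * X → IsPC ψ → 2 ≤ ψ.1 →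
        (ψ.1 : ℝ) ≤ (Y : ℝ) ^ (2 * c) → κ ≤ sN Y (4 * (Real.log Y) ^ B) ψ → ψ.1 ∣ M * g →
        ∃ d ∈ D X, d ∣ g) :
    ∃ G : Finset ℕ, (G.card : ℝ) ≤ (X : ℝ) ^ (1 / 3 + ε) +
        min (hh : ℝ) ((X : ℝ) ^ (1 / 2 : ℝ)) * (X : ℝ) ^ ε ∧
      ∀ m m' : ℕ, m < m' → m' ≤ X → m' ≤ m + hh → MM * m' ≤ (MM + 1) * m → m ∉ G → m' ∉ G →
        Bd δ m → Bd δ m' → m ≡ m' [MOD MM] → (Nat.gcd m m' : ℝ) ≤ (X : ℝ) ^ (c / 3) →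
        ∃ d ∈ D X, d ∣ Nat.gcd m m' := by
  rw [pow_one] at ha
  have hXr : (2 : ℝ) ≤ X := by exact_mod_cast hX2
  have hXp : (0 : ℝ) < X := by linarith
  have hX1r : (1 : ℝ) ≤ X := by linarith
  obtain ⟨m0, hm0⟩ : ∃ m0 : ℝ, m0 = min (hh : ℝ) ((X : ℝ) ^ (1 / 2 : ℝ)) := ⟨_, rfl⟩
  have hX12 : (1 : ℝ) ≤ (X : ℝ) ^ (1 / 2 : ℝ) := Real.one_le_rpow hX1r (by norm_num)
  have hh1r : (1 : ℝ) ≤ hh := by exact_mod_cast hh1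
  have hm01 : 1 ≤ m0 := by rw [hm0]; exact le_min hh1r hX12
  obtain ⟨G, hGc, hG⟩ := fv_scales X (X1 + N1) hX2 hX3 (fun Y => GG2 Y hh)
    (4 * ((X : ℝ) ^ (1 / 3 + 3 * ν) + m0 * (X : ℝ) ^ (3 * ν))) (by positivity) (by
      intro Y hY1 hY2
      refine (hG2 Y (by omega) hh hh1).1.trans ?_
      have e1 : (Y : ℝ) ^ (1 / 3 + 3 * ν) ≤ 2 * (X : ℝ) ^ (1 / 3 + 3 * ν) :=
        fv_pow hY2 _ (by linarith) (by linarith)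
      have e2 : min (hh : ℝ) ((Y : ℝ) ^ (1 / 2 : ℝ)) * (Y : ℝ) ^ (3 * ν)
          ≤ (2 * m0) * (2 * (X : ℝ) ^ (3 * ν)) := by
        refine mul_le_mul ?_ (fv_pow hY2 _ (by linarith) (by linarith)) (by positivity)
          (by linarith)
        rw [hm0]
        exact fv_min hY2 _ (by norm_num) (by norm_num)
      have e3 : 0 ≤ (X : ℝ) ^ (1 / 3 + 3 * ν) := by positivity
      linarith)
  refine ⟨G, ?_, ?_⟩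
  · rw [← hm0]
    have hA1 : (1 : ℝ) ≤ (X : ℝ) ^ (1 / 3 + 3 * ν) := Real.one_le_rpow hX1r (by linarith)
    have hm1 : (X : ℝ) ^ (1 / 3 : ℝ) ≤ (X : ℝ) ^ (1 / 3 + 3 * ν) :=
      Real.rpow_le_rpow_of_exponent_le hX1r (by linarith)
    have hpos2 : 0 ≤ m0 * (X : ℝ) ^ (3 * ν) := by positivity
    have hpos : 0 ≤ (X : ℝ) ^ (1 / 3 + 3 * ν) + m0 * (X : ℝ) ^ (3 * ν) := by positivity
    refine hGc.trans ?_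
    calc (X : ℝ) ^ (1 / 3 : ℝ) + 1 +
          (22 * Real.log X + 1) * (4 * ((X : ℝ) ^ (1 / 3 + 3 * ν) + m0 * (X : ℝ) ^ (3 * ν)))
        ≤ 2 * ((X : ℝ) ^ (1 / 3 + 3 * ν) + m0 * (X : ℝ) ^ (3 * ν)) +
          (22 * Real.log X + 1) * (4 * ((X : ℝ) ^ (1 / 3 + 3 * ν) + m0 * (X : ℝ) ^ (3 * ν))) := by
            linarith
      _ = ((X : ℝ) ^ (1 / 3 + 3 * ν) + m0 * (X : ℝ) ^ (3 * ν)) * (88 * Real.log X + 6) := by ring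
      _ ≤ ((X : ℝ) ^ (1 / 3 + 3 * ν) + m0 * (X : ℝ) ^ (3 * ν)) * (X : ℝ) ^ (ε / 2) :=
          mul_le_mul_of_nonneg_left (by linarith) hpos
      _ = (X : ℝ) ^ (1 / 3 + 3 * ν + ε / 2) + m0 * (X : ℝ) ^ (3 * ν + ε / 2) := by
          rw [add_mul, mul_assoc, ← Real.rpow_add hXp, ← Real.rpow_add hXp]
      _ ≤ (X : ℝ) ^ (1 / 3 + ε) + m0 * (X : ℝ) ^ ε :=
          add_le_add (Real.rpow_le_rpow_of_exponent_le hX1r (by linarith))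
            (mul_le_mul_of_nonneg_left (Real.rpow_le_rpow_of_exponent_le hX1r (by linarith))
              (by linarith))
  · intro m m' hmm hm'X hmh h45 hmG hm'G hbd hbd' hmod hgcd
    obtain ⟨Y, hY0, hY2, hXY, hmY, hm11, hi1, hi2, hYG⟩ := hG m (by omega) hmG
    have hLr : (1 : ℝ) ≤ L := by exact_mod_cast hL
    have hM2r : (1 : ℝ) ≤ M2 := by exact_mod_cast hM2
    have hM80 : 80 * (L : ℝ) ≤ (MM : ℝ) := by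
      have h1 : M2 * (80 * L) ≤ MM := Nat.le_of_dvd (by omega) hMM
      have h2 : ((M2 * (80 * L) : ℕ) : ℝ) ≤ MM := by exact_mod_cast h1
      push_cast at h2
      nlinarith
    have hmr : (0 : ℝ) ≤ m := Nat.cast_nonneg _
    have hsub : 0 ≤ (m' : ℝ) - m := by
      have : (m : ℝ) ≤ m' := by exact_mod_cast hmm.le
      linarith
    -- `M (m' - m) ≤ m`
    have hdiff : 80 * (L : ℝ) * ((m' : ℝ) - m) ≤ m := by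
      have h1 : (MM : ℝ) * m' ≤ ((MM : ℝ) + 1) * m := by
        exact_mod_cast h45
      have h2 : (MM : ℝ) * ((m' : ℝ) - m) ≤ m := by linarith
      exact (mul_le_mul_of_nonneg_right hM80 hsub).trans h2
    have hdiff2 : 80 * ((m' : ℝ) - m) ≤ m := by
      refine le_trans ?_ hdiff
      refine mul_le_mul_of_nonneg_right ?_ hsub
      linarith
    have hYr : (m : ℝ) ≤ Y := by exact_mod_cast hmY
    have hm'9 : (m' : ℝ) ≤ 9 / 10 * (Y : ℝ) := by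
      have h2 : (11 : ℝ) ≤ (Y : ℝ) := by exact_mod_cast (by omega : 11 ≤ Y)
      linarith
    have hgcd' : (Nat.gcd m m' : ℝ) ≤ (Y : ℝ) ^ c := by
      refine hgcd.trans ?_
      calc (X : ℝ) ^ (c / 3) = ((X : ℝ) ^ (1 / 3 : ℝ)) ^ c := by
            rw [← Real.rpow_mul hXp.le]
            congr 1
            ring
        _ ≤ (Y : ℝ) ^ c := Real.rpow_le_rpow (by positivity) hXY hc0.le
    obtain ⟨ψ, b1, b2, b3, b4, b5⟩ := (hG2 Y (by omega) hh hh1).2 m m' hi1 hmm hmh hm'9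
      (by nlinarith) (hYG m hmG) (hYG m' hm'G) hbd hbd'
      (hmod.of_dvd ((Dvd.intro _ rfl).trans hMM)) hgcd'
    exact hd2 Y ψ _ (by omega) hXY hY2 b1 b2 b3 b4 b5

/-- theorem U -/
theorem finHZ (h1 : OneH) (hz : DzS) : FinHZ := by
  intro ε hε
  obtain ⟨ν, hν0, hν1, hν2⟩ : ∃ ν : ℝ, 0 < ν ∧ ν ≤ 1 / 20 ∧ 3 * ν ≤ ε / 2 :=
    ⟨min (1 / 20) (ε / 6), lt_min (by norm_num) (by positivity), min_le_left _ _, by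
      have := min_le_right (1 / 20 : ℝ) (ε / 6); linarith⟩
  obtain ⟨δ1, κ1, B1, M1, hδ1, hκ1, -, hM1, h1⟩ := h1 ν hν0 hν1
  obtain ⟨c0, hc00, N1, M', D, hD, Xd, hd⟩ := fz_d hz κ1 hκ1 B1 M1 hM1
  obtain ⟨c, hc0, hc1, hc2⟩ : ∃ c : ℝ, 0 < c ∧ c ≤ ν / 200 ∧ c ≤ c0 :=
    ⟨min (ν / 200) c0, lt_min (by positivity) hc00, min_le_left _ _, min_le_right _ _⟩
  obtain ⟨X1, h1⟩ := h1 c hc0 hc1
  choose! GG1 hG1 using h1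
  refine ⟨δ1, c / 3, M' + 1, hδ1, by positivity, by omega, D, dok_mono (by omega) hD, ?_⟩
  obtain ⟨Xa, ha⟩ := g6_pow_log_le 1 100 (ε / 2) (by positivity)
  obtain ⟨Xb, hb⟩ := g6_log_ge 12
  refine ⟨max (max (max Xa Xb) Xd) (max ((X1 + N1 + 11) ^ 3) 2), fun X hX hh hh1 => ?_⟩
  simp only [max_le_iff] at hX
  obtain ⟨⟨⟨hXa, hXb⟩, hXd⟩, hX3, hX2⟩ := hX
  exact fz_U hν0 hν1 hν2 hc0 hc2 (ha X hXa) (hb X hXb) hX2 hX3 hh1 hG1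
    (fun Y ψ g a1 a2 a3 a4 a5 a6 a7 a8 => hd X hXd c Y B1 ψ g hc0 hc2 a1 a2 a3 le_rfl a4 a5 a6 a7 a8)

/-- theorems U and V -/
theorem finVZ (h1 : OneH) (h2 : OneV) (hz : DzS) : FinVZ := by
  intro ε hε
  obtain ⟨ν, hν0, hν1, hν2⟩ : ∃ ν : ℝ, 0 < ν ∧ ν ≤ 1 / 20 ∧ 3 * ν ≤ ε / 2 :=
    ⟨min (1 / 20) (ε / 6), lt_min (by norm_num) (by positivity), min_le_left _ _, by
      have := min_le_right (1 / 20 : ℝ) (ε / 6); linarith⟩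
  obtain ⟨δ1, κ1, B1, M1, hδ1, hκ1, -, hM1, h1⟩ := h1 ν hν0 hν1
  obtain ⟨δ2, κ2, B2, M2, L, hδ2, hκ2, -, hM2, hL, h2⟩ := h2 ν hν0 hν1
  obtain ⟨c0, hc00, N1, M', D, hD, Xd, hd⟩ := fz_d hz (min κ1 κ2) (lt_min hκ1 hκ2) (max B1 B2)
    (M1 * M2) (Nat.mul_pos hM1 hM2)
  obtain ⟨c, hc0, hc1, hc2⟩ : ∃ c : ℝ, 0 < c ∧ c ≤ ν / 200 ∧ c ≤ c0 :=
    ⟨min (ν / 200) c0, lt_min (by positivity) hc00, min_le_left _ _, min_le_right _ _⟩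
  obtain ⟨X1, h1⟩ := h1 c hc0 hc1
  obtain ⟨X2, h2⟩ := h2 c hc0 hc1
  choose! GG1 hG1 using h1
  choose! GG2 hG2 using h2
  have hMM : 1 ≤ M2 * (80 * L) := Nat.mul_pos hM2 (by omega)
  refine ⟨min δ1 δ2, c / 3, M2 * (80 * L) * (M' + 1), lt_min hδ1 hδ2, by positivity,
    Nat.mul_pos hMM (by omega), D, dok_mono ?_ hD, ?_⟩
  · calc M' ≤ 1 * (M' + 1) := by omega
      _ ≤ M2 * (80 * L) * (M' + 1) := Nat.mul_le_mul_right _ hMM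
  obtain ⟨Xa, ha⟩ := g6_pow_log_le 1 100 (ε / 2) (by positivity)
  obtain ⟨Xb, hb⟩ := g6_log_ge 12
  refine ⟨max (max (max Xa Xb) Xd) (max ((X1 + N1 + 11) ^ 3) (max ((X2 + N1 + 11) ^ 3) 2)),
    fun X hX hh hh1 => ?_⟩
  simp only [max_le_iff] at hX
  obtain ⟨⟨⟨hXa, hXb⟩, hXd⟩, hX3, hX4, hX2⟩ := hX
  refine ⟨?_, ?_⟩
  · obtain ⟨G, g1, g2⟩ := fz_U (δ := δ1) (κ := κ1) (B := B1) (M := M1) (D := D) hν0 hν1 hν2 hc0 hc2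
      (ha X hXa) (hb X hXb) hX2 hX3 hh1 hG1
      (fun Y ψ g a1 a2 a3 a4 a5 a6 a7 a8 => hd X hXd c Y B1 ψ g hc0 hc2 a1 a2 a3 (le_max_left _ _)
        a4 a5 a6 ((min_le_left _ _).trans a7) (by
          rw [mul_assoc, mul_left_comm]
          exact Dvd.dvd.mul_left a8 M2))
    exact ⟨G, g1, fun m m' e1 e2 e3 e4 e5 e6 e7 e8 e9 e10 => g2 m m' e1 e2 e3 e4 e5 e6
      (fv_mono (min_le_left _ _) e7) (fv_mono (min_le_left _ _) e8) e9 e10⟩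
  · obtain ⟨G, g1, g2⟩ := fz_V (δ := δ2) (κ := κ2) (B := B2) (M := M2) (D := D)
      (MM := M2 * (80 * L) * (M' + 1)) hν0 hν1 hν2 hc0 hc2
      (ha X hXa) (hb X hXb) hX2 hX4 hh1 hL hM2 (Dvd.intro _ rfl) (Nat.mul_pos hMM (by omega)) hG2
      (fun Y ψ g a1 a2 a3 a4 a5 a6 a7 a8 => hd X hXd c Y B2 ψ g hc0 hc2 a1 a2 a3 (le_max_right _ _)
        a4 a5 a6 ((min_le_right _ _).trans a7) (by
          rw [mul_assoc]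
          exact Dvd.dvd.mul_left a8 M1))
    exact ⟨G, g1, fun m m' e1 e2 e3 e4 e5 e6 e7 e8 e9 e10 => g2 m m' e1 e2 e3 e4 e5 e6
      (fv_mono (min_le_right _ _) e7) (fv_mono (min_le_right _ _) e8) e9 e10⟩

end Pool.MP_dd84fd_nt.TC
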