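import Pool.Agent.Lib.MP_dd84fd_nt.TC.GCoreA

/-!
# TC-GCore: two failures contradict each other, `CoreG` (helper45)

Selection of a window and of a path of classes by averaging (also over the masses), then `gcore_pt`.
-/

set_option autoImplicit false

namespace Pool.MP_dd84fd_nt.TC

open Finset Pool.MP_67663b_nt.Odd Pool.MP_dd84fd_nt.En Pool.MP_dd84fd_nt.E2 Pool.MP_dd84fd_nt.LS
open Pool.MP_dd84fd_nt.GX Pool.MP_dd84fd_nt.HX Pool.MP_dd84fd_nt.IX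
open Pool.MP_dd84fd_nt.BX (PC pv IsPC PR SX sN prc ind)

/-- selection for ten functions -/
theorem sel10 (J P : Finset ℕ) (r1 r3 r2 a0 a1 a2 a3 b1 b2 mm : ℕ → ℕ → ℝ)
    (t e d d2 u R A G D : ℝ)
    (ht : 0 < t) (he : 0 < e) (hd : 0 < d) (hd2 : 0 < d2) (hu : 0 < u)
    (n1 : ∀ j c, 0 ≤ r1 j c) (n3 : ∀ j c, 0 ≤ r3 j c) (n2 : ∀ j c, 0 ≤ r2 j c)
    (m0 : ∀ j c, 0 ≤ a0 j c) (m1 : ∀ j c, 0 ≤ a1 j c) (m2 : ∀ j c, 0 ≤ a2 j c)
    (m3 : ∀ j c, 0 ≤ a3 j c) (l1 : ∀ j c, 0 ≤ b1 j c) (l2 : ∀ j c, 0 ≤ b2 j c)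
    (l3 : ∀ j c, 0 ≤ mm j c)
    (s1 : ∑ j ∈ J, ∑ c ∈ P, r1 j c ≤ R) (s3 : ∑ j ∈ J, ∑ c ∈ P, r3 j c ≤ R)
    (s2 : ∑ j ∈ J, ∑ c ∈ P, r2 j c ≤ R)
    (u0 : ∑ j ∈ J, ∑ c ∈ P, a0 j c ≤ A) (u1 : ∑ j ∈ J, ∑ c ∈ P, a1 j c ≤ A)
    (u2 : ∑ j ∈ J, ∑ c ∈ P, a2 j c ≤ A) (u3 : ∑ j ∈ J, ∑ c ∈ P, a3 j c ≤ A)
    (v1 : ∑ j ∈ J, ∑ c ∈ P, b1 j c ≤ G) (v2 : ∑ j ∈ J, ∑ c ∈ P, b2 j c ≤ G)
    (v3 : ∑ j ∈ J, ∑ c ∈ P, mm j c ≤ D)
    (hlt : 2 * R / t + R / e + 4 * A / d + G / 1 + G / d2 + D / u <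
      (J.card : ℝ) * (P.card : ℝ)) :
    ∃ j ∈ J, ∃ c ∈ P, r1 j c ≤ t ∧ r3 j c ≤ t ∧ r2 j c ≤ e ∧ a0 j c ≤ d ∧ a1 j c ≤ d ∧
      a2 j c ≤ d ∧ a3 j c ≤ d ∧ b1 j c ≤ 1 ∧ b2 j c ≤ d2 ∧ mm j c ≤ u := by
  obtain ⟨j, hj, c, hc, hall⟩ := sel (ι := Fin 10) J P
    ![r1, r3, r2, a0, a1, a2, a3, b1, b2, mm]
    ![t, t, e, d, d, d, d, 1, d2, u] ![R, R, R, A, A, A, A, G, G, D]
    (by
      intro i
      fin_cases i
      · exact ht
      · exact ht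
      · exact he
      · exact hd
      · exact hd
      · exact hd
      · exact hd
      · exact one_pos
      · exact hd2
      · exact hu)
    (by
      intro i j c
      fin_cases i
      · exact n1 j c
      · exact n3 j c
      · exact n2 j c
      · exact m0 j c
      · exact m1 j c
      · exact m2 j c
      · exact m3 j c
      · exact l1 j c
      · exact l2 j c
      · exact l3 j c)
    (by
      intro i
      fin_cases i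
      · exact s1
      · exact s3
      · exact s2
      · exact u0
      · exact u1
      · exact u2
      · exact u3
      · exact v1
      · exact v2
      · exact v3)
    (by
      have e1 : ∑ i : Fin 10, (![R, R, R, A, A, A, A, G, G, D] : Fin 10 → ℝ) i /
          (![t, t, e, d, d, d, d, 1, d2, u] : Fin 10 → ℝ) i =
          R / t + R / t + R / e + A / d + A / d + A / d + A / d + G / 1 + G / d2 + D / u := by
        simp [Fin.sum_univ_succ]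
        ring
      rw [e1]
      have e2 : 2 * R / t = R / t + R / t := by ring
      have e3 : 4 * A / d = A / d + A / d + A / d + A / d := by ring
      linarith)
  exact ⟨j, hj, c, hc, hall 0, hall 1, hall 2, hall 3, hall 4, hall 5, hall 6, hall 7, hall 8,
    hall 9⟩

theorem Dv_nonneg (X : ℕ) (Δ : ℝ) (R W : ℕ) (y : ℝ) (c : ZMod W) : 0 ≤ Dv X Δ R W y c := by
  unfold Dv
  split_ifs
  · positivity
  · exact le_rfl

theorem ms_of_dv {X : ℕ} {Δ : ℝ} {Q1 Q2 : ℕ} {η y : ℝ} (hη : 0 ≤ η)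
    (hs : 0 < sw X Δ (Nat.gcd Q1 Q2)) (c : ZMod (Nat.gcd Q1 Q2)) (hc : IsUnit c)
    (h : Dv X Δ (Nat.lcm Q1 Q2) (Nat.gcd Q1 Q2) y c ≤ η ^ 2) : MsW X Δ Q1 Q2 η y c := by
  unfold Dv at h
  rw [if_pos hc] at h
  have h1 := abs_le_of_sq_le_sq h hη
  unfold MsW
  have e : ∑ p ∈ UP X (Nat.lcm Q1 Q2), wv Δ y (Nat.gcd Q1 Q2) c p - sw X Δ (Nat.gcd Q1 Q2) =
      sw X Δ (Nat.gcd Q1 Q2) * ((∑ p ∈ UP X (Nat.lcm Q1 Q2), wv Δ y (Nat.gcd Q1 Q2) c p) /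
        sw X Δ (Nat.gcd Q1 Q2) - 1) := by
    field_simp
  rw [e, abs_mul, abs_of_pos hs, mul_comm]
  exact mul_le_mul_of_nonneg_right h1 hs.le

theorem gcore_big (B : ℕ) (hB : 1 ≤ B) (ν : ℝ) (hν0 : 0 < ν) (hν : ν ≤ 1 / 20) : ∃ X0 : ℕ,
    ∀ X : ℕ, X0 ≤ X → 3 ≤ X ∧ (X : ℝ) ^ (ν / 100) ≤ Dl B X ∧ 7 ≤ (X : ℝ) / Dl B X ∧
      0 < Dl B X ∧ 1 ≤ Real.log X := by
  obtain ⟨X1, hX1⟩ := core_big B 0 hB
  have h2 : ∀ᶠ x : ℝ in Filter.atTop, (Real.log x) ^ B ≤ 1 / 4 * x ^ (1 / 2 : ℝ) := by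
    have h2 := (isLittleO_log_rpow_rpow_atTop (s := 1 / 2) ((B : ℕ) : ℝ) (by norm_num)).bound
      (by norm_num : (0 : ℝ) < 1 / 4)
    filter_upwards [h2, Filter.eventually_ge_atTop (Real.exp 1)] with x hx hx1
    have hx0 : 0 < x := (Real.exp_pos 1).trans_le hx1
    have hl : 0 ≤ Real.log x := (by
      have := Real.log_le_log (Real.exp_pos 1) hx1
      rw [Real.log_exp] at this; linarith)
    rw [Real.rpow_natCast, Real.norm_of_nonneg (pow_nonneg hl _),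
      Real.norm_of_nonneg (Real.rpow_nonneg hx0.le _)] at hx
    exact hx
  have h3 : ∀ᶠ X : ℕ in Filter.atTop, (Real.log (X : ℝ)) ^ B ≤ 1 / 4 * (X : ℝ) ^ (1 / 2 : ℝ) :=
    tendsto_natCast_atTop_atTop.eventually h2
  obtain ⟨X2, hX2⟩ := Filter.eventually_atTop.1 h3
  refine ⟨max X1 X2, fun X hX => ?_⟩
  simp only [max_le_iff] at hX
  obtain ⟨b1, -, b3, b4, b5⟩ := hX1 X hX.1
  refine ⟨b1, ?_, b3, b4, b5⟩
  have hXp : (1 : ℝ) ≤ X := by exact_mod_cast (by omega : 1 ≤ X)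
  have hX0 : (0 : ℝ) < X := by linarith
  have h4 := hX2 X hX.2
  have hL : 0 < (Real.log X) ^ B := pow_pos (by linarith) B
  unfold Dl
  rw [le_div_iff₀ (by positivity)]
  calc (X : ℝ) ^ (ν / 100) * (4 * (Real.log X) ^ B) ≤
        (X : ℝ) ^ (1 / 2 : ℝ) * (4 * (1 / 4 * (X : ℝ) ^ (1 / 2 : ℝ))) := by
        refine mul_le_mul (Real.rpow_le_rpow_of_exponent_le hXp (by linarith)) ?_ (by positivity)
          (by positivity)
        linarith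
    _ = (X : ℝ) ^ (1 / 2 : ℝ) * (X : ℝ) ^ (1 / 2 : ℝ) := by ring
    _ = X := by rw [← Real.rpow_add hX0]; norm_num

theorem coreG (hS : SVG) (hM : MAG) (hE : ExG) (hR : RCSF) : CoreG := by
  classical
  intro ν hν0 hν
  obtain ⟨C1, hC1, hE⟩ := hE ν hν0 hν
  obtain ⟨C2, hC2, hR⟩ := hR
  obtain ⟨C3, hC3, hM⟩ := hM ν hν0 hν
  obtain ⟨η, hη⟩ : ∃ η : ℝ, η = ν / 30 := ⟨_, rfl⟩
  have hη0 : 0 < η := by rw [hη]; positivity
  have hη1 : η ≤ 1 / 10 := by rw [hη]; linarith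
  refine ⟨η ^ 2 / (1280 * C2 * (C1 + 1)), by positivity, ?_⟩
  intro B ρ hB hρ0 hρ1
  obtain ⟨κ1, κ2, M, hκ10, hκ11, hκ20, hκ21, hM0, hMs, hd11, hcon⟩ :=
    consts hC1 hC2 hη0 hη1 hρ0 hρ1
  obtain ⟨N0, hN0⟩ : ∃ N0 : ℕ, (1 + C1 / κ1) * (1 + C1 / κ2) ≤ N0 := exists_nat_ge _
  obtain ⟨κ3, hκ3⟩ : ∃ κ3 : ℝ, κ3 = ρ * η ^ 2 / (32 * (C3 + 1)) := ⟨_, rfl⟩
  have hκ30 : 0 < κ3 := by rw [hκ3]; positivity
  have hη2' : η ^ 2 ≤ 1 := by nlinarith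
  have hκ31 : κ3 ≤ 1 := by
    rw [hκ3, div_le_one (by positivity)]
    nlinarith [mul_le_mul hρ1 hη2' (by positivity) (by norm_num : (0 : ℝ) ≤ 1)]
  have hcon3 : 4 * (C3 * κ3) / η ^ 2 ≤ ρ / 8 := by
    have : 4 * (C3 * κ3) / η ^ 2 = C3 / (C3 + 1) * (ρ / 8) := by
      rw [hκ3]; field_simp; ring
    rw [this]
    have h3 : C3 / (C3 + 1) ≤ 1 := by rw [div_le_one (by positivity)]; linarith
    exact mul_le_of_le_one_left (by positivity) h3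
  obtain ⟨X1, hX1⟩ := hS ν hν0 hν B N0 hB
  obtain ⟨X2, hX2⟩ := hM B κ3 hB hκ30 hκ31
  obtain ⟨X3, hX3⟩ := hE B κ1 hB hκ10 hκ11
  obtain ⟨X4, hX4⟩ := hE B κ2 hB hκ20 hκ21
  obtain ⟨X5, hX5⟩ := hR B hB
  obtain ⟨X6, hX6⟩ := gcore_big B hB ν hν0 hν
  refine ⟨κ3, hκ30, hκ31, max (max X1 X2) (max (max X3 X4) (max X5 X6)), fun X hX => ?_⟩
  simp only [max_le_iff] at hX
  obtain ⟨⟨g1, g2⟩, ⟨g3, g4⟩, g5, g6⟩ := hX
  obtain ⟨hX3', hDK, hX7, hΔ, hL1⟩ := hX6 X g6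
  intro n n' Q1 Q2 W hQ1 hQ2 hW hWK hNoH hn hn' hlcm hn6 hn9 hnn hpath hLC1 hLC2
  subst hW
  set W := Nat.gcd Q1 Q2 with hWdef
  set R := Nat.lcm Q1 Q2 with hRdef
  have hXr : (0 : ℝ) < X := by exact_mod_cast (by omega : 0 < X)
  have hX1r : (1 : ℝ) ≤ X := by exact_mod_cast (by omega : 1 ≤ X)
  have hWp : 1 ≤ W := Nat.gcd_pos_of_pos_left _ hQ1
  have hRp : 1 ≤ R := Nat.lcm_pos hQ1 hQ2
  have hWQ1 : W ∣ Q1 := Nat.gcd_dvd_left _ _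
  have hWQ2 : W ∣ Q2 := Nat.gcd_dvd_right _ _
  have hQR1 : Q1 ∣ R := Nat.dvd_lcm_left _ _
  have hQR2 : Q2 ∣ R := Nat.dvd_lcm_right _ _
  have hWR : W ∣ R := hWQ1.trans hQR1
  have hRX : R ≤ X := by
    have h1 : (R : ℝ) ≤ X := hlcm.trans (by
      calc (X : ℝ) ^ (2 / 3 - ν) ≤ (X : ℝ) ^ (1 : ℝ) :=
            Real.rpow_le_rpow_of_exponent_le hX1r (by linarith)
        _ = X := Real.rpow_one _)
    exact_mod_cast h1
  have hQ1X : (Q1 : ℝ) ≤ (X : ℝ) ^ (2 / 3 - ν) :=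
    le_trans (by exact_mod_cast Nat.le_of_dvd hRp hQR1) hlcm
  have hQ2X : (Q2 : ℝ) ≤ (X : ℝ) ^ (2 / 3 - ν) :=
    le_trans (by exact_mod_cast Nat.le_of_dvd hRp hQR2) hlcm
  obtain ⟨E1, ho1, hcard1, hI1, hD1⟩ := hX3 X g3 R W Q1 hRp hRX hWQ1 hQR1 hQ1X
  obtain ⟨E2, ho2, hcard2, hI2, hD2⟩ := hX4 X g4 R W Q2 hRp hRX hWQ2 hQR2 hQ2X
  have hs : 0 < sw X (Dl B X) W := by
    unfold sw
    have : (0 : ℝ) < (Nat.totient W : ℝ) := by exact_mod_cast Nat.totient_pos.2 hWp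
    have : 0 < Real.log X := by linarith
    positivity
  have hNN : E1.card * E2.card ≤ N0 := by
    have h1 : (E1.card : ℝ) * E2.card ≤ N0 :=
      (mul_le_mul hcard1 hcard2 (by positivity) (by positivity)).trans hN0
    exact_mod_cast h1
  have hMc : Real.sqrt (4 * (E2.card : ℝ)) ≤ M :=
    (Real.sqrt_le_sqrt (by linarith)).trans hMs
  -- the windows
  have hwin : ∀ y : ℝ, (X : ℝ) / 20 ≤ y → y ≤ 9 / 10 * X →
      SvW X (Dl B X) Q1 Q2 (3 - ν) y N0 := by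
    intro y hy1 hy2 c Γ hΓ hI t
    exact hX1 X g1 R W hRp hlcm hWR hWK c y hy1 (by linarith) Γ hΓ hI t
  -- the sums
  have hA0 : 0 ≤ (Nat.totient W : ℝ) * (X / Dl B X) := by positivity
  have hc0 : 0 ≤ η ^ 2 / (1280 * C2 * (C1 + 1)) * ρ ^ 2 := by positivity
  have hP : PathSet W n n' ⊆ range W := filter_subset _ _
  have hn0 : |(n : ℝ) - n| ≤ Dl B X := by rw [sub_self, abs_zero]; exact hΔ.le
  have sR1 := RC_sum hC2.le hΔ hX3' hQ1 hWp (hX5 X g5 R W Q1 n n hQ1 hWQ1 hWp hn0) hLC1 hc0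
  have sR2 := RC_sum hC2.le hΔ hX3' hQ2 hWp
    (hX5 X g5 R W Q2 n' n hQ2 hWQ2 hWp (hnn.trans hDK)) hLC2 hc0
  have sD1 := hD1 0 1 (Or.inl rfl)
  have sD1' := hD1 n (-1) (Or.inr rfl)
  have sD2 := hD2 0 1 (Or.inl rfl)
  have sD2' := hD2 n (-1) (Or.inr rfl)
  have hWX : (W : ℝ) ≤ (X : ℝ) ^ (2 / 3 - ν) :=
    hWK.trans (Real.rpow_le_rpow_of_exponent_le hX1r (by linarith))
  have hjr : ∀ j ∈ JW X (Dl B X), (X : ℝ) / 20 ≤ j * Dl B X / 2 ∧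
      j * Dl B X / 2 ≤ (X : ℝ) / 2 := by
    intro j hj
    unfold JW at hj
    exact (mem_filter.1 hj).2
  have sM := hX2 X g2 R W hRp hRX hWR hWX hNoH 0 1 (Or.inl rfl) (by
    intro j hj
    have := hjr j hj
    constructor <;> linarith [this.1, this.2])
  have sM' := hX2 X g2 R W hRp hRX hWR hWX hNoH n (-1) (Or.inr rfl) (by
    intro j hj
    have := hjr j hj
    constructor <;> linarith [this.1, this.2])
  simp only [zero_add, one_mul] at sD1 sD2 sM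
  have hneg : ∀ j : ℕ, (n : ℝ) + -1 * (j * Dl B X / 2) = n - j * Dl B X / 2 := fun j => by ring
  simp only [hneg] at sD1' sD2' sM'
  obtain ⟨f0, hf0⟩ : ∃ f0 : ZMod W → ZMod W, f0 = fun c => (n : ZMod W) - c := ⟨_, rfl⟩
  obtain ⟨f2, hf2⟩ : ∃ f2 : ZMod W → ZMod W, f2 = fun c => (n' : ZMod W) - c := ⟨_, rfl⟩
  obtain ⟨f3, hf3⟩ : ∃ f3 : ZMod W → ZMod W, f3 = fun c => (n : ZMod W) - ((n' : ZMod W) - c) :=
    ⟨_, rfl⟩
  have if0 : Function.Injective f0 := by rw [hf0]; intro a b h; simpa using h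
  have if2 : Function.Injective f2 := by rw [hf2]; intro a b h; simpa using h
  have if3 : Function.Injective f3 := by rw [hf3]; intro a b h; simpa using h
  have iid : Function.Injective (fun c : ZMod W => c) := fun a b h => h
  have hRCn : ∀ (Q m : ℕ) (y₁ y₂ : ℝ) (z : ZMod W), 0 ≤ RC X (Dl B X) R W Q m y₁ y₂ z :=
    fun Q m y₁ y₂ z => RC_nonneg _ _ _ _ _ _ _ _ _
  have hDDn : ∀ (Q : ℕ) (E : Finset (DirichletCharacter ℂ Q)) (y : ℝ) (z : ZMod W),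
    0 ≤ DD X (Dl B X) R W Q E y z := fun Q E y z => DD_nonneg _ _ _ _ _ _ _ _
  have key : ∀ (g : ℕ → ZMod W → ℝ) (b : ℝ) (f : ZMod W → ZMod W), (∀ j z, 0 ≤ g j z) →
      Function.Injective f → ∑ j ∈ JW X (Dl B X), ∑ c ∈ range W, g j (c : ZMod W) ≤ b →
      ∑ j ∈ JW X (Dl B X), ∑ c ∈ PathSet W n n', g j (f (c : ZMod W)) ≤ b := by
    intro g b f hg hf hb
    exact (sum_le_sum fun j _ => sum_path hWp _ hP (g j) (hg j) f hf).trans hb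
  have hη2 : 0 < η / (2 * M) := by positivity
  have w1 := key (fun j z => RC X (Dl B X) R W Q1 n (j * Dl B X / 2) (n - j * Dl B X / 2) z) _
    (fun c => c) (fun j z => hRCn _ _ _ _ _) iid sR1
  have w3 := key (fun j z => RC X (Dl B X) R W Q1 n (j * Dl B X / 2) (n - j * Dl B X / 2) z) _
    f3 (fun j z => hRCn _ _ _ _ _) if3 sR1
  have w2 := key (fun j z => RC X (Dl B X) R W Q2 n' (j * Dl B X / 2) (n - j * Dl B X / 2) z) _
    (fun c => c) (fun j z => hRCn _ _ _ _ _) iid sR2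
  have x0 := key (fun j z => DD X (Dl B X) R W Q1 E1 (n - j * Dl B X / 2) z) _ f0
    (fun j z => hDDn _ _ _ _) if0 sD1'
  have x1 := key (fun j z => DD X (Dl B X) R W Q1 E1 (j * Dl B X / 2) z) _ (fun c => c)
    (fun j z => hDDn _ _ _ _) iid sD1
  have x2 := key (fun j z => DD X (Dl B X) R W Q1 E1 (n - j * Dl B X / 2) z) _ f2
    (fun j z => hDDn _ _ _ _) if2 sD1'
  have x3 := key (fun j z => DD X (Dl B X) R W Q1 E1 (j * Dl B X / 2) z) _ f3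
    (fun j z => hDDn _ _ _ _) if3 sD1
  have z1 := key (fun j z => DD X (Dl B X) R W Q2 E2 (j * Dl B X / 2) z) _ (fun c => c)
    (fun j z => hDDn _ _ _ _) iid sD2
  have z2 := key (fun j z => DD X (Dl B X) R W Q2 E2 (n - j * Dl B X / 2) z) _ f2
    (fun j z => hDDn _ _ _ _) if2 sD2'
  have hDvn : ∀ (y : ℝ) (z : ZMod W), 0 ≤ Dv X (Dl B X) R W y z :=
    fun y z => Dv_nonneg _ _ _ _ _ _
  have y1 := key (fun j z => Dv X (Dl B X) R W (j * Dl B X / 2) z) _ (fun c => c)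
    (fun j z => hDvn _ _) iid sM
  have y0 := key (fun j z => Dv X (Dl B X) R W (n - j * Dl B X / 2) z) _ f0
    (fun j z => hDvn _ _) if0 sM'
  have y2 := key (fun j z => Dv X (Dl B X) R W (n - j * Dl B X / 2) z) _ f2
    (fun j z => hDvn _ _) if2 sM'
  have y3 := key (fun j z => Dv X (Dl B X) R W (j * Dl B X / 2) z) _ f3
    (fun j z => hDvn _ _) if3 sM
  have yy : ∑ j ∈ JW X (Dl B X), ∑ c ∈ PathSet W n n',
      (Dv X (Dl B X) R W (j * Dl B X / 2) (c : ZMod W) +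
        Dv X (Dl B X) R W (n - j * Dl B X / 2) (f0 (c : ZMod W)) +
        Dv X (Dl B X) R W (n - j * Dl B X / 2) (f2 (c : ZMod W)) +
        Dv X (Dl B X) R W (j * Dl B X / 2) (f3 (c : ZMod W))) ≤
      4 * (C3 * κ3 * Nat.totient W * (X / Dl B X)) := by
    simp only [sum_add_distrib]
    linarith
  have hA1 : 0 < (Nat.totient W : ℝ) * (X / Dl B X) := by
    have : (0 : ℝ) < (Nat.totient W : ℝ) := by exact_mod_cast Nat.totient_pos.2 hWp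
    positivity
  obtain ⟨j, hj, c, hc, q1, q3, q2, p0, p1, p2, p3, o1, o2, o3⟩ := sel10 (JW X (Dl B X))
    (PathSet W n n') _ _ _ _ _ _ _ _ _ _ (η / (2 * M)) (η / 2) ((η / (2 * M)) ^ 2 / 5)
    (η ^ 2 / 20) (η ^ 2) _ _ _ _ hη2 (by positivity) (by positivity) (by positivity)
    (by positivity)
    (fun j c => hRCn _ _ _ _ _) (fun j c => hRCn _ _ _ _ _) (fun j c => hRCn _ _ _ _ _)
    (fun j c => hDDn _ _ _ _) (fun j c => hDDn _ _ _ _) (fun j c => hDDn _ _ _ _)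
    (fun j c => hDDn _ _ _ _) (fun j c => hDDn _ _ _ _) (fun j c => hDDn _ _ _ _)
    (fun j c => add_nonneg (add_nonneg (add_nonneg (hDvn _ _) (hDvn _ _)) (hDvn _ _))
      (hDvn _ _))
    w1 w3 w2 x0 x1 x2 x3 z1 z2 yy (by
      have b1 := card_JW hΔ hX7
      have b2 : 3 / 4 * ((X : ℝ) / Dl B X) * (ρ * Nat.totient W) ≤
          ((JW X (Dl B X)).card : ℝ) * ((PathSet W n n').card : ℝ) :=
        mul_le_mul b1 hpath (by positivity) (by positivity)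
      refine lt_of_lt_of_le ?_ b2
      have b3 := mul_le_mul_of_nonneg_right (add_le_add hcon hcon3) hA1.le
      have b4 : (ρ / 2 + ρ / 8) * ((Nat.totient W : ℝ) * (X / Dl B X)) <
          3 / 4 * ((X : ℝ) / Dl B X) * (ρ * Nat.totient W) := by
        have : 0 < ρ * ((Nat.totient W : ℝ) * (X / Dl B X)) := mul_pos hρ0 hA1
        linarith
      refine lt_of_le_of_lt (le_of_eq ?_) (lt_of_le_of_lt b3 b4)
      ring)
  have hcu : IsUnit (c : ZMod W) ∧ IsUnit ((n : ZMod W) - c) ∧ IsUnit ((n' : ZMod W) - c) ∧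
      IsUnit ((n : ZMod W) - ((n' : ZMod W) - c)) := by
    unfold PathSet at hc
    exact (mem_filter.1 hc).2
  have hjj : (X : ℝ) / 20 ≤ j * Dl B X / 2 ∧ j * Dl B X / 2 ≤ (X : ℝ) / 2 := by
    unfold JW at hj
    exact (mem_filter.1 hj).2
  have hd1 := hDvn (j * Dl B X / 2) (c : ZMod W)
  have hd0 := hDvn (n - j * Dl B X / 2) (f0 (c : ZMod W))
  have hd2 := hDvn (n - j * Dl B X / 2) (f2 (c : ZMod W))
  have hd3 := hDvn (j * Dl B X / 2) (f3 (c : ZMod W))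
  have k1 : Dv X (Dl B X) R W (j * Dl B X / 2) (c : ZMod W) ≤ η ^ 2 := by linarith
  have k0 : Dv X (Dl B X) R W (n - j * Dl B X / 2) ((n : ZMod W) - c) ≤ η ^ 2 := by
    simp only [hf0] at hd0 o3 ⊢; linarith
  have k2 : Dv X (Dl B X) R W (n - j * Dl B X / 2) ((n' : ZMod W) - c) ≤ η ^ 2 := by
    simp only [hf2] at hd2 o3 ⊢; linarith
  have k3 : Dv X (Dl B X) R W (j * Dl B X / 2) ((n : ZMod W) - ((n' : ZMod W) - c)) ≤
      η ^ 2 := by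
    simp only [hf3] at hd3 o3 ⊢; linarith
  have e1 : MsW X (Dl B X) Q1 Q2 η (j * Dl B X / 2) (c : ZMod W) :=
    ms_of_dv hη0.le hs _ hcu.1 k1
  have e0 : MsW X (Dl B X) Q1 Q2 η (n - j * Dl B X / 2) ((n : ZMod W) - c) :=
    ms_of_dv hη0.le hs _ hcu.2.1 k0
  have e2 : MsW X (Dl B X) Q1 Q2 η (n - j * Dl B X / 2) ((n' : ZMod W) - c) :=
    ms_of_dv hη0.le hs _ hcu.2.2.1 k2
  have e3 : MsW X (Dl B X) Q1 Q2 η (j * Dl B X / 2)
      ((n : ZMod W) - ((n' : ZMod W) - c)) :=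
    ms_of_dv hη0.le hs _ hcu.2.2.2 k3
  have hy1 := hwin (j * Dl B X / 2) hjj.1 (by linarith)
  have hy2 := hwin (n - j * Dl B X / 2) (by linarith) (by linarith)
  simp only [hf0, hf2, hf3] at q1 q3 q2 p0 p1 p2 p3 o1 o2
  exact gcore_pt hX3' hΔ hy1 hy2 hQ1 hQ2 hs (by linarith) hη0.le hη1 (by rw [hη]; linarith) E1 E2
    hI1 hI2 ho1 ho2 hNN hn hn' (c : ZMod W) hcu.1 hcu.2.1 hcu.2.2.1 hcu.2.2.2 e1 e0 e2 e3
    M hMc hM0 q1 q3 q2
    (p1.trans hd11) p0 (p2.trans hd11) p3 o1 o2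

end Pool.MP_dd84fd_nt.TC
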