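import Pool.Agent.Lib.MP_dd84fd_nt.TC.Core
import Pool.Agent.Lib.MP_dd84fd_nt.TC.GDefs

/-!
# TC-GCoreA: two failures contradict each other, `CoreG` (helper45)

As CoreA and Core; the masses of the classes are controlled on average only.
-/

set_option autoImplicit false

namespace Pool.MP_dd84fd_nt.TC

open Finset Pool.MP_67663b_nt.Odd Pool.MP_dd84fd_nt.En Pool.MP_dd84fd_nt.E2 Pool.MP_dd84fd_nt.LS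
open Pool.MP_dd84fd_nt.GX Pool.MP_dd84fd_nt.HX Pool.MP_dd84fd_nt.IX
open Pool.MP_dd84fd_nt.BX (PC pv IsPC PR SX sN prc ind)
open ComplexConjugate

/-- the sieve at one window -/
def SvW (X : ℕ) (Δ : ℝ) (Q1 Q2 : ℕ) (F y : ℝ) (N0 : ℕ) : Prop :=
  ∀ c : ZMod (Nat.gcd Q1 Q2), ∀ Γ : Finset (DirichletCharacter ℂ (Nat.lcm Q1 Q2)),
    Γ.card ≤ N0 → Ineq (Nat.gcd Q1 Q2) Γ → ∀ t : DirichletCharacter ℂ (Nat.lcm Q1 Q2) → ℂ,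
    ∑ p ∈ UP X (Nat.lcm Q1 Q2), wv Δ y (Nat.gcd Q1 Q2) c p *
      ‖∑ χ ∈ Γ, t χ * χ (p : ZMod (Nat.lcm Q1 Q2))‖ ^ 2 ≤
      F * sw X Δ (Nat.gcd Q1 Q2) * ∑ χ ∈ Γ, ‖t χ‖ ^ 2

/-- the mass of the class `c` at the window `y` is close to its expected value -/
def MsW (X : ℕ) (Δ : ℝ) (Q1 Q2 : ℕ) (η y : ℝ) (c : ZMod (Nat.gcd Q1 Q2)) : Prop :=
  |∑ p ∈ UP X (Nat.lcm Q1 Q2), wv Δ y (Nat.gcd Q1 Q2) c p - sw X Δ (Nat.gcd Q1 Q2)| ≤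
      η * sw X Δ (Nat.gcd Q1 Q2)

section

variable {X : ℕ} {Δ : ℝ} {Q1 Q2 : ℕ} {F η y : ℝ} {N0 : ℕ}

/-- the sieve inequality for the products of two families -/
theorem gwin_prod (hw : SvW X Δ Q1 Q2 F y N0) (h1 : 1 ≤ Q1) (h2 : 1 ≤ Q2)
    (E1 : Finset (DirichletCharacter ℂ Q1)) (E2 : Finset (DirichletCharacter ℂ Q2))
    (hE1 : Ineq (Nat.gcd Q1 Q2) E1) (hE2 : Ineq (Nat.gcd Q1 Q2) E2)
    (hN : E1.card * E2.card ≤ N0) (c : ZMod (Nat.gcd Q1 Q2))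
    (t : DirichletCharacter ℂ Q1 → DirichletCharacter ℂ Q2 → ℂ) :
    ∑ p ∈ UP X (Nat.lcm Q1 Q2), wv Δ y (Nat.gcd Q1 Q2) c p *
      ‖∑ χ1 ∈ E1, ∑ χ2 ∈ E2, t χ1 χ2 * χ1 (p : ZMod Q1) * χ2 (p : ZMod Q2)‖ ^ 2 ≤
      F * sw X Δ (Nat.gcd Q1 Q2) * ∑ χ1 ∈ E1, ∑ χ2 ∈ E2, ‖t χ1 χ2‖ ^ 2 :=
  sv_prod h1 h2 E1 E2 hE1 hE2 N0 hN (UP X (Nat.lcm Q1 Q2)) (fun _ hp => up_coprime hp)
    (fun p => wv Δ y (Nat.gcd Q1 Q2) c p) (F * sw X Δ (Nat.gcd Q1 Q2)) (hw c) t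

/-- the mass of the first family -/
theorem gwin_m1 (hw : SvW X Δ Q1 Q2 F y N0) (h1 : 1 ≤ Q1) (h2 : 1 ≤ Q2)
    (hs : 0 < sw X Δ (Nat.gcd Q1 Q2)) (hF : 0 ≤ F) (hη : 0 ≤ η)
    (E1 : Finset (DirichletCharacter ℂ Q1)) (E2 : Finset (DirichletCharacter ℂ Q2))
    (hE1 : Ineq (Nat.gcd Q1 Q2) E1) (hE2 : Ineq (Nat.gcd Q1 Q2) E2) (ho : 1 ∈ E2)
    (hN : E1.card * E2.card ≤ N0) (c : ZMod (Nat.gcd Q1 Q2)) (hm : MsW X Δ Q1 Q2 η y c) :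
    ∑ χ ∈ E1, ‖nu X Δ (Nat.lcm Q1 Q2) (Nat.gcd Q1 Q2) y c χ‖ ^ 2 ≤ F * (1 + η) := by
  classical
  refine cl_d (UP X (Nat.lcm Q1 Q2)) (fun p => wv Δ y (Nat.gcd Q1 Q2) c p)
    (fun p _ => wv_nonneg _ _ _ _ _) (sw X Δ (Nat.gcd Q1 Q2)) F η hs hF hη E1
    (fun χ p => χ (p : ZMod Q1)) ?_ ?_ _ (fun χ _ => rfl)
  · intro t
    have h := gwin_prod hw h1 h2 E1 E2 hE1 hE2 hN c (fun χ1 χ2 => if χ2 = 1 then t χ1 else 0)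
    have e1 : ∀ χ1 ∈ E1, ∑ χ2 ∈ E2, ‖(if χ2 = (1 : DirichletCharacter ℂ Q2) then t χ1 else 0)‖ ^ 2 =
        ‖t χ1‖ ^ 2 := by
      intro χ1 _
      rw [sum_eq_single (1 : DirichletCharacter ℂ Q2)]
      · rw [if_pos rfl]
      · intro b _ hb
        rw [if_neg hb]; simp
      · intro h; exact absurd ho h
    rw [sum_congr rfl e1] at h
    refine le_trans (le_of_eq ?_) h
    refine sum_congr rfl fun p hp => ?_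
    congr 3
    refine sum_congr rfl fun χ1 _ => ?_
    rw [sum_eq_single (1 : DirichletCharacter ℂ Q2)]
    · rw [if_pos rfl, one_val (Nat.dvd_lcm_right Q1 Q2) (up_coprime hp), mul_one]
    · intro b _ hb
      rw [if_neg hb]; simp
    · intro h; exact absurd ho h
  · have h := hm
    unfold MsW at h
    rw [abs_le] at h
    linarith [h.2]

/-- the mass of the second family -/
theorem gwin_m2 (hw : SvW X Δ Q1 Q2 F y N0) (h1 : 1 ≤ Q1) (h2 : 1 ≤ Q2)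
    (hs : 0 < sw X Δ (Nat.gcd Q1 Q2)) (hF : 0 ≤ F) (hη : 0 ≤ η)
    (E1 : Finset (DirichletCharacter ℂ Q1)) (E2 : Finset (DirichletCharacter ℂ Q2))
    (hE1 : Ineq (Nat.gcd Q1 Q2) E1) (hE2 : Ineq (Nat.gcd Q1 Q2) E2) (ho : 1 ∈ E1)
    (hN : E1.card * E2.card ≤ N0) (c : ZMod (Nat.gcd Q1 Q2)) (hm : MsW X Δ Q1 Q2 η y c) :
    ∑ χ ∈ E2, ‖nu X Δ (Nat.lcm Q1 Q2) (Nat.gcd Q1 Q2) y c χ‖ ^ 2 ≤ F * (1 + η) := by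
  classical
  refine cl_d (UP X (Nat.lcm Q1 Q2)) (fun p => wv Δ y (Nat.gcd Q1 Q2) c p)
    (fun p _ => wv_nonneg _ _ _ _ _) (sw X Δ (Nat.gcd Q1 Q2)) F η hs hF hη E2
    (fun χ p => χ (p : ZMod Q2)) ?_ ?_ _ (fun χ _ => rfl)
  · intro t
    have h := gwin_prod hw h1 h2 E1 E2 hE1 hE2 hN c (fun χ1 χ2 => if χ1 = 1 then t χ2 else 0)
    have e1 : ∑ χ1 ∈ E1, ∑ χ2 ∈ E2, ‖(if χ1 = (1 : DirichletCharacter ℂ Q1) then t χ2 else 0)‖ ^ 2 =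
        ∑ χ2 ∈ E2, ‖t χ2‖ ^ 2 := by
      rw [sum_eq_single (1 : DirichletCharacter ℂ Q1)]
      · refine sum_congr rfl fun χ2 _ => ?_
        rw [if_pos rfl]
      · intro b _ hb
        refine sum_eq_zero fun χ2 _ => ?_
        rw [if_neg hb]; simp
      · intro h; exact absurd ho h
    rw [e1] at h
    refine le_trans (le_of_eq ?_) h
    refine sum_congr rfl fun p hp => ?_
    congr 3
    rw [sum_eq_single (1 : DirichletCharacter ℂ Q1)]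
    · refine sum_congr rfl fun χ2 _ => ?_
      rw [if_pos rfl, one_val (Nat.dvd_lcm_left Q1 Q2) (up_coprime hp), mul_one]
    · intro b _ hb
      refine sum_eq_zero fun χ2 _ => ?_
      rw [if_neg hb]; simp
    · intro h; exact absurd ho h
  · have h := hm
    unfold MsW at h
    rw [abs_le] at h
    linarith [h.2]

/-- the principal coefficient -/
theorem gnu_one {Q : ℕ} (hQ : Q ∣ Nat.lcm Q1 Q2)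
    (hs : 0 < sw X Δ (Nat.gcd Q1 Q2)) (c : ZMod (Nat.gcd Q1 Q2)) (hm : MsW X Δ Q1 Q2 η y c) :
    1 - η ≤ (nu X Δ (Nat.lcm Q1 Q2) (Nat.gcd Q1 Q2) y c (1 : DirichletCharacter ℂ Q)).re := by
  have e : nu X Δ (Nat.lcm Q1 Q2) (Nat.gcd Q1 Q2) y c (1 : DirichletCharacter ℂ Q) =
      (((1 / sw X Δ (Nat.gcd Q1 Q2)) * ∑ p ∈ UP X (Nat.lcm Q1 Q2),
        wv Δ y (Nat.gcd Q1 Q2) c p : ℝ) : ℂ) := by
    unfold nu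
    push_cast
    congr 1
    refine sum_congr rfl fun p hp => ?_
    rw [one_val hQ (up_coprime hp), mul_one]
  rw [e, Complex.ofReal_re]
  have h := hm
  unfold MsW at h
  rw [abs_le] at h
  rw [one_div, inv_mul_eq_div, le_div_iff₀ hs]
  linarith [h.1]

end

section

variable {X : ℕ} {Δ : ℝ} {Q1 Q2 : ℕ} {F η : ℝ} {N0 : ℕ}

/-- (A) the second family at a vertex which has a partner by the first number -/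
theorem gstep_a (hX : 3 ≤ X) (hΔ : 0 < Δ) {y y' : ℝ} (hw : SvW X Δ Q1 Q2 F y N0)
    (hw' : SvW X Δ Q1 Q2 F y' N0) (h1 : 1 ≤ Q1) (h2 : 1 ≤ Q2)
    (hs : 0 < sw X Δ (Nat.gcd Q1 Q2)) (hF1 : 1 ≤ F) (hF3 : F ≤ 3) (hη0 : 0 ≤ η)
    (hη : η ≤ 1 / 10)
    (E1 : Finset (DirichletCharacter ℂ Q1)) (E2 : Finset (DirichletCharacter ℂ Q2))
    (hE1 : Ineq (Nat.gcd Q1 Q2) E1) (hE2 : Ineq (Nat.gcd Q1 Q2) E2) (ho1 : 1 ∈ E1) (ho2 : 1 ∈ E2)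
    (hN : E1.card * E2.card ≤ N0) {n : ℕ} (hn : Q1 ∣ n * Nat.gcd Q1 Q2)
    (c : ZMod (Nat.gcd Q1 Q2)) (hc : IsUnit c) (hc' : IsUnit ((n : ZMod (Nat.gcd Q1 Q2)) - c))
    (hm : MsW X Δ Q1 Q2 η y c) (hm' : MsW X Δ Q1 Q2 η y' ((n : ZMod (Nat.gcd Q1 Q2)) - c))
    (M : ℝ) (hM : Real.sqrt (4 * (E2.card : ℝ)) ≤ M) (hM0 : 0 < M)
    (hRC : RC X Δ (Nat.lcm Q1 Q2) (Nat.gcd Q1 Q2) Q1 n y y' c ≤ η / (2 * M))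
    (hD : DD X Δ (Nat.lcm Q1 Q2) (Nat.gcd Q1 Q2) Q1 E1 y c ≤ 1)
    (hD' : DD X Δ (Nat.lcm Q1 Q2) (Nat.gcd Q1 Q2) Q1 E1 y' ((n : ZMod (Nat.gcd Q1 Q2)) - c) ≤
      (η / (2 * M)) ^ 2 / 5) :
    ∑ χ ∈ E2, ‖nu X Δ (Nat.lcm Q1 Q2) (Nat.gcd Q1 Q2) y c χ‖ ^ 2 ≤ F - 1 + 8 * η := by
  classical
  have hR : 1 ≤ Nat.lcm Q1 Q2 := Nat.lcm_pos h1 h2
  have hW1 : Nat.gcd Q1 Q2 ∣ Q1 := Nat.gcd_dvd_left _ _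
  have hQR1 : Q1 ∣ Nat.lcm Q1 Q2 := Nat.dvd_lcm_left _ _
  choose θ hθ1 hθo hθ using refl_ex h1 hW1 hn c hc'
  have hF0 : 0 ≤ F := by linarith
  have m1' := gwin_m1 hw' h1 h2 hs hF0 hη0 E1 E2 hE1 hE2 ho2 hN _ hm'
  have m1 := gwin_m1 hw h1 h2 hs hF0 hη0 E1 E2 hE1 hE2 ho2 hN _ hm
  have m2 := gwin_m2 hw h1 h2 hs hF0 hη0 E1 E2 hE1 hE2 ho1 hN _ hm
  have hF4 : F * (1 + η) ≤ 4 := by nlinarith
  have hmass : ∑ p ∈ UP X (Nat.lcm Q1 Q2), wv Δ y (Nat.gcd Q1 Q2) c p ≤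
      (1 + η) * sw X Δ (Nat.gcd Q1 Q2) := by
    have h := hm
    unfold MsW at h
    rw [abs_le] at h
    linarith [h.2]
  refine cl_a (UP X (Nat.lcm Q1 Q2)) (fun p => wv Δ y (Nat.gcd Q1 Q2) c p)
    (fun p _ => wv_nonneg _ _ _ _ _) (sw X Δ (Nat.gcd Q1 Q2)) F η hs hF1 hF3 hη0 hη E1 E2
    (fun χ p => χ (p : ZMod Q1)) (fun χ p => χ (p : ZMod Q2)) 1 ho1
    (fun p hp => one_val hQR1 (up_coprime hp)) (gwin_prod hw h1 h2 E1 E2 hE1 hE2 hN c) hmass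
    (fun χ => conj (nu X Δ (Nat.lcm Q1 Q2) (Nat.gcd Q1 Q2) y'
      ((n : ZMod (Nat.gcd Q1 Q2)) - c) χ) * θ χ) ?_ ?_
    (fun χ => nu X Δ (Nat.lcm Q1 Q2) (Nat.gcd Q1 Q2) y c χ) (fun χ _ => rfl) ?_
  · rw [hθo 1 rfl, mul_one, Complex.conj_re]
    exact gnu_one hQR1 hs _ hm'
  · refine le_trans (le_of_eq ?_) m1'
    refine sum_congr rfl fun χ _ => ?_
    rw [norm_mul, hθ1, mul_one, RCLike.norm_conj]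
  · -- the error
    have hB : ∀ p ∈ UP X (Nat.lcm Q1 Q2), ‖∑ χ ∈ E2,
        conj (nu X Δ (Nat.lcm Q1 Q2) (Nat.gcd Q1 Q2) y c χ) * χ (p : ZMod Q2)‖ ≤ M := by
      intro p _
      refine le_trans ?_ hM
      have e1 : ‖∑ χ ∈ E2, conj (nu X Δ (Nat.lcm Q1 Q2) (Nat.gcd Q1 Q2) y c χ) *
          χ (p : ZMod Q2)‖ ≤ ∑ χ ∈ E2, 1 * ‖nu X Δ (Nat.lcm Q1 Q2) (Nat.gcd Q1 Q2) y c χ‖ := by
        refine (norm_sum_le _ _).trans (sum_le_sum fun χ _ => ?_)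
        rw [norm_mul, RCLike.norm_conj, one_mul]
        exact mul_le_of_le_one_right (norm_nonneg _) (DirichletCharacter.norm_le_one _ _)
      refine e1.trans ((Real.le_sqrt (sum_nonneg fun _ _ => by positivity) (by positivity)).2 ?_)
      refine (sum_mul_sq_le_sq_mul_sq E2 (fun _ => (1 : ℝ))
        (fun χ => ‖nu X Δ (Nat.lcm Q1 Q2) (Nat.gcd Q1 Q2) y c χ‖)).trans ?_
      rw [one_pow, sum_const, nsmul_eq_mul, mul_one]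
      nlinarith [m2, (Nat.cast_nonneg E2.card : (0 : ℝ) ≤ E2.card)]
    have k := h3 X hX Δ hΔ hR hW1 hQR1 hn y y' c hc hc' E1 hE1
      (fun p => ∑ χ ∈ E2, conj (nu X Δ (Nat.lcm Q1 Q2) (Nat.gcd Q1 Q2) y c χ) *
        χ (p : ZMod Q2)) M hB
    have k2 : ∑ p ∈ UP X (Nat.lcm Q1 Q2), ((wv Δ y (Nat.gcd Q1 Q2) c p : ℝ) : ℂ) *
        (∑ χ ∈ E1, conj (nu X Δ (Nat.lcm Q1 Q2) (Nat.gcd Q1 Q2) y'
          ((n : ZMod (Nat.gcd Q1 Q2)) - c) χ) * θ χ * χ (p : ZMod Q1)) *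
        (∑ χ ∈ E2, conj (nu X Δ (Nat.lcm Q1 Q2) (Nat.gcd Q1 Q2) y c χ) * χ (p : ZMod Q2)) =
        ∑ p ∈ UP X (Nat.lcm Q1 Q2), ((wv Δ y (Nat.gcd Q1 Q2) c p : ℝ) : ℂ) *
        conj (∑ χ ∈ E1, nu X Δ (Nat.lcm Q1 Q2) (Nat.gcd Q1 Q2) y'
          ((n : ZMod (Nat.gcd Q1 Q2)) - c) χ * conj (χ ((n : ZMod Q1) - p))) *
        (∑ χ ∈ E2, conj (nu X Δ (Nat.lcm Q1 Q2) (Nat.gcd Q1 Q2) y c χ) * χ (p : ZMod Q2)) := by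
      refine sum_congr rfl fun p hp => ?_
      by_cases hpc : (p : ZMod (Nat.gcd Q1 Q2)) = c
      · rw [proj_eq hQR1 c E1 θ hθ _ p (up_coprime hp) hpc]
      · have : wv Δ y (Nat.gcd Q1 Q2) c p = 0 := by unfold wv; rw [if_neg hpc]
        rw [this]; simp
    rw [k2]
    refine k.trans ?_
    have k3 : Real.sqrt ((∑ χ ∈ E1, ‖nu X Δ (Nat.lcm Q1 Q2) (Nat.gcd Q1 Q2) y c χ‖ ^ 2 +
        DD X Δ (Nat.lcm Q1 Q2) (Nat.gcd Q1 Q2) Q1 E1 y c) *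
        DD X Δ (Nat.lcm Q1 Q2) (Nat.gcd Q1 Q2) Q1 E1 y'
          ((n : ZMod (Nat.gcd Q1 Q2)) - c)) ≤ η / (2 * M) := by
      rw [Real.sqrt_le_left (by positivity)]
      have a1 := DD_nonneg X Δ (Nat.lcm Q1 Q2) (Nat.gcd Q1 Q2) Q1 E1 y'
        ((n : ZMod (Nat.gcd Q1 Q2)) - c)
      have a2 : ∑ χ ∈ E1, ‖nu X Δ (Nat.lcm Q1 Q2) (Nat.gcd Q1 Q2) y c χ‖ ^ 2 +
        DD X Δ (Nat.lcm Q1 Q2) (Nat.gcd Q1 Q2) Q1 E1 y c ≤ 5 := by linarith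
      calc _ ≤ 5 * ((η / (2 * M)) ^ 2 / 5) := mul_le_mul a2 hD' a1 (by norm_num)
        _ = _ := by ring
    have k4 : RC X Δ (Nat.lcm Q1 Q2) (Nat.gcd Q1 Q2) Q1 n y y' c + Real.sqrt ((∑ χ ∈ E1,
        ‖nu X Δ (Nat.lcm Q1 Q2) (Nat.gcd Q1 Q2) y c χ‖ ^ 2 +
        DD X Δ (Nat.lcm Q1 Q2) (Nat.gcd Q1 Q2) Q1 E1 y c) *
        DD X Δ (Nat.lcm Q1 Q2) (Nat.gcd Q1 Q2) Q1 E1 y'
          ((n : ZMod (Nat.gcd Q1 Q2)) - c)) ≤ η / M := by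
      have e : η / M = η / (2 * M) + η / (2 * M) := by field_simp; ring
      rw [e]; exact add_le_add hRC k3
    calc _ ≤ M * (sw X Δ (Nat.gcd Q1 Q2) * (η / M)) :=
          mul_le_mul_of_nonneg_left (mul_le_mul_of_nonneg_left k4 hs.le) hM0.le
      _ = η * sw X Δ (Nat.gcd Q1 Q2) := by field_simp

/-- the core at one window -/
theorem gcore_pt (hX : 3 ≤ X) (hΔ : 0 < Δ) {y y' : ℝ} (hw : SvW X Δ Q1 Q2 F y N0)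
    (hw' : SvW X Δ Q1 Q2 F y' N0) (h1 : 1 ≤ Q1) (h2 : 1 ≤ Q2)
    (hs : 0 < sw X Δ (Nat.gcd Q1 Q2)) (hF1 : 1 ≤ F) (hη0 : 0 ≤ η)
    (hη : η ≤ 1 / 10) (hF : F + 13 * η < 3)
    (E1 : Finset (DirichletCharacter ℂ Q1)) (E2 : Finset (DirichletCharacter ℂ Q2))
    (hE1 : Ineq (Nat.gcd Q1 Q2) E1) (hE2 : Ineq (Nat.gcd Q1 Q2) E2) (ho1 : 1 ∈ E1) (ho2 : 1 ∈ E2)
    (hN : E1.card * E2.card ≤ N0) {n n' : ℕ} (hn : Q1 ∣ n * Nat.gcd Q1 Q2)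
    (hn' : Q2 ∣ n' * Nat.gcd Q1 Q2)
    (c : ZMod (Nat.gcd Q1 Q2)) (hc : IsUnit c) (hc0 : IsUnit ((n : ZMod (Nat.gcd Q1 Q2)) - c))
    (hc2 : IsUnit ((n' : ZMod (Nat.gcd Q1 Q2)) - c))
    (hc3 : IsUnit ((n : ZMod (Nat.gcd Q1 Q2)) - ((n' : ZMod (Nat.gcd Q1 Q2)) - c)))
    (hm : MsW X Δ Q1 Q2 η y c) (hm0 : MsW X Δ Q1 Q2 η y' ((n : ZMod (Nat.gcd Q1 Q2)) - c))
    (hm2 : MsW X Δ Q1 Q2 η y' ((n' : ZMod (Nat.gcd Q1 Q2)) - c))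
    (hm3 : MsW X Δ Q1 Q2 η y
      ((n : ZMod (Nat.gcd Q1 Q2)) - ((n' : ZMod (Nat.gcd Q1 Q2)) - c)))
    (M : ℝ) (hM : Real.sqrt (4 * (E2.card : ℝ)) ≤ M) (hM0 : 0 < M)
    (hRC1 : RC X Δ (Nat.lcm Q1 Q2) (Nat.gcd Q1 Q2) Q1 n y y' c ≤ η / (2 * M))
    (hRC3 : RC X Δ (Nat.lcm Q1 Q2) (Nat.gcd Q1 Q2) Q1 n y y'
      ((n : ZMod (Nat.gcd Q1 Q2)) - ((n' : ZMod (Nat.gcd Q1 Q2)) - c)) ≤ η / (2 * M))
    (hRC2 : RC X Δ (Nat.lcm Q1 Q2) (Nat.gcd Q1 Q2) Q2 n' y y' c ≤ η / 2)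
    (hD1 : DD X Δ (Nat.lcm Q1 Q2) (Nat.gcd Q1 Q2) Q1 E1 y c ≤ 1)
    (hD0 : DD X Δ (Nat.lcm Q1 Q2) (Nat.gcd Q1 Q2) Q1 E1 y' ((n : ZMod (Nat.gcd Q1 Q2)) - c) ≤
      (η / (2 * M)) ^ 2 / 5)
    (hD2 : DD X Δ (Nat.lcm Q1 Q2) (Nat.gcd Q1 Q2) Q1 E1 y' ((n' : ZMod (Nat.gcd Q1 Q2)) - c) ≤ 1)
    (hD3 : DD X Δ (Nat.lcm Q1 Q2) (Nat.gcd Q1 Q2) Q1 E1 y
      ((n : ZMod (Nat.gcd Q1 Q2)) - ((n' : ZMod (Nat.gcd Q1 Q2)) - c)) ≤ (η / (2 * M)) ^ 2 / 5)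
    (hG1 : DD X Δ (Nat.lcm Q1 Q2) (Nat.gcd Q1 Q2) Q2 E2 y c ≤ 1)
    (hG2 : DD X Δ (Nat.lcm Q1 Q2) (Nat.gcd Q1 Q2) Q2 E2 y' ((n' : ZMod (Nat.gcd Q1 Q2)) - c) ≤
      η ^ 2 / 20) : False := by
  classical
  have hF3 : F ≤ 3 := by linarith
  have hF0 : 0 ≤ F := by linarith
  have hR : 1 ≤ Nat.lcm Q1 Q2 := Nat.lcm_pos h1 h2
  have hW1 : Nat.gcd Q1 Q2 ∣ Q1 := Nat.gcd_dvd_left _ _
  have hW2 : Nat.gcd Q1 Q2 ∣ Q2 := Nat.gcd_dvd_right _ _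
  have hQR2 : Q2 ∣ Nat.lcm Q1 Q2 := Nat.dvd_lcm_right _ _
  have a1 := gstep_a hX hΔ hw hw' h1 h2 hs hF1 hF3 hη0 hη E1 E2 hE1 hE2 ho1 ho2 hN hn c hc hc0 hm hm0 M hM
    hM0 hRC1 hD1 hD0
  have hRC3' : RC X Δ (Nat.lcm Q1 Q2) (Nat.gcd Q1 Q2) Q1 n y' y
      ((n' : ZMod (Nat.gcd Q1 Q2)) - c) ≤ η / (2 * M) := by
    rw [RC_symm X Δ hW1]
    exact hRC3
  have a2 := gstep_a hX hΔ hw' hw h1 h2 hs hF1 hF3 hη0 hη E1 E2 hE1 hE2 ho1 ho2 hN hn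
    ((n' : ZMod (Nat.gcd Q1 Q2)) - c) hc2 hc3 hm2 hm3 M hM hM0 hRC3' hD2 hD3
  choose θ hθ1 hθo hθ using refl_ex h2 hW2 hn' c hc2
  have m2 := gwin_m2 hw h1 h2 hs hF0 hη0 E1 E2 hE1 hE2 ho1 hN _ hm
  have hF4 : F * (1 + η) ≤ 4 := by nlinarith
  have k := h3 X hX Δ hΔ hR hW2 hQR2 hn' y y' c hc hc2 E2 hE2 (fun _ => 1) 1
    (fun p _ => by simp)
  have k2 : ∑ p ∈ UP X (Nat.lcm Q1 Q2), ((wv Δ y (Nat.gcd Q1 Q2) c p : ℝ) : ℂ) *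
      conj (∑ χ ∈ E2, nu X Δ (Nat.lcm Q1 Q2) (Nat.gcd Q1 Q2) y'
        ((n' : ZMod (Nat.gcd Q1 Q2)) - c) χ * conj (χ ((n' : ZMod Q2) - p))) * 1 =
      (sw X Δ (Nat.gcd Q1 Q2) : ℂ) * ∑ χ ∈ E2, conj (nu X Δ (Nat.lcm Q1 Q2) (Nat.gcd Q1 Q2) y'
        ((n' : ZMod (Nat.gcd Q1 Q2)) - c) χ) * θ χ *
        nu X Δ (Nat.lcm Q1 Q2) (Nat.gcd Q1 Q2) y c χ := by
    have hsc : (sw X Δ (Nat.gcd Q1 Q2) : ℂ) ≠ 0 := by exact_mod_cast hs.ne'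
    have e1 : ∀ p ∈ UP X (Nat.lcm Q1 Q2), ((wv Δ y (Nat.gcd Q1 Q2) c p : ℝ) : ℂ) *
      conj (∑ χ ∈ E2, nu X Δ (Nat.lcm Q1 Q2) (Nat.gcd Q1 Q2) y'
        ((n' : ZMod (Nat.gcd Q1 Q2)) - c) χ * conj (χ ((n' : ZMod Q2) - p))) * 1 =
        ∑ χ ∈ E2, ((wv Δ y (Nat.gcd Q1 Q2) c p : ℝ) : ℂ) *
          (conj (nu X Δ (Nat.lcm Q1 Q2) (Nat.gcd Q1 Q2) y'
        ((n' : ZMod (Nat.gcd Q1 Q2)) - c) χ) * θ χ * χ (p : ZMod Q2)) := by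
      intro p hp
      rw [← mul_sum, mul_one]
      by_cases hpc : (p : ZMod (Nat.gcd Q1 Q2)) = c
      · rw [proj_eq hQR2 c E2 θ hθ _ p (up_coprime hp) hpc]
      · have : wv Δ y (Nat.gcd Q1 Q2) c p = 0 := by unfold wv; rw [if_neg hpc]
        rw [this]; simp
    rw [sum_congr rfl e1, sum_comm, mul_sum]
    refine sum_congr rfl fun χ _ => ?_
    have e3 : (sw X Δ (Nat.gcd Q1 Q2) : ℂ) * nu X Δ (Nat.lcm Q1 Q2) (Nat.gcd Q1 Q2) y c χ =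
        ∑ p ∈ UP X (Nat.lcm Q1 Q2), ((wv Δ y (Nat.gcd Q1 Q2) c p : ℝ) : ℂ) *
          χ (p : ZMod Q2) := by
      unfold nu
      rw [← mul_assoc, mul_one_div, div_self hsc, one_mul]
    rw [mul_left_comm, e3, mul_sum]
    refine sum_congr rfl fun p _ => ?_
    ring
  rw [k2, norm_mul, Complex.norm_real, Real.norm_of_nonneg hs.le, one_mul] at k
  have k5 := le_of_mul_le_mul_left k hs
  have k3 : Real.sqrt ((∑ χ ∈ E2, ‖nu X Δ (Nat.lcm Q1 Q2) (Nat.gcd Q1 Q2) y c χ‖ ^ 2 +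
      DD X Δ (Nat.lcm Q1 Q2) (Nat.gcd Q1 Q2) Q2 E2 y c) *
      DD X Δ (Nat.lcm Q1 Q2) (Nat.gcd Q1 Q2) Q2 E2 y'
        ((n' : ZMod (Nat.gcd Q1 Q2)) - c)) ≤ η / 2 := by
    rw [Real.sqrt_le_left (by positivity)]
    have a1 := DD_nonneg X Δ (Nat.lcm Q1 Q2) (Nat.gcd Q1 Q2) Q2 E2 y'
      ((n' : ZMod (Nat.gcd Q1 Q2)) - c)
    have a2 : ∑ χ ∈ E2, ‖nu X Δ (Nat.lcm Q1 Q2) (Nat.gcd Q1 Q2) y c χ‖ ^ 2 +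
      DD X Δ (Nat.lcm Q1 Q2) (Nat.gcd Q1 Q2) Q2 E2 y c ≤ 5 := by linarith
    calc _ ≤ 5 * (η ^ 2 / 20) := mul_le_mul a2 hG2 a1 (by norm_num)
      _ = _ := by ring
  have k6 : ‖∑ χ ∈ E2, conj (nu X Δ (Nat.lcm Q1 Q2) (Nat.gcd Q1 Q2) y'
        ((n' : ZMod (Nat.gcd Q1 Q2)) - c) χ) * θ χ *
        nu X Δ (Nat.lcm Q1 Q2) (Nat.gcd Q1 Q2) y c χ‖ ≤ η := by
    linarith
  have n1 : 1 - η ≤ ‖nu X Δ (Nat.lcm Q1 Q2) (Nat.gcd Q1 Q2) y c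
      (1 : DirichletCharacter ℂ Q2)‖ :=
    (gnu_one hQR2 hs _ hm).trans (Complex.re_le_norm _)
  have n2 : 1 - η ≤ ‖nu X Δ (Nat.lcm Q1 Q2) (Nat.gcd Q1 Q2) y'
      ((n' : ZMod (Nat.gcd Q1 Q2)) - c) (1 : DirichletCharacter ℂ Q2)‖ :=
    (gnu_one hQR2 hs _ hm2).trans (Complex.re_le_norm _)
  have fin := cl_b E2 1 ho2 _ _ θ (fun χ _ => hθ1 χ) F η hη0 hη a1 a2 n1 n2 k6
  linarith

end

end Pool.MP_dd84fd_nt.TC
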