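import Pool.Agent.Lib.MP_dd84fd_nt.TC.Fin
import Pool.Agent.Lib.MP_dd84fd_nt.En.Sing

/-!
# G6-Gap: consequences of the theorem for windows of length `(log X)^K` (helper39)

Two failures `m < m'` of a window satisfy `m m' ≡ 2 (mod 3)`, so their residues modulo 3 are `1` and `2`;
hence there are at most two failures in a window, and one of `n`, `n + 2`, `n + 4` is not a failure.
With `n = N - 7`: almost all odd numbers `N` are sums of three primes, one of them `3`, `5` or `7`.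
-/

set_option autoImplicit false

namespace Pool.MP_dd84fd_nt.TC

open Finset Pool.MP_67663b_nt.Odd Pool.MP_dd84fd_nt.En Pool.MP_dd84fd_nt.E2 Pool.MP_dd84fd_nt.LS
open Pool.MP_dd84fd_nt.GX Pool.MP_dd84fd_nt.HX Pool.MP_dd84fd_nt.IX

theorem gap_mod {m m' : ℕ} (h : m * m' % 3 = 2) :
    (m % 3 = 1 ∧ m' % 3 = 2) ∨ (m % 3 = 2 ∧ m' % 3 = 1) := by
  have hmm3 : m * m' % 3 = (m % 3) * (m' % 3) % 3 := Nat.mul_mod m m' 3
  have r1 : m % 3 = 0 ∨ m % 3 = 1 ∨ m % 3 = 2 := by omega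
  have r2 : m' % 3 = 0 ∨ m' % 3 = 1 ∨ m' % 3 = 2 := by omega
  rcases r1 with r1 | r1 | r1 <;> rcases r2 with r2 | r2 | r2 <;> rw [r1, r2] at hmm3 ⊢ <;>
    omega

open Classical in
/-- windows of length `(log X)^K` -/
theorem gap (h : FinT) (ε : ℝ) (hε : 0 < ε) : ∃ δ : ℝ, 0 < δ ∧ ∀ K : ℕ, ∃ X0 : ℕ, ∀ X : ℕ,
    X0 ≤ X → ∃ E : Finset ℕ, (E.card : ℝ) ≤ (X : ℝ) ^ (1 / 3 + ε) ∧
      ∀ n : ℕ, 1 ≤ n → n ≤ X → n ∉ E →
        (∀ m m' : ℕ, n ≤ m → m < m' → (m' : ℝ) ≤ n + (Real.log X) ^ K → Bd δ m → Bd δ m' →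
          m * m' % 3 = 2) ∧
        ((Icc n (n + ⌊(Real.log X) ^ K⌋₊)).filter (fun m => Bd δ m)).card ≤ 2 ∧
        (Even n → ∃ m : ℕ, (m = n ∨ m = n + 2 ∨ m = n + 4) ∧ δ * (SS m * JJ m) < g m) := by
  obtain ⟨δ, hδ, h⟩ := h ε hε
  refine ⟨δ, hδ, fun K => ?_⟩
  obtain ⟨X1, h⟩ := h (K + 1)
  obtain ⟨X2, h2⟩ := g6_log_ge 4
  refine ⟨max X1 X2, fun X hX => ?_⟩
  have h1 := h X (le_trans (le_max_left _ _) hX)
  have hL := h2 X (le_trans (le_max_right _ _) hX)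
  have hL0 : 0 ≤ Real.log X := by linarith
  have hK : (Real.log X) ^ K ≤ (Real.log X) ^ (K + 1) :=
    pow_le_pow_right₀ (by linarith) (Nat.le_succ K)
  have hK1 : 4 ≤ (Real.log X) ^ (K + 1) := by
    have h3 : (1 : ℝ) ≤ (Real.log X) ^ K := one_le_pow₀ (by linarith)
    rw [pow_succ]
    nlinarith
  refine ⟨_, h1, fun n hn1 hnX hnE => ?_⟩
  have key : ∀ m m' : ℕ, n ≤ m → m < m' → (m' : ℝ) ≤ n + (Real.log X) ^ (K + 1) → Bd δ m →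
      Bd δ m' → m * m' % 3 = 2 := by
    intro m m' a b c d e
    by_contra hcon
    exact hnE (mem_filter.2 ⟨mem_Icc.2 ⟨hn1, hnX⟩, m, m', a, b, c, d, e, hcon⟩)
  have key2 : ∀ m m' : ℕ, n ≤ m → m < m' → (m' : ℝ) ≤ n + (Real.log X) ^ (K + 1) → Bd δ m →
      Bd δ m' → (m % 3 = 1 ∧ m' % 3 = 2) ∨ (m % 3 = 2 ∧ m' % 3 = 1) :=
    fun m m' a b c d e => gap_mod (key m m' a b c d e)
  refine ⟨fun m m' a b c d e => key m m' a b (by linarith) d e, ?_, ?_⟩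
  · by_contra hcon
    push Not at hcon
    obtain ⟨a, ha, b, hb, c, hc, hab, hac, hbc⟩ := two_lt_card.1 hcon
    have hr : ∀ m : ℕ, m ≤ n + ⌊(Real.log X) ^ K⌋₊ → (m : ℝ) ≤ n + (Real.log X) ^ (K + 1) := by
      intro m hm
      have h4 : (m : ℝ) ≤ n + ⌊(Real.log X) ^ K⌋₊ := by exact_mod_cast hm
      have h5 : ((⌊(Real.log X) ^ K⌋₊ : ℕ) : ℝ) ≤ (Real.log X) ^ K :=
        Nat.floor_le (by positivity)
      linarith
    have two : ∀ x y : ℕ, x ∈ (Icc n (n + ⌊(Real.log X) ^ K⌋₊)).filter (fun m => Bd δ m) →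
        y ∈ (Icc n (n + ⌊(Real.log X) ^ K⌋₊)).filter (fun m => Bd δ m) → x ≠ y →
        (x % 3 = 1 ∧ y % 3 = 2) ∨ (x % 3 = 2 ∧ y % 3 = 1) := by
      intro x y hx hy hxy
      rw [mem_filter, mem_Icc] at hx hy
      rcases lt_or_gt_of_ne hxy with hlt | hlt
      · exact key2 x y hx.1.1 hlt (hr y hy.1.2) hx.2 hy.2
      · rcases key2 y x hy.1.1 hlt (hr x hx.1.2) hy.2 hx.2 with k | k
        · exact Or.inr ⟨k.2, k.1⟩
        · exact Or.inl ⟨k.2, k.1⟩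
    have t1 := two a b ha hb hab
    have t2 := two a c ha hc hac
    have t3 := two b c hb hc hbc
    omega
  · intro hev
    by_contra hcon
    push Not at hcon
    have f0 : Bd δ n := ⟨hev, hcon n (Or.inl rfl)⟩
    have f2 : Bd δ (n + 2) := ⟨by
      obtain ⟨k, hk⟩ := hev
      exact ⟨k + 1, by omega⟩, hcon (n + 2) (Or.inr (Or.inl rfl))⟩
    have f4 : Bd δ (n + 4) := ⟨by
      obtain ⟨k, hk⟩ := hev
      exact ⟨k + 2, by omega⟩, hcon (n + 4) (Or.inr (Or.inr rfl))⟩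
    have t1 := key2 n (n + 2) le_rfl (by omega) (by push_cast; linarith) f0 f2
    have t2 := key2 n (n + 4) le_rfl (by omega) (by push_cast; linarith) f0 f4
    have t3 := key2 (n + 2) (n + 4) (by omega) (by omega) (by push_cast; linarith) f2 f4
    omega

private theorem SJ_nonneg (n : ℕ) : 0 ≤ SS n * JJ n := by
  have s1 : 2 * Pool.MP_dd84fd_nt.En.C2 ≤ SS n := SS_ge n
  have s2 : 0 < Pool.MP_dd84fd_nt.En.C2 := C2_pos
  have s3 : 0 ≤ JJ n := by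
    unfold JJ
    refine Finset.sum_nonneg fun m _ => ?_
    exact div_nonneg zero_le_one
      (mul_nonneg (Real.log_natCast_nonneg _) (Real.log_natCast_nonneg _))
  exact mul_nonneg (by linarith) s3

/-- a number with representations is a sum of two primes -/
theorem g_pos {m : ℕ} {δ : ℝ} (hδ : 0 < δ) (h : δ * (SS m * JJ m) < g m) :
    ∃ p q : ℕ, p.Prime ∧ q.Prime ∧ p + q = m := by
  have h1 : (0 : ℝ) < g m := lt_of_le_of_lt (mul_nonneg hδ.le (SJ_nonneg m)) h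
  have h2 : 0 < g m := by exact_mod_cast h1
  unfold g at h2
  obtain ⟨p, hp⟩ := card_pos.1 h2
  rw [mem_filter, mem_range] at hp
  exact ⟨p, m - p, hp.2.1, hp.2.2, by omega⟩

open Classical in
/-- all consequences -/
theorem gap_all (h : FinT) (ε : ℝ) (hε : 0 < ε) : ∃ δ : ℝ, 0 < δ ∧ ∀ K : ℕ, ∃ X0 : ℕ, ∀ X : ℕ,
    X0 ≤ X → (∃ E : Finset ℕ, (E.card : ℝ) ≤ (X : ℝ) ^ (1 / 3 + ε) ∧
      ∀ n : ℕ, 1 ≤ n → n ≤ X → n ∉ E →
        (∀ m m' : ℕ, n ≤ m → m < m' → (m' : ℝ) ≤ n + (Real.log X) ^ K → Bd δ m → Bd δ m' →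
          m * m' % 3 = 2) ∧
        ((Icc n (n + ⌊(Real.log X) ^ K⌋₊)).filter (fun m => Bd δ m)).card ≤ 2 ∧
        (Even n → ∃ m : ℕ, (m = n ∨ m = n + 2 ∨ m = n + 4) ∧ δ * (SS m * JJ m) < g m)) ∧
      (((Icc 1 X).filter (fun N : ℕ => Odd N ∧ ¬ ∃ p₁ p₂ p₃ : ℕ, p₁.Prime ∧ p₂.Prime ∧
        (p₃ = 3 ∨ p₃ = 5 ∨ p₃ = 7) ∧ p₁ + p₂ + p₃ = N)).card : ℝ) ≤ (X : ℝ) ^ (1 / 3 + ε) := by
  obtain ⟨δ, hδ, h⟩ := gap h (ε / 2) (by positivity)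
  refine ⟨δ, hδ, fun K => ?_⟩
  obtain ⟨X1, h⟩ := h K
  obtain ⟨X2, h2⟩ := g6_log_ge 1
  obtain ⟨X3, h3⟩ := g6_pow_log_le 0 2 (ε / 2) (by positivity)
  obtain ⟨X4, h4⟩ := g6_pow_log_le 0 8 (1 / 3) (by norm_num)
  refine ⟨max (max X1 X2) (max X3 X4), fun X hX => ?_⟩
  simp only [max_le_iff] at hX
  obtain ⟨⟨x1, x2⟩, x3, x4⟩ := hX
  obtain ⟨E, hE, h⟩ := h X x1
  have hL := h2 X x2
  have h3 := h3 X x3
  have h4 := h4 X x4
  rw [pow_zero, mul_one] at h3 h4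
  have hX1 : (1 : ℝ) ≤ X := by
    by_contra hcon
    push Not at hcon
    have : Real.log X ≤ 0 := Real.log_nonpos (Nat.cast_nonneg X) hcon.le
    linarith
  have hX0 : (0 : ℝ) < X := by linarith
  have hmul : (X : ℝ) ^ (1 / 3 + ε) = (X : ℝ) ^ (1 / 3 + ε / 2) * (X : ℝ) ^ (ε / 2) := by
    rw [← Real.rpow_add hX0]
    congr 1
    ring
  have hge : (X : ℝ) ^ (1 / 3 : ℝ) ≤ (X : ℝ) ^ (1 / 3 + ε / 2) :=
    Real.rpow_le_rpow_of_exponent_le hX1 (by linarith)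
  have hpos : (0 : ℝ) ≤ (X : ℝ) ^ (1 / 3 + ε / 2) := by positivity
  have hbig : (X : ℝ) ^ (1 / 3 + ε / 2) + 8 ≤ (X : ℝ) ^ (1 / 3 + ε) := by
    rw [hmul]
    nlinarith
  refine ⟨⟨E, by linarith, h⟩, ?_⟩
  have hsub : (Icc 1 X).filter (fun N : ℕ => Odd N ∧ ¬ ∃ p₁ p₂ p₃ : ℕ, p₁.Prime ∧ p₂.Prime ∧
        (p₃ = 3 ∨ p₃ = 5 ∨ p₃ = 7) ∧ p₁ + p₂ + p₃ = N) ⊆ E.image (fun e => e + 7) ∪ Icc 1 8 := by
    intro N hN
    rw [mem_filter, mem_Icc] at hN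
    obtain ⟨⟨hN1, hN2⟩, hodd, hno⟩ := hN
    by_cases h8 : N ≤ 8
    · exact mem_union_right _ (mem_Icc.2 ⟨hN1, h8⟩)
    · apply mem_union_left
      rw [mem_image]
      refine ⟨N - 7, ?_, by omega⟩
      by_contra hNE
      apply hno
      have hev : Even (N - 7) := by
        obtain ⟨k, hk⟩ := hodd
        exact ⟨k - 3, by omega⟩
      obtain ⟨m, hm, hg⟩ := (h (N - 7) (by omega) (by omega) hNE).2.2 hev
      obtain ⟨p, q, hp, hq, hpq⟩ := g_pos hδ hg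
      refine ⟨p, q, N - m, hp, hq, ?_, ?_⟩
      · omega
      · omega
  have hc : (((Icc 1 X).filter (fun N : ℕ => Odd N ∧ ¬ ∃ p₁ p₂ p₃ : ℕ, p₁.Prime ∧ p₂.Prime ∧
        (p₃ = 3 ∨ p₃ = 5 ∨ p₃ = 7) ∧ p₁ + p₂ + p₃ = N)).card : ℝ) ≤ (E.card : ℝ) + 8 := by
    have h5 := (card_le_card hsub).trans ((card_union_le _ _).trans
      (Nat.add_le_add_right card_image_le _))
    rw [Nat.card_Icc] at h5
    exact_mod_cast h5
  linarith

end Pool.MP_dd84fd_nt.TC
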