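import Pool.Agent.Lib.MP_dd84fd_nt.TC.GCore

/-!
# TC-HCoreA: the core at one window, four centres (helper45)

The centres of the four vertices `c, n - c, n' - c, n - (n' - c)` are `y₁, y₀, y₂, y₃`.
-/

set_option autoImplicit false

namespace Pool.MP_dd84fd_nt.TC

open Finset Pool.MP_67663b_nt.Odd Pool.MP_dd84fd_nt.En Pool.MP_dd84fd_nt.E2 Pool.MP_dd84fd_nt.LS
open Pool.MP_dd84fd_nt.GX Pool.MP_dd84fd_nt.HX Pool.MP_dd84fd_nt.IX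
open Pool.MP_dd84fd_nt.BX (PC pv IsPC PR SX sN prc ind)
open ComplexConjugate

section

variable {X : ℕ} {Δ : ℝ} {Q1 Q2 : ℕ} {F η : ℝ} {N0 : ℕ}

/-- the core at one window -/
theorem hcore_pt (hX : 3 ≤ X) (hΔ : 0 < Δ) {y₁ y₀ y₂ y₃ : ℝ} (hw1 : SvW X Δ Q1 Q2 F y₁ N0)
    (hw0 : SvW X Δ Q1 Q2 F y₀ N0) (hw2 : SvW X Δ Q1 Q2 F y₂ N0) (hw3 : SvW X Δ Q1 Q2 F y₃ N0) (h1 : 1 ≤ Q1) (h2 : 1 ≤ Q2)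
    (hs : 0 < sw X Δ (Nat.gcd Q1 Q2)) (hF1 : 1 ≤ F) (hη0 : 0 ≤ η)
    (hη : η ≤ 1 / 10) (hF : F + 13 * η < 3)
    (E1 : Finset (DirichletCharacter ℂ Q1)) (E2 : Finset (DirichletCharacter ℂ Q2))
    (hE1 : Ineq (Nat.gcd Q1 Q2) E1) (hE2 : Ineq (Nat.gcd Q1 Q2) E2) (ho1 : 1 ∈ E1) (ho2 : 1 ∈ E2)
    (hN : E1.card * E2.card ≤ N0) {n n' : ℕ} (hn : Q1 ∣ n * Nat.gcd Q1 Q2)
    (hn' : Q2 ∣ n' * Nat.gcd Q1 Q2)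
    (c : ZMod (Nat.gcd Q1 Q2)) (hc : IsUnit c) (hc0 : IsUnit ((n : ZMod (Nat.gcd Q1 Q2)) - c))
    (hc2 : IsUnit ((n' : ZMod (Nat.gcd Q1 Q2)) - c))
    (hc3 : IsUnit ((n : ZMod (Nat.gcd Q1 Q2)) - ((n' : ZMod (Nat.gcd Q1 Q2)) - c)))
    (hm : MsW X Δ Q1 Q2 η y₁ c) (hm0 : MsW X Δ Q1 Q2 η y₀ ((n : ZMod (Nat.gcd Q1 Q2)) - c))
    (hm2 : MsW X Δ Q1 Q2 η y₂ ((n' : ZMod (Nat.gcd Q1 Q2)) - c))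
    (hm3 : MsW X Δ Q1 Q2 η y₃
      ((n : ZMod (Nat.gcd Q1 Q2)) - ((n' : ZMod (Nat.gcd Q1 Q2)) - c)))
    (M : ℝ) (hM : Real.sqrt (4 * (E2.card : ℝ)) ≤ M) (hM0 : 0 < M)
    (hRC1 : RC X Δ (Nat.lcm Q1 Q2) (Nat.gcd Q1 Q2) Q1 n y₁ y₀ c ≤ η / (2 * M))
    (hRC3 : RC X Δ (Nat.lcm Q1 Q2) (Nat.gcd Q1 Q2) Q1 n y₃ y₂
      ((n : ZMod (Nat.gcd Q1 Q2)) - ((n' : ZMod (Nat.gcd Q1 Q2)) - c)) ≤ η / (2 * M))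
    (hRC2 : RC X Δ (Nat.lcm Q1 Q2) (Nat.gcd Q1 Q2) Q2 n' y₁ y₂ c ≤ η / 2)
    (hD1 : DD X Δ (Nat.lcm Q1 Q2) (Nat.gcd Q1 Q2) Q1 E1 y₁ c ≤ 1)
    (hD0 : DD X Δ (Nat.lcm Q1 Q2) (Nat.gcd Q1 Q2) Q1 E1 y₀ ((n : ZMod (Nat.gcd Q1 Q2)) - c) ≤
      (η / (2 * M)) ^ 2 / 5)
    (hD2 : DD X Δ (Nat.lcm Q1 Q2) (Nat.gcd Q1 Q2) Q1 E1 y₂ ((n' : ZMod (Nat.gcd Q1 Q2)) - c) ≤ 1)
    (hD3 : DD X Δ (Nat.lcm Q1 Q2) (Nat.gcd Q1 Q2) Q1 E1 y₃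
      ((n : ZMod (Nat.gcd Q1 Q2)) - ((n' : ZMod (Nat.gcd Q1 Q2)) - c)) ≤ (η / (2 * M)) ^ 2 / 5)
    (hG1 : DD X Δ (Nat.lcm Q1 Q2) (Nat.gcd Q1 Q2) Q2 E2 y₁ c ≤ 1)
    (hG2 : DD X Δ (Nat.lcm Q1 Q2) (Nat.gcd Q1 Q2) Q2 E2 y₂ ((n' : ZMod (Nat.gcd Q1 Q2)) - c) ≤
      η ^ 2 / 20) : False := by
  classical
  have hF3 : F ≤ 3 := by linarith
  have hF0 : 0 ≤ F := by linarith
  have hR : 1 ≤ Nat.lcm Q1 Q2 := Nat.lcm_pos h1 h2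
  have hW1 : Nat.gcd Q1 Q2 ∣ Q1 := Nat.gcd_dvd_left _ _
  have hW2 : Nat.gcd Q1 Q2 ∣ Q2 := Nat.gcd_dvd_right _ _
  have hQR2 : Q2 ∣ Nat.lcm Q1 Q2 := Nat.dvd_lcm_right _ _
  have a1 := gstep_a hX hΔ hw1 hw0 h1 h2 hs hF1 hF3 hη0 hη E1 E2 hE1 hE2 ho1 ho2 hN hn c hc hc0 hm hm0 M hM
    hM0 hRC1 hD1 hD0
  have hRC3' : RC X Δ (Nat.lcm Q1 Q2) (Nat.gcd Q1 Q2) Q1 n y₂ y₃
      ((n' : ZMod (Nat.gcd Q1 Q2)) - c) ≤ η / (2 * M) := by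
    rw [RC_symm X Δ hW1]
    exact hRC3
  have a2 := gstep_a hX hΔ hw2 hw3 h1 h2 hs hF1 hF3 hη0 hη E1 E2 hE1 hE2 ho1 ho2 hN hn
    ((n' : ZMod (Nat.gcd Q1 Q2)) - c) hc2 hc3 hm2 hm3 M hM hM0 hRC3' hD2 hD3
  choose θ hθ1 hθo hθ using refl_ex h2 hW2 hn' c hc2
  have m2 := gwin_m2 hw1 h1 h2 hs hF0 hη0 E1 E2 hE1 hE2 ho1 hN _ hm
  have hF4 : F * (1 + η) ≤ 4 := by nlinarith
  have k := h3 X hX Δ hΔ hR hW2 hQR2 hn' y₁ y₂ c hc hc2 E2 hE2 (fun _ => 1) 1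
    (fun p _ => by simp)
  have k2 : ∑ p ∈ UP X (Nat.lcm Q1 Q2), ((wv Δ y₁ (Nat.gcd Q1 Q2) c p : ℝ) : ℂ) *
      conj (∑ χ ∈ E2, nu X Δ (Nat.lcm Q1 Q2) (Nat.gcd Q1 Q2) y₂
        ((n' : ZMod (Nat.gcd Q1 Q2)) - c) χ * conj (χ ((n' : ZMod Q2) - p))) * 1 =
      (sw X Δ (Nat.gcd Q1 Q2) : ℂ) * ∑ χ ∈ E2, conj (nu X Δ (Nat.lcm Q1 Q2) (Nat.gcd Q1 Q2) y₂
        ((n' : ZMod (Nat.gcd Q1 Q2)) - c) χ) * θ χ *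
        nu X Δ (Nat.lcm Q1 Q2) (Nat.gcd Q1 Q2) y₁ c χ := by
    have hsc : (sw X Δ (Nat.gcd Q1 Q2) : ℂ) ≠ 0 := by exact_mod_cast hs.ne'
    have e1 : ∀ p ∈ UP X (Nat.lcm Q1 Q2), ((wv Δ y₁ (Nat.gcd Q1 Q2) c p : ℝ) : ℂ) *
      conj (∑ χ ∈ E2, nu X Δ (Nat.lcm Q1 Q2) (Nat.gcd Q1 Q2) y₂
        ((n' : ZMod (Nat.gcd Q1 Q2)) - c) χ * conj (χ ((n' : ZMod Q2) - p))) * 1 =
        ∑ χ ∈ E2, ((wv Δ y₁ (Nat.gcd Q1 Q2) c p : ℝ) : ℂ) *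
          (conj (nu X Δ (Nat.lcm Q1 Q2) (Nat.gcd Q1 Q2) y₂
        ((n' : ZMod (Nat.gcd Q1 Q2)) - c) χ) * θ χ * χ (p : ZMod Q2)) := by
      intro p hp
      rw [← mul_sum, mul_one]
      by_cases hpc : (p : ZMod (Nat.gcd Q1 Q2)) = c
      · rw [proj_eq hQR2 c E2 θ hθ _ p (up_coprime hp) hpc]
      · have : wv Δ y₁ (Nat.gcd Q1 Q2) c p = 0 := by unfold wv; rw [if_neg hpc]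
        rw [this]; simp
    rw [sum_congr rfl e1, sum_comm, mul_sum]
    refine sum_congr rfl fun χ _ => ?_
    have e3 : (sw X Δ (Nat.gcd Q1 Q2) : ℂ) * nu X Δ (Nat.lcm Q1 Q2) (Nat.gcd Q1 Q2) y₁ c χ =
        ∑ p ∈ UP X (Nat.lcm Q1 Q2), ((wv Δ y₁ (Nat.gcd Q1 Q2) c p : ℝ) : ℂ) *
          χ (p : ZMod Q2) := by
      unfold nu
      rw [← mul_assoc, mul_one_div, div_self hsc, one_mul]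
    rw [mul_left_comm, e3, mul_sum]
    refine sum_congr rfl fun p _ => ?_
    ring
  rw [k2, norm_mul, Complex.norm_real, Real.norm_of_nonneg hs.le, one_mul] at k
  have k5 := le_of_mul_le_mul_left k hs
  have k3 : Real.sqrt ((∑ χ ∈ E2, ‖nu X Δ (Nat.lcm Q1 Q2) (Nat.gcd Q1 Q2) y₁ c χ‖ ^ 2 +
      DD X Δ (Nat.lcm Q1 Q2) (Nat.gcd Q1 Q2) Q2 E2 y₁ c) *
      DD X Δ (Nat.lcm Q1 Q2) (Nat.gcd Q1 Q2) Q2 E2 y₂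
        ((n' : ZMod (Nat.gcd Q1 Q2)) - c)) ≤ η / 2 := by
    rw [Real.sqrt_le_left (by positivity)]
    have a1 := DD_nonneg X Δ (Nat.lcm Q1 Q2) (Nat.gcd Q1 Q2) Q2 E2 y₂
      ((n' : ZMod (Nat.gcd Q1 Q2)) - c)
    have a2 : ∑ χ ∈ E2, ‖nu X Δ (Nat.lcm Q1 Q2) (Nat.gcd Q1 Q2) y₁ c χ‖ ^ 2 +
      DD X Δ (Nat.lcm Q1 Q2) (Nat.gcd Q1 Q2) Q2 E2 y₁ c ≤ 5 := by linarith
    calc _ ≤ 5 * (η ^ 2 / 20) := mul_le_mul a2 hG2 a1 (by norm_num)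
      _ = _ := by ring
  have k6 : ‖∑ χ ∈ E2, conj (nu X Δ (Nat.lcm Q1 Q2) (Nat.gcd Q1 Q2) y₂
        ((n' : ZMod (Nat.gcd Q1 Q2)) - c) χ) * θ χ *
        nu X Δ (Nat.lcm Q1 Q2) (Nat.gcd Q1 Q2) y₁ c χ‖ ≤ η := by
    linarith
  have n1 : 1 - η ≤ ‖nu X Δ (Nat.lcm Q1 Q2) (Nat.gcd Q1 Q2) y₁ c
      (1 : DirichletCharacter ℂ Q2)‖ :=
    (gnu_one hQR2 hs _ hm).trans (Complex.re_le_norm _)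
  have n2 : 1 - η ≤ ‖nu X Δ (Nat.lcm Q1 Q2) (Nat.gcd Q1 Q2) y₂
      ((n' : ZMod (Nat.gcd Q1 Q2)) - c) (1 : DirichletCharacter ℂ Q2)‖ :=
    (gnu_one hQR2 hs _ hm2).trans (Complex.re_le_norm _)
  have fin := cl_b E2 1 ho2 _ _ θ (fun χ _ => hθ1 χ) F η hη0 hη a1 a2 n1 n2 k6
  linarith

end

end Pool.MP_dd84fd_nt.TC
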