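import Pool.Agent.Lib.MP_dd84fd_nt.TC.KDefs
import Pool.Agent.Lib.MP_67663b_nt.OddB.ExpDefs

/-!
# TC-KfA: elementary facts about the Fejér kernel `kf u = sinc(π u)²`

Mathlib: `Mathlib/Analysis/SpecialFunctions/Trigonometric/Sinc.lean` (`Real.sinc`, `Real.sinc_le_one`, ...).
`kf_decay`: `sinc x * x = sin x`.  `kf_lip`: `kf' = 2 π sinc(πu) sinc'(πu)`, `|sinc'| ≤ 1/2`
(or from `kf_fourier`: `|kf u - kf v| ≤ ∫ (1-|ξ|) 2π|ξ||u-v| = (2π/3)|u-v|`, which is the easiest way once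
`kf_fourier` is known).  `kf_fourier`: `∫_{-1}^{1} (1-|ξ|) e(ξu) dξ = 2 ∫_0^1 (1-ξ) cos(2πξu) dξ
= (1 - cos 2πu)/(2π²u²) = sin²(πu)/(πu)²` for `u ≠ 0`, `1` for `u = 0`.
-/

set_option autoImplicit false

namespace Pool.MP_dd84fd_nt.TC

open Finset Pool.MP_67663b_nt.Odd

theorem kf_nonneg (u : ℝ) : 0 ≤ kf u := sq_nonneg _

theorem kf_even (u : ℝ) : kf (-u) = kf u := by
  unfold kf
  rw [mul_neg, Real.sinc_neg]

theorem kf_le_one (u : ℝ) : kf u ≤ 1 := by
  unfold kf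
  exact (sq_le_one_iff_abs_le_one _).2 (Real.abs_sinc_le_one _)

theorem kf_cont : Continuous kf := by
  unfold kf
  exact (Real.continuous_sinc.comp (continuous_const.mul continuous_id)).pow 2

/-- decay -/
theorem kf_decay (u : ℝ) : kf u * (Real.pi * u) ^ 2 ≤ 1 := by
  unfold kf
  by_cases h : Real.pi * u = 0
  · rw [h]
    norm_num
  · rw [Real.sinc_of_ne_zero h, ← mul_pow, div_mul_cancel₀ _ h]
    exact Real.sin_sq_le_one _

/-- the integral over `[0, 1]` -/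
private theorem kf_half (c : ℂ) (hc : c ≠ 0) :
    ∫ ξ in (0 : ℝ)..1, (1 - (ξ : ℂ)) * Complex.exp (c * ξ) =
      (Complex.exp c - 1 - c) / c ^ 2 := by
  have hd : ∀ ξ ∈ Set.uIcc (0 : ℝ) 1, HasDerivAt
      (fun ξ : ℝ => (1 - (ξ : ℂ)) * Complex.exp (c * ξ) / c + Complex.exp (c * ξ) / c ^ 2)
      ((1 - (ξ : ℂ)) * Complex.exp (c * ξ)) ξ := by
    intro ξ _
    have h1 : HasDerivAt (fun ξ : ℝ => (ξ : ℂ)) 1 ξ := by
      simpa using (hasDerivAt_id ξ).ofReal_comp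
    have h2 : HasDerivAt (fun ξ : ℝ => Complex.exp (c * ξ)) (Complex.exp (c * ξ) * (c * 1)) ξ :=
      (h1.const_mul c).cexp
    have h3 : HasDerivAt (fun ξ : ℝ => (1 - (ξ : ℂ))) (-1) ξ := by
      simpa using h1.const_sub 1
    have h4 := ((h3.mul h2).div_const c).add (h2.div_const (c ^ 2))
    have h5 : (-1 * Complex.exp (c * ξ) + (1 - (ξ : ℂ)) * (Complex.exp (c * ξ) * (c * 1))) / c +
        Complex.exp (c * ξ) * (c * 1) / c ^ 2 = (1 - (ξ : ℂ)) * Complex.exp (c * ξ) := by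
      field_simp
      ring
    rw [h5] at h4
    exact h4
  have hcont : Continuous fun ξ : ℝ => (1 - (ξ : ℂ)) * Complex.exp (c * ξ) := by
    fun_prop
  rw [intervalIntegral.integral_eq_sub_of_hasDerivAt hd (hcont.intervalIntegrable _ _)]
  simp only [Complex.ofReal_one, Complex.ofReal_zero, mul_zero, mul_one, sub_self, zero_mul,
    zero_div, zero_add, Complex.exp_zero, sub_zero]
  field_simp
  ring

private theorem kf_ee (ξ u : ℝ) : ee (ξ * u) = Complex.exp ((2 * Real.pi * u * Complex.I) * ξ) := by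
  unfold ee
  push_cast
  ring_nf

private theorem kf_int_pos (u : ℝ) : ∫ ξ in (0 : ℝ)..1, ((1 - |ξ| : ℝ) : ℂ) * ee (ξ * u) =
    ∫ ξ in (0 : ℝ)..1, (1 - (ξ : ℂ)) * Complex.exp ((2 * Real.pi * u * Complex.I) * ξ) := by
  refine intervalIntegral.integral_congr fun ξ hξ => ?_
  rw [Set.uIcc_of_le zero_le_one] at hξ
  show ((1 - |ξ| : ℝ) : ℂ) * ee (ξ * u) = _
  rw [abs_of_nonneg hξ.1, kf_ee]
  push_cast
  rfl

private theorem ee_cont (u : ℝ) : Continuous fun ξ : ℝ => ((1 - |ξ| : ℝ) : ℂ) * ee (ξ * u) := by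
  unfold ee
  fun_prop

private theorem kf_split (u : ℝ) : ∫ ξ in (-1 : ℝ)..1, ((1 - |ξ| : ℝ) : ℂ) * ee (ξ * u) =
    (∫ ξ in (0 : ℝ)..1, (1 - (ξ : ℂ)) * Complex.exp ((2 * Real.pi * u * Complex.I) * ξ)) +
    ∫ ξ in (0 : ℝ)..1, (1 - (ξ : ℂ)) *
      Complex.exp ((2 * Real.pi * ((-u : ℝ) : ℂ) * Complex.I) * ξ) := by
  rw [← kf_int_pos, ← kf_int_pos]
  rw [← intervalIntegral.integral_add_adjacent_intervals
    (a := (-1 : ℝ)) (b := 0) (c := 1) ((ee_cont u).intervalIntegrable _ _)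
    ((ee_cont u).intervalIntegrable _ _), add_comm]
  congr 1
  have h := intervalIntegral.integral_comp_neg (a := (0 : ℝ)) (b := 1)
    (fun ξ : ℝ => ((1 - |ξ| : ℝ) : ℂ) * ee (ξ * u))
  rw [neg_zero] at h
  rw [← h]
  refine intervalIntegral.integral_congr fun ξ _ => ?_
  show ((1 - |-ξ| : ℝ) : ℂ) * ee (-ξ * u) = ((1 - |ξ| : ℝ) : ℂ) * ee (ξ * -u)
  rw [abs_neg, neg_mul, mul_neg]

/-- the kernel as a Fourier integral -/
theorem kf_fourier (u : ℝ) : ((kf u : ℝ) : ℂ) =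
    ∫ ξ in (-1 : ℝ)..1, ((1 - |ξ| : ℝ) : ℂ) * ee (ξ * u) := by
  rw [kf_split]
  by_cases hu : u = 0
  · subst hu
    have h1 : kf 0 = 1 := by
      unfold kf
      rw [mul_zero, Real.sinc_zero, one_pow]
    have h2 : ∫ ξ in (0 : ℝ)..1, (1 - (ξ : ℂ)) = 1 / 2 := by
      rw [intervalIntegral.integral_sub (continuous_const.intervalIntegrable _ _)
        (Complex.continuous_ofReal.intervalIntegrable _ _)]
      rw [intervalIntegral.integral_ofReal, integral_id]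
      simp
      norm_num
    simp only [neg_zero, Complex.ofReal_zero, mul_zero, zero_mul, Complex.exp_zero, mul_one, h1,
      h2, Complex.ofReal_one]
    norm_num
  · have hpi : (Real.pi : ℂ) ≠ 0 := by exact_mod_cast Real.pi_ne_zero
    have hu' : (u : ℂ) ≠ 0 := by exact_mod_cast hu
    have hc : (2 * Real.pi * u * Complex.I : ℂ) ≠ 0 := by
      simp [hpi, hu', Complex.I_ne_zero]
    have hc' : (2 * Real.pi * ((-u : ℝ) : ℂ) * Complex.I : ℂ) = -(2 * Real.pi * u * Complex.I) := by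
      push_cast
      ring
    rw [hc', kf_half _ hc, kf_half _ (neg_ne_zero.2 hc)]
    have h1 : Complex.exp (2 * Real.pi * u * Complex.I) + Complex.exp (-(2 * Real.pi * u * Complex.I)) =
        2 * Complex.cos (2 * Real.pi * u) := by
      rw [Complex.two_cos]
      congr 2
      ring
    have h2 : Complex.cos (2 * Real.pi * u) = 1 - 2 * Complex.sin (Real.pi * u) ^ 2 := by
      have := Complex.cos_two_mul (Real.pi * u)
      rw [show (2 * Real.pi * u : ℂ) = 2 * (Real.pi * u) by ring, this]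
      have h3 := Complex.sin_sq_add_cos_sq (Real.pi * u)
      linear_combination (2 : ℂ) * h3
    have h4 : ((kf u : ℝ) : ℂ) = (Complex.sin (Real.pi * u) / (Real.pi * u)) ^ 2 := by
      unfold kf
      rw [Real.sinc_of_ne_zero (mul_ne_zero Real.pi_ne_zero hu)]
      push_cast
      rfl
    rw [h4]
    have h5 : (Complex.exp (2 * Real.pi * u * Complex.I) - 1 - 2 * Real.pi * u * Complex.I) /
        (2 * Real.pi * u * Complex.I) ^ 2 +
        (Complex.exp (-(2 * Real.pi * u * Complex.I)) - 1 - -(2 * Real.pi * u * Complex.I)) /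
        (-(2 * Real.pi * u * Complex.I)) ^ 2 =
        ((Complex.exp (2 * Real.pi * u * Complex.I) +
          Complex.exp (-(2 * Real.pi * u * Complex.I))) - 2) /
          (2 * Real.pi * u * Complex.I) ^ 2 := by
      rw [neg_sq, ← add_div]
      congr 1
      ring
    rw [h5, h1, h2]
    have h6 : (2 * Real.pi * u * Complex.I : ℂ) ^ 2 = -(4 * (Real.pi * u) ^ 2) := by
      rw [mul_pow, Complex.I_sq]
      ring
    rw [h6, div_pow]
    field_simp
    ring

theorem kf_lip (u v : ℝ) : |kf u - kf v| ≤ 4 * |u - v| := by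
  have h1 : ((kf u - kf v : ℝ) : ℂ) =
      ∫ ξ in (-1 : ℝ)..1, ((1 - |ξ| : ℝ) : ℂ) * (ee (ξ * u) - ee (ξ * v)) := by
    rw [Complex.ofReal_sub, kf_fourier u, kf_fourier v, ← intervalIntegral.integral_sub
      ((ee_cont u).intervalIntegrable _ _) ((ee_cont v).intervalIntegrable _ _)]
    refine intervalIntegral.integral_congr fun ξ _ => ?_
    show _ = ((1 - |ξ| : ℝ) : ℂ) * (ee (ξ * u) - ee (ξ * v))
    ring
  have h2 : ∀ ξ ∈ Set.uIoc (-1 : ℝ) 1,
      ‖((1 - |ξ| : ℝ) : ℂ) * (ee (ξ * u) - ee (ξ * v))‖ ≤ Real.pi / 2 * |u - v| := by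
    intro ξ hξ
    rw [Set.uIoc_of_le (by norm_num)] at hξ
    have ha : |ξ| ≤ 1 := abs_le.2 ⟨hξ.1.le, hξ.2⟩
    rw [norm_mul, Complex.norm_real, Real.norm_of_nonneg (by linarith)]
    have h3 := norm_ee_sub_ee_le (ξ * u) (ξ * v)
    rw [← mul_sub, abs_mul] at h3
    have h4 : (1 - |ξ|) * |ξ| ≤ 1 / 4 := by nlinarith [sq_nonneg (|ξ| - 1 / 2)]
    calc (1 - |ξ|) * ‖ee (ξ * u) - ee (ξ * v)‖
        ≤ (1 - |ξ|) * (2 * Real.pi * (|ξ| * |u - v|)) :=
          mul_le_mul_of_nonneg_left h3 (by linarith)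
      _ = ((1 - |ξ|) * |ξ|) * (2 * Real.pi * |u - v|) := by ring
      _ ≤ 1 / 4 * (2 * Real.pi * |u - v|) :=
          mul_le_mul_of_nonneg_right h4 (by positivity)
      _ = Real.pi / 2 * |u - v| := by ring
  have h5 := intervalIntegral.norm_integral_le_of_norm_le_const h2
  rw [← h1, Complex.norm_real, Real.norm_eq_abs] at h5
  have h6 : |(1 : ℝ) - -1| = 2 := by norm_num
  rw [h6] at h5
  have h7 : Real.pi / 2 * |u - v| * 2 ≤ 4 * |u - v| := by
    have := mul_le_mul_of_nonneg_right Real.pi_le_four (abs_nonneg (u - v))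
    linarith
  exact h5.trans h7

end Pool.MP_dd84fd_nt.TC
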