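import Pool.Agent.Lib.MP_dd84fd_nt.TC.KfA

/-!
# TC-KfI: `∫ kf = 1`

Fourier inversion for the triangle function `τ(x) = max(0, 1-|x|)`: continuous, integrable, and its
Fourier transform is `kf` (`kf_fourier`, up to the sign of `ξ`), which is integrable by `kf_decay`,
`kf_le_one`, `kf_cont`; `∫ kf = τ(0) = 1` (Mathlib: `MeasureTheory.Integrable.fourierInv_fourier_eq`,
`Real.fourierIntegral_eq'`, in `Mathlib/Analysis/Fourier/Inversion.lean`).
`kf_tail`: `kf u ≤ 1/(π u)²` and `∫_U^∞ u^(-2) = 1/U`.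
-/

set_option autoImplicit false

namespace Pool.MP_dd84fd_nt.TC

open Finset MeasureTheory
open scoped FourierTransform

private theorem kfi_bd (u : ℝ) : kf u ≤ 2 * (1 + u ^ 2)⁻¹ := by
  have h1 := kf_le_one u
  have h2 := kf_decay u
  have h0 := kf_nonneg u
  have hpi : (1 : ℝ) ≤ Real.pi ^ 2 := by nlinarith [Real.pi_gt_three]
  have h3 : kf u * u ^ 2 ≤ 1 := by
    have : kf u * u ^ 2 * 1 ≤ kf u * u ^ 2 * Real.pi ^ 2 :=
      mul_le_mul_of_nonneg_left hpi (by positivity)
    nlinarith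
  rw [← div_eq_mul_inv, le_div_iff₀ (by positivity)]
  nlinarith

theorem kf_integrable : Integrable kf := by
  refine Integrable.mono' (integrable_inv_one_add_sq.const_mul 2) kf_cont.aestronglyMeasurable ?_
  refine Filter.Eventually.of_forall fun u => ?_
  rw [Real.norm_of_nonneg (kf_nonneg u)]
  exact kfi_bd u

private noncomputable def kfiT (x : ℝ) : ℂ := ((max 0 (1 - |x|) : ℝ) : ℂ)

private theorem kfiT_cont : Continuous kfiT := by
  unfold kfiT
  exact Complex.continuous_ofReal.comp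
    (continuous_const.max (continuous_const.sub continuous_abs))

private theorem kfiT_zero {x : ℝ} (hx : 1 ≤ |x|) : kfiT x = 0 := by
  unfold kfiT
  rw [max_eq_left (by linarith), Complex.ofReal_zero]

private theorem kfiT_eq {x : ℝ} (hx : |x| ≤ 1) : kfiT x = ((1 - |x| : ℝ) : ℂ) := by
  unfold kfiT
  rw [max_eq_right (by linarith)]

private theorem kfiT_int : Integrable kfiT := by
  refine kfiT_cont.integrable_of_hasCompactSupport ?_
  refine HasCompactSupport.intro (isCompact_Icc (a := (-1 : ℝ)) (b := 1)) ?_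
  intro x hx
  apply kfiT_zero
  by_contra h
  push Not at h
  exact hx ⟨(abs_lt.1 h).1.le, (abs_lt.1 h).2.le⟩

private theorem kfi_fourier (ξ : ℝ) : 𝓕 kfiT ξ = ((kf ξ : ℝ) : ℂ) := by
  rw [← kf_even, kf_fourier, Real.fourier_eq']
  rw [intervalIntegral.integral_of_le (by norm_num : (-1 : ℝ) ≤ 1)]
  rw [← setIntegral_eq_integral_of_forall_compl_eq_zero (s := Set.Ioc (-1 : ℝ) 1)]
  · refine setIntegral_congr_fun measurableSet_Ioc fun x hx => ?_
    show Complex.exp (((-2 * Real.pi * inner ℝ x ξ : ℝ) : ℂ) * Complex.I) • kfiT x = _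
    rw [kfiT_eq (abs_le.2 ⟨hx.1.le, hx.2⟩), smul_eq_mul, mul_comm]
    congr 1
    unfold Pool.MP_67663b_nt.Odd.ee
    congr 1
    simp only [RCLike.inner_apply, conj_trivial]
    push_cast
    ring
  · intro x hx
    rw [kfiT_zero, smul_zero]
    by_contra h
    push Not at h
    exact hx ⟨(abs_lt.1 h).1, (abs_lt.1 h).2.le⟩

theorem kf_integral : ∫ u, kf u = 1 := by
  have hF : 𝓕 kfiT = fun ξ => ((kf ξ : ℝ) : ℂ) := funext kfi_fourier
  have h1 : 𝓕⁻ (𝓕 kfiT) = kfiT := by
    refine Continuous.fourierInv_fourier_eq kfiT_cont kfiT_int ?_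
    rw [hF]
    exact kf_integrable.ofReal
  have h2 := congrFun h1 0
  rw [hF, Real.fourierInv_eq'] at h2
  simp only [inner_zero_right, mul_zero, Complex.ofReal_zero, zero_mul, Complex.exp_zero,
    one_smul] at h2
  have h4 : ∫ v, ((kf v : ℝ) : ℂ) = ((∫ v, kf v : ℝ) : ℂ) := integral_complex_ofReal
  rw [h4] at h2
  have h3 : kfiT 0 = 1 := by
    rw [kfiT_eq (by norm_num)]
    norm_num
  rw [h3] at h2
  exact_mod_cast h2

/-- tails -/
theorem kf_tail (U : ℝ) (hU : 0 < U) : ∫ u in Set.Ioi U, kf u ≤ 1 / U := by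
  have h1 : ∫ u in Set.Ioi U, kf u ≤ ∫ u in Set.Ioi U, u ^ (-2 : ℝ) := by
    refine setIntegral_mono_on kf_integrable.integrableOn
      (integrableOn_Ioi_rpow_of_lt (by norm_num) hU) measurableSet_Ioi fun u hu => ?_
    have hu0 : 0 < u := hU.trans hu
    have h2 := kf_decay u
    have h0 := kf_nonneg u
    have hpi : (1 : ℝ) ≤ Real.pi ^ 2 := by nlinarith [Real.pi_gt_three]
    have h3 : kf u * u ^ 2 ≤ 1 := by
      have : kf u * u ^ 2 * 1 ≤ kf u * u ^ 2 * Real.pi ^ 2 :=
        mul_le_mul_of_nonneg_left hpi (by positivity)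
      nlinarith
    rw [Real.rpow_neg hu0.le, ← one_div, le_div_iff₀ (by positivity)]
    have h4 : u ^ (2 : ℝ) = u ^ 2 := by exact_mod_cast Real.rpow_natCast u 2
    rw [h4]
    exact h3
  refine h1.trans ?_
  rw [integral_Ioi_rpow_of_lt (by norm_num) hU]
  have h5 : (-2 : ℝ) + 1 = -1 := by norm_num
  rw [h5, Real.rpow_neg_one, one_div]
  have h6 : -U⁻¹ / -1 = U⁻¹ := by ring
  rw [h6]

end Pool.MP_dd84fd_nt.TC
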