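import Pool.Agent.Lib.MP_dd84fd_nt.TC.Defs
import Pool.Agent.Lib.MP_dd84fd_nt.BX.CSl
import Pool.Agent.Lib.MP_dd84fd_nt.DX.LtMain
import Pool.Agent.Lib.MP_dd84fd_nt.JX.DcP
import Pool.Agent.Lib.MP_dd84fd_nt.LX.PwGS
import Pool.Agent.Lib.MP_dd84fd_nt.DivBound

/-!
# TC-L2N: the norms of the primitive characters whose modulus divides `Q` (helper15)

`l2N : L2N`.  Norm `≥ κ`: `BX.slBD_all` for a subset of size `≤ X^c`.  Norm `≤ (log X)^(-A')`: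
`DX.lt_core` with the divisors of `Q`.  Norm between `(log X)^(-A')` and `κ`: `sN² ≤ κ sN`.
-/

set_option autoImplicit false

namespace Pool.MP_dd84fd_nt.TC

open Finset Pool.MP_67663b_nt.Odd Pool.MP_dd84fd_nt.En Pool.MP_dd84fd_nt.E2 Pool.MP_dd84fd_nt.LS
open Pool.MP_dd84fd_nt.GX Pool.MP_dd84fd_nt.HX Pool.MP_dd84fd_nt.IX
open Pool.MP_dd84fd_nt.BX (PC pv IsPC PR SX sN prc ind PFam)
open Pool.MP_dd84fd_nt.JX (wP Adm)

/-- few divisors -/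
theorem l2_div (ε : ℝ) (hε : 0 < ε) : ∃ X0 : ℕ, ∀ X : ℕ, X0 ≤ X → ∀ Q : ℕ, 1 ≤ Q → Q ≤ X →
    (Q.divisors.card : ℝ) ≤ (X : ℝ) ^ ε := by
  obtain ⟨k, hk⟩ : ∃ k : ℕ, 2 / ε ≤ k := exists_nat_ge _
  have hk0 : (0 : ℝ) < k := lt_of_lt_of_le (by positivity) hk
  have hk0' : k ≠ 0 := by
    intro h
    rw [h, Nat.cast_zero] at hk0
    exact lt_irrefl _ hk0
  obtain ⟨C, hC1, hC⟩ := Pool.Agent.Lib.MP_dd84fd_nt.DivBound.div_bound k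
  refine ⟨max C 1, fun X hX Q hQ hQX => ?_⟩
  have hX1 : (1 : ℝ) ≤ X := by
    have : 1 ≤ X := le_trans (le_max_right _ _) hX
    exact_mod_cast this
  have h1 := hC Q (by omega)
  have h2 : ((Q.divisors.card : ℝ)) ^ k ≤ (X : ℝ) ^ (2 : ℝ) := by
    have h3 : Q.divisors.card ^ k ≤ X * X :=
      h1.trans (Nat.mul_le_mul (le_trans (le_max_left _ _) hX) hQX)
    have h4 : ((Q.divisors.card : ℝ)) ^ k ≤ (X : ℝ) * X := by exact_mod_cast h3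
    rw [Real.rpow_two, sq]
    exact h4
  have h5 : ((Q.divisors.card : ℝ)) = (((Q.divisors.card : ℝ)) ^ k) ^ (1 / (k : ℝ)) := by
    rw [one_div, Real.pow_rpow_inv_natCast (Nat.cast_nonneg _) hk0']
  rw [h5]
  calc (((Q.divisors.card : ℝ)) ^ k) ^ (1 / (k : ℝ)) ≤ ((X : ℝ) ^ (2 : ℝ)) ^ (1 / (k : ℝ)) :=
        Real.rpow_le_rpow (pow_nonneg (Nat.cast_nonneg _) k) h2 (one_div_nonneg.2 hk0.le)
    _ = (X : ℝ) ^ (2 * (1 / (k : ℝ))) := (Real.rpow_mul (Nat.cast_nonneg _) _ _).symm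
    _ ≤ (X : ℝ) ^ ε := by
        refine Real.rpow_le_rpow_of_exponent_le hX1 ?_
        rw [mul_one_div, div_le_iff₀ hk0]
        rw [div_le_iff₀ hε] at hk
        linarith

theorem l2_sq (X : ℕ) (hX : 1 ≤ X) (T : ℝ) (hT : 0 ≤ T) (ψ : PC) :
    sN X T ψ ^ 2 = (Real.log X) ^ 2 / X * ∫ x in (-(T / X))..(T / X), ‖SX X ψ x‖ ^ 2 := by
  have hX0 : (0 : ℝ) < X := by exact_mod_cast hX
  have h0 : 0 ≤ T / X := by positivity
  have hI : 0 ≤ ∫ x in (-(T / X))..(T / X), ‖SX X ψ x‖ ^ 2 :=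
    intervalIntegral.integral_nonneg (by linarith) fun x _ => by positivity
  unfold sN
  rw [mul_pow, _root_.div_pow, Real.sq_sqrt hX0.le, Real.sq_sqrt hI]

theorem l2_ne (ψ : PC) (h : IsPC ψ) (h2 : 2 ≤ ψ.1) : ψ.2 ≠ 1 := by
  intro h5
  have h7 : ψ.2.conductor = 1 := by
    rw [h5]
    have : NeZero ψ.1 := ⟨by omega⟩
    exact DirichletCharacter.conductor_one
  have h8 : ψ.2.conductor = ψ.1 := h.2
  omega

open Classical in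
/-- the characters modulo `q` in `Y` -/
noncomputable def l2Y (Y : Finset PC) (q : ℕ) : Finset (DirichletCharacter ℂ q) :=
  Y.preimage (Sigma.mk q) (by intro a _ b _ h; simpa using h)

theorem mem_l2Y (Y : Finset PC) (q : ℕ) (χ : DirichletCharacter ℂ q) :
    χ ∈ l2Y Y q ↔ (⟨q, χ⟩ : PC) ∈ Y := by
  unfold l2Y
  exact Finset.mem_preimage

/-- the characters of very small norm -/
theorem l2_light (ν : ℝ) (h0 : 0 < ν) (h1 : ν ≤ 1 / 20) (A B : ℕ) : ∃ A' X0 : ℕ, ∀ X : ℕ,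
    X0 ≤ X → ∀ Q : ℕ, 1 ≤ Q → (Q : ℝ) ≤ (X : ℝ) ^ (2 / 3 - ν) →
    ∀ Y : Finset PC, (∀ ψ ∈ Y, IsPC ψ ∧ 2 ≤ ψ.1 ∧ ψ.1 ∣ Q ∧
      sN X (4 * (Real.log X) ^ B) ψ ≤ 1 / (Real.log X) ^ A') →
      ∑ ψ ∈ Y, sN X (4 * (Real.log X) ^ B) ψ ^ 2 ≤ 1 / (Real.log X) ^ A := by
  classical
  set th : ℝ := 1 / 3 + ν with hth
  set e : ℝ := ν / 1000 with he
  have he0 : 0 < e := by rw [he]; positivity
  have hA : Adm th e (1 / 10) := ⟨by rw [hth]; linarith, by rw [hth]; linarith, he0, le_refl _,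
    by rw [he]; linarith⟩
  obtain ⟨C2, hC2⟩ := Pool.MP_dd84fd_nt.JX.decP (A + 2 + 8)
  have hd := hC2 th e (1 / 10) hA (by rw [hth, he]; linarith)
  obtain ⟨A', hA'⟩ := DX.lt_core (A + 2) 1 C2 B (1 / 10) (by norm_num)
  have hw : ∃ X1 : ℕ, ∀ X : ℕ, X1 ≤ X → ∀ n, |wP X n| ≤ ((1 : ℕ) : ℝ) := by
    refine ⟨0, fun X _ n => ?_⟩
    unfold wP
    split_ifs
    · simp
    · simp
  obtain ⟨X1, hX1⟩ := hA' th e hA wP hw hd
  obtain ⟨X2, hX2⟩ := l2_div (e / 2) (by positivity)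
  obtain ⟨X3, hX3⟩ := MP_log_large 2
  refine ⟨A', max X1 (max X2 (max X3 2)), fun X hX Q hQ1 hQX Y hY => ?_⟩
  simp only [max_le_iff] at hX
  obtain ⟨gX1, gX2, gX3, gX4⟩ := hX
  have hL := hX3 X gX3
  have hX0 : (0 : ℝ) < X := by exact_mod_cast (by omega : 0 < X)
  have hXr : (1 : ℝ) ≤ X := by exact_mod_cast (by omega : 1 ≤ X)
  have hQX' : Q ≤ X := by
    have h : (Q : ℝ) ≤ X := hQX.trans (by
      calc (X : ℝ) ^ (2 / 3 - ν) ≤ (X : ℝ) ^ (1 : ℝ) :=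
            Real.rpow_le_rpow_of_exponent_le hXr (by linarith)
        _ = X := Real.rpow_one _)
    exact_mod_cast h
  have hcard := hX2 X gX2 Q hQ1 hQX'
  set L : ℝ := Real.log X with hLd
  have hL0 : 0 < L := by linarith
  set T : ℝ := 4 * L ^ B with hT
  have hT0 : 0 ≤ T := by positivity
  have hTX : 0 ≤ T / X := by positivity
  -- the family
  have hYe : Y = Q.divisors.sigma (l2Y Y) := by
    ext ψ
    obtain ⟨q, χ⟩ := ψ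
    rw [mem_sigma, mem_l2Y]
    constructor
    · intro h
      exact ⟨Nat.mem_divisors.2 ⟨(hY _ h).2.2.1, by omega⟩, h⟩
    · intro h
      exact h.2
  have hfam : PL.Fam Q.divisors (Q : ℝ) := by
    refine ⟨fun q hq => Nat.pos_of_mem_divisors hq, fun q hq q' hq' => ?_⟩
    have := Nat.le_of_dvd (by omega)
      (Nat.lcm_dvd (Nat.dvd_of_mem_divisors hq) (Nat.dvd_of_mem_divisors hq'))
    exact_mod_cast this
  have key := hX1 X gX1 Q.divisors Q hfam (by exact_mod_cast hQ1) (hQX.trans (by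
      refine Real.rpow_le_rpow_of_exponent_le hXr ?_
      rw [hth, he]
      linarith)) hcard (l2Y Y) (by
    intro q hq χ hχ
    rw [mem_l2Y] at hχ
    obtain ⟨g1, g2, g3, g4⟩ := hY _ hχ
    exact ⟨l2_ne _ g1 g2, g4⟩)
  have hterm : ∀ q ∈ Q.divisors, ∀ χ ∈ l2Y Y q, sN X T ⟨q, χ⟩ ^ 2 ≤ L ^ 2 / X *
      (‖DX.gs χ‖ ^ 2 / (Nat.totient q : ℝ) *
        ∫ x in (-(4 * L ^ B / X))..(4 * L ^ B / X), ‖DX.Sx wP X χ x‖ ^ 2) := by
    intro q hq χ hχ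
    rw [mem_l2Y] at hχ
    obtain ⟨g1, g2, g3, g4⟩ := hY _ hχ
    have hq1 : 1 ≤ q := g1.1
    have : NeZero q := ⟨by omega⟩
    rw [l2_sq X (by omega) T hT0]
    refine mul_le_mul_of_nonneg_left ?_ (by positivity)
    have e1 : (∫ x in (-(T / X))..(T / X), ‖SX X ⟨q, χ⟩ x‖ ^ 2) =
        ∫ x in (-(4 * L ^ B / X))..(4 * L ^ B / X), ‖DX.Sx wP X χ x‖ ^ 2 := rfl
    rw [e1]
    have hI : 0 ≤ ∫ x in (-(4 * L ^ B / X))..(4 * L ^ B / X), ‖DX.Sx wP X χ x‖ ^ 2 :=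
      intervalIntegral.integral_nonneg (by rw [← hT]; linarith) fun x _ => by positivity
    have e2 : ‖DX.gs χ‖ ^ 2 = (q : ℝ) := by
      rw [DX.gs_eq q χ]
      exact (LXP.gs_prim q χ g1.2).1
    rw [e2]
    have hφ : (0 : ℝ) < Nat.totient q := by exact_mod_cast Nat.totient_pos.2 hq1
    have hφq : (Nat.totient q : ℝ) ≤ q := by exact_mod_cast Nat.totient_le q
    have e3 : 1 ≤ (q : ℝ) / Nat.totient q := by
      rw [le_div_iff₀ hφ, one_mul]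
      exact hφq
    calc ∫ x in (-(4 * L ^ B / X))..(4 * L ^ B / X), ‖DX.Sx wP X χ x‖ ^ 2
        = 1 * ∫ x in (-(4 * L ^ B / X))..(4 * L ^ B / X), ‖DX.Sx wP X χ x‖ ^ 2 := (one_mul _).symm
      _ ≤ _ := mul_le_mul_of_nonneg_right e3 hI
  calc ∑ ψ ∈ Y, sN X T ψ ^ 2 = ∑ q ∈ Q.divisors, ∑ χ ∈ l2Y Y q, sN X T ⟨q, χ⟩ ^ 2 := by
        conv_lhs => rw [hYe]
        rw [sum_sigma]
    _ ≤ ∑ q ∈ Q.divisors, ∑ χ ∈ l2Y Y q, L ^ 2 / X * (‖DX.gs χ‖ ^ 2 / (Nat.totient q : ℝ) *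
        ∫ x in (-(4 * L ^ B / X))..(4 * L ^ B / X), ‖DX.Sx wP X χ x‖ ^ 2) :=
        sum_le_sum fun q hq => sum_le_sum fun χ hχ => hterm q hq χ hχ
    _ = L ^ 2 / X * ∑ q ∈ Q.divisors, ∑ χ ∈ l2Y Y q, (‖DX.gs χ‖ ^ 2 / (Nat.totient q : ℝ) *
        ∫ x in (-(4 * L ^ B / X))..(4 * L ^ B / X), ‖DX.Sx wP X χ x‖ ^ 2) := by
        rw [mul_sum]
        refine sum_congr rfl fun q _ => ?_
        rw [mul_sum]
    _ ≤ L ^ 2 / X * (X / L ^ (A + 2)) := mul_le_mul_of_nonneg_left key (by positivity)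
    _ = 1 / L ^ A := by
        rw [pow_add]
        field_simp

/-- `l¹` bound and number -/
theorem l2_l1 (ν : ℝ) (h0 : 0 < ν) (h1 : ν ≤ 1 / 20) : ∃ C c : ℝ, 0 < C ∧ 0 < c ∧ ∀ B : ℕ,
    ∃ X0 : ℕ, ∀ X : ℕ, X0 ≤ X → ∀ Q : ℕ, 1 ≤ Q → (Q : ℝ) ≤ (X : ℝ) ^ (2 / 3 - ν) →
    ∀ Y : Finset PC, (∀ ψ ∈ Y, IsPC ψ ∧ 2 ≤ ψ.1 ∧ ψ.1 ∣ Q) →
      ((Y.card : ℝ) ≤ (X : ℝ) ^ c → ∑ ψ ∈ Y, sN X (4 * (Real.log X) ^ B) ψ ≤ C) ∧
      (∀ κ : ℝ, 0 < κ → C / κ + 2 ≤ (X : ℝ) ^ c →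
        (∀ ψ ∈ Y, κ ≤ sN X (4 * (Real.log X) ^ B) ψ) → (Y.card : ℝ) ≤ C / κ) := by
  classical
  obtain ⟨C, c, hC, hc, h⟩ := Pool.MP_dd84fd_nt.BX.slBD_all ν h0 h1
  refine ⟨C, c, hC, hc, fun B => ?_⟩
  obtain ⟨X1, hX1⟩ := h (B + 1)
  obtain ⟨X2, hX2⟩ := MP_log_large 4
  refine ⟨max X1 X2, fun X hX Q hQ1 hQX Y hY => ?_⟩
  simp only [max_le_iff] at hX
  have hL := hX2 X hX.2
  set L : ℝ := Real.log X with hLd
  have hL1 : 1 ≤ L := by linarith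
  set T : ℝ := 4 * L ^ B with hT
  have hLB : (1 : ℝ) ≤ L ^ B := one_le_pow₀ hL1
  have hT1 : 1 ≤ T := by
    rw [hT]
    linarith
  have hT2 : T ≤ L ^ (B + 1) := by
    rw [hT, pow_succ, mul_comm (L ^ B)]
    exact mul_le_mul_of_nonneg_right hL (by positivity)
  have hP : ∀ S ⊆ Y, PFam S ((X : ℝ) ^ (2 / 3 - ν)) := by
    intro S hS
    refine ⟨fun ψ hψ => (hY ψ (hS hψ)).1, fun ψ hψ ψ' hψ' => ?_⟩
    have h2 := Nat.le_of_dvd (by omega) (Nat.lcm_dvd (hY ψ (hS hψ)).2.2 (hY ψ' (hS hψ')).2.2)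
    have h3 : (Nat.lcm ψ.1 ψ'.1 : ℝ) ≤ Q := by exact_mod_cast h2
    exact h3.trans hQX
  have hS : ∀ S ⊆ Y, (S.card : ℝ) ≤ (X : ℝ) ^ c → ∑ ψ ∈ S, sN X T ψ ≤ C := fun S hS hc' =>
    hX1 X hX.1 T hT1 hT2 S (hP S hS) (fun ψ hψ => (hY ψ (hS hψ)).2.1) hc'
  refine ⟨hS Y subset_rfl, fun κ hκ hκX hκY => ?_⟩
  have hsub : ∀ S ⊆ Y, (S.card : ℝ) ≤ (X : ℝ) ^ c → (S.card : ℝ) ≤ C / κ := by
    intro S hSY hSc
    have h2 := hS S hSY hSc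
    have h3 := card_nsmul_le_sum S (fun ψ => sN X T ψ) κ fun ψ hψ => hκY ψ (hSY hψ)
    rw [nsmul_eq_mul] at h3
    rw [le_div_iff₀ hκ]
    linarith
  by_contra hcon
  have hnot : ¬ (Y.card : ℝ) ≤ (X : ℝ) ^ c := fun h => hcon (hsub Y subset_rfl h)
  push Not at hnot
  have hX0 : (0 : ℝ) ≤ (X : ℝ) ^ c := by positivity
  have hfl : ⌊(X : ℝ) ^ c⌋₊ ≤ Y.card := by
    have h1 : ((⌊(X : ℝ) ^ c⌋₊ : ℕ) : ℝ) ≤ (X : ℝ) ^ c := Nat.floor_le hX0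
    have h2 : ((⌊(X : ℝ) ^ c⌋₊ : ℕ) : ℝ) ≤ Y.card := by linarith
    exact_mod_cast h2
  obtain ⟨S, hS1, hS2⟩ := exists_subset_card_eq hfl
  have h3 := hsub S hS1 (by rw [hS2]; exact Nat.floor_le hX0)
  rw [hS2] at h3
  have h4 : (X : ℝ) ^ c < ((⌊(X : ℝ) ^ c⌋₊ : ℕ) : ℝ) + 1 := Nat.lt_floor_add_one _
  linarith

/-- (L2N) -/
theorem l2N : L2N := by
  classical
  intro ν h0 h1
  obtain ⟨C, c, hC, hc, h⟩ := l2_l1 ν h0 h1
  refine ⟨2 * C, by positivity, fun B κ hκ hκ1 => ?_⟩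
  obtain ⟨X1, hX1⟩ := h B
  obtain ⟨A', X2, hX2⟩ := l2_light ν h0 h1 1 B
  obtain ⟨X3, hX3⟩ := MP_log_large (1 + 1 / (C * κ))
  obtain ⟨X4, hX4⟩ := MP_log_pow (C + 2) A' (ε := c) hc
  obtain ⟨X5, hX5⟩ := MP_log_pow (C / κ + 2) 0 (ε := c) hc
  refine ⟨max X1 (max X2 (max X3 (max X4 X5))), fun X hX Q hQ1 hQX Y hY => ?_⟩
  simp only [max_le_iff] at hX
  obtain ⟨gX1, gX2, gX3, gX4, gX5⟩ := hX
  have hL := hX3 X gX3
  have g4 := hX4 X gX4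
  have g5 := hX5 X gX5
  rw [pow_zero, mul_one] at g5
  set L : ℝ := Real.log X with hLd
  have hCκ : 0 < 1 / (C * κ) := by positivity
  have hL1 : 1 ≤ L := by linarith
  have hL0 : 0 < L := by linarith
  refine ⟨fun hκY => ?_, fun hκY => ?_⟩
  · refine ((hX1 X gX1 Q hQ1 hQX Y hY).2 κ hκ g5 hκY).trans ?_
    exact div_le_div_of_nonneg_right (by linarith) hκ.le
  · set T : ℝ := 4 * L ^ B with hT
    set P : PC → Prop := fun ψ => sN X T ψ ≤ 1 / L ^ A' with hPd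
    have hLA : (1 : ℝ) ≤ L ^ A' := one_le_pow₀ hL1
    rw [← sum_filter_add_sum_filter_not Y P]
    have k1 : ∑ ψ ∈ Y.filter P, sN X T ψ ^ 2 ≤ 1 / L ^ 1 :=
      hX2 X gX2 Q hQ1 hQX (Y.filter P) fun ψ hψ => by
        rw [mem_filter] at hψ
        obtain ⟨a1, a2, a3⟩ := hY ψ hψ.1
        exact ⟨a1, a2, a3, hψ.2⟩
    have k2 : ∑ ψ ∈ Y.filter (fun ψ => ¬ P ψ), sN X T ψ ^ 2 ≤ κ * C := by
      have hYs : ∀ ψ ∈ Y.filter (fun ψ => ¬ P ψ), IsPC ψ ∧ 2 ≤ ψ.1 ∧ ψ.1 ∣ Q := fun ψ hψ =>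
        hY ψ (mem_filter.1 hψ).1
      have hX1' := hX1 X gX1 Q hQ1 hQX _ hYs
      have hcard : (((Y.filter (fun ψ => ¬ P ψ)).card : ℕ) : ℝ) ≤ (X : ℝ) ^ c := by
        have h2 := hX1'.2 (1 / L ^ A') (by positivity) (by
          have e1 : C / (1 / L ^ A') = C * L ^ A' := by field_simp
          rw [e1]
          nlinarith) (fun ψ hψ => by
          have := (mem_filter.1 hψ).2
          rw [hPd] at this
          push Not at this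
          exact this.le)
        have e1 : C / (1 / L ^ A') = C * L ^ A' := by field_simp
        rw [e1] at h2
        nlinarith
      have h3 := hX1'.1 hcard
      calc ∑ ψ ∈ Y.filter (fun ψ => ¬ P ψ), sN X T ψ ^ 2
          ≤ ∑ ψ ∈ Y.filter (fun ψ => ¬ P ψ), κ * sN X T ψ := by
            refine sum_le_sum fun ψ hψ => ?_
            have h4 := hκY ψ (mem_filter.1 hψ).1
            have h5 : 0 ≤ sN X T ψ := by
              unfold sN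
              have : 0 ≤ Real.log (X : ℝ) := hL0.le
              positivity
            rw [sq]
            exact mul_le_mul_of_nonneg_right h4 h5
        _ = κ * ∑ ψ ∈ Y.filter (fun ψ => ¬ P ψ), sN X T ψ := (mul_sum _ _ _).symm
        _ ≤ κ * C := mul_le_mul_of_nonneg_left h3 hκ.le
    have k3 : 1 / L ^ 1 ≤ C * κ := by
      rw [pow_one, div_le_iff₀ hL0]
      have h6 : C * κ * (1 / (C * κ)) = 1 := by field_simp
      have h7 : C * κ * (1 / (C * κ)) ≤ C * κ * L :=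
        mul_le_mul_of_nonneg_left (by linarith) (by positivity)
      linarith
    linarith

end Pool.MP_dd84fd_nt.TC
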