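import Pool.Agent.Lib.MP_dd84fd_nt.TC.KfI

/-!
# TC-MMk: the sum of the kernel over the integers of an interval

`|kf((n-y)/Δ) - ∫_{n-1}^{n} kf((t-y)/Δ) dt| ≤ 4/Δ` by `kf_lip`; `∫ kf((t-y)/Δ) dt = Δ` by
`kf_integral`; the part outside `(M, N]` is at most `Δ · (Δ/(N-y)) + Δ · (Δ/(y-M))` by `kf_tail`
(and `kf_even`).
-/

set_option autoImplicit false

namespace Pool.MP_dd84fd_nt.TC

open Finset MeasureTheory

private theorem mmk_int (Δ y : ℝ) (hΔ : 0 < Δ) :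
    Integrable (fun t : ℝ => kf ((t - y) / Δ)) :=
  (kf_integrable.comp_div hΔ.ne').comp_sub_right y

private theorem mmk_total (Δ y : ℝ) (hΔ : 0 < Δ) : ∫ t : ℝ, kf ((t - y) / Δ) = Δ := by
  rw [integral_sub_right_eq_self (fun t : ℝ => kf (t / Δ)) y, Measure.integral_comp_div,
    kf_integral, abs_of_pos hΔ, smul_eq_mul, mul_one]

private theorem mmk_one (n : ℕ) (Δ y : ℝ) (hΔ : 0 < Δ) :
    |kf ((((n + 1 : ℕ) : ℝ) - y) / Δ) - ∫ t in (n : ℝ)..((n + 1 : ℕ) : ℝ), kf ((t - y) / Δ)| ≤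
      4 / Δ := by
  have hi : ∀ a b : ℝ, IntervalIntegrable (fun t : ℝ => kf ((t - y) / Δ)) volume a b :=
    fun a b => (mmk_int Δ y hΔ).intervalIntegrable
  have h1 : kf ((((n + 1 : ℕ) : ℝ) - y) / Δ) =
      ∫ _ in (n : ℝ)..((n + 1 : ℕ) : ℝ), kf ((((n + 1 : ℕ) : ℝ) - y) / Δ) := by
    rw [intervalIntegral.integral_const]
    push_cast
    rw [add_sub_cancel_left, one_smul]
  conv_lhs => rw [h1]
  rw [← intervalIntegral.integral_sub intervalIntegrable_const (hi _ _)]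
  have h2 : ∀ t ∈ Set.uIoc (n : ℝ) ((n + 1 : ℕ) : ℝ),
      ‖kf ((((n + 1 : ℕ) : ℝ) - y) / Δ) - kf ((t - y) / Δ)‖ ≤ 4 / Δ := by
    intro t ht
    rw [Set.uIoc_of_le (by push_cast; linarith)] at ht
    rw [Real.norm_eq_abs]
    refine (kf_lip _ _).trans ?_
    have h3 : (((n + 1 : ℕ) : ℝ) - y) / Δ - (t - y) / Δ = (((n + 1 : ℕ) : ℝ) - t) / Δ := by ring
    rw [h3, abs_div, abs_of_pos hΔ]
    have h4 : |((n + 1 : ℕ) : ℝ) - t| ≤ 1 := by
      have h5 := ht.1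
      have h6 := ht.2
      push_cast at h6 ⊢
      rw [abs_le]
      constructor <;> linarith
    rw [← mul_div_assoc]
    gcongr
    linarith
  have h3 := intervalIntegral.norm_integral_le_of_norm_le_const h2
  rw [Real.norm_eq_abs] at h3
  refine h3.trans (le_of_eq ?_)
  push_cast
  rw [add_sub_cancel_left, abs_one, mul_one]

private theorem mmk_sum (M N : ℕ) (hMN : M ≤ N) (Δ y : ℝ) (hΔ : 0 < Δ) :
    |∑ n ∈ Ioc M N, kf (((n : ℝ) - y) / Δ) - ∫ t in (M : ℝ)..(N : ℝ), kf ((t - y) / Δ)| ≤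
      4 * (((N : ℝ) - M) / Δ) := by
  induction N, hMN using Nat.le_induction with
  | base => simp
  | succ N hMN ih =>
    have hi : ∀ a b : ℝ, IntervalIntegrable (fun t : ℝ => kf ((t - y) / Δ)) volume a b :=
      fun a b => (mmk_int Δ y hΔ).intervalIntegrable
    have h1 : Ioc M (N + 1) = insert (N + 1) (Ioc M N) := by
      ext x
      simp only [mem_Ioc, mem_insert]
      omega
    have h2 : (N + 1) ∉ Ioc M N := by
      rw [mem_Ioc]
      omega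
    rw [h1, sum_insert h2, ← intervalIntegral.integral_add_adjacent_intervals (hi (M : ℝ) (N : ℝ))
      (hi (N : ℝ) ((N + 1 : ℕ) : ℝ))]
    have h3 := mmk_one N Δ y hΔ
    have h4 : kf ((((N + 1 : ℕ) : ℝ) - y) / Δ) + ∑ n ∈ Ioc M N, kf (((n : ℝ) - y) / Δ) -
        ((∫ t in (M : ℝ)..(N : ℝ), kf ((t - y) / Δ)) +
          ∫ t in (N : ℝ)..((N + 1 : ℕ) : ℝ), kf ((t - y) / Δ)) =
        (kf ((((N + 1 : ℕ) : ℝ) - y) / Δ) -
          ∫ t in (N : ℝ)..((N + 1 : ℕ) : ℝ), kf ((t - y) / Δ)) +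
        (∑ n ∈ Ioc M N, kf (((n : ℝ) - y) / Δ) -
          ∫ t in (M : ℝ)..(N : ℝ), kf ((t - y) / Δ)) := by ring
    rw [h4]
    refine (abs_add_le _ _).trans ((add_le_add h3 ih).trans (le_of_eq ?_))
    push_cast
    ring

private theorem mmk_tail_right (a Δ y : ℝ) (hΔ : 0 < Δ) (h : y < a) :
    ∫ t in Set.Ioi a, kf ((t - y) / Δ) ≤ Δ ^ 2 / (a - y) := by
  have h1 : ∫ t in Set.Ioi a, kf ((t - y) / Δ) = Δ * ∫ u in Set.Ioi ((a - y) / Δ), kf u := by
    rw [← integral_indicator measurableSet_Ioi, ← integral_indicator measurableSet_Ioi]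
    have h2 : (Set.Ioi a).indicator (fun t : ℝ => kf ((t - y) / Δ)) =
        fun t : ℝ => (Set.Ioi ((a - y) / Δ)).indicator kf ((t - y) / Δ) := by
      funext t
      by_cases ht : a < t
      · rw [Set.indicator_of_mem (show t ∈ Set.Ioi a from ht),
          Set.indicator_of_mem (show (t - y) / Δ ∈ Set.Ioi ((a - y) / Δ) from
            div_lt_div_of_pos_right (by linarith) hΔ)]
      · rw [Set.indicator_of_notMem (show t ∉ Set.Ioi a from ht),
          Set.indicator_of_notMem (show (t - y) / Δ ∉ Set.Ioi ((a - y) / Δ) from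
            not_lt.2 (div_le_div_of_nonneg_right (by linarith) hΔ.le))]
    rw [h2, integral_sub_right_eq_self
      (fun t : ℝ => (Set.Ioi ((a - y) / Δ)).indicator kf (t / Δ)) y, Measure.integral_comp_div,
      abs_of_pos hΔ, smul_eq_mul]
  rw [h1]
  have h3 := kf_tail ((a - y) / Δ) (div_pos (by linarith) hΔ)
  calc Δ * ∫ u in Set.Ioi ((a - y) / Δ), kf u ≤ Δ * (1 / ((a - y) / Δ)) :=
        mul_le_mul_of_nonneg_left h3 hΔ.le
    _ = Δ ^ 2 / (a - y) := by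
        have : a - y ≠ 0 := by linarith
        field_simp

private theorem mmk_tail_left (a Δ y : ℝ) (hΔ : 0 < Δ) (h : a < y) :
    ∫ t in Set.Iic a, kf ((t - y) / Δ) ≤ Δ ^ 2 / (y - a) := by
  have h1 : ∫ t in Set.Iic a, kf ((t - y) / Δ) = ∫ t in Set.Ioi (-a), kf ((t - (-y)) / Δ) := by
    rw [← integral_comp_neg_Iic a (fun t => kf ((t - (-y)) / Δ))]
    refine setIntegral_congr_fun measurableSet_Iic fun t _ => ?_
    show kf ((t - y) / Δ) = kf ((-t - -y) / Δ)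
    rw [← kf_even]
    congr 1
    ring
  rw [h1]
  refine (mmk_tail_right (-a) Δ (-y) hΔ (by linarith)).trans (le_of_eq ?_)
  congr 1
  ring

theorem mm_upper (N : ℕ) (Δ y : ℝ) (hΔ : 0 < Δ) :
    ∑ n ∈ Icc 1 N, kf (((n : ℝ) - y) / Δ) ≤ Δ + 4 * (N / Δ) := by
  have h1 := mmk_sum 0 N (Nat.zero_le N) Δ y hΔ
  have h2 : Icc 1 N = Ioc 0 N := by
    ext x
    simp only [mem_Icc, mem_Ioc]
    omega
  rw [h2]
  have h3 : ∫ t in ((0 : ℕ) : ℝ)..(N : ℝ), kf ((t - y) / Δ) ≤ Δ := by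
    rw [intervalIntegral.integral_of_le (by exact_mod_cast Nat.zero_le N)]
    conv_rhs => rw [← mmk_total Δ y hΔ]
    exact setIntegral_le_integral (mmk_int Δ y hΔ)
      (Filter.Eventually.of_forall fun t => kf_nonneg _)
  have h4 := (abs_le.1 h1).2
  rw [Nat.cast_zero, sub_zero] at h4
  rw [Nat.cast_zero] at h3
  linarith

theorem mm_in (M N : ℕ) (Δ y : ℝ) (hΔ : 0 < Δ) (h1 : (M : ℝ) < y) (h2 : y < N) :
    |∑ n ∈ Ioc M N, kf (((n : ℝ) - y) / Δ) - Δ| ≤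
      4 * (N / Δ) + Δ ^ 2 / (y - M) + Δ ^ 2 / (N - y) := by
  have hMN : M ≤ N := by
    have : (M : ℝ) < N := h1.trans h2
    exact_mod_cast this.le
  have h3 := mmk_sum M N hMN Δ y hΔ
  have hint := mmk_int Δ y hΔ
  have h4 := intervalIntegral.integral_Iic_sub_Iic (a := (M : ℝ)) (b := (N : ℝ))
    hint.integrableOn hint.integrableOn
  have h5 := intervalIntegral.integral_Iic_add_Ioi (b := (N : ℝ))
    hint.integrableOn hint.integrableOn
  rw [mmk_total Δ y hΔ] at h5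
  have h6 := mmk_tail_right N Δ y hΔ h2
  have h7 := mmk_tail_left M Δ y hΔ h1
  have h8 : 0 ≤ ∫ t in Set.Ioi (N : ℝ), kf ((t - y) / Δ) :=
    setIntegral_nonneg measurableSet_Ioi fun t _ => kf_nonneg _
  have h9 : 0 ≤ ∫ t in Set.Iic (M : ℝ), kf ((t - y) / Δ) :=
    setIntegral_nonneg measurableSet_Iic fun t _ => kf_nonneg _
  have h10 : 4 * (((N : ℝ) - M) / Δ) ≤ 4 * (N / Δ) := by
    have : (0 : ℝ) ≤ M := Nat.cast_nonneg M
    gcongr
    linarith
  rw [abs_le] at h3 ⊢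
  constructor <;> linarith [h3.1, h3.2]

end Pool.MP_dd84fd_nt.TC
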