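import Pool.Agent.Lib.MP_dd84fd_nt.TC.Cos
import Pool.Agent.Lib.MP_dd84fd_nt.TC.FP
import Pool.Agent.Lib.MP_dd84fd_nt.TC.HDefs

/-!
# TC-MaH: the masses of the classes modulo `W`, on average (`MaH`)

`par_c` with `W := 1`, `Q := W`, `E = {1}`: `∑_{a mod W} |φ(W) M(a) - S|² = φ(W) ∑_{χ ≠ 1 (W)} |F(χ)|²`
(`M(a)` the mass of the class `a`, `S` the mass of the window); the sum over the windows of `|F(χ)|²` is
bounded by `fp`, all the characters `χ ≠ 1` modulo `W` are light (`NoH`), so `L2N` bounds their total;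
`S` by `MassF` with `W = 1`.
-/

set_option autoImplicit false

namespace Pool.MP_dd84fd_nt.TC

open Finset Pool.MP_67663b_nt.Odd Pool.MP_dd84fd_nt.En Pool.MP_dd84fd_nt.E2 Pool.MP_dd84fd_nt.LS
open Pool.MP_dd84fd_nt.GX Pool.MP_dd84fd_nt.HX Pool.MP_dd84fd_nt.IX
open Pool.MP_dd84fd_nt.BX (PC pv IsPC PR SX sN prc ind)
open ComplexConjugate

private theorem mah_ind_prc {q : ℕ} (χ : DirichletCharacter ℂ q) :
    Pool.MP_dd84fd_nt.BX.ind q (prc χ) = χ := by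
  have h : (prc χ).1 ∣ q := χ.conductor_dvd_level
  unfold Pool.MP_dd84fd_nt.BX.ind
  rw [dif_pos h]
  exact DirichletCharacter.changeLevel_primitiveCharacter χ

private theorem mah_prc_inj {q : ℕ} : Function.Injective (prc (q := q)) := by
  intro χ χ' h
  rw [← mah_ind_prc χ, ← mah_ind_prc χ', h]

private theorem mah_isPC {q : ℕ} [NeZero q] (χ : DirichletCharacter ℂ q) : IsPC (prc χ) :=
  ⟨Nat.one_le_iff_ne_zero.2 (DirichletCharacter.conductor_ne_zero χ),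
    DirichletCharacter.primitiveCharacter_isPrimitive χ⟩

private theorem mah_int (X : ℕ) (hX : 3 ≤ X) (T : ℝ) (hT : 0 ≤ T) (ψ : PC) :
    ∫ x in (-(T / X))..(T / X), ‖SX X ψ x‖ ^ 2 =
      X / (Real.log X) ^ 2 * sN X T ψ ^ 2 := by
  have hX0 : (0 : ℝ) < X := by exact_mod_cast (by omega : 0 < X)
  have hL : 0 < Real.log X := Real.log_pos (by exact_mod_cast (by omega : 1 < X))
  have hI : 0 ≤ ∫ x in (-(T / X))..(T / X), ‖SX X ψ x‖ ^ 2 := by
    refine intervalIntegral.integral_nonneg ?_ fun x _ => sq_nonneg _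
    have : 0 ≤ T / X := by positivity
    linarith
  unfold sN
  rw [mul_pow, div_pow, Real.sq_sqrt hI, Real.sq_sqrt hX0.le]
  field_simp

private theorem mah_large (C2 κ : ℝ) (hC2 : 0 < C2) (hκ : 0 < κ) (B : ℕ) :
    ∃ X0 : ℕ, ∀ X : ℕ, X0 ≤ X → 4 * C2 * (Real.log X) ^ (B + 2) ≤ κ * X := by
  have h1 := (Real.isLittleO_pow_log_id_atTop (n := B + 2)).comp_tendsto
    (tendsto_natCast_atTop_atTop (R := ℝ))
  have h2 := h1.bound (show (0 : ℝ) < κ / (4 * C2) by positivity)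
  obtain ⟨X0, hX0⟩ := Filter.eventually_atTop.1 h2
  refine ⟨X0, fun X hX => ?_⟩
  have h3 := hX0 X hX
  simp only [Function.comp_apply, id, Real.norm_eq_abs, Nat.abs_cast] at h3
  have h4 := (le_abs_self _).trans h3
  rw [div_mul_eq_mul_div, le_div_iff₀ (by positivity)] at h4
  linarith

open Classical in
/-- one window -/
private theorem mah_one (X R W : ℕ) (hR : 1 ≤ R) (hWR : W ∣ R) (Δ y s η : ℝ) (hs : 0 < s)
    (FF : Finset (DirichletCharacter ℂ W)) (hFF : ∀ χ, χ ≠ 1 → χ ∈ FF)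
    (hsW : (Nat.totient W : ℝ) * sw X Δ W = s)
    (hS : |∑ p ∈ UP X R, kf (((p : ℝ) - y) / Δ) - s| ≤ η * s) :
    ∑ c ∈ range W, Dv X Δ R W y (c : ZMod W) ≤
      2 * (Nat.totient W : ℝ) / s ^ 2 *
        ∑ χ ∈ FF,
          ‖∑ p ∈ UP X R, ((kf (((p : ℝ) - y) / Δ) : ℝ) : ℂ) * χ (p : ZMod W)‖ ^ 2 +
      2 * (Nat.totient W : ℝ) * η ^ 2 := by
  have hW1 : 1 ≤ W := Nat.pos_of_dvd_of_pos hWR hR
  have : NeZero W := ⟨by omega⟩
  have hφ : (0 : ℝ) < Nat.totient W := by exact_mod_cast Nat.totient_pos.2 hW1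
  obtain ⟨φ, hφd⟩ : ∃ φ : ℝ, φ = Nat.totient W := ⟨_, rfl⟩
  obtain ⟨S, hSd⟩ : ∃ S : ℝ, S = ∑ p ∈ UP X R, kf (((p : ℝ) - y) / Δ) := ⟨_, rfl⟩
  rw [← hSd] at hS
  have hcop : ∀ p ∈ UP X R, Nat.Coprime p W := by
    intro p hp
    unfold UP at hp
    rw [mem_filter] at hp
    exact Nat.Coprime.coprime_dvd_right hWR hp.2.2.2
  -- Parseval
  have hpar := par_c (W := 1) (Q := W) (one_dvd W) 1 isUnit_one (UP X R) hcop
    (fun p => kf (((p : ℝ) - y) / Δ)) (fun p _ h => absurd (Subsingleton.elim _ _) h)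
    {1} (by
      intro χ hχ χ' hχ' hne
      rw [mem_singleton] at hχ hχ'
      exact absurd (hχ.trans hχ'.symm) hne)
  have hfil : (univ : Finset (DirichletCharacter ℂ W)).filter
      (fun χ => ∀ χ' ∈ ({1} : Finset (DirichletCharacter ℂ W)), ¬ Eqv 1 χ' χ) ⊆ FF := by
    intro χ hχ
    rw [mem_filter] at hχ
    refine hFF χ fun h => hχ.2 1 (mem_singleton_self _) ⟨one_dvd W, 1, ?_⟩
    rw [h, map_one, mul_one]
  have hrhs : ∑ χ ∈ (univ : Finset (DirichletCharacter ℂ W)).filter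
        (fun χ => ∀ χ' ∈ ({1} : Finset (DirichletCharacter ℂ W)), ¬ Eqv 1 χ' χ),
        ‖∑ p ∈ UP X R, ((kf (((p : ℝ) - y) / Δ) : ℝ) : ℂ) * χ (p : ZMod W)‖ ^ 2 ≤
      ∑ χ ∈ FF,
        ‖∑ p ∈ UP X R, ((kf (((p : ℝ) - y) / Δ) : ℝ) : ℂ) * χ (p : ZMod W)‖ ^ 2 :=
    sum_le_sum_of_subset_of_nonneg hfil fun _ _ _ => sq_nonneg _
  obtain ⟨F, hF⟩ : ∃ F : ℝ, F = ∑ χ ∈ FF,
        ‖∑ p ∈ UP X R, ((kf (((p : ℝ) - y) / Δ) : ℝ) : ℂ) * χ (p : ZMod W)‖ ^ 2 := ⟨_, rfl⟩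
  rw [← hF] at hrhs ⊢
  -- the left side
  have hmass : ∀ a : ℕ, ∑ p ∈ UP X R, wv Δ y W (a : ZMod W) p =
      ∑ p ∈ (UP X R).filter (fun p => p ≡ a [MOD W]), kf (((p : ℝ) - y) / Δ) := by
    intro a
    rw [sum_filter]
    refine sum_congr rfl fun p _ => ?_
    unfold wv
    by_cases h : p ≡ a [MOD W]
    · rw [if_pos h, if_pos ((ZMod.natCast_eq_natCast_iff p a W).mpr h)]
    · rw [if_neg h, if_neg (fun h' => h ((ZMod.natCast_eq_natCast_iff p a W).mp h'))]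
  have hleft : ∀ a ∈ AC W 1 1, ‖((Nat.totient W : ℂ) / (Nat.totient 1 : ℂ)) *
        (∑ p ∈ (UP X R).filter (fun p => p ≡ a [MOD W]), ((kf (((p : ℝ) - y) / Δ) : ℝ) : ℂ)) -
        ∑ χ ∈ ({1} : Finset (DirichletCharacter ℂ W)),
          (∑ p ∈ UP X R, ((kf (((p : ℝ) - y) / Δ) : ℝ) : ℂ) * χ (p : ZMod W)) *
            conj (χ (a : ZMod W))‖ ^ 2 =
      (φ * ∑ p ∈ UP X R, wv Δ y W (a : ZMod W) p - S) ^ 2 := by
    intro a ha
    unfold AC at ha
    rw [mem_filter, mem_range] at ha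
    have h1 : (1 : DirichletCharacter ℂ W) (a : ZMod W) = 1 :=
      MulChar.one_apply ((ZMod.isUnit_iff_coprime a W).2 ha.2.1)
    have h2 : ∑ p ∈ UP X R, ((kf (((p : ℝ) - y) / Δ) : ℝ) : ℂ) *
        (1 : DirichletCharacter ℂ W) (p : ZMod W) = ((S : ℝ) : ℂ) := by
      rw [hSd, Complex.ofReal_sum]
      refine sum_congr rfl fun p hp => ?_
      rw [MulChar.one_apply ((ZMod.isUnit_iff_coprime p W).2 (hcop p hp)), mul_one]
    rw [sum_singleton, h1, h2, map_one, mul_one, hmass a, hφd, Nat.totient_one, Nat.cast_one,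
      div_one]
    have h3 : (Nat.totient W : ℂ) *
        (∑ p ∈ (UP X R).filter (fun p => p ≡ a [MOD W]), ((kf (((p : ℝ) - y) / Δ) : ℝ) : ℂ)) -
        ((S : ℝ) : ℂ) = (((Nat.totient W : ℝ) *
          ∑ p ∈ (UP X R).filter (fun p => p ≡ a [MOD W]), kf (((p : ℝ) - y) / Δ) - S : ℝ) : ℂ) := by
      push_cast
      rfl
    rw [h3, Complex.norm_real, Real.norm_eq_abs, sq_abs]
  rw [sum_congr rfl hleft, Nat.totient_one, Nat.cast_one, one_pow, div_one] at hpar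
  have hkey : ∑ a ∈ AC W 1 1, (φ * ∑ p ∈ UP X R, wv Δ y W (a : ZMod W) p - S) ^ 2 ≤ φ * F := by
    rw [hpar, hφd]
    exact mul_le_mul_of_nonneg_left hrhs hφ.le
  -- the deviation
  have hDv : ∑ c ∈ range W, Dv X Δ R W y (c : ZMod W) =
      ∑ a ∈ AC W 1 1, ((∑ p ∈ UP X R, wv Δ y W (a : ZMod W) p) / sw X Δ W - 1) ^ 2 := by
    unfold AC
    rw [sum_filter]
    refine sum_congr rfl fun a _ => ?_
    unfold Dv
    by_cases h : Nat.Coprime a W
    · rw [if_pos ((ZMod.isUnit_iff_coprime a W).2 h), if_pos ⟨h, Subsingleton.elim _ _⟩]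
    · rw [if_neg (fun h' => h ((ZMod.isUnit_iff_coprime a W).1 h')), if_neg (fun h' => h h'.1)]
  rw [hDv]
  have hsw : sw X Δ W = s / φ := by
    rw [← hsW, ← hφd]
    have : φ ≠ 0 := by rw [hφd]; exact hφ.ne'
    field_simp
  have hφ' : 0 < φ := by rw [hφd]; exact hφ
  have hterm : ∀ a ∈ AC W 1 1, ((∑ p ∈ UP X R, wv Δ y W (a : ZMod W) p) / sw X Δ W - 1) ^ 2 ≤
      2 / s ^ 2 * (φ * ∑ p ∈ UP X R, wv Δ y W (a : ZMod W) p - S) ^ 2 + 2 * η ^ 2 := by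
    intro a _
    obtain ⟨M, hM⟩ : ∃ M : ℝ, M = ∑ p ∈ UP X R, wv Δ y W (a : ZMod W) p := ⟨_, rfl⟩
    rw [← hM, hsw]
    have h1 : M / (s / φ) - 1 = (φ * M - S) / s + (S - s) / s := by
      field_simp
      ring
    have h2 : ((S - s) / s) ^ 2 ≤ η ^ 2 := by
      rw [← sq_abs]
      have h3 : |(S - s) / s| ≤ η := by
        rw [abs_div, abs_of_pos hs, div_le_iff₀ hs]
        exact hS
      exact pow_le_pow_left₀ (abs_nonneg _) h3 2
    have h3 : 2 / s ^ 2 * (φ * M - S) ^ 2 = 2 * ((φ * M - S) / s) ^ 2 := by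
      rw [div_pow]
      ring
    rw [h1, h3]
    nlinarith [sq_nonneg ((φ * M - S) / s - (S - s) / s)]
  refine (sum_le_sum hterm).trans ?_
  rw [sum_add_distrib, ← mul_sum, sum_const, nsmul_eq_mul]
  have hcard : ((AC W 1 1).card : ℝ) ≤ φ := by
    rw [hφd]
    have h1 : AC W 1 1 ⊆ (range W).filter (fun a => W.Coprime a) := by
      intro a ha
      unfold AC at ha
      rw [mem_filter] at ha ⊢
      exact ⟨ha.1, ha.2.1.symm⟩
    have h2 := card_le_card h1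
    rw [← Nat.totient_eq_card_coprime] at h2
    exact_mod_cast h2
  have h1 : 2 / s ^ 2 * ∑ a ∈ AC W 1 1, (φ * ∑ p ∈ UP X R, wv Δ y W (a : ZMod W) p - S) ^ 2 ≤
      2 / s ^ 2 * (φ * F) := mul_le_mul_of_nonneg_left hkey (by positivity)
  have h2 : ((AC W 1 1).card : ℝ) * (2 * η ^ 2) ≤ φ * (2 * η ^ 2) :=
    mul_le_mul_of_nonneg_right hcard (by positivity)
  have h3 : 2 * φ / s ^ 2 * F = 2 / s ^ 2 * (φ * F) := by ring
  rw [← hφd, h3]
  linarith

theorem maH (h : L2N) (hM : MassF) : MaH := by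
  classical
  intro ν hν0 hν1
  obtain ⟨C1, hC1, hL2⟩ := h ν hν0 hν1
  obtain ⟨C2, hC2, hfp⟩ := fp
  refine ⟨8 * C1 + 8, by positivity, fun B κ hB hκ0 hκ1 => ?_⟩
  obtain ⟨X1, hX1⟩ := hL2 B κ hκ0 hκ1
  obtain ⟨X2, hX2⟩ := mah_large C2 κ hC2 hκ0 B
  obtain ⟨X4, hX4⟩ := hM B 0 κ hB hκ0
  refine ⟨max (max X1 X2) (max 3 X4), fun X hX R W hR hRX hWR hWX hNo y₀ σ hσ J hJ hJr => ?_⟩
  have hXa : X1 ≤ X := le_trans (le_trans (le_max_left _ _) (le_max_left _ _)) hX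
  have hXb : X2 ≤ X := le_trans (le_trans (le_max_right _ _) (le_max_left _ _)) hX
  have hX3 : 3 ≤ X := le_trans (le_trans (le_max_left _ _) (le_max_right _ _)) hX
  have hXd : X4 ≤ X := le_trans (le_trans (le_max_right _ _) (le_max_right _ _)) hX
  have hW1 : 1 ≤ W := Nat.pos_of_dvd_of_pos hWR hR
  have : NeZero W := ⟨by omega⟩
  have hX0 : (0 : ℝ) < X := by exact_mod_cast (by omega : 0 < X)
  have hX3' : (3 : ℝ) ≤ X := by exact_mod_cast hX3
  have hL1 : 1 ≤ Real.log X := by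
    rw [Real.le_log_iff_exp_le hX0]
    exact Real.exp_one_lt_three.le.trans hX3'
  have hL : 0 < Real.log X := by linarith
  have hbig := hX2 X hXb
  have hT0 : 0 ≤ 4 * (Real.log X) ^ B := by positivity
  have hΔ : 0 < Dl B X := by
    unfold Dl
    positivity
  have hΔT : 1 / Dl B X = 4 * (Real.log X) ^ B / X := by
    unfold Dl
    rw [one_div_div]
  have hXΔ : 1 ≤ (X : ℝ) / Dl B X := by
    have h1 : (X : ℝ) / Dl B X = 4 * (Real.log X) ^ B := by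
      unfold Dl
      field_simp
    rw [h1]
    have h2 : 1 ≤ (Real.log X) ^ B := one_le_pow₀ hL1
    linarith
  have hφ : (0 : ℝ) < Nat.totient W := by exact_mod_cast Nat.totient_pos.2 hW1
  obtain ⟨s, hs⟩ : ∃ s : ℝ, s = Dl B X / Real.log X := ⟨_, rfl⟩
  have hs0 : 0 < s := by
    rw [hs]
    positivity
  have hsW : (Nat.totient W : ℝ) * sw X (Dl B X) W = s := by
    rw [hs, sw]
    field_simp
  have hs1 : sw X (Dl B X) 1 = s := by
    rw [hs, sw, Nat.totient_one, Nat.cast_one, one_mul]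
  -- the mass of a window
  have hS : ∀ j ∈ J, |∑ p ∈ UP X R, kf (((p : ℝ) - (y₀ + σ * (j * Dl B X / 2))) / Dl B X) - s| ≤
      κ * s := by
    intro j hj
    have h1 := hX4 X hXd R 1 hR hRX (one_dvd R) (by rw [pow_zero, Nat.cast_one]) 1 isUnit_one
      (y₀ + σ * (j * Dl B X / 2)) (hJr j hj).1 (hJr j hj).2
    rw [hs1] at h1
    have h2 : ∑ p ∈ UP X R, wv (Dl B X) (y₀ + σ * (j * Dl B X / 2)) 1 1 p =
        ∑ p ∈ UP X R, kf (((p : ℝ) - (y₀ + σ * (j * Dl B X / 2))) / Dl B X) := by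
      refine sum_congr rfl fun p _ => ?_
      unfold wv
      rw [if_pos (Subsingleton.elim _ _)]
    rwa [h2] at h1
  -- the characters
  obtain ⟨FF, hFF⟩ : ∃ FF : Finset (DirichletCharacter ℂ W), FF =
    (univ : Finset (DirichletCharacter ℂ W)).erase 1 := ⟨_, rfl⟩
  have hcond : ∀ χ ∈ FF, IsPC (prc χ) ∧ 2 ≤ (prc χ).1 ∧ (prc χ).1 ∣ W := by
    intro χ hχ
    rw [hFF, mem_erase] at hχ
    have h1 := mah_isPC χ
    have h2 : (prc χ).1 ≠ 1 := fun h3 =>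
      hχ.1 (DirichletCharacter.eq_one_iff_conductor_eq_one.2 h3)
    refine ⟨h1, ?_, χ.conductor_dvd_level⟩
    have h3 := h1.1
    omega
  have hsum : ∑ χ ∈ FF, sN X (4 * (Real.log X) ^ B) (prc χ) ^ 2 ≤ C1 * κ := by
    have h1 := (hX1 X hXa W hW1 hWX (FF.image prc) (by
      intro ψ hψ
      obtain ⟨χ, hχ, rfl⟩ := Finset.mem_image.1 hψ
      exact hcond χ hχ)).2 (by
      intro ψ hψ
      obtain ⟨χ, hχ, rfl⟩ := Finset.mem_image.1 hψ
      obtain ⟨h2, h3, h4⟩ := hcond χ hχ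
      exact hNo _ h2 h3 h4)
    rwa [Finset.sum_image (fun a _ b _ hab => mah_prc_inj hab)] at h1
  have hFcard : (FF.card : ℝ) ≤ X := by
    have h1 : FF.card ≤ Fintype.card (DirichletCharacter ℂ W) := Finset.card_le_univ FF
    have h2 : Fintype.card (DirichletCharacter ℂ W) = Nat.totient W := by
      rw [← Nat.card_eq_fintype_card]
      exact DirichletCharacter.card_eq_totient_of_hasEnoughRootsOfUnity ℂ W
    have h3 : FF.card ≤ X := by
      calc FF.card ≤ Nat.totient W := h2 ▸ h1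
        _ ≤ W := Nat.totient_le W
        _ ≤ R := Nat.le_of_dvd hR hWR
        _ ≤ X := hRX
    exact_mod_cast h3
  have hchi : ∀ χ ∈ FF, ∑ j ∈ J, ‖∑ p ∈ UP X R,
      ((kf (((p : ℝ) - (y₀ + σ * (j * Dl B X / 2))) / Dl B X) : ℝ) : ℂ) *
        χ (p : ZMod W)‖ ^ 2 ≤
      4 * Dl B X * (X / (Real.log X) ^ 2 * sN X (4 * (Real.log X) ^ B) (prc χ) ^ 2) + C2 := by
    intro χ _
    have h1 := hfp X hX3 R W hR hRX hWR χ (Dl B X) hΔ y₀ σ hσ J
    rw [hΔT, mah_int X hX3 _ hT0] at h1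
    exact h1
  have hJc : (J.card : ℝ) ≤ 3 * (X / Dl B X) := by
    have h1 : J.card ≤ ⌈(X : ℝ) / Dl B X⌉₊ + 1 := by
      refine (card_le_card hJ).trans ?_
      unfold JW
      refine (card_filter_le _ _).trans ?_
      rw [card_range]
    have h2 : (J.card : ℝ) ≤ (⌈(X : ℝ) / Dl B X⌉₊ : ℝ) + 1 := by exact_mod_cast h1
    have h3 := Nat.ceil_lt_add_one (show 0 ≤ (X : ℝ) / Dl B X by positivity)
    linarith
  have hone : ∀ j ∈ J, ∑ c ∈ range W,
      Dv X (Dl B X) R W (y₀ + σ * (j * Dl B X / 2)) (c : ZMod W) ≤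
      2 * (Nat.totient W : ℝ) / s ^ 2 * ∑ χ ∈ FF, ‖∑ p ∈ UP X R,
      ((kf (((p : ℝ) - (y₀ + σ * (j * Dl B X / 2))) / Dl B X) : ℝ) : ℂ) *
        χ (p : ZMod W)‖ ^ 2 + 2 * (Nat.totient W : ℝ) * κ ^ 2 := by
    intro j hj
    exact mah_one X R W hR hWR (Dl B X) (y₀ + σ * (j * Dl B X / 2)) s κ hs0 FF
      (fun χ hχ => by rw [hFF, mem_erase]; exact ⟨hχ, mem_univ _⟩) hsW (hS j hj)
  have hkey : C2 * (X * (Real.log X) ^ 2) ≤ κ * X * Dl B X := by
    have h1 : κ * X * Dl B X = X * (κ * X) / (4 * (Real.log X) ^ B) := by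
      unfold Dl
      ring
    rw [h1, le_div_iff₀ (by positivity)]
    have h2 : C2 * (X * (Real.log X) ^ 2) * (4 * (Real.log X) ^ B) =
        X * (4 * C2 * (Real.log X) ^ (B + 2)) := by
      rw [pow_add]
      ring
    rw [h2]
    exact mul_le_mul_of_nonneg_left hbig hX0.le
  have hmain : 2 * (Nat.totient W : ℝ) / s ^ 2 * (4 * Dl B X * (X / (Real.log X) ^ 2) *
      (∑ χ ∈ FF, sN X (4 * (Real.log X) ^ B) (prc χ) ^ 2) + C2 * FF.card) ≤
      (8 * C1 + 2) * κ * Nat.totient W * (X / Dl B X) := by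
    calc 2 * (Nat.totient W : ℝ) / s ^ 2 * (4 * Dl B X * (X / (Real.log X) ^ 2) *
        (∑ χ ∈ FF, sN X (4 * (Real.log X) ^ B) (prc χ) ^ 2) + C2 * FF.card)
        ≤ 2 * (Nat.totient W : ℝ) / s ^ 2 * (4 * Dl B X * (X / (Real.log X) ^ 2) * (C1 * κ) +
          C2 * X) := by
          apply mul_le_mul_of_nonneg_left _ (by positivity)
          apply add_le_add
          · exact mul_le_mul_of_nonneg_left hsum (by positivity)
          · exact mul_le_mul_of_nonneg_left hFcard hC2.le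
      _ = 2 * (Nat.totient W / (Dl B X) ^ 2 * (4 * Dl B X * X * (C1 * κ) +
          C2 * (X * (Real.log X) ^ 2))) := by
          rw [hs]
          field_simp
      _ ≤ 2 * (Nat.totient W / (Dl B X) ^ 2 * (4 * Dl B X * X * (C1 * κ) +
          κ * X * Dl B X)) := by
          apply mul_le_mul_of_nonneg_left _ (by norm_num)
          apply mul_le_mul_of_nonneg_left _ (by positivity)
          linarith
      _ = (8 * C1 + 2) * κ * Nat.totient W * (X / Dl B X) := by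
          field_simp
          ring
  have hκ2 : κ ^ 2 ≤ κ := by nlinarith
  have hrest : (J.card : ℝ) * (2 * (Nat.totient W : ℝ) * κ ^ 2) ≤
      6 * κ * Nat.totient W * (X / Dl B X) := by
    calc (J.card : ℝ) * (2 * (Nat.totient W : ℝ) * κ ^ 2)
        ≤ (3 * (X / Dl B X)) * (2 * (Nat.totient W : ℝ) * κ) := by gcongr
      _ = 6 * κ * Nat.totient W * (X / Dl B X) := by ring
  calc ∑ j ∈ J, ∑ c ∈ range W, Dv X (Dl B X) R W (y₀ + σ * (j * Dl B X / 2)) (c : ZMod W)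
      ≤ ∑ j ∈ J, (2 * (Nat.totient W : ℝ) / s ^ 2 * ∑ χ ∈ FF, ‖∑ p ∈ UP X R,
        ((kf (((p : ℝ) - (y₀ + σ * (j * Dl B X / 2))) / Dl B X) : ℝ) : ℂ) *
          χ (p : ZMod W)‖ ^ 2 + 2 * (Nat.totient W : ℝ) * κ ^ 2) := sum_le_sum hone
    _ = 2 * (Nat.totient W : ℝ) / s ^ 2 * (∑ χ ∈ FF, ∑ j ∈ J, ‖∑ p ∈ UP X R,
        ((kf (((p : ℝ) - (y₀ + σ * (j * Dl B X / 2))) / Dl B X) : ℝ) : ℂ) *
          χ (p : ZMod W)‖ ^ 2) + J.card * (2 * (Nat.totient W : ℝ) * κ ^ 2) := by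
        rw [sum_add_distrib, ← mul_sum, sum_comm, sum_const, nsmul_eq_mul]
    _ ≤ 2 * (Nat.totient W : ℝ) / s ^ 2 * (∑ χ ∈ FF, (4 * Dl B X * (X / (Real.log X) ^ 2 *
          sN X (4 * (Real.log X) ^ B) (prc χ) ^ 2) + C2)) +
        J.card * (2 * (Nat.totient W : ℝ) * κ ^ 2) := by
        gcongr with χ hχ
        exact hchi χ hχ
    _ = 2 * (Nat.totient W : ℝ) / s ^ 2 * (4 * Dl B X * (X / (Real.log X) ^ 2) *
          (∑ χ ∈ FF, sN X (4 * (Real.log X) ^ B) (prc χ) ^ 2) + C2 * FF.card) +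
        J.card * (2 * (Nat.totient W : ℝ) * κ ^ 2) := by
        rw [Finset.sum_add_distrib, Finset.sum_const, nsmul_eq_mul, Finset.mul_sum]
        congr 3
        · exact Finset.sum_congr rfl fun χ _ => by ring
        · ring
    _ ≤ (8 * C1 + 2) * κ * Nat.totient W * (X / Dl B X) +
        6 * κ * Nat.totient W * (X / Dl B X) := add_le_add hmain hrest
    _ = (8 * C1 + 8) * κ * Nat.totient W * (X / Dl B X) := by ring

end Pool.MP_dd84fd_nt.TC
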