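import Pool.Agent.Lib.MP_dd84fd_nt.TC.Defs
import Pool.Agent.Lib.MP_dd84fd_nt.TC.MMk
import Pool.Agent.Lib.MP_dd84fd_nt.TC.Abk
import Pool.Agent.Lib.MP_dd84fd_nt.SW.SWPsi

/-!
# TC-MsP: the primes in the windows and in the classes modulo `W`, `MassF`

`L = log X`, `Δ = X/(4 L^B)`.
1. `SW.sw_theta (B + K + A) (K + 1)` at every `k ∈ [X^(1/10), X]` (there `W ≤ L^K ≤ (log k)^(K+1)` for large
   `X`): `|∑_{p ≤ k, p ≡ c} log p - k/φ(W)| ≤ k/(log k)^A'`; for `k < X^(1/10)` trivially `≤ X^(1/5)`.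
   (`c` a unit modulo `W`: a representative `c'`, coprime to `W`.)
2. `f(n) = 1_{n prime, n ≡ c} log n - 1/φ(W)`, partial sums `≤ X/L^A`; `abk_real`:
   `|∑_{p ≤ X, p ≡ c} kf log p - (1/φ(W)) ∑_{n ≤ X} kf| ≤ 4 (1 + 4 L^B) X/L^A`.
3. `mm_in` with `M = 0`, `N = X`, `y ∈ [X/20, 9X/10]`: `∑_{n ≤ X} kf = Δ (1 + O(Δ/X)) + O(L^B)
   = Δ (1 + O(1/L^B))`.
4. Replace `log p` by `L`: for `X/40 ≤ p ≤ X`, `0 ≤ L - log p ≤ log 40`, so
   `|kf - kf log p/L| ≤ 4 kf log p/(L log p)`.. `≤ (8/L²) kf log p`; for `p < X/40` `kf ≤ (Δ/(π (y - X/40)))² ≤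
   4000 /L^(2B)`... (`kf_decay`) and `∑_{p < X/40, p ≡ c} 1 ≤ C X/(φ(W) L)` (from 1 by dyadic pieces or:
   primes `≤ √X` trivially, for the others `log p ≥ L/2` and 1), total `≤ C L^(-2B) X/(φ(W) L) =
   (4 C L^(-B)) sw`.
5. The primes `p < zI X` or `p | R` (the latter: at most `10` with `p ≥ zI X`, since `R ≤ X`) contribute at
   most `X^(1/10) + 11`, negligible against `sw ≥ X/(4 L^(B+K+1))`.
-/

set_option autoImplicit false

namespace Pool.MP_dd84fd_nt.TC

open Finset
open Pool.MP_dd84fd_nt.IX (zI)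

private theorem msp_card_pf (R X : ℕ) (hR : 1 ≤ R) (hRX : R ≤ X) :
    (R.primeFactors.card : ℝ) ≤ 2 * Real.log X := by
  have h1 : 2 ^ R.primeFactors.card ≤ R := by
    calc 2 ^ R.primeFactors.card ≤ ∏ p ∈ R.primeFactors, p :=
          Finset.pow_card_le_prod _ _ _ fun p hp => (Nat.prime_of_mem_primeFactors hp).two_le
      _ ≤ R := Nat.le_of_dvd hR (Nat.prod_primeFactors_dvd R)
  have h2 : (2 : ℝ) ^ R.primeFactors.card ≤ X := by exact_mod_cast h1.trans hRX
  have h3 := Real.log_le_log (by positivity) h2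
  rw [Real.log_pow] at h3
  have h4 : (1 : ℝ) / 2 ≤ Real.log 2 := by
    have := Real.log_two_gt_d9
    linarith
  have h5 : (R.primeFactors.card : ℝ) * (1 / 2) ≤ R.primeFactors.card * Real.log 2 :=
    mul_le_mul_of_nonneg_left h4 (Nat.cast_nonneg _)
  linarith

/-- partial sums -/
private theorem msp_part (A K X1 : ℕ)
    (hsw : ∀ X : ℕ, X1 ≤ X → ∀ r c : ℕ, 1 ≤ r → (r : ℝ) ≤ Real.log X ^ (K + 1) →
      Nat.Coprime c r →
      |∑ p ∈ (Icc 1 X).filter (fun n => n.Prime ∧ n ≡ c [MOD r]), Real.log p -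
        X / (Nat.totient r : ℝ)| ≤ X / Real.log X ^ (A + 1))
    (X W : ℕ) (hW : 1 ≤ W) (c : ZMod W) (hc : IsUnit c) (hWK : (W : ℝ) ≤ Real.log X ^ K)
    (hL0 : 1 ≤ Real.log X) (hL1 : (10 : ℝ) ^ (A + 1) ≤ Real.log X)
    (hL2 : (10 : ℝ) ^ (K + 1) ≤ Real.log X)
    (hX1 : (X1 : ℝ) ≤ (X : ℝ) ^ (1 / 10 : ℝ)) (hX2 : 2 * Real.log X ^ (A + 1) ≤ √X)
    (k : ℕ) (hk : k ≤ X) :
    |∑ n ∈ Icc 1 k, ((if n.Prime ∧ (n : ZMod W) = c then Real.log n else 0) -
      1 / (Nat.totient W : ℝ))| ≤ X / Real.log X ^ A := by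
  have hφ : (1 : ℝ) ≤ Nat.totient W := by
    exact_mod_cast Nat.totient_pos.2 hW
  have hX0 : (0 : ℝ) < X := by
    by_contra h
    have h1 : (X : ℝ) = 0 := le_antisymm (not_lt.1 h) (Nat.cast_nonneg _)
    rw [h1, Real.log_zero] at hL0
    linarith
  have hX1' : (1 : ℝ) ≤ X := by
    have : 0 < X := by exact_mod_cast hX0
    exact_mod_cast this
  set L := Real.log X with hL
  have hLpos : 0 < L := by linarith
  have : NeZero W := ⟨by omega⟩
  by_cases hkX : (X : ℝ) ^ (1 / 10 : ℝ) ≤ k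
  · have hkX1 : X1 ≤ k := by exact_mod_cast hX1.trans hkX
    have hk0 : (0 : ℝ) < (X : ℝ) ^ (1 / 10 : ℝ) := Real.rpow_pos_of_pos hX0 _
    have hlk : L / 10 ≤ Real.log k := by
      have h1 := Real.log_le_log hk0 hkX
      rw [Real.log_rpow hX0] at h1
      rw [hL]
      linarith
    have hlk0 : 0 < L / 10 := by linarith
    have hWk : (W : ℝ) ≤ Real.log k ^ (K + 1) := by
      calc (W : ℝ) ≤ L ^ K := hWK
        _ ≤ (L / 10) ^ (K + 1) := by
            rw [div_pow, le_div_iff₀ (by positivity), pow_succ L K]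
            exact mul_le_mul_of_nonneg_left hL2 (by positivity)
        _ ≤ _ := pow_le_pow_left₀ hlk0.le hlk _
    have hcop : Nat.Coprime c.val W := by
      rw [← ZMod.isUnit_iff_coprime, ZMod.natCast_zmod_val]
      exact hc
    have h1 := hsw k hkX1 W c.val hW hWk hcop
    have h2 : ∑ n ∈ Icc 1 k, ((if n.Prime ∧ (n : ZMod W) = c then Real.log n else 0) -
        1 / (Nat.totient W : ℝ)) =
        ∑ p ∈ (Icc 1 k).filter (fun n => n.Prime ∧ n ≡ c.val [MOD W]), Real.log p -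
          k / (Nat.totient W : ℝ) := by
      rw [Finset.sum_sub_distrib, Finset.sum_const, Nat.card_Icc, Nat.add_sub_cancel,
        nsmul_eq_mul, Finset.sum_filter, mul_one_div]
      congr 1
      refine Finset.sum_congr rfl fun n _ => ?_
      have h3 : (n : ZMod W) = c ↔ n ≡ c.val [MOD W] := by
        rw [← ZMod.natCast_eq_natCast_iff, ZMod.natCast_zmod_val]
      simp only [h3]
    rw [h2]
    refine h1.trans ?_
    have hkX' : (k : ℝ) ≤ X := by exact_mod_cast hk
    calc (k : ℝ) / Real.log k ^ (A + 1) ≤ X / (L / 10) ^ (A + 1) :=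
          div_le_div₀ hX0.le hkX' (by positivity) (pow_le_pow_left₀ hlk0.le hlk _)
      _ ≤ X / L ^ A := by
          apply div_le_div_of_nonneg_left hX0.le (by positivity)
          rw [div_pow, le_div_iff₀ (by positivity), pow_succ L A]
          exact mul_le_mul_of_nonneg_left hL1 (by positivity)
  · have hk' : (k : ℝ) ≤ (X : ℝ) ^ (1 / 10 : ℝ) := (not_le.1 hkX).le
    have h1 : ∀ n ∈ Icc 1 k, |(if n.Prime ∧ (n : ZMod W) = c then Real.log n else 0) -
        1 / (Nat.totient W : ℝ)| ≤ L + 1 := by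
      intro n hn
      rw [mem_Icc] at hn
      have h2 : (0 : ℝ) ≤ 1 / (Nat.totient W : ℝ) := by positivity
      have h3 : 1 / (Nat.totient W : ℝ) ≤ 1 := by
        rw [div_le_one (by linarith)]
        exact hφ
      have h4 : 0 ≤ Real.log n := Real.log_natCast_nonneg n
      have h5 : Real.log n ≤ L := by
        apply Real.log_le_log
        · have : 0 < n := by omega
          exact_mod_cast this
        · exact_mod_cast hn.2.trans hk
      rw [abs_le]
      split_ifs
      · constructor <;> linarith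
      · constructor <;> linarith
    calc |∑ n ∈ Icc 1 k, ((if n.Prime ∧ (n : ZMod W) = c then Real.log n else 0) -
          1 / (Nat.totient W : ℝ))| ≤ ∑ n ∈ Icc 1 k, (L + 1) :=
          (Finset.abs_sum_le_sum_abs _ _).trans (Finset.sum_le_sum h1)
      _ = k * (L + 1) := by
          rw [Finset.sum_const, Nat.card_Icc, Nat.add_sub_cancel, nsmul_eq_mul]
      _ ≤ √X * (2 * L) := by
          apply mul_le_mul _ (by linarith) (by linarith) (Real.sqrt_nonneg _)
          refine hk'.trans ?_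
          rw [Real.sqrt_eq_rpow]
          exact Real.rpow_le_rpow_of_exponent_le hX1' (by norm_num)
      _ ≤ X / L ^ A := by
          rw [le_div_iff₀ (by positivity)]
          calc √X * (2 * L) * L ^ A = √X * (2 * L ^ (A + 1)) := by ring
            _ ≤ √X * √X := mul_le_mul_of_nonneg_left hX2 (Real.sqrt_nonneg _)
            _ = X := Real.mul_self_sqrt hX0.le

/-- the weighted count -/
private theorem msp_T1 (B K : ℕ) (hB : 1 ≤ B) (X W : ℕ) (hW : 1 ≤ W) (c : ZMod W) (y : ℝ)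
    (hWK : (W : ℝ) ≤ Real.log X ^ K) (hL0 : 1 ≤ Real.log X)
    (hX2 : 64 * Real.log X ^ (2 * B + K + 10) ≤ √X)
    (hy1 : (X : ℝ) / 20 ≤ y) (hy2 : y ≤ 9 / 10 * X)
    (hpart : ∀ k : ℕ, k ≤ X →
      |∑ n ∈ Icc 1 k, ((if n.Prime ∧ (n : ZMod W) = c then Real.log n else 0) -
        1 / (Nat.totient W : ℝ))| ≤ X / Real.log X ^ (2 * B + K + 2)) :
    |∑ n ∈ Icc 1 X, kf (((n : ℝ) - y) / Dl B X) *
        (if n.Prime ∧ (n : ZMod W) = c then Real.log n else 0) -
      Dl B X / (Nat.totient W : ℝ)| ≤ 89 / Real.log X * (Dl B X / (Nat.totient W : ℝ)) := by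
  have hφ : (1 : ℝ) ≤ Nat.totient W := by
    exact_mod_cast Nat.totient_pos.2 hW
  have hφ0 : (0 : ℝ) < Nat.totient W := by linarith
  have hφW : (Nat.totient W : ℝ) ≤ W := by exact_mod_cast Nat.totient_le W
  have hX0 : (0 : ℝ) < X := by
    by_contra h
    have h1 : (X : ℝ) = 0 := le_antisymm (not_lt.1 h) (Nat.cast_nonneg _)
    rw [h1, Real.log_zero] at hL0
    linarith
  set L := Real.log X with hL
  have hLpos : 0 < L := by linarith
  set Δ := Dl B X with hΔ
  have hΔdef : Δ = X / (4 * L ^ B) := rfl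
  have hΔ0 : 0 < Δ := by rw [hΔdef]; positivity
  have hXΔ : (X : ℝ) / Δ = 4 * L ^ B := by
    rw [hΔdef]
    field_simp
  set φ : ℝ := (Nat.totient W : ℝ) with hφdef
  have h1 := abk_real (fun n => (if n.Prime ∧ (n : ZMod W) = c then Real.log n else 0) - 1 / φ)
    X Δ y (X / L ^ (2 * B + K + 2)) hΔ0 hpart
  have h2 := mm_in 0 X Δ y hΔ0 (by
    rw [Nat.cast_zero]
    exact lt_of_lt_of_le (by positivity) hy1) (by nlinarith)
  have hIoc : Finset.Ioc 0 X = Icc 1 X := by
    ext n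
    rw [Finset.mem_Ioc, Finset.mem_Icc]
    omega
  rw [hIoc, hXΔ, Nat.cast_zero, sub_zero] at h2
  rw [hXΔ] at h1
  have h3 : ∑ n ∈ Icc 1 X, kf (((n : ℝ) - y) / Δ) *
      ((if n.Prime ∧ (n : ZMod W) = c then Real.log n else 0) - 1 / φ) =
      ∑ n ∈ Icc 1 X, kf (((n : ℝ) - y) / Δ) *
        (if n.Prime ∧ (n : ZMod W) = c then Real.log n else 0) -
      1 / φ * ∑ n ∈ Icc 1 X, kf (((n : ℝ) - y) / Δ) := by
    rw [Finset.mul_sum, ← Finset.sum_sub_distrib]
    exact Finset.sum_congr rfl fun n _ => by ring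
  rw [h3] at h1
  set T1 := ∑ n ∈ Icc 1 X, kf (((n : ℝ) - y) / Δ) *
        (if n.Prime ∧ (n : ZMod W) = c then Real.log n else 0) with hT1
  set M := ∑ n ∈ Icc 1 X, kf (((n : ℝ) - y) / Δ) with hM
  -- lower bound for the main term
  have hLB1 : 1 ≤ L ^ B := one_le_pow₀ hL0
  have hD : X / (4 * L ^ (B + K)) ≤ Δ / φ := by
    rw [hΔdef, div_div]
    apply div_le_div_of_nonneg_left hX0.le (by positivity)
    rw [pow_add, ← mul_assoc]
    exact mul_le_mul_of_nonneg_left (hφW.trans hWK) (by positivity)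
  have hD0 : 0 < Δ / φ := by positivity
  -- first error
  have e1 : 4 * (1 + 4 * L ^ B) * (X / L ^ (2 * B + K + 2)) ≤ 80 / L * (Δ / φ) := by
    calc 4 * (1 + 4 * L ^ B) * (X / L ^ (2 * B + K + 2)) ≤
          20 * L ^ B * (X / L ^ (2 * B + K + 2)) := by
          apply mul_le_mul_of_nonneg_right _ (by positivity)
          linarith
      _ = 80 / L ^ 2 * (X / (4 * L ^ (B + K))) := by
          have : L ^ (2 * B + K + 2) = L ^ B * L ^ (B + K) * L ^ 2 := by ring
          rw [this]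
          field_simp
          norm_num
      _ ≤ 80 / L * (X / (4 * L ^ (B + K))) := by
          apply mul_le_mul_of_nonneg_right _ (by positivity)
          apply div_le_div_of_nonneg_left (by norm_num) hLpos
          nlinarith
      _ ≤ 80 / L * (Δ / φ) := mul_le_mul_of_nonneg_left hD (by positivity)
  -- second error
  have hyX : Δ ^ 2 / y ≤ 5 / L ^ B * Δ := by
    have hy0 : 0 < y := lt_of_lt_of_le (by positivity) hy1
    calc Δ ^ 2 / y ≤ Δ ^ 2 / (X / 20) :=
          div_le_div_of_nonneg_left (by positivity) (by positivity) hy1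
      _ = 5 / L ^ B * Δ := by
          rw [hΔdef]
          field_simp
          norm_num
  have hyX2 : Δ ^ 2 / (X - y) ≤ 5 / 2 / L ^ B * Δ := by
    calc Δ ^ 2 / (X - y) ≤ Δ ^ 2 / (X / 10) :=
          div_le_div_of_nonneg_left (by positivity) (by positivity) (by linarith)
      _ = 5 / 2 / L ^ B * Δ := by
          rw [hΔdef]
          field_simp
          norm_num
  have hLB : 1 / L ^ B ≤ 1 / L := by
    apply div_le_div_of_nonneg_left (by norm_num) hLpos
    calc L = L ^ 1 := (pow_one L).symm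
      _ ≤ L ^ B := pow_le_pow_right₀ hL0 hB
  have hsq : √(X : ℝ) * √X = X := Real.mul_self_sqrt hX0.le
  have hs1 : 1 ≤ √(X : ℝ) := by
    have h4 : (1 : ℝ) ≤ L ^ (2 * B + K + 10) := one_le_pow₀ hL0
    linarith
  have hXbig : 64 * L ^ (2 * B + K + 10) ≤ X := by nlinarith
  have e3 : 4 * (4 * L ^ B) ≤ 1 / L * Δ := by
    rw [hΔdef, div_mul_div_comm, one_mul, le_div_iff₀ (by positivity)]
    calc 4 * (4 * L ^ B) * (L * (4 * L ^ B)) = 64 * L ^ (2 * B + 1) := by ring
      _ ≤ 64 * L ^ (2 * B + K + 10) := by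
          apply mul_le_mul_of_nonneg_left _ (by norm_num)
          exact pow_le_pow_right₀ hL0 (by omega)
      _ ≤ X := hXbig
  have e2 : |M - Δ| ≤ 9 / L * Δ := by
    have h4 : 5 / L ^ B * Δ ≤ 5 / L * Δ := by
      apply mul_le_mul_of_nonneg_right _ hΔ0.le
      have : 5 / L ^ B = 5 * (1 / L ^ B) := by ring
      rw [this]
      have : 5 / L = 5 * (1 / L) := by ring
      rw [this]
      linarith
    have h5 : 5 / 2 / L ^ B * Δ ≤ 5 / 2 / L * Δ := by
      apply mul_le_mul_of_nonneg_right _ hΔ0.le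
      have : 5 / 2 / L ^ B = 5 / 2 * (1 / L ^ B) := by ring
      rw [this]
      have : 5 / 2 / L = 5 / 2 * (1 / L) := by ring
      rw [this]
      linarith
    have h6 : 1 / L * Δ + 5 / L * Δ + 5 / 2 / L * Δ ≤ 9 / L * Δ := by
      have : 1 / L * Δ + 5 / L * Δ + 5 / 2 / L * Δ = 17 / 2 * (1 / L * Δ) := by ring
      rw [this]
      have : 9 / L * Δ = 9 * (1 / L * Δ) := by ring
      rw [this]
      have : 0 ≤ 1 / L * Δ := by positivity
      linarith
    linarith
  have e2' : |1 / φ * M - Δ / φ| ≤ 9 / L * (Δ / φ) := by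
    have h4 : 1 / φ * M - Δ / φ = 1 / φ * (M - Δ) := by ring
    rw [h4, abs_mul, abs_of_nonneg (by positivity : (0 : ℝ) ≤ 1 / φ)]
    calc 1 / φ * |M - Δ| ≤ 1 / φ * (9 / L * Δ) := mul_le_mul_of_nonneg_left e2 (by positivity)
      _ = 9 / L * (Δ / φ) := by ring
  have h4 : T1 - Δ / φ = (T1 - 1 / φ * M) + (1 / φ * M - Δ / φ) := by ring
  rw [h4]
  calc |(T1 - 1 / φ * M) + (1 / φ * M - Δ / φ)| ≤ |T1 - 1 / φ * M| + |1 / φ * M - Δ / φ| :=
        abs_add_le _ _
    _ ≤ 80 / L * (Δ / φ) + 9 / L * (Δ / φ) := add_le_add (h1.trans e1) e2'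
    _ = 89 / L * (Δ / φ) := by ring

/-- pointwise comparison of `log n` with `L` -/
private theorem msp_point (B : ℕ) (X n : ℕ) (y : ℝ) (hL0 : 16 ≤ Real.log X) (hn1 : 1 ≤ n)
    (hnX : n ≤ X) (hy1 : (X : ℝ) / 20 ≤ y) :
    kf (((n : ℝ) - y) / Dl B X) * (Real.log X - Real.log n) ≤
      8 / Real.log X * (kf (((n : ℝ) - y) / Dl B X) * Real.log n) +
        12 / Real.log X ^ (2 * B) * Real.log n +
        (if (n : ℝ) ≤ √X then Real.log X else 0) := by
  have hX0 : (0 : ℝ) < X := by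
    have : 0 < X := by omega
    exact_mod_cast this
  have hn0 : (0 : ℝ) < n := by exact_mod_cast hn1
  set L := Real.log X with hL
  have hLpos : 0 < L := by linarith
  set Δ := Dl B X with hΔ
  have hΔdef : Δ = X / (4 * L ^ B) := rfl
  have hΔ0 : 0 < Δ := by rw [hΔdef]; positivity
  set u := ((n : ℝ) - y) / Δ with hu
  have hk0 := kf_nonneg u
  have hk1 := kf_le_one u
  have hln : 0 ≤ Real.log n := Real.log_natCast_nonneg n
  have hnL : Real.log n ≤ L := Real.log_le_log hn0 (by exact_mod_cast hnX)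
  have hA : 0 ≤ 8 / L * (kf u * Real.log n) := by positivity
  have hB : 0 ≤ 12 / L ^ (2 * B) * Real.log n := by positivity
  by_cases hns : (n : ℝ) ≤ √X
  · rw [if_pos hns]
    have h1 : kf u * (L - Real.log n) ≤ 1 * (L - 0) :=
      mul_le_mul hk1 (by linarith) (by linarith) zero_le_one
    linarith
  · rw [if_neg hns, add_zero]
    have hhalf : L / 2 ≤ Real.log n := by
      have h1 := Real.log_le_log (Real.sqrt_pos.2 hX0) (not_le.1 hns).le
      rw [Real.log_sqrt hX0.le] at h1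
      exact h1
    by_cases h40 : (X : ℝ) / 40 ≤ n
    · have h1 : L - 4 ≤ Real.log n := by
        have h2 := Real.log_le_log (by positivity) h40
        rw [Real.log_div hX0.ne' (by norm_num)] at h2
        have h3 : Real.log 40 ≤ 4 := by
          rw [Real.log_le_iff_le_exp (by norm_num)]
          have h4 : (2.7 : ℝ) ≤ Real.exp 1 := by
            have := Real.exp_one_gt_d9
            linarith
          have h5 : Real.exp 4 = Real.exp 1 ^ 4 := by
            rw [← Real.exp_nat_mul]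
            norm_num
          rw [h5]
          calc (40 : ℝ) ≤ 2.7 ^ 4 := by norm_num
            _ ≤ Real.exp 1 ^ 4 := pow_le_pow_left₀ (by norm_num) h4 4
        linarith
      have h2 : L - Real.log n ≤ 8 / L * Real.log n := by
        have h3 : (4 : ℝ) = 8 / L * (L / 2) := by
          field_simp
          norm_num
        have h4 : 8 / L * (L / 2) ≤ 8 / L * Real.log n :=
          mul_le_mul_of_nonneg_left hhalf (by positivity)
        linarith
      calc kf u * (L - Real.log n) ≤ kf u * (8 / L * Real.log n) :=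
            mul_le_mul_of_nonneg_left h2 hk0
        _ = 8 / L * (kf u * Real.log n) := by ring
        _ ≤ _ := le_add_of_nonneg_right hB
    · have h41 : (n : ℝ) < X / 40 := not_le.1 h40
      have h1 : kf u ≤ 12 / L ^ (2 * B) := by
        have h2 := kf_decay u
        have h3 : L ^ (2 * B) / 12 ≤ (Real.pi * u) ^ 2 := by
          have h4 : L ^ B / 10 ≤ |u| := by
            rw [hu, abs_div, abs_of_pos hΔ0, le_div_iff₀ hΔ0, abs_sub_comm, abs_of_pos (by linarith),
              hΔdef]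
            have h5 : L ^ B / 10 * (X / (4 * L ^ B)) = X / 40 := by
              field_simp
              norm_num
            rw [h5]
            linarith
          have h6 : (L ^ B / 10) ^ 2 ≤ u ^ 2 := by
            rw [← sq_abs u]
            exact pow_le_pow_left₀ (by positivity) h4 2
          have h7 : (9 : ℝ) ≤ Real.pi ^ 2 := by
            have := Real.pi_gt_three
            nlinarith
          calc L ^ (2 * B) / 12 ≤ 9 * (L ^ B / 10) ^ 2 := by
                have : (L ^ B / 10) ^ 2 = L ^ (2 * B) / 100 := by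
                  rw [div_pow, ← pow_mul, mul_comm B 2]
                  norm_num
                rw [this]
                have : 0 ≤ L ^ (2 * B) := by positivity
                linarith
            _ ≤ Real.pi ^ 2 * u ^ 2 := mul_le_mul h7 h6 (by positivity) (by positivity)
            _ = (Real.pi * u) ^ 2 := by ring
        rw [le_div_iff₀ (by positivity)]
        have h8 : kf u * (L ^ (2 * B) / 12) ≤ kf u * (Real.pi * u) ^ 2 :=
          mul_le_mul_of_nonneg_left h3 hk0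
        linarith
      calc kf u * (L - Real.log n) ≤ 12 / L ^ (2 * B) * Real.log n :=
            mul_le_mul h1 (by linarith) (by linarith) (by positivity)
        _ ≤ _ := le_add_of_nonneg_left hA

private theorem msp_sqrt_card (X : ℕ) (S : Finset ℕ) (hS : S ⊆ Icc 1 X) :
    ((S.filter fun n : ℕ => (n : ℝ) ≤ √X).card : ℝ) ≤ √X := by
  have h1 : (S.filter fun n : ℕ => (n : ℝ) ≤ √X) ⊆ Icc 1 ⌊√(X : ℝ)⌋₊ := by
    intro n hn
    rw [mem_filter] at hn
    have := mem_Icc.1 (hS hn.1)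
    rw [mem_Icc]
    exact ⟨this.1, Nat.le_floor hn.2⟩
  have h2 := card_le_card h1
  rw [Nat.card_Icc, Nat.add_sub_cancel] at h2
  calc ((S.filter fun n : ℕ => (n : ℝ) ≤ √X).card : ℝ) ≤ (⌊√(X : ℝ)⌋₊ : ℝ) := by exact_mod_cast h2
    _ ≤ √X := Nat.floor_le (Real.sqrt_nonneg _)

theorem massF : MassF := by
  classical
  intro B K η hB hη
  obtain ⟨X1, hX1⟩ := SW.sw_theta (2 * B + K + 2 + 1) (K + 1)
  set Λ0 : ℝ := 210 / η + 10 ^ (2 * B + K + 2 + 1) + 200 with hΛ0
  have hev1 : ∀ᶠ X : ℕ in Filter.atTop, Λ0 ≤ Real.log X :=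
    (Real.tendsto_log_atTop.comp tendsto_natCast_atTop_atTop).eventually_ge_atTop _
  have hev2 : ∀ᶠ X : ℕ in Filter.atTop, ‖Real.log X ^ ((2 * B + K + 10 : ℕ) : ℝ)‖ ≤
      1 / 64 * ‖(X : ℝ) ^ (1 / 2 : ℝ)‖ :=
    tendsto_natCast_atTop_atTop.eventually
      ((isLittleO_log_rpow_rpow_atTop ((2 * B + K + 10 : ℕ) : ℝ)
        (by norm_num : (0 : ℝ) < 1 / 2)).bound (by norm_num))
  have hev3 : ∀ᶠ X : ℕ in Filter.atTop, (X1 : ℝ) ≤ (X : ℝ) ^ (1 / 10 : ℝ) :=
    ((tendsto_rpow_atTop (by norm_num : (0 : ℝ) < 1 / 10)).comp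
      tendsto_natCast_atTop_atTop).eventually_ge_atTop _
  obtain ⟨X0, hX0⟩ := Filter.eventually_atTop.1 (hev1.and (hev2.and hev3))
  refine ⟨X0, fun X hX R W hR hRX hWR hWK c hc y hy1 hy2 => ?_⟩
  obtain ⟨c1, c2, c3⟩ := hX0 X hX
  have h10 : (1 : ℝ) ≤ 10 ^ (2 * B + K + 2 + 1) := one_le_pow₀ (by norm_num)
  have hη0 : 0 < 210 / η := by positivity
  have hL200 : 200 ≤ Real.log X := by linarith
  have hL0 : 1 ≤ Real.log X := by linarith
  have hLA : (10 : ℝ) ^ (2 * B + K + 2 + 1) ≤ Real.log X := by linarith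
  have hLK : (10 : ℝ) ^ (K + 1) ≤ Real.log X :=
    (pow_le_pow_right₀ (by norm_num) (by omega)).trans hLA
  have hLη : 210 / η ≤ Real.log X := by linarith
  have hXnat : 0 < X := by omega
  have hXpos : (0 : ℝ) < X := by exact_mod_cast hXnat
  have hX2 : 64 * Real.log X ^ (2 * B + K + 10) ≤ √X := by
    rw [Real.rpow_natCast, Real.norm_of_nonneg (by positivity),
      Real.norm_of_nonneg (by positivity), ← Real.sqrt_eq_rpow] at c2
    linarith
  have hW : 1 ≤ W := Nat.pos_of_dvd_of_pos hWR (by omega)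
  have hpart := msp_part (2 * B + K + 2) K X1 hX1 X W hW c hc hWK hL0 hLA hLK c3 (by
    refine le_trans ?_ hX2
    apply mul_le_mul (by norm_num) (pow_le_pow_right₀ hL0 (by omega)) (by positivity)
      (by norm_num))
  have hT1 := msp_T1 B K hB X W hW c y hWK hL0 hX2 hy1 hy2 hpart
  have hφ : (1 : ℝ) ≤ Nat.totient W := by exact_mod_cast Nat.totient_pos.2 hW
  have hφW : (Nat.totient W : ℝ) ≤ W := by exact_mod_cast Nat.totient_le W
  set L := Real.log X with hL
  have hLpos : 0 < L := by linarith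
  set Δ := Dl B X with hΔ
  have hΔdef : Δ = X / (4 * L ^ B) := rfl
  have hΔ0 : 0 < Δ := by rw [hΔdef]; positivity
  set φ : ℝ := (Nat.totient W : ℝ) with hφdef
  have hφ0 : 0 < φ := by linarith
  have hD0 : 0 < Δ / φ := by positivity
  have hD : X / (4 * L ^ (B + K)) ≤ Δ / φ := by
    rw [hΔdef, div_div]
    apply div_le_div_of_nonneg_left hXpos.le (by positivity)
    rw [pow_add, ← mul_assoc]
    exact mul_le_mul_of_nonneg_left (hφW.trans hWK) (by positivity)
  have hsq : √(X : ℝ) * √X = X := Real.mul_self_sqrt hXpos.le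
  have hs0 : 0 < √(X : ℝ) := Real.sqrt_pos.2 hXpos
  have hs1 : 1 ≤ √(X : ℝ) := by
    have h4 : (1 : ℝ) ≤ L ^ (2 * B + K + 10) := one_le_pow₀ hL0
    linarith
  -- small terms
  have hsmall : 4 * L ^ 2 * √X ≤ 1 / L * (Δ / φ) := by
    refine le_trans ?_ (mul_le_mul_of_nonneg_left hD (by positivity))
    rw [div_mul_div_comm, one_mul, le_div_iff₀ (by positivity)]
    calc 4 * L ^ 2 * √X * (L * (4 * L ^ (B + K))) = √X * (16 * L ^ (B + K + 3)) := by ring
      _ ≤ √X * √X := by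
          apply mul_le_mul_of_nonneg_left _ hs0.le
          refine le_trans ?_ hX2
          apply mul_le_mul (by norm_num) (pow_le_pow_right₀ hL0 (by omega)) (by positivity)
            (by norm_num)
      _ = X := hsq
  -- the sets
  set P : Finset ℕ := (Icc 1 X).filter (fun n : ℕ => n.Prime ∧ (n : ZMod W) = c) with hP
  have hPsub : P ⊆ Icc 1 X := filter_subset _ _
  set kk : ℕ → ℝ := fun n => kf (((n : ℝ) - y) / Δ) with hkk
  have hkk0 : ∀ n, 0 ≤ kk n := fun n => kf_nonneg _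
  have hkk1 : ∀ n, kk n ≤ 1 := fun n => kf_le_one _
  have hT1' : ∑ n ∈ Icc 1 X, kf (((n : ℝ) - y) / Δ) *
      (if n.Prime ∧ (n : ZMod W) = c then Real.log n else 0) = ∑ n ∈ P, kk n * Real.log n := by
    rw [hP, sum_filter]
    refine sum_congr rfl fun n _ => ?_
    split_ifs
    · rfl
    · rw [mul_zero]
  rw [hT1'] at hT1
  set T1 := ∑ n ∈ P, kk n * Real.log n with hT1def
  set T0 := ∑ n ∈ P, kk n with hT0def
  have hT1D := abs_le.1 hT1
  have h89 : 89 / L * (Δ / φ) ≤ Δ / φ := by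
    have : 89 / L ≤ 1 := by
      rw [div_le_one hLpos]
      linarith
    calc 89 / L * (Δ / φ) ≤ 1 * (Δ / φ) := mul_le_mul_of_nonneg_right this hD0.le
      _ = _ := one_mul _
  have hT12 : T1 ≤ 2 * (Δ / φ) := by linarith [hT1D.2]
  -- theta
  have hth : ∑ n ∈ P, Real.log n ≤ 2 * (X / φ) := by
    have h1 := hpart X le_rfl
    rw [sum_sub_distrib, sum_const, Nat.card_Icc, Nat.add_sub_cancel, nsmul_eq_mul,
      ← sum_filter, mul_one_div] at h1
    have h2 := (abs_le.1 h1).2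
    have h3 : X / L ^ (2 * B + K + 2) ≤ X / φ := by
      apply div_le_div_of_nonneg_left hXpos.le hφ0
      exact (hφW.trans hWK).trans (pow_le_pow_right₀ hL0 (by omega))
    linarith
  -- comparison of T0 and T1
  have hcmp : L * T0 - T1 ≤ 8 / L * T1 + 12 / L ^ (2 * B) * ∑ n ∈ P, Real.log n + L * √X := by
    have h1 : L * T0 - T1 = ∑ n ∈ P, kk n * (L - Real.log n) := by
      rw [hT0def, hT1def, mul_sum, ← sum_sub_distrib]
      exact sum_congr rfl fun n _ => by ring
    rw [h1]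
    have h2 : ∑ n ∈ P, kk n * (L - Real.log n) ≤ ∑ n ∈ P, (8 / L * (kk n * Real.log n) +
        12 / L ^ (2 * B) * Real.log n + (if (n : ℝ) ≤ √X then L else 0)) := by
      refine sum_le_sum fun n hn => ?_
      have hn' := mem_Icc.1 (hPsub hn)
      exact msp_point B X n y (by linarith) hn'.1 hn'.2 hy1
    refine h2.trans ?_
    rw [sum_add_distrib, sum_add_distrib, ← mul_sum, ← mul_sum, ← sum_filter, sum_const,
      nsmul_eq_mul]
    have h3 : ((P.filter fun n : ℕ => (n : ℝ) ≤ √X).card : ℝ) * L ≤ √X * L :=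
      mul_le_mul_of_nonneg_right (msp_sqrt_card X P hPsub) hLpos.le
    linarith
  have hcmp0 : 0 ≤ L * T0 - T1 := by
    have h1 : L * T0 - T1 = ∑ n ∈ P, kk n * (L - Real.log n) := by
      rw [hT0def, hT1def, mul_sum, ← sum_sub_distrib]
      exact sum_congr rfl fun n _ => by ring
    rw [h1]
    refine sum_nonneg fun n hn => ?_
    have hn' := mem_Icc.1 (hPsub hn)
    have h2 : Real.log n ≤ L := Real.log_le_log (by exact_mod_cast hn'.1)
      (by exact_mod_cast hn'.2)
    exact mul_nonneg (hkk0 n) (by linarith)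
  have h12 : 12 / L ^ (2 * B) * ∑ n ∈ P, Real.log n ≤ 96 / L * (Δ / φ) := by
    calc 12 / L ^ (2 * B) * ∑ n ∈ P, Real.log n ≤ 12 / L ^ (2 * B) * (2 * (X / φ)) :=
          mul_le_mul_of_nonneg_left hth (by positivity)
      _ = 96 / L ^ B * (Δ / φ) := by
          have : L ^ (2 * B) = L ^ B * L ^ B := by ring
          rw [hΔdef, this]
          field_simp
          norm_num
      _ ≤ 96 / L * (Δ / φ) := by
          apply mul_le_mul_of_nonneg_right _ hD0.le
          apply div_le_div_of_nonneg_left (by norm_num) hLpos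
          calc L = L ^ 1 := (pow_one L).symm
            _ ≤ L ^ B := pow_le_pow_right₀ hL0 hB
  have h8 : 8 / L * T1 ≤ 16 / L * (Δ / φ) := by
    calc 8 / L * T1 ≤ 8 / L * (2 * (Δ / φ)) := mul_le_mul_of_nonneg_left hT12 (by positivity)
      _ = 16 / L * (Δ / φ) := by ring
  -- the sifted sum
  set S := ∑ p ∈ UP X R, wv Δ y W c p with hSdef
  have hS : S = ∑ n ∈ P.filter (fun n => zI X ≤ n ∧ Nat.Coprime n R), kk n := by
    rw [hSdef]
    unfold wv
    rw [← sum_filter]
    refine sum_congr ?_ fun n _ => rfl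
    ext n
    unfold UP
    rw [mem_filter, mem_filter, mem_filter, hP, mem_filter]
    tauto
  have hdiff : T0 - S = ∑ n ∈ P.filter (fun n => ¬ (zI X ≤ n ∧ Nat.Coprime n R)), kk n := by
    rw [hS, hT0def, ← sum_filter_add_sum_filter_not P (fun n => zI X ≤ n ∧ Nat.Coprime n R)]
    ring
  have hd0 : 0 ≤ T0 - S := by
    rw [hdiff]
    exact sum_nonneg fun n _ => hkk0 n
  have hz : (zI X : ℝ) ≤ √X + 1 := by
    unfold zI
    have h1 : (⌈(X : ℝ) ^ (1 / 10 : ℝ)⌉₊ : ℝ) < (X : ℝ) ^ (1 / 10 : ℝ) + 1 :=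
      Nat.ceil_lt_add_one (by positivity)
    have h2 : (X : ℝ) ^ (1 / 10 : ℝ) ≤ √X := by
      rw [Real.sqrt_eq_rpow]
      exact Real.rpow_le_rpow_of_exponent_le (by exact_mod_cast hXnat) (by norm_num)
    linarith
  have hd1 : T0 - S ≤ 4 * L * √X := by
    rw [hdiff]
    have h1 : ∑ n ∈ P.filter (fun n => ¬ (zI X ≤ n ∧ Nat.Coprime n R)), kk n ≤
        ((P.filter (fun n => ¬ (zI X ≤ n ∧ Nat.Coprime n R))).card : ℝ) := by
      calc _ ≤ ∑ n ∈ P.filter (fun n => ¬ (zI X ≤ n ∧ Nat.Coprime n R)), (1 : ℝ) :=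
            sum_le_sum fun n _ => hkk1 n
        _ = _ := by rw [sum_const, nsmul_eq_mul, mul_one]
    have h2 : P.filter (fun n => ¬ (zI X ≤ n ∧ Nat.Coprime n R)) ⊆
        Icc 1 (zI X) ∪ R.primeFactors := by
      intro n hn
      rw [mem_filter, hP, mem_filter, mem_Icc] at hn
      rw [mem_union, mem_Icc]
      by_cases hz' : n ≤ zI X
      · exact Or.inl ⟨hn.1.1.1, hz'⟩
      · right
        rw [Nat.mem_primeFactors]
        refine ⟨hn.1.2.1, ?_, by omega⟩
        by_contra hnd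
        exact hn.2 ⟨(not_le.1 hz').le, (Nat.Prime.coprime_iff_not_dvd hn.1.2.1).2 hnd⟩
    have h3 : ((P.filter (fun n => ¬ (zI X ≤ n ∧ Nat.Coprime n R))).card : ℝ) ≤
        (zI X : ℝ) + (R.primeFactors.card : ℝ) := by
      have h4 := (card_le_card h2).trans (card_union_le _ _)
      rw [Nat.card_Icc, Nat.add_sub_cancel] at h4
      exact_mod_cast h4
    have h5 := msp_card_pf R X hR hRX
    have h6 : √X + 1 + 2 * L ≤ 4 * L * √X := by nlinarith
    linarith
  have hLd : L * (T0 - S) ≤ 1 / L * (Δ / φ) := by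
    calc L * (T0 - S) ≤ L * (4 * L * √X) := mul_le_mul_of_nonneg_left hd1 hLpos.le
      _ = 4 * L ^ 2 * √X := by ring
      _ ≤ _ := hsmall
  have hLs : L * √X ≤ 1 / L * (Δ / φ) := by
    refine le_trans ?_ hsmall
    apply mul_le_mul_of_nonneg_right _ hs0.le
    nlinarith
  -- assembly
  have hfin : |L * S - Δ / φ| ≤ 203 / L * (Δ / φ) := by
    have e1 : 203 / L * (Δ / φ) = 89 / L * (Δ / φ) + 16 / L * (Δ / φ) + 96 / L * (Δ / φ) +
        1 / L * (Δ / φ) + 1 / L * (Δ / φ) := by ring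
    have e2 : L * S - Δ / φ = (T1 - Δ / φ) + (L * T0 - T1) - L * (T0 - S) := by ring
    have e3 : 0 ≤ L * (T0 - S) := mul_nonneg hLpos.le hd0
    have e4 : 0 ≤ 1 / L * (Δ / φ) := by positivity
    have e5 : 0 ≤ 16 / L * (Δ / φ) := by positivity
    have e6 : 0 ≤ 96 / L * (Δ / φ) := by positivity
    rw [e1, e2, abs_le]
    constructor
    · linarith [hT1D.1]
    · linarith [hT1D.2]
  have h203 : 203 / L ≤ η := by
    rw [div_le_iff₀ hLpos]
    rw [div_le_iff₀ hη] at hLη
    linarith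
  have hsw : sw X Δ W = Δ / φ / L := by
    unfold sw
    rw [div_div]
  rw [hsw]
  have h7 : S - Δ / φ / L = (L * S - Δ / φ) / L := by
    field_simp
  rw [h7, abs_div, abs_of_pos hLpos]
  rw [← mul_div_assoc]
  apply div_le_div_of_nonneg_right _ hLpos.le
  exact hfin.trans (mul_le_mul_of_nonneg_right h203 hD0.le)

end Pool.MP_dd84fd_nt.TC
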