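import Pool.Agent.Lib.MP_dd84fd_nt.TC.Defs
import Pool.Agent.Lib.MP_dd84fd_nt.En.Vz

/-!
# TC-Pth: the number of paths (helper15)

`Gd`: the four units; `gc` their number; multiplicative (Chinese remainder theorem), `gc (p^k) ≥
p^(k-1) gc p`, `gc p ≥ (p-1) (1 - 1/p)^7` (`p - 1` if `p ∣ n, n'`); Mertens.
-/

set_option autoImplicit false

namespace Pool.MP_dd84fd_nt.TC

open Finset Pool.MP_67663b_nt.Odd Pool.MP_dd84fd_nt.En

/-- good elements -/
def Gd (n n' : ℕ) (R : Type) [CommRing R] (c : R) : Prop :=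
  IsUnit c ∧ IsUnit ((n : R) - c) ∧ IsUnit ((n' : R) - c) ∧ IsUnit ((n : R) - ((n' : R) - c))

/-- their number -/
noncomputable def gc (n n' : ℕ) (R : Type) [CommRing R] : ℕ := Nat.card {c : R // Gd n n' R c}

theorem gc_equiv (n n' : ℕ) (R S : Type) [CommRing R] [CommRing S] (e : R ≃+* S) :
    gc n n' R = gc n n' S := by
  refine Nat.card_congr (Equiv.subtypeEquiv e.toEquiv fun c => ?_)
  have h : ∀ x : R, IsUnit x ↔ IsUnit (e x) := fun x => (MulEquiv.isUnit_map e.toMulEquiv).symm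
  unfold Gd
  rw [h, h ((n : R) - c), h ((n' : R) - c), h ((n : R) - ((n' : R) - c))]
  simp only [map_sub, map_natCast]
  rfl

theorem gc_prod (n n' : ℕ) (S T : Type) [CommRing S] [CommRing T] :
    gc n n' (S × T) = gc n n' S * gc n n' T := by
  unfold gc
  rw [← Nat.card_prod]
  refine Nat.card_congr ?_
  refine Equiv.trans (Equiv.subtypeEquivRight fun c => ?_)
    (Equiv.subtypeProdEquivProd (p := Gd n n' S) (q := Gd n n' T))
  unfold Gd
  simp only [Prod.isUnit_iff, Prod.fst_sub, Prod.snd_sub, Prod.fst_natCast, Prod.snd_natCast]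
  tauto

theorem gc_mul (n n' a b : ℕ) (h : Nat.Coprime a b) :
    gc n n' (ZMod (a * b)) = gc n n' (ZMod a) * gc n n' (ZMod b) := by
  rw [gc_equiv n n' _ _ (ZMod.chineseRemainder h), gc_prod]

theorem unit_pow (p k : ℕ) (hp : p.Prime) (hk : 0 < k) (x : ZMod (p ^ k)) :
    IsUnit x ↔ IsUnit (ZMod.castHom (dvd_pow_self p hk.ne') (ZMod p) x) := by
  have : NeZero (p ^ k) := ⟨(pow_pos hp.pos k).ne'⟩
  have h1 : x = ((x.val : ℕ) : ZMod (p ^ k)) := (ZMod.natCast_zmod_val x).symm
  rw [h1, map_natCast, ZMod.isUnit_iff_coprime, ZMod.isUnit_iff_coprime,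
    Nat.coprime_pow_right_iff hk]

theorem gc_pow (n n' p k : ℕ) (hp : p.Prime) (hk : 0 < k) :
    p ^ (k - 1) * gc n n' (ZMod p) ≤ gc n n' (ZMod (p ^ k)) := by
  have : NeZero p := ⟨hp.ne_zero⟩
  have : NeZero (p ^ k) := ⟨(pow_pos hp.pos k).ne'⟩
  have hpk : p ^ k = p * p ^ (k - 1) := by
    rw [← pow_succ']
    congr 1
    omega
  set f := ZMod.castHom (dvd_pow_self p hk.ne') (ZMod p) with hf
  have hgd : ∀ c : ZMod (p ^ k), Gd n n' (ZMod (p ^ k)) c ↔ Gd n n' (ZMod p) (f c) := by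
    intro c
    unfold Gd
    rw [unit_pow p k hp hk, unit_pow p k hp hk ((n : ZMod (p ^ k)) - c),
      unit_pow p k hp hk ((n' : ZMod (p ^ k)) - c),
      unit_pow p k hp hk ((n : ZMod (p ^ k)) - ((n' : ZMod (p ^ k)) - c))]
    simp only [map_sub, map_natCast]
    rfl
  have hlt : ∀ (b : ZMod p) (t : Fin (p ^ (k - 1))), b.val + p * t.1 < p ^ k := by
    intro b t
    have h1 := ZMod.val_lt b
    have h2 := t.2
    calc b.val + p * t.1 < p + p * t.1 := by omega
      _ = p * (t.1 + 1) := by ring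
      _ ≤ p * p ^ (k - 1) := Nat.mul_le_mul_left _ h2
      _ = p ^ k := hpk.symm
  have hfc : ∀ (b : ZMod p) (t : Fin (p ^ (k - 1))),
      f (((b.val + p * t.1 : ℕ)) : ZMod (p ^ k)) = b := by
    intro b t
    rw [map_natCast]
    push_cast
    rw [ZMod.natCast_zmod_val, CharP.cast_eq_zero, zero_mul, add_zero]
  have h1 : Nat.card (Fin (p ^ (k - 1)) × {b : ZMod p // Gd n n' (ZMod p) b}) ≤
      Nat.card {c : ZMod (p ^ k) // Gd n n' (ZMod (p ^ k)) c} := by
    refine Nat.card_le_card_of_injective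
      (fun x => ⟨((x.2.1.val + p * x.1.1 : ℕ) : ZMod (p ^ k)), ?_⟩) ?_
    · rw [hgd, hfc]
      exact x.2.2
    · rintro ⟨t, b, hb⟩ ⟨t', b', hb'⟩ h
      simp only [Subtype.mk.injEq] at h
      have e1 : b = b' := by
        have := congrArg f h
        rw [hfc, hfc] at this
        exact this
      subst e1
      have e2 := congrArg ZMod.val h
      rw [ZMod.val_cast_of_lt (hlt b t), ZMod.val_cast_of_lt (hlt b t')] at e2
      have e3 : p * t.1 = p * t'.1 := by omega
      have e4 : t.1 = t'.1 := Nat.eq_of_mul_eq_mul_left hp.pos e3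
      have e5 : t = t' := Fin.ext e4
      rw [e5]
  rw [Nat.card_prod, Nat.card_fin] at h1
  exact h1

open Classical in
/-- the local factor -/
noncomputable def pw (n n' p : ℕ) : ℝ := if p ∣ n ∧ p ∣ n' then 1 else (1 - 1 / (p : ℝ)) ^ 7

theorem pw_nonneg (n n' p : ℕ) (hp : p.Prime) : 0 ≤ pw n n' p := by
  unfold pw
  have h2 : (2 : ℝ) ≤ p := by exact_mod_cast hp.two_le
  have h3 : 1 / (p : ℝ) ≤ 1 := by
    rw [div_le_one (by linarith)]
    linarith
  split_ifs
  · norm_num
  · exact pow_nonneg (by linarith) 7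

/-- the number of good elements is at least `p` minus the number of bad elements -/
theorem gc_ge (n n' p : ℕ) (hp : p.Prime) (S : Finset (ZMod p))
    (hS : ∀ c : ZMod p, c ∉ S → Gd n n' (ZMod p) c) : p ≤ gc n n' (ZMod p) + S.card := by
  classical
  have : NeZero p := ⟨hp.ne_zero⟩
  have h1 : gc n n' (ZMod p) = ((univ : Finset (ZMod p)).filter (fun c => Gd n n' (ZMod p) c)).card := by
    unfold gc
    rw [Nat.card_eq_fintype_card, Fintype.card_subtype]
  have h2 : (univ : Finset (ZMod p)) ⊆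
      (univ : Finset (ZMod p)).filter (fun c => Gd n n' (ZMod p) c) ∪ S := by
    intro c _
    rw [mem_union, mem_filter]
    by_cases hc : c ∈ S
    · exact Or.inr hc
    · exact Or.inl ⟨mem_univ _, hS c hc⟩
  have h3 := card_le_card h2
  rw [card_univ, ZMod.card] at h3
  rw [h1]
  exact h3.trans (card_union_le _ _)

theorem gd_iff (n n' p : ℕ) (hp : p.Prime) (c : ZMod p) : Gd n n' (ZMod p) c ↔
    c ≠ 0 ∧ c ≠ n ∧ c ≠ n' ∧ c ≠ n' - n := by
  have : Fact p.Prime := ⟨hp⟩
  unfold Gd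
  rw [isUnit_iff_ne_zero, isUnit_iff_ne_zero, isUnit_iff_ne_zero, isUnit_iff_ne_zero]
  refine and_congr_right fun _ => and_congr ?_ (and_congr ?_ ?_)
  · rw [sub_ne_zero]; exact ne_comm
  · rw [sub_ne_zero]; exact ne_comm
  · rw [not_iff_not, sub_eq_zero, eq_sub_iff_add_eq, eq_sub_iff_add_eq, add_comm]

theorem pw_up (p : ℝ) (hp : 7 ≤ p) : (1 - 1 / p) ^ 7 ≤ (p - 4) / (p - 1) := by
  have h0 : 0 < p := by linarith
  have h1 : 0 < 1 / p := by positivity
  have h2 : 1 / p ≤ 1 / 7 := one_div_le_one_div_of_le (by norm_num) hp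
  have h3 : 1 + 7 * (1 / p) ≤ (1 + 1 / p) ^ 7 := by
    have := one_add_mul_le_pow (a := 1 / p) (by linarith) 7
    exact_mod_cast this
  have h4 : (1 - 1 / p) ^ 7 * (1 + 1 / p) ^ 7 ≤ 1 := by
    rw [← mul_pow]
    refine pow_le_one₀ ?_ ?_
    · exact mul_nonneg (by linarith) (by linarith)
    · nlinarith
  have h5 : 0 ≤ (1 - 1 / p) ^ 7 := pow_nonneg (by linarith) 7
  have h6 : (1 - 1 / p) ^ 7 * (1 + 7 * (1 / p)) ≤ 1 :=
    (mul_le_mul_of_nonneg_left h3 h5).trans h4
  have h7 : (1 - 1 / p) ^ 7 ≤ p / (p + 7) := by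
    rw [le_div_iff₀ (by linarith)]
    have h8 : (1 - 1 / p) ^ 7 * (1 + 7 * (1 / p)) * p ≤ 1 * p :=
      mul_le_mul_of_nonneg_right h6 h0.le
    have h9 : (1 - 1 / p) ^ 7 * (1 + 7 * (1 / p)) * p = (1 - 1 / p) ^ 7 * (p + 7) := by
      field_simp
    rw [h9] at h8
    linarith
  refine h7.trans ?_
  rw [div_le_div_iff₀ (by linarith) (by linarith)]
  nlinarith

/-- the prime case -/
theorem gc_prime (n n' p : ℕ) (hp : p.Prime) (hn : Even n) (hn' : Even n')
    (h3 : n % 3 = 0 ∨ n % 3 = n' % 3) :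
    ((p : ℝ) - 1) * pw n n' p ≤ (gc n n' (ZMod p) : ℝ) := by
  classical
  have : Fact p.Prime := ⟨hp⟩
  unfold pw
  split_ifs with h
  · -- `p` divides both numbers
    have e1 : (n : ZMod p) = 0 := (ZMod.natCast_eq_zero_iff n p).2 h.1
    have e2 : (n' : ZMod p) = 0 := (ZMod.natCast_eq_zero_iff n' p).2 h.2
    have h4 := gc_ge n n' p hp {0} (fun c hc => by
      rw [gd_iff n n' p hp, e1, e2, sub_zero]
      rw [mem_singleton] at hc
      exact ⟨hc, hc, hc, hc⟩)
    rw [card_singleton] at h4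
    have h5 : (p : ℝ) ≤ (gc n n' (ZMod p) : ℝ) + 1 := by exact_mod_cast h4
    linarith
  · have hp2 : p ≠ 2 := by
      rintro rfl
      exact h ⟨even_iff_two_dvd.1 hn, even_iff_two_dvd.1 hn'⟩
    have hp3 : 3 ≤ p := by
      have := hp.two_le
      omega
    rcases Nat.lt_or_ge p 7 with h7 | h7
    · -- `p = 3` or `p = 5`: at least one good element
      have hone : 1 ≤ gc n n' (ZMod p) := by
        have hcase : p = 3 ∨ p = 5 := by
          have h4 : p ≠ 4 := by rintro rfl; norm_num at hp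
          have h6 : p ≠ 6 := by rintro rfl; norm_num at hp
          omega
        rcases hcase with rfl | rfl
        · rcases h3 with h3 | h3
          · have e1 : (n : ZMod 3) = 0 :=
              (ZMod.natCast_eq_zero_iff n 3).2 (Nat.dvd_of_mod_eq_zero h3)
            have h4 := gc_ge n n' 3 hp {0, (n' : ZMod 3)} (fun c hc => by
              rw [gd_iff n n' 3 hp, e1, sub_zero]
              rw [mem_insert, mem_singleton, not_or] at hc
              exact ⟨hc.1, hc.1, hc.2, hc.2⟩)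
            have h5 := card_le_two (a := (0 : ZMod 3)) (b := (n' : ZMod 3))
            omega
          · have e1 : (n : ZMod 3) = n' := (ZMod.natCast_eq_natCast_iff' n n' 3).2 h3
            have h4 := gc_ge n n' 3 hp {0, (n' : ZMod 3)} (fun c hc => by
              rw [gd_iff n n' 3 hp, e1, sub_self]
              rw [mem_insert, mem_singleton, not_or] at hc
              exact ⟨hc.1, hc.2, hc.2, hc.1⟩)
            have h5 := card_le_two (a := (0 : ZMod 3)) (b := (n' : ZMod 3))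
            omega
        · have h4 := gc_ge n n' 5 hp {0, (n : ZMod 5), (n' : ZMod 5), (n' : ZMod 5) - n}
            (fun c hc => by
              rw [gd_iff n n' 5 hp]
              simp only [mem_insert, mem_singleton, not_or] at hc
              exact hc)
          have h5 := card_le_four (a := (0 : ZMod 5)) (b := (n : ZMod 5)) (c := (n' : ZMod 5))
            (d := (n' : ZMod 5) - n)
          omega
      have hone' : (1 : ℝ) ≤ gc n n' (ZMod p) := by exact_mod_cast hone
      refine le_trans ?_ hone'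
      have hcase : p = 3 ∨ p = 5 := by
        have h4 : p ≠ 4 := by rintro rfl; norm_num at hp
        have h6 : p ≠ 6 := by rintro rfl; norm_num at hp
        omega
      rcases hcase with rfl | rfl
      · norm_num
      · norm_num
    · have h4 := gc_ge n n' p hp {0, (n : ZMod p), (n' : ZMod p), (n' : ZMod p) - n}
        (fun c hc => by
          rw [gd_iff n n' p hp]
          simp only [mem_insert, mem_singleton, not_or] at hc
          exact hc)
      have h5 := card_le_four (a := (0 : ZMod p)) (b := (n : ZMod p)) (c := (n' : ZMod p))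
        (d := (n' : ZMod p) - n)
      have h6 : (p : ℝ) ≤ (gc n n' (ZMod p) : ℝ) + 4 := by
        exact_mod_cast h4.trans (by omega)
      have h7' : (7 : ℝ) ≤ p := by exact_mod_cast h7
      have h8 := pw_up p h7'
      have h9 : ((p : ℝ) - 1) * (1 - 1 / (p : ℝ)) ^ 7 ≤ (p : ℝ) - 4 := by
        calc ((p : ℝ) - 1) * (1 - 1 / (p : ℝ)) ^ 7 ≤ ((p : ℝ) - 1) * (((p : ℝ) - 4) / ((p : ℝ) - 1)) :=
              mul_le_mul_of_nonneg_left h8 (by linarith)
          _ = (p : ℝ) - 4 := by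
              have : (p : ℝ) - 1 ≠ 0 := by linarith
              field_simp
      linarith

/-- the product -/
theorem gc_low (n n' : ℕ) (hn : Even n) (hn' : Even n') (h3 : n % 3 = 0 ∨ n % 3 = n' % 3) (W : ℕ) :
    0 < W → (Nat.totient W : ℝ) * ∏ p ∈ W.primeFactors, pw n n' p ≤ (gc n n' (ZMod W) : ℝ) := by
  induction W using Nat.recOnPosPrimePosCoprime with
  | zero => intro h; exact absurd h (lt_irrefl _)
  | one =>
    intro _
    rw [Nat.totient_one, Nat.primeFactors_one, prod_empty]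
    have h1 : 1 ≤ gc n n' (ZMod 1) := by
      unfold gc
      have : Nonempty {c : ZMod 1 // Gd n n' (ZMod 1) c} :=
        ⟨⟨0, by
          unfold Gd
          refine ⟨?_, ?_, ?_, ?_⟩ <;> exact isUnit_of_subsingleton _⟩⟩
      exact Nat.card_pos
    have h2 : (1 : ℝ) ≤ gc n n' (ZMod 1) := by exact_mod_cast h1
    simpa using h2
  | prime_pow p k hp hk =>
    intro _
    have hp' : p.Prime := hp
    rw [Nat.primeFactors_prime_pow hk.ne' hp', prod_singleton, Nat.totient_prime_pow hp' hk]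
    have h1 := gc_pow n n' p k hp' hk
    have h2 := gc_prime n n' p hp' hn hn' h3
    have h4 : ((p ^ (k - 1) * gc n n' (ZMod p) : ℕ) : ℝ) ≤ gc n n' (ZMod (p ^ k)) := by
      exact_mod_cast h1
    push_cast at h4 ⊢
    rw [Nat.cast_sub hp'.one_le, Nat.cast_one]
    calc (p : ℝ) ^ (k - 1) * ((p : ℝ) - 1) * pw n n' p
        = (p : ℝ) ^ (k - 1) * (((p : ℝ) - 1) * pw n n' p) := by ring
      _ ≤ (p : ℝ) ^ (k - 1) * gc n n' (ZMod p) := mul_le_mul_of_nonneg_left h2 (by positivity)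
      _ ≤ _ := h4
  | coprime a b ha hb hab iha ihb =>
    intro _
    have h1 := iha (by omega)
    have h2 := ihb (by omega)
    rw [Nat.totient_mul hab, hab.primeFactors_mul, prod_union hab.disjoint_primeFactors,
      gc_mul n n' a b hab]
    push_cast
    have h4 : 0 ≤ ∏ p ∈ b.primeFactors, pw n n' p :=
      prod_nonneg fun p hp => pw_nonneg n n' p (Nat.prime_of_mem_primeFactors hp)
    calc (Nat.totient a : ℝ) * (Nat.totient b : ℝ) * ((∏ p ∈ a.primeFactors, pw n n' p) *
          ∏ p ∈ b.primeFactors, pw n n' p)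
        = ((Nat.totient a : ℝ) * ∏ p ∈ a.primeFactors, pw n n' p) *
          ((Nat.totient b : ℝ) * ∏ p ∈ b.primeFactors, pw n n' p) := by ring
      _ ≤ _ := mul_le_mul h1 h2 (by positivity) (by positivity)

theorem mem_PathSet (W n n' c : ℕ) : c ∈ PathSet W n n' ↔ c < W ∧ IsUnit ((c : ZMod W)) ∧
    IsUnit ((n : ZMod W) - c) ∧ IsUnit ((n' : ZMod W) - c) ∧
    IsUnit ((n : ZMod W) - ((n' : ZMod W) - c)) := by
  simp only [PathSet, mem_filter, mem_range]

theorem path_card (W n n' : ℕ) (hW : 1 ≤ W) : gc n n' (ZMod W) ≤ (PathSet W n n').card := by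
  classical
  have : NeZero W := ⟨by omega⟩
  have h1 : gc n n' (ZMod W) = ((univ : Finset (ZMod W)).filter (fun c => Gd n n' (ZMod W) c)).card := by
    unfold gc
    rw [Nat.card_eq_fintype_card, Fintype.card_subtype]
  rw [h1]
  refine card_le_card_of_injOn (fun c => c.val) (fun c hc => ?_) (fun c _ c' _ h => ?_)
  · rw [mem_coe, mem_filter] at hc
    rw [mem_coe, mem_PathSet]
    refine ⟨ZMod.val_lt c, ?_⟩
    have h2 := hc.2
    unfold Gd at h2
    rw [ZMod.natCast_zmod_val]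
    exact h2
  · exact ZMod.val_injective W h

theorem pathF : PathF := by
  classical
  obtain ⟨C, hC, hV⟩ := V_inv_le
  have hl2 : 0 < Real.log 2 := Real.log_pos (by norm_num)
  refine ⟨(1 / (2 * C)) ^ 7 * (Real.log 2) ^ 3, by positivity, fun H W n n' hH hW hn hn' hp h3 => ?_⟩
  have hHr : (2 : ℝ) ≤ H := by exact_mod_cast hH
  have hlH : Real.log 2 ≤ Real.log H := Real.log_le_log (by norm_num) hHr
  have hlH0 : 0 < Real.log H := by linarith
  -- Mertens
  have hVp : 0 < V ((H : ℝ) + 1) := V_pos _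
  have hV1 : 1 / (2 * C * Real.log H) ≤ V ((H : ℝ) + 1) := by
    have h1 := hV ((H : ℝ) + 1) (by linarith)
    have h2 : Real.log ((H : ℝ) + 1) ≤ 2 * Real.log H := by
      have h4 : Real.log ((H : ℝ) ^ 2) = 2 * Real.log H := by
        rw [Real.log_pow]; norm_num
      rw [← h4]
      exact Real.log_le_log (by linarith) (by nlinarith)
    have h4 : 1 / V ((H : ℝ) + 1) ≤ 2 * C * Real.log H := by
      refine h1.trans ?_
      calc C * Real.log ((H : ℝ) + 1) ≤ C * (2 * Real.log H) := mul_le_mul_of_nonneg_left h2 hC.le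
        _ = 2 * C * Real.log H := by ring
    rw [div_le_iff₀ hVp] at h4
    rw [div_le_iff₀ (by positivity)]
    linarith
  have hprod : V ((H : ℝ) + 1) ^ 7 ≤ ∏ p ∈ W.primeFactors, pw n n' p := by
    unfold V
    rw [← prod_pow]
    have hnn : ∀ p ∈ pr 0 ((H : ℝ) + 1), 0 ≤ (1 - 1 / (p : ℝ)) ^ 7 ∧ (1 - 1 / (p : ℝ)) ^ 7 ≤ 1 := by
      intro p hp'
      have h1 := (mem_pr.1 hp').1
      have h2 : (2 : ℝ) ≤ p := by exact_mod_cast h1.two_le
      have h4 : 1 / (p : ℝ) ≤ 1 := by
        rw [div_le_one (by linarith)]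
        linarith
      have h5 : 0 < 1 / (p : ℝ) := by positivity
      exact ⟨pow_nonneg (by linarith) 7, pow_le_one₀ (by linarith) (by linarith)⟩
    -- split
    have hsplit : ∏ p ∈ W.primeFactors, pw n n' p =
        ∏ p ∈ W.primeFactors.filter (fun p => ¬ (p ∣ n ∧ p ∣ n')), (1 - 1 / (p : ℝ)) ^ 7 := by
      rw [prod_filter]
      refine prod_congr rfl fun p _ => ?_
      unfold pw
      by_cases h : p ∣ n ∧ p ∣ n'
      · rw [if_pos h, if_neg (not_not.2 h)]
      · rw [if_neg h, if_pos h]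
    rw [hsplit]
    have hsub : W.primeFactors.filter (fun p => ¬ (p ∣ n ∧ p ∣ n')) ⊆ pr 0 ((H : ℝ) + 1) := by
      intro p hp'
      rw [mem_filter, Nat.mem_primeFactors] at hp'
      obtain ⟨⟨a1, a2, -⟩, a3⟩ := hp'
      rw [mem_pr]
      refine ⟨a1, Nat.cast_nonneg _, ?_⟩
      rcases hp p a1 a2 with h | h
      · have : (p : ℝ) ≤ H := by exact_mod_cast h
        linarith
      · exact absurd h a3
    rw [← prod_sdiff hsub]
    have k1 : ∏ p ∈ pr 0 ((H : ℝ) + 1) \ W.primeFactors.filter (fun p => ¬ (p ∣ n ∧ p ∣ n')),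
        (1 - 1 / (p : ℝ)) ^ 7 ≤ 1 := prod_le_one (fun p hp' => (hnn p (mem_sdiff.1 hp').1).1)
          (fun p hp' => (hnn p (mem_sdiff.1 hp').1).2)
    have k2 : 0 ≤ ∏ p ∈ W.primeFactors.filter (fun p => ¬ (p ∣ n ∧ p ∣ n')),
        (1 - 1 / (p : ℝ)) ^ 7 := prod_nonneg fun p hp' => (hnn p (hsub hp')).1
    calc _ ≤ 1 * ∏ p ∈ W.primeFactors.filter (fun p => ¬ (p ∣ n ∧ p ∣ n')),
        (1 - 1 / (p : ℝ)) ^ 7 := mul_le_mul_of_nonneg_right k1 k2
      _ = _ := one_mul _
  have h1 := gc_low n n' hn hn' h3 W (by omega)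
  have h2 : (gc n n' (ZMod W) : ℝ) ≤ ((PathSet W n n').card : ℝ) := by
    exact_mod_cast path_card W n n' hW
  have h4 : (1 / (2 * C)) ^ 7 * (Real.log 2) ^ 3 / (Real.log H) ^ 10 ≤ V ((H : ℝ) + 1) ^ 7 := by
    have h5 : (1 / (2 * C * Real.log H)) ^ 7 ≤ V ((H : ℝ) + 1) ^ 7 :=
      pow_le_pow_left₀ (by positivity) hV1 7
    refine le_trans ?_ h5
    have h6 : (1 / (2 * C * Real.log H)) ^ 7 =
        (1 / (2 * C)) ^ 7 * (Real.log H) ^ 3 / (Real.log H) ^ 10 := by
      field_simp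
    rw [h6]
    refine div_le_div_of_nonneg_right ?_ (by positivity)
    exact mul_le_mul_of_nonneg_left (pow_le_pow_left₀ hl2.le hlH 3) (by positivity)
  calc (1 / (2 * C)) ^ 7 * (Real.log 2) ^ 3 / (Real.log H) ^ 10 * Nat.totient W
      ≤ (∏ p ∈ W.primeFactors, pw n n' p) * Nat.totient W :=
        mul_le_mul_of_nonneg_right (h4.trans hprod) (Nat.cast_nonneg _)
    _ = Nat.totient W * ∏ p ∈ W.primeFactors, pw n n' p := mul_comm _ _
    _ ≤ _ := h1.trans h2

end Pool.MP_dd84fd_nt.TC
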