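import Pool.Agent.Lib.MP_dd84fd_nt.TC.Defs
import Pool.Agent.Lib.MP_dd84fd_nt.TC.KerS

/-!
# TC-Rcs: the sum of `RC` over the windows and the classes, `RCSF`, constant `320`

Unfold `RC`, exchange the sums.  `∑_{c < W} wv Δ y W c p = kf((p-y)/Δ)` (exactly one `c`); then `ker_s` with
`n := n₀`: `∑_j kf((p - jΔ/2)/Δ) kf((q - (n₀ - jΔ/2))/Δ) ≤ 80 wk Δ (p+q-n₀)`.
`wk Δ (m - n₀) ≤ 4 wk Δ (m - n)` if `|n - n₀| ≤ Δ` (cases `|m-n| ≤ Δ`, `≤ 2Δ`, `> 2Δ`).
`∑_{p,q ∈ UP, p+q ≡ n (Q)} wk Δ (p+q-n) = ∑_{m ≤ 2X, m ≡ n (Q)} wk Δ (m-n) #{(p,q) : p+q = m}` and the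
number of pairs is at most `g m` (`g` counts the `p ≤ m` with `p`, `m - p` prime; En/Defs).
-/

set_option autoImplicit false

namespace Pool.MP_dd84fd_nt.TC

open Finset Pool.MP_dd84fd_nt.En Pool.MP_dd84fd_nt.IX

private theorem wk_le_one (Δ u : ℝ) (hΔ : 0 < Δ) : wk Δ u ≤ 1 := by
  unfold wk
  split_ifs with h
  · exact le_rfl
  · push Not at h
    rw [div_pow, div_le_one (by nlinarith [sq_abs u])]
    rw [← sq_abs u]
    nlinarith

private theorem wk_nonneg (Δ u : ℝ) : 0 ≤ wk Δ u := by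
  unfold wk
  split_ifs
  · exact zero_le_one
  · exact sq_nonneg _

private theorem wk_shift (Δ u v : ℝ) (hΔ : 0 < Δ) (h : |u - v| ≤ Δ) : wk Δ v ≤ 4 * wk Δ u := by
  by_cases h1 : |u| ≤ Δ
  · have h2 : wk Δ u = 1 := by
      unfold wk
      rw [if_pos h1]
    rw [h2]
    linarith [wk_le_one Δ v hΔ]
  · have h2 : wk Δ u = (Δ / u) ^ 2 := by
      unfold wk
      rw [if_neg h1]
    push Not at h1
    have hu : 0 < |u| := hΔ.trans h1
    have hu2 : 0 < u ^ 2 := by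
      rw [← sq_abs]
      positivity
    rw [h2, div_pow]
    by_cases h3 : |u| ≤ 2 * Δ
    · refine (wk_le_one Δ v hΔ).trans ?_
      rw [← mul_div_assoc, le_div_iff₀ hu2, one_mul, ← sq_abs u]
      nlinarith
    · push Not at h3
      have h4 : |u| ≤ |v| + Δ := by
        have := abs_sub_abs_le_abs_sub u v
        linarith
      have h5 : |u| < 2 * |v| := by linarith
      have h6 : ¬ |v| ≤ Δ := by
        push Not
        linarith
      have h7 : wk Δ v = (Δ / v) ^ 2 := by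
        unfold wk
        rw [if_neg h6]
      have hv2 : 0 < v ^ 2 := by
        rw [← sq_abs]
        have : 0 < |v| := by linarith
        positivity
      rw [h7, div_pow, ← mul_div_assoc, div_le_div_iff₀ hv2 hu2]
      have h8 : u ^ 2 ≤ 4 * v ^ 2 := by
        rw [← sq_abs u, ← sq_abs v]
        nlinarith [abs_nonneg v]
      nlinarith [sq_nonneg Δ]

private theorem sum_wv (Δ y : ℝ) {W : ℕ} (hW : 1 ≤ W) (p : ℕ) :
    ∑ c ∈ range W, wv Δ y W (c : ZMod W) p = kf (((p : ℝ) - y) / Δ) := by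
  have h1 : p % W ∈ range W := mem_range.2 (Nat.mod_lt _ hW)
  rw [sum_eq_single_of_mem (p % W) h1]
  · unfold wv
    rw [if_pos]
    rw [ZMod.natCast_mod]
  · intro c hc hne
    unfold wv
    rw [if_neg]
    intro h2
    refine hne ?_
    rw [ZMod.natCast_eq_natCast_iff'] at h2
    rw [h2, Nat.mod_eq_of_lt (mem_range.1 hc)]

private theorem mem_UP {X R p : ℕ} : p ∈ UP X R ↔ (1 ≤ p ∧ p ≤ X) ∧ p.Prime ∧ zI X ≤ p ∧
    Nat.Coprime p R := by
  unfold UP
  rw [mem_filter, mem_Icc]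

private theorem pairs_le (X : ℕ) (Δ : ℝ) (R Q n : ℕ) :
    ∑ p ∈ UP X R, ∑ q ∈ UP X R, (if p + q ≡ n [MOD Q] then wk Δ ((p : ℝ) + q - n) else 0) ≤
      LC X Δ n Q := by
  classical
  rw [← sum_product', ← sum_filter]
  unfold LC
  rw [← sum_fiberwise_of_maps_to (s := (UP X R ×ˢ UP X R).filter
      (fun x : ℕ × ℕ => x.1 + x.2 ≡ n [MOD Q]))
    (t := (Icc 1 (2 * X)).filter (fun m => m ≡ n [MOD Q])) (g := fun x : ℕ × ℕ => x.1 + x.2)]
  · refine sum_le_sum fun m hm => ?_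
    have h1 : ∀ x ∈ ((UP X R ×ˢ UP X R).filter
        (fun x : ℕ × ℕ => x.1 + x.2 ≡ n [MOD Q])).filter (fun x : ℕ × ℕ => x.1 + x.2 = m),
        wk Δ ((x.1 : ℝ) + x.2 - n) = wk Δ ((m : ℝ) - n) := by
      intro x hx
      rw [← (mem_filter.1 hx).2]
      push_cast
      rfl
    rw [sum_congr rfl h1, sum_const, nsmul_eq_mul, mul_comm]
    refine mul_le_mul_of_nonneg_left ?_ (wk_nonneg _ _)
    rw [Nat.cast_le]
    unfold g
    refine card_le_card_of_injOn (fun x : ℕ × ℕ => x.1) ?_ ?_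
    · intro x hx
      have hx' := mem_filter.1 (mem_coe.1 hx)
      have hx1 := mem_product.1 (mem_filter.1 hx'.1).1
      have hm' := hx'.2
      rw [mem_coe, mem_filter, mem_range]
      show x.1 < m + 1 ∧ Nat.Prime x.1 ∧ Nat.Prime (m - x.1)
      refine ⟨by omega, (mem_UP.1 hx1.1).2.1, ?_⟩
      have : m - x.1 = x.2 := by omega
      rw [this]
      exact (mem_UP.1 hx1.2).2.1
    · intro x hx y hy hxy
      have h2 := (mem_filter.1 (mem_coe.1 hx)).2
      have h3 := (mem_filter.1 (mem_coe.1 hy)).2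
      have h4 : x.1 = y.1 := hxy
      ext
      · exact h4
      · omega
  · intro x hx
    have hx' := mem_filter.1 hx
    have hx1 := mem_product.1 hx'.1
    have h2 := (mem_UP.1 hx1.1).1
    have h3 := (mem_UP.1 hx1.2).1
    rw [mem_filter, mem_Icc]
    exact ⟨⟨by omega, by omega⟩, hx'.2⟩

theorem rcsF : RCSF := by
  refine ⟨320, by norm_num, fun B _ => ⟨3, fun X hX R W Q n n₀ _ _ hW hn => ?_⟩⟩
  have hX' : (3 : ℝ) ≤ X := by exact_mod_cast hX
  have hΔ : 0 < Dl B X := by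
    unfold Dl
    have : 0 < Real.log X := Real.log_pos (by linarith)
    positivity
  set Δ : ℝ := Dl B X with hΔd
  set K : ℝ := (Nat.totient Q : ℝ) / ((Nat.totient W : ℝ) * (sw X Δ W) ^ 2) with hK
  have hK0 : 0 ≤ K := by
    rw [hK]
    positivity
  have h1 : ∑ j ∈ JW X Δ, ∑ c ∈ range W,
      RC X Δ R W Q n (j * Δ / 2) (n₀ - j * Δ / 2) (c : ZMod W) =
      K * ∑ p ∈ UP X R, ∑ q ∈ UP X R, (if p + q ≡ n [MOD Q] then
        ∑ j ∈ JW X Δ, kf (((p : ℝ) - j * Δ / 2) / Δ) * kf (((q : ℝ) - (n₀ - j * Δ / 2)) / Δ)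
        else 0) := by
    have h2 : ∀ j : ℕ, ∑ c ∈ range W,
        RC X Δ R W Q n (j * Δ / 2) (n₀ - j * Δ / 2) (c : ZMod W) =
        K * ∑ p ∈ UP X R, ∑ q ∈ UP X R, (if p + q ≡ n [MOD Q] then
          kf (((p : ℝ) - j * Δ / 2) / Δ) * kf (((q : ℝ) - (n₀ - j * Δ / 2)) / Δ) else 0) := by
      intro j
      unfold RC
      rw [← mul_sum, sum_comm]
      congr 1
      refine sum_congr rfl fun p _ => ?_
      rw [sum_comm]
      refine sum_congr rfl fun q _ => ?_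
      split_ifs with h
      · rw [← sum_mul, sum_wv Δ _ hW]
      · exact sum_const_zero
    rw [sum_congr rfl fun j _ => h2 j, ← mul_sum, sum_comm]
    congr 1
    refine sum_congr rfl fun p _ => ?_
    rw [sum_comm]
    refine sum_congr rfl fun q _ => ?_
    split_ifs with h
    · rfl
    · exact sum_const_zero
  rw [h1]
  have h3 : ∑ p ∈ UP X R, ∑ q ∈ UP X R, (if p + q ≡ n [MOD Q] then
        ∑ j ∈ JW X Δ, kf (((p : ℝ) - j * Δ / 2) / Δ) * kf (((q : ℝ) - (n₀ - j * Δ / 2)) / Δ)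
        else 0) ≤
      320 * ∑ p ∈ UP X R, ∑ q ∈ UP X R,
        (if p + q ≡ n [MOD Q] then wk Δ ((p : ℝ) + q - n) else 0) := by
    rw [mul_sum]
    refine sum_le_sum fun p _ => ?_
    rw [mul_sum]
    refine sum_le_sum fun q _ => ?_
    split_ifs with h
    · refine (ker_s (JW X Δ) Δ p q n₀ hΔ).trans ?_
      have h4 := wk_shift Δ ((p : ℝ) + q - n) ((p : ℝ) + q - n₀) hΔ (by
        have : (p : ℝ) + q - n - ((p : ℝ) + q - n₀) = -((n : ℝ) - n₀) := by ring
        rw [this, abs_neg]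
        exact hn)
      linarith
    · simp
  calc K * ∑ p ∈ UP X R, ∑ q ∈ UP X R, (if p + q ≡ n [MOD Q] then
        ∑ j ∈ JW X Δ, kf (((p : ℝ) - j * Δ / 2) / Δ) * kf (((q : ℝ) - (n₀ - j * Δ / 2)) / Δ)
        else 0)
      ≤ K * (320 * LC X Δ n Q) := by
        refine mul_le_mul_of_nonneg_left (h3.trans ?_) hK0
        exact mul_le_mul_of_nonneg_left (pairs_le X Δ R Q n) (by norm_num)
    _ = 320 * K * LC X Δ n Q := by ring

end Pool.MP_dd84fd_nt.TC
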