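import Pool.Agent.Lib.MP_dd84fd_nt.TC.Defs

/-!
# TC-Str: the moduli (helper15)

`W = lcm(2Λ, (q₁, q₂))`, `Q_i = lcm(q_i, W)`, `Λ = lcm(1, …, H)`: the lattice of divisors is
distributive, so `(Q₁, Q₂) = W`; `q₁ ∣ nΛ`, `q₂ ∣ n'Λ`, so `(q₁, q₂) ∣ Λ (n' - n)`.
-/

set_option autoImplicit false

namespace Pool.MP_dd84fd_nt.TC

open Finset Pool.MP_67663b_nt.Odd
open Pool.MP_dd84fd_nt.BX (PC pv IsPC PR SX sN prc ind)

theorem Lm_pos (H : ℕ) : 0 < Lm H := by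
  unfold Lm
  rw [Nat.pos_iff_ne_zero, Ne, Finset.lcm_eq_zero_iff]
  simp

theorem dvd_Lm {H k : ℕ} (h1 : 1 ≤ k) (h2 : k ≤ H) : k ∣ Lm H :=
  Finset.dvd_lcm (f := id) (mem_Icc.2 ⟨h1, h2⟩)

theorem prime_dvd_Lm {H p : ℕ} (hp : p.Prime) (h : p ∣ Lm H) : p ≤ H := by
  refine (Nat.Prime.dvd_factorial hp).1 (h.trans ?_)
  unfold Lm
  refine Finset.lcm_dvd fun k hk => ?_
  rw [mem_Icc] at hk
  exact Nat.dvd_factorial hk.1 hk.2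

theorem qY_dvd (Y : Finset PC) (H n : ℕ) (hY : ∀ ψ ∈ Y, 1 ≤ ψ.1) : qY Y H n ∣ n * Lm H := by
  classical
  unfold qY
  refine Finset.lcm_dvd fun ψ hψ => ?_
  rw [mem_filter] at hψ
  obtain ⟨h1, h2⟩ := hψ
  have h3 := hY ψ h1
  have h4 : 0 < Nat.gcd ψ.1 n := Nat.gcd_pos_of_pos_left _ h3
  have h5 : Nat.gcd ψ.1 n * (ψ.1 / Nat.gcd ψ.1 n) = ψ.1 := Nat.mul_div_cancel' (Nat.gcd_dvd_left _ _)
  have h6 : 1 ≤ ψ.1 / Nat.gcd ψ.1 n := by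
    rw [Nat.one_le_div_iff h4]
    exact Nat.le_of_dvd h3 (Nat.gcd_dvd_left _ _)
  calc ψ.1 = Nat.gcd ψ.1 n * (ψ.1 / Nat.gcd ψ.1 n) := h5.symm
    _ ∣ n * Lm H := mul_dvd_mul (Nat.gcd_dvd_right _ _) (dvd_Lm h6 h2)

theorem dvd_qY (Y : Finset PC) (H n : ℕ) (ψ : PC) (hψ : ψ ∈ Y) (h : ψ.1 / Nat.gcd ψ.1 n ≤ H) :
    ψ.1 ∣ qY Y H n := by
  classical
  unfold qY
  exact Finset.dvd_lcm (f := fun ψ : PC => ψ.1) (mem_filter.2 ⟨hψ, h⟩)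

theorem qY_pos (Y : Finset PC) (H n : ℕ) (hY : ∀ ψ ∈ Y, 1 ≤ ψ.1) : 0 < qY Y H n := by
  classical
  unfold qY
  rw [Nat.pos_iff_ne_zero, Ne, Finset.lcm_eq_zero_iff]
  rintro ⟨ψ, hψ, h0⟩
  rw [mem_filter] at hψ
  have := hY ψ hψ.1
  omega

theorem lcm_gcd_self (a b w : ℕ) (ha : 0 < a) (hb : 0 < b) (hw : 0 < w) (h : Nat.gcd a b ∣ w) :
    Nat.gcd (Nat.lcm a w) (Nat.lcm b w) = w := by
  apply Nat.dvd_antisymm
  · have h1 : Nat.lcm a w ≠ 0 := (Nat.lcm_pos ha hw).ne'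
    have h2 : Nat.lcm b w ≠ 0 := (Nat.lcm_pos hb hw).ne'
    rw [← Nat.factorization_le_iff_dvd (Nat.gcd_pos_of_pos_left _ (Nat.lcm_pos ha hw)).ne' hw.ne',
      Nat.factorization_gcd h1 h2, Nat.factorization_lcm ha.ne' hw.ne',
      Nat.factorization_lcm hb.ne' hw.ne']
    rw [← Nat.factorization_le_iff_dvd (Nat.gcd_pos_of_pos_left _ ha).ne' hw.ne',
      Nat.factorization_gcd ha.ne' hb.ne'] at h
    intro p
    have h3 := h p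
    simp only [Finsupp.inf_apply, Finsupp.sup_apply] at h3 ⊢
    omega
  · exact Nat.dvd_gcd (Nat.dvd_lcm_right _ _) (Nat.dvd_lcm_right _ _)

theorem strF : StrF := by
  classical
  intro Y H n n' hY hH hn hn' hne
  set q1 := qY Y H n with hq1
  set q2 := qY Y H n' with hq2
  set Λ := Lm H with hΛ
  have hΛ0 : 0 < Λ := Lm_pos H
  have p1 : 0 < q1 := qY_pos Y H n hY
  have p2 : 0 < q2 := qY_pos Y H n' hY
  have d1 : q1 ∣ n * Λ := qY_dvd Y H n hY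
  have d2 : q2 ∣ n' * Λ := qY_dvd Y H n' hY
  set W := Nat.lcm (2 * Λ) (Nat.gcd q1 q2) with hW
  have hW0 : 0 < W := Nat.lcm_pos (by omega) (Nat.gcd_pos_of_pos_left _ p1)
  have w1 : 2 * Λ ∣ W := Nat.dvd_lcm_left _ _
  have w2 : Nat.gcd q1 q2 ∣ W := Nat.dvd_lcm_right _ _
  have w3 : Λ ∣ W := dvd_trans (Dvd.intro_left 2 rfl) w1
  refine ⟨W, Nat.lcm q1 W, Nat.lcm q2 W, Nat.lcm_pos p1 hW0, Nat.lcm_pos p2 hW0,
    lcm_gcd_self q1 q2 W p1 p2 hW0 w2, dvd_trans (Dvd.intro _ rfl) w1, ?_, ?_, ?_, ?_, ?_, ?_, ?_⟩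
  · -- the size of `W`
    have g1 : (Nat.gcd q1 q2 : ℤ) ∣ ((n' : ℤ) - n) * Λ := by
      have a1 : (Nat.gcd q1 q2 : ℤ) ∣ (n : ℤ) * Λ := by
        exact_mod_cast (Nat.gcd_dvd_left q1 q2).trans d1
      have a2 : (Nat.gcd q1 q2 : ℤ) ∣ (n' : ℤ) * Λ := by
        exact_mod_cast (Nat.gcd_dvd_right q1 q2).trans d2
      rw [sub_mul]
      exact dvd_sub a2 a1
    have g2 : ((n' : ℤ) - n) * Λ ≠ 0 := by
      refine mul_ne_zero ?_ (by exact_mod_cast hΛ0.ne')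
      omega
    have g3 : (Nat.gcd q1 q2 : ℤ) ≤ |((n' : ℤ) - n) * Λ| :=
      Int.le_of_dvd (abs_pos.2 g2) ((dvd_abs _ _).2 g1)
    have g4 : (Nat.gcd q1 q2 : ℝ) ≤ |((n' : ℝ) - n)| * Λ := by
      have h : ((Nat.gcd q1 q2 : ℤ) : ℝ) ≤ ((|((n' : ℤ) - n) * Λ| : ℤ) : ℝ) := by exact_mod_cast g3
      push_cast at h
      rw [abs_mul, abs_of_nonneg (Nat.cast_nonneg (α := ℝ) Λ)] at h
      exact_mod_cast h
    have g5 : (W : ℝ) ≤ (2 * Λ) * Nat.gcd q1 q2 := by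
      have : W ≤ (2 * Λ) * Nat.gcd q1 q2 :=
        Nat.le_of_dvd (Nat.mul_pos (by omega) (Nat.gcd_pos_of_pos_left _ p1)) (Nat.lcm_dvd_mul _ _)
      exact_mod_cast this
    calc (W : ℝ) ≤ (2 * Λ) * Nat.gcd q1 q2 := g5
      _ ≤ (2 * Λ) * (|((n' : ℝ) - n)| * Λ) := mul_le_mul_of_nonneg_left g4 (by positivity)
      _ = 2 * (Λ : ℝ) ^ 2 * |(n' : ℝ) - n| := by ring
  · exact Nat.lcm_dvd (d1.trans (mul_dvd_mul_left n w3)) (Dvd.intro_left n rfl)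
  · exact Nat.lcm_dvd (d2.trans (mul_dvd_mul_left n' w3)) (Dvd.intro_left n' rfl)
  · have h1 : Nat.lcm (Nat.lcm q1 W) (Nat.lcm q2 W) ∣ 2 * Λ * Nat.lcm q1 q2 := by
      have a0 : W ∣ 2 * Λ * Nat.lcm q1 q2 := by
        refine Nat.lcm_dvd (Dvd.intro _ rfl) ?_
        exact ((Nat.gcd_dvd_left q1 q2).trans (Nat.dvd_lcm_left q1 q2)).trans (Dvd.intro_left _ rfl)
      refine Nat.lcm_dvd (Nat.lcm_dvd ?_ a0) (Nat.lcm_dvd ?_ a0)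
      · exact (Nat.dvd_lcm_left q1 q2).trans (Dvd.intro_left _ rfl)
      · exact (Nat.dvd_lcm_right q1 q2).trans (Dvd.intro_left _ rfl)
    exact Nat.le_of_dvd (Nat.mul_pos (by omega) (Nat.lcm_pos p1 p2)) h1
  · intro ψ hψ h
    exact (dvd_qY Y H n ψ hψ h).trans (Nat.dvd_lcm_left _ _)
  · intro ψ hψ h
    exact (dvd_qY Y H n' ψ hψ h).trans (Nat.dvd_lcm_left _ _)
  · intro p hp hpW
    have h1 : p ∣ 2 * Λ * Nat.gcd q1 q2 := hpW.trans (Nat.lcm_dvd_mul _ _)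
    rcases (Nat.Prime.dvd_mul hp).1 h1 with h2 | h2
    · left
      rcases (Nat.Prime.dvd_mul hp).1 h2 with h3 | h3
      · exact (Nat.le_of_dvd (by norm_num) h3).trans hH
      · exact prime_dvd_Lm hp h3
    · have h3 := (h2.trans (Nat.gcd_dvd_left _ _)).trans d1
      have h4 := (h2.trans (Nat.gcd_dvd_right _ _)).trans d2
      rcases (Nat.Prime.dvd_mul hp).1 h3 with h5 | h5
      · rcases (Nat.Prime.dvd_mul hp).1 h4 with h6 | h6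
        · exact Or.inr ⟨h5, h6⟩
        · exact Or.inl (prime_dvd_Lm hp h6)
      · exact Or.inl (prime_dvd_Lm hp h5)

end Pool.MP_dd84fd_nt.TC
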