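import Pool.Agent.Lib.MP_dd84fd_nt.TC.SvG

/-!
# TC-SvF: the sieve for boundedly many inequivalent characters, `SVF`

`(log X)^K ≤ X^(ν/100)` for large `X`, so this is a case of `SVG` (TC/SvG).
-/

set_option autoImplicit false

namespace Pool.MP_dd84fd_nt.TC

open Finset

theorem svf : SVF := by
  intro ν hν hν20 B K N0 hB
  obtain ⟨X1, hX1⟩ := svG ν hν hν20 B N0 hB
  obtain ⟨X2, hX2⟩ := svg_log 1 K (ν / 100) (by positivity)
  refine ⟨X1 + X2, fun X hX R W hR hRX hWR hWX c y hy1 hy2 Γ hΓ hI t => ?_⟩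
  have h1 := hX2 X (by omega)
  rw [one_mul] at h1
  exact hX1 X (by omega) R W hR hRX hWR (hWX.trans h1) c y hy1 hy2 Γ hΓ hI t

end Pool.MP_dd84fd_nt.TC
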