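import Pool.Agent.Lib.MP_dd84fd_nt.TC.TrD0
import Pool.Agent.Lib.MP_dd84fd_nt.HX.SvF

/-!
# TC-TrB: the upper bound for the number of representations

`g m ≤ C (m / φ(m)) X / (log X)²` for the even numbers `m ≤ 2 X`. Proof: for `m ≤ X^(9/10)` use
`g m ≤ m + 1`. For `m > X^(9/10)` the sieve bound `sieve4` (with `X = n = m`, `c = 1`) and
`SS m ≤ 4 C2 m / φ(m)`: `∏_{p ∣ m, p > 2} (p-1)² / (p (p-2)) ≤ ∏_{3 ≤ k ≤ m} (k-1)² / (k (k-2)) ≤ 2`.
-/

set_option autoImplicit false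

namespace Pool.MP_dd84fd_nt.TC

open Finset Pool.MP_dd84fd_nt.En Pool.MP_dd84fd_nt.E2 Pool.MP_dd84fd_nt.HX

private theorem phi_prod (n : ℕ) (h0 : 0 < n) :
    (n : ℝ) / (Nat.totient n : ℝ) = ∏ p ∈ n.primeFactors, (p : ℝ) / ((p : ℝ) - 1) := by
  have h1 : ((Nat.totient n : ℕ) : ℝ) = n * ∏ p ∈ n.primeFactors, (1 - (p : ℝ)⁻¹) := by
    have := Nat.totient_eq_mul_prod_factors n
    have h2 : (((Nat.totient n : ℕ) : ℚ) : ℝ) =
        ((n * ∏ p ∈ n.primeFactors, (1 - (p : ℚ)⁻¹) : ℚ) : ℝ) := by rw [this]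
    push_cast at h2
    exact h2
  have hn : (n : ℝ) ≠ 0 := by exact_mod_cast h0.ne'
  have hp : ∀ p ∈ n.primeFactors, (1 : ℝ) - (p : ℝ)⁻¹ ≠ 0 := by
    intro p hp
    have h2 : 2 ≤ p := (Nat.prime_of_mem_primeFactors hp).two_le
    have h3 : (2 : ℝ) ≤ p := by exact_mod_cast h2
    have h4 : (p : ℝ)⁻¹ ≤ 1 / 2 := by
      rw [inv_eq_one_div]
      exact one_div_le_one_div_of_le (by norm_num) h3
    linarith
  have hprod : ∏ p ∈ n.primeFactors, ((1 : ℝ) - (p : ℝ)⁻¹) ≠ 0 := Finset.prod_ne_zero_iff.2 hp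
  rw [h1, ← mul_inv_cancel_left₀ hn (∏ p ∈ n.primeFactors, (p : ℝ) / ((p : ℝ) - 1))]
  rw [div_eq_iff (mul_ne_zero hn hprod)]
  rw [mul_inv_cancel_left₀ hn]
  have h5 : (∏ p ∈ n.primeFactors, (p : ℝ) / ((p : ℝ) - 1)) *
      (n * ∏ p ∈ n.primeFactors, ((1 : ℝ) - (p : ℝ)⁻¹)) =
      n * ∏ p ∈ n.primeFactors, ((p : ℝ) / ((p : ℝ) - 1) * (1 - (p : ℝ)⁻¹)) := by
    rw [Finset.prod_mul_distrib]
    ring
  rw [h5, Finset.prod_eq_one, mul_one]
  intro p hp'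
  have h2 : 2 ≤ p := (Nat.prime_of_mem_primeFactors hp').two_le
  have h3 : (2 : ℝ) ≤ p := by exact_mod_cast h2
  have h4 : (p : ℝ) - 1 ≠ 0 := by linarith
  have h6 : (p : ℝ) ≠ 0 := by linarith
  field_simp

private theorem trb_tel (N : ℕ) :
    ∏ k ∈ Icc 3 (N + 2), ((k : ℝ) - 1) ^ 2 / ((k : ℝ) * ((k : ℝ) - 2)) =
      2 * ((N : ℝ) + 1) / (N + 2) := by
  induction N with
  | zero => norm_num
  | succ N ih =>
    rw [show N + 1 + 2 = (N + 2) + 1 by ring, Finset.prod_Icc_succ_top (by omega), ih]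
    push_cast
    have h1 : (N : ℝ) + 2 ≠ 0 := by positivity
    have h2 : (N : ℝ) + 1 ≠ 0 := by positivity
    have h3 : (N : ℝ) + 3 ≠ 0 := by positivity
    have h4 : (N : ℝ) + 2 + 1 - 2 = N + 1 := by ring
    have h5 : (N : ℝ) + 2 + 1 - 1 = N + 2 := by ring
    have h6 : (N : ℝ) + 2 + 1 = N + 3 := by ring
    have h7 : (N : ℝ) + 1 + 2 = N + 3 := by ring
    rw [h4, h5, h6, h7]
    field_simp
    ring

private theorem trb_sub {s t : Finset ℕ} (h : s ⊆ t) {f : ℕ → ℝ} (h1 : ∀ k ∈ t, 1 ≤ f k) :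
    ∏ k ∈ s, f k ≤ ∏ k ∈ t, f k := by
  rw [← prod_sdiff h]
  refine le_mul_of_one_le_left (prod_nonneg fun k hk => zero_le_one.trans (h1 k (h hk))) ?_
  calc (1 : ℝ) = ∏ _k ∈ t \ s, (1 : ℝ) := by rw [prod_const_one]
    _ ≤ _ := prod_le_prod (fun _ _ => zero_le_one) fun k hk => h1 k (mem_sdiff.1 hk).1

private theorem trb_prod (s : Finset ℕ) (h3 : ∀ p ∈ s, 3 ≤ p) :
    ∏ p ∈ s, ((p : ℝ) - 1) ^ 2 / ((p : ℝ) * ((p : ℝ) - 2)) ≤ 2 := by
  have hone : ∀ k : ℕ, 3 ≤ k → 1 ≤ ((k : ℝ) - 1) ^ 2 / ((k : ℝ) * ((k : ℝ) - 2)) := by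
    intro k hk
    have hk' : (3 : ℝ) ≤ k := by exact_mod_cast hk
    rw [le_div_iff₀ (by nlinarith)]
    nlinarith
  have hsub : s ⊆ Icc 3 (s.sup id + 2) := by
    intro p hp
    rw [mem_Icc]
    have : p ≤ s.sup id := Finset.le_sup (f := id) hp
    exact ⟨h3 p hp, by omega⟩
  have h1 : ∏ p ∈ s, ((p : ℝ) - 1) ^ 2 / ((p : ℝ) * ((p : ℝ) - 2)) ≤
      ∏ k ∈ Icc 3 (s.sup id + 2), ((k : ℝ) - 1) ^ 2 / ((k : ℝ) * ((k : ℝ) - 2)) :=
    trb_sub hsub (fun k hk => hone k (mem_Icc.1 hk).1)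
  refine h1.trans ?_
  rw [trb_tel, div_le_iff₀ (by positivity)]
  linarith

/-- `SS m ≤ 4 C2 m / φ(m)` -/
theorem ss_le_phi (m : ℕ) (h0 : 0 < m) : SS m ≤ 4 * C2 * ((m : ℝ) / (Nat.totient m : ℝ)) := by
  have hC := C2_pos
  rw [phi_prod m h0]
  have hbig : ∏ p ∈ m.primeFactors.filter (fun p => 2 < p), (p : ℝ) / ((p : ℝ) - 1) ≤
      ∏ p ∈ m.primeFactors, (p : ℝ) / ((p : ℝ) - 1) := by
    have hone : ∀ p ∈ m.primeFactors, 1 ≤ (p : ℝ) / ((p : ℝ) - 1) := by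
      intro p hp
      have h2 : (2 : ℝ) ≤ p := by exact_mod_cast (Nat.prime_of_mem_primeFactors hp).two_le
      rw [le_div_iff₀ (by linarith)]
      linarith
    exact trb_sub (filter_subset _ _) hone
  have hF : 0 ≤ ∏ p ∈ m.primeFactors.filter (fun p => 2 < p), (p : ℝ) / ((p : ℝ) - 1) :=
    prod_nonneg fun p hp => by
      have h3 : (3 : ℝ) ≤ p := by exact_mod_cast (mem_filter.1 hp).2
      exact div_nonneg (by linarith) (by linarith)
  have hspl : ∏ p ∈ m.primeFactors.filter (fun p => 2 < p), ((p : ℝ) - 1) / ((p : ℝ) - 2) =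
      (∏ p ∈ m.primeFactors.filter (fun p => 2 < p), (p : ℝ) / ((p : ℝ) - 1)) *
      ∏ p ∈ m.primeFactors.filter (fun p => 2 < p),
        ((p : ℝ) - 1) ^ 2 / ((p : ℝ) * ((p : ℝ) - 2)) := by
    rw [← prod_mul_distrib]
    refine prod_congr rfl fun p hp => ?_
    have h3 : (3 : ℝ) ≤ p := by exact_mod_cast (mem_filter.1 hp).2
    have e1 : (p : ℝ) ≠ 0 := by linarith
    have e2 : (p : ℝ) - 1 ≠ 0 := by
      intro h
      linarith
    have e3 : (p : ℝ) - 2 ≠ 0 := by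
      intro h
      linarith
    field_simp
  have h2 := trb_prod (m.primeFactors.filter (fun p => 2 < p)) (fun p hp => (mem_filter.1 hp).2)
  unfold SS
  rw [hspl]
  calc 2 * C2 * ((∏ p ∈ m.primeFactors.filter (fun p => 2 < p), (p : ℝ) / ((p : ℝ) - 1)) *
        ∏ p ∈ m.primeFactors.filter (fun p => 2 < p),
          ((p : ℝ) - 1) ^ 2 / ((p : ℝ) * ((p : ℝ) - 2)))
      ≤ 2 * C2 * ((∏ p ∈ m.primeFactors.filter (fun p => 2 < p), (p : ℝ) / ((p : ℝ) - 1)) * 2) := by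
        gcongr
    _ = 4 * C2 * ∏ p ∈ m.primeFactors.filter (fun p => 2 < p), (p : ℝ) / ((p : ℝ) - 1) := by ring
    _ ≤ _ := by gcongr

private theorem trb_g (m : ℕ) :
    g m ≤ ((Icc 1 (m / 1)).filter (fun k => Rgh (zz m) k ∧ Rgh (zz m) (m - 1 * k))).card +
      2 * zz m := by
  have h1 : (range (m + 1)).filter (fun p => Nat.Prime p ∧ Nat.Prime (m - p)) ⊆
      ((Icc 1 (m / 1)).filter (fun k => Rgh (zz m) k ∧ Rgh (zz m) (m - 1 * k))) ∪
      (range (zz m) ∪ (range (zz m)).image (fun q => m - q)) := by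
    intro p hp
    rw [mem_filter, mem_range] at hp
    obtain ⟨hpm, h2, h3⟩ := hp
    rw [mem_union, mem_union]
    by_cases h4 : p < zz m
    · exact Or.inr (Or.inl (mem_range.2 h4))
    by_cases h5 : m - p < zz m
    · refine Or.inr (Or.inr (mem_image.2 ⟨m - p, mem_range.2 h5, ?_⟩))
      omega
    · refine Or.inl (mem_filter.2 ⟨mem_Icc.2 ⟨h2.one_le, by rw [Nat.div_one]; omega⟩, ?_, ?_⟩)
      · refine ⟨h2.ne_zero, fun q hq => ?_⟩
        rw [h2.primeFactors, mem_singleton] at hq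
        omega
      · rw [one_mul]
        refine ⟨h3.ne_zero, fun q hq => ?_⟩
        rw [h3.primeFactors, mem_singleton] at hq
        omega
  have h2 := (card_le_card h1).trans (card_union_le _ _)
  have h3 := card_union_le (range (zz m)) ((range (zz m)).image (fun q => m - q))
  have h4 : ((range (zz m)).image (fun q => m - q)).card ≤ zz m := by
    refine card_image_le.trans ?_
    rw [card_range]
  rw [card_range] at h3
  unfold g
  omega

theorem btG : BtG := by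
  unfold BtG rt
  obtain ⟨C1, X1, hC1, hsv⟩ := sieve4
  have hC2 := C2_pos
  refine ⟨12 * C1 * C2 + 10, by positivity, ?_⟩
  have e1 : ∀ᶠ X : ℕ in Filter.atTop, Real.log (X : ℝ) ^ (2 : ℕ) ≤ (X : ℝ) ^ (1 / 10 : ℝ) := by
    have h1 := (isLittleO_log_rpow_rpow_atTop (s := 1 / 10) (2 : ℝ) (by norm_num)).bound
      (show (0 : ℝ) < 1 by norm_num)
    have h2 := (tendsto_natCast_atTop_atTop (R := ℝ)).eventually h1
    filter_upwards [h2, Filter.eventually_ge_atTop 1] with X hX hX1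
    have hX1' : (1 : ℝ) ≤ (X : ℝ) := by exact_mod_cast hX1
    have h3 : 0 ≤ Real.log (X : ℝ) := Real.log_nonneg hX1'
    rw [one_mul, Real.norm_of_nonneg (by positivity), Real.norm_of_nonneg (by positivity)] at hX
    rwa [← Real.rpow_natCast]
  have e2 : ∀ᶠ X : ℕ in Filter.atTop, ((max X1 2 : ℕ) : ℝ) ≤ (X : ℝ) ^ (9 / 10 : ℝ) :=
    ((tendsto_rpow_atTop (by norm_num : (0 : ℝ) < 9 / 10)).comp
      tendsto_natCast_atTop_atTop).eventually_ge_atTop _
  obtain ⟨X2, hX2⟩ := Filter.eventually_atTop.1 (e1.and (e2.and (Filter.eventually_ge_atTop 3)))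
  refine ⟨X2, fun X hX m hm1 hm2 hme => ?_⟩
  obtain ⟨f1, f2, f3⟩ := hX2 X hX
  have hX3 : (3 : ℝ) ≤ (X : ℝ) := by exact_mod_cast f3
  have hX0 : (0 : ℝ) < (X : ℝ) := by linarith
  have hL1 : 1 ≤ Real.log (X : ℝ) := by
    rw [Real.le_log_iff_exp_le hX0]
    have := Real.exp_one_lt_d9
    linarith
  have hL0 : 0 < Real.log (X : ℝ) := by linarith
  have hphi : 1 ≤ (m : ℝ) / (Nat.totient m : ℝ) := by
    have h1 : (0 : ℝ) < (Nat.totient m : ℝ) := by exact_mod_cast Nat.totient_pos.2 (by omega)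
    rw [le_div_iff₀ h1, one_mul]
    exact_mod_cast Nat.totient_le m
  -- `X^(9/10) ≤ X / L²`
  have h910 : (X : ℝ) ^ (9 / 10 : ℝ) ≤ X / Real.log X ^ 2 := by
    rw [le_div_iff₀ (by positivity)]
    calc (X : ℝ) ^ (9 / 10 : ℝ) * Real.log X ^ 2 ≤
        (X : ℝ) ^ (9 / 10 : ℝ) * (X : ℝ) ^ (1 / 10 : ℝ) := by gcongr
      _ = X := by
          rw [← Real.rpow_add hX0]
          norm_num
  have hXL : 0 ≤ (X : ℝ) / Real.log X ^ 2 := by positivity
  have h1910 : 1 ≤ (X : ℝ) ^ (9 / 10 : ℝ) := Real.one_le_rpow (by linarith) (by norm_num)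
  have hm1' : (1 : ℝ) ≤ (m : ℝ) := by exact_mod_cast hm1
  have hm2' : (m : ℝ) ≤ 2 * X := by exact_mod_cast hm2
  by_cases hsm : (m : ℝ) ≤ (X : ℝ) ^ (9 / 10 : ℝ)
  · have h1 : (g m : ℝ) ≤ m + 1 := by
      have h2 : g m ≤ m + 1 := by
        unfold g
        refine (card_filter_le _ _).trans ?_
        rw [card_range]
      exact_mod_cast h2
    calc (g m : ℝ) ≤ 2 * (X / Real.log X ^ 2) := by linarith
      _ = 2 * 1 * (X / Real.log X ^ 2) := by ring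
      _ ≤ (12 * C1 * C2 + 10) * ((m : ℝ) / (Nat.totient m : ℝ)) * (X / Real.log X ^ 2) := by
          have : (0 : ℝ) ≤ 12 * C1 * C2 := by positivity
          gcongr
          linarith
  · push Not at hsm
    have hmX1 : X1 ≤ m := by
      have h1 : ((max X1 2 : ℕ) : ℝ) < (m : ℝ) := lt_of_le_of_lt f2 hsm
      have h2 : max X1 2 < m := by exact_mod_cast h1
      omega
    have hm0 : (0 : ℝ) < (m : ℝ) := by linarith
    have h1 := hsv m hmX1 m 1 (by omega) le_rfl hme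
      ⟨one_ne_zero, fun p hp => by simp at hp⟩ (by
        rw [Nat.cast_one]
        exact Real.one_le_rpow hm1' (by norm_num))
    have h2 := trb_g m
    have h2' : (g m : ℝ) ≤
        (((Icc 1 (m / 1)).filter (fun k => Rgh (zz m) k ∧ Rgh (zz m) (m - 1 * k))).card : ℝ) +
          2 * (zz m : ℝ) := by exact_mod_cast h2
    have h3 : (zz m : ℝ) ≤ 2 * (m : ℝ) ^ (1 / 20 : ℝ) := by
      have h4 : (1 : ℝ) ≤ (m : ℝ) ^ (1 / 20 : ℝ) := Real.one_le_rpow hm1' (by norm_num)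
      have h5 := Nat.ceil_lt_add_one (show (0 : ℝ) ≤ (m : ℝ) ^ (1 / 20 : ℝ) by positivity)
      unfold zz
      linarith
    have h4 : (m : ℝ) ^ (1 / 20 : ℝ) ≤ 2 * (X : ℝ) ^ (9 / 10 : ℝ) := by
      calc (m : ℝ) ^ (1 / 20 : ℝ) ≤ (2 * X : ℝ) ^ (1 / 20 : ℝ) :=
            Real.rpow_le_rpow hm0.le hm2' (by norm_num)
        _ = (2 : ℝ) ^ (1 / 20 : ℝ) * (X : ℝ) ^ (1 / 20 : ℝ) :=
            Real.mul_rpow (by norm_num) hX0.le
        _ ≤ (2 : ℝ) ^ (1 : ℝ) * (X : ℝ) ^ (9 / 10 : ℝ) := by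
            refine mul_le_mul (Real.rpow_le_rpow_of_exponent_le (by norm_num) (by norm_num))
              (Real.rpow_le_rpow_of_exponent_le (by linarith) (by norm_num)) (by positivity)
              (by positivity)
        _ = _ := by rw [Real.rpow_one]
    have hlog : 9 / 10 * Real.log X ≤ Real.log m := by
      rw [← Real.log_rpow hX0]
      exact Real.log_le_log (by positivity) hsm.le
    have h5 : (m : ℝ) / Real.log m ^ 2 ≤ 3 * (X / Real.log X ^ 2) := by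
      have h6 : (9 / 10 * Real.log X) ^ 2 ≤ Real.log m ^ 2 := by gcongr
      calc (m : ℝ) / Real.log m ^ 2 ≤ 2 * X / (9 / 10 * Real.log X) ^ 2 :=
            div_le_div₀ (by positivity) hm2' (by positivity) h6
        _ = 200 / 81 * (X / Real.log X ^ 2) := by
            rw [mul_pow]
            ring
        _ ≤ _ := by nlinarith
    have h6 := ss_le_phi m (by omega)
    have hSS : 0 ≤ (m : ℝ) / (Nat.totient m : ℝ) := by linarith
    have h7 : C1 * SS m * ((m : ℝ) / ((1 : ℕ) : ℝ)) / Real.log m ^ 2 ≤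
        12 * C1 * C2 * ((m : ℝ) / (Nat.totient m : ℝ)) * (X / Real.log X ^ 2) := by
      rw [Nat.cast_one, div_one]
      calc C1 * SS m * (m : ℝ) / Real.log m ^ 2 = C1 * SS m * ((m : ℝ) / Real.log m ^ 2) := by ring
        _ ≤ C1 * (4 * C2 * ((m : ℝ) / (Nat.totient m : ℝ))) * (3 * (X / Real.log X ^ 2)) := by
            gcongr
        _ = _ := by ring
    have h8 : 8 * (X / Real.log X ^ 2) ≤
        10 * ((m : ℝ) / (Nat.totient m : ℝ)) * (X / Real.log X ^ 2) := by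
      have : 8 * 1 * (X / Real.log X ^ 2) ≤
          10 * ((m : ℝ) / (Nat.totient m : ℝ)) * (X / Real.log X ^ 2) := by gcongr; norm_num
      linarith
    calc (g m : ℝ) ≤ C1 * SS m * ((m : ℝ) / ((1 : ℕ) : ℝ)) / Real.log m ^ 2 +
          8 * (X / Real.log X ^ 2) := by linarith
      _ ≤ 12 * C1 * C2 * ((m : ℝ) / (Nat.totient m : ℝ)) * (X / Real.log X ^ 2) +
          10 * ((m : ℝ) / (Nat.totient m : ℝ)) * (X / Real.log X ^ 2) := add_le_add h7 h8
      _ = _ := by ring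

end Pool.MP_dd84fd_nt.TC
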