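import Pool.Agent.Lib.MP_dd84fd_nt.TC.TrDefs
import Pool.Agent.Lib.MP_dd84fd_nt.EF.Av
import Pool.Agent.Lib.MP_dd84fd_nt.BX.LsH

/-!
# TC-TrC: size and continuity of the integrals of the explicit formula

`IS X m - IS X n = ∫ S₁ S₂ (e(-m x) - e(-n x))`, `|e(-m x) - e(-n x)| ≤ 2π |m - n| |x|`, `|x| ≤ 2 T/X`, and
`∫ |S₁ S₂| ≤ C X/L²` (`sum_sN` for one character).
-/

set_option autoImplicit false

namespace Pool.MP_dd84fd_nt.TC

open Finset Pool.MP_67663b_nt.Odd Pool.MP_dd84fd_nt.En Pool.MP_dd84fd_nt.E2 Pool.MP_dd84fd_nt.LS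
open Pool.MP_dd84fd_nt.GX Pool.MP_dd84fd_nt.HX Pool.MP_dd84fd_nt.IX
open Pool.MP_dd84fd_nt.BX (PC pv IsPC PR SX sN)
open Pool.MP_dd84fd_nt.EF (II IS av SX_cont IS_cont norm_av_le sum_av_sub_le)

private theorem trc_int (X : ℕ) (hX : 1 ≤ X) (ψ : PC) (v V C : ℝ) (hv : 0 ≤ v) (hvV : v ≤ V)
    (hL : 0 < Real.log X) (hs : sN X V ψ ^ 2 ≤ C) :
    ∫ x in (-(v / X))..(v / X), ‖SX X ψ x‖ ^ 2 ≤ C * (X / Real.log X ^ 2) := by
  have hX0 : (0 : ℝ) < X := by exact_mod_cast hX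
  have hc : Continuous fun x : ℝ => ‖SX X ψ x‖ ^ 2 := ((SX_cont X ψ).norm).pow 2
  have hV0 : 0 ≤ V := hv.trans hvV
  have h1 : ∫ x in (-(v / X))..(v / X), ‖SX X ψ x‖ ^ 2 ≤
      ∫ x in (-(V / X))..(V / X), ‖SX X ψ x‖ ^ 2 := by
    have hvx : v / (X : ℝ) ≤ V / X := div_le_div_of_nonneg_right hvV hX0.le
    have hvx0 : 0 ≤ v / (X : ℝ) := by positivity
    refine intervalIntegral.integral_mono_interval (by linarith) (by linarith) hvx ?_
      (hc.intervalIntegrable _ _)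
    exact Filter.Eventually.of_forall fun x => by positivity
  refine h1.trans ?_
  have h2 : 0 ≤ ∫ x in (-(V / X))..(V / X), ‖SX X ψ x‖ ^ 2 := by
    have : 0 ≤ V / (X : ℝ) := by positivity
    exact intervalIntegral.integral_nonneg (by linarith) fun x _ => by positivity
  have h3 : sN X V ψ ^ 2 = Real.log X ^ 2 / X * ∫ x in (-(V / X))..(V / X), ‖SX X ψ x‖ ^ 2 := by
    unfold sN
    rw [mul_pow, _root_.div_pow, Real.sq_sqrt hX0.le, Real.sq_sqrt h2]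
  rw [h3] at hs
  have h4 : ∫ x in (-(V / X))..(V / X), ‖SX X ψ x‖ ^ 2 =
      (Real.log X ^ 2 / X * ∫ x in (-(V / X))..(V / X), ‖SX X ψ x‖ ^ 2) * (X / Real.log X ^ 2) := by
    field_simp
  rw [h4]
  exact mul_le_mul_of_nonneg_right hs (by positivity)

/-- an integral over `|x| ≤ v/X` with a factor bounded by `κ` -/
private theorem trc_fac (X : ℕ) (hX : 1 ≤ X) (ψ₁ ψ₂ : PC) (v V C κ : ℝ) (hv : 0 ≤ v) (hvV : v ≤ V)
    (hL : 0 < Real.log X) (hs1 : sN X V ψ₁ ^ 2 ≤ C) (hs2 : sN X V ψ₂ ^ 2 ≤ C) (hκ : 0 ≤ κ)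
    (f : ℝ → ℂ) (hf : ∀ x : ℝ, |x| ≤ v / X → ‖f x‖ ≤ κ) :
    ‖∫ x in (-(v / X))..(v / X), SX X ψ₁ x * SX X ψ₂ x * f x‖ ≤ κ * (C * (X / Real.log X ^ 2)) := by
  have hX0 : (0 : ℝ) < X := by exact_mod_cast hX
  have hvx0 : 0 ≤ v / (X : ℝ) := by positivity
  have hc : ∀ ψ : PC, Continuous fun x : ℝ => ‖SX X ψ x‖ ^ 2 := fun ψ => ((SX_cont X ψ).norm).pow 2
  have h1 := trc_int X hX ψ₁ v V C hv hvV hL hs1
  have h2 := trc_int X hX ψ₂ v V C hv hvV hL hs2
  have h3 : ‖∫ x in (-(v / X))..(v / X), SX X ψ₁ x * SX X ψ₂ x * f x‖ ≤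
      ∫ x in (-(v / X))..(v / X), (κ * (‖SX X ψ₁ x‖ ^ 2 / 2 + ‖SX X ψ₂ x‖ ^ 2 / 2)) := by
    refine intervalIntegral.norm_integral_le_of_norm_le (by linarith) ?_ ?_
    · refine Filter.Eventually.of_forall fun x hx => ?_
      have hx' : |x| ≤ v / X := by
        rw [abs_le]
        exact ⟨hx.1.le, hx.2⟩
      have h4 := hf x hx'
      rw [norm_mul, norm_mul]
      have h5 : ‖SX X ψ₁ x‖ * ‖SX X ψ₂ x‖ ≤ ‖SX X ψ₁ x‖ ^ 2 / 2 + ‖SX X ψ₂ x‖ ^ 2 / 2 := by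
        nlinarith [sq_nonneg (‖SX X ψ₁ x‖ - ‖SX X ψ₂ x‖)]
      calc ‖SX X ψ₁ x‖ * ‖SX X ψ₂ x‖ * ‖f x‖ ≤
          (‖SX X ψ₁ x‖ ^ 2 / 2 + ‖SX X ψ₂ x‖ ^ 2 / 2) * κ :=
            mul_le_mul h5 h4 (norm_nonneg _) (by positivity)
        _ = _ := by ring
    · exact (continuous_const.mul
        (((hc ψ₁).div_const 2).add ((hc ψ₂).div_const 2))).intervalIntegrable _ _
  refine h3.trans ?_
  rw [intervalIntegral.integral_const_mul,
    intervalIntegral.integral_add (((hc ψ₁).div_const 2).intervalIntegrable _ _)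
    (((hc ψ₂).div_const 2).intervalIntegrable _ _), intervalIntegral.integral_div,
    intervalIntegral.integral_div]
  exact mul_le_mul_of_nonneg_left (by linarith) hκ

theorem iiC : IIC := by
  have hCB : 0 ≤ 5 * (1000 * BX.CB + 1) ^ 2 := by positivity
  refine ⟨16 * (5 * (1000 * BX.CB + 1) ^ 2) + 1, by linarith, fun B => ?_⟩
  obtain ⟨X1, hX1⟩ := BX.sum_sN (B + 1)
  have ht3 : Filter.Tendsto (fun X : ℕ => Real.log (X : ℝ)) Filter.atTop Filter.atTop :=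
    Real.tendsto_log_atTop.comp tendsto_natCast_atTop_atTop
  obtain ⟨X3, hX3⟩ := Filter.eventually_atTop.1 (ht3.eventually_ge_atTop 2)
  refine ⟨max X1 (max X3 1), fun X hX ψ₁ ψ₂ q1 q2 m n => ?_⟩
  simp only [max_le_iff] at hX
  obtain ⟨x1, x3, x4⟩ := hX
  have h1 := hX1 X x1
  have hL2 : 2 ≤ Real.log X := hX3 X x3
  have hL1 : 1 ≤ Real.log X := by linarith
  have hL0 : 0 < Real.log X := by linarith
  have hXR : (1 : ℝ) ≤ X := by exact_mod_cast x4
  have hXp : (0 : ℝ) < X := by linarith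
  have hT1 : 1 ≤ Real.log X ^ B := one_le_pow₀ hL1
  have hV1 : 1 ≤ 2 * Real.log X ^ B := by linarith
  have hV2 : 2 * Real.log X ^ B ≤ Real.log X ^ (B + 1) := by
    rw [pow_succ, mul_comm (Real.log X ^ B)]
    exact mul_le_mul_of_nonneg_right hL2 (by positivity)
  have hs : ∀ ψ : PC, (IsPC ψ ∧ 2 ≤ ψ.1 ∧ (ψ.1 : ℝ) ≤ (X : ℝ) ^ (2 / 3 : ℝ)) →
      sN X (2 * Real.log X ^ B) ψ ^ 2 ≤ 5 * (1000 * BX.CB + 1) ^ 2 := by
    intro ψ hψ
    have k1 := h1 (2 * Real.log X ^ B) hV1 hV2 {ψ} (by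
      rw [card_singleton, Nat.cast_one]
      exact Real.one_le_rpow hXR (by norm_num)) (by
      intro ψ' hψ'
      rw [mem_singleton] at hψ'
      rw [hψ']
      exact hψ)
    rwa [sum_singleton] at k1
  have hXL : 0 ≤ (X : ℝ) / Real.log X ^ 2 := by positivity
  constructor
  · have k2 : ‖II X n (Real.log X ^ B) ψ₁ ψ₂‖ ≤
        5 * (1000 * BX.CB + 1) ^ 2 * (X / Real.log X ^ 2) := by
      unfold II
      refine norm_av_le _ _ _ fun u hu1 hu2 => ?_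
      have hu : 0 ≤ Real.log X ^ B * u := by positivity
      have h5 := trc_fac X x4 ψ₁ ψ₂ (Real.log X ^ B * u) (2 * Real.log X ^ B) _ 1 hu (by
        rw [mul_comm]
        exact mul_le_mul_of_nonneg_right hu2 (by positivity)) hL0 (hs ψ₁ q1) (hs ψ₂ q2)
        zero_le_one (fun x => ee (-((n : ℝ) * x))) (fun x _ => (norm_ee _).le)
      rw [one_mul] at h5
      exact h5
    refine k2.trans (mul_le_mul_of_nonneg_right ?_ hXL)
    linarith
  · have hmn : 0 ≤ |(m : ℝ) - n| := abs_nonneg _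
    have hpi : Real.pi ≤ 4 := Real.pi_le_four
    have key : ∀ u : ℝ, 1 ≤ u → u ≤ 2 →
        ‖IS X m ψ₁ ψ₂ (Real.log X ^ B * u) - IS X n ψ₁ ψ₂ (Real.log X ^ B * u)‖ ≤
          (16 * |(m : ℝ) - n| * (Real.log X ^ B / X)) *
            (5 * (1000 * BX.CB + 1) ^ 2 * (X / Real.log X ^ 2)) := by
      intro u hu1 hu2
      have hu : 0 ≤ Real.log X ^ B * u := by positivity
      have hu' : Real.log X ^ B * u ≤ 2 * Real.log X ^ B := by
        rw [mul_comm]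
        exact mul_le_mul_of_nonneg_right hu2 (by positivity)
      unfold IS
      have hcc : ∀ k : ℕ, Continuous fun x : ℝ =>
          SX X ψ₁ x * SX X ψ₂ x * ee (-((k : ℝ) * x)) := fun k => by
        have h := EF.ee_cont
        have h1 := SX_cont X ψ₁
        have h2 := SX_cont X ψ₂
        fun_prop
      rw [← intervalIntegral.integral_sub ((hcc m).intervalIntegrable _ _)
        ((hcc n).intervalIntegrable _ _)]
      simp only [← mul_sub]
      refine trc_fac X x4 ψ₁ ψ₂ (Real.log X ^ B * u) (2 * Real.log X ^ B) _ _ hu hu' hL0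
        (hs ψ₁ q1) (hs ψ₂ q2) (by positivity)
        (fun x => ee (-((m : ℝ) * x)) - ee (-((n : ℝ) * x))) (fun x hx => ?_)
      refine (norm_ee_sub_ee_le _ _).trans ?_
      have h6 : |-((m : ℝ) * x) - -((n : ℝ) * x)| = |(m : ℝ) - n| * |x| := by
        rw [← abs_mul, ← abs_neg]
        congr 1
        ring
      rw [h6]
      have h7 : |x| ≤ 2 * (Real.log X ^ B / X) := by
        refine hx.trans ?_
        rw [← mul_div_assoc]
        exact div_le_div_of_nonneg_right hu' hXp.le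
      calc 2 * Real.pi * (|(m : ℝ) - n| * |x|) ≤
            2 * 4 * (|(m : ℝ) - n| * (2 * (Real.log X ^ B / X))) := by gcongr
        _ = 16 * |(m : ℝ) - n| * (Real.log X ^ B / X) := by ring
    have h8 := sum_av_sub_le ({()} : Finset Unit) ({()} : Finset Unit)
      (fun _ => IS X m ψ₁ ψ₂) (fun _ => IS X n ψ₁ ψ₂) (fun _ => Real.log X ^ B)
      (fun _ => Real.log X ^ B) (fun _ _ => IS_cont X m ψ₁ ψ₂) (fun _ _ => IS_cont X n ψ₁ ψ₂)
      ((16 * |(m : ℝ) - n| * (Real.log X ^ B / X)) *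
        (5 * (1000 * BX.CB + 1) ^ 2 * (X / Real.log X ^ 2))) (by
        intro u hu1 hu2
        rw [sum_singleton, sum_singleton]
        exact key u hu1 hu2)
    rw [sum_singleton, sum_singleton] at h8
    refine h8.trans ?_
    have h9 : 0 ≤ |(m : ℝ) - n| * (Real.log X ^ B / X) * (X / Real.log X ^ 2) := by positivity
    calc (16 * |(m : ℝ) - n| * (Real.log X ^ B / X)) *
          (5 * (1000 * BX.CB + 1) ^ 2 * (X / Real.log X ^ 2)) =
        16 * (5 * (1000 * BX.CB + 1) ^ 2) *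
          (|(m : ℝ) - n| * (Real.log X ^ B / X) * (X / Real.log X ^ 2)) := by ring
      _ ≤ (16 * (5 * (1000 * BX.CB + 1) ^ 2) + 1) *
          (|(m : ℝ) - n| * (Real.log X ^ B / X) * (X / Real.log X ^ 2)) :=
          mul_le_mul_of_nonneg_right (by linarith) h9
      _ = _ := by ring

end Pool.MP_dd84fd_nt.TC
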