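import Pool.Agent.Lib.MP_dd84fd_nt.TC.TrDefs

/-!
# TC-TrE (1.2 h): the Euler product

Proof.  `f_n(k) = et r n k` is multiplicative on coprime arguments (`rs (k l) n = rs k n rs l n` for coprime
`k, l`), `f_n(1) = 1`, `f_n(p^e) = 0` for `e ≥ 2`, `f_n(p) = 0` for `p ∣ r`, and for `p ∤ r`: `f_n(p) =
1/(p-1)` if `p ∣ n`, `-1/(p-1)²` otherwise (`rs p n = p - 1` or `-1`).  Summable: `‖f_n(k)‖ ≤ (n/φ(n)-like
constant depending on n)·μ²(k)/φ(k)²...`: `‖rs k n‖ ≤ φ((k,n)) ≤ n`, `Σ 1/φ(k)² < ∞` (in the library: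
BG/Ser, En/Sing).  `EulerProduct.eulerProduct_hasProd`: `HasProd (fun p => Σ' e, f_n(p^e)) (Σ' k, f_n k)`,
with `Σ' e, f_n(p^e) = 1 + f_n(p)`.  Let `b_n(p) = (p-1)/(p-2)` if `p > 2, p ∣ n, p ∤ r`, otherwise `1`
(finitely many `≠ 1`: `hasProd_prod_of_ne_finset_one`).  `(1 + f_m(p)) b_n(p) = (1 + f_n(p)) b_m(p)` for all
`p` (`(1 + 1/(p-1))/(1 - 1/(p-1)²) = (p-1)/(p-2)`; `p = 2`: `m, n` even, both sides equal).  `HasProd.mul`,
`HasProd.unique`: `E_m B_n = E_n B_m`.  `SS n = 2 C2 B_n ∏_{p ∣ n, p ∣ r, p > 2} (p-1)/(p-2)` and the last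
product is the same for `m` (`p ∣ r`, `m ≡ n (r)`).  The factors are complex numbers: cast.
-/

set_option autoImplicit false

namespace Pool.MP_dd84fd_nt.TC

open Finset Pool.MP_67663b_nt.Odd Pool.MP_dd84fd_nt.En Pool.MP_dd84fd_nt.E2 Pool.MP_dd84fd_nt.LS
open Pool.MP_dd84fd_nt.GX Pool.MP_dd84fd_nt.HX Pool.MP_dd84fd_nt.IX
open Pool.MP_dd84fd_nt.BX (PC pv IsPC PR SX sN prc ind GauBD h0 cP)

/-! ### The Ramanujan sum -/

private theorem te_geom (m n : ℕ) (hm : 1 ≤ m) :
    ∑ j ∈ Finset.range m, ee ((n : ℝ) * ((j : ℝ) / m)) = if m ∣ n then (m : ℂ) else 0 := by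
  have hm0 : (m : ℝ) ≠ 0 := by
    have : 0 < m := hm
    positivity
  have hpow : ∀ j : ℕ, ee ((n : ℝ) * ((j : ℝ) / m)) = ee ((n : ℝ) / m) ^ j := by
    intro j
    induction j with
    | zero => simp [ee_zero]
    | succ j ih =>
      rw [pow_succ, ← ih, ← ee_add]
      congr 1
      push_cast
      ring
  simp only [hpow]
  split_ifs with h1
  · obtain ⟨t, rfl⟩ := h1
    have h2 : ee (((m * t : ℕ) : ℝ) / m) = 1 := by
      have : ((m * t : ℕ) : ℝ) / m = ((t : ℤ) : ℝ) := by
        push_cast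
        field_simp
      rw [this, ee_int]
    rw [h2]
    simp
  · have hne : ee ((n : ℝ) / m) ≠ 1 := by
      intro he
      unfold ee at he
      rw [Complex.exp_eq_one_iff] at he
      obtain ⟨k, hk⟩ := he
      have h2 : (((n : ℝ) / m : ℝ) : ℂ) = (k : ℂ) := by
        have h3 : (((n : ℝ) / m : ℝ) : ℂ) * (2 * Real.pi * Complex.I) =
            (k : ℂ) * (2 * Real.pi * Complex.I) := by
          rw [← hk]
          ring
        exact mul_right_cancel₀ Complex.two_pi_I_ne_zero h3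
      have h4 : ((n : ℝ) / m : ℝ) = (k : ℝ) := by exact_mod_cast h2
      rw [div_eq_iff hm0] at h4
      have h5 : (n : ℤ) = k * m := by exact_mod_cast h4
      have h6 : m ∣ n := by
        have : (m : ℤ) ∣ (n : ℤ) := ⟨k, by rw [h5]; ring⟩
        exact_mod_cast this
      exact h1 h6
    have hone : ee ((n : ℝ) / m) ^ m = 1 := by
      rw [← hpow]
      have : (n : ℝ) * ((m : ℝ) / m) = ((n : ℤ) : ℝ) := by
        rw [div_self hm0, mul_one]
        simp
      rw [this, ee_int]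
    rw [geom_sum_eq hne, hone, sub_self, zero_div]

private theorem te_ind (r b : ℕ) (hr : r ≠ 0) :
    ∑ d ∈ r.divisors.filter (fun d => d ∣ b), ((ArithmeticFunction.moebius d : ℤ) : ℂ) =
      if Nat.Coprime b r then 1 else 0 := by
  have h1 : r.divisors.filter (fun d => d ∣ b) = (Nat.gcd r b).divisors := by
    ext d
    simp only [Finset.mem_filter, Nat.mem_divisors, Nat.dvd_gcd_iff]
    have : Nat.gcd r b ≠ 0 := Nat.gcd_ne_zero_left hr
    tauto
  rw [h1]
  have h2 : ∑ d ∈ (Nat.gcd r b).divisors, (ArithmeticFunction.moebius d : ℤ) =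
      if Nat.gcd r b = 1 then 1 else 0 := by
    have h3 := congrArg (fun f : ArithmeticFunction ℤ => f (Nat.gcd r b))
      ArithmeticFunction.moebius_mul_coe_zeta
    simp only [ArithmeticFunction.coe_mul_zeta_apply, ArithmeticFunction.one_apply] at h3
    exact h3
  have h4 : (∑ d ∈ (Nat.gcd r b).divisors, ((ArithmeticFunction.moebius d : ℤ) : ℂ)) =
      ((∑ d ∈ (Nat.gcd r b).divisors, (ArithmeticFunction.moebius d : ℤ) : ℤ) : ℂ) := by
    push_cast
    rfl
  rw [h4, h2]
  have h5 : Nat.Coprime b r ↔ Nat.gcd r b = 1 := by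
    rw [Nat.gcd_comm]
  by_cases h : Nat.gcd r b = 1
  · rw [if_pos h, if_pos (h5.mpr h)]
    simp
  · rw [if_neg h, if_neg (fun hh => h (h5.mp hh))]
    simp

/-- the function `d ↦ d [d ∣ n]` -/
private def te_g (n : ℕ) : ArithmeticFunction ℤ := ⟨fun d => if d ∣ n then (d : ℤ) else 0, by
  simp⟩

private theorem te_g_apply (n d : ℕ) : te_g n d = if d ∣ n then (d : ℤ) else 0 := rfl

private theorem te_g_mult (n : ℕ) : (te_g n).IsMultiplicative := by
  constructor
  · rw [te_g_apply]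
    simp
  · intro a b hab
    rw [te_g_apply, te_g_apply, te_g_apply]
    by_cases ha : a ∣ n
    · by_cases hb : b ∣ n
      · rw [if_pos ha, if_pos hb, if_pos (hab.mul_dvd_of_dvd_of_dvd ha hb)]
        push_cast
        ring
      · rw [if_neg hb, if_neg (fun h => hb ((Dvd.intro_left a rfl).trans h)), mul_zero]
    · rw [if_neg ha, if_neg (fun h => ha ((Dvd.intro b rfl).trans h)), zero_mul]

/-- the Ramanujan sum as an arithmetic function of the modulus -/
private def te_c (n : ℕ) : ArithmeticFunction ℤ := ArithmeticFunction.moebius * te_g n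

private theorem te_c_mult (n : ℕ) : (te_c n).IsMultiplicative :=
  ArithmeticFunction.isMultiplicative_moebius.mul (te_g_mult n)

private theorem te_c_eq (n k : ℕ) : te_c n k =
    ∑ d ∈ k.divisors, ArithmeticFunction.moebius d * (if k / d ∣ n then ((k / d : ℕ) : ℤ) else 0) := by
  unfold te_c
  rw [ArithmeticFunction.mul_apply]
  exact Nat.sum_divisorsAntidiagonal (fun a b => ArithmeticFunction.moebius a * te_g n b)

private theorem te_ram (r n : ℕ) (hr : 1 ≤ r) :
    ∑ a ∈ (range r).filter (fun a => Nat.Coprime a r), ee ((n : ℝ) * ((a : ℝ) / r)) =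
      ((te_c n r : ℤ) : ℂ) := by
  have hr0 : r ≠ 0 := by omega
  have hr1 : (r : ℝ) ≠ 0 := by exact_mod_cast hr0
  have e1 : ∑ b ∈ (range r).filter (fun a => Nat.Coprime a r), ee ((n : ℝ) * ((b : ℝ) / r)) =
      ∑ b ∈ Finset.range r, ∑ d ∈ r.divisors, if d ∣ b then
        ((ArithmeticFunction.moebius d : ℤ) : ℂ) * ee ((n : ℝ) * ((b : ℝ) / r)) else 0 := by
    rw [Finset.sum_filter]
    refine Finset.sum_congr rfl fun b _ => ?_
    rw [← Finset.sum_filter, ← Finset.sum_mul, te_ind r b hr0]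
    split_ifs <;> simp
  rw [e1, Finset.sum_comm, te_c_eq, Int.cast_sum]
  refine Finset.sum_congr rfl fun d hd => ?_
  rw [Nat.mem_divisors] at hd
  obtain ⟨m, hm⟩ := hd.1
  have hd0 : d ≠ 0 := by
    rintro rfl
    exact hr0 (by rw [hm, zero_mul])
  have hm0 : m ≠ 0 := by
    rintro rfl
    exact hr0 (by rw [hm, mul_zero])
  have hd1 : (d : ℝ) ≠ 0 := by exact_mod_cast hd0
  have hm1 : (m : ℝ) ≠ 0 := by exact_mod_cast hm0
  have hrd : r / d = m := by
    rw [hm]
    exact Nat.mul_div_cancel_left m (Nat.pos_of_ne_zero hd0)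
  rw [hrd]
  have e3 : (∑ b ∈ Finset.range r, if d ∣ b then
      ((ArithmeticFunction.moebius d : ℤ) : ℂ) * ee ((n : ℝ) * ((b : ℝ) / r)) else 0) =
      ∑ j ∈ Finset.range m,
        ((ArithmeticFunction.moebius d : ℤ) : ℂ) * ee ((n : ℝ) * ((j : ℝ) / m)) := by
    rw [← Finset.sum_filter]
    symm
    refine Finset.sum_bij (fun j _ => d * j) ?_ ?_ ?_ ?_
    · intro j hj
      rw [Finset.mem_range] at hj
      rw [Finset.mem_filter, Finset.mem_range, hm]
      exact ⟨Nat.mul_lt_mul_of_pos_left hj (Nat.pos_of_ne_zero hd0), dvd_mul_right d j⟩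
    · intro j _ j' _ h
      exact Nat.eq_of_mul_eq_mul_left (Nat.pos_of_ne_zero hd0) h
    · intro b hb
      rw [Finset.mem_filter, Finset.mem_range] at hb
      obtain ⟨j, rfl⟩ := hb.2
      refine ⟨j, ?_, rfl⟩
      rw [Finset.mem_range]
      have := hb.1
      rw [hm] at this
      exact Nat.lt_of_mul_lt_mul_left this
    · intro j _
      congr 2
      rw [hm]
      push_cast
      field_simp
  rw [e3, ← Finset.mul_sum, te_geom m n (Nat.one_le_iff_ne_zero.mpr hm0), Int.cast_mul]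
  congr 1
  split_ifs
  · rw [Int.cast_natCast]
  · rw [Int.cast_zero]

private theorem te_ee_neg (x : ℝ) : ee (-x) = (starRingEnd ℂ) (ee x) := by
  unfold ee
  rw [← Complex.exp_conj]
  congr 1
  simp only [map_mul, Complex.conj_I, Complex.conj_ofReal, map_ofNat]
  push_cast
  ring

private theorem te_rs (k n : ℕ) (hk : 1 ≤ k) : rs k n = ((te_c n k : ℤ) : ℂ) := by
  unfold rs
  have h1 : ∀ a ∈ (range k).filter (fun a => Nat.Coprime a k), ee (-((n : ℝ) * ((a : ℝ) / k))) =
      (starRingEnd ℂ) (ee ((n : ℝ) * ((a : ℝ) / k))) := fun a _ => te_ee_neg _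
  rw [sum_congr rfl h1, ← map_sum, te_ram k n hk]
  simp

/-! ### The terms -/

open Classical in
private noncomputable def te_f (r n k : ℕ) : ℝ :=
  if Squarefree k ∧ Nat.Coprime k r then ((te_c n k : ℤ) : ℝ) / (Nat.totient k : ℝ) ^ 2 else 0

private theorem te_et (r n k : ℕ) : et r n k = ((te_f r n k : ℝ) : ℂ) := by
  classical
  unfold et te_f
  split_ifs with h
  · rw [te_rs k n (Nat.pos_of_ne_zero h.1.ne_zero)]
    push_cast
    ring
  · simp

private theorem te_f_one (r n : ℕ) : te_f r n 1 = 1 := by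
  unfold te_f
  rw [if_pos ⟨squarefree_one, Nat.coprime_one_left r⟩, (te_c_mult n).map_one]
  simp

private theorem te_f_zero (r n : ℕ) : te_f r n 0 = 0 := by
  unfold te_f
  rw [if_neg]
  intro h
  exact h.1.ne_zero rfl

private theorem te_f_mul (r n : ℕ) {a b : ℕ} (hab : Nat.Coprime a b) :
    te_f r n (a * b) = te_f r n a * te_f r n b := by
  unfold te_f
  by_cases ha : Squarefree a ∧ Nat.Coprime a r
  · by_cases hb : Squarefree b ∧ Nat.Coprime b r
    · rw [if_pos ha, if_pos hb, if_pos ⟨(Nat.squarefree_mul hab).2 ⟨ha.1, hb.1⟩,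
        Nat.Coprime.mul_left ha.2 hb.2⟩, (te_c_mult n).map_mul_of_coprime hab,
        Nat.totient_mul hab]
      push_cast
      rw [mul_pow, mul_div_mul_comm]
    · rw [if_neg hb, if_neg, mul_zero]
      intro h
      exact hb ⟨((Nat.squarefree_mul hab).1 h.1).2, Nat.Coprime.coprime_mul_left h.2⟩
  · rw [if_neg ha, if_neg, zero_mul]
    intro h
    exact ha ⟨((Nat.squarefree_mul hab).1 h.1).1, Nat.Coprime.coprime_mul_right h.2⟩

private theorem te_c_prime (n p : ℕ) (hp : p.Prime) :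
    te_c n p = if p ∣ n then (p : ℤ) - 1 else -1 := by
  rw [te_c_eq, hp.divisors, Finset.sum_pair hp.one_lt.ne]
  rw [ArithmeticFunction.moebius_apply_one, ArithmeticFunction.moebius_apply_prime hp,
    Nat.div_one, Nat.div_self hp.pos]
  simp only [one_dvd, if_true, Nat.cast_one, mul_one]
  split_ifs <;> ring

private theorem te_c_bd (n k : ℕ) (hn : 1 ≤ n) :
    |((te_c n k : ℤ) : ℝ)| ≤ ∑ d ∈ n.divisors, (d : ℝ) := by
  unfold te_c
  rw [ArithmeticFunction.mul_apply, Nat.sum_divisorsAntidiagonal'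
    (fun a b => ArithmeticFunction.moebius a * te_g n b)]
  push_cast
  refine (abs_sum_le_sum_abs _ _).trans ?_
  have h1 : ∀ d ∈ k.divisors, |((ArithmeticFunction.moebius (k / d) : ℤ) : ℝ) *
      ((te_g n d : ℤ) : ℝ)| ≤ if d ∣ n then (d : ℝ) else 0 := by
    intro d _
    have hmu : |((ArithmeticFunction.moebius (k / d) : ℤ) : ℝ)| ≤ 1 := by
      exact_mod_cast ArithmeticFunction.abs_moebius_le_one
    rw [abs_mul, te_g_apply]
    split_ifs with h
    · rw [Int.cast_natCast, Nat.abs_cast]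
      exact mul_le_of_le_one_left (Nat.cast_nonneg _) hmu
    · simp
  refine (sum_le_sum h1).trans ?_
  rw [← sum_filter]
  refine sum_le_sum_of_subset_of_nonneg ?_ fun _ _ _ => Nat.cast_nonneg _
  intro d hd
  rw [mem_filter] at hd
  rw [Nat.mem_divisors]
  exact ⟨hd.2, by omega⟩

private theorem te_summable (r n : ℕ) (hn : 1 ≤ n) : Summable (fun k => ‖te_f r n k‖) := by
  have h1 := (summable_totient (s := 3) (by norm_num)).mul_left (∑ d ∈ n.divisors, (d : ℝ))
  refine Summable.of_nonneg_of_le (fun _ => norm_nonneg _) (fun k => ?_) h1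
  have h2 : (0 : ℝ) ≤ ∑ d ∈ n.divisors, (d : ℝ) := sum_nonneg fun _ _ => Nat.cast_nonneg _
  unfold te_f
  split_ifs with h
  · rw [Real.norm_eq_abs, abs_div, abs_of_nonneg (sq_nonneg (Nat.totient k : ℝ))]
    have h3 : (Nat.totient k : ℝ) ^ ((1 : ℝ) - 3) = ((Nat.totient k : ℝ) ^ 2)⁻¹ := by
      rw [show (1 : ℝ) - 3 = -((2 : ℕ) : ℝ) by norm_num, Real.rpow_neg (Nat.cast_nonneg _),
        Real.rpow_natCast]
    rw [h3, div_eq_mul_inv]
    exact mul_le_mul_of_nonneg_right (te_c_bd n k hn) (by positivity)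
  · rw [norm_zero]
    exact mul_nonneg h2 (Real.rpow_nonneg (Nat.cast_nonneg _) _)

private theorem te_pow (r n : ℕ) (p : ℕ) (hp : p.Prime) :
    ∑' e, te_f r n (p ^ e) = 1 + te_f r n p := by
  rw [tsum_eq_sum (s := range 2)]
  · rw [sum_range_succ, sum_range_one, pow_zero, pow_one, te_f_one]
  · intro e he
    rw [mem_range, not_lt] at he
    unfold te_f
    rw [if_neg]
    intro h
    have h1 := h.1
    rw [Nat.squarefree_pow_iff hp.ne_one (by omega)] at h1
    omega

private theorem te_hasProd (r n : ℕ) (hn : 1 ≤ n) :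
    HasProd (fun p : Nat.Primes => 1 + te_f r n p) (∑' k, te_f r n k) := by
  have h1 := EulerProduct.eulerProduct_hasProd (te_f_one r n) (te_f_mul r n)
    (te_summable r n hn) (te_f_zero r n)
  have h2 : (fun p : Nat.Primes => ∑' e, te_f r n ((p : ℕ) ^ e)) =
      fun p : Nat.Primes => 1 + te_f r n p := by
    funext p
    exact te_pow r n p p.2
  rw [h2] at h1
  exact h1

open Classical in
private noncomputable def te_b (r n p : ℕ) : ℝ :=
  if 2 < p ∧ p ∣ n ∧ ¬ p ∣ r then ((p : ℝ) - 1) / ((p : ℝ) - 2) else 1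

private theorem te_b_hasProd (r n : ℕ) (hn : 1 ≤ n) :
    HasProd (fun p : Nat.Primes => te_b r n p)
      (∏ p ∈ n.primeFactors.filter (fun p => 2 < p ∧ ¬ p ∣ r), ((p : ℝ) - 1) / ((p : ℝ) - 2)) := by
  classical
  set S : Finset Nat.Primes := (n.primeFactors.filter (fun p => 2 < p ∧ ¬ p ∣ r)).subtype
    (fun p => p.Prime) with hS
  have h1 : ∏ p ∈ n.primeFactors.filter (fun p => 2 < p ∧ ¬ p ∣ r),
      ((p : ℝ) - 1) / ((p : ℝ) - 2) = ∏ p ∈ S, te_b r n p := by
    rw [hS]
    have h2 := Finset.prod_subtype_of_mem (s := n.primeFactors.filter (fun p => 2 < p ∧ ¬ p ∣ r))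
      (p := fun p : ℕ => p.Prime) (fun p => te_b r n p) (fun p hp =>
        Nat.prime_of_mem_primeFactors (mem_filter.1 hp).1)
    refine Eq.trans ?_ h2.symm
    refine prod_congr rfl fun p hp => ?_
    rw [mem_filter] at hp
    unfold te_b
    rw [if_pos ⟨hp.2.1, Nat.dvd_of_mem_primeFactors hp.1, hp.2.2⟩]
  rw [h1]
  refine hasProd_prod_of_ne_finset_one fun p hp => ?_
  unfold te_b
  rw [if_neg]
  intro h
  apply hp
  refine Finset.mem_subtype.2 ?_
  rw [mem_filter, Nat.mem_primeFactors]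
  exact ⟨⟨p.2, h.2.1, by omega⟩, h.1, h.2.2⟩

private theorem te_key (r m n : ℕ) (hm2 : Even m) (hn2 : Even n) (p : ℕ) (hp : p.Prime) :
    (1 + te_f r m p) * te_b r n p = (1 + te_f r n p) * te_b r m p := by
  classical
  by_cases hpr : p ∣ r
  · have h1 : ∀ n, te_f r n p = 0 := by
      intro n
      unfold te_f
      rw [if_neg]
      intro h
      exact (hp.coprime_iff_not_dvd.1 h.2) hpr
    have h2 : ∀ n, te_b r n p = 1 := by
      intro n
      unfold te_b
      rw [if_neg]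
      intro h
      exact h.2.2 hpr
    rw [h1, h1, h2, h2]
  · have hf : ∀ n, te_f r n p = ((if p ∣ n then (p : ℤ) - 1 else -1 : ℤ) : ℝ) /
        ((p : ℝ) - 1) ^ 2 := by
      intro n
      unfold te_f
      rw [if_pos ⟨hp.prime.squarefree, hp.coprime_iff_not_dvd.2 hpr⟩, te_c_prime n p hp,
        Nat.totient_prime hp, Nat.cast_sub hp.one_lt.le, Nat.cast_one]
    rcases hp.eq_two_or_odd with h2 | hodd
    · subst h2
      have e1 : te_f r m 2 = te_f r n 2 := by
        rw [hf, hf, if_pos hm2.two_dvd, if_pos hn2.two_dvd]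
      have e2 : ∀ n, te_b r n 2 = 1 := by
        intro n
        unfold te_b
        rw [if_neg (by omega)]
      rw [e1, e2, e2]
    · have hp3 : 2 < p := by
        have := hp.two_le
        omega
      have hb : ∀ n, te_b r n p = if p ∣ n then ((p : ℝ) - 1) / ((p : ℝ) - 2) else 1 := by
        intro n
        unfold te_b
        by_cases h : p ∣ n
        · rw [if_pos ⟨hp3, h, hpr⟩, if_pos h]
        · rw [if_neg (fun h' => h h'.2.1), if_neg h]
      have hpr2 : (2 : ℝ) < p := by exact_mod_cast hp3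
      have h1 : (p : ℝ) - 1 ≠ 0 := by linarith
      have h2 : (p : ℝ) - 2 ≠ 0 := by linarith
      rw [hf, hf, hb, hb]
      by_cases h3 : p ∣ m <;> by_cases h4 : p ∣ n
      · rw [if_pos h3, if_pos h4, if_pos h3, if_pos h4]
      · rw [if_pos h3, if_neg h4, if_pos h3, if_neg h4]
        push_cast
        field_simp
        ring
      · rw [if_neg h3, if_pos h4, if_neg h3, if_pos h4]
        push_cast
        field_simp
        ring
      · rw [if_neg h3, if_neg h4, if_neg h3, if_neg h4]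

theorem ratF : RatF := by
  classical
  intro r m n hr hm hn hm2 hn2 hmn
  have h1 : ∀ n : ℕ, ∑' k : ℕ, et r n k = ((∑' k : ℕ, te_f r n k : ℝ) : ℂ) := by
    intro n
    rw [Complex.ofReal_tsum]
    exact tsum_congr fun k => te_et r n k
  rw [h1, h1]
  -- the Euler products
  have h2 := (te_hasProd r m hm).mul (te_b_hasProd r n hn)
  have h3 := (te_hasProd r n hn).mul (te_b_hasProd r m hm)
  have h4 : (fun p : Nat.Primes => (1 + te_f r m p) * te_b r n p) =
      fun p : Nat.Primes => (1 + te_f r n p) * te_b r m p := by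
    funext p
    exact te_key r m n hm2 hn2 p p.2
  rw [h4] at h2
  have h5 := h2.unique h3
  -- the singular series
  have h6 : ∀ n : ℕ, SS n = 2 * C2 *
      ((∏ p ∈ n.primeFactors.filter (fun p => 2 < p ∧ p ∣ r), ((p : ℝ) - 1) / ((p : ℝ) - 2)) *
      ∏ p ∈ n.primeFactors.filter (fun p => 2 < p ∧ ¬ p ∣ r), ((p : ℝ) - 1) / ((p : ℝ) - 2)) := by
    intro n
    unfold SS
    congr 1
    rw [← Finset.prod_filter_mul_prod_filter_not (n.primeFactors.filter (fun p => 2 < p))
      (fun p => p ∣ r), filter_filter, filter_filter]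
  have h7 : m.primeFactors.filter (fun p => 2 < p ∧ p ∣ r) =
      n.primeFactors.filter (fun p => 2 < p ∧ p ∣ r) := by
    ext p
    simp only [mem_filter, Nat.mem_primeFactors]
    constructor
    · rintro ⟨⟨hp, hpm, _⟩, h2p, hpr⟩
      exact ⟨⟨hp, ((hmn.of_dvd hpr).dvd_iff dvd_rfl).1 hpm, by omega⟩, h2p, hpr⟩
    · rintro ⟨⟨hp, hpn, _⟩, h2p, hpr⟩
      exact ⟨⟨hp, ((hmn.of_dvd hpr).dvd_iff dvd_rfl).2 hpn, by omega⟩, h2p, hpr⟩
  rw [h6 m, h6 n, h7, ← Complex.ofReal_mul, ← Complex.ofReal_mul]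
  congr 1
  linear_combination (2 * C2 *
    (∏ p ∈ n.primeFactors.filter (fun p => 2 < p ∧ p ∣ r), ((p : ℝ) - 1) / ((p : ℝ) - 2))) * h5

end Pool.MP_dd84fd_nt.TC
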