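import Pool.Agent.Lib.MP_dd84fd_nt.TC.TrDefs

/-!
# TC-TrF (1.2 h): the coefficients modulo the multiples of `[r₁, r₂]`

Proof.  `r = [ψ₁.1, ψ₂.1]`, `q = r k`.  `(k, r) = 1`, `k` squarefree: `a = k b + r c` (`b mod r`, `c mod k`,
`(b,r) = (c,k) = 1`) is a bijection onto the reduced residues modulo `q`, `ψ(a) = ψ(k) ψ(b)`, `e(a/q) =
e(b/r) e(c/k)`: `tauF q ψ = conj-value ψ(k)⁻¹ tauF r ψ μ(k)` (`Σ_c e(c/k) = rs k (k-1) = μ(k)`; only the
square of `μ(k)` matters), the sum over `a` is `ψ₁(k) ψ₂(k) (sum mod r) rs k n`, `φ(q) = φ(r) φ(k)`.  `k = 0`: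
both sides `0`.  Otherwise (`k` not squarefree or not coprime to `r`) `coF n ψ₁ ψ₂ q = 0`: `BG.co_ne`
(BG/Pair.lean: `co ≠ 0` implies `q = [r₁,r₂] s`, `s` squarefree and coprime) with the identities of BX/Gau.lean
and `EF.Fin` (`norm_coF`: `‖coF‖ = cf q n (ind q ψ₁) (ind q ψ₂)`, copy it, it is private; `cf_co` in BX/Gau is
private too).  The second part: `e(-m a/r) = e(-n a/r)` for `m ≡ n (r)`.  Tools: `LX/PwGS.lean` (products of
Gauss sums), `Finset.sum_nbij'`, `ZMod.chineseRemainder`.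
-/

set_option autoImplicit false

namespace Pool.MP_dd84fd_nt.TC

open Finset Pool.MP_67663b_nt.Odd Pool.MP_dd84fd_nt.En Pool.MP_dd84fd_nt.E2 Pool.MP_dd84fd_nt.LS
open Pool.MP_dd84fd_nt.GX Pool.MP_dd84fd_nt.HX Pool.MP_dd84fd_nt.IX
open Pool.MP_dd84fd_nt.BX (PC pv IsPC PR SX sN prc ind GauBD h0 cP)

/-! ### Chinese remainder theorem -/

private theorem tf_card (n : ℕ) :
    ((range n).filter (fun a => Nat.Coprime a n)).card = Nat.totient n := by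
  rw [Nat.totient_eq_card_coprime]
  congr 1
  exact filter_congr fun a _ => Nat.coprime_comm

private theorem tf_crt {r k : ℕ} (hr : 0 < r) (hk : 0 < k) (h : Nat.Coprime k r) (f : ℕ → ℂ)
    (hf : ∀ a, f (a % (r * k)) = f a) :
    ∑ a ∈ (range (r * k)).filter (fun a => Nat.Coprime a (r * k)), f a =
      ∑ b ∈ (range r).filter (fun a => Nat.Coprime a r),
        ∑ c ∈ (range k).filter (fun a => Nat.Coprime a k), f (k * b + r * c) := by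
  classical
  obtain ⟨A, hA⟩ : ∃ A, A = (range r).filter (fun a => Nat.Coprime a r) := ⟨_, rfl⟩
  obtain ⟨B, hB⟩ : ∃ B, B = (range k).filter (fun a => Nat.Coprime a k) := ⟨_, rfl⟩
  rw [← hA, ← hB, ← Finset.sum_product']
  let g : ℕ × ℕ → ℕ := fun x => (k * x.1 + r * x.2) % (r * k)
  have hinj : Set.InjOn g ((A ×ˢ B : Finset (ℕ × ℕ)) : Set (ℕ × ℕ)) := by
    rintro ⟨b, c⟩ hx ⟨b', c'⟩ hy hxy
    rw [Finset.mem_coe, mem_product, hA, hB, mem_filter, mem_filter, mem_range, mem_range] at hx hy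
    have h0 : k * b + r * c ≡ k * b' + r * c' [MOD (r * k)] := hxy
    have e1 : ∀ b c : ℕ, k * b + r * c ≡ k * b [MOD r] := fun b c =>
      Nat.add_mul_mod_self_left _ _ _
    have e2 : ∀ b c : ℕ, k * b + r * c ≡ r * c [MOD k] := fun b c => by
      show (k * b + r * c) % k = (r * c) % k
      rw [Nat.add_comm]
      exact Nat.add_mul_mod_self_left _ _ _
    have h1 : k * b ≡ k * b' [MOD r] :=
      (e1 b c).symm.trans ((h0.of_dvd (Dvd.intro k rfl)).trans (e1 b' c'))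
    have h2 : r * c ≡ r * c' [MOD k] :=
      (e2 b c).symm.trans ((h0.of_dvd (Dvd.intro_left r rfl)).trans (e2 b' c'))
    have h3 : b ≡ b' [MOD r] := Nat.ModEq.cancel_left_of_coprime h.symm h1
    have h4 : c ≡ c' [MOD k] := Nat.ModEq.cancel_left_of_coprime h h2
    have h5 := Nat.ModEq.eq_of_lt_of_lt h3 hx.1.1 hy.1.1
    have h6 := Nat.ModEq.eq_of_lt_of_lt h4 hx.2.1 hy.2.1
    exact Prod.ext h5 h6
  have hmaps : (A ×ˢ B).image g ⊆ (range (r * k)).filter (fun a => Nat.Coprime a (r * k)) := by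
    intro a ha
    obtain ⟨⟨b, c⟩, hx, rfl⟩ := mem_image.1 ha
    rw [mem_product, hA, hB, mem_filter, mem_filter, mem_range, mem_range] at hx
    rw [mem_filter, mem_range]
    refine ⟨Nat.mod_lt _ (Nat.mul_pos hr hk), ?_⟩
    have h1 : Nat.gcd ((k * b + r * c) % (r * k)) (r * k) = Nat.gcd (k * b + r * c) (r * k) :=
      (Nat.mod_modEq _ _).gcd_eq
    have h2 : Nat.Coprime (k * b + r * c) (r * k) := by
      rw [Nat.coprime_mul_iff_right]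
      constructor
      · rw [Nat.coprime_add_mul_left_left]
        exact Nat.Coprime.mul_left h hx.1.2
      · rw [Nat.add_comm, Nat.coprime_add_mul_left_left]
        exact Nat.Coprime.mul_left h.symm hx.2.2
    show Nat.gcd ((k * b + r * c) % (r * k)) (r * k) = 1
    rw [h1]
    exact h2
  have himg : (A ×ˢ B).image g = (range (r * k)).filter (fun a => Nat.Coprime a (r * k)) := by
    refine Finset.eq_of_subset_of_card_le hmaps ?_
    rw [Finset.card_image_of_injOn hinj, card_product, hA, hB, tf_card, tf_card, tf_card,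
      Nat.totient_mul h.symm]
  rw [← himg, Finset.sum_image hinj]
  exact Finset.sum_congr rfl fun x _ => hf _

private theorem tf_per (N : ℤ) (a q : ℕ) (hq : 0 < q) :
    ee (N * (((a % q : ℕ) : ℝ) / q)) = ee (N * ((a : ℝ) / q)) := by
  have hq' : (q : ℝ) ≠ 0 := by exact_mod_cast hq.ne'
  obtain ⟨d, hd⟩ : ∃ d, d = a / q := ⟨_, rfl⟩
  have h1 : (a : ℝ) = q * (d : ℝ) + ((a % q : ℕ) : ℝ) := by
    rw [hd]
    exact_mod_cast (Nat.div_add_mod a q).symm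
  have h2 : (N : ℝ) * ((a : ℝ) / q) =
      N * (((a % q : ℕ) : ℝ) / q) + ((N * (d : ℤ) : ℤ) : ℝ) := by
    rw [h1]
    push_cast
    field_simp
    ring
  rw [h2, ee_add_int]

private theorem tf_fac {r k : ℕ} (hr : 0 < r) (hk : 0 < k) (h : Nat.Coprime k r) (F : ℕ → ℂ)
    (κ : ℂ) (hF1 : ∀ a c, F (a + r * c) = F a) (hF2 : ∀ b, F (k * b) = κ * F b) (N : ℤ) :
    ∑ a ∈ (range (r * k)).filter (fun a => Nat.Coprime a (r * k)),
        F a * ee (N * ((a : ℝ) / ((r * k : ℕ) : ℝ))) =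
      κ * (∑ b ∈ (range r).filter (fun a => Nat.Coprime a r), F b * ee (N * ((b : ℝ) / r))) *
        ∑ c ∈ (range k).filter (fun a => Nat.Coprime a k), ee (N * ((c : ℝ) / k)) := by
  have hr' : (r : ℝ) ≠ 0 := by exact_mod_cast hr.ne'
  have hk' : (k : ℝ) ≠ 0 := by exact_mod_cast hk.ne'
  rw [tf_crt hr hk h (fun a => F a * ee (N * ((a : ℝ) / ((r * k : ℕ) : ℝ))))]
  · rw [mul_assoc, Finset.sum_mul_sum, Finset.mul_sum]
    refine Finset.sum_congr rfl fun b _ => ?_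
    rw [Finset.mul_sum]
    refine Finset.sum_congr rfl fun c _ => ?_
    have e1 : (N : ℝ) * (((k * b + r * c : ℕ) : ℝ) / ((r * k : ℕ) : ℝ)) =
        N * ((b : ℝ) / r) + N * ((c : ℝ) / k) := by
      push_cast
      field_simp
    rw [hF1, hF2, e1, ee_add]
    ring
  · intro a
    have e1 : F (a % (r * k)) = F a := by
      conv_rhs => rw [← Nat.mod_add_div a (r * k), mul_assoc, hF1]
    rw [e1, tf_per N a (r * k) (Nat.mul_pos hr hk)]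

/-! ### The sum `μ(k)` -/

private noncomputable def tfM (k : ℕ) : ℂ :=
  ∑ c ∈ (range k).filter (fun a => Nat.Coprime a k), ee (((1 : ℤ) : ℝ) * ((c : ℝ) / k))

private theorem tfM_mul {a b : ℕ} (ha : 0 < a) (hb : 0 < b) (h : Nat.Coprime a b) :
    tfM (a * b) = tfM a * tfM b := by
  have h1 := tf_fac ha hb h.symm (fun _ => 1) 1 (fun _ _ => rfl) (fun _ => (one_mul _).symm) 1
  simp only [one_mul] at h1
  unfold tfM
  simp only [Int.cast_one, one_mul] at h1 ⊢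
  exact h1

private theorem tfM_one : tfM 1 = 1 := by
  unfold tfM
  have h1 : (range 1).filter (fun a => Nat.Coprime a 1) = {0} := by
    ext a
    simp
  rw [h1, sum_singleton]
  have h2 : ((1 : ℤ) : ℝ) * (((0 : ℕ) : ℝ) / ((1 : ℕ) : ℝ)) = 0 := by simp
  rw [h2, ee_zero]

private theorem tfM_prime {p : ℕ} (hp : p.Prime) : tfM p = -1 := by
  have hp0 : (p : ℂ) ≠ 0 := by exact_mod_cast hp.ne_zero
  have h1 : ∑ s ∈ range p, ee (((1 : ℤ) : ℝ) * ((s : ℝ) / p)) = 0 := by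
    have h2 := (Complex.isPrimitiveRoot_exp p hp.ne_zero).geom_sum_eq_zero hp.one_lt
    rw [← h2]
    refine sum_congr rfl fun s _ => ?_
    unfold ee
    rw [← Complex.exp_nat_mul]
    congr 1
    push_cast
    field_simp
  have h2 : (range p).filter (fun a => Nat.Coprime a p) = (range p).erase 0 := by
    ext a
    rw [mem_filter, mem_erase, mem_range]
    constructor
    · rintro ⟨h3, h4⟩
      refine ⟨?_, h3⟩
      rintro rfl
      rw [Nat.coprime_zero_left] at h4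
      exact hp.one_lt.ne' h4
    · rintro ⟨h3, h4⟩
      exact ⟨h4, Nat.Coprime.symm ((Nat.Prime.coprime_iff_not_dvd hp).2 fun h5 =>
        absurd (Nat.le_of_dvd (Nat.pos_of_ne_zero h3) h5) (not_le.2 h4))⟩
  unfold tfM
  rw [h2]
  have h3 := Finset.add_sum_erase (range p) (fun s : ℕ => ee (((1 : ℤ) : ℝ) * ((s : ℝ) / p)))
    (mem_range.2 hp.pos)
  rw [h1] at h3
  have h4 : ee (((1 : ℤ) : ℝ) * (((0 : ℕ) : ℝ) / p)) = 1 := by
    have h5 : ((1 : ℤ) : ℝ) * (((0 : ℕ) : ℝ) / p) = 0 := by simp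
    rw [h5, ee_zero]
  rw [h4] at h3
  linear_combination h3

private theorem tfM_sq (k : ℕ) (hk : Squarefree k) : tfM k ^ 2 = 1 := by
  induction k using Nat.recOnPosPrimePosCoprime with
  | prime_pow p n hp hn =>
    have h1 := (Nat.squarefree_pow_iff hp.ne_one hn.ne').1 hk
    rw [h1.2, pow_one, tfM_prime hp]
    norm_num
  | zero => exact absurd hk not_squarefree_zero
  | one => rw [tfM_one, one_pow]
  | coprime a b ha hb hab iha ihb =>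
    have ha0 : 0 < a := by omega
    have hb0 : 0 < b := by omega
    rw [tfM_mul ha0 hb0 hab, mul_pow, iha (hk.squarefree_of_dvd (dvd_mul_right a b)),
      ihb (hk.squarefree_of_dvd (dvd_mul_left b a)), one_mul]

/-! ### Characters -/

private theorem tf_chi (ψ : PC) (r a c : ℕ) (h : ψ.1 ∣ r) :
    ψ.2 ((a + r * c : ℕ) : ZMod ψ.1) = ψ.2 (a : ZMod ψ.1) := by
  have h1 : ((r : ℕ) : ZMod ψ.1) = 0 := (ZMod.natCast_eq_zero_iff r ψ.1).2 h
  push_cast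
  rw [h1, zero_mul, add_zero]

private theorem tf_tau (ψ : PC) {r k : ℕ} (hr : 0 < r) (hk : 0 < k) (h : Nat.Coprime k r)
    (hd : ψ.1 ∣ r) : EF.tauF (r * k) ψ = (ψ.2 (k : ZMod ψ.1))⁻¹ * EF.tauF r ψ * tfM k := by
  have h1 := tf_fac hr hk h (fun a => (ψ.2 (a : ZMod ψ.1))⁻¹) (ψ.2 (k : ZMod ψ.1))⁻¹
    (fun a c => by rw [tf_chi ψ r a c hd])
    (fun b => by
      push_cast
      rw [map_mul, mul_inv]) 1
  unfold EF.tauF tfM
  simp only [Int.cast_one, one_mul] at h1 ⊢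
  exact h1

private theorem tf_ram (ψ₁ ψ₂ : PC) {r k : ℕ} (hr : 0 < r) (hk : 0 < k) (h : Nat.Coprime k r)
    (hd1 : ψ₁.1 ∣ r) (hd2 : ψ₂.1 ∣ r) (n : ℕ) :
    ∑ a ∈ (range (r * k)).filter (fun a => Nat.Coprime a (r * k)),
      ψ₁.2 (a : ZMod ψ₁.1) * ψ₂.2 (a : ZMod ψ₂.1) *
        ee (-((n : ℝ) * ((a : ℝ) / ((r * k : ℕ) : ℝ)))) =
    ψ₁.2 (k : ZMod ψ₁.1) * ψ₂.2 (k : ZMod ψ₂.1) *
      (∑ a ∈ (range r).filter (fun a => Nat.Coprime a r),
        ψ₁.2 (a : ZMod ψ₁.1) * ψ₂.2 (a : ZMod ψ₂.1) * ee (-((n : ℝ) * ((a : ℝ) / r)))) *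
      rs k n := by
  have h1 := tf_fac hr hk h (fun a => ψ₁.2 (a : ZMod ψ₁.1) * ψ₂.2 (a : ZMod ψ₂.1))
    (ψ₁.2 (k : ZMod ψ₁.1) * ψ₂.2 (k : ZMod ψ₂.1))
    (fun a c => by rw [tf_chi ψ₁ r a c hd1, tf_chi ψ₂ r a c hd2])
    (fun b => by
      push_cast
      rw [map_mul, map_mul]
      ring) (-(n : ℤ))
  unfold rs
  push_cast at h1 ⊢
  simp only [neg_mul] at h1
  exact h1

/-! ### Vanishing -/

/-- the inverse character -/
private noncomputable def iv (ψ : PC) : PC := ⟨ψ.1, ψ.2⁻¹⟩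

private theorem iv_pc (ψ : PC) (h : IsPC ψ) : BG.Pri (iv ψ) := by
  refine ⟨h.1, ?_⟩
  show (ψ.2⁻¹).IsPrimitive
  rw [DirichletCharacter.isPrimitive_def, DirichletCharacter.conductor_inv]
  exact h.2

private theorem ind_up (q : ℕ) (ψ : PC) : BX.ind q ψ = BG.up ψ q := by
  unfold BX.ind BG.up
  by_cases h : ψ.1 ∣ q
  · simp only [dif_pos h]
  · simp only [dif_neg h]

private theorem up_iv (q : ℕ) (ψ : PC) : BG.up (iv ψ) q = (BG.up ψ q)⁻¹ := by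
  unfold BG.up
  by_cases h : ψ.1 ∣ q
  · have h' : (iv ψ).1 ∣ q := h
    rw [dif_pos h, dif_pos h']
    exact map_inv (DirichletCharacter.changeLevel h) ψ.2
  · have h' : ¬ (iv ψ).1 ∣ q := h
    rw [dif_neg h, dif_neg h', inv_one]

private theorem ram_rm (q n : ℕ) (hq : 1 ≤ q) (χ : DirichletCharacter ℂ q) :
    BG.Ram q n χ⁻¹ = BX.Rm q n χ := by
  have : NeZero q := ⟨by omega⟩
  unfold BG.Ram BX.Rm PL.rr
  rw [Finset.sum_filter]
  refine Finset.sum_congr rfl fun y _ => ?_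
  by_cases hy : Nat.Coprime y q
  · rw [if_pos hy]
    have hu : IsUnit ((y : ℕ) : ZMod q) := (ZMod.isUnit_iff_coprime y q).2 hy
    have e1 := L2G.co_char_conj q (χ⁻¹) (y : ZMod q) hu
    have e2 := L2G.co_inv_apply q (χ⁻¹) (y : ZMod q) hu
    rw [inv_inv] at e2
    rw [e1, ← e2]
  · rw [if_neg hy]
    have hu : ¬ IsUnit ((y : ℕ) : ZMod q) := fun h => hy ((ZMod.isUnit_iff_coprime y q).1 h)
    rw [MulChar.map_nonunit _ hu, map_zero, zero_mul]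

private theorem cf_co (q n : ℕ) (hq : 1 ≤ q) (ψ₁ ψ₂ : PC) :
    BX.cf q n (BX.ind q ψ₁) (BX.ind q ψ₂) = BG.co q n (BG.up (iv ψ₁) q) (BG.up (iv ψ₂) q) := by
  have hq0 : q ≠ 0 := by omega
  have : NeZero q := ⟨hq0⟩
  unfold BX.cf BG.co
  rw [dif_neg hq0, ind_up, ind_up, up_iv, up_iv, BG.tqq_eq, BG.tqq_eq, ← mul_inv, ram_rm q n hq]

private theorem norm_coF (n : ℕ) (ψ₁ ψ₂ : PC) (q : ℕ) (hq : 1 ≤ q) (h : ψ₁.1 ∣ q ∧ ψ₂.1 ∣ q) :
    ‖EF.coF n ψ₁ ψ₂ q‖ = BX.cf q n (BX.ind q ψ₁) (BX.ind q ψ₂) := by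
  rw [← EF.cc_coF, if_pos h]
  unfold EF.cc BX.cf
  have hq0 : q ≠ 0 := by omega
  rw [dif_neg hq0, dif_neg hq0]
  rw [norm_div, norm_mul, norm_mul, norm_pow]
  simp

private theorem tf_van (ψ₁ ψ₂ : PC) (h1 : IsPC ψ₁) (h2 : IsPC ψ₂) (n k : ℕ) (hk : 0 < k)
    (hr : 0 < Nat.lcm ψ₁.1 ψ₂.1) (hk2 : ¬ (Squarefree k ∧ Nat.Coprime k (Nat.lcm ψ₁.1 ψ₂.1))) :
    EF.coF n ψ₁ ψ₂ (Nat.lcm ψ₁.1 ψ₂.1 * k) = 0 := by
  have hq : 1 ≤ Nat.lcm ψ₁.1 ψ₂.1 * k := Nat.mul_pos hr hk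
  by_contra hne
  have h3 := norm_coF n ψ₁ ψ₂ (Nat.lcm ψ₁.1 ψ₂.1 * k) hq
    ⟨(Nat.dvd_lcm_left _ _).trans (Dvd.intro k rfl), (Nat.dvd_lcm_right _ _).trans (Dvd.intro k rfl)⟩
  rw [cf_co _ n hq] at h3
  have h4 : BG.co (Nat.lcm ψ₁.1 ψ₂.1 * k) n (BG.up (iv ψ₁) (Nat.lcm ψ₁.1 ψ₂.1 * k))
      (BG.up (iv ψ₂) (Nat.lcm ψ₁.1 ψ₂.1 * k)) ≠ 0 := by
    rw [← h3]
    exact norm_ne_zero_iff.2 hne
  have h5 := BG.co_ne n (Nat.lcm ψ₁.1 ψ₂.1 * k) hq (iv ψ₁) (iv ψ₂) (iv_pc ψ₁ h1) (iv_pc ψ₂ h2)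
    (Dvd.intro k rfl) h4
  have h6 : Nat.lcm ψ₁.1 ψ₂.1 * k / Nat.lcm (iv ψ₁).1 (iv ψ₂).1 = k :=
    Nat.mul_div_cancel_left k hr
  rw [h6] at h5
  exact hk2 ⟨h5.1, h5.2.1⟩

theorem facF : FacF := by
  intro ψ₁ ψ₂ h1 h2
  have hr : 0 < Nat.lcm ψ₁.1 ψ₂.1 := Nat.lcm_pos h1.1 h2.1
  have hd1 : ψ₁.1 ∣ Nat.lcm ψ₁.1 ψ₂.1 := Nat.dvd_lcm_left _ _
  have hd2 : ψ₂.1 ∣ Nat.lcm ψ₁.1 ψ₂.1 := Nat.dvd_lcm_right _ _
  refine ⟨fun n k => ?_, fun m n hmn => ?_⟩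
  · by_cases hk0 : k = 0
    · subst hk0
      have e1 : et (Nat.lcm ψ₁.1 ψ₂.1) n 0 = 0 := by
        unfold et
        exact if_neg fun h => not_squarefree_zero h.1
      rw [e1, mul_zero, mul_zero]
      unfold EF.coF EF.tauF
      simp
    have hk : 0 < k := Nat.pos_of_ne_zero hk0
    by_cases hsq : Squarefree k ∧ Nat.Coprime k (Nat.lcm ψ₁.1 ψ₂.1)
    · have e1 : et (Nat.lcm ψ₁.1 ψ₂.1) n k = rs k n / (Nat.totient k : ℂ) ^ 2 := by
        unfold et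
        exact if_pos hsq
      rw [e1]
      have hM := tfM_sq k hsq.1
      obtain ⟨r, hrdef⟩ : ∃ r, r = Nat.lcm ψ₁.1 ψ₂.1 := ⟨_, rfl⟩
      rw [← hrdef] at hr hd1 hd2 hsq ⊢
      have hv1 : ψ₁.2 (k : ZMod ψ₁.1) ≠ 0 := by
        have hu : IsUnit ((k : ℕ) : ZMod ψ₁.1) :=
          (ZMod.isUnit_iff_coprime k ψ₁.1).2 (Nat.Coprime.coprime_dvd_right hd1 hsq.2)
        exact (hu.map ψ₁.2).ne_zero
      have hv2 : ψ₂.2 (k : ZMod ψ₂.1) ≠ 0 := by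
        have hu : IsUnit ((k : ℕ) : ZMod ψ₂.1) :=
          (ZMod.isUnit_iff_coprime k ψ₂.1).2 (Nat.Coprime.coprime_dvd_right hd2 hsq.2)
        exact (hu.map ψ₂.2).ne_zero
      have hφr : (Nat.totient r : ℂ) ≠ 0 := by
        exact_mod_cast (Nat.totient_pos.2 hr).ne'
      have hφk : (Nat.totient k : ℂ) ≠ 0 := by
        exact_mod_cast (Nat.totient_pos.2 hk).ne'
      unfold EF.coF
      rw [if_pos ⟨hd1.trans (Dvd.intro k rfl), hd2.trans (Dvd.intro k rfl)⟩,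
        if_pos ⟨hd1, hd2⟩, tf_tau ψ₁ hr hk hsq.2 hd1, tf_tau ψ₂ hr hk hsq.2 hd2,
        tf_ram ψ₁ ψ₂ hr hk hsq.2 hd1 hd2 n, Nat.totient_mul hsq.2.symm]
      push_cast
      obtain ⟨R, hR⟩ : ∃ R, R = ∑ a ∈ (range r).filter (fun a => Nat.Coprime a r),
        ψ₁.2 (a : ZMod ψ₁.1) * ψ₂.2 (a : ZMod ψ₂.1) * ee (-((n : ℝ) * ((a : ℝ) / r))) := ⟨_, rfl⟩
      rw [← hR]
      have e2 : (ψ₁.2 (k : ZMod ψ₁.1))⁻¹ * EF.tauF r ψ₁ * tfM k *
          ((ψ₂.2 (k : ZMod ψ₂.1))⁻¹ * EF.tauF r ψ₂ * tfM k) *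
          (ψ₁.2 (k : ZMod ψ₁.1) * ψ₂.2 (k : ZMod ψ₂.1) * R * rs k n) =
          EF.tauF r ψ₁ * EF.tauF r ψ₂ * R * rs k n * tfM k ^ 2 := by
        field_simp
      rw [e2, hM, mul_one]
      field_simp
    · have e1 : et (Nat.lcm ψ₁.1 ψ₂.1) n k = 0 := by
        unfold et
        exact if_neg hsq
      rw [e1, mul_zero]
      exact tf_van ψ₁ ψ₂ h1 h2 n k hk hr hsq
  · unfold EF.coF
    rw [if_pos ⟨hd1, hd2⟩, if_pos ⟨hd1, hd2⟩]
    congr 2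
    refine Finset.sum_congr rfl fun a _ => ?_
    congr 1
    obtain ⟨t, ht⟩ := (Nat.modEq_iff_dvd.1 hmn)
    obtain ⟨r, hrdef⟩ : ∃ r, r = Nat.lcm ψ₁.1 ψ₂.1 := ⟨_, rfl⟩
    rw [← hrdef] at hr ht ⊢
    have hr' : (r : ℝ) ≠ 0 := by exact_mod_cast hr.ne'
    have ht' : (n : ℝ) - m = r * t := by exact_mod_cast ht
    have e1 : -((m : ℝ) * ((a : ℝ) / r)) =
        -((n : ℝ) * ((a : ℝ) / r)) + ((t * (a : ℤ) : ℤ) : ℝ) := by
      have e2 : (n : ℝ) = m + r * t := by linarith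
      rw [e2]
      push_cast
      field_simp
      ring
    rw [e1, ee_add_int]

end Pool.MP_dd84fd_nt.TC
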