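import Pool.Agent.Lib.MP_dd84fd_nt.TC.TrD0

/-!
# TC-TrJ (0.6 h): continuity and size of `JJ`

Proof.  `jjC`: `m ≥ n` (symmetric).  `JJ m - JJ n = Σ_{n-1 ≤ a ≤ m-2} 1/(log a log(m-a)) - Σ_{2 ≤ a ≤ n-2}
(1/log a)(1/log(n-a) - 1/log(m-a))`.  The first sum has at most `m - n` terms, each `≤ 1/(log 2)² ≤ 3`; the
second is `≥ 0` and `≤ (1/log 2) Σ_{b=2}^{n-2} (1/log b - 1/log(b + (m-n))) ≤ (1/log 2) Σ_{b=2}^{m-n+1}
1/log b ≤ (m-n)/(log 2)²`.  `jjU`: `n ≤ X`; `a ≤ √X` or `n - a ≤ √X`: at most `2 (√X + 1)` terms `≤ 3`; the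
other terms are `≤ 4/(log X)²`, at most `X` of them; `√X ≤ X/(log X)²` for `X` large.
-/

set_option autoImplicit false

namespace Pool.MP_dd84fd_nt.TC

open Finset Pool.MP_dd84fd_nt.En Pool.MP_dd84fd_nt.E2

private theorem trj_log2 : (0.69 : ℝ) < Real.log 2 := by
  have := Real.log_two_gt_d9
  linarith

private theorem trj_log_ge {a : ℕ} (ha : 2 ≤ a) : Real.log 2 ≤ Real.log (a : ℝ) :=
  Real.log_le_log (by norm_num) (by exact_mod_cast ha)

private theorem trj_log_pos {a : ℕ} (ha : 2 ≤ a) : 0 < Real.log (a : ℝ) := by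
  have := trj_log_ge ha
  have := trj_log2
  linarith

private theorem trj_inv_le {a : ℕ} (ha : 2 ≤ a) : 1 / Real.log (a : ℝ) ≤ 1 / Real.log 2 := by
  have := trj_log2
  exact one_div_le_one_div_of_le (by linarith) (trj_log_ge ha)

private theorem trj_three : 1 / Real.log 2 * (1 / Real.log 2) ≤ 3 := by
  have h := trj_log2
  have h1 : 1 / Real.log 2 ≤ 1.5 := by
    rw [div_le_iff₀ (by linarith)]
    linarith
  have h2 : 0 ≤ 1 / Real.log 2 := by
    have : 0 < Real.log 2 := by linarith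
    positivity
  nlinarith

private theorem trj_term {a b : ℕ} (ha : 2 ≤ a) (hb : 2 ≤ b) :
    0 ≤ 1 / (Real.log (a : ℝ) * Real.log (b : ℝ)) ∧
      1 / (Real.log (a : ℝ) * Real.log (b : ℝ)) ≤ 3 := by
  have h1 := trj_log_pos ha
  have h2 := trj_log_pos hb
  refine ⟨by positivity, ?_⟩
  have h0 : 1 / (Real.log (a : ℝ) * Real.log (b : ℝ)) =
      1 / Real.log (b : ℝ) * (1 / Real.log (a : ℝ)) := by
    field_simp
  rw [h0]
  have h3 : 1 / Real.log (b : ℝ) * (1 / Real.log (a : ℝ)) ≤ 1 / Real.log 2 * (1 / Real.log 2) :=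
    mul_le_mul (trj_inv_le hb) (trj_inv_le ha) (by positivity) (by
      have := trj_log2
      have : 0 < Real.log 2 := by linarith
      positivity)
  exact h3.trans trj_three

private theorem trj_step (n : ℕ) : |JJ (n + 1) - JJ n| ≤ 3 := by
  rcases Nat.lt_or_ge n 3 with hn | hn
  · have h1 : JJ (n + 1) = 0 := by
      unfold JJ
      rw [Finset.Icc_eq_empty (by omega)]
      simp
    have h2 : JJ n = 0 := by
      unfold JJ
      rw [Finset.Icc_eq_empty (by omega)]
      simp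
    rw [h1, h2]
    norm_num
  · have e1 : Icc 2 (n - 2) = Ico 2 (n - 1) := by
      ext a
      simp only [Finset.mem_Icc, Finset.mem_Ico]
      omega
    have e2 : Icc 2 (n + 1 - 2) = Ico 2 (n - 1 + 1) := by
      ext a
      simp only [Finset.mem_Icc, Finset.mem_Ico]
      omega
    have h1 : JJ (n + 1) = ∑ a ∈ Ico 2 (n - 1), 1 / (Real.log (a : ℝ) *
        Real.log ((n + 1 - a : ℕ) : ℝ)) +
        1 / (Real.log ((n - 1 : ℕ) : ℝ) * Real.log ((n + 1 - (n - 1) : ℕ) : ℝ)) := by
      unfold JJ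
      rw [e2, Finset.sum_Ico_succ_top (by omega)]
    have h2 : JJ n = ∑ a ∈ Ico 2 (n - 1), 1 / (Real.log (a : ℝ) *
        Real.log ((n - a : ℕ) : ℝ)) := by
      unfold JJ
      rw [e1]
    have h3 : JJ (n + 1) - JJ n =
        1 / (Real.log ((n - 1 : ℕ) : ℝ) * Real.log ((n + 1 - (n - 1) : ℕ) : ℝ)) -
        ∑ a ∈ Ico 2 (n - 1), (1 / (Real.log (a : ℝ) * Real.log ((n - a : ℕ) : ℝ)) -
          1 / (Real.log (a : ℝ) * Real.log ((n + 1 - a : ℕ) : ℝ))) := by
      rw [h1, h2, Finset.sum_sub_distrib]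
      ring
    obtain ⟨h4, h5⟩ := trj_term (a := n - 1) (b := n + 1 - (n - 1)) (by omega) (by omega)
    have hterm : ∀ a ∈ Ico 2 (n - 1),
        0 ≤ 1 / (Real.log (a : ℝ) * Real.log ((n - a : ℕ) : ℝ)) -
          1 / (Real.log (a : ℝ) * Real.log ((n + 1 - a : ℕ) : ℝ)) ∧
        1 / (Real.log (a : ℝ) * Real.log ((n - a : ℕ) : ℝ)) -
          1 / (Real.log (a : ℝ) * Real.log ((n + 1 - a : ℕ) : ℝ)) ≤
        1 / Real.log 2 * (1 / Real.log ((n + 1 - (a + 1) : ℕ) : ℝ) -
          1 / Real.log ((n + 1 - a : ℕ) : ℝ)) := by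
      intro a ha
      rw [Finset.mem_Ico] at ha
      have e3 : n + 1 - (a + 1) = n - a := by omega
      rw [e3]
      have p1 := trj_log_pos (a := a) (by omega)
      have p2 := trj_log_pos (a := n - a) (by omega)
      have p3 := trj_log_pos (a := n + 1 - a) (by omega)
      have p4 : Real.log ((n - a : ℕ) : ℝ) ≤ Real.log ((n + 1 - a : ℕ) : ℝ) := by
        apply Real.log_le_log
        · have : 0 < n - a := by omega
          exact_mod_cast this
        · have : n - a ≤ n + 1 - a := by omega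
          exact_mod_cast this
      have p5 : 0 ≤ 1 / Real.log ((n - a : ℕ) : ℝ) - 1 / Real.log ((n + 1 - a : ℕ) : ℝ) :=
        sub_nonneg.mpr (one_div_le_one_div_of_le p2 p4)
      have p6 : 1 / (Real.log (a : ℝ) * Real.log ((n - a : ℕ) : ℝ)) -
          1 / (Real.log (a : ℝ) * Real.log ((n + 1 - a : ℕ) : ℝ)) =
          1 / Real.log (a : ℝ) * (1 / Real.log ((n - a : ℕ) : ℝ) -
            1 / Real.log ((n + 1 - a : ℕ) : ℝ)) := by
        field_simp
      rw [p6]
      exact ⟨mul_nonneg (by positivity) p5,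
        mul_le_mul_of_nonneg_right (trj_inv_le (by omega)) p5⟩
    have h6 : 0 ≤ ∑ a ∈ Ico 2 (n - 1), (1 / (Real.log (a : ℝ) * Real.log ((n - a : ℕ) : ℝ)) -
          1 / (Real.log (a : ℝ) * Real.log ((n + 1 - a : ℕ) : ℝ))) :=
      Finset.sum_nonneg fun a ha => (hterm a ha).1
    have h7 : ∑ a ∈ Ico 2 (n - 1), (1 / (Real.log (a : ℝ) * Real.log ((n - a : ℕ) : ℝ)) -
          1 / (Real.log (a : ℝ) * Real.log ((n + 1 - a : ℕ) : ℝ))) ≤ 3 := by
      refine (Finset.sum_le_sum fun a ha => (hterm a ha).2).trans ?_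
      rw [← Finset.mul_sum, Finset.sum_Ico_sub (fun a : ℕ => 1 / Real.log ((n + 1 - a : ℕ) : ℝ))
        (by omega : 2 ≤ n - 1)]
      have e4 : n + 1 - (n - 1) = 2 := by omega
      rw [e4]
      have p2 := trj_log_pos (a := n + 1 - 2) (by omega)
      have p3 : 0 ≤ 1 / Real.log ((n + 1 - 2 : ℕ) : ℝ) := by positivity
      have p4 : 0 ≤ 1 / Real.log 2 := by
        have := trj_log2
        have : 0 < Real.log 2 := by linarith
        positivity
      have p5 := trj_three
      have p6 : ((2 : ℕ) : ℝ) = 2 := by norm_num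
      rw [p6]
      nlinarith [mul_nonneg p4 p3]
    rw [h3, abs_le]
    constructor <;> linarith

theorem jjC : JJC := by
  have key : ∀ n k : ℕ, |JJ (n + k) - JJ n| ≤ 3 * (k : ℝ) := by
    intro n k
    induction k with
    | zero => simp
    | succ k ih =>
      have h1 := trj_step (n + k)
      have h2 : JJ (n + (k + 1)) - JJ n = (JJ (n + k + 1) - JJ (n + k)) + (JJ (n + k) - JJ n) := by
        rw [← add_assoc]
        ring
      rw [h2]
      refine (abs_add_le _ _).trans ?_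
      push_cast
      linarith
  intro m n
  rcases le_total n m with h | h
  · obtain ⟨k, rfl⟩ := Nat.exists_eq_add_of_le h
    have h1 := key n k
    have h2 : |((n + k : ℕ) : ℝ) - n| = k := by
      push_cast
      rw [add_sub_cancel_left]
      exact abs_of_nonneg (Nat.cast_nonneg _)
    rw [h2]
    exact h1
  · obtain ⟨k, rfl⟩ := Nat.exists_eq_add_of_le h
    have h1 := key m k
    have h2 : |(m : ℝ) - ((m + k : ℕ) : ℝ)| = k := by
      push_cast
      rw [abs_sub_comm, add_sub_cancel_left]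
      exact abs_of_nonneg (Nat.cast_nonneg _)
    rw [h2, abs_sub_comm]
    exact h1

theorem jjU : JJU := by
  refine ⟨100, by norm_num, 2, fun X hX n hn => ?_⟩
  have hXR : (2 : ℝ) ≤ X := by exact_mod_cast hX
  have hL : 0 < Real.log (X : ℝ) := Real.log_pos (by linarith)
  set r : ℝ := √(X : ℝ) with hr
  have hr0 : 0 < r := Real.sqrt_pos.mpr (by linarith)
  have hrr : r * r = X := Real.mul_self_sqrt (by linarith)
  have hlr : Real.log r = Real.log X / 2 := by
    rw [hr, Real.log_sqrt (by linarith)]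
  -- `√X ≤ 16 X / (log X) ^ 2`
  have hsq : r ≤ 16 * (X / (Real.log X) ^ 2) := by
    set q : ℝ := √r with hq
    have hq0 : 0 < q := Real.sqrt_pos.mpr hr0
    have hqq : q * q = r := Real.mul_self_sqrt hr0.le
    have h1 : Real.log q = Real.log X / 4 := by
      rw [hq, Real.log_sqrt hr0.le, hlr]
      ring
    have h2 : Real.log q ≤ q - 1 := Real.log_le_sub_one_of_pos hq0
    have h3 : Real.log X ≤ 4 * q := by linarith
    have h4 : (Real.log X) ^ 2 ≤ 16 * r := by
      rw [← hqq]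
      nlinarith
    rw [← mul_div_assoc, le_div_iff₀ (by positivity)]
    nlinarith
  have hterm : ∀ a ∈ Icc 2 (n - 2), 1 / (Real.log (a : ℝ) * Real.log ((n - a : ℕ) : ℝ)) ≤
      ((if a ≤ ⌊r⌋₊ then (3 : ℝ) else 0) + (if n - a ≤ ⌊r⌋₊ then (3 : ℝ) else 0)) +
        4 / (Real.log X) ^ 2 := by
    intro a ha
    rw [Finset.mem_Icc] at ha
    have h0 := trj_term (a := a) (b := n - a) ha.1 (by omega)
    have hp : 0 ≤ 4 / (Real.log X) ^ 2 := by positivity
    by_cases h1 : a ≤ ⌊r⌋₊
    · rw [if_pos h1]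
      have : (0 : ℝ) ≤ if n - a ≤ ⌊r⌋₊ then (3 : ℝ) else 0 := by split_ifs <;> norm_num
      linarith [h0.2]
    · by_cases h2 : n - a ≤ ⌊r⌋₊
      · rw [if_neg h1, if_pos h2]
        linarith [h0.2]
      · rw [if_neg h1, if_neg h2]
        have h3 : r < a := (Nat.floor_lt hr0.le).mp (by omega)
        have h4 : r < ((n - a : ℕ) : ℝ) := (Nat.floor_lt hr0.le).mp (by omega)
        have h5 : Real.log X / 2 ≤ Real.log (a : ℝ) := by
          rw [← hlr]
          exact Real.log_le_log hr0 h3.le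
        have h6 : Real.log X / 2 ≤ Real.log ((n - a : ℕ) : ℝ) := by
          rw [← hlr]
          exact Real.log_le_log hr0 h4.le
        have h7 : (Real.log X / 2) * (Real.log X / 2) ≤
            Real.log (a : ℝ) * Real.log ((n - a : ℕ) : ℝ) :=
          mul_le_mul h5 h6 (by positivity) (by linarith)
        have h8 := one_div_le_one_div_of_le (by positivity) h7
        have h9 : 1 / ((Real.log X / 2) * (Real.log X / 2)) = 4 / (Real.log X) ^ 2 := by
          field_simp
          norm_num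
        linarith
  have hcnt1 : ∑ a ∈ Icc 2 (n - 2), (if a ≤ ⌊r⌋₊ then (3 : ℝ) else 0) ≤ 3 * r := by
    rw [← Finset.sum_filter, Finset.sum_const, nsmul_eq_mul, mul_comm]
    apply mul_le_mul_of_nonneg_left _ (by norm_num)
    have h1 : ((Icc 2 (n - 2)).filter fun a => a ≤ ⌊r⌋₊).card ≤ ⌊r⌋₊ := by
      calc _ ≤ (Icc 1 ⌊r⌋₊).card := by
            apply Finset.card_le_card
            intro a ha
            simp only [Finset.mem_filter, Finset.mem_Icc] at ha ⊢
            omega
        _ = ⌊r⌋₊ := by simp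
    calc (((Icc 2 (n - 2)).filter fun a => a ≤ ⌊r⌋₊).card : ℝ) ≤ (⌊r⌋₊ : ℝ) := by
          exact_mod_cast h1
      _ ≤ r := Nat.floor_le hr0.le
  have hcnt2 : ∑ a ∈ Icc 2 (n - 2), (if n - a ≤ ⌊r⌋₊ then (3 : ℝ) else 0) ≤ 3 * r := by
    rw [← Finset.sum_filter, Finset.sum_const, nsmul_eq_mul, mul_comm]
    apply mul_le_mul_of_nonneg_left _ (by norm_num)
    have h1 : ((Icc 2 (n - 2)).filter fun a => n - a ≤ ⌊r⌋₊).card ≤ ⌊r⌋₊ := by
      calc _ ≤ (Icc 1 ⌊r⌋₊).card := by
            apply Finset.card_le_card_of_injOn (fun a => n - a)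
            · intro a ha
              have ha' := Finset.mem_coe.mp ha
              simp only [Finset.mem_filter, Finset.mem_Icc] at ha'
              simp only [Finset.coe_Icc, Set.mem_Icc]
              omega
            · intro a ha b hb hab
              have ha' := Finset.mem_coe.mp ha
              have hb' := Finset.mem_coe.mp hb
              simp only [Finset.mem_filter, Finset.mem_Icc] at ha' hb'
              have hab' : n - a = n - b := hab
              omega
        _ = ⌊r⌋₊ := by simp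
    calc (((Icc 2 (n - 2)).filter fun a => n - a ≤ ⌊r⌋₊).card : ℝ) ≤ (⌊r⌋₊ : ℝ) := by
          exact_mod_cast h1
      _ ≤ r := Nat.floor_le hr0.le
  have hcnt3 : ∑ _a ∈ Icc 2 (n - 2), 4 / (Real.log X) ^ 2 ≤ 4 * (X / (Real.log X) ^ 2) := by
    rw [Finset.sum_const, nsmul_eq_mul]
    have h1 : ((Icc 2 (n - 2)).card : ℝ) ≤ X := by
      have : (Icc 2 (n - 2)).card ≤ X := by
        rw [Nat.card_Icc]
        omega
      exact_mod_cast this
    have h2 : 0 ≤ 4 / (Real.log X) ^ 2 := by positivity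
    calc ((Icc 2 (n - 2)).card : ℝ) * (4 / (Real.log X) ^ 2) ≤ X * (4 / (Real.log X) ^ 2) :=
          mul_le_mul_of_nonneg_right h1 h2
      _ = 4 * (X / (Real.log X) ^ 2) := by ring
  unfold JJ
  refine (Finset.sum_le_sum hterm).trans ?_
  rw [Finset.sum_add_distrib, Finset.sum_add_distrib]
  linarith

end Pool.MP_dd84fd_nt.TC
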