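import Pool.Agent.Lib.MP_dd84fd_nt.TC.TrD0
import Pool.Agent.Lib.MP_dd84fd_nt.BG.Ser
import Pool.Agent.Lib.MP_dd84fd_nt.En.Sing

/-!
# TC-TrK (0.4 h): `SS n` and `n/φ(n)`

Proof.  `n` even.  `SS n = 2 C2 ∏_{p ∣ n, p > 2} (p-1)/(p-2)`, `rt n = 2 ∏_{p ∣ n, p > 2} p/(p-1)`
(`BG.ratio_eq`), quotient of the factors: `(p-1)²/(p (p-2)) ≥ 1`, and `∏ (p-1)²/(p(p-2)) ≤ 1/C2`.  See
`PgFin` (BX/PgFin.lean, line 57: `C2 (n/φ(n)) ≤ SS n`) and HX/SvJb.lean; `SS n ≤ rt n` from `C2 ≤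
∏_{p ∣ n, p>2} (1 - 1/(p-1)²)`.
-/

set_option autoImplicit false

namespace Pool.MP_dd84fd_nt.TC

open Finset Pool.MP_dd84fd_nt.En Pool.MP_dd84fd_nt.E2

/-- telescoping product -/
private theorem trk_tel (N : ℕ) (hN : 2 ≤ N) :
    ∏ m ∈ Icc 3 N, ((m : ℝ) - 1) ^ 2 / ((m : ℝ) * ((m : ℝ) - 2)) = 2 - 2 / (N : ℝ) := by
  induction N, hN using Nat.le_induction with
  | base =>
    have : Icc 3 2 = (∅ : Finset ℕ) := by decide
    rw [this, Finset.prod_empty]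
    norm_num
  | succ N hN ih =>
    rw [← Finset.insert_Icc_right_eq_Icc_add_one (by omega), Finset.prod_insert (by simp), ih]
    have h1 : (2 : ℝ) ≤ N := by exact_mod_cast hN
    have h2 : (N : ℝ) ≠ 0 := by linarith
    have h3 : (N : ℝ) + 1 ≠ 0 := by linarith
    have h4 : (N : ℝ) - 1 ≠ 0 := by linarith
    push_cast
    have h5 : (N : ℝ) + 1 - 1 = N := by ring
    have h6 : (N : ℝ) + 1 - 2 = N - 1 := by ring
    rw [h5, h6]
    field_simp
    ring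

private theorem trk_fac {p : ℕ} (hp : 2 < p) :
    1 ≤ ((p : ℝ) - 1) ^ 2 / ((p : ℝ) * ((p : ℝ) - 2)) := by
  have h3 : (2 : ℝ) < p := by exact_mod_cast hp
  have h4 : 0 < (p : ℝ) * ((p : ℝ) - 2) := mul_pos (by linarith) (by linarith)
  rw [le_div_iff₀ h4]
  nlinarith

private theorem trk_le (S : Finset ℕ) (hS : ∀ p ∈ S, 2 < p) :
    ∏ p ∈ S, ((p : ℝ) - 1) ^ 2 / ((p : ℝ) * ((p : ℝ) - 2)) ≤ 2 := by
  obtain ⟨N, hN2, hN⟩ : ∃ N : ℕ, 2 ≤ N ∧ ∀ p ∈ S, p ≤ N :=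
    ⟨max 2 (S.sup id), le_max_left _ _, fun p hp => le_trans (Finset.le_sup (f := id) hp)
      (le_max_right _ _)⟩
  have hsub : S ⊆ Icc 3 N := by
    intro p hp
    rw [Finset.mem_Icc]
    exact ⟨hS p hp, hN p hp⟩
  have h1 : ∏ p ∈ S, ((p : ℝ) - 1) ^ 2 / ((p : ℝ) * ((p : ℝ) - 2)) ≤
      ∏ m ∈ Icc 3 N, ((m : ℝ) - 1) ^ 2 / ((m : ℝ) * ((m : ℝ) - 2)) := by
    rw [← Finset.prod_sdiff hsub]
    have h2 : 1 ≤ ∏ m ∈ Icc 3 N \ S, ((m : ℝ) - 1) ^ 2 / ((m : ℝ) * ((m : ℝ) - 2)) := by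
      have h3 : ∏ m ∈ Icc 3 N \ S, (1 : ℝ) ≤
          ∏ m ∈ Icc 3 N \ S, ((m : ℝ) - 1) ^ 2 / ((m : ℝ) * ((m : ℝ) - 2)) := by
        refine Finset.prod_le_prod (fun _ _ => zero_le_one) fun m hm => trk_fac ?_
        have := (Finset.mem_Icc.1 (Finset.mem_sdiff.1 hm).1).1
        omega
      rwa [Finset.prod_const_one] at h3
    have h4 : 0 ≤ ∏ p ∈ S, ((p : ℝ) - 1) ^ 2 / ((p : ℝ) * ((p : ℝ) - 2)) :=
      Finset.prod_nonneg fun p hp => le_trans zero_le_one (trk_fac (hS p hp))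
    exact le_mul_of_one_le_left h4 h2
  rw [trk_tel N hN2] at h1
  have h5 : (0 : ℝ) ≤ 2 / (N : ℝ) := by positivity
  linarith

private theorem trk_rt (n : ℕ) (hn : Even n) (h0 : 1 ≤ n) :
    rt n = 2 * ∏ p ∈ n.primeFactors.filter (fun p => 2 < p), (p : ℝ) / ((p : ℝ) - 1) := by
  have h2m : 2 ∈ n.primeFactors := by
    rw [Nat.mem_primeFactors]
    exact ⟨Nat.prime_two, hn.two_dvd, by omega⟩
  unfold rt
  rw [BG.ratio_eq n h0,
    ← Finset.prod_filter_mul_prod_filter_not n.primeFactors (fun p => 2 < p), mul_comm]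
  congr 1
  have h3 : n.primeFactors.filter (fun p => ¬ 2 < p) = {2} := by
    ext p
    rw [mem_filter, mem_singleton]
    constructor
    · rintro ⟨h4, h5⟩
      have := (Nat.prime_of_mem_primeFactors h4).two_le
      omega
    · rintro rfl
      exact ⟨h2m, by norm_num⟩
  rw [h3, Finset.prod_singleton]
  norm_num

theorem ssC : SsC := by
  have hC := C2_pos
  refine ⟨1 / C2 + 2 * C2, by positivity, fun n h0 hn => ?_⟩
  rw [trk_rt n hn h0]
  have hSS : SS n = 2 * C2 * ∏ p ∈ n.primeFactors.filter (fun p => 2 < p),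
      ((p : ℝ) - 1) / ((p : ℝ) - 2) := rfl
  obtain ⟨A, hA⟩ : ∃ A : ℝ, A = ∏ p ∈ n.primeFactors.filter (fun p => 2 < p),
    (p : ℝ) / ((p : ℝ) - 1) := ⟨_, rfl⟩
  obtain ⟨B, hB⟩ : ∃ B : ℝ, B = ∏ p ∈ n.primeFactors.filter (fun p => 2 < p),
    ((p : ℝ) - 1) / ((p : ℝ) - 2) := ⟨_, rfl⟩
  rw [hSS, ← hA, ← hB]
  have hpos : ∀ p ∈ n.primeFactors.filter (fun p => 2 < p), (2 : ℝ) < p := by
    intro p hp
    rw [mem_filter] at hp
    exact_mod_cast hp.2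
  have hA0 : 0 ≤ A := by
    rw [hA]
    refine Finset.prod_nonneg fun p hp => ?_
    have h3 := hpos p hp
    exact div_nonneg (by linarith) (by linarith)
  have hAB : A ≤ B := by
    rw [hA, hB]
    apply Finset.prod_le_prod
    · intro p hp
      have h3 := hpos p hp
      exact div_nonneg (by linarith) (by linarith)
    · intro p hp
      have h3 := hpos p hp
      rw [div_le_div_iff₀ (by linarith) (by linarith)]
      nlinarith
  have hBA : B ≤ A * 2 := by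
    have h1 : B = A * ∏ p ∈ n.primeFactors.filter (fun p => 2 < p),
        ((p : ℝ) - 1) ^ 2 / ((p : ℝ) * ((p : ℝ) - 2)) := by
      rw [hA, hB, ← Finset.prod_mul_distrib]
      refine Finset.prod_congr rfl fun p hp => ?_
      have h3 := hpos p hp
      have h4 : (p : ℝ) ≠ 0 := by linarith
      have h5 : (p : ℝ) - 1 ≠ 0 := by linarith
      have h6 : (p : ℝ) - 2 ≠ 0 := by linarith
      field_simp
    rw [h1]
    refine mul_le_mul_of_nonneg_left (trk_le _ fun p hp => ?_) hA0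
    rw [mem_filter] at hp
    exact hp.2
  have hB0 : 0 ≤ B := hA0.trans hAB
  constructor
  · have h1 : (1 / C2 + 2 * C2) * (2 * C2 * B) = 2 * B + 2 * C2 * (2 * C2 * B) := by
      field_simp
    rw [h1]
    have h2 : 0 ≤ 2 * C2 * (2 * C2 * B) := by positivity
    linarith
  · have h1 : (1 / C2 + 2 * C2) * (2 * A) = 1 / C2 * (2 * A) + 2 * C2 * (A * 2) := by ring
    rw [h1]
    have h2 : 0 ≤ 1 / C2 * (2 * A) := by positivity
    have h3 : 2 * C2 * B ≤ 2 * C2 * (A * 2) := mul_le_mul_of_nonneg_left hBA (by positivity)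
    linarith

end Pool.MP_dd84fd_nt.TC
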