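import Pool.Agent.Lib.MP_dd84fd_nt.TC.TrDefs
import Pool.Agent.Lib.MP_dd84fd_nt.E2.MinorP

/-!
# TC-TrP (1.5 h): the numbers near a failure

Proof.  `th`, `e` with `AdmP th e`, `th - e/4 ≤ 1/3 + ν/2`, `1 - th + 3e/2 ≤ 2/3` (see `fin_h`, EF/FinH.lean, for
the choice).  `ScaleG th e` with `A = 1`, `K = 1` gives `C`, `B'`, and for `X` large (`1/log X ≤ δ`) the set `Y`
(`#Y ≤ C/δ^18`, `log X ≤ ψ.1 ≤ RE th e X ≤ X^(2/3)`, so `2 ≤ ψ.1`) and `Ex`.  `B1 = B' + 3`.  `m` is even,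
`|m - n| ≤ X/(4 δ L^B) ≤ X/20`, so `X < 2m`, `m ≤ X` and `m ∉ Ex`: the formula holds for `m` and for `n`:
`g m = SS m JJ m + Re Σ SP m II m + err`, `|err| ≤ δ rt m X/L²`.
Pairs with `¬ ψ₁.1 ∣ Q` or `¬ ψ₂.1 ∣ Q`: `h0 m ψ₁ ψ₂ ≥ r/(r,m) > h` (`BG.hq_mono`; at `n`: `r/(r,n) > h^4 ≥ h` by the
contraposition of the hypothesis), so `‖SP m‖ ≤ C rt m h^(-1/4)` (`EF.SP_SF`, `EF.sf_bound` from `GauBD`), `‖II‖ ≤
C X/L²`, at most `(C/δ^18)²` pairs: total `≤ δ rt m X/L²` because `h ≥ C1/δ^C1` (`C1 ≥ 148` and large).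
Pairs with both moduli `∣ Q`: `m ≡ n` modulo `[r₁,r₂]`, `SP m = SP n SS m/SS n` (`SpR`), `‖II m - II n‖ ≤ C |m-n|
(L^B'/X) X/L² ≤ C/(4δ) L^(B'-B) X/L²`, `‖SP n‖ ≤ C rt n ≤ C' SS n`: `|Re Σ SP m II m - (SS m/SS n) Re Σ SP n II n| ≤
SS m C/δ^37 L^(-1) X/L² ≤ SS m δ X/L²` for `X` large.  `|JJ m - JJ n| ≤ 3 X/(4 δ L^B) ≤ δ X/L²`.
Together `g m/SS m ≤ g n/SS n + C δ X/L² ≤ δ JJ n + C δ X/L²` (`SsC`, `JJU`) and `SS m ≤ C rt m`.
-/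

set_option autoImplicit false

namespace Pool.MP_dd84fd_nt.TC

open Finset Pool.MP_67663b_nt.Odd Pool.MP_dd84fd_nt.En Pool.MP_dd84fd_nt.E2 Pool.MP_dd84fd_nt.LS
open Pool.MP_dd84fd_nt.GX Pool.MP_dd84fd_nt.HX Pool.MP_dd84fd_nt.IX
open Pool.MP_dd84fd_nt.BX (PC pv IsPC PR SX sN prc ind GauBD h0 cP)

/-- the inequality for fixed `X` -/
private theorem tp_core {ι : Type} (Y : Finset ι) (Pm Pn Im In : ι → ι → ℂ) (good : ι → ι → Prop)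
    (gm gn sm sn Jm Jn Rm Rn S δ η τ ε Cs Ci Ck Cu N : ℝ) (hS : 0 ≤ S) (hδ : 0 < δ) (hη : 0 ≤ η)
    (hτ : 0 ≤ τ) (hε : 0 ≤ ε) (hCs : 0 < Cs) (hCi : 0 < Ci) (hCk : 0 < Ck) (hCu : 0 < Cu)
    (hsm : 0 < sm) (hsn : 0 < sn) (hRm : 0 ≤ Rm) (hRn : 0 ≤ Rn) (hN : (Y.card : ℝ) ≤ N)
    (ha : ‖((gm - sm * Jm : ℝ) : ℂ) - ∑ a ∈ Y, ∑ b ∈ Y, Pm a b * Im a b‖ ≤ δ * Rm * S)
    (hb : ‖((gn - sn * Jn : ℝ) : ℂ) - ∑ a ∈ Y, ∑ b ∈ Y, Pn a b * In a b‖ ≤ δ * Rn * S)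
    (hc : ∀ a ∈ Y, ∀ b ∈ Y, ¬ good a b → ‖Pm a b‖ ≤ Cs * Rm * η ∧ ‖Pn a b‖ ≤ Cs * Rn * η)
    (hd : ∀ a ∈ Y, ∀ b ∈ Y, good a b → Pm a b * (sn : ℂ) = Pn a b * (sm : ℂ))
    (he : ∀ a ∈ Y, ∀ b ∈ Y, ‖Im a b‖ ≤ Ci * S ∧ ‖In a b‖ ≤ Ci * S ∧ ‖Im a b - In a b‖ ≤ τ * S)
    (hf : ∀ a ∈ Y, ∀ b ∈ Y, ‖Pm a b‖ ≤ Cs * Rm) (hJ : |Jm - Jn| ≤ ε * S)
    (hg1 : sm ≤ Ck * Rm) (hg2 : Rn ≤ Ck * sn) (hgn : gn ≤ δ * (sn * Jn)) (hJn : Jn ≤ Cu * S) :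
    gm ≤ Rm * S * (Ck * ε + N ^ 2 * Cs * τ + (1 + Ck ^ 2) * (N ^ 2 * Cs * Ci * η + δ) +
      Ck * Cu * δ) := by
  have hN0 : 0 ≤ N := (Nat.cast_nonneg _).trans hN
  -- the difference of the two sums
  obtain ⟨E, hE⟩ : ∃ E : ℝ, E = sn * (Cs * Rm) * (τ * S) + sn * (Cs * Rm * η) * (Ci * S) +
    sm * (Cs * Rn * η) * (Ci * S) := ⟨_, rfl⟩
  have hE1 : 0 ≤ sn * (Cs * Rm) * (τ * S) := by positivity
  have hE2 : 0 ≤ sn * (Cs * Rm * η) * (Ci * S) := by positivity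
  have hE3 : 0 ≤ sm * (Cs * Rn * η) * (Ci * S) := by positivity
  have hE0 : 0 ≤ E := by rw [hE]; positivity
  have hterm : ∀ a ∈ Y, ∀ b ∈ Y,
      ‖(sn : ℂ) * (Pm a b * Im a b) - (sm : ℂ) * (Pn a b * In a b)‖ ≤ E := by
    intro a haY b hbY
    obtain ⟨i1, i2, i3⟩ := he a haY b hbY
    by_cases hgd : good a b
    · have e1 : (sn : ℂ) * (Pm a b * Im a b) - (sm : ℂ) * (Pn a b * In a b) =
          (sn : ℂ) * (Pm a b * (Im a b - In a b)) := by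
        have := hd a haY b hbY hgd
        linear_combination (In a b) * this
      rw [e1, norm_mul, norm_mul, Complex.norm_real, Real.norm_eq_abs, abs_of_pos hsn]
      have e2 : sn * (‖Pm a b‖ * ‖Im a b - In a b‖) ≤ sn * (Cs * Rm) * (τ * S) := by
        rw [mul_assoc]
        exact mul_le_mul_of_nonneg_left (mul_le_mul (hf a haY b hbY) i3 (norm_nonneg _)
          (by positivity)) hsn.le
      rw [hE]
      linarith
    · obtain ⟨c1, c2⟩ := hc a haY b hbY hgd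
      refine (norm_sub_le _ _).trans ?_
      rw [norm_mul, norm_mul, norm_mul, norm_mul, Complex.norm_real, Complex.norm_real,
        Real.norm_eq_abs, Real.norm_eq_abs, abs_of_pos hsn, abs_of_pos hsm]
      have e2 : sn * (‖Pm a b‖ * ‖Im a b‖) ≤ sn * (Cs * Rm * η) * (Ci * S) := by
        rw [mul_assoc]
        exact mul_le_mul_of_nonneg_left (mul_le_mul c1 i1 (norm_nonneg _) (by positivity)) hsn.le
      have e3 : sm * (‖Pn a b‖ * ‖In a b‖) ≤ sm * (Cs * Rn * η) * (Ci * S) := by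
        rw [mul_assoc]
        exact mul_le_mul_of_nonneg_left (mul_le_mul c2 i2 (norm_nonneg _) (by positivity)) hsm.le
      rw [hE]
      linarith
  have hdiff : ‖(sn : ℂ) * (∑ a ∈ Y, ∑ b ∈ Y, Pm a b * Im a b) -
      (sm : ℂ) * (∑ a ∈ Y, ∑ b ∈ Y, Pn a b * In a b)‖ ≤ N ^ 2 * E := by
    have e1 : (sn : ℂ) * (∑ a ∈ Y, ∑ b ∈ Y, Pm a b * Im a b) -
        (sm : ℂ) * (∑ a ∈ Y, ∑ b ∈ Y, Pn a b * In a b) =
        ∑ a ∈ Y, ∑ b ∈ Y, ((sn : ℂ) * (Pm a b * Im a b) - (sm : ℂ) * (Pn a b * In a b)) := by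
      rw [mul_sum, mul_sum, ← sum_sub_distrib]
      refine sum_congr rfl fun a _ => ?_
      rw [mul_sum, mul_sum, ← sum_sub_distrib]
    rw [e1]
    have e2 : ‖∑ a ∈ Y, ∑ b ∈ Y, ((sn : ℂ) * (Pm a b * Im a b) - (sm : ℂ) * (Pn a b * In a b))‖ ≤
        ∑ a ∈ Y, ∑ b ∈ Y, E := by
      refine norm_sum_le_of_le _ fun a haY => norm_sum_le_of_le _ fun b hbY => hterm a haY b hbY
    refine e2.trans ?_
    rw [sum_const, sum_const, nsmul_eq_mul, nsmul_eq_mul, ← mul_assoc, ← pow_two]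
    exact mul_le_mul_of_nonneg_right (pow_le_pow_left₀ (Nat.cast_nonneg _) hN 2) hE0
  have hmain : |sn * (gm - sm * Jm) - sm * (gn - sn * Jn)| ≤
      sn * (δ * Rm * S) + sm * (δ * Rn * S) + N ^ 2 * E := by
    have e1 : (((sn * (gm - sm * Jm) - sm * (gn - sn * Jn) : ℝ)) : ℂ) =
        (sn : ℂ) * (((gm - sm * Jm : ℝ) : ℂ) - ∑ a ∈ Y, ∑ b ∈ Y, Pm a b * Im a b) -
        (sm : ℂ) * (((gn - sn * Jn : ℝ) : ℂ) - ∑ a ∈ Y, ∑ b ∈ Y, Pn a b * In a b) +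
        ((sn : ℂ) * (∑ a ∈ Y, ∑ b ∈ Y, Pm a b * Im a b) -
          (sm : ℂ) * (∑ a ∈ Y, ∑ b ∈ Y, Pn a b * In a b)) := by
      push_cast
      ring
    rw [← Real.norm_eq_abs, ← Complex.norm_real, e1]
    refine (norm_add_le _ _).trans (add_le_add ((norm_sub_le _ _).trans (add_le_add ?_ ?_)) hdiff)
    · rw [norm_mul, Complex.norm_real, Real.norm_eq_abs, abs_of_pos hsn]
      exact mul_le_mul_of_nonneg_left ha hsn.le
    · rw [norm_mul, Complex.norm_real, Real.norm_eq_abs, abs_of_pos hsm]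
      exact mul_le_mul_of_nonneg_left hb hsm.le
  have hle := (abs_le.1 hmain).2
  -- `sn gm ≤ ...`
  have k1 : sm * gn ≤ sn * (Ck * Rm * (δ * (Cu * S))) := by
    have j1 : sm * gn ≤ sm * (δ * (sn * Jn)) := mul_le_mul_of_nonneg_left hgn hsm.le
    have j2 : sm * (δ * (sn * Jn)) ≤ sm * (δ * (sn * (Cu * S))) :=
      mul_le_mul_of_nonneg_left (mul_le_mul_of_nonneg_left (mul_le_mul_of_nonneg_left hJn hsn.le)
        hδ.le) hsm.le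
    have j3 : sm * (δ * (sn * (Cu * S))) = sm * (sn * (δ * (Cu * S))) := by ring
    have j4 : sm * (sn * (δ * (Cu * S))) ≤ Ck * Rm * (sn * (δ * (Cu * S))) :=
      mul_le_mul_of_nonneg_right hg1 (by positivity)
    calc sm * gn ≤ Ck * Rm * (sn * (δ * (Cu * S))) := by linarith
      _ = _ := by ring
  have k2 : sn * (sm * (Jm - Jn)) ≤ sn * (Ck * Rm * (ε * S)) := by
    have j1 : Jm - Jn ≤ ε * S := (abs_le.1 hJ).2
    refine mul_le_mul_of_nonneg_left ?_ hsn.le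
    calc sm * (Jm - Jn) ≤ sm * (ε * S) := mul_le_mul_of_nonneg_left j1 hsm.le
      _ ≤ _ := mul_le_mul_of_nonneg_right hg1 (by positivity)
  have hsr : sm * Rn ≤ sn * (Ck ^ 2 * Rm) := by
    calc sm * Rn ≤ (Ck * Rm) * (Ck * sn) := mul_le_mul hg1 hg2 hRn (by positivity)
      _ = _ := by ring
  have k3 : sm * (δ * Rn * S) ≤ sn * (Ck ^ 2 * Rm * (δ * S)) := by
    calc sm * (δ * Rn * S) = sm * Rn * (δ * S) := by ring
      _ ≤ sn * (Ck ^ 2 * Rm) * (δ * S) := mul_le_mul_of_nonneg_right hsr (by positivity)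
      _ = _ := by ring
  have k4 : sm * (Cs * Rn * η) * (Ci * S) ≤ sn * (Ck ^ 2 * Rm * (Cs * Ci * η * S)) := by
    calc sm * (Cs * Rn * η) * (Ci * S) = sm * Rn * (Cs * Ci * η * S) := by ring
      _ ≤ sn * (Ck ^ 2 * Rm) * (Cs * Ci * η * S) := mul_le_mul_of_nonneg_right hsr (by positivity)
      _ = _ := by ring
  have k5 : N ^ 2 * E ≤ sn * (N ^ 2 * (Cs * Rm * τ * S + Cs * Rm * η * Ci * S +
      Ck ^ 2 * Rm * (Cs * Ci * η * S))) := by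
    rw [hE]
    calc N ^ 2 * (sn * (Cs * Rm) * (τ * S) + sn * (Cs * Rm * η) * (Ci * S) +
          sm * (Cs * Rn * η) * (Ci * S)) ≤ N ^ 2 * (sn * (Cs * Rm) * (τ * S) +
          sn * (Cs * Rm * η) * (Ci * S) + sn * (Ck ^ 2 * Rm * (Cs * Ci * η * S))) :=
          mul_le_mul_of_nonneg_left (by linarith) (by positivity)
      _ = _ := by ring
  refine le_of_mul_le_mul_left ?_ hsn
  have e1 : sn * gm = (sn * (gm - sm * Jm) - sm * (gn - sn * Jn)) + sm * gn +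
      sn * (sm * (Jm - Jn)) := by ring
  have e2 : sn * (Rm * S * (Ck * ε + N ^ 2 * Cs * τ + (1 + Ck ^ 2) * (N ^ 2 * Cs * Ci * η + δ) +
      Ck * Cu * δ)) = sn * (δ * Rm * S) + sn * (Ck ^ 2 * Rm * (δ * S)) +
      sn * (N ^ 2 * (Cs * Rm * τ * S + Cs * Rm * η * Ci * S + Ck ^ 2 * Rm * (Cs * Ci * η * S))) +
      sn * (Ck * Rm * (δ * (Cu * S))) + sn * (Ck * Rm * (ε * S)) := by ring
  rw [e1, e2]
  linarith

private theorem tp_eta (C δ : ℝ) (h : ℕ) (hC : 1 ≤ C) (hδ : 0 < δ) (hh : C ^ 16 / δ ^ 148 ≤ h) :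
    (h : ℝ) ^ (-(1 / 4 : ℝ)) ≤ δ ^ 37 / C ^ 4 := by
  have hx : 0 < C ^ 4 / δ ^ 37 := by positivity
  have e1 : (C ^ 4 / δ ^ 37) ^ (4 : ℕ) = C ^ 16 / δ ^ 148 := by
    rw [_root_.div_pow, ← pow_mul, ← pow_mul]
  have h1 : (C ^ 4 / δ ^ 37) ^ (4 : ℕ) ≤ (h : ℝ) := by rw [e1]; exact hh
  have h2 : (h : ℝ) ^ (-(1 / 4 : ℝ)) ≤ ((C ^ 4 / δ ^ 37) ^ (4 : ℕ)) ^ (-(1 / 4 : ℝ)) :=
    Real.rpow_le_rpow_of_nonpos (by positivity) h1 (by norm_num)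
  refine h2.trans (le_of_eq ?_)
  rw [← Real.rpow_natCast, ← Real.rpow_mul hx.le]
  have e2 : ((4 : ℕ) : ℝ) * (-(1 / 4)) = -1 := by norm_num
  rw [e2, Real.rpow_neg_one, inv_div]

private theorem tp_big (m n Q : ℕ) (hQ : 2 ∣ Q) (hmn : m ≡ n [MOD Q]) (hn : Even n) : Even m := by
  have h1 : m ≡ n [MOD 2] := hmn.of_dvd hQ
  rw [Nat.even_iff] at hn ⊢
  rw [← hn]
  exact h1

theorem ptF (hS : EF.ScaleG) (hG : GauBD) (hR : SpR) (hI : IIC) (hJ : JJC) (hU : JJU)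
    (hK : SsC) : PtF := by
  classical
  intro ν hν hν'
  obtain ⟨Cs, hCs, hsf⟩ := EF.sf_bound hG
  obtain ⟨Ci, hCi, hI⟩ := hI
  obtain ⟨Cu, hCu, Xu, hU⟩ := hU
  obtain ⟨Ck, hCk, hK⟩ := hK
  obtain ⟨Cy, hCy, hS⟩ := hS (1 / 3 + ν / 4) (ν / 40000)
    ⟨by linarith, by linarith, by linarith, by linarith, by linarith⟩
  obtain ⟨B', M, hS⟩ := hS 1
  obtain ⟨X1, hS⟩ := hS 1
  obtain ⟨X2, hI⟩ := hI B'
  obtain ⟨C, hC⟩ : ∃ C : ℕ, 1 + Cs + Ci + Cu + Ck + Cy ≤ C := exists_nat_ge _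
  have hC1 : (1 : ℝ) ≤ C := by linarith
  have c1 : Cs ≤ C := by linarith
  have c2 : Ci ≤ C := by linarith
  have c3 : Cu ≤ C := by linarith
  have c4 : Ck ≤ C := by linarith
  have c5 : Cy ≤ C := by linarith
  have hCpos : (0 : ℝ) < C := by linarith
  refine ⟨148 + 10 * C ^ 16, B' + 3, by omega, by omega, fun B hB δ hδ hδ1 h hh => ?_⟩
  have hpow : (1 : ℝ) ≤ (C : ℝ) ^ 16 := one_le_pow₀ hC1
  have hh1 : (C : ℝ) ^ 16 / δ ^ 148 ≤ h := by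
    refine le_trans ?_ hh
    have e1 : (C : ℝ) ^ 16 ≤ ((148 + 10 * C ^ 16 : ℕ) : ℝ) := by
      push_cast
      linarith
    have e2 : δ ^ (148 + 10 * C ^ 16) ≤ δ ^ 148 := pow_le_pow_of_le_one hδ.le hδ1 (by omega)
    calc (C : ℝ) ^ 16 / δ ^ 148 ≤ (C : ℝ) ^ 16 / δ ^ (148 + 10 * C ^ 16) :=
          div_le_div_of_nonneg_left (by positivity) (by positivity) e2
      _ ≤ _ := div_le_div_of_nonneg_right e1 (by positivity)
  have hηle := tp_eta C δ h hC1 hδ hh1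
  have hh1' : (1 : ℝ) ≤ h := by
    refine le_trans ?_ hh1
    rw [le_div_iff₀ (by positivity), one_mul]
    exact (pow_le_one₀ hδ.le hδ1).trans hpow
  have hh2 : 1 ≤ h := by exact_mod_cast hh1'
  obtain ⟨X3, hX3⟩ := MP_log_large ((C : ℝ) ^ 4 / δ ^ 38 + 5 / δ + 2)
  refine ⟨max X1 (max X2 (max X3 (max Xu 1))), fun X hX => ?_⟩
  simp only [max_le_iff] at hX
  obtain ⟨x1, x2, x3, x4, x5⟩ := hX
  have hLbig := hX3 X x3
  obtain ⟨L, hL⟩ : ∃ L : ℝ, L = Real.log X := ⟨_, rfl⟩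
  rw [← hL] at hLbig
  have q1 : 0 < (C : ℝ) ^ 4 / δ ^ 38 := by positivity
  have q2 : 0 < 5 / δ := by positivity
  have hL2 : 2 ≤ L := by linarith
  have hL1 : 1 ≤ L := by linarith
  have hL0 : 0 < L := by linarith
  have hLδ : 5 ≤ δ * L := by
    have : 5 / δ ≤ L := by linarith
    rw [div_le_iff₀ hδ] at this
    linarith
  have hLC : (C : ℝ) ^ 4 ≤ δ ^ 38 * L := by
    have : (C : ℝ) ^ 4 / δ ^ 38 ≤ L := by linarith
    rw [div_le_iff₀ (by positivity)] at this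
    linarith
  have hXR : (1 : ℝ) ≤ X := by exact_mod_cast x5
  have hXp : (0 : ℝ) < X := by linarith
  have hδL : 1 / Real.log X ^ 1 ≤ δ := by
    rw [pow_one, ← hL, div_le_iff₀ hL0]
    linarith
  obtain ⟨Y, Ex, y1, y2, y3, y4⟩ := hS X x1 δ hδL hδ1
  have hYN : (Y.card : ℝ) ≤ C / δ ^ 18 := y1.trans (div_le_div_of_nonneg_right c5 (by positivity))
  have hY : ∀ ψ ∈ Y, IsPC ψ ∧ 2 ≤ ψ.1 ∧ (ψ.1 : ℝ) ≤ (X : ℝ) ^ (2 / 3 : ℝ) := by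
    intro ψ hψ
    obtain ⟨p1, p2, p3, -⟩ := y2 ψ hψ
    rw [pow_one, ← hL] at p2
    have i1 : (2 : ℝ) ≤ ψ.1 := by linarith
    refine ⟨p1, by exact_mod_cast i1, p3.trans ?_⟩
    unfold EF.RE
    exact Real.rpow_le_rpow_of_exponent_le hXR (by linarith)
  refine ⟨Y, Ex, hYN.trans (div_le_div_of_nonneg_right ?_ (by positivity)), y3.trans ?_,
    fun ψ hψ => ?_, fun n n1 n2 n3 n4 n5 Q hQ hYQ m hmn hmd hmE hYm => ?_⟩
  · push_cast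
    have : (C : ℝ) ≤ (C : ℝ) ^ 16 := le_self_pow₀ hC1 (by norm_num)
    linarith
  · exact Real.rpow_le_rpow_of_exponent_le hXR (by linarith)
  · obtain ⟨p1, p2, p3⟩ := hY ψ hψ
    refine ⟨by omega, ?_⟩
    have i1 : (X : ℝ) ^ (2 / 3 : ℝ) ≤ (X : ℝ) ^ (1 : ℝ) :=
      Real.rpow_le_rpow_of_exponent_le hXR (by norm_num)
    rw [Real.rpow_one] at i1
    exact_mod_cast p3.trans i1
  -- the size of `m`
  have hDl : Dl B X / δ = X / (4 * L ^ B * δ) := by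
    unfold Dl
    rw [hL, div_div]
  have hLB3 : L ^ 3 ≤ L ^ B := pow_le_pow_right₀ hL1 (by omega)
  have hLB1 : L ≤ L ^ B := le_self_pow₀ hL1 (by omega)
  have hmd1 : |(m : ℝ) - n| ≤ X / 20 := by
    refine hmd.trans ?_
    rw [hDl]
    refine div_le_div_of_nonneg_left hXp.le (by norm_num) ?_
    have : 5 ≤ L ^ B * δ := by
      calc (5 : ℝ) ≤ δ * L := hLδ
        _ ≤ δ * L ^ B := mul_le_mul_of_nonneg_left hLB1 hδ.le
        _ = _ := by ring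
    linarith
  obtain ⟨d1, d2⟩ := abs_le.1 hmd1
  have hnX : (X : ℝ) < 2 * n := by linarith
  have hnX' : X < 2 * n := by exact_mod_cast hnX
  have hnX2 : (n : ℝ) ≤ X := by linarith
  have hnX2' : n ≤ X := by exact_mod_cast hnX2
  have hmX : (X : ℝ) < 2 * m := by linarith
  have hmX' : X < 2 * m := by exact_mod_cast hmX
  have hmX2 : (m : ℝ) ≤ X := by linarith
  have hmX2' : m ≤ X := by exact_mod_cast hmX2
  have hn0 : 1 ≤ n := by omega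
  have hm0 : 1 ≤ m := by omega
  have hme : Even m := tp_big m n Q hQ hmn n3
  have hSn := y4 n hnX' hnX2' n3 n4
  have hSm := y4 m hmX' hmX2' hme hmE
  obtain ⟨k1, k2⟩ := hK n hn0 n3
  obtain ⟨k3, k4⟩ := hK m hm0 hme
  have hrt : ∀ k : ℕ, 1 ≤ k → 0 < rt k := fun k hk => by
    unfold rt
    have : 0 < Nat.totient k := Nat.totient_pos.2 (by omega)
    positivity
  have hsn : 0 < SS n := by
    have := SS_ge n
    have := C2_pos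
    linarith
  have hsm : 0 < SS m := by
    have := SS_ge m
    have := C2_pos
    linarith
  -- the size of `h0`
  have hh0 : ∀ ψ₁ ∈ Y, ∀ ψ₂ ∈ Y, ∀ k : ℕ, (h < ψ₁.1 / Nat.gcd ψ₁.1 k ∨ h < ψ₂.1 / Nat.gcd ψ₂.1 k) →
      (h : ℝ) ≤ h0 k ψ₁ ψ₂ := by
    intro ψ₁ h₁ ψ₂ h₂ k hk
    have p0 := BX.h0_pos k ψ₁ ψ₂ (hY ψ₁ h₁).1 (hY ψ₂ h₂).1
    have p1 : 1 ≤ Nat.lcm ψ₁.1 ψ₂.1 := Nat.lcm_pos (hY ψ₁ h₁).1.1 (hY ψ₂ h₂).1.1
    have p2 := BG.hq_mono ψ₁.1 (Nat.lcm ψ₁.1 ψ₂.1) k p1 (Nat.dvd_lcm_left _ _)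
    have p3 := BG.hq_mono ψ₂.1 (Nat.lcm ψ₁.1 ψ₂.1) k p1 (Nat.dvd_lcm_right _ _)
    have p4 : PL.hq (Nat.lcm ψ₁.1 ψ₂.1) k = h0 k ψ₁ ψ₂ := rfl
    rw [p4] at p2 p3
    have p5 := Nat.le_of_dvd (by omega) p2
    have p6 := Nat.le_of_dvd (by omega) p3
    unfold PL.hq at p5 p6
    have : h ≤ h0 k ψ₁ ψ₂ := by
      rcases hk with hk | hk
      · exact hk.le.trans p5
      · exact hk.le.trans p6
    exact_mod_cast this
  have hSP : ∀ ψ₁ ∈ Y, ∀ ψ₂ ∈ Y, ∀ k : ℕ, 1 ≤ k → ‖EF.SP k ψ₁ ψ₂‖ ≤ Cs * rt k *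
      (h0 k ψ₁ ψ₂ : ℝ) ^ (-(1 / 4 : ℝ)) := by
    intro ψ₁ h₁ ψ₂ h₂ k hk
    rw [EF.SP_SF]
    exact (hsf k hk ψ₁ ψ₂ (hY ψ₁ h₁).1 (hY ψ₂ h₂).1).2.1
  have hhR : (0 : ℝ) < h := by linarith
  have hbad : ∀ ψ₁ ∈ Y, ∀ ψ₂ ∈ Y, ∀ k : ℕ, 1 ≤ k →
      (h < ψ₁.1 / Nat.gcd ψ₁.1 k ∨ h < ψ₂.1 / Nat.gcd ψ₂.1 k) →
      ‖EF.SP k ψ₁ ψ₂‖ ≤ Cs * rt k * (h : ℝ) ^ (-(1 / 4 : ℝ)) := by
    intro ψ₁ h₁ ψ₂ h₂ k hk hkk
    refine (hSP ψ₁ h₁ ψ₂ h₂ k hk).trans ?_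
    refine mul_le_mul_of_nonneg_left ?_ (mul_nonneg hCs.le (hrt k hk).le)
    exact Real.rpow_le_rpow_of_nonpos hhR (hh0 ψ₁ h₁ ψ₂ h₂ k hkk) (by norm_num)
  -- the hypotheses on the moduli
  have hq : ∀ ψ ∈ Y, ¬ ψ.1 ∣ Q → h < ψ.1 / Nat.gcd ψ.1 m ∧ h < ψ.1 / Nat.gcd ψ.1 n := by
    intro ψ hψ hnd
    refine ⟨hYm ψ hψ hnd, ?_⟩
    by_contra hcon
    refine hnd (hYQ ψ hψ ?_)
    exact (not_lt.1 hcon).trans (Nat.le_self_pow (by norm_num) h)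
  have hmn0 : 0 ≤ |(m : ℝ) - n| := abs_nonneg _
  have hτ : Ci * |(m : ℝ) - n| * (L ^ B' / X) ≤ C / (δ * L) := by
    have i1 : |(m : ℝ) - n| ≤ X / (4 * L ^ B * δ) := by rw [← hDl]; exact hmd
    have i2 : L ^ B' * L ≤ L ^ B := by
      rw [← pow_succ]
      exact pow_le_pow_right₀ hL1 (by omega)
    calc Ci * |(m : ℝ) - n| * (L ^ B' / X) ≤ C * (X / (4 * L ^ B * δ)) * (L ^ B' / X) :=
          mul_le_mul_of_nonneg_right (mul_le_mul c2 i1 hmn0 hCpos.le) (by positivity)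
      _ = C * (L ^ B' / (4 * L ^ B * δ)) := by field_simp
      _ ≤ C * (1 / (δ * L)) := by
          refine mul_le_mul_of_nonneg_left ?_ hCpos.le
          rw [div_le_div_iff₀ (by positivity) (by positivity)]
          have : L ^ B' * (δ * L) ≤ δ * L ^ B := by
            calc L ^ B' * (δ * L) = δ * (L ^ B' * L) := by ring
              _ ≤ _ := mul_le_mul_of_nonneg_left i2 hδ.le
          have h4 : 0 ≤ δ * L ^ B := by positivity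
          linarith
      _ = _ := by ring
  have hJJ : |JJ m - JJ n| ≤ δ * (X / L ^ 2) := by
    have i1 : |(m : ℝ) - n| ≤ X / (4 * L ^ B * δ) := by rw [← hDl]; exact hmd
    refine (hJ m n).trans ?_
    calc 3 * |(m : ℝ) - n| ≤ 3 * (X / (4 * L ^ B * δ)) := by linarith
      _ ≤ δ * (X / L ^ 2) := by
          rw [mul_div_assoc', mul_div_assoc', div_le_div_iff₀ (by positivity) (by positivity)]
          have j1 : (1 : ℝ) ≤ δ ^ 2 * L := by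
            have e1 : (1 : ℝ) ≤ (C : ℝ) ^ 4 := one_le_pow₀ hC1
            have e2 : δ ^ 38 ≤ δ ^ 2 := pow_le_pow_of_le_one hδ.le hδ1 (by norm_num)
            have e3 : δ ^ 38 * L ≤ δ ^ 2 * L := mul_le_mul_of_nonneg_right e2 hL0.le
            linarith
          have j2 : L ^ 2 ≤ δ ^ 2 * L ^ B := by
            calc L ^ 2 = L ^ 2 * 1 := (mul_one _).symm
              _ ≤ L ^ 2 * (δ ^ 2 * L) := mul_le_mul_of_nonneg_left j1 (by positivity)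
              _ = δ ^ 2 * L ^ 3 := by ring
              _ ≤ _ := mul_le_mul_of_nonneg_left hLB3 (by positivity)
          calc 3 * (X : ℝ) * L ^ 2 ≤ 3 * X * (δ ^ 2 * L ^ B) :=
                mul_le_mul_of_nonneg_left j2 (by positivity)
            _ ≤ 4 * X * (δ ^ 2 * L ^ B) := by
                refine mul_le_mul_of_nonneg_right ?_ (by positivity)
                linarith
            _ = _ := by ring
  have hUn := hU X x4 n hnX2'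
  rw [← hL] at hUn
  have hη0 : (0 : ℝ) ≤ (h : ℝ) ^ (-(1 / 4 : ℝ)) := by positivity
  have key := tp_core Y (EF.SP m) (EF.SP n) (EF.II X m (Real.log X ^ B')) (EF.II X n (Real.log X ^ B'))
    (fun ψ₁ ψ₂ => ψ₁.1 ∣ Q ∧ ψ₂.1 ∣ Q) (g m) (g n) (SS m) (SS n) (JJ m) (JJ n) (rt m) (rt n)
    (X / L ^ 2) δ ((h : ℝ) ^ (-(1 / 4 : ℝ))) (C / (δ * L)) δ Cs Ci Ck Cu (C / δ ^ 18)
    (by positivity) hδ hη0 (by positivity) hδ.le hCs hCi hCk hCu hsm hsn (hrt m hm0).le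
    (hrt n hn0).le hYN (by
      have := hSm
      rw [← hL] at this ⊢
      exact this) (by
      have := hSn
      rw [← hL] at this ⊢
      exact this) (by
      intro a ha b hb hgd
      have hor : (¬ a.1 ∣ Q) ∨ (¬ b.1 ∣ Q) := by
        by_contra hcon
        push Not at hcon
        exact hgd hcon
      refine ⟨hbad a ha b hb m hm0 ?_, hbad a ha b hb n hn0 ?_⟩
      · rcases hor with ho | ho
        · exact Or.inl (hq a ha ho).1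
        · exact Or.inr (hq b hb ho).1
      · rcases hor with ho | ho
        · exact Or.inl (hq a ha ho).2
        · exact Or.inr (hq b hb ho).2) (by
      rintro a ha b hb ⟨ga, gb⟩
      exact hR a b (hY a ha).1 (hY b hb).1 m n hm0 hn0 hme n3 (hmn.of_dvd (Nat.lcm_dvd ga gb))) (by
      intro a ha b hb
      obtain ⟨i1, -⟩ := hI X x2 a b (hY a ha) (hY b hb) n m
      obtain ⟨i2, i3⟩ := hI X x2 a b (hY a ha) (hY b hb) m n
      rw [← hL] at i1 i2 i3 ⊢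
      exact ⟨i1, i2, i3.trans (mul_le_mul_of_nonneg_right hτ (by positivity))⟩) (by
      intro a ha b hb
      refine (hSP a ha b hb m hm0).trans ?_
      have p0 : (1 : ℝ) ≤ h0 m a b := by
        exact_mod_cast BX.h0_pos m a b (hY a ha).1 (hY b hb).1
      have p1 : (h0 m a b : ℝ) ^ (-(1 / 4 : ℝ)) ≤ 1 :=
        Real.rpow_le_one_of_one_le_of_nonpos p0 (by norm_num)
      calc Cs * rt m * (h0 m a b : ℝ) ^ (-(1 / 4 : ℝ)) ≤ Cs * rt m * 1 :=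
            mul_le_mul_of_nonneg_left p1 (mul_nonneg hCs.le (hrt m hm0).le)
        _ = _ := mul_one _) hJJ k4 k1 n5 hUn
  refine key.trans ?_
  -- the constants
  have hRS : 0 ≤ rt m * (X / L ^ 2) := mul_nonneg (hrt m hm0).le (by positivity)
  have a1 : ((C : ℝ) / δ ^ 18) ^ 2 * Cs * Ci * (h : ℝ) ^ (-(1 / 4 : ℝ)) ≤ δ := by
    calc ((C : ℝ) / δ ^ 18) ^ 2 * Cs * Ci * (h : ℝ) ^ (-(1 / 4 : ℝ)) ≤
          ((C : ℝ) / δ ^ 18) ^ 2 * C * C * (δ ^ 37 / C ^ 4) := by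
          refine mul_le_mul ?_ hηle hη0 (by positivity)
          exact mul_le_mul (mul_le_mul_of_nonneg_left c1 (by positivity)) c2 hCi.le (by positivity)
      _ = δ := by
          field_simp
  have a2 : ((C : ℝ) / δ ^ 18) ^ 2 * Cs * (C / (δ * L)) ≤ δ := by
    calc ((C : ℝ) / δ ^ 18) ^ 2 * Cs * (C / (δ * L)) ≤ ((C : ℝ) / δ ^ 18) ^ 2 * C * (C / (δ * L)) :=
          mul_le_mul_of_nonneg_right (mul_le_mul_of_nonneg_left c1 (by positivity)) (by positivity)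
      _ = C ^ 4 / (δ ^ 37 * L) := by
          field_simp
      _ ≤ δ := by
          rw [div_le_iff₀ (by positivity)]
          calc (C : ℝ) ^ 4 ≤ δ ^ 38 * L := hLC
            _ = _ := by ring
  have a3 : Ck * δ + ((C : ℝ) / δ ^ 18) ^ 2 * Cs * (C / (δ * L)) + (1 + Ck ^ 2) *
      (((C : ℝ) / δ ^ 18) ^ 2 * Cs * Ci * (h : ℝ) ^ (-(1 / 4 : ℝ)) + δ) + Ck * Cu * δ ≤
      ((148 + 10 * C ^ 16 : ℕ) : ℝ) * δ := by
    have b1 : (1 + Ck ^ 2) * (((C : ℝ) / δ ^ 18) ^ 2 * Cs * Ci * (h : ℝ) ^ (-(1 / 4 : ℝ)) + δ) ≤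
        (1 + C ^ 2) * (δ + δ) := by
      refine mul_le_mul ?_ (by linarith) (by positivity) (by positivity)
      have := pow_le_pow_left₀ hCk.le c4 2
      linarith
    have b2 : Ck * δ ≤ C * δ := mul_le_mul_of_nonneg_right c4 hδ.le
    have b3 : Ck * Cu * δ ≤ C * C * δ := mul_le_mul_of_nonneg_right
      (mul_le_mul c4 c3 hCu.le hCpos.le) hδ.le
    have b4 : (C : ℝ) ≤ (C : ℝ) ^ 16 := le_self_pow₀ hC1 (by norm_num)
    have b5 : (C : ℝ) ^ 2 ≤ (C : ℝ) ^ 16 := pow_le_pow_right₀ hC1 (by norm_num)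
    have b6 : (C : ℝ) * δ + δ + (1 + (C : ℝ) ^ 2) * (δ + δ) + C * C * δ ≤
        ((148 + 10 * C ^ 16 : ℕ) : ℝ) * δ := by
      have : (C : ℝ) + 1 + (1 + (C : ℝ) ^ 2) * 2 + C * C ≤ ((148 + 10 * C ^ 16 : ℕ) : ℝ) := by
        push_cast
        nlinarith
      calc (C : ℝ) * δ + δ + (1 + (C : ℝ) ^ 2) * (δ + δ) + C * C * δ =
            ((C : ℝ) + 1 + (1 + (C : ℝ) ^ 2) * 2 + C * C) * δ := by ring
        _ ≤ _ := mul_le_mul_of_nonneg_right this hδ.le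
    linarith
  calc rt m * (X / L ^ 2) * (Ck * δ + ((C : ℝ) / δ ^ 18) ^ 2 * Cs * (C / (δ * L)) + (1 + Ck ^ 2) *
        (((C : ℝ) / δ ^ 18) ^ 2 * Cs * Ci * (h : ℝ) ^ (-(1 / 4 : ℝ)) + δ) + Ck * Cu * δ) ≤
        rt m * (X / L ^ 2) * (((148 + 10 * C ^ 16 : ℕ) : ℝ) * δ) :=
        mul_le_mul_of_nonneg_left a3 hRS
    _ = _ := by
        rw [hL]
        ring

end Pool.MP_dd84fd_nt.TC
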