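import Pool.Agent.Lib.MP_dd84fd_nt.TC.TrDefs

/-!
# TC-TrS (0.4 h): the singular series of a pair over a residue class

Proof.  `r = [ψ₁.1, ψ₂.1] ≥ 1`.  `EF.SP_SF`; `coF n ψ₁ ψ₂ q = 0` unless `r ∣ q` (definition,
`Nat.lcm_dvd`), so `SF n ψ₁ ψ₂ = Σ' k, coF n ψ₁ ψ₂ (r k)` (`k ↦ r k` is injective; `Function.Injective.tsum_eq`
with the support) `= coF n ψ₁ ψ₂ r Σ' k, et r n k` (`FacF`, `tsum_mul_left`).  `coF m .. r = coF n .. r` and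
`RatF`.
-/

set_option autoImplicit false

namespace Pool.MP_dd84fd_nt.TC

open Finset Pool.MP_67663b_nt.Odd Pool.MP_dd84fd_nt.En Pool.MP_dd84fd_nt.E2 Pool.MP_dd84fd_nt.LS
open Pool.MP_dd84fd_nt.GX Pool.MP_dd84fd_nt.HX Pool.MP_dd84fd_nt.IX
open Pool.MP_dd84fd_nt.BX (PC pv IsPC PR SX sN prc ind GauBD h0 cP)

private theorem spr_sf (hF : FacF) (ψ₁ ψ₂ : PC) (h₁ : IsPC ψ₁) (h₂ : IsPC ψ₂) (n : ℕ) :
    EF.SF n ψ₁ ψ₂ = EF.coF n ψ₁ ψ₂ (Nat.lcm ψ₁.1 ψ₂.1) *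
      ∑' k : ℕ, et (Nat.lcm ψ₁.1 ψ₂.1) n k := by
  have hr : 0 < Nat.lcm ψ₁.1 ψ₂.1 := Nat.lcm_pos h₁.1 h₂.1
  have hinj : Function.Injective (fun k : ℕ => Nat.lcm ψ₁.1 ψ₂.1 * k) := by
    intro a b hab
    exact Nat.eq_of_mul_eq_mul_left hr hab
  have hsupp : Function.support (EF.coF n ψ₁ ψ₂) ⊆
      Set.range (fun k : ℕ => Nat.lcm ψ₁.1 ψ₂.1 * k) := by
    intro q hq
    by_contra hc
    apply hq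
    unfold EF.coF
    rw [if_neg]
    rintro ⟨ha, hb⟩
    obtain ⟨k, hk⟩ := Nat.lcm_dvd ha hb
    exact hc ⟨k, hk.symm⟩
  unfold EF.SF
  rw [← Function.Injective.tsum_eq hinj hsupp]
  rw [← tsum_mul_left]
  apply tsum_congr
  intro k
  exact (hF ψ₁ ψ₂ h₁ h₂).1 n k

theorem spR (hF : FacF) (hR : RatF) : SpR := by
  intro ψ₁ ψ₂ h₁ h₂ m n hm hn em en hmn
  rw [EF.SP_SF, EF.SP_SF, spr_sf hF ψ₁ ψ₂ h₁ h₂ m, spr_sf hF ψ₁ ψ₂ h₁ h₂ n,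
    (hF ψ₁ ψ₂ h₁ h₂).2 m n hmn, mul_assoc, mul_assoc,
    hR (Nat.lcm ψ₁.1 ψ₂.1) m n (Nat.lcm_pos h₁.1 h₂.1) hm hn em en hmn]

end Pool.MP_dd84fd_nt.TC
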