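import Pool.Agent.Lib.MP_dd84fd_nt.TC.TrA

/-!
# TC-TrW (0.6 h): the weighted average

Proof.  `wk D u ≤ 4 Σ_{j ≤ J} 4^(-j) 1[|u| ≤ 2^j D]` as soon as `|u| ≤ 2^J D` (`|u| ≤ D`: the term `j = 0`;
`2^j D < |u| ≤ 2^(j+1) D`: `wk D u = (D/u)² ≤ 4^(-j)` is the term `j + 1`).  `J` with `|m - x| ≤ 2^J D` for
all `m ≤ 2X` (`D ≥ 1`).  `AvP` with `2^j D`: `Σ ≤ 4 Σ_j 4^(-j) C rt g (2^j D/q + log X) ≤ 8 C rt g (D/q +
log X)` (`Σ 2^(-j) ≤ 2`).
-/

set_option autoImplicit false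

namespace Pool.MP_dd84fd_nt.TC

open Finset Pool.MP_dd84fd_nt.En Pool.MP_dd84fd_nt.E2

private lemma wk_le_sum (D u : ℝ) (hD : 0 < D) (J : ℕ) (hJ : |u| ≤ 2 ^ J * D) :
    wk D u ≤ ∑ j ∈ range (J + 1), 4 * (1 / 4 : ℝ) ^ j * (if |u| ≤ 2 ^ j * D then 1 else 0) := by
  classical
  have hex : ∃ j : ℕ, |u| ≤ 2 ^ j * D := ⟨J, hJ⟩
  set j := Nat.find hex with hj
  have hju : |u| ≤ 2 ^ j * D := Nat.find_spec hex
  have hjJ : j ≤ J := Nat.find_min' hex hJ
  have hterm : wk D u ≤ 4 * (1 / 4 : ℝ) ^ j * (if |u| ≤ 2 ^ j * D then 1 else 0) := by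
    rw [if_pos hju, mul_one]
    rcases Nat.eq_zero_or_pos j with h0 | h0
    · rw [h0] at hju ⊢
      have : |u| ≤ D := by simpa using hju
      unfold wk
      rw [if_pos this]
      norm_num
    · obtain ⟨i, hi⟩ : ∃ i, j = i + 1 := ⟨j - 1, by omega⟩
      have hlt : ¬ |u| ≤ 2 ^ i * D := Nat.find_min hex (by omega)
      have hlt' : 2 ^ i * D < |u| := not_le.mp hlt
      have h2i : (1 : ℝ) ≤ 2 ^ i := one_le_pow₀ (by norm_num)
      have hDu : ¬ |u| ≤ D := by
        intro h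
        have : D ≤ 2 ^ i * D := by nlinarith
        linarith
      have hupos : 0 < |u| := lt_trans (by positivity) hlt'
      unfold wk
      rw [if_neg hDu, hi, ← sq_abs, abs_div, abs_of_pos hD]
      have h1 : D / |u| ≤ (1 / 2 : ℝ) ^ i := by
        rw [div_le_iff₀ hupos, one_div, inv_pow]
        have h2 : (0 : ℝ) < 2 ^ i := by positivity
        have h3 : D ≤ |u| / 2 ^ i := by
          rw [le_div_iff₀ h2]
          linarith
        calc D ≤ |u| / 2 ^ i := h3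
          _ = (2 ^ i)⁻¹ * |u| := by field_simp
      have h0' : 0 ≤ D / |u| := by positivity
      calc (D / |u|) ^ 2 ≤ ((1 / 2 : ℝ) ^ i) ^ 2 := by
            exact pow_le_pow_left₀ h0' h1 2
        _ = (1 / 4 : ℝ) ^ i := by rw [← pow_mul, mul_comm i 2, pow_mul]; norm_num
        _ = 4 * (1 / 4 : ℝ) ^ (i + 1) := by rw [pow_succ]; ring
  refine hterm.trans ?_
  exact Finset.single_le_sum
    (f := fun j : ℕ => 4 * (1 / 4 : ℝ) ^ j * (if |u| ≤ 2 ^ j * D then (1 : ℝ) else 0))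
    (fun k _ => by positivity) (mem_range.mpr (by omega))

private lemma rt_nonneg' (n : ℕ) : 0 ≤ rt n := by unfold rt; positivity

theorem avW : AvW := by
  classical
  obtain ⟨C, hC, hP⟩ := avP
  refine ⟨8 * C, by positivity, ?_⟩
  intro X hX q a hq D x hD
  have hD0 : 0 < D := by linarith
  obtain ⟨J, hJ⟩ := exists_nat_ge (2 * (X : ℝ) + |x|)
  have hJ2 : (J : ℝ) ≤ 2 ^ J := by exact_mod_cast (Nat.lt_two_pow_self (n := J)).le
  have hbd : ∀ m ∈ (Icc 1 (2 * X)).filter (fun m : ℕ => m ≡ a [MOD q]),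
      |(m : ℝ) - x| ≤ 2 ^ J * D := by
    intro m hm
    have hm2 : m ≤ 2 * X := (mem_Icc.mp (mem_filter.mp hm).1).2
    have hm3 : (m : ℝ) ≤ 2 * X := by exact_mod_cast hm2
    have h1 : |(m : ℝ) - x| ≤ (m : ℝ) + |x| := by
      have hm0 : (0 : ℝ) ≤ m := Nat.cast_nonneg m
      rw [abs_le]
      constructor <;> cases abs_cases x <;> linarith
    have h2 : (2 : ℝ) ^ J ≤ 2 ^ J * D := by
      have : (0 : ℝ) < 2 ^ J := by positivity
      nlinarith
    linarith
  have hlog : 0 ≤ Real.log X := Real.log_nonneg (by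
    have : (3 : ℝ) ≤ X := by exact_mod_cast hX
    linarith)
  have hrt : 0 ≤ rt (Nat.gcd a q) := rt_nonneg' _
  have hDq : 0 ≤ D / q := by positivity
  calc ∑ m ∈ (Icc 1 (2 * X)).filter (fun m : ℕ => m ≡ a [MOD q]), wk D ((m : ℝ) - x) * rt m
      ≤ ∑ m ∈ (Icc 1 (2 * X)).filter (fun m : ℕ => m ≡ a [MOD q]),
          ∑ j ∈ range (J + 1), 4 * (1 / 4 : ℝ) ^ j *
            ((if |(m : ℝ) - x| ≤ 2 ^ j * D then 1 else 0) * rt m) := by
        refine sum_le_sum fun m hm => ?_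
        have h1 := mul_le_mul_of_nonneg_right (wk_le_sum D ((m : ℝ) - x) hD0 J (hbd m hm))
          (rt_nonneg' m)
        rw [sum_mul] at h1
        refine h1.trans (le_of_eq (sum_congr rfl fun j _ => by ring))
    _ = ∑ j ∈ range (J + 1), 4 * (1 / 4 : ℝ) ^ j *
          ∑ m ∈ (Icc 1 (2 * X)).filter (fun m : ℕ => m ≡ a [MOD q]),
            ((if |(m : ℝ) - x| ≤ 2 ^ j * D then 1 else 0) * rt m) := by
        rw [sum_comm]
        exact sum_congr rfl fun j _ => by rw [mul_sum]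
    _ ≤ ∑ j ∈ range (J + 1), 4 * (1 / 4 : ℝ) ^ j *
          (C * rt (Nat.gcd a q) * (2 ^ j * D / q + Real.log X)) := by
        refine sum_le_sum fun j _ => mul_le_mul_of_nonneg_left ?_ (by positivity)
        have h1 := hP X hX q a hq (2 ^ j * D) x (by positivity)
        refine le_trans (le_of_eq ?_) h1
        have h2 : ((Icc 1 (2 * X)).filter (fun m : ℕ => m ≡ a [MOD q] ∧
            |(m : ℝ) - x| ≤ 2 ^ j * D)) =
            ((Icc 1 (2 * X)).filter (fun m : ℕ => m ≡ a [MOD q])).filter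
              (fun m : ℕ => |(m : ℝ) - x| ≤ 2 ^ j * D) := by
          rw [filter_filter]
        rw [h2, sum_filter (s := (Icc 1 (2 * X)).filter (fun m : ℕ => m ≡ a [MOD q]))]
        exact sum_congr rfl fun m _ => by
          by_cases h : |(m : ℝ) - x| ≤ 2 ^ j * D
          · simp [h]
          · simp [h]
    _ = 4 * C * rt (Nat.gcd a q) * (D / q * (∑ j ∈ range (J + 1), (1 / 2 : ℝ) ^ j) +
          Real.log X * (∑ j ∈ range (J + 1), (1 / 4 : ℝ) ^ j)) := by
        rw [mul_sum, mul_sum, ← sum_add_distrib, mul_sum]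
        refine sum_congr rfl fun j _ => ?_
        have h4 : (1 / 4 : ℝ) ^ j * 2 ^ j = (1 / 2 : ℝ) ^ j := by
          rw [← mul_pow]; norm_num
        rw [← h4]
        ring
    _ ≤ 4 * C * rt (Nat.gcd a q) * (D / q * 2 + Real.log X * 2) := by
        refine mul_le_mul_of_nonneg_left ?_ (by positivity)
        have h2 : ∑ j ∈ range (J + 1), (1 / 2 : ℝ) ^ j ≤ 2 := sum_geometric_two_le _
        have h3 : ∑ j ∈ range (J + 1), (1 / 4 : ℝ) ^ j ≤ 2 := by
          refine le_trans (sum_le_sum fun j _ => ?_) h2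
          exact pow_le_pow_left₀ (by norm_num) (by norm_num) j
        exact add_le_add (mul_le_mul_of_nonneg_left h2 hDq) (mul_le_mul_of_nonneg_left h3 hlog)
    _ = 8 * C * rt (Nat.gcd a q) * (D / q + Real.log X) := by ring

end Pool.MP_dd84fd_nt.TC
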