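import Pool.Agent.Lib.MP_dd84fd_nt.TC.TrM
import Pool.Agent.Lib.MP_dd84fd_nt.TC.TrP
import Pool.Agent.Lib.MP_dd84fd_nt.TC.TrS
import Pool.Agent.Lib.MP_dd84fd_nt.TC.TrE
import Pool.Agent.Lib.MP_dd84fd_nt.TC.TrF
import Pool.Agent.Lib.MP_dd84fd_nt.TC.TrC
import Pool.Agent.Lib.MP_dd84fd_nt.TC.TrJ
import Pool.Agent.Lib.MP_dd84fd_nt.TC.TrK
import Pool.Agent.Lib.MP_dd84fd_nt.TC.TrB
import Pool.Agent.Lib.MP_dd84fd_nt.TC.TrX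
import Pool.Agent.Lib.MP_dd84fd_nt.TC.TrW
import Pool.Agent.Lib.MP_dd84fd_nt.EF.Main

/-!
# TC-TrZ: TransF
-/

set_option autoImplicit false

namespace Pool.MP_dd84fd_nt.TC

open Finset Pool.MP_67663b_nt.Odd Pool.MP_dd84fd_nt.En Pool.MP_dd84fd_nt.E2 Pool.MP_dd84fd_nt.LS
open Pool.MP_dd84fd_nt.GX Pool.MP_dd84fd_nt.HX Pool.MP_dd84fd_nt.IX
open Pool.MP_dd84fd_nt.BX (PC pv IsPC PR SX sN prc ind GauBD h0 cP)

theorem transF : TransF :=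
  transF_of (ptF EF.scaleG_all BX.gauBD (spR facF ratF) iiC jjC jjU ssC) avW btG (spcF avW)

end Pool.MP_dd84fd_nt.TC
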