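import Pool.Agent.Lib.MP_dd84fd_nt.TC.Core
import Pool.Agent.Lib.MP_dd84fd_nt.TC.Exc
import Pool.Agent.Lib.MP_dd84fd_nt.TC.Rcs
import Pool.Agent.Lib.MP_dd84fd_nt.TC.SvF
import Pool.Agent.Lib.MP_dd84fd_nt.TC.MsP
import Pool.Agent.Lib.MP_dd84fd_nt.TC.L2N
import Pool.Agent.Lib.MP_dd84fd_nt.TC.TrZ
import Pool.Agent.Lib.MP_dd84fd_nt.TC.Str
import Pool.Agent.Lib.MP_dd84fd_nt.TC.Cnt
import Pool.Agent.Lib.MP_dd84fd_nt.TC.Pth
import Pool.Agent.Lib.MP_dd84fd_nt.TC.Gap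

/-!
# Project TC: the theorem for windows of length `(log X)^K` without hypotheses
-/

set_option autoImplicit false

namespace Pool.MP_dd84fd_nt.TC

theorem coreF_all : CoreF := coreF svf massF (excF l2N) rcsF

theorem fin_all : FinT := finT (oneF coreF_all transF pathF strF cntT)

end Pool.MP_dd84fd_nt.TC
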