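import Pool.Agent.Lib.MP_dd84fd_nt.TC.HDefs
import Pool.Agent.Lib.MP_dd84fd_nt.TC.One
import Pool.Agent.Lib.MP_dd84fd_nt.TC.Str

/-!
# G6-OneH: one scale, pairs of failures at any distance (helper39)

`OneH` from `CoreH`, `TransF`, `PathF`, `StrH`, `CntH`; as One.lean.  The set `G` is `Ex` together with the
numbers which have a partner with a large common modulus (`h ≤ X^(1/3)`) or a large modulus themselves
(`h > X^(1/3)`).  `M = 2 Λ`; `W ∣ 2 Λ (m, m')`, so `W ≤ X^(2c)`; if no character modulo `W` is heavy, (COREH)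
gives a contradiction.
-/

set_option autoImplicit false

namespace Pool.MP_dd84fd_nt.TC

open Finset Pool.MP_67663b_nt.Odd Pool.MP_dd84fd_nt.En Pool.MP_dd84fd_nt.E2 Pool.MP_dd84fd_nt.LS
open Pool.MP_dd84fd_nt.GX Pool.MP_dd84fd_nt.HX Pool.MP_dd84fd_nt.IX
open Pool.MP_dd84fd_nt.BX (PC pv IsPC PR SX sN prc ind)

private theorem LM_nonneg' (X : ℕ) (B n Q : ℕ) (hX : 1 ≤ X) : 0 ≤ LM X (Dl B X) n Q := by
  have h1 : 0 ≤ Real.log X := Real.log_nonneg (by exact_mod_cast hX)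
  unfold LM Dl
  positivity

/-- one scale -/
theorem oneH (hC : CoreH) (hT : TransF) (hP : PathF) (hS : StrH) (hN : CntH) : OneH := by
  intro ν h0 h1
  obtain ⟨c0, hc0, hC⟩ := hC ν h0 h1
  obtain ⟨C0, B1, hB1, hT⟩ := hT ν h0 h1
  obtain ⟨cp, hcp, hP⟩ := hP
  obtain ⟨δ, hδ0, hδ1, hδ⟩ := g6_delta c0 cp C0 hc0 hcp
  obtain ⟨H, N, hH, hH2, XT, hT⟩ := hT B1 le_rfl δ hδ0 hδ1
  have hδ := hδ H hH2 hH
  have hHr : (2 : ℝ) ≤ H := by exact_mod_cast hH2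
  have hlH : 0 < Real.log H := Real.log_pos (by linarith)
  obtain ⟨ρ, hρdef⟩ : ∃ ρ : ℝ, ρ = min 1 (cp / (Real.log H) ^ 10) := ⟨_, rfl⟩
  rw [← hρdef] at hδ
  have hρ0 : 0 < ρ := by rw [hρdef]; exact lt_min one_pos (by positivity)
  have hρ1 : ρ ≤ 1 := by rw [hρdef]; exact min_le_left _ _
  have hρ2 : ρ ≤ cp / (Real.log H) ^ 10 := by rw [hρdef]; exact min_le_right _ _
  obtain ⟨κ, hκ0, hκ1, XC, hC⟩ := hC B1 ρ hB1 hρ0 hρ1
  obtain ⟨XN, hN⟩ := hN ν h0 h1 H N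
  have hLm : 1 ≤ Lm H := Lm_pos H
  refine ⟨δ, κ, B1, 2 * Lm H, hδ0, hκ0, hB1, by omega, fun c hc0' hcν => ?_⟩
  obtain ⟨Xa, ha⟩ := g6_pow_log_le 0 (2 * (Lm H : ℝ)) c hc0'
  obtain ⟨Xb, hb⟩ := g6_pow_log_le 0 2 ν h0
  refine ⟨max (max (max XT XC) (max XN Xa)) (max Xb 1), fun X hX h hh => ?_⟩
  simp only [max_le_iff] at hX
  obtain ⟨⟨⟨hXT, hXC⟩, hXN, hXa⟩, hXb, hX1⟩ := hX
  have hXr : (1 : ℝ) ≤ X := by exact_mod_cast hX1
  have hXpos : (0 : ℝ) < X := by linarith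
  obtain ⟨Y, Ex, hY, hEx, hY1, hT⟩ := hT X hXT
  have ha := ha X hXa
  have hb := hb X hXb
  rw [pow_zero, mul_one] at ha hb
  obtain ⟨hN1, hN2⟩ := hN X hXN Y hY (fun ψ hψ => (hY1 ψ hψ).1)
  -- two failures
  have key : ∀ n n' : ℕ, 6 / 10 * (X : ℝ) ≤ n → (n : ℝ) ≤ 9 / 10 * X →
      6 / 10 * (X : ℝ) ≤ n' → (n' : ℝ) ≤ 9 / 10 * X → (Nat.gcd n n' : ℝ) ≤ (X : ℝ) ^ c →
      Bd δ n → Bd δ n' → n ∉ Ex → n' ∉ Ex →
      2 * (Lm H : ℝ) * (Nat.lcm (qY Y H n) (qY Y H n') : ℝ) ≤ (X : ℝ) ^ (2 / 3 - ν) →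
      (n % 3 = 0 ∨ n % 3 = n' % 3) → ∃ ψ : PC, IsPC ψ ∧ 2 ≤ ψ.1 ∧ (ψ.1 : ℝ) ≤ (X : ℝ) ^ (2 * c) ∧
          κ ≤ sN X (4 * (Real.log X) ^ B1) ψ ∧ ψ.1 ∣ 2 * Lm H * Nat.gcd n n' := by
    intro n n' a1 a2 b1 b2 hg g1 g2 e1 e2 hl h3
    have hn1 : 1 ≤ n := by
      have : (0 : ℝ) < n := by linarith
      exact_mod_cast this
    have hn1' : 1 ≤ n' := by
      have : (0 : ℝ) < n' := by linarith
      exact_mod_cast this
    obtain ⟨W, Q1, Q2, q1, q2, hgcd, h2W, hW, d1, d2, hlcm, f1, f2, hpr⟩ :=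
      hS Y H n n' (fun ψ hψ => (hY1 ψ hψ).1) hH2 hn1 hn1'
    have hW1 : 1 ≤ W := by
      rw [← hgcd]
      exact Nat.gcd_pos_of_pos_left _ q1
    have hgpos : 0 < Nat.gcd n n' := Nat.gcd_pos_of_pos_left _ hn1
    have hWle : (W : ℝ) ≤ (X : ℝ) ^ (2 * c) := by
      have hW2 : W ≤ 2 * Lm H * Nat.gcd n n' := Nat.le_of_dvd (by positivity) hW
      have hW3 : (W : ℝ) ≤ 2 * (Lm H : ℝ) * (Nat.gcd n n' : ℝ) := by exact_mod_cast hW2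
      calc (W : ℝ) ≤ 2 * (Lm H : ℝ) * (Nat.gcd n n' : ℝ) := hW3
        _ ≤ (X : ℝ) ^ c * (X : ℝ) ^ c :=
            mul_le_mul ha hg (Nat.cast_nonneg _) (by positivity)
        _ = (X : ℝ) ^ (2 * c) := by
            rw [← Real.rpow_add hXpos]
            congr 1
            ring
    by_contra hno
    have hNoH : NoH X B1 W κ := by
      intro ψ p1 p2 p3
      by_contra hcon
      push Not at hcon
      apply hno
      refine ⟨ψ, p1, p2, ?_, hcon.le, p3.trans hW⟩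
      refine le_trans ?_ hWle
      exact_mod_cast Nat.le_of_dvd hW1 p3
    have hlcm' : (Nat.lcm Q1 Q2 : ℝ) ≤ (X : ℝ) ^ (2 / 3 - ν) := by
      refine le_trans ?_ hl
      exact_mod_cast hlcm
    have hlpos : 0 < Nat.lcm Q1 Q2 := Nat.lcm_pos q1 q2
    have hQ1 : (Q1 : ℝ) ≤ (X : ℝ) ^ (2 / 3 - ν) := by
      refine le_trans ?_ hlcm'
      exact_mod_cast Nat.le_of_dvd hlpos (Nat.dvd_lcm_left Q1 Q2)
    have hQ2 : (Q2 : ℝ) ≤ (X : ℝ) ^ (2 / 3 - ν) := by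
      refine le_trans ?_ hlcm'
      exact_mod_cast Nat.le_of_dvd hlpos (Nat.dvd_lcm_right Q1 Q2)
    have hWQ1 : W ∣ Q1 := by rw [← hgcd]; exact Nat.gcd_dvd_left _ _
    have hWQ2 : W ∣ Q2 := by rw [← hgcd]; exact Nat.gcd_dvd_right _ _
    have hWν : (W : ℝ) ≤ (X : ℝ) ^ (ν / 100) :=
      hWle.trans (Real.rpow_le_rpow_of_exponent_le hXr (by linarith))
    have T1 := hT n a1 a2 g1.1 e1 g1.2 Q1 q1 (h2W.trans hWQ1) hQ1 f1
    have T2 := hT n' b1 b2 g2.1 e2 g2.2 Q2 q2 (h2W.trans hWQ2) hQ2 f2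
    have hPa := hP H W n n' hH2 hW1 g1.1 g2.1 hpr h3
    have hPb : ρ * Nat.totient W ≤ ((PathSet W n n').card : ℝ) :=
      le_trans (mul_le_mul_of_nonneg_right hρ2 (Nat.cast_nonneg _)) hPa
    exact hC X hXC n n' Q1 Q2 W q1 q2 hgcd hWν hNoH d1 d2 hlcm' a1 a2 b1 b2 hPb
      (T1.trans (mul_le_mul_of_nonneg_right hδ (LM_nonneg' X B1 n Q1 hX1)))
      (T2.trans (mul_le_mul_of_nonneg_right hδ (LM_nonneg' X B1 n' Q2 hX1)))
  -- both orders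
  have key2 : ∀ m m' : ℕ, 6 / 10 * (X : ℝ) ≤ m → m < m' → (m' : ℝ) ≤ 9 / 10 * X →
      m ∉ Ex → m' ∉ Ex → Bd δ m → Bd δ m' → m * m' % 3 ≠ 2 → (Nat.gcd m m' : ℝ) ≤ (X : ℝ) ^ c →
      2 * (Lm H : ℝ) * (Nat.lcm (qY Y H m) (qY Y H m') : ℝ) ≤ (X : ℝ) ^ (2 / 3 - ν) →
      ∃ ψ : PC, IsPC ψ ∧ 2 ≤ ψ.1 ∧ (ψ.1 : ℝ) ≤ (X : ℝ) ^ (2 * c) ∧
          κ ≤ sN X (4 * (Real.log X) ^ B1) ψ ∧ ψ.1 ∣ 2 * Lm H * Nat.gcd m m' := by
    intro m m' a1 hmm a2 e1 e2 g1 g2 h3 hg hl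
    have hmmr : (m : ℝ) < m' := by exact_mod_cast hmm
    have hmm3 : m * m' % 3 = (m % 3) * (m' % 3) % 3 := Nat.mul_mod m m' 3
    have hcase : (m % 3 = 0 ∨ m % 3 = m' % 3) ∨ (m' % 3 = 0 ∨ m' % 3 = m % 3) := by
      have r1 : m % 3 = 0 ∨ m % 3 = 1 ∨ m % 3 = 2 := by omega
      have r2 : m' % 3 = 0 ∨ m' % 3 = 1 ∨ m' % 3 = 2 := by omega
      rcases r1 with r1 | r1 | r1 <;> rcases r2 with r2 | r2 | r2 <;> rw [r1, r2] at hmm3 ⊢ <;>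
        omega
    rcases hcase with h | h
    · exact key m m' a1 (by linarith) (by linarith) a2 hg g1 g2 e1 e2 hl h
    · have k := key m' m (by linarith) a2 a1 (by linarith) (by rw [Nat.gcd_comm]; exact hg) g2 g1
        e2 e1 (by rw [Nat.lcm_comm]; exact hl) h
      rw [Nat.gcd_comm] at k
      exact k
  classical
  have hhr : (1 : ℝ) ≤ h := by exact_mod_cast hh
  have hP2 : (0 : ℝ) ≤ (X : ℝ) ^ (1 / 3 + 2 * ν) := by positivity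
  have hmono : (X : ℝ) ^ (1 / 3 + ν) ≤ (X : ℝ) ^ (1 / 3 + 2 * ν) :=
    Real.rpow_le_rpow_of_exponent_le hXr (by linarith)
  have hmono2 : (X : ℝ) ^ (1 / 3 + ν) ≤ (X : ℝ) ^ (2 / 3 + 2 * ν) :=
    Real.rpow_le_rpow_of_exponent_le hXr (by linarith)
  have hsplit : (X : ℝ) ^ (1 / 3 + 3 * ν) = (X : ℝ) ^ (1 / 3 + 2 * ν) * (X : ℝ) ^ ν := by
    rw [← Real.rpow_add hXpos]
    congr 1
    ring
  have hsplit2 : (X : ℝ) ^ (1 / 3 : ℝ) * (X : ℝ) ^ (1 / 3 + 3 * ν) =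
      (X : ℝ) ^ (2 / 3 + 2 * ν) * (X : ℝ) ^ ν := by
    rw [← Real.rpow_add hXpos, ← Real.rpow_add hXpos]
    congr 1
    ring
  rcases le_or_gt (h : ℝ) ((X : ℝ) ^ (1 / 3 : ℝ)) with hcase | hcase
  · -- small `h`
    obtain ⟨S, hSdef⟩ : ∃ S, S = (Icc 1 X).filter (fun n : ℕ => ∃ n' : ℕ, 1 ≤ n' ∧ n' ≤ 2 * X ∧
      n' ≤ n + h ∧ n ≤ n' + h ∧
      (X : ℝ) ^ (2 / 3 - ν) < 2 * (Lm H : ℝ) * (Nat.lcm (qY Y H n) (qY Y H n') : ℝ)) := ⟨_, rfl⟩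
    have hS1 : (S.card : ℝ) ≤ h * (X : ℝ) ^ (1 / 3 + 2 * ν) := by rw [hSdef]; exact hN1 h hh
    refine ⟨Ex ∪ S, ?_, ?_⟩
    · rw [min_eq_left hcase, hsplit]
      have hu : ((Ex ∪ S).card : ℝ) ≤ (Ex.card : ℝ) + S.card := by exact_mod_cast card_union_le _ _
      calc ((Ex ∪ S).card : ℝ) ≤ (Ex.card : ℝ) + S.card := hu
        _ ≤ h * (X : ℝ) ^ (1 / 3 + 2 * ν) + h * (X : ℝ) ^ (1 / 3 + 2 * ν) := by
            have h9 : (X : ℝ) ^ (1 / 3 + 2 * ν) ≤ h * (X : ℝ) ^ (1 / 3 + 2 * ν) :=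
              le_mul_of_one_le_left hP2 hhr
            linarith
        _ = h * ((X : ℝ) ^ (1 / 3 + 2 * ν) * 2) := by ring
        _ ≤ h * ((X : ℝ) ^ (1 / 3 + 2 * ν) * (X : ℝ) ^ ν) :=
            mul_le_mul_of_nonneg_left (mul_le_mul_of_nonneg_left hb hP2) (by linarith)
    · intro m m' a1 hmm hmh a2 hm hm' g1 g2 h3 hg
      rw [mem_union, not_or] at hm hm'
      have hmmr : (m : ℝ) < m' := by exact_mod_cast hmm
      refine key2 m m' a1 hmm a2 hm.1 hm'.1 g1 g2 h3 hg ?_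
      by_contra hcon
      push Not at hcon
      apply hm.2
      rw [hSdef, mem_filter, mem_Icc]
      refine ⟨⟨?_, ?_⟩, m', ?_, ?_, hmh, by omega, hcon⟩
      · have : (0 : ℝ) < m := by linarith
        exact_mod_cast this
      · have : (m : ℝ) ≤ X := by linarith
        exact_mod_cast this
      · have : (0 : ℝ) < m' := by linarith
        exact_mod_cast this
      · have : (m' : ℝ) ≤ ((2 * X : ℕ) : ℝ) := by push_cast; linarith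
        exact_mod_cast this
  · -- large `h`
    obtain ⟨S, hSdef⟩ : ∃ S, S = (Icc 1 X).filter (fun n : ℕ =>
      (X : ℝ) ^ (2 / 3 - ν) < 2 * (Lm H : ℝ) * (qY Y H n : ℝ) ^ 2) := ⟨_, rfl⟩
    have hS1 : (S.card : ℝ) ≤ (X : ℝ) ^ (2 / 3 + 2 * ν) := by rw [hSdef]; exact hN2
    refine ⟨Ex ∪ S, ?_, ?_⟩
    · rw [min_eq_right hcase.le, hsplit2]
      have hu : ((Ex ∪ S).card : ℝ) ≤ (Ex.card : ℝ) + S.card := by exact_mod_cast card_union_le _ _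
      calc ((Ex ∪ S).card : ℝ) ≤ (Ex.card : ℝ) + S.card := hu
        _ ≤ (X : ℝ) ^ (2 / 3 + 2 * ν) * 2 := by linarith
        _ ≤ (X : ℝ) ^ (2 / 3 + 2 * ν) * (X : ℝ) ^ ν :=
            mul_le_mul_of_nonneg_left hb (by positivity)
    · intro m m' a1 hmm hmh a2 hm hm' g1 g2 h3 hg
      rw [mem_union, not_or] at hm hm'
      have hmmr : (m : ℝ) < m' := by exact_mod_cast hmm
      have hq : ∀ x : ℕ, 6 / 10 * (X : ℝ) ≤ x → (x : ℝ) ≤ 9 / 10 * X → x ∉ S →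
          2 * (Lm H : ℝ) * (qY Y H x : ℝ) ^ 2 ≤ (X : ℝ) ^ (2 / 3 - ν) := by
        intro x x1 x2 x3
        by_contra hcon
        push Not at hcon
        apply x3
        rw [hSdef, mem_filter, mem_Icc]
        refine ⟨⟨?_, ?_⟩, hcon⟩
        · have : (0 : ℝ) < x := by linarith
          exact_mod_cast this
        · have : (x : ℝ) ≤ X := by linarith
          exact_mod_cast this
      have q1 := hq m a1 (by linarith) hm.2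
      have q2 := hq m' (by linarith) a2 hm'.2
      refine key2 m m' a1 hmm a2 hm.1 hm'.1 g1 g2 h3 hg ?_
      have hlc : (Nat.lcm (qY Y H m) (qY Y H m') : ℝ) ≤ (qY Y H m : ℝ) * (qY Y H m' : ℝ) := by
        have h5 : Nat.lcm (qY Y H m) (qY Y H m') ≤ qY Y H m * qY Y H m' := Nat.div_le_self _ _
        exact_mod_cast h5
      have hL0 : (0 : ℝ) < Lm H := by exact_mod_cast hLm
      have h6 : (qY Y H m : ℝ) * (qY Y H m' : ℝ) ≤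
          ((qY Y H m : ℝ) ^ 2 + (qY Y H m' : ℝ) ^ 2) / 2 := by
        nlinarith [sq_nonneg ((qY Y H m : ℝ) - (qY Y H m' : ℝ))]
      calc 2 * (Lm H : ℝ) * (Nat.lcm (qY Y H m) (qY Y H m') : ℝ)
          ≤ 2 * (Lm H : ℝ) * (((qY Y H m : ℝ) ^ 2 + (qY Y H m' : ℝ) ^ 2) / 2) :=
            mul_le_mul_of_nonneg_left (hlc.trans h6) (by positivity)
        _ = (2 * (Lm H : ℝ) * (qY Y H m : ℝ) ^ 2 + 2 * (Lm H : ℝ) * (qY Y H m' : ℝ) ^ 2) / 2 := by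
            ring
        _ ≤ (X : ℝ) ^ (2 / 3 - ν) := by linarith

end Pool.MP_dd84fd_nt.TC
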