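import Pool.Agent.Lib.MP_dd84fd_nt.TC.HDefs
import Pool.Agent.Lib.MP_dd84fd_nt.TC.KerS

/-!
# TC-RcsH: the sum of `RC` over the windows and the classes, with a real shift, both directions

As `Rcs.lean`; `ker_s` with `p - t`, `q + t`, `n`, and with `q + t - n`, `p - t`, `0`. Constant `80`.
-/

set_option autoImplicit false

namespace Pool.MP_dd84fd_nt.TC

open Finset Pool.MP_dd84fd_nt.En Pool.MP_dd84fd_nt.IX

private theorem wk_nonneg (Δ u : ℝ) : 0 ≤ wk Δ u := by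
  unfold wk
  split_ifs
  · exact zero_le_one
  · exact sq_nonneg _

private theorem sum_wv (Δ y : ℝ) {W : ℕ} (hW : 1 ≤ W) (p : ℕ) :
    ∑ c ∈ range W, wv Δ y W (c : ZMod W) p = kf (((p : ℝ) - y) / Δ) := by
  have h1 : p % W ∈ range W := mem_range.2 (Nat.mod_lt _ hW)
  rw [sum_eq_single_of_mem (p % W) h1]
  · unfold wv
    rw [if_pos]
    rw [ZMod.natCast_mod]
  · intro c hc hne
    unfold wv
    rw [if_neg]
    intro h2
    refine hne ?_
    rw [ZMod.natCast_eq_natCast_iff'] at h2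
    rw [h2, Nat.mod_eq_of_lt (mem_range.1 hc)]

private theorem mem_UP {X R p : ℕ} : p ∈ UP X R ↔ (1 ≤ p ∧ p ≤ X) ∧ p.Prime ∧ zI X ≤ p ∧
    Nat.Coprime p R := by
  unfold UP
  rw [mem_filter, mem_Icc]

private theorem pairs_le (X : ℕ) (Δ : ℝ) (R Q n : ℕ) :
    ∑ p ∈ UP X R, ∑ q ∈ UP X R, (if p + q ≡ n [MOD Q] then wk Δ ((p : ℝ) + q - n) else 0) ≤
      LC X Δ n Q := by
  classical
  rw [← sum_product', ← sum_filter]
  unfold LC
  rw [← sum_fiberwise_of_maps_to (s := (UP X R ×ˢ UP X R).filter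
      (fun x : ℕ × ℕ => x.1 + x.2 ≡ n [MOD Q]))
    (t := (Icc 1 (2 * X)).filter (fun m => m ≡ n [MOD Q])) (g := fun x : ℕ × ℕ => x.1 + x.2)]
  · refine sum_le_sum fun m hm => ?_
    have h1 : ∀ x ∈ ((UP X R ×ˢ UP X R).filter
        (fun x : ℕ × ℕ => x.1 + x.2 ≡ n [MOD Q])).filter (fun x : ℕ × ℕ => x.1 + x.2 = m),
        wk Δ ((x.1 : ℝ) + x.2 - n) = wk Δ ((m : ℝ) - n) := by
      intro x hx
      rw [← (mem_filter.1 hx).2]
      push_cast
      rfl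
    rw [sum_congr rfl h1, sum_const, nsmul_eq_mul, mul_comm]
    refine mul_le_mul_of_nonneg_left ?_ (wk_nonneg _ _)
    rw [Nat.cast_le]
    unfold g
    refine card_le_card_of_injOn (fun x : ℕ × ℕ => x.1) ?_ ?_
    · intro x hx
      have hx' := mem_filter.1 (mem_coe.1 hx)
      have hx1 := mem_product.1 (mem_filter.1 hx'.1).1
      have hm' := hx'.2
      rw [mem_coe, mem_filter, mem_range]
      show x.1 < m + 1 ∧ Nat.Prime x.1 ∧ Nat.Prime (m - x.1)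
      refine ⟨by omega, (mem_UP.1 hx1.1).2.1, ?_⟩
      have : m - x.1 = x.2 := by omega
      rw [this]
      exact (mem_UP.1 hx1.2).2.1
    · intro x hx y hy hxy
      have h2 := (mem_filter.1 (mem_coe.1 hx)).2
      have h3 := (mem_filter.1 (mem_coe.1 hy)).2
      have h4 : x.1 = y.1 := hxy
      ext
      · exact h4
      · omega
  · intro x hx
    have hx' := mem_filter.1 hx
    have hx1 := mem_product.1 hx'.1
    have h2 := (mem_UP.1 hx1.1).1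
    have h3 := (mem_UP.1 hx1.2).1
    rw [mem_filter, mem_Icc]
    exact ⟨⟨by omega, by omega⟩, hx'.2⟩

/-- exchange of the sums -/
private theorem rc_sum (X : ℕ) (Δ : ℝ) (R : ℕ) {W : ℕ} (Q n : ℕ) (hW : 1 ≤ W) (y₁ y₂ : ℕ → ℝ)
    (hker : ∀ p q : ℕ, ∑ j ∈ JW X Δ, kf (((p : ℝ) - y₁ j) / Δ) * kf (((q : ℝ) - y₂ j) / Δ) ≤
      80 * wk Δ ((p : ℝ) + q - n)) :
    ∑ j ∈ JW X Δ, ∑ c ∈ range W, RC X Δ R W Q n (y₁ j) (y₂ j) (c : ZMod W) ≤
      80 * ((Nat.totient Q : ℝ) / ((Nat.totient W : ℝ) * (sw X Δ W) ^ 2)) * LC X Δ n Q := by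
  set K : ℝ := (Nat.totient Q : ℝ) / ((Nat.totient W : ℝ) * (sw X Δ W) ^ 2) with hK
  have hK0 : 0 ≤ K := by
    rw [hK]
    positivity
  have h1 : ∑ j ∈ JW X Δ, ∑ c ∈ range W, RC X Δ R W Q n (y₁ j) (y₂ j) (c : ZMod W) =
      K * ∑ p ∈ UP X R, ∑ q ∈ UP X R, (if p + q ≡ n [MOD Q] then
        ∑ j ∈ JW X Δ, kf (((p : ℝ) - y₁ j) / Δ) * kf (((q : ℝ) - y₂ j) / Δ) else 0) := by
    have h2 : ∀ j : ℕ, ∑ c ∈ range W, RC X Δ R W Q n (y₁ j) (y₂ j) (c : ZMod W) =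
        K * ∑ p ∈ UP X R, ∑ q ∈ UP X R, (if p + q ≡ n [MOD Q] then
          kf (((p : ℝ) - y₁ j) / Δ) * kf (((q : ℝ) - y₂ j) / Δ) else 0) := by
      intro j
      unfold RC
      rw [← mul_sum, sum_comm]
      congr 1
      refine sum_congr rfl fun p _ => ?_
      rw [sum_comm]
      refine sum_congr rfl fun q _ => ?_
      split_ifs with h
      · rw [← sum_mul, sum_wv Δ _ hW]
      · exact sum_const_zero
    rw [sum_congr rfl fun j _ => h2 j, ← mul_sum, sum_comm]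
    congr 1
    refine sum_congr rfl fun p _ => ?_
    rw [sum_comm]
    refine sum_congr rfl fun q _ => ?_
    split_ifs with h
    · rfl
    · exact sum_const_zero
  rw [h1]
  have h3 : ∑ p ∈ UP X R, ∑ q ∈ UP X R, (if p + q ≡ n [MOD Q] then
        ∑ j ∈ JW X Δ, kf (((p : ℝ) - y₁ j) / Δ) * kf (((q : ℝ) - y₂ j) / Δ) else 0) ≤
      80 * ∑ p ∈ UP X R, ∑ q ∈ UP X R,
        (if p + q ≡ n [MOD Q] then wk Δ ((p : ℝ) + q - n) else 0) := by
    rw [mul_sum]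
    refine sum_le_sum fun p _ => ?_
    rw [mul_sum]
    refine sum_le_sum fun q _ => ?_
    split_ifs with h
    · exact hker p q
    · simp
  calc K * ∑ p ∈ UP X R, ∑ q ∈ UP X R, (if p + q ≡ n [MOD Q] then
        ∑ j ∈ JW X Δ, kf (((p : ℝ) - y₁ j) / Δ) * kf (((q : ℝ) - y₂ j) / Δ) else 0)
      ≤ K * (80 * LC X Δ n Q) := by
        refine mul_le_mul_of_nonneg_left (h3.trans ?_) hK0
        exact mul_le_mul_of_nonneg_left (pairs_le X Δ R Q n) (by norm_num)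
    _ = 80 * K * LC X Δ n Q := by ring

theorem rcH_aux : ∃ C : ℝ, 0 < C ∧ ∀ (B : ℕ), 1 ≤ B → ∃ X0 : ℕ, ∀ X : ℕ, X0 ≤ X →
    ∀ R W Q n : ℕ, 1 ≤ Q → W ∣ Q → 1 ≤ W → ∀ t : ℝ,
      ∑ j ∈ JW X (Dl B X), ∑ c ∈ range W,
        RC X (Dl B X) R W Q n (t + j * Dl B X / 2) (n - t - j * Dl B X / 2) (c : ZMod W) ≤
      C * ((Nat.totient Q : ℝ) / ((Nat.totient W : ℝ) * (sw X (Dl B X) W) ^ 2)) *
        LC X (Dl B X) n Q ∧
      ∑ j ∈ JW X (Dl B X), ∑ c ∈ range W,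
        RC X (Dl B X) R W Q n (t - j * Dl B X / 2) (n - t + j * Dl B X / 2) (c : ZMod W) ≤
      C * ((Nat.totient Q : ℝ) / ((Nat.totient W : ℝ) * (sw X (Dl B X) W) ^ 2)) *
        LC X (Dl B X) n Q := by
  refine ⟨80, by norm_num, fun B _ => ⟨3, fun X hX R W Q n _ _ hW t => ?_⟩⟩
  have hX' : (3 : ℝ) ≤ X := by exact_mod_cast hX
  have hΔ : 0 < Dl B X := by
    unfold Dl
    have : 0 < Real.log X := Real.log_pos (by linarith)
    positivity
  refine ⟨rc_sum X (Dl B X) R Q n hW (fun j => t + j * Dl B X / 2)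
    (fun j => n - t - j * Dl B X / 2) ?_, rc_sum X (Dl B X) R Q n hW
    (fun j => t - j * Dl B X / 2) (fun j => n - t + j * Dl B X / 2) ?_⟩
  · intro p q
    have h := ker_s (JW X (Dl B X)) (Dl B X) ((p : ℝ) - t) ((q : ℝ) + t) n hΔ
    have e1 : (p : ℝ) - t + ((q : ℝ) + t) - n = (p : ℝ) + q - n := by ring
    rw [e1] at h
    refine le_trans (le_of_eq (sum_congr rfl fun j _ => ?_)) h
    congr 3 <;> ring
  · intro p q
    have h := ker_s (JW X (Dl B X)) (Dl B X) ((q : ℝ) + t - n) ((p : ℝ) - t) 0 hΔ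
    have e1 : (q : ℝ) + t - n + ((p : ℝ) - t) - 0 = (p : ℝ) + q - n := by ring
    rw [e1] at h
    refine le_trans (le_of_eq (sum_congr rfl fun j _ => ?_)) h
    rw [mul_comm]
    congr 3 <;> ring

theorem rcH : RcH := by
  obtain ⟨C, hC, h⟩ := rcH_aux
  refine ⟨C, hC, fun B hB => ?_⟩
  obtain ⟨X0, h0⟩ := h B hB
  exact ⟨X0, fun X hX R W Q n hQ hWQ hW t => (h0 X hX R W Q n hQ hWQ hW t).1⟩

end Pool.MP_dd84fd_nt.TC
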