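import Mathlib

/-!
# TC-Slb: Selberg's weights on the integers coprime to `R`, sharp constant

Adapted from `Lib/MP_67663b_nt/MR/SieveW.lean`.
-/

set_option autoImplicit false

namespace Pool.MP_dd84fd_nt.TC

open Finset

/-- squarefree numbers up to `D`, coprime to `R` -/
private def slb_T (R D : ℕ) : Finset ℕ :=
  (Finset.Icc 1 D).filter fun m => Squarefree m ∧ Nat.Coprime m R

private noncomputable def slb_S (R D : ℕ) : ℝ := ∑ m ∈ slb_T R D, 1 / (Nat.totient m : ℝ)

/-- `d ∑_{m ∈ T, d ∣ m} 1/φ(m) ≤ S` -/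
private theorem slb_S_part (R D d : ℕ) :
    (d : ℝ) * ∑ m ∈ (slb_T R D).filter (fun m => d ∣ m), 1 / (Nat.totient m : ℝ) ≤ slb_S R D := by
  have hSnn : 0 ≤ slb_S R D := Finset.sum_nonneg fun m _ => by positivity
  by_cases hd : Squarefree d
  swap
  · have : (slb_T R D).filter (fun m => d ∣ m) = ∅ := by
      rw [Finset.filter_eq_empty_iff]
      intro m hm hdm
      rw [slb_T, Finset.mem_filter] at hm
      exact hd (hm.2.1.squarefree_of_dvd hdm)
    rw [this, Finset.sum_empty, mul_zero]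
    exact hSnn
  have hd0 : d ≠ 0 := hd.ne_zero
  set F := (slb_T R D).filter (fun m => d ∣ m) with hF
  have hmem : ∀ m ∈ F, 1 ≤ m ∧ m ≤ D ∧ Squarefree m ∧ d ∣ m := by
    intro m hm
    rw [hF, Finset.mem_filter, slb_T, Finset.mem_filter, Finset.mem_Icc] at hm
    exact ⟨hm.1.1.1, hm.1.1.2, hm.1.2.1, hm.2⟩
  have hmemR : ∀ m ∈ F, Nat.Coprime m R := by
    intro m hm
    rw [hF, Finset.mem_filter, slb_T, Finset.mem_filter, Finset.mem_Icc] at hm
    exact hm.1.2.2
  have hcop : ∀ m ∈ F, Nat.Coprime d (m / d) := by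
    intro m hm
    obtain ⟨-, -, h3, k, rfl⟩ := hmem m hm
    rw [Nat.mul_div_cancel_left _ (Nat.pos_of_ne_zero hd0)]
    exact Nat.coprime_of_squarefree_mul h3
  have e1 : (d : ℝ) * ∑ m ∈ F, 1 / (Nat.totient m : ℝ) =
      ∑ p ∈ F ×ˢ d.divisors, 1 / (Nat.totient (p.2 * (p.1 / d)) : ℝ) := by
    rw [Finset.sum_product, Finset.mul_sum]
    refine Finset.sum_congr rfl fun m hm => ?_
    have hm' := hmem m hm
    have hc := hcop m hm
    have hφd : (0 : ℝ) < Nat.totient d := by
      have := Nat.totient_pos.2 (Nat.pos_of_ne_zero hd0)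
      exact_mod_cast this
    have hmd : d * (m / d) = m := Nat.mul_div_cancel' hm'.2.2.2
    have hk0 : 0 < m / d := Nat.pos_of_ne_zero fun h => by
      rw [h, mul_zero] at hmd
      omega
    have hφk : (0 : ℝ) < Nat.totient (m / d) := by
      have := Nat.totient_pos.2 hk0
      exact_mod_cast this
    have h1 : (Nat.totient m : ℝ) = Nat.totient d * Nat.totient (m / d) := by
      conv_lhs => rw [← hmd]
      rw [Nat.totient_mul hc]
      push_cast
      rfl
    have h2 : ∀ l ∈ d.divisors, 1 / (Nat.totient (l * (m / d)) : ℝ) =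
        (Nat.totient (d / l) : ℝ) / (Nat.totient d * Nat.totient (m / d)) := by
      intro l hl
      rw [Nat.mem_divisors] at hl
      have hcl : Nat.Coprime l (m / d) := Nat.Coprime.coprime_dvd_left hl.1 hc
      have hll : l * (d / l) = d := Nat.mul_div_cancel' hl.1
      have hc2 : Nat.Coprime l (d / l) := by
        apply Nat.coprime_of_squarefree_mul
        rw [hll]
        exact hd
      have h3 : (Nat.totient d : ℝ) = Nat.totient l * Nat.totient (d / l) := by
        conv_lhs => rw [← hll]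
        rw [Nat.totient_mul hc2]
        push_cast
        rfl
      have hl0 : 0 < l := Nat.pos_of_dvd_of_pos hl.1 (Nat.pos_of_ne_zero hd0)
      have hφl : (0 : ℝ) < Nat.totient l := by
        have := Nat.totient_pos.2 hl0
        exact_mod_cast this
      have hφdl : (0 : ℝ) < Nat.totient (d / l) := by
        have : 0 < d / l := Nat.div_pos (Nat.le_of_dvd (Nat.pos_of_ne_zero hd0) hl.1) hl0
        have := Nat.totient_pos.2 this
        exact_mod_cast this
      rw [Nat.totient_mul hcl, h3]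
      push_cast
      field_simp
    show (d : ℝ) * (1 / (Nat.totient m : ℝ)) = ∑ l ∈ d.divisors, 1 / (Nat.totient (l * (m / d)) : ℝ)
    rw [Finset.sum_congr rfl h2, ← Finset.sum_div, h1]
    have h4 : ∑ l ∈ d.divisors, (Nat.totient (d / l) : ℝ) = d := by
      have := Nat.sum_div_divisors d (fun i => (Nat.totient i : ℝ))
      rw [this]
      have h5 := Nat.sum_totient d
      exact_mod_cast h5
    rw [h4, mul_one_div]
  have hinj : Set.InjOn (fun p : ℕ × ℕ => p.2 * (p.1 / d)) (F ×ˢ d.divisors : Finset (ℕ × ℕ)) := by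
    rintro ⟨m, l⟩ hp ⟨m', l'⟩ hq h
    rw [Finset.mem_coe, Finset.mem_product, Nat.mem_divisors] at hp hq
    obtain ⟨hm, hl, -⟩ := hp
    obtain ⟨hm', hl', -⟩ := hq
    simp only at hm hl hm' hl' h
    have hc := hcop m hm
    have hc' := hcop m' hm'
    have g1 : Nat.gcd d (l * (m / d)) = l := by
      rw [Nat.Coprime.gcd_mul_right_cancel_right _ hc.symm]
      exact Nat.gcd_eq_right hl
    have g2 : Nat.gcd d (l' * (m' / d)) = l' := by
      rw [Nat.Coprime.gcd_mul_right_cancel_right _ hc'.symm]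
      exact Nat.gcd_eq_right hl'
    have hll : l = l' := by rw [← g1, ← g2, h]
    subst hll
    have hl0 : 0 < l := Nat.pos_of_dvd_of_pos hl (Nat.pos_of_ne_zero hd0)
    have hk : m / d = m' / d := Nat.eq_of_mul_eq_mul_left hl0 h
    have h1 : d * (m / d) = m := Nat.mul_div_cancel' (hmem m hm).2.2.2
    have h2 : d * (m' / d) = m' := Nat.mul_div_cancel' (hmem m' hm').2.2.2
    rw [Prod.mk.injEq]
    exact ⟨by rw [← h1, ← h2, hk], rfl⟩
  rw [e1]
  have e2 := Finset.sum_image (f := fun m : ℕ => 1 / (Nat.totient m : ℝ)) hinj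
  rw [← e2]
  refine Finset.sum_le_sum_of_subset_of_nonneg ?_ fun m _ _ => by positivity
  intro n hn
  rw [Finset.mem_image] at hn
  obtain ⟨⟨m, l⟩, hp, rfl⟩ := hn
  rw [Finset.mem_product, Nat.mem_divisors] at hp
  obtain ⟨hm, hl, -⟩ := hp
  simp only at hm hl
  have hm' := hmem m hm
  have hmd : d * (m / d) = m := Nat.mul_div_cancel' hm'.2.2.2
  have hdvd : l * (m / d) ∣ m := by
    conv_rhs => rw [← hmd]
    exact Nat.mul_dvd_mul_right hl _
  rw [slb_T, Finset.mem_filter, Finset.mem_Icc]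
  refine ⟨⟨?_, ?_⟩, hm'.2.2.1.squarefree_of_dvd hdvd, (hmemR m hm).coprime_dvd_left hdvd⟩
  · exact Nat.pos_of_dvd_of_pos hdvd (by omega)
  · exact (Nat.le_of_dvd (by omega) hdvd).trans hm'.2.1

/-- inner Moebius sum -/
private theorem slb_moebius {r m : ℕ} (hm : m ≠ 0) :
    ∑ d ∈ m.divisors.filter (fun d => r ∣ d), (ArithmeticFunction.moebius (m / d) : ℝ) =
      if r = m then 1 else 0 := by
  by_cases hr : r ∣ m
  · obtain ⟨k, rfl⟩ := hr
    have hr0 : r ≠ 0 := fun h => hm (by rw [h, zero_mul])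
    have hk0 : k ≠ 0 := fun h => hm (by rw [h, mul_zero])
    have hrp : 0 < r := Nat.pos_of_ne_zero hr0
    have e1 : (r * k).divisors.filter (fun d => r ∣ d) = k.divisors.image (fun j => r * j) := by
      ext d
      rw [Finset.mem_filter, Nat.mem_divisors, Finset.mem_image]
      constructor
      · rintro ⟨⟨h1, -⟩, j, rfl⟩
        refine ⟨j, ?_, rfl⟩
        rw [Nat.mem_divisors]
        exact ⟨Nat.dvd_of_mul_dvd_mul_left hrp h1, hk0⟩
      · rintro ⟨j, hj, rfl⟩
        rw [Nat.mem_divisors] at hj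
        exact ⟨⟨Nat.mul_dvd_mul_left r hj.1, hm⟩, Dvd.intro j rfl⟩
    rw [e1, Finset.sum_image (fun a _ b _ h => Nat.eq_of_mul_eq_mul_left hrp h)]
    have e2 : ∀ j ∈ k.divisors, (ArithmeticFunction.moebius (r * k / (r * j)) : ℝ) =
        (ArithmeticFunction.moebius (k / j) : ℝ) := by
      intro j _
      rw [Nat.mul_div_mul_left _ _ hrp]
    rw [Finset.sum_congr rfl e2]
    have e3 := Nat.sum_div_divisors k (fun i => (ArithmeticFunction.moebius i : ℝ))
    rw [e3]
    have e4 : ∑ i ∈ k.divisors, ArithmeticFunction.moebius i = if k = 1 then 1 else 0 := by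
      rw [← ArithmeticFunction.coe_mul_zeta_apply, ArithmeticFunction.moebius_mul_coe_zeta,
        ArithmeticFunction.one_apply]
    have e5 : (∑ i ∈ k.divisors, (ArithmeticFunction.moebius i : ℝ)) = if k = 1 then 1 else 0 := by
      have h := congrArg (fun z : ℤ => (z : ℝ)) e4
      simp only [Int.cast_sum] at h
      rw [h]
      split_ifs <;> simp
    rw [e5]
    by_cases h1 : k = 1
    · subst h1
      simp
    · have h2 : r ≠ r * k := by
        intro h
        apply h1
        have : r * 1 = r * k := by rw [mul_one]; exact h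
        exact (Nat.eq_of_mul_eq_mul_left hrp this).symm
      rw [if_neg h1, if_neg h2]
  · have h1 : r ≠ m := fun h => hr (by rw [h])
    have h2 : m.divisors.filter (fun d => r ∣ d) = ∅ := by
      rw [Finset.filter_eq_empty_iff]
      intro d hd h
      rw [Nat.mem_divisors] at hd
      exact hr (h.trans hd.1)
    rw [h2, Finset.sum_empty, if_neg h1]

private noncomputable def slb_rho (R D d : ℕ) : ℝ :=
  (d : ℝ) * ∑ m ∈ (slb_T R D).filter (fun m => d ∣ m),
    (ArithmeticFunction.moebius (m / d) : ℝ) *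
      ((ArithmeticFunction.moebius m : ℝ) / ((Nat.totient m : ℝ) * slb_S R D))

private theorem slb_S_pos {R D : ℕ} (hD : 1 ≤ D) : 0 < slb_S R D := by
  unfold slb_S
  refine Finset.sum_pos ?_ ?_
  · intro m hm
    rw [slb_T, Finset.mem_filter, Finset.mem_Icc] at hm
    have h : 0 < Nat.totient m := Nat.totient_pos.2 (by omega)
    have h' : (0 : ℝ) < Nat.totient m := by exact_mod_cast h
    positivity
  · refine ⟨1, ?_⟩
    rw [slb_T, Finset.mem_filter, Finset.mem_Icc]
    exact ⟨⟨le_refl _, hD⟩, squarefree_one, Nat.coprime_one_left R⟩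

private theorem slb_mu_sq {m : ℕ} (h : Squarefree m) :
    (ArithmeticFunction.moebius m : ℝ) * (ArithmeticFunction.moebius m : ℝ) = 1 := by
  rcases ArithmeticFunction.moebius_ne_zero_iff_eq_or.1
    (ArithmeticFunction.moebius_ne_zero_iff_squarefree.2 h) with h1 | h1 <;> rw [h1] <;> norm_num

private theorem slb_mu_abs (m : ℕ) : |(ArithmeticFunction.moebius m : ℝ)| ≤ 1 := by
  have h := ArithmeticFunction.abs_moebius_le_one (n := m)
  have h' : ((|ArithmeticFunction.moebius m| : ℤ) : ℝ) ≤ ((1 : ℤ) : ℝ) := by exact_mod_cast h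
  rw [Int.cast_abs, Int.cast_one] at h'
  exact h'

private theorem slb_rho_one {R D : ℕ} (hD : 1 ≤ D) : slb_rho R D 1 = 1 := by
  have hS := slb_S_pos (R := R) hD
  unfold slb_rho
  rw [Nat.cast_one, one_mul]
  have e1 : (slb_T R D).filter (fun m => 1 ∣ m) = slb_T R D := by
    rw [Finset.filter_true_of_mem]
    intro m _
    exact one_dvd m
  rw [e1]
  have e2 : ∀ m ∈ slb_T R D, (ArithmeticFunction.moebius (m / 1) : ℝ) *
      ((ArithmeticFunction.moebius m : ℝ) / ((Nat.totient m : ℝ) * slb_S R D)) =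
      (1 / (Nat.totient m : ℝ)) / slb_S R D := by
    intro m hm
    rw [slb_T, Finset.mem_filter, Finset.mem_Icc] at hm
    rw [Nat.div_one, ← mul_div_assoc, slb_mu_sq hm.2.1, div_div]
  rw [Finset.sum_congr rfl e2, ← Finset.sum_div]
  exact div_self hS.ne'

private theorem slb_rho_abs {R D : ℕ} (hD : 1 ≤ D) (d : ℕ) : |slb_rho R D d| ≤ 1 := by
  have hS := slb_S_pos (R := R) hD
  unfold slb_rho
  rw [abs_mul, Nat.abs_cast]
  have h1 : |∑ m ∈ (slb_T R D).filter (fun m => d ∣ m),
    (ArithmeticFunction.moebius (m / d) : ℝ) *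
      ((ArithmeticFunction.moebius m : ℝ) / ((Nat.totient m : ℝ) * slb_S R D))| ≤
      ∑ m ∈ (slb_T R D).filter (fun m => d ∣ m), (1 / (Nat.totient m : ℝ)) / slb_S R D := by
    refine (Finset.abs_sum_le_sum_abs _ _).trans (Finset.sum_le_sum fun m hm => ?_)
    rw [Finset.mem_filter, slb_T, Finset.mem_filter, Finset.mem_Icc] at hm
    have hφ : 0 < Nat.totient m := Nat.totient_pos.2 (by omega)
    have hφ' : (0 : ℝ) < Nat.totient m := by exact_mod_cast hφ
    rw [abs_mul, abs_div, abs_of_pos (mul_pos hφ' hS), div_div]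
    calc |(ArithmeticFunction.moebius (m / d) : ℝ)| *
        (|(ArithmeticFunction.moebius m : ℝ)| / ((Nat.totient m : ℝ) * slb_S R D)) ≤
        1 * (1 / ((Nat.totient m : ℝ) * slb_S R D)) := by
          refine mul_le_mul (slb_mu_abs _) ?_ (by positivity) zero_le_one
          exact div_le_div_of_nonneg_right (slb_mu_abs _) (by positivity)
      _ = _ := one_mul _
  have h2 := slb_S_part R D d
  rw [← Finset.sum_div] at h1
  calc (d : ℝ) * _ ≤ (d : ℝ) * ((∑ m ∈ (slb_T R D).filter (fun m => d ∣ m),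
        1 / (Nat.totient m : ℝ)) / slb_S R D) := mul_le_mul_of_nonneg_left h1 (Nat.cast_nonneg d)
    _ = ((d : ℝ) * ∑ m ∈ (slb_T R D).filter (fun m => d ∣ m), 1 / (Nat.totient m : ℝ)) /
        slb_S R D := by rw [mul_div_assoc]
    _ ≤ 1 := by
      rw [div_le_one hS]
      exact h2

private theorem slb_rho_supp {R D d : ℕ} (h : slb_rho R D d ≠ 0) :
    1 ≤ d ∧ d ≤ D ∧ Nat.Coprime d R := by
  unfold slb_rho at h
  have hd0 : d ≠ 0 := by
    rintro rfl
    exact h (by rw [Nat.cast_zero, zero_mul])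
  by_contra hcon
  apply h
  have e : (slb_T R D).filter (fun m => d ∣ m) = ∅ := by
    rw [Finset.filter_eq_empty_iff]
    intro m hm hdm
    rw [slb_T, Finset.mem_filter, Finset.mem_Icc] at hm
    have h1 := Nat.le_of_dvd (by omega) hdm
    exact hcon ⟨Nat.one_le_iff_ne_zero.2 hd0, h1.trans hm.1.2, hm.2.2.coprime_dvd_left hdm⟩
  rw [e, Finset.sum_empty, mul_zero]

private theorem slb_inner {R D r : ℕ} :
    ∑ d ∈ (Finset.Icc 1 D).filter (fun d => r ∣ d), slb_rho R D d / (d : ℝ) =
      if r ∈ slb_T R D then (ArithmeticFunction.moebius r : ℝ) / ((Nat.totient r : ℝ) * slb_S R D)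
      else 0 := by
  have e1 : ∀ d ∈ (Finset.Icc 1 D).filter (fun d => r ∣ d), slb_rho R D d / (d : ℝ) =
      ∑ m ∈ slb_T R D, if d ∣ m then (ArithmeticFunction.moebius (m / d) : ℝ) *
      ((ArithmeticFunction.moebius m : ℝ) / ((Nat.totient m : ℝ) * slb_S R D)) else 0 := by
    intro d hd
    rw [Finset.mem_filter, Finset.mem_Icc] at hd
    have hd0 : (d : ℝ) ≠ 0 := by
      have : d ≠ 0 := by omega
      exact_mod_cast this
    unfold slb_rho
    rw [mul_div_assoc, mul_comm, div_mul_cancel₀ _ hd0, Finset.sum_filter]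
  rw [Finset.sum_congr rfl e1, Finset.sum_comm]
  have e2 : ∀ m ∈ slb_T R D, (∑ d ∈ (Finset.Icc 1 D).filter (fun d => r ∣ d),
      if d ∣ m then (ArithmeticFunction.moebius (m / d) : ℝ) *
      ((ArithmeticFunction.moebius m : ℝ) / ((Nat.totient m : ℝ) * slb_S R D)) else 0) =
      if r = m then (ArithmeticFunction.moebius m : ℝ) / ((Nat.totient m : ℝ) * slb_S R D) else 0 := by
    intro m hm
    rw [slb_T, Finset.mem_filter, Finset.mem_Icc] at hm
    have hm0 : m ≠ 0 := by omega
    have e3 : ((Finset.Icc 1 D).filter (fun d => r ∣ d)).filter (fun d => d ∣ m) =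
        m.divisors.filter (fun d => r ∣ d) := by
      ext d
      simp only [Finset.mem_filter, Finset.mem_Icc, Nat.mem_divisors]
      constructor
      · rintro ⟨⟨-, h2⟩, h3⟩
        exact ⟨⟨h3, hm0⟩, h2⟩
      · rintro ⟨⟨h1, -⟩, h2⟩
        have := Nat.le_of_dvd (by omega) h1
        have := Nat.pos_of_dvd_of_pos h1 (by omega)
        exact ⟨⟨⟨by omega, by omega⟩, h2⟩, h1⟩
    rw [← Finset.sum_filter, e3, ← Finset.sum_mul, slb_moebius hm0]
    split_ifs <;> simp
  rw [Finset.sum_congr rfl e2, Finset.sum_ite_eq]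

private theorem slb_form (D : ℕ) (ρ : ℕ → ℝ) :
    ∑ d ∈ Finset.Icc 1 D, ∑ e ∈ Finset.Icc 1 D, ρ d * ρ e / (Nat.lcm d e : ℝ) =
      ∑ r ∈ Finset.Icc 1 D, (Nat.totient r : ℝ) *
        (∑ d ∈ (Finset.Icc 1 D).filter (fun d => r ∣ d), ρ d / (d : ℝ)) ^ 2 := by
  have e1 : ∀ d ∈ Finset.Icc 1 D, ∀ e ∈ Finset.Icc 1 D, ρ d * ρ e / (Nat.lcm d e : ℝ) =
      ∑ r ∈ Finset.Icc 1 D, (Nat.totient r : ℝ) *
        ((if r ∣ d then ρ d / (d : ℝ) else 0) * (if r ∣ e then ρ e / (e : ℝ) else 0)) := by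
    intro d hd e he
    rw [Finset.mem_Icc] at hd he
    have hd0 : (0 : ℝ) < d := by exact_mod_cast hd.1
    have he0 : (0 : ℝ) < e := by exact_mod_cast he.1
    have hg : 0 < Nat.gcd d e := Nat.gcd_pos_of_pos_left _ hd.1
    have hl : 0 < Nat.lcm d e := Nat.lcm_pos hd.1 he.1
    have hg' : (0 : ℝ) < (Nat.gcd d e : ℝ) := by exact_mod_cast hg
    have hl' : (0 : ℝ) < (Nat.lcm d e : ℝ) := by exact_mod_cast hl
    have h1 : (Nat.gcd d e : ℝ) * (Nat.lcm d e : ℝ) = d * e := by
      exact_mod_cast Nat.gcd_mul_lcm d e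
    have h2 : ∑ r ∈ Finset.Icc 1 D, (Nat.totient r : ℝ) *
        ((if r ∣ d then ρ d / (d : ℝ) else 0) * (if r ∣ e then ρ e / (e : ℝ) else 0)) =
        (∑ r ∈ (Nat.gcd d e).divisors, (Nat.totient r : ℝ)) * (ρ d / d * (ρ e / e)) := by
      rw [Finset.sum_mul]
      have h3 : (Nat.gcd d e).divisors = (Finset.Icc 1 D).filter (fun r => r ∣ d ∧ r ∣ e) := by
        ext r
        rw [Nat.mem_divisors, Finset.mem_filter, Finset.mem_Icc, Nat.dvd_gcd_iff]
        constructor
        · rintro ⟨⟨h4, h5⟩, -⟩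
          have := Nat.le_of_dvd (by omega) h4
          have := Nat.pos_of_dvd_of_pos h4 (by omega)
          exact ⟨⟨by omega, by omega⟩, h4, h5⟩
        · rintro ⟨-, h4⟩
          exact ⟨h4, by omega⟩
      rw [h3, Finset.sum_filter]
      refine Finset.sum_congr rfl fun r _ => ?_
      by_cases h4 : r ∣ d <;> by_cases h5 : r ∣ e <;> simp [h4, h5]
    have h3 : ∑ r ∈ (Nat.gcd d e).divisors, (Nat.totient r : ℝ) = (Nat.gcd d e : ℝ) := by
      exact_mod_cast Nat.sum_totient (Nat.gcd d e)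
    rw [h2, h3, div_mul_div_comm, ← h1]
    field_simp
  rw [Finset.sum_congr rfl fun d hd => Finset.sum_congr rfl fun e he => e1 d hd e he]
  have e2 : ∀ d ∈ Finset.Icc 1 D, (∑ e ∈ Finset.Icc 1 D, ∑ r ∈ Finset.Icc 1 D, (Nat.totient r : ℝ) *
        ((if r ∣ d then ρ d / (d : ℝ) else 0) * (if r ∣ e then ρ e / (e : ℝ) else 0))) =
      ∑ r ∈ Finset.Icc 1 D, (Nat.totient r : ℝ) * ((if r ∣ d then ρ d / (d : ℝ) else 0) *
        ∑ e ∈ Finset.Icc 1 D, (if r ∣ e then ρ e / (e : ℝ) else 0)) := by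
    intro d _
    rw [Finset.sum_comm]
    refine Finset.sum_congr rfl fun r _ => ?_
    rw [Finset.mul_sum, Finset.mul_sum]
  rw [Finset.sum_congr rfl e2, Finset.sum_comm]
  refine Finset.sum_congr rfl fun r _ => ?_
  rw [← Finset.mul_sum, ← Finset.sum_mul, Finset.sum_filter, sq]

/-! ### the lower bound for `S` -/

/-- the product of the primes dividing `n` and not dividing `R` -/
private def slb_r (R n : ℕ) : ℕ := ∏ p ∈ n.primeFactors with ¬ p ∣ R, p

private theorem slb_r_dvd (R n : ℕ) : slb_r R n ∣ n :=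
  (Finset.prod_dvd_prod_of_subset _ _ _ (Finset.filter_subset _ _)).trans
    (Nat.prod_primeFactors_dvd n)

private theorem slb_r_pf (R n : ℕ) :
    (slb_r R n).primeFactors = n.primeFactors.filter fun p => ¬ p ∣ R :=
  Nat.primeFactors_prod fun _ hp => Nat.prime_of_mem_primeFactors (Finset.mem_filter.1 hp).1

private theorem slb_r_sqf (R n : ℕ) : Squarefree (slb_r R n) := by
  unfold slb_r
  refine Finset.squarefree_prod_of_pairwise_isCoprime ?_ ?_
  · intro p hp q hq hpq
    have hp' := Nat.prime_of_mem_primeFactors (Finset.mem_filter.1 (Finset.mem_coe.1 hp)).1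
    have hq' := Nat.prime_of_mem_primeFactors (Finset.mem_filter.1 (Finset.mem_coe.1 hq)).1
    exact Nat.coprime_iff_isRelPrime.1 ((Nat.coprime_primes hp' hq').2 hpq)
  · intro p hp
    exact (Nat.prime_of_mem_primeFactors (Finset.mem_filter.1 hp).1).prime.squarefree

private theorem slb_r_cop (R n : ℕ) : Nat.Coprime (slb_r R n) R := by
  unfold slb_r
  refine Nat.Coprime.prod_left fun p hp => ?_
  rw [Finset.mem_filter] at hp
  exact (Nat.Prime.coprime_iff_not_dvd (Nat.prime_of_mem_primeFactors hp.1)).2 hp.2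

private theorem slb_r_mem {R D n : ℕ} (hn : n ∈ Finset.Icc 1 D) : slb_r R n ∈ slb_T R D := by
  rw [Finset.mem_Icc] at hn
  rw [slb_T, Finset.mem_filter, Finset.mem_Icc]
  have h1 := slb_r_dvd R n
  exact ⟨⟨Nat.pos_of_dvd_of_pos h1 (by omega), (Nat.le_of_dvd (by omega) h1).trans hn.2⟩,
    slb_r_sqf R n, slb_r_cop R n⟩

private noncomputable def slb_inv : ℕ →* ℝ where
  toFun n := ((n : ℝ))⁻¹
  map_one' := by simp
  map_mul' m n := by push_cast; rw [mul_inv]

private theorem slb_prod {n : ℕ} (hn : n ≠ 0) :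
    HasSum ((Nat.factoredNumbers n.primeFactors).indicator fun m : ℕ => ((m : ℝ))⁻¹)
      ((n : ℝ) / Nat.totient n) := by
  have h1 := (EulerProduct.summable_and_hasSum_factoredNumbers_prod_filter_prime_geometric
    (f := slb_inv) (by
      intro p hp
      have h2 : (1 : ℝ) < p := by exact_mod_cast hp.one_lt
      show ‖((p : ℝ))⁻¹‖ < 1
      rw [norm_inv, Real.norm_of_nonneg (by linarith)]
      exact inv_lt_one_of_one_lt₀ h2) n.primeFactors).2
  have h2 : (∏ p ∈ n.primeFactors with Nat.Prime p, (1 - slb_inv p)⁻¹) = (n : ℝ) / Nat.totient n := by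
    have h3 : n.primeFactors.filter (fun p => Nat.Prime p) = n.primeFactors := by
      rw [Finset.filter_true_of_mem]
      exact fun p hp => Nat.prime_of_mem_primeFactors hp
    rw [h3, Finset.prod_inv_distrib]
    have h4 := Nat.totient_eq_mul_prod_factors n
    have h5 : ((Nat.totient n : ℚ) : ℝ) = ((n * ∏ p ∈ n.primeFactors, (1 - (p : ℚ)⁻¹) : ℚ) : ℝ) := by
      rw [h4]
    push_cast at h5
    have h6 : ∏ p ∈ n.primeFactors, (1 - slb_inv p) = ∏ p ∈ n.primeFactors, (1 - ((p : ℝ))⁻¹) := rfl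
    rw [h6]
    have h7 : (0 : ℝ) < Nat.totient n := by
      have := Nat.totient_pos.2 (Nat.pos_of_ne_zero hn)
      exact_mod_cast this
    have h8 : (n : ℝ) ≠ 0 := by exact_mod_cast hn
    rw [eq_div_iff h7.ne', h5]
    have h9 : (∏ p ∈ n.primeFactors, (1 - ((p : ℝ))⁻¹)) ≠ 0 := by
      intro h10
      rw [h10, mul_zero] at h5
      exact h7.ne' h5
    rw [mul_comm, mul_assoc, mul_inv_cancel₀ h9, mul_one]
  rw [h2] at h1
  exact hasSum_subtype_iff_indicator.1 h1

private theorem slb_fib {R D r : ℕ} (hR : 1 ≤ R) (hr : r ∈ slb_T R D) :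
    ∑ n ∈ Finset.Icc 1 D with slb_r R n = r, 1 / (n : ℝ) ≤
      (R : ℝ) / Nat.totient R * (1 / (Nat.totient r : ℝ)) := by
  classical
  rw [slb_T, Finset.mem_filter, Finset.mem_Icc] at hr
  obtain ⟨⟨hr1, hr2⟩, hsq, hcop⟩ := hr
  have hr0 : (0 : ℝ) < r := by exact_mod_cast hr1
  have hRr : R * r ≠ 0 := Nat.mul_ne_zero (by omega) (by omega)
  have hdvd : ∀ n ∈ (Finset.Icc 1 D).filter (fun n => slb_r R n = r), n = r * (n / r) := by
    intro n hn
    rw [Finset.mem_filter] at hn
    have := slb_r_dvd R n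
    rw [hn.2] at this
    exact (Nat.mul_div_cancel' this).symm
  have h1 : ∑ n ∈ Finset.Icc 1 D with slb_r R n = r, 1 / (n : ℝ) =
      1 / (r : ℝ) * ∑ m ∈ ((Finset.Icc 1 D).filter (fun n => slb_r R n = r)).image (fun n => n / r),
        ((Nat.factoredNumbers (R * r).primeFactors).indicator (fun m : ℕ => ((m : ℝ))⁻¹) m) := by
    rw [Finset.sum_image, Finset.mul_sum]
    · refine Finset.sum_congr rfl fun n hn => ?_
      have hn' := hdvd n hn
      rw [Finset.mem_filter, Finset.mem_Icc] at hn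
      have hmem : n / r ∈ Nat.factoredNumbers (R * r).primeFactors := by
        rw [Nat.mem_factoredNumbers]
        have hnr : n / r ≠ 0 := by
          intro h0
          rw [h0, mul_zero] at hn'
          omega
        refine ⟨hnr, fun p hp => ?_⟩
        rw [Nat.mem_primeFactorsList hnr] at hp
        rw [Nat.primeFactors_mul (by omega) (by omega), Finset.mem_union]
        by_cases hpR : p ∣ R
        · exact Or.inl (Nat.mem_primeFactors.2 ⟨hp.1, hpR, by omega⟩)
        · right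
          rw [← hn.2, slb_r_pf, Finset.mem_filter]
          exact ⟨Nat.mem_primeFactors.2 ⟨hp.1, hp.2.trans (Nat.div_dvd_of_dvd (by
            have := slb_r_dvd R n
            rwa [hn.2] at this)), by omega⟩, hpR⟩
      rw [Set.indicator_of_mem hmem]
      conv_lhs => rw [hn']
      push_cast
      rw [one_div, mul_inv, one_div]
    · intro a ha b hb hab
      rw [hdvd a ha, hdvd b hb]
      simp only at hab
      rw [hab]
  rw [h1]
  have h2 := sum_le_hasSum (((Finset.Icc 1 D).filter (fun n => slb_r R n = r)).image (fun n => n / r))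
    (fun i _ => Set.indicator_nonneg (fun m _ => by positivity) i) (slb_prod hRr)
  have h3 : ((R * r : ℕ) : ℝ) / (Nat.totient (R * r) : ℝ) =
      (R : ℝ) / Nat.totient R * (r / Nat.totient r) := by
    rw [Nat.totient_mul hcop.symm]
    push_cast
    rw [mul_div_mul_comm]
  rw [h3] at h2
  calc _ ≤ 1 / (r : ℝ) * ((R : ℝ) / Nat.totient R * (r / Nat.totient r)) :=
        mul_le_mul_of_nonneg_left h2 (by positivity)
    _ = _ := by
      field_simp

private theorem slb_S_ge {R D : ℕ} (hR : 1 ≤ R) :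
    Real.log D ≤ (R : ℝ) / Nat.totient R * slb_S R D := by
  have h1 : Real.log D ≤ ∑ n ∈ Finset.Icc 1 D, 1 / (n : ℝ) := by
    rcases Nat.eq_zero_or_pos D with rfl | hD
    · simp
    · have h := log_add_one_le_harmonic D
      have h' : Real.log D ≤ Real.log ((D + 1 : ℕ) : ℝ) := by
        apply Real.log_le_log (by exact_mod_cast hD)
        push_cast
        linarith
      have e : ((harmonic D : ℚ) : ℝ) = ∑ n ∈ Finset.Icc 1 D, 1 / (n : ℝ) := by
        rw [harmonic_eq_sum_Icc]
        push_cast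
        exact Finset.sum_congr rfl fun n _ => by rw [one_div]
      rw [e] at h
      push_cast at h h'
      linarith
  refine h1.trans ?_
  rw [← Finset.sum_fiberwise_of_maps_to (g := slb_r R) (t := slb_T R D) (fun n hn => slb_r_mem hn),
    slb_S, Finset.mul_sum]
  exact Finset.sum_le_sum fun r hr => slb_fib hR hr

theorem slb (R D : ℕ) (hR : 1 ≤ R) (hD : 2 ≤ D) : ∃ l : ℕ → ℝ, l 1 = 1 ∧ (∀ d, |l d| ≤ 1) ∧
    (∀ d, l d ≠ 0 → 1 ≤ d ∧ d ≤ D ∧ Nat.Coprime d R) ∧
    ∑ d ∈ Icc 1 D, ∑ e ∈ Icc 1 D, l d * l e / (Nat.lcm d e : ℝ) ≤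
      (R : ℝ) / Nat.totient R / Real.log D := by
  refine ⟨slb_rho R D, slb_rho_one (by omega), slb_rho_abs (by omega),
    fun d hd => slb_rho_supp hd, ?_⟩
  have hS := slb_S_pos (R := R) (D := D) (by omega)
  rw [slb_form]
  have e1 : ∑ r ∈ Finset.Icc 1 D, (Nat.totient r : ℝ) *
        (∑ d ∈ (Finset.Icc 1 D).filter (fun d => r ∣ d), slb_rho R D d / (d : ℝ)) ^ 2 =
      ∑ r ∈ slb_T R D, (1 / (Nat.totient r : ℝ)) / slb_S R D ^ 2 := by
    rw [slb_T, Finset.sum_filter]
    refine Finset.sum_congr rfl fun r hr => ?_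
    rw [slb_inner]
    rw [Finset.mem_Icc] at hr
    by_cases h : Squarefree r ∧ Nat.Coprime r R
    · have h1 : r ∈ slb_T R D := by
        rw [slb_T, Finset.mem_filter, Finset.mem_Icc]
        exact ⟨hr, h⟩
      rw [if_pos h1, if_pos h]
      have hφ : 0 < Nat.totient r := Nat.totient_pos.2 (by omega)
      have hφ' : (0 : ℝ) < Nat.totient r := by exact_mod_cast hφ
      rw [div_pow, sq (ArithmeticFunction.moebius r : ℝ), slb_mu_sq h.1]
      field_simp
    · have h1 : r ∉ slb_T R D := by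
        rw [slb_T, Finset.mem_filter]
        exact fun h' => h h'.2
      rw [if_neg h1, if_neg h]
      simp
  rw [e1, ← Finset.sum_div]
  change slb_S R D / slb_S R D ^ 2 ≤ (R : ℝ) / Nat.totient R / Real.log D
  have hlog : 0 < Real.log D := Real.log_pos (by exact_mod_cast hD)
  rw [div_le_div_iff₀ (by positivity) hlog]
  have h := slb_S_ge (R := R) (D := D) hR
  nlinarith

end Pool.MP_dd84fd_nt.TC
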