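import Pool.Agent.Lib.MP_dd84fd_nt.TC.Abk
import Pool.Agent.Lib.MP_dd84fd_nt.LX.PwPV

/-!
# TC-SvO: the off-diagonal terms of the sieve (Polya-Vinogradov)

`n = e m`.  If `c` is not a unit then all terms vanish (`W | R`, `ψ(n) ≠ 0` implies `(n, R) = 1`).  Otherwise
`1_{n ≡ c} = (1/φ(W)) ∑_ω ω̄(c) ω(n)` over the characters modulo `W`, and `ω ψ` (as a character modulo
`R`) is not principal, so the partial sums `∑_{n ≤ k, e | n} (ωψ)(n) = (ωψ)(e) ∑_{m ≤ k/e} (ωψ)(m)` are at most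
`C √R d(R) (1 + log R)` by `LXP.pv_sum` with `θ = 0` (see LX/PwPV.lean).  Then `abk`.
-/

set_option autoImplicit false

namespace Pool.MP_dd84fd_nt.TC

open Finset

private theorem svo_mult {R : ℕ} (Ψ : DirichletCharacter ℂ R) (e k : ℕ) (he : 1 ≤ e) :
    ∑ n ∈ (Icc 1 k).filter (fun n => e ∣ n), Ψ (n : ZMod R) =
      Ψ (e : ZMod R) * ∑ m ∈ Icc 1 (k / e), Ψ (m : ZMod R) := by
  rw [Finset.mul_sum]
  symm
  refine Finset.sum_bij' (fun m _ => e * m) (fun n _ => n / e) ?_ ?_ ?_ ?_ ?_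
  · intro m hm
    rw [Finset.mem_Icc] at hm
    rw [Finset.mem_filter, Finset.mem_Icc]
    refine ⟨⟨?_, ?_⟩, Dvd.intro _ rfl⟩
    · exact Nat.mul_pos he hm.1
    · have := (Nat.le_div_iff_mul_le he).1 hm.2
      rw [mul_comm]
      exact this
  · intro n hn
    rw [Finset.mem_filter, Finset.mem_Icc] at hn
    rw [Finset.mem_Icc]
    exact ⟨Nat.div_pos (Nat.le_of_dvd hn.1.1 hn.2) he, Nat.div_le_div_right hn.1.2⟩
  · intro m hm
    exact Nat.mul_div_cancel_left m he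
  · intro n hn
    rw [Finset.mem_filter] at hn
    exact Nat.mul_div_cancel' hn.2
  · intro m hm
    rw [Nat.cast_mul, map_mul]

private theorem svo_level {R W : ℕ} (hW : W ∣ R) (ψ : DirichletCharacter ℂ R)
    (ω : DirichletCharacter ℂ W) (n : ℕ) :
    ω (n : ZMod W) * ψ (n : ZMod R) =
      (ψ * DirichletCharacter.changeLevel hW ω) (n : ZMod R) := by
  rw [MulChar.mul_apply]
  by_cases h : IsUnit (n : ZMod R)
  · obtain ⟨u, hu⟩ := h
    have h1 : DirichletCharacter.changeLevel hW ω (n : ZMod R) = ω (n : ZMod W) := by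
      rw [← hu, DirichletCharacter.changeLevel_eq_cast_of_dvd, hu, ZMod.cast_natCast hW]
    rw [h1, mul_comm]
  · rw [MulChar.map_nonunit _ h]
    simp

private theorem svo_part {R W : ℕ} [NeZero R] [NeZero W] (hW : W ∣ R) (e k : ℕ) (he : 1 ≤ e)
    (c : ZMod W) (ψ : DirichletCharacter ℂ R) (Bd : ℝ) (hB0 : 0 ≤ Bd)
    (hB : ∀ (ω : DirichletCharacter ℂ W) (K : ℕ),
      ‖∑ m ∈ Icc 1 K, (ψ * DirichletCharacter.changeLevel hW ω) (m : ZMod R)‖ ≤ Bd) :
    ‖∑ n ∈ Icc 1 k, (if e ∣ n ∧ (n : ZMod W) = c then ψ (n : ZMod R) else 0)‖ ≤ Bd := by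
  classical
  by_cases hc : IsUnit c
  · have hphi : (0 : ℝ) < (W.totient : ℝ) := by
      exact_mod_cast Nat.totient_pos.2 (Nat.pos_of_ne_zero (NeZero.ne W))
    have key : (W.totient : ℂ) *
        ∑ n ∈ Icc 1 k, (if e ∣ n ∧ (n : ZMod W) = c then ψ (n : ZMod R) else 0) =
        ∑ ω : DirichletCharacter ℂ W, ω c⁻¹ * ((ψ * DirichletCharacter.changeLevel hW ω) (e : ZMod R)
          * ∑ m ∈ Icc 1 (k / e), (ψ * DirichletCharacter.changeLevel hW ω) (m : ZMod R)) := by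
      have h1 : ∀ ω : DirichletCharacter ℂ W,
          ω c⁻¹ * ((ψ * DirichletCharacter.changeLevel hW ω) (e : ZMod R)
          * ∑ m ∈ Icc 1 (k / e), (ψ * DirichletCharacter.changeLevel hW ω) (m : ZMod R)) =
          ∑ n ∈ (Icc 1 k).filter (fun n => e ∣ n), (ω c⁻¹ * ω (n : ZMod W)) * ψ (n : ZMod R) := by
        intro ω
        rw [← svo_mult _ e k he, Finset.mul_sum]
        refine Finset.sum_congr rfl fun n _ => ?_
        rw [mul_assoc, svo_level hW ψ ω n]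
      rw [Finset.sum_congr rfl fun ω _ => h1 ω, Finset.sum_comm, Finset.mul_sum,
        Finset.sum_filter]
      refine Finset.sum_congr rfl fun n _ => ?_
      by_cases hen : e ∣ n
      · rw [if_pos hen, ← Finset.sum_mul, DirichletCharacter.sum_char_inv_mul_char_eq ℂ hc]
        by_cases hn : (n : ZMod W) = c
        · rw [if_pos ⟨hen, hn⟩, if_pos hn.symm]
        · rw [if_neg (fun h => hn h.2), if_neg (fun h => hn h.symm)]
          simp
      · rw [if_neg hen, if_neg (fun h => hen h.1), mul_zero]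
    have h2 : ‖(W.totient : ℂ) *
        ∑ n ∈ Icc 1 k, (if e ∣ n ∧ (n : ZMod W) = c then ψ (n : ZMod R) else 0)‖ ≤
        (W.totient : ℝ) * Bd := by
      rw [key]
      refine (norm_sum_le _ _).trans ?_
      have h3 : ∀ ω ∈ (Finset.univ : Finset (DirichletCharacter ℂ W)),
          ‖ω c⁻¹ * ((ψ * DirichletCharacter.changeLevel hW ω) (e : ZMod R)
          * ∑ m ∈ Icc 1 (k / e), (ψ * DirichletCharacter.changeLevel hW ω) (m : ZMod R))‖ ≤ Bd := by
        intro ω _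
        rw [norm_mul, norm_mul]
        have a1 := DirichletCharacter.norm_le_one ω c⁻¹
        have a2 := DirichletCharacter.norm_le_one (ψ * DirichletCharacter.changeLevel hW ω)
          (e : ZMod R)
        have a3 := hB ω (k / e)
        calc _ ≤ 1 * (1 * Bd) := by gcongr
          _ = Bd := by ring
      refine (Finset.sum_le_sum h3).trans ?_
      rw [Finset.sum_const, nsmul_eq_mul, Finset.card_univ, ← Nat.card_eq_fintype_card,
        DirichletCharacter.card_eq_totient_of_hasEnoughRootsOfUnity ℂ W]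
    rw [norm_mul, Complex.norm_natCast] at h2
    exact le_of_mul_le_mul_left h2 hphi
  · have h1 : ∑ n ∈ Icc 1 k, (if e ∣ n ∧ (n : ZMod W) = c then ψ (n : ZMod R) else 0) = 0 := by
      refine Finset.sum_eq_zero fun n _ => ?_
      by_cases hn : e ∣ n ∧ (n : ZMod W) = c
      · rw [if_pos hn]
        apply MulChar.map_nonunit
        intro hu
        apply hc
        rw [← hn.2, ZMod.isUnit_iff_coprime]
        rw [ZMod.isUnit_iff_coprime] at hu
        exact Nat.Coprime.coprime_dvd_right hW hu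
      · rw [if_neg hn]
    rw [h1, norm_zero]
    exact hB0

open Classical in
theorem svo : ∃ C : ℝ, 0 < C ∧ ∀ (R W e N : ℕ) (Δ y : ℝ) (c : ZMod W)
    (ψ : DirichletCharacter ℂ R), 1 ≤ R → ∀ hW : W ∣ R, 1 ≤ e → 0 < Δ →
    (∀ ω : DirichletCharacter ℂ W, ψ * DirichletCharacter.changeLevel hW ω ≠ 1) →
    ‖∑ n ∈ (Icc 1 N).filter (fun n : ℕ => e ∣ n ∧ (n : ZMod W) = c),
        ((kf (((n : ℝ) - y) / Δ) : ℝ) : ℂ) * ψ (n : ZMod R)‖ ≤
      C * (1 + N / Δ) * (Real.sqrt R * R.divisors.card * (1 + Real.log R)) := by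
  obtain ⟨C, hC, H⟩ := LXP.pv_sum
  refine ⟨4 * C, by positivity, fun R W e N Δ y c ψ hR hW he hΔ hψ => ?_⟩
  haveI : NeZero R := ⟨by omega⟩
  haveI : NeZero W := ⟨fun h => by rw [h, zero_dvd_iff] at hW; omega⟩
  have hlog : 0 ≤ Real.log (R : ℝ) := Real.log_natCast_nonneg R
  set Bd : ℝ := C * (Real.sqrt R * R.divisors.card * (1 + Real.log R)) with hBd
  have hB0 : 0 ≤ Bd := by rw [hBd]; positivity
  have hB : ∀ (ω : DirichletCharacter ℂ W) (K : ℕ),
      ‖∑ m ∈ Icc 1 K, (ψ * DirichletCharacter.changeLevel hW ω) (m : ZMod R)‖ ≤ Bd := by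
    intro ω K
    have h1 := H R (ψ * DirichletCharacter.changeLevel hW ω) (hψ ω) K 0
    have h2 : ∑ k ∈ Icc 1 K, (ψ * DirichletCharacter.changeLevel hW ω) (k : ZMod R) *
        Pool.MP_67663b_nt.Odd.ee ((k : ℝ) * 0) =
        ∑ m ∈ Icc 1 K, (ψ * DirichletCharacter.changeLevel hW ω) (m : ZMod R) := by
      refine Finset.sum_congr rfl fun m _ => ?_
      have h3 : Pool.MP_67663b_nt.Odd.ee ((m : ℝ) * 0) = 1 := by
        rw [mul_zero]
        simp [Pool.MP_67663b_nt.Odd.ee]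
      rw [h3, mul_one]
    rw [h2] at h1
    refine h1.trans (le_of_eq ?_)
    rw [hBd, abs_zero]
    ring
  have h1 := abk (fun n : ℕ => if e ∣ n ∧ (n : ZMod W) = c then ψ (n : ZMod R) else 0) N Δ y Bd hΔ
    (fun k _ => svo_part hW e k he c ψ Bd hB0 hB)
  have h2 : ∑ n ∈ (Icc 1 N).filter (fun n : ℕ => e ∣ n ∧ (n : ZMod W) = c),
        ((kf (((n : ℝ) - y) / Δ) : ℝ) : ℂ) * ψ (n : ZMod R) =
      ∑ n ∈ Icc 1 N, ((kf (((n : ℝ) - y) / Δ) : ℝ) : ℂ) *
        (if e ∣ n ∧ (n : ZMod W) = c then ψ (n : ZMod R) else 0) := by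
    rw [Finset.sum_filter]
    refine Finset.sum_congr rfl fun n _ => ?_
    by_cases hn : e ∣ n ∧ (n : ZMod W) = c
    · rw [if_pos hn, if_pos hn]
    · rw [if_neg hn, if_neg hn, mul_zero]
  rw [h2]
  refine h1.trans (le_of_eq ?_)
  rw [hBd]
  ring

end Pool.MP_dd84fd_nt.TC
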