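import Pool.Agent.Lib.MP_dd84fd_nt.TC.Abk

/-!
# TC-SvS: the diagonal terms of the sieve

For `n ≡ c (mod W)`, `c` a unit, the condition `(n, R) = 1` is `∑ μ(f)` over the `f | n`, `f | R`,
`(f, W) = 1`.  For each `f` the `n` form one residue class modulo `e f W` (`e`, `f`, `W` are pairwise
coprime since `(e, R) = 1`); the number of its elements in `[1, k]` is `k/(efW) + O(1)`, and
`∑_{f | R, (f,W)=1} μ(f)/f = ∏_{p | R, p ∤ W} (1 - 1/p) = (φ(R)/R) (W/φ(W))`.  So the partial sums of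
`1_{e | n, n ≡ c, (n,R)=1} - (φ(R)/R)/(φ(W) e)` are at most `2 d(R)`; `abk_real`.
-/

set_option autoImplicit false

namespace Pool.MP_dd84fd_nt.TC

open Finset

private theorem svs_moebius (P : ℕ) (hP : 0 < P) (n : ℕ) :
    ∑ d ∈ P.divisors with d ∣ n, (ArithmeticFunction.moebius d : ℝ) =
      if Nat.Coprime n P then 1 else 0 := by
  have h1 : P.divisors.filter (fun d => d ∣ n) = (Nat.gcd n P).divisors := by
    ext d
    simp only [mem_filter, Nat.mem_divisors]
    constructor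
    · rintro ⟨⟨h1, h2⟩, h3⟩
      exact ⟨Nat.dvd_gcd h3 h1, (Nat.gcd_pos_of_pos_right n hP).ne'⟩
    · rintro ⟨h1, -⟩
      exact ⟨⟨h1.trans (Nat.gcd_dvd_right n P), hP.ne'⟩, h1.trans (Nat.gcd_dvd_left n P)⟩
  rw [h1]
  have h2 := congrArg (fun f : ArithmeticFunction ℝ => f (Nat.gcd n P))
    (ArithmeticFunction.coe_moebius_mul_coe_zeta (R := ℝ))
  simp only [ArithmeticFunction.coe_mul_zeta_apply, ArithmeticFunction.one_apply] at h2
  simpa [Nat.Coprime] using h2

/-- the function `[(d, r) = 1] / d` -/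
private noncomputable def svF (r : ℕ) : ArithmeticFunction ℝ :=
  ⟨fun d => if Nat.Coprime d r then 1 / (d : ℝ) else 0, by simp⟩

private theorem svF_apply (r d : ℕ) : svF r d = if Nat.Coprime d r then 1 / (d : ℝ) else 0 := rfl

private theorem svF_mult (r : ℕ) : (svF r).IsMultiplicative := by
  constructor
  · simp [svF_apply]
  · intro m n _
    rw [svF_apply, svF_apply, svF_apply]
    by_cases h1 : Nat.Coprime m r
    · by_cases h2 : Nat.Coprime n r
      · rw [if_pos h1, if_pos h2, if_pos (h1.mul_left h2)]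
        push_cast
        field_simp
      · rw [if_neg h2, mul_zero, if_neg]
        exact fun h => h2 (Nat.Coprime.coprime_mul_left h)
    · rw [if_neg h1, zero_mul, if_neg]
      exact fun h => h1 (Nat.Coprime.coprime_mul_right h)

private theorem svs_totient (n : ℕ) :
    (Nat.totient n : ℝ) = n * ∏ p ∈ n.primeFactors, (1 - 1 / (p : ℝ)) := by
  have h := Nat.totient_eq_mul_prod_factors n
  have h2 := congrArg (fun x : ℚ => (x : ℝ)) h
  push_cast at h2
  rw [h2]
  simp only [one_div]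

private theorem svs_prod_pos (s : Finset ℕ) (hs : ∀ p ∈ s, Nat.Prime p) :
    0 < ∏ p ∈ s, (1 - 1 / (p : ℝ)) := by
  refine Finset.prod_pos fun p hp => ?_
  have h1 : (1 : ℝ) < p := by exact_mod_cast (hs p hp).one_lt
  rw [sub_pos, div_lt_one (by linarith)]
  exact h1

/-- the complete sum -/
private theorem svs_main (R W : ℕ) (hR : 1 ≤ R) (hW : W ∣ R) :
    ∑ f ∈ R.divisors with Nat.Coprime f W, (ArithmeticFunction.moebius f : ℝ) * (1 / (f : ℝ)) =
      (Nat.totient R : ℝ) / R * ((W : ℝ) / Nat.totient W) := by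
  have hR0 : R ≠ 0 := by omega
  have hW0 : 0 < W := Nat.pos_of_dvd_of_pos hW hR
  obtain ⟨Q, hQ⟩ : ∃ Q : ℕ, Q = ∏ p ∈ R.primeFactors, p := ⟨_, rfl⟩
  have hQf : Q.primeFactors = R.primeFactors := by
    rw [hQ]
    exact Nat.primeFactors_prod fun _ hp => (Nat.mem_primeFactors.mp hp).1
  have hQR : Q ∣ R := by
    rw [hQ]
    exact Nat.prod_primeFactors_dvd R
  have hQ0 : Q ≠ 0 := fun h => hR0 (by rw [h] at hQR; exact Nat.eq_zero_of_zero_dvd hQR)
  have hQs : Squarefree Q := by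
    rw [Nat.squarefree_iff_prime_squarefree]
    intro p hp hpp
    have h1 : p ∈ R.primeFactors := by
      rw [← hQf]
      exact Nat.mem_primeFactors.2 ⟨hp, (Nat.dvd_mul_right p p).trans hpp, hQ0⟩
    rw [hQ, ← Finset.mul_prod_erase _ _ h1] at hpp
    have h2 : p ∣ ∏ x ∈ R.primeFactors.erase p, x := Nat.dvd_of_mul_dvd_mul_left hp.pos hpp
    obtain ⟨x, hx, hpx⟩ := (hp.prime.dvd_finsetProd_iff _).1 h2
    rw [Finset.mem_erase] at hx
    have h3 := (Nat.prime_dvd_prime_iff_eq hp (Nat.mem_primeFactors.1 hx.2).1).1 hpx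
    exact hx.1 h3.symm
  have h1 := (svF_mult W).prodPrimeFactors_one_sub_of_squarefree (svF W) hQs
  have h2 : ∑ d ∈ Q.divisors, (ArithmeticFunction.moebius d : ℝ) * svF W d =
      ∑ d ∈ R.divisors, (ArithmeticFunction.moebius d : ℝ) * svF W d := by
    refine Finset.sum_subset (Nat.divisors_subset_of_dvd hR0 hQR) ?_
    intro d hd hd2
    rw [Nat.mem_divisors] at hd
    have h3 : ¬ Squarefree d := by
      intro hsq
      apply hd2
      rw [Nat.mem_divisors]
      refine ⟨?_, hQ0⟩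
      rw [← Nat.prod_primeFactors_of_squarefree hsq, hQ]
      exact Finset.prod_dvd_prod_of_subset _ _ _ (Nat.primeFactors_mono hd.1 hR0)
    rw [ArithmeticFunction.moebius_eq_zero_of_not_squarefree h3]
    simp
  have h3 : ∑ d ∈ R.divisors, (ArithmeticFunction.moebius d : ℝ) * svF W d =
      ∑ f ∈ R.divisors with Nat.Coprime f W,
        (ArithmeticFunction.moebius f : ℝ) * (1 / (f : ℝ)) := by
    rw [Finset.sum_filter]
    refine Finset.sum_congr rfl fun d _ => ?_
    rw [svF_apply]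
    split_ifs <;> simp
  have hsub : W.primeFactors ⊆ R.primeFactors := Nat.primeFactors_mono hW hR0
  have h4 : ∏ p ∈ R.primeFactors, (1 - svF W p) =
      ∏ p ∈ R.primeFactors \ W.primeFactors, (1 - 1 / (p : ℝ)) := by
    rw [← Finset.prod_sdiff hsub]
    have h5 : ∏ p ∈ W.primeFactors, (1 - svF W p) = 1 := by
      refine Finset.prod_eq_one fun p hp => ?_
      have hp' := Nat.mem_primeFactors.mp hp
      rw [svF_apply, if_neg, sub_zero]
      rw [(hp'.1).coprime_iff_not_dvd, not_not]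
      exact hp'.2.1
    rw [h5, mul_one]
    refine Finset.prod_congr rfl fun p hp => ?_
    rw [mem_sdiff, Nat.mem_primeFactors, Nat.mem_primeFactors] at hp
    rw [svF_apply, if_pos]
    rw [(hp.1.1).coprime_iff_not_dvd]
    exact fun h => hp.2 ⟨hp.1.1, h, by omega⟩
  rw [← h3, ← h2, ← h1, hQf, h4, svs_totient R, svs_totient W, ← Finset.prod_sdiff hsub]
  have hA := svs_prod_pos W.primeFactors fun p hp => (Nat.mem_primeFactors.mp hp).1
  have hRR : (R : ℝ) ≠ 0 := by exact_mod_cast hR0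
  have hWR : (W : ℝ) ≠ 0 := by exact_mod_cast hW0.ne'
  have hA0 := hA.ne'
  generalize ∏ p ∈ W.primeFactors, (1 - 1 / (p : ℝ)) = A at hA0
  generalize ∏ p ∈ R.primeFactors \ W.primeFactors, (1 - 1 / (p : ℝ)) = B
  field_simp

/-- the number of the elements of a residue class -/
private theorem svs_count (q r k : ℕ) (hq : 1 ≤ q) :
    |(((Icc 1 k).filter fun n => n ≡ r [MOD q]).card : ℝ) - (k : ℝ) / q| ≤ 1 := by
  have h0 : Icc 1 k = Ioc 0 k := by
    ext x
    rw [mem_Icc, mem_Ioc]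
    omega
  have h1 := Nat.Ioc_filter_modEq_card 0 k hq r
  rw [← h0] at h1
  obtain ⟨c, hc⟩ : ∃ c : ℕ, c = ((Icc 1 k).filter fun n => n ≡ r [MOD q]).card := ⟨_, rfl⟩
  rw [← hc] at h1 ⊢
  have hqQ : (0 : ℚ) < q := by exact_mod_cast hq
  have h2 : (((k : ℕ) : ℚ) - r) / q = (((0 : ℕ) : ℚ) - r) / q + (k : ℚ) / q := by
    push_cast
    ring
  have hk : (0 : ℚ) ≤ (k : ℚ) / q := by positivity
  rw [h2] at h1
  generalize (((0 : ℕ) : ℚ) - r) / q = b at h1
  have h3 : ⌊b⌋ ≤ ⌊b + (k : ℚ) / q⌋ := Int.floor_le_floor (by linarith)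
  rw [max_eq_left (by omega)] at h1
  have h4 := Int.floor_le b
  have h5 := Int.lt_floor_add_one b
  have h6 := Int.floor_le (b + (k : ℚ) / q)
  have h7 := Int.lt_floor_add_one (b + (k : ℚ) / q)
  have h8 : (c : ℚ) = (⌊b + (k : ℚ) / q⌋ : ℚ) - (⌊b⌋ : ℚ) := by exact_mod_cast h1
  have h9 : |(c : ℚ) - (k : ℚ) / q| ≤ 1 := by
    rw [abs_le]
    constructor <;> linarith
  have h10 : ((|(c : ℚ) - (k : ℚ) / q| : ℚ) : ℝ) ≤ ((1 : ℚ) : ℝ) := by exact_mod_cast h9
  push_cast at h10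
  exact h10

/-- the elements of one residue class modulo `e f W` -/
private theorem svs_class (e f W : ℕ) (c : ZMod W) (hW : 1 ≤ W)
    (hef : Nat.Coprime e f) (heW : Nat.Coprime e W) (hfW : Nat.Coprime f W) :
    ∃ r : ℕ, ∀ n : ℕ, (e ∣ n ∧ (n : ZMod W) = c ∧ f ∣ n) ↔ n ≡ r [MOD e * f * W] := by
  have : NeZero W := ⟨by omega⟩
  have hco : Nat.Coprime (e * f) W := heW.mul_left hfW
  obtain ⟨r, hr1, hr2⟩ := Nat.chineseRemainder hco 0 c.val
  refine ⟨r, fun n => ?_⟩
  rw [← Nat.modEq_and_modEq_iff_modEq_mul hco]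
  constructor
  · rintro ⟨h1, h2, h3⟩
    constructor
    · have h4 : e * f ∣ n := hef.mul_dvd_of_dvd_of_dvd h1 h3
      exact ((Nat.modEq_zero_iff_dvd.2 h4)).trans hr1.symm
    · have h4 : n ≡ c.val [MOD W] := by
        rw [← ZMod.natCast_eq_natCast_iff, h2, ZMod.natCast_zmod_val]
      exact h4.trans hr2.symm
  · rintro ⟨h1, h2⟩
    have h4 : e * f ∣ n := Nat.modEq_zero_iff_dvd.1 (h1.trans hr1)
    refine ⟨(Nat.dvd_mul_right e f).trans h4, ?_, (Nat.dvd_mul_left f e).trans h4⟩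
    have h5 := (ZMod.natCast_eq_natCast_iff n c.val W).2 (h2.trans hr2)
    rw [h5, ZMod.natCast_zmod_val]

open Classical in
private theorem svs_partial (R W e k : ℕ) (c : ZMod W) (hR : 1 ≤ R) (hW : W ∣ R) (hc : IsUnit c)
    (he : 1 ≤ e) (heR : Nat.Coprime e R) :
    |∑ n ∈ Icc 1 k, (if e ∣ n ∧ (n : ZMod W) = c ∧ Nat.Coprime n R then (1 : ℝ) else 0) -
      (Nat.totient R : ℝ) / R / (Nat.totient W * e) * k| ≤ R.divisors.card := by
  have hR0 : 0 < R := hR
  have hW0 : 0 < W := Nat.pos_of_dvd_of_pos hW hR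
  have hcopn : ∀ n : ℕ, (n : ZMod W) = c → Nat.Coprime n W := by
    intro n hn
    rw [← hn] at hc
    exact (ZMod.isUnit_iff_coprime n W).1 hc
  have h1 : ∑ n ∈ Icc 1 k, (if e ∣ n ∧ (n : ZMod W) = c ∧ Nat.Coprime n R then (1 : ℝ) else 0) =
      ∑ f ∈ R.divisors with Nat.Coprime f W, (ArithmeticFunction.moebius f : ℝ) *
        ∑ n ∈ Icc 1 k, (if e ∣ n ∧ (n : ZMod W) = c ∧ f ∣ n then (1 : ℝ) else 0) := by
    have h2 : ∀ n ∈ Icc 1 k,
        (if e ∣ n ∧ (n : ZMod W) = c ∧ Nat.Coprime n R then (1 : ℝ) else 0) =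
        ∑ f ∈ R.divisors with Nat.Coprime f W, (ArithmeticFunction.moebius f : ℝ) *
          (if e ∣ n ∧ (n : ZMod W) = c ∧ f ∣ n then (1 : ℝ) else 0) := by
      intro n _
      by_cases hn : e ∣ n ∧ (n : ZMod W) = c
      · have h3 : (if e ∣ n ∧ (n : ZMod W) = c ∧ Nat.Coprime n R then (1 : ℝ) else 0) =
            if Nat.Coprime n R then 1 else 0 := by
          split_ifs with g1 g2 g2
          · rfl
          · exact absurd g1.2.2 g2
          · exact absurd ⟨hn.1, hn.2, g2⟩ g1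
          · rfl
        rw [h3, ← svs_moebius R hR0 n, Finset.sum_filter, Finset.sum_filter]
        refine Finset.sum_congr rfl fun f _ => ?_
        by_cases hf : f ∣ n
        · have hfW : Nat.Coprime f W := Nat.Coprime.coprime_dvd_left hf (hcopn n hn.2)
          rw [if_pos hf, if_pos hfW, if_pos ⟨hn.1, hn.2, hf⟩, mul_one]
        · rw [if_neg hf]
          split_ifs with g1 g2
          · exact absurd g2.2.2 hf
          · rw [mul_zero]
          · rfl
      · rw [if_neg (fun h => hn ⟨h.1, h.2.1⟩)]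
        symm
        refine Finset.sum_eq_zero fun f _ => ?_
        rw [if_neg (fun h => hn ⟨h.1, h.2.1⟩), mul_zero]
    rw [Finset.sum_congr rfl h2, Finset.sum_comm]
    refine Finset.sum_congr rfl fun f _ => ?_
    rw [Finset.mul_sum]
  have h3 : (Nat.totient R : ℝ) / R / (Nat.totient W * e) * k =
      ∑ f ∈ R.divisors with Nat.Coprime f W, (ArithmeticFunction.moebius f : ℝ) *
        ((k : ℝ) / ((e * f * W : ℕ) : ℝ)) := by
    have h4 : ∀ f ∈ R.divisors.filter (fun f => Nat.Coprime f W),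
        (ArithmeticFunction.moebius f : ℝ) * ((k : ℝ) / ((e * f * W : ℕ) : ℝ)) =
        (k : ℝ) / (e * W) * ((ArithmeticFunction.moebius f : ℝ) * (1 / (f : ℝ))) := by
      intro f hf
      rw [Finset.mem_filter, Nat.mem_divisors] at hf
      have hf0 : (f : ℝ) ≠ 0 := by
        have : 0 < f := Nat.pos_of_dvd_of_pos hf.1.1 hR0
        positivity
      push_cast
      field_simp
    rw [Finset.sum_congr rfl h4, ← Finset.mul_sum, svs_main R W hR hW]
    have hWR : (W : ℝ) ≠ 0 := by positivity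
    have htR : (Nat.totient W : ℝ) ≠ 0 := by
      have := Nat.totient_pos.2 hW0
      positivity
    have heR' : (e : ℝ) ≠ 0 := by positivity
    field_simp
  rw [h1, h3, ← Finset.sum_sub_distrib]
  refine (Finset.abs_sum_le_sum_abs _ _).trans ?_
  have h5 : ∀ f ∈ R.divisors.filter (fun f => Nat.Coprime f W),
      |(ArithmeticFunction.moebius f : ℝ) *
        ∑ n ∈ Icc 1 k, (if e ∣ n ∧ (n : ZMod W) = c ∧ f ∣ n then (1 : ℝ) else 0) -
        (ArithmeticFunction.moebius f : ℝ) * ((k : ℝ) / ((e * f * W : ℕ) : ℝ))| ≤ 1 := by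
    intro f hf
    rw [Finset.mem_filter, Nat.mem_divisors] at hf
    have hf0 : 0 < f := Nat.pos_of_dvd_of_pos hf.1.1 hR0
    obtain ⟨r, hr⟩ := svs_class e f W c hW0
      (Nat.Coprime.coprime_dvd_right hf.1.1 heR) (Nat.Coprime.coprime_dvd_right hW heR) hf.2
    have h6 : ∑ n ∈ Icc 1 k, (if e ∣ n ∧ (n : ZMod W) = c ∧ f ∣ n then (1 : ℝ) else 0) =
        (((Icc 1 k).filter fun n => n ≡ r [MOD e * f * W]).card : ℝ) := by
      rw [Finset.card_filter]
      push_cast
      refine Finset.sum_congr rfl fun n _ => ?_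
      by_cases hn : n ≡ r [MOD e * f * W]
      · rw [if_pos hn, if_pos ((hr n).2 hn)]
      · rw [if_neg hn, if_neg (fun h => hn ((hr n).1 h))]
    rw [h6, ← mul_sub, abs_mul]
    have h7 := svs_count (e * f * W) r k (by
      have : 0 < e * f * W := by positivity
      omega)
    have h8 : |(ArithmeticFunction.moebius f : ℝ)| ≤ 1 := by
      exact_mod_cast ArithmeticFunction.abs_moebius_le_one
    calc |(ArithmeticFunction.moebius f : ℝ)| * _ ≤ 1 * 1 :=
          mul_le_mul h8 h7 (abs_nonneg _) zero_le_one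
      _ = 1 := one_mul 1
  refine (Finset.sum_le_sum h5).trans ?_
  rw [Finset.sum_const, nsmul_eq_mul, mul_one]
  exact_mod_cast Finset.card_le_card (Finset.filter_subset _ _)

open Classical in
theorem svs (R W e N : ℕ) (Δ y : ℝ) (c : ZMod W) (hR : 1 ≤ R) (hW : W ∣ R) (hc : IsUnit c)
    (he : 1 ≤ e) (heR : Nat.Coprime e R) (hΔ : 0 < Δ) :
    |∑ n ∈ (Icc 1 N).filter (fun n : ℕ => e ∣ n ∧ (n : ZMod W) = c ∧ Nat.Coprime n R),
        kf (((n : ℝ) - y) / Δ) -
      (Nat.totient R : ℝ) / R / (Nat.totient W * e) * ∑ n ∈ Icc 1 N, kf (((n : ℝ) - y) / Δ)| ≤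
      8 * (1 + N / Δ) * R.divisors.card := by
  obtain ⟨κ, hκ⟩ : ∃ κ : ℝ, κ = (Nat.totient R : ℝ) / R / (Nat.totient W * e) := ⟨_, rfl⟩
  obtain ⟨g, hg⟩ : ∃ g : ℕ → ℝ, g = fun n =>
    if e ∣ n ∧ (n : ZMod W) = c ∧ Nat.Coprime n R then (1 : ℝ) else 0 := ⟨_, rfl⟩
  have h1 : ∑ n ∈ (Icc 1 N).filter (fun n : ℕ => e ∣ n ∧ (n : ZMod W) = c ∧ Nat.Coprime n R),
        kf (((n : ℝ) - y) / Δ) = ∑ n ∈ Icc 1 N, kf (((n : ℝ) - y) / Δ) * g n := by
    rw [Finset.sum_filter]
    refine Finset.sum_congr rfl fun n _ => ?_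
    rw [hg]
    simp only
    split_ifs
    · rw [mul_one]
    · rw [mul_zero]
  rw [h1, ← hκ]
  have h2 : ∑ n ∈ Icc 1 N, kf (((n : ℝ) - y) / Δ) * g n -
      κ * ∑ n ∈ Icc 1 N, kf (((n : ℝ) - y) / Δ) =
      ∑ n ∈ Icc 1 N, kf (((n : ℝ) - y) / Δ) * (g n - κ) := by
    rw [Finset.mul_sum, ← Finset.sum_sub_distrib]
    refine Finset.sum_congr rfl fun n _ => ?_
    ring
  rw [h2]
  have h3 := abk_real (fun n => g n - κ) N Δ y (2 * R.divisors.card) hΔ (by
    intro k _
    have h4 := svs_partial R W e k c hR hW hc he heR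
    have h5 : ∑ n ∈ Icc 1 k, (g n - κ) = ∑ n ∈ Icc 1 k,
        (if e ∣ n ∧ (n : ZMod W) = c ∧ Nat.Coprime n R then (1 : ℝ) else 0) -
      (Nat.totient R : ℝ) / R / (Nat.totient W * e) * k := by
      rw [Finset.sum_sub_distrib, Finset.sum_const, Nat.card_Icc, Nat.add_sub_cancel,
        nsmul_eq_mul, hg, hκ]
      ring
    rw [h5]
    have h6 : (0 : ℝ) ≤ R.divisors.card := Nat.cast_nonneg _
    linarith)
  refine h3.trans (le_of_eq ?_)
  ring

end Pool.MP_dd84fd_nt.TC
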