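import Pool.Agent.Lib.MP_dd84fd_nt.TC.Defs
import Pool.Agent.Lib.MP_dd84fd_nt.TC.MMk
import Pool.Agent.Lib.MP_dd84fd_nt.TC.Slb
import Pool.Agent.Lib.MP_dd84fd_nt.TC.SvS
import Pool.Agent.Lib.MP_dd84fd_nt.TC.SvO

/-!
# TC-SvA: the sieve for inequivalent characters, the inequality for fixed `X`, `R`, `W`, `D`

`sva`: `∑_{p ≡ c} kf((p-y)/Δ) ‖∑_Γ t χ(p)‖² ≤ (MM/(φ(W) log D) + D² E1 + N0 (D + D² E2)) ∑ ‖t‖²`.
-/

set_option autoImplicit false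

namespace Pool.MP_dd84fd_nt.TC

open Finset

private theorem sva_expand {K : Type*} [CommRing K] (S : Finset ℕ) (D : ℕ) (l F : ℕ → K) :
    ∑ n ∈ S, (∑ d ∈ (Icc 1 D).filter (fun d => d ∣ n), l d) ^ 2 * F n =
      ∑ d ∈ Icc 1 D, ∑ e ∈ Icc 1 D, l d * l e *
        ∑ n ∈ S.filter (fun n => Nat.lcm d e ∣ n), F n := by
  have h1 : ∀ n ∈ S, (∑ d ∈ (Icc 1 D).filter (fun d => d ∣ n), l d) ^ 2 * F n =
      ∑ d ∈ Icc 1 D, ∑ e ∈ Icc 1 D, if Nat.lcm d e ∣ n then l d * l e * F n else 0 := by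
    intro n _
    rw [sq, Finset.sum_filter, Finset.sum_mul_sum, Finset.sum_mul]
    refine sum_congr rfl fun d _ => ?_
    rw [Finset.sum_mul]
    refine sum_congr rfl fun e _ => ?_
    by_cases h : d ∣ n
    · by_cases h' : e ∣ n
      · rw [if_pos h, if_pos h', if_pos (Nat.lcm_dvd h h')]
      · rw [if_pos h, if_neg h', if_neg (fun H => h' ((Nat.dvd_lcm_right d e).trans H))]
        ring
    · rw [if_neg h, if_neg (fun H => h ((Nat.dvd_lcm_left d e).trans H))]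
      ring
  rw [sum_congr rfl h1, sum_comm]
  refine sum_congr rfl fun d _ => ?_
  rw [sum_comm]
  refine sum_congr rfl fun e _ => ?_
  rw [mul_sum, sum_filter]

private theorem sva_quad {ι : Type*} [DecidableEq ι] (S : Finset ℕ) (a : ℕ → ℝ) (Γ : Finset ι)
    (t : ι → ℂ) (f : ι → ℕ → ℂ) (A B : ℝ) (N0 : ℕ) (hΓ : Γ.card ≤ N0) (hB : 0 ≤ B)
    (h1 : ∀ χ ∈ Γ, ∑ n ∈ S, a n * ‖f χ n‖ ^ 2 ≤ A)
    (h2 : ∀ χ ∈ Γ, ∀ χ' ∈ Γ, χ ≠ χ' →
      ‖∑ n ∈ S, (a n : ℂ) * (f χ n * star (f χ' n))‖ ≤ B) :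
    ∑ n ∈ S, a n * ‖∑ χ ∈ Γ, t χ * f χ n‖ ^ 2 ≤ (A + N0 * B) * ∑ χ ∈ Γ, ‖t χ‖ ^ 2 := by
  have hsq : ∀ z : ℂ, ((‖z‖ ^ 2 : ℝ) : ℂ) = z * star z := by
    intro z
    rw [Complex.star_def, Complex.mul_conj, Complex.normSq_eq_norm_sq]
  have h3 : ((∑ n ∈ S, a n * ‖∑ χ ∈ Γ, t χ * f χ n‖ ^ 2 : ℝ) : ℂ) =
      ∑ χ ∈ Γ, ∑ χ' ∈ Γ, t χ * star (t χ') *
        ∑ n ∈ S, (a n : ℂ) * (f χ n * star (f χ' n)) := by
    rw [Complex.ofReal_sum]
    have h4 : ∀ n ∈ S, ((a n * ‖∑ χ ∈ Γ, t χ * f χ n‖ ^ 2 : ℝ) : ℂ) =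
        ∑ χ ∈ Γ, ∑ χ' ∈ Γ, t χ * star (t χ') * ((a n : ℂ) * (f χ n * star (f χ' n))) := by
      intro n _
      rw [Complex.ofReal_mul, hsq, star_sum, Finset.sum_mul_sum, mul_sum]
      refine sum_congr rfl fun χ _ => ?_
      rw [mul_sum]
      refine sum_congr rfl fun χ' _ => ?_
      rw [star_mul']
      ring
    rw [sum_congr rfl h4, sum_comm]
    refine sum_congr rfl fun χ _ => ?_
    rw [sum_comm]
    refine sum_congr rfl fun χ' _ => ?_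
    rw [mul_sum]
  have h4 : ∑ n ∈ S, a n * ‖∑ χ ∈ Γ, t χ * f χ n‖ ^ 2 =
      ∑ χ ∈ Γ, ∑ χ' ∈ Γ, (t χ * star (t χ') *
        ∑ n ∈ S, (a n : ℂ) * (f χ n * star (f χ' n))).re := by
    have h5 := congrArg Complex.re h3
    rw [Complex.ofReal_re, Complex.re_sum] at h5
    rw [h5]
    refine sum_congr rfl fun χ _ => ?_
    rw [Complex.re_sum]
  rw [h4]
  have h5 : ∀ χ ∈ Γ, ∀ χ' ∈ Γ, (t χ * star (t χ') *
        ∑ n ∈ S, (a n : ℂ) * (f χ n * star (f χ' n))).re ≤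
      (if χ = χ' then A * ‖t χ‖ ^ 2 else 0) + B * (‖t χ‖ * ‖t χ'‖) := by
    intro χ hχ χ' hχ'
    by_cases h : χ = χ'
    · subst h
      rw [if_pos rfl]
      have h6 : t χ * star (t χ) * ∑ n ∈ S, (a n : ℂ) * (f χ n * star (f χ n)) =
          ((‖t χ‖ ^ 2 * ∑ n ∈ S, a n * ‖f χ n‖ ^ 2 : ℝ) : ℂ) := by
        rw [Complex.ofReal_mul, hsq, Complex.ofReal_sum]
        congr 1
        refine sum_congr rfl fun n _ => ?_
        rw [Complex.ofReal_mul, hsq]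
      rw [h6, Complex.ofReal_re]
      have h7 := mul_le_mul_of_nonneg_left (h1 χ hχ) (sq_nonneg ‖t χ‖)
      have h8 : 0 ≤ B * (‖t χ‖ * ‖t χ‖) := by positivity
      linarith
    · rw [if_neg h, zero_add]
      refine (Complex.re_le_norm _).trans ?_
      rw [norm_mul, norm_mul, norm_star]
      have h7 := h2 χ hχ χ' hχ' h
      calc ‖t χ‖ * ‖t χ'‖ * ‖∑ n ∈ S, (a n : ℂ) * (f χ n * star (f χ' n))‖
          ≤ ‖t χ‖ * ‖t χ'‖ * B := by gcongr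
        _ = B * (‖t χ‖ * ‖t χ'‖) := by ring
  refine (sum_le_sum fun χ hχ => sum_le_sum fun χ' hχ' => h5 χ hχ χ' hχ').trans ?_
  have h6 : ∑ χ ∈ Γ, ∑ χ' ∈ Γ, ((if χ = χ' then A * ‖t χ‖ ^ 2 else 0) + B * (‖t χ‖ * ‖t χ'‖)) =
      A * ∑ χ ∈ Γ, ‖t χ‖ ^ 2 + B * (∑ χ ∈ Γ, ‖t χ‖) ^ 2 := by
    rw [sq, Finset.sum_mul_sum, mul_sum, mul_sum, ← sum_add_distrib]
    refine sum_congr rfl fun χ hχ => ?_
    rw [sum_add_distrib, Finset.sum_ite_eq, if_pos hχ, mul_sum]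
  rw [h6]
  have h7 : (∑ χ ∈ Γ, ‖t χ‖) ^ 2 ≤ N0 * ∑ χ ∈ Γ, ‖t χ‖ ^ 2 := by
    refine (sq_sum_le_card_mul_sum_sq).trans ?_
    have : (Γ.card : ℝ) ≤ N0 := by exact_mod_cast hΓ
    gcongr
  have h8 := mul_le_mul_of_nonneg_left h7 hB
  linarith

open Classical in
/-- the integers of the class which are prime to `R` -/
private noncomputable def svaS (X R W : ℕ) (c : ZMod W) : Finset ℕ :=
  (Icc 1 X).filter (fun n : ℕ => (n : ZMod W) = c ∧ Nat.Coprime n R)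

private noncomputable def svaL (D : ℕ) (l : ℕ → ℝ) (n : ℕ) : ℝ :=
  (∑ d ∈ (Icc 1 D).filter (fun d => d ∣ n), l d) ^ 2

private theorem sva_diag (X R W D : ℕ) (Δ y : ℝ) (c : ZMod W) (hR : 1 ≤ R) (hW : W ∣ R)
    (hc : IsUnit c) (hΔ : 0 < Δ) (l : ℕ → ℝ) (hl1 : ∀ d, |l d| ≤ 1)
    (hl2 : ∀ d, l d ≠ 0 → 1 ≤ d ∧ d ≤ D ∧ Nat.Coprime d R)
    (hl3 : ∑ d ∈ Icc 1 D, ∑ e ∈ Icc 1 D, l d * l e / (Nat.lcm d e : ℝ) ≤
      (R : ℝ) / Nat.totient R / Real.log D) :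
    ∑ n ∈ svaS X R W c, svaL D l n * kf (((n : ℝ) - y) / Δ) ≤
      (∑ n ∈ Icc 1 X, kf (((n : ℝ) - y) / Δ)) / (Nat.totient W * Real.log D) +
        (D : ℝ) ^ 2 * (8 * (1 + X / Δ) * R.divisors.card) := by
  classical
  have hW1 : 1 ≤ W := Nat.pos_of_dvd_of_pos hW hR
  obtain ⟨MM, hMM⟩ : ∃ MM : ℝ, MM = ∑ n ∈ Icc 1 X, kf (((n : ℝ) - y) / Δ) := ⟨_, rfl⟩
  obtain ⟨E1, hE1⟩ : ∃ E1 : ℝ, E1 = 8 * (1 + X / Δ) * R.divisors.card := ⟨_, rfl⟩
  have hMM0 : 0 ≤ MM := by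
    rw [hMM]
    exact sum_nonneg fun n _ => kf_nonneg _
  have hE0 : 0 ≤ E1 := by
    rw [hE1]
    positivity
  have hφR : (0 : ℝ) < Nat.totient R := by exact_mod_cast Nat.totient_pos.2 hR
  have hφW : (0 : ℝ) < Nat.totient W := by exact_mod_cast Nat.totient_pos.2 hW1
  have hR0 : (0 : ℝ) < R := by exact_mod_cast hR
  obtain ⟨κ, hκ⟩ : ∃ κ : ℝ, κ = (Nat.totient R : ℝ) / R / Nat.totient W * MM := ⟨_, rfl⟩
  have hκ0 : 0 ≤ κ := by
    rw [hκ]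
    positivity
  rw [← hMM, ← hE1]
  simp only [svaL]
  rw [sva_expand]
  have h1 : ∀ d ∈ Icc 1 D, ∀ e ∈ Icc 1 D, l d * l e *
        ∑ n ∈ (svaS X R W c).filter (fun n => Nat.lcm d e ∣ n), kf (((n : ℝ) - y) / Δ) ≤
      κ * (l d * l e / (Nat.lcm d e : ℝ)) + E1 := by
    intro d hd e he
    by_cases h0 : l d * l e = 0
    · rw [h0, zero_mul, zero_div, mul_zero, zero_add]
      exact hE0
    · have hd0 : l d ≠ 0 := fun h => h0 (by rw [h, zero_mul])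
      have he0 : l e ≠ 0 := fun h => h0 (by rw [h, mul_zero])
      have h2 : Nat.Coprime (Nat.lcm d e) R :=
        Nat.Coprime.coprime_dvd_left (Nat.lcm_dvd_mul d e)
          (Nat.Coprime.mul_left (hl2 d hd0).2.2 (hl2 e he0).2.2)
      have h3 : 1 ≤ Nat.lcm d e := Nat.lcm_pos (hl2 d hd0).1 (hl2 e he0).1
      have h4 := svs R W (Nat.lcm d e) X Δ y c hR hW hc h3 h2 hΔ
      have h5 : (svaS X R W c).filter (fun n => Nat.lcm d e ∣ n) =
          (Icc 1 X).filter (fun n : ℕ => Nat.lcm d e ∣ n ∧ (n : ZMod W) = c ∧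
            Nat.Coprime n R) := by
        ext n
        simp only [svaS, mem_filter]
        tauto
      rw [h5]
      rw [← hMM, ← hE1] at h4
      obtain ⟨T, hT⟩ : ∃ T : ℝ, T = ∑ n ∈ (Icc 1 X).filter (fun n : ℕ => Nat.lcm d e ∣ n ∧
        (n : ZMod W) = c ∧ Nat.Coprime n R), kf (((n : ℝ) - y) / Δ) := ⟨_, rfl⟩
      rw [← hT] at h4 ⊢
      have h6 : (Nat.totient R : ℝ) / R / (Nat.totient W * (Nat.lcm d e : ℕ)) * MM =
          κ / (Nat.lcm d e : ℕ) := by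
        rw [hκ, div_mul_eq_div_div]
        ring
      rw [h6] at h4
      have h7 : |l d * l e| ≤ 1 := by
        rw [abs_mul]
        exact mul_le_one₀ (hl1 d) (abs_nonneg _) (hl1 e)
      have h8 : l d * l e * (T - κ / (Nat.lcm d e : ℕ)) ≤ E1 := by
        refine (le_abs_self _).trans ?_
        rw [abs_mul]
        calc |l d * l e| * |T - κ / (Nat.lcm d e : ℕ)| ≤ 1 * E1 :=
              mul_le_mul h7 h4 (abs_nonneg _) zero_le_one
          _ = E1 := one_mul _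
      have h9 : l d * l e * T = l d * l e * (T - κ / (Nat.lcm d e : ℕ)) +
          κ * (l d * l e / (Nat.lcm d e : ℕ)) := by ring
      rw [h9]
      linarith
  refine (sum_le_sum fun d hd => sum_le_sum fun e he => h1 d hd e he).trans ?_
  have h2 : ∑ d ∈ Icc 1 D, ∑ e ∈ Icc 1 D, (κ * (l d * l e / (Nat.lcm d e : ℝ)) + E1) =
      κ * ∑ d ∈ Icc 1 D, ∑ e ∈ Icc 1 D, l d * l e / (Nat.lcm d e : ℝ) + (D : ℝ) ^ 2 * E1 := by
    simp only [sum_add_distrib, mul_sum, sum_const, Nat.card_Icc, nsmul_eq_mul,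
      Nat.add_sub_cancel]
    ring
  rw [h2]
  have h3 := mul_le_mul_of_nonneg_left hl3 hκ0
  have h4 : κ * ((R : ℝ) / Nat.totient R / Real.log D) = MM / (Nat.totient W * Real.log D) := by
    rw [hκ]
    have := hφR.ne'
    have := hφW.ne'
    have := hR0.ne'
    field_simp
  linarith

private theorem sva_off (C : ℝ) (X R W D : ℕ) (Δ y : ℝ) (c : ZMod W) (l : ℕ → ℝ)
    (hC : 0 < C) (hΔ : 0 < Δ) (hR : 1 ≤ R) (hl1 : ∀ d, |l d| ≤ 1) (ψ : DirichletCharacter ℂ R)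
    (HC : ∀ e : ℕ, 1 ≤ e →
      ‖∑ n ∈ (Icc 1 X).filter (fun n : ℕ => e ∣ n ∧ (n : ZMod W) = c),
        ((kf (((n : ℝ) - y) / Δ) : ℝ) : ℂ) * ψ (n : ZMod R)‖ ≤
      C * (1 + X / Δ) * (Real.sqrt R * R.divisors.card * (1 + Real.log R))) :
    ‖∑ n ∈ svaS X R W c, ((svaL D l n * kf (((n : ℝ) - y) / Δ) : ℝ) : ℂ) * ψ (n : ZMod R)‖ ≤
      (D : ℝ) ^ 2 * (C * (1 + X / Δ) * (Real.sqrt R * R.divisors.card * (1 + Real.log R))) := by
  classical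
  obtain ⟨E2, hE2⟩ : ∃ E2 : ℝ, E2 =
    C * (1 + X / Δ) * (Real.sqrt R * R.divisors.card * (1 + Real.log R)) := ⟨_, rfl⟩
  rw [← hE2] at HC ⊢
  have hE0 : 0 ≤ E2 := by
    rw [hE2]
    have : 0 ≤ Real.log (R : ℝ) := Real.log_natCast_nonneg R
    positivity
  have h0 : ∑ n ∈ svaS X R W c, ((svaL D l n * kf (((n : ℝ) - y) / Δ) : ℝ) : ℂ) *
        ψ (n : ZMod R) =
      ∑ n ∈ svaS X R W c, (∑ d ∈ (Icc 1 D).filter (fun d => d ∣ n), ((l d : ℝ) : ℂ)) ^ 2 *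
        (((kf (((n : ℝ) - y) / Δ) : ℝ) : ℂ) * ψ (n : ZMod R)) := by
    refine sum_congr rfl fun n _ => ?_
    simp only [svaL]
    push_cast
    ring
  rw [h0, sva_expand]
  have h1 : ∀ d ∈ Icc 1 D, ∀ e ∈ Icc 1 D, ‖((l d : ℝ) : ℂ) * ((l e : ℝ) : ℂ) *
        ∑ n ∈ (svaS X R W c).filter (fun n => Nat.lcm d e ∣ n),
          ((kf (((n : ℝ) - y) / Δ) : ℝ) : ℂ) * ψ (n : ZMod R)‖ ≤ E2 := by
    intro d hd e he
    have h3 : 1 ≤ Nat.lcm d e := Nat.lcm_pos (mem_Icc.1 hd).1 (mem_Icc.1 he).1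
    have h5 : ∑ n ∈ (svaS X R W c).filter (fun n => Nat.lcm d e ∣ n),
          ((kf (((n : ℝ) - y) / Δ) : ℝ) : ℂ) * ψ (n : ZMod R) =
        ∑ n ∈ (Icc 1 X).filter (fun n : ℕ => Nat.lcm d e ∣ n ∧ (n : ZMod W) = c),
          ((kf (((n : ℝ) - y) / Δ) : ℝ) : ℂ) * ψ (n : ZMod R) := by
      refine sum_subset ?_ ?_
      · intro n hn
        simp only [svaS, mem_filter] at hn ⊢
        tauto
      · intro n hn hn'
        simp only [svaS, mem_filter] at hn hn'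
        have h6 : ¬ Nat.Coprime n R := by tauto
        have h7 : ψ (n : ZMod R) = 0 := by
          refine ψ.map_nonunit ?_
          rwa [ZMod.isUnit_iff_coprime]
        rw [h7, mul_zero]
    rw [h5, norm_mul, norm_mul, Complex.norm_real, Complex.norm_real, Real.norm_eq_abs,
      Real.norm_eq_abs]
    calc |l d| * |l e| * ‖∑ n ∈ (Icc 1 X).filter (fun n : ℕ => Nat.lcm d e ∣ n ∧
            (n : ZMod W) = c), ((kf (((n : ℝ) - y) / Δ) : ℝ) : ℂ) * ψ (n : ZMod R)‖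
        ≤ 1 * 1 * E2 := by
          gcongr
          · exact hl1 d
          · exact hl1 e
          · exact HC _ h3
      _ = E2 := by ring
  refine (norm_sum_le _ _).trans ?_
  refine (sum_le_sum fun d hd => norm_sum_le _ _).trans ?_
  refine (sum_le_sum fun d hd => sum_le_sum fun e he => h1 d hd e he).trans ?_
  simp only [sum_const, Nat.card_Icc, nsmul_eq_mul, Nat.add_sub_cancel]
  exact le_of_eq (by ring)

open Classical in
/-- the sieve inequality before the choice of `D` -/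
theorem sva : ∃ C : ℝ, 0 < C ∧ ∀ (X R W D N0 : ℕ) (Δ y : ℝ) (c : ZMod W), 1 ≤ R → W ∣ R →
    2 ≤ D → 0 < Δ → IsUnit c → ∀ Γ : Finset (DirichletCharacter ℂ R), Γ.card ≤ N0 → Ineq W Γ →
    ∀ t : DirichletCharacter ℂ R → ℂ,
      ∑ p ∈ UP X R, wv Δ y W c p * ‖∑ χ ∈ Γ, t χ * χ (p : ZMod R)‖ ^ 2 ≤
        ((∑ n ∈ Icc 1 X, kf (((n : ℝ) - y) / Δ)) / (Nat.totient W * Real.log D) +
          (D : ℝ) ^ 2 * (8 * (1 + X / Δ) * R.divisors.card) +
          N0 * (D + (D : ℝ) ^ 2 *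
            (C * (1 + X / Δ) * (Real.sqrt R * R.divisors.card * (1 + Real.log R))))) *
        ∑ χ ∈ Γ, ‖t χ‖ ^ 2 := by
  obtain ⟨C, hC, H⟩ := svo
  refine ⟨C, hC, fun X R W D N0 Δ y c hR hW hD hΔ hc Γ hΓ hI t => ?_⟩
  haveI : NeZero R := ⟨by omega⟩
  obtain ⟨l, hl0, hl1, hl2, hl3⟩ := slb R D hR hD
  obtain ⟨MM, hMM⟩ : ∃ MM : ℝ, MM = ∑ n ∈ Icc 1 X, kf (((n : ℝ) - y) / Δ) := ⟨_, rfl⟩
  obtain ⟨A, hA⟩ : ∃ A : ℝ, A = MM / (Nat.totient W * Real.log D) +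
    (D : ℝ) ^ 2 * (8 * (1 + X / Δ) * R.divisors.card) := ⟨_, rfl⟩
  obtain ⟨B, hB⟩ : ∃ B : ℝ, B = (D : ℝ) ^ 2 *
    (C * (1 + X / Δ) * (Real.sqrt R * R.divisors.card * (1 + Real.log R))) := ⟨_, rfl⟩
  have hB0 : 0 ≤ B := by
    rw [hB]
    have : 0 ≤ Real.log (R : ℝ) := Real.log_natCast_nonneg R
    positivity
  have hd := sva_diag X R W D Δ y c hR hW hc hΔ l hl1 hl2 hl3
  rw [← hMM, ← hA] at hd
  rw [← hMM, ← hA, ← hB]
  obtain ⟨T, hT⟩ : ∃ T : ℝ, T = ∑ χ ∈ Γ, ‖t χ‖ ^ 2 := ⟨_, rfl⟩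
  have hT0 : 0 ≤ T := by
    rw [hT]
    exact sum_nonneg fun χ _ => sq_nonneg _
  -- the quadratic form over the integers
  have hL0 : ∀ n, 0 ≤ svaL D l n := fun n => sq_nonneg _
  have hq := sva_quad (svaS X R W c) (fun n => svaL D l n * kf (((n : ℝ) - y) / Δ)) Γ t
    (fun χ n => χ (n : ZMod R)) A B N0 hΓ hB0 (by
      intro χ _
      refine le_trans ?_ hd
      refine sum_le_sum fun n _ => ?_
      have h1 : ‖χ (n : ZMod R)‖ ^ 2 ≤ 1 := by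
        have := DirichletCharacter.norm_le_one χ (n : ZMod R)
        exact pow_le_one₀ (norm_nonneg _) this
      have h2 : 0 ≤ svaL D l n * kf (((n : ℝ) - y) / Δ) := mul_nonneg (hL0 n) (kf_nonneg _)
      calc svaL D l n * kf (((n : ℝ) - y) / Δ) * ‖χ (n : ZMod R)‖ ^ 2
          ≤ svaL D l n * kf (((n : ℝ) - y) / Δ) * 1 := by gcongr
        _ = _ := mul_one _) (by
      intro χ hχ χ' hχ' hne
      have h1 : ∀ ω : DirichletCharacter ℂ W,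
          χ * χ'⁻¹ * DirichletCharacter.changeLevel hW ω ≠ 1 := by
        intro ω h
        refine hI χ hχ χ' hχ' hne ⟨hW, ω, ?_⟩
        have h2 : χ' = χ' * 1 := (mul_one _).symm
        rw [h2, ← h]
        rw [mul_comm χ χ'⁻¹, mul_assoc, mul_inv_cancel_left]
      have h2 := sva_off C X R W D Δ y c l hC hΔ hR hl1 (χ * χ'⁻¹) (fun e he =>
        H R W e X Δ y c (χ * χ'⁻¹) hR hW he hΔ h1)
      rw [← hB] at h2
      refine le_trans (le_of_eq ?_) h2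
      congr 1
      refine sum_congr rfl fun n _ => ?_
      rw [MulChar.coeToFun_mul, Pi.mul_apply, MulChar.star_apply'])
  rw [← hT] at hq ⊢
  -- the primes
  have hp : ∀ p ∈ UP X R, wv Δ y W c p * ‖∑ χ ∈ Γ, t χ * χ (p : ZMod R)‖ ^ 2 ≤
      (if p ∈ Icc 1 D then N0 * T else 0) +
      (if p ∈ svaS X R W c then svaL D l p * kf (((p : ℝ) - y) / Δ) *
        ‖∑ χ ∈ Γ, t χ * χ (p : ZMod R)‖ ^ 2 else 0) := by
    intro p hp
    rw [UP, mem_filter] at hp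
    obtain ⟨hpX, hpp, -, hpR⟩ := hp
    have hn1 : 0 ≤ (if p ∈ Icc 1 D then (N0 : ℝ) * T else 0) := by
      split_ifs
      · positivity
      · exact le_rfl
    have hn2 : 0 ≤ (if p ∈ svaS X R W c then svaL D l p * kf (((p : ℝ) - y) / Δ) *
        ‖∑ χ ∈ Γ, t χ * χ (p : ZMod R)‖ ^ 2 else 0) := by
      split_ifs
      · exact mul_nonneg (mul_nonneg (hL0 p) (kf_nonneg _)) (sq_nonneg _)
      · exact le_rfl
    by_cases hcp : (p : ZMod W) = c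
    · rw [wv, if_pos hcp]
      by_cases hpD : p ≤ D
      · rw [if_pos (mem_Icc.2 ⟨hpp.one_le, hpD⟩)]
        have h1 : ‖∑ χ ∈ Γ, t χ * χ (p : ZMod R)‖ ≤ ∑ χ ∈ Γ, ‖t χ‖ := by
          refine (norm_sum_le _ _).trans (sum_le_sum fun χ _ => ?_)
          rw [norm_mul]
          exact mul_le_of_le_one_right (norm_nonneg _) (DirichletCharacter.norm_le_one χ _)
        have h2 : (∑ χ ∈ Γ, ‖t χ‖) ^ 2 ≤ N0 * T := by
          refine (sq_sum_le_card_mul_sum_sq).trans ?_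
          have : (Γ.card : ℝ) ≤ N0 := by exact_mod_cast hΓ
          rw [hT]
          gcongr
        have h3 : ‖∑ χ ∈ Γ, t χ * χ (p : ZMod R)‖ ^ 2 ≤ N0 * T :=
          (pow_le_pow_left₀ (norm_nonneg _) h1 2).trans h2
        have h4 : kf (((p : ℝ) - y) / Δ) * ‖∑ χ ∈ Γ, t χ * χ (p : ZMod R)‖ ^ 2 ≤
            1 * (N0 * T) :=
          mul_le_mul (kf_le_one _) h3 (sq_nonneg _) zero_le_one
        linarith
      · have h1 : p ∈ svaS X R W c := by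
          rw [svaS, mem_filter]
          exact ⟨hpX, hcp, hpR⟩
        rw [if_pos h1]
        have h2 : (Icc 1 D).filter (fun d => d ∣ p) = {1} := by
          ext d
          rw [mem_filter, mem_Icc, mem_singleton]
          constructor
          · rintro ⟨⟨_, hd2⟩, hdp⟩
            rcases (Nat.dvd_prime hpp).1 hdp with h | h
            · exact h
            · omega
          · rintro rfl
            exact ⟨⟨le_rfl, by omega⟩, one_dvd _⟩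
        have h3 : svaL D l p = 1 := by
          rw [svaL, h2, sum_singleton, hl0, one_pow]
        rw [h3, one_mul]
        linarith
    · rw [wv, if_neg hcp, zero_mul]
      linarith
  refine (sum_le_sum hp).trans ?_
  rw [sum_add_distrib]
  have hs1 : ∑ p ∈ UP X R, (if p ∈ Icc 1 D then (N0 : ℝ) * T else 0) ≤ D * (N0 * T) := by
    rw [← Finset.sum_filter, sum_const, nsmul_eq_mul]
    have h1 : ((UP X R).filter (fun p => p ∈ Icc 1 D)).card ≤ D := by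
      calc ((UP X R).filter (fun p => p ∈ Icc 1 D)).card ≤ (Icc 1 D).card :=
            card_le_card fun p hp => (mem_filter.1 hp).2
        _ = D := by rw [Nat.card_Icc]; omega
    have h2 : (((UP X R).filter (fun p => p ∈ Icc 1 D)).card : ℝ) ≤ D := by exact_mod_cast h1
    gcongr
  have hs2 : ∑ p ∈ UP X R, (if p ∈ svaS X R W c then svaL D l p * kf (((p : ℝ) - y) / Δ) *
        ‖∑ χ ∈ Γ, t χ * χ (p : ZMod R)‖ ^ 2 else 0) ≤
      ∑ n ∈ svaS X R W c, svaL D l n * kf (((n : ℝ) - y) / Δ) *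
        ‖∑ χ ∈ Γ, t χ * χ (n : ZMod R)‖ ^ 2 := by
    rw [← Finset.sum_filter]
    refine sum_le_sum_of_subset_of_nonneg (fun p hp => (mem_filter.1 hp).2) fun n _ _ => ?_
    exact mul_nonneg (mul_nonneg (hL0 n) (kf_nonneg _)) (sq_nonneg _)
  have hfin : (D : ℝ) * (N0 * T) + (A + N0 * B) * T = (A + N0 * (D + B)) * T := by ring
  linarith

end Pool.MP_dd84fd_nt.TC
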