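import Pool.Agent.Lib.MP_dd84fd_nt.TC.HCore
import Pool.Agent.Lib.MP_dd84fd_nt.TC.SvG
import Pool.Agent.Lib.MP_dd84fd_nt.TC.MaH
import Pool.Agent.Lib.MP_dd84fd_nt.TC.MsP
import Pool.Agent.Lib.MP_dd84fd_nt.TC.L2N
import Pool.Agent.Lib.MP_dd84fd_nt.TC.ExG
import Pool.Agent.Lib.MP_dd84fd_nt.TC.RcsH
import Pool.Agent.Lib.MP_dd84fd_nt.TC.TrZ
import Pool.Agent.Lib.MP_dd84fd_nt.TC.Pth
import Pool.Agent.Lib.MP_dd84fd_nt.TC.StrH
import Pool.Agent.Lib.MP_dd84fd_nt.TC.CntH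
import Pool.Agent.Lib.MP_dd84fd_nt.TC.OneH
import Pool.Agent.Lib.MP_dd84fd_nt.TC.FinH

/-!
# Project TC: pairs of failures at any distance, without hypotheses
-/

set_option autoImplicit false

namespace Pool.MP_dd84fd_nt.TC

theorem coreH_all : CoreH := coreH svG (maH l2N massF) (exG l2N) rcH

theorem fin_allH : FinH := finH (oneH coreH_all transF pathF strH cntH)

end Pool.MP_dd84fd_nt.TC
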