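import Pool.Agent.Lib.MP_dd84fd_nt.TC.VDefs
import Pool.Agent.Lib.MP_dd84fd_nt.TC.One
import Pool.Agent.Lib.MP_dd84fd_nt.TC.Str

/-!
# G6-OneV: one scale, pairs of failures in one class modulo `M` (helper39)

`OneV` from `CoreV`, `TransF`, `PathV`, `StrV`, `CntV`; as OneH.lean.  The set `G` is `Ex` together with the
numbers with a modulus larger than `X^(2/3 - ν - ν/100)` and the numbers which have a partner with a
large common modulus (`h ≤ X^(1/2)`) or a modulus whose square is large (`h > X^(1/2)`).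
-/

set_option autoImplicit false

namespace Pool.MP_dd84fd_nt.TC

open Finset Pool.MP_67663b_nt.Odd Pool.MP_dd84fd_nt.En Pool.MP_dd84fd_nt.E2 Pool.MP_dd84fd_nt.LS
open Pool.MP_dd84fd_nt.GX Pool.MP_dd84fd_nt.HX Pool.MP_dd84fd_nt.IX
open Pool.MP_dd84fd_nt.BX (PC pv IsPC PR SX sN prc ind)

/-- the choice of `δ` -/
theorem g6_deltaV (c0 c : ℝ) (C0 a b : ℕ) (hc0 : 0 < c0) (hc : 0 < c) :
    ∃ δ : ℝ, 0 < δ ∧ δ ≤ 1 ∧ ∀ H : ℕ, 2 ≤ H → (H : ℝ) ≤ C0 / δ ^ C0 →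
      C0 * δ ≤ c0 * (min 1 (c / (Real.log H) ^ b)) ^ a := by
  rcases Nat.eq_zero_or_pos C0 with hz | hpos
  · refine ⟨1, one_pos, le_rfl, fun H hH hH2 => ?_⟩
    have hHr : (2 : ℝ) ≤ H := by exact_mod_cast hH
    have hlH : 0 < Real.log H := Real.log_pos (by linarith)
    subst hz
    simp only [Nat.cast_zero, zero_mul]
    have : 0 < min 1 (c / (Real.log H) ^ b) := lt_min one_pos (by positivity)
    positivity
  have hC1 : (1 : ℝ) ≤ C0 := by exact_mod_cast hpos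
  have t1 := Real.tendsto_pow_mul_exp_neg_atTop_nhds_zero (b * a)
  have t0 := Real.tendsto_pow_mul_exp_neg_atTop_nhds_zero 0
  have e1 : (0 : ℝ) < c0 * c ^ a / ((C0 : ℝ) * (2 * C0) ^ (b * a)) := by positivity
  have e0 : (0 : ℝ) < c0 / C0 := by positivity
  have h1 := t1.eventually (gt_mem_nhds e1)
  have h0 := t0.eventually (gt_mem_nhds e0)
  obtain ⟨t, ⟨ht1, ht0⟩, ht⟩ := ((h1.and h0).and (Filter.eventually_ge_atTop (1 : ℝ))).exists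
  refine ⟨Real.exp (-t), Real.exp_pos _, Real.exp_le_one_iff.2 (by linarith), fun H hH hH2 => ?_⟩
  have hHr : (2 : ℝ) ≤ H := by exact_mod_cast hH
  have hlH : 0 < Real.log H := Real.log_pos (by linarith)
  have hlog : Real.log H ≤ 2 * C0 * t := by
    have h2 : Real.log H ≤ Real.log (C0 / Real.exp (-t) ^ C0) :=
      Real.log_le_log (by linarith) hH2
    have h3 : Real.log (C0 / Real.exp (-t) ^ C0) = Real.log C0 + C0 * t := by
      rw [Real.log_div (by positivity) (by positivity), Real.log_pow, Real.log_exp]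
      ring
    have h4 : Real.log C0 ≤ C0 := (Real.log_le_sub_one_of_pos (by linarith)).trans (by linarith)
    have h5 : (C0 : ℝ) ≤ C0 * t := by nlinarith
    linarith
  have hd : Real.exp (-t) ≤ c0 / C0 := by
    have := ht0.le
    simpa using this
  rcases min_cases 1 (c / (Real.log H) ^ b) with ⟨hm, _⟩ | ⟨hm, _⟩
  · rw [hm, one_pow]
    have := mul_le_mul_of_nonneg_left hd (by linarith : (0 : ℝ) ≤ C0)
    have h6 : (C0 : ℝ) * (c0 / C0) = c0 := by field_simp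
    linarith
  · rw [hm, div_pow, ← pow_mul]
    have h7 : t ^ (b * a) * Real.exp (-t) ≤ c0 * c ^ a / ((C0 : ℝ) * (2 * C0) ^ (b * a)) := ht1.le
    have h8 : (Real.log H) ^ (b * a) ≤ (2 * C0 * t) ^ (b * a) := pow_le_pow_left₀ hlH.le hlog _
    rw [mul_div_assoc', le_div_iff₀ (by positivity)]
    calc (C0 : ℝ) * Real.exp (-t) * Real.log H ^ (b * a)
        ≤ (C0 : ℝ) * Real.exp (-t) * (2 * C0 * t) ^ (b * a) :=
          mul_le_mul_of_nonneg_left h8 (by positivity)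
      _ = ((C0 : ℝ) * (2 * C0) ^ (b * a)) * (t ^ (b * a) * Real.exp (-t)) := by
          rw [mul_pow]; ring
      _ ≤ ((C0 : ℝ) * (2 * C0) ^ (b * a)) * (c0 * c ^ a / ((C0 : ℝ) * (2 * C0) ^ (b * a))) :=
          mul_le_mul_of_nonneg_left h7 (by positivity)
      _ = c0 * c ^ a := by field_simp

private theorem LM_nonneg'' (X : ℕ) (B n Q : ℕ) (hX : 1 ≤ X) : 0 ≤ LM X (Dl B X) n Q := by
  have h1 : 0 ≤ Real.log X := Real.log_nonneg (by exact_mod_cast hX)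
  unfold LM Dl
  positivity

/-- one scale -/
theorem oneV (hC : CoreV) (hT : TransF) (hP : PathV) (hS : StrV) (hN : CntV) : OneV := by
  intro ν h0 h1
  obtain ⟨L, a, c0, hL2, hc0, hC⟩ := hC ν h0 h1
  obtain ⟨C0, B1, hB1, hT⟩ := hT ν h0 h1
  obtain ⟨ML, b, cp, hML, hcp, hP⟩ := hP L
  obtain ⟨δ, hδ0, hδ1, hδ⟩ := g6_deltaV c0 cp C0 a b hc0 hcp
  obtain ⟨H, N, hH, hH2, XT, hT⟩ := hT B1 le_rfl δ hδ0 hδ1
  have hδ := hδ H hH2 hH
  have hHr : (2 : ℝ) ≤ H := by exact_mod_cast hH2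
  have hlH : 0 < Real.log H := Real.log_pos (by linarith)
  obtain ⟨ρ, hρdef⟩ : ∃ ρ : ℝ, ρ = min 1 (cp / (Real.log H) ^ b) := ⟨_, rfl⟩
  rw [← hρdef] at hδ
  have hρ0 : 0 < ρ := by rw [hρdef]; exact lt_min one_pos (by positivity)
  have hρ1 : ρ ≤ 1 := by rw [hρdef]; exact min_le_left _ _
  have hρ2 : ρ ≤ cp / (Real.log H) ^ b := by rw [hρdef]; exact min_le_right _ _
  obtain ⟨κ, hκ0, hκ1, XC, hC⟩ := hC B1 ρ hB1 hρ0 hρ1
  obtain ⟨XN, hN⟩ := hN ν h0 h1 H N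
  have hLm : 1 ≤ Lm H := Lm_pos H
  obtain ⟨M, hM⟩ : ∃ M : ℕ, M = 2 * Lm H * ML := ⟨_, rfl⟩
  have hM1 : 1 ≤ M := by
    rw [hM]
    exact Nat.mul_pos (by omega) hML
  have hMd : 2 * Lm H ∣ M := by rw [hM]; exact Dvd.intro _ rfl
  have hMd' : ML ∣ M := by rw [hM]; exact Dvd.intro_left _ rfl
  refine ⟨δ, κ, B1, M, L, hδ0, hκ0, hB1, hM1, by omega, fun c hc0' hcν => ?_⟩
  obtain ⟨Xa, ha⟩ := g6_pow_log_le 0 (2 * (Lm H : ℝ)) c hc0'
  obtain ⟨Xb, hb⟩ := g6_pow_log_le 0 2 ν h0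
  refine ⟨max (max (max XT XC) (max XN Xa)) (max Xb 1), fun X hX h hh => ?_⟩
  simp only [max_le_iff] at hX
  obtain ⟨⟨⟨hXT, hXC⟩, hXN, hXa⟩, hXb, hX1⟩ := hX
  have hXr : (1 : ℝ) ≤ X := by exact_mod_cast hX1
  have hXpos : (0 : ℝ) < X := by linarith
  obtain ⟨Y, Ex, hY, hEx, hY1, hT⟩ := hT X hXT
  have ha := ha X hXa
  have hb := hb X hXb
  rw [pow_zero, mul_one] at ha hb
  obtain ⟨hN0, hN1, hN2⟩ := hN X hXN Y hY (fun ψ hψ => (hY1 ψ hψ).1)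
  -- two failures
  have key : ∀ n n' : ℕ, 6 / 10 * (X : ℝ) ≤ n → n < n' → (n' : ℝ) ≤ 9 / 10 * X →
      ((n' : ℝ) - n) * (20 * L) ≤ X → n ≡ n' [MOD M] → (Nat.gcd n n' : ℝ) ≤ (X : ℝ) ^ c →
      Bd δ n → Bd δ n' → n ∉ Ex → n' ∉ Ex →
      (qY Y H n : ℝ) * (X : ℝ) ^ (ν / 100) ≤ (X : ℝ) ^ (2 / 3 - ν) →
      (qY Y H n' : ℝ) * (X : ℝ) ^ (ν / 100) ≤ (X : ℝ) ^ (2 / 3 - ν) →
      2 * (Lm H : ℝ) * (Nat.lcm (qY Y H n) (qY Y H n') : ℝ) ≤ (X : ℝ) ^ (1 - ν) →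
      ∃ ψ : PC, IsPC ψ ∧ 2 ≤ ψ.1 ∧ (ψ.1 : ℝ) ≤ (X : ℝ) ^ (2 * c) ∧
          κ ≤ sN X (4 * (Real.log X) ^ B1) ψ ∧ ψ.1 ∣ M * Nat.gcd n n' := by
    intro n n' a1 hnn b2 hdist hmod hg g1 g2 e1 e2 hq1 hq2 hl
    have hnnr : (n : ℝ) < n' := by exact_mod_cast hnn
    have hn1 : 1 ≤ n := by
      have : (0 : ℝ) < n := by linarith
      exact_mod_cast this
    have hn1' : 1 ≤ n' := by omega
    obtain ⟨W, Q1, Q2, q1, q2, hgcd, h2W, hW, d1, d2, hQW1, hQW2, hlcm, f1, f2, hpr⟩ :=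
      hS Y H n n' (fun ψ hψ => (hY1 ψ hψ).1) hH2 hn1 hn1'
    have hW1 : 1 ≤ W := by
      rw [← hgcd]
      exact Nat.gcd_pos_of_pos_left _ q1
    have hgpos : 0 < Nat.gcd n n' := Nat.gcd_pos_of_pos_left _ hn1
    have hWle : (W : ℝ) ≤ (X : ℝ) ^ (2 * c) := by
      have hW2 : W ≤ 2 * Lm H * Nat.gcd n n' := Nat.le_of_dvd (by positivity) hW
      have hW3 : (W : ℝ) ≤ 2 * (Lm H : ℝ) * (Nat.gcd n n' : ℝ) := by exact_mod_cast hW2
      calc (W : ℝ) ≤ 2 * (Lm H : ℝ) * (Nat.gcd n n' : ℝ) := hW3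
        _ ≤ (X : ℝ) ^ c * (X : ℝ) ^ c :=
            mul_le_mul ha hg (Nat.cast_nonneg _) (by positivity)
        _ = (X : ℝ) ^ (2 * c) := by
            rw [← Real.rpow_add hXpos]
            congr 1
            ring
    by_contra hno
    have hNoH : NoH X B1 W κ := by
      intro ψ p1 p2 p3
      by_contra hcon
      push Not at hcon
      apply hno
      refine ⟨ψ, p1, p2, ?_, hcon.le, (p3.trans hW).trans (Nat.mul_dvd_mul_right hMd _)⟩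
      refine le_trans ?_ hWle
      exact_mod_cast Nat.le_of_dvd hW1 p3
    have hlcm' : (Nat.lcm Q1 Q2 : ℝ) ≤ (X : ℝ) ^ (1 - ν) := by
      refine le_trans ?_ hl
      exact_mod_cast hlcm
    have hWν : (W : ℝ) ≤ (X : ℝ) ^ (ν / 100) :=
      hWle.trans (Real.rpow_le_rpow_of_exponent_le hXr (by linarith))
    have hQ1 : (Q1 : ℝ) ≤ (X : ℝ) ^ (2 / 3 - ν) := by
      have h5 : (Q1 : ℝ) ≤ (qY Y H n : ℝ) * W := by exact_mod_cast hQW1
      exact h5.trans ((mul_le_mul_of_nonneg_left hWν (Nat.cast_nonneg _)).trans hq1)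
    have hQ2 : (Q2 : ℝ) ≤ (X : ℝ) ^ (2 / 3 - ν) := by
      have h5 : (Q2 : ℝ) ≤ (qY Y H n' : ℝ) * W := by exact_mod_cast hQW2
      exact h5.trans ((mul_le_mul_of_nonneg_left hWν (Nat.cast_nonneg _)).trans hq2)
    have hWQ1 : W ∣ Q1 := by rw [← hgcd]; exact Nat.gcd_dvd_left _ _
    have hWQ2 : W ∣ Q2 := by rw [← hgcd]; exact Nat.gcd_dvd_right _ _
    have T1 := hT n a1 (by linarith) g1.1 e1 g1.2 Q1 q1 (h2W.trans hWQ1) hQ1 f1
    have T2 := hT n' (by linarith) b2 g2.1 e2 g2.2 Q2 q2 (h2W.trans hWQ2) hQ2 f2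
    have hPa := hP H W n n' hH2 hW1 g1.1 g2.1 hpr (hmod.of_dvd hMd')
    have hPb : ρ * Nat.totient W ≤ ((PSet W n n' L).card : ℝ) :=
      le_trans (mul_le_mul_of_nonneg_right hρ2 (Nat.cast_nonneg _)) hPa
    exact hC X hXC n n' Q1 Q2 W q1 q2 hgcd hWν hNoH d1 d2 hQ1 hQ2 hlcm' a1 (by linarith)
      (by rw [abs_of_pos (by linarith)]; exact hdist) hPb
      (T1.trans (mul_le_mul_of_nonneg_right hδ (LM_nonneg'' X B1 n Q1 hX1)))
      (T2.trans (mul_le_mul_of_nonneg_right hδ (LM_nonneg'' X B1 n' Q2 hX1)))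
  classical
  have hhr : (1 : ℝ) ≤ h := by exact_mod_cast hh
  have hP2 : (0 : ℝ) ≤ (X : ℝ) ^ (1 / 3 + 2 * ν) := by positivity
  have hmono : (X : ℝ) ^ (1 / 3 + ν) ≤ (X : ℝ) ^ (1 / 3 + 2 * ν) :=
    Real.rpow_le_rpow_of_exponent_le hXr (by linarith)
  have hmono3 : (X : ℝ) ^ (2 * ν) ≤ (X : ℝ) ^ (3 * ν) :=
    Real.rpow_le_rpow_of_exponent_le hXr (by linarith)
  have hsplit : (X : ℝ) ^ (1 / 3 + 3 * ν) = (X : ℝ) ^ (1 / 3 + 2 * ν) * (X : ℝ) ^ ν := by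
    rw [← Real.rpow_add hXpos]
    congr 1
    ring
  obtain ⟨S0, hS0def⟩ : ∃ S0, S0 = (Icc 1 X).filter (fun n : ℕ =>
      (X : ℝ) ^ (2 / 3 - ν) < (qY Y H n : ℝ) * (X : ℝ) ^ (ν / 100)) := ⟨_, rfl⟩
  have hS0 : (S0.card : ℝ) ≤ (X : ℝ) ^ (1 / 3 + 2 * ν) := by rw [hS0def]; exact hN0
  have hE0 : ((Ex ∪ S0).card : ℝ) ≤ (X : ℝ) ^ (1 / 3 + 3 * ν) := by
    have hu : ((Ex ∪ S0).card : ℝ) ≤ (Ex.card : ℝ) + S0.card := by
      exact_mod_cast card_union_le _ _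
    rw [hsplit]
    calc ((Ex ∪ S0).card : ℝ) ≤ (Ex.card : ℝ) + S0.card := hu
      _ ≤ (X : ℝ) ^ (1 / 3 + 2 * ν) * 2 := by linarith
      _ ≤ (X : ℝ) ^ (1 / 3 + 2 * ν) * (X : ℝ) ^ ν := mul_le_mul_of_nonneg_left hb hP2
  have hq0 : ∀ x : ℕ, 6 / 10 * (X : ℝ) ≤ x → (x : ℝ) ≤ 9 / 10 * X → x ∉ S0 →
      (qY Y H x : ℝ) * (X : ℝ) ^ (ν / 100) ≤ (X : ℝ) ^ (2 / 3 - ν) := by
    intro x x1 x2 x3
    by_contra hcon
    push Not at hcon
    apply x3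
    rw [hS0def, mem_filter, mem_Icc]
    refine ⟨⟨?_, ?_⟩, hcon⟩
    · have : (0 : ℝ) < x := by linarith
      exact_mod_cast this
    · have : (x : ℝ) ≤ X := by linarith
      exact_mod_cast this
  rcases le_or_gt (h : ℝ) ((X : ℝ) ^ (1 / 2 : ℝ)) with hcase | hcase
  · -- small `h`
    obtain ⟨S, hSdef⟩ : ∃ S, S = (Icc 1 X).filter (fun n : ℕ => ∃ n' : ℕ, 1 ≤ n' ∧ n' ≤ 2 * X ∧
      n' ≤ n + h ∧ n ≤ n' + h ∧
      (X : ℝ) ^ (1 - ν) < 2 * (Lm H : ℝ) * (Nat.lcm (qY Y H n) (qY Y H n') : ℝ)) := ⟨_, rfl⟩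
    have hS1 : (S.card : ℝ) ≤ h * (X : ℝ) ^ (2 * ν) := by rw [hSdef]; exact hN1 h hh
    refine ⟨(Ex ∪ S0) ∪ S, ?_, ?_⟩
    · rw [min_eq_left hcase]
      have hu : (((Ex ∪ S0) ∪ S).card : ℝ) ≤ ((Ex ∪ S0).card : ℝ) + S.card := by
        exact_mod_cast card_union_le _ _
      have h9 : h * (X : ℝ) ^ (2 * ν) ≤ h * (X : ℝ) ^ (3 * ν) :=
        mul_le_mul_of_nonneg_left hmono3 (by linarith)
      linarith
    · intro m m' a1 hmm hmh a2 hdist hm hm' g1 g2 hmod hg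
      rw [mem_union, mem_union, not_or, not_or] at hm hm'
      have hmmr : (m : ℝ) < m' := by exact_mod_cast hmm
      refine key m m' a1 hmm a2 hdist hmod hg g1 g2 hm.1.1 hm'.1.1
        (hq0 m a1 (by linarith) hm.1.2) (hq0 m' (by linarith) a2 hm'.1.2) ?_
      by_contra hcon
      push Not at hcon
      apply hm.2
      rw [hSdef, mem_filter, mem_Icc]
      refine ⟨⟨?_, ?_⟩, m', ?_, ?_, hmh, by omega, hcon⟩
      · have : (0 : ℝ) < m := by linarith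
        exact_mod_cast this
      · have : (m : ℝ) ≤ X := by linarith
        exact_mod_cast this
      · have : (0 : ℝ) < m' := by linarith
        exact_mod_cast this
      · have : (m' : ℝ) ≤ ((2 * X : ℕ) : ℝ) := by push_cast; linarith
        exact_mod_cast this
  · -- large `h`
    obtain ⟨S, hSdef⟩ : ∃ S, S = (Icc 1 X).filter (fun n : ℕ =>
      (X : ℝ) ^ (1 - ν) < 2 * (Lm H : ℝ) * (qY Y H n : ℝ) ^ 2) := ⟨_, rfl⟩
    have hS1 : (S.card : ℝ) ≤ (X : ℝ) ^ (1 / 2 + 2 * ν) := by rw [hSdef]; exact hN2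
    refine ⟨(Ex ∪ S0) ∪ S, ?_, ?_⟩
    · rw [min_eq_right hcase.le]
      have hu : (((Ex ∪ S0) ∪ S).card : ℝ) ≤ ((Ex ∪ S0).card : ℝ) + S.card := by
        exact_mod_cast card_union_le _ _
      have h8 : (X : ℝ) ^ (1 / 2 + 2 * ν) = (X : ℝ) ^ (1 / 2 : ℝ) * (X : ℝ) ^ (2 * ν) :=
        Real.rpow_add hXpos _ _
      have h9 : (X : ℝ) ^ (1 / 2 : ℝ) * (X : ℝ) ^ (2 * ν) ≤
          (X : ℝ) ^ (1 / 2 : ℝ) * (X : ℝ) ^ (3 * ν) :=
        mul_le_mul_of_nonneg_left hmono3 (by positivity)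
      linarith
    · intro m m' a1 hmm hmh a2 hdist hm hm' g1 g2 hmod hg
      rw [mem_union, mem_union, not_or, not_or] at hm hm'
      have hmmr : (m : ℝ) < m' := by exact_mod_cast hmm
      have hq : ∀ x : ℕ, 6 / 10 * (X : ℝ) ≤ x → (x : ℝ) ≤ 9 / 10 * X → x ∉ S →
          2 * (Lm H : ℝ) * (qY Y H x : ℝ) ^ 2 ≤ (X : ℝ) ^ (1 - ν) := by
        intro x x1 x2 x3
        by_contra hcon
        push Not at hcon
        apply x3
        rw [hSdef, mem_filter, mem_Icc]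
        refine ⟨⟨?_, ?_⟩, hcon⟩
        · have : (0 : ℝ) < x := by linarith
          exact_mod_cast this
        · have : (x : ℝ) ≤ X := by linarith
          exact_mod_cast this
      have q1 := hq m a1 (by linarith) hm.2
      have q2 := hq m' (by linarith) a2 hm'.2
      refine key m m' a1 hmm a2 hdist hmod hg g1 g2 hm.1.1 hm'.1.1
        (hq0 m a1 (by linarith) hm.1.2) (hq0 m' (by linarith) a2 hm'.1.2) ?_
      have hlc : (Nat.lcm (qY Y H m) (qY Y H m') : ℝ) ≤ (qY Y H m : ℝ) * (qY Y H m' : ℝ) := by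
        have h5 : Nat.lcm (qY Y H m) (qY Y H m') ≤ qY Y H m * qY Y H m' := Nat.div_le_self _ _
        exact_mod_cast h5
      have hL0 : (0 : ℝ) < Lm H := by exact_mod_cast hLm
      have h6 : (qY Y H m : ℝ) * (qY Y H m' : ℝ) ≤
          ((qY Y H m : ℝ) ^ 2 + (qY Y H m' : ℝ) ^ 2) / 2 := by
        nlinarith [sq_nonneg ((qY Y H m : ℝ) - (qY Y H m' : ℝ))]
      calc 2 * (Lm H : ℝ) * (Nat.lcm (qY Y H m) (qY Y H m') : ℝ)
          ≤ 2 * (Lm H : ℝ) * (((qY Y H m : ℝ) ^ 2 + (qY Y H m' : ℝ) ^ 2) / 2) :=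
            mul_le_mul_of_nonneg_left (hlc.trans h6) (by positivity)
        _ = (2 * (Lm H : ℝ) * (qY Y H m : ℝ) ^ 2 + 2 * (Lm H : ℝ) * (qY Y H m' : ℝ) ^ 2) / 2 := by
            ring
        _ ≤ (X : ℝ) ^ (1 - ν) := by linarith

end Pool.MP_dd84fd_nt.TC
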