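import Pool.Agent.Lib.MP_dd84fd_nt.TC.Pth
import Pool.Agent.Lib.MP_dd84fd_nt.TC.VDefs

/-!
# TC-PthV: the number of paths of `L` vertices (helper15)

`gcV` is the number of `c` whose first `L` vertices are units; multiplicative (Chinese remainder theorem),
`gcV (p^k) ≥ p^(k-1) gcV p`, `gcV p ≥ (p-1) (1 - 1/p)^a`, `a = (L+2)²` (`p - 1` if `p ∣ n, n'`; for `p ≤ L + 1`
from `n ≡ n' (mod p)`); Mertens.
-/

set_option autoImplicit false

namespace Pool.MP_dd84fd_nt.TC

open Finset Pool.MP_67663b_nt.Odd Pool.MP_dd84fd_nt.En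

theorem map_vtx {A B : Type*} [AddCommGroup A] [AddCommGroup B] (f : A →+ B) (n n' c : A) (i : ℕ) :
    f (vtx n n' c i) = vtx (f n) (f n') (f c) i := by
  induction i with
  | zero => rfl
  | succ i ih =>
    simp only [vtx, map_sub, ih]
    split_ifs <;> rfl

theorem vtx_eq {R : Type*} [CommRing R] (n n' c : R) (i : ℕ) :
    vtx n n' c i = (-1) ^ i * c + vtx n n' 0 i := by
  induction i with
  | zero => simp [vtx]
  | succ i ih =>
    simp only [vtx]
    rw [ih, pow_succ]
    ring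

/-- `n = n'`: only two vertices -/
theorem vtx_same {R : Type*} [CommRing R] (n c : R) (i : ℕ) :
    vtx n n c i = if Even i then c else n - c := by
  induction i with
  | zero => simp [vtx]
  | succ i ih =>
    simp only [vtx]
    rw [ih]
    by_cases h : Even i
    · have h2 : ¬ Even (i + 1) := by
        rw [Nat.even_add_one]
        exact not_not.2 h
      rw [if_pos h, if_pos h, if_neg h2]
    · have h2 : Even (i + 1) := Nat.even_add_one.2 h
      rw [if_neg h, if_neg h, if_pos h2]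
      ring

/-- good elements -/
def GdV (n n' L : ℕ) (R : Type) [CommRing R] (c : R) : Prop :=
  ∀ i < L, IsUnit (vtx (n : R) (n' : R) c i)

/-- their number -/
noncomputable def gcV (n n' L : ℕ) (R : Type) [CommRing R] : ℕ := Nat.card {c : R // GdV n n' L R c}

theorem gcV_equiv (n n' L : ℕ) (R S : Type) [CommRing R] [CommRing S] (e : R ≃+* S) :
    gcV n n' L R = gcV n n' L S := by
  refine Nat.card_congr (Equiv.subtypeEquiv e.toEquiv fun c => ?_)
  have h : ∀ x : R, IsUnit x ↔ IsUnit (e x) := fun x => (MulEquiv.isUnit_map e.toMulEquiv).symm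
  unfold GdV
  refine forall_congr' fun i => forall_congr' fun _ => ?_
  rw [h]
  have h2 := map_vtx (e : R →+* S).toAddMonoidHom (n : R) (n' : R) c i
  simp only [RingHom.toAddMonoidHom_eq_coe, AddMonoidHom.coe_coe, RingHom.coe_coe,
    map_natCast] at h2
  rw [h2]
  rfl

theorem gcV_prod (n n' L : ℕ) (S T : Type) [CommRing S] [CommRing T] :
    gcV n n' L (S × T) = gcV n n' L S * gcV n n' L T := by
  unfold gcV
  rw [← Nat.card_prod]
  refine Nat.card_congr ?_
  refine Equiv.trans (Equiv.subtypeEquivRight fun c => ?_)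
    (Equiv.subtypeProdEquivProd (p := GdV n n' L S) (q := GdV n n' L T))
  unfold GdV
  have e1 : ∀ i, (vtx (n : S × T) (n' : S × T) c i).1 = vtx (n : S) (n' : S) c.1 i := by
    intro i
    have := map_vtx (AddMonoidHom.fst S T) (n : S × T) (n' : S × T) c i
    simpa using this
  have e2 : ∀ i, (vtx (n : S × T) (n' : S × T) c i).2 = vtx (n : T) (n' : T) c.2 i := by
    intro i
    have := map_vtx (AddMonoidHom.snd S T) (n : S × T) (n' : S × T) c i
    simpa using this
  constructor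
  · intro h
    refine ⟨fun i hi => ?_, fun i hi => ?_⟩
    · rw [← e1]; exact (Prod.isUnit_iff.1 (h i hi)).1
    · rw [← e2]; exact (Prod.isUnit_iff.1 (h i hi)).2
  · intro h i hi
    rw [Prod.isUnit_iff, e1, e2]
    exact ⟨h.1 i hi, h.2 i hi⟩

theorem gcV_mul (n n' L a b : ℕ) (h : Nat.Coprime a b) :
    gcV n n' L (ZMod (a * b)) = gcV n n' L (ZMod a) * gcV n n' L (ZMod b) := by
  rw [gcV_equiv n n' L _ _ (ZMod.chineseRemainder h), gcV_prod]

theorem gcV_pow (n n' L p k : ℕ) (hp : p.Prime) (hk : 0 < k) :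
    p ^ (k - 1) * gcV n n' L (ZMod p) ≤ gcV n n' L (ZMod (p ^ k)) := by
  have : NeZero p := ⟨hp.ne_zero⟩
  have : NeZero (p ^ k) := ⟨(pow_pos hp.pos k).ne'⟩
  have hpk : p ^ k = p * p ^ (k - 1) := by
    rw [← pow_succ']
    congr 1
    omega
  set f := ZMod.castHom (dvd_pow_self p hk.ne') (ZMod p) with hf
  have hgd : ∀ c : ZMod (p ^ k), GdV n n' L (ZMod (p ^ k)) c ↔ GdV n n' L (ZMod p) (f c) := by
    intro c
    unfold GdV
    refine forall_congr' fun i => forall_congr' fun _ => ?_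
    rw [unit_pow p k hp hk]
    have h2 := map_vtx f.toAddMonoidHom (n : ZMod (p ^ k)) (n' : ZMod (p ^ k)) c i
    simp only [RingHom.toAddMonoidHom_eq_coe, AddMonoidHom.coe_coe, map_natCast] at h2
    rw [← h2]
  have hlt : ∀ (b : ZMod p) (t : Fin (p ^ (k - 1))), b.val + p * t.1 < p ^ k := by
    intro b t
    have h1 := ZMod.val_lt b
    have h2 := t.2
    calc b.val + p * t.1 < p + p * t.1 := by omega
      _ = p * (t.1 + 1) := by ring
      _ ≤ p * p ^ (k - 1) := Nat.mul_le_mul_left _ h2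
      _ = p ^ k := hpk.symm
  have hfc : ∀ (b : ZMod p) (t : Fin (p ^ (k - 1))),
      f (((b.val + p * t.1 : ℕ)) : ZMod (p ^ k)) = b := by
    intro b t
    rw [map_natCast]
    push_cast
    rw [ZMod.natCast_zmod_val, CharP.cast_eq_zero, zero_mul, add_zero]
  have h1 : Nat.card (Fin (p ^ (k - 1)) × {b : ZMod p // GdV n n' L (ZMod p) b}) ≤
      Nat.card {c : ZMod (p ^ k) // GdV n n' L (ZMod (p ^ k)) c} := by
    refine Nat.card_le_card_of_injective
      (fun x => ⟨((x.2.1.val + p * x.1.1 : ℕ) : ZMod (p ^ k)), ?_⟩) ?_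
    · rw [hgd, hfc]
      exact x.2.2
    · rintro ⟨t, b, hb⟩ ⟨t', b', hb'⟩ h
      simp only [Subtype.mk.injEq] at h
      have e1 : b = b' := by
        have := congrArg f h
        rw [hfc, hfc] at this
        exact this
      subst e1
      have e2 := congrArg ZMod.val h
      rw [ZMod.val_cast_of_lt (hlt b t), ZMod.val_cast_of_lt (hlt b t')] at e2
      have e3 : p * t.1 = p * t'.1 := by omega
      have e4 : t.1 = t'.1 := Nat.eq_of_mul_eq_mul_left hp.pos e3
      have e5 : t = t' := Fin.ext e4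
      rw [e5]
  rw [Nat.card_prod, Nat.card_fin] at h1
  exact h1

open Classical in
/-- the local factor -/
noncomputable def pwV (n n' a p : ℕ) : ℝ := if p ∣ n ∧ p ∣ n' then 1 else (1 - 1 / (p : ℝ)) ^ a

theorem pwV_nonneg (n n' a p : ℕ) (hp : p.Prime) : 0 ≤ pwV n n' a p := by
  unfold pwV
  have h2 : (2 : ℝ) ≤ p := by exact_mod_cast hp.two_le
  have h3 : 1 / (p : ℝ) ≤ 1 := by
    rw [div_le_one (by linarith)]
    linarith
  split_ifs
  · norm_num
  · exact pow_nonneg (by linarith) a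

/-- the number of good elements is at least `p` minus the number of bad elements -/
theorem gcV_ge (n n' L p : ℕ) (hp : p.Prime) (S : Finset (ZMod p))
    (hS : ∀ c : ZMod p, c ∉ S → GdV n n' L (ZMod p) c) : p ≤ gcV n n' L (ZMod p) + S.card := by
  classical
  have : NeZero p := ⟨hp.ne_zero⟩
  have h1 : gcV n n' L (ZMod p) =
      ((univ : Finset (ZMod p)).filter (fun c => GdV n n' L (ZMod p) c)).card := by
    unfold gcV
    rw [Nat.card_eq_fintype_card, Fintype.card_subtype]
  have h2 : (univ : Finset (ZMod p)) ⊆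
      (univ : Finset (ZMod p)).filter (fun c => GdV n n' L (ZMod p) c) ∪ S := by
    intro c _
    rw [mem_union, mem_filter]
    by_cases hc : c ∈ S
    · exact Or.inr hc
    · exact Or.inl ⟨mem_univ _, hS c hc⟩
  have h3 := card_le_card h2
  rw [card_univ, ZMod.card] at h3
  rw [h1]
  exact h3.trans (card_union_le _ _)

theorem pwV_up (p b : ℝ) (a : ℕ) (hp : 2 ≤ p) (hab : (a : ℝ) * b ≤ (a - b + 1) * p) :
    (p - 1) * (1 - 1 / p) ^ a ≤ p - b := by
  have h0 : 0 < p := by linarith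
  have h1 : 0 < 1 / p := by positivity
  have h2 : 1 / p ≤ 1 := by
    rw [div_le_one h0]
    linarith
  have h3 : 1 + (a : ℝ) * (1 / p) ≤ (1 + 1 / p) ^ a := one_add_mul_le_pow (by linarith) a
  have h4 : (1 - 1 / p) ^ a * (1 + 1 / p) ^ a ≤ 1 := by
    rw [← mul_pow]
    refine pow_le_one₀ ?_ ?_
    · exact mul_nonneg (by linarith) (by linarith)
    · nlinarith
  have h5 : 0 ≤ (1 - 1 / p) ^ a := pow_nonneg (by linarith) a
  have h6 : (1 - 1 / p) ^ a * (1 + (a : ℝ) * (1 / p)) ≤ 1 :=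
    (mul_le_mul_of_nonneg_left h3 h5).trans h4
  have ha : (0 : ℝ) ≤ a := Nat.cast_nonneg _
  have h7 : (1 - 1 / p) ^ a * (p + a) ≤ p := by
    have h8 : (1 - 1 / p) ^ a * (1 + (a : ℝ) * (1 / p)) * p ≤ 1 * p :=
      mul_le_mul_of_nonneg_right h6 h0.le
    have h9 : (1 - 1 / p) ^ a * (1 + (a : ℝ) * (1 / p)) * p = (1 - 1 / p) ^ a * (p + a) := by
      field_simp
    rw [h9] at h8
    linarith
  have h8 : (p - 1) * p ≤ (p - b) * (p + a) := by nlinarith
  have h9 : (p - 1) * (1 - 1 / p) ^ a * (p + a) ≤ (p - b) * (p + a) := by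
    calc (p - 1) * (1 - 1 / p) ^ a * (p + a) = (p - 1) * ((1 - 1 / p) ^ a * (p + a)) := by ring
      _ ≤ (p - 1) * p := mul_le_mul_of_nonneg_left h7 (by linarith)
      _ ≤ _ := h8
  exact le_of_mul_le_mul_right h9 (by linarith)

/-- the prime case -/
theorem gcV_prime (n n' L p : ℕ) (hp : p.Prime) (hn : Even n) (hn' : Even n')
    (h3 : p ≤ L + 1 → (n : ZMod p) = (n' : ZMod p)) :
    ((p : ℝ) - 1) * pwV n n' ((L + 2) ^ 2) p ≤ (gcV n n' L (ZMod p) : ℝ) := by
  classical
  have : Fact p.Prime := ⟨hp⟩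
  have hp2' : (2 : ℝ) ≤ p := by exact_mod_cast hp.two_le
  unfold pwV
  split_ifs with h
  · -- `p` divides both numbers
    have e1 : (n : ZMod p) = 0 := (ZMod.natCast_eq_zero_iff n p).2 h.1
    have e2 : (n' : ZMod p) = 0 := (ZMod.natCast_eq_zero_iff n' p).2 h.2
    have h4 := gcV_ge n n' L p hp {0} (fun c hc => by
      intro i _
      rw [mem_singleton] at hc
      rw [e1, e2, vtx_same, isUnit_iff_ne_zero]
      split_ifs
      · exact hc
      · rw [zero_sub]; exact neg_ne_zero.2 hc)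
    rw [card_singleton] at h4
    have h5 : (p : ℝ) ≤ (gcV n n' L (ZMod p) : ℝ) + 1 := by exact_mod_cast h4
    linarith
  · have hp2 : p ≠ 2 := by
      rintro rfl
      exact h ⟨even_iff_two_dvd.1 hn, even_iff_two_dvd.1 hn'⟩
    have hp3 : 3 ≤ p := by
      have := hp.two_le
      omega
    have hp3' : (3 : ℝ) ≤ p := by exact_mod_cast hp3
    have hL0 : (0 : ℝ) ≤ L := Nat.cast_nonneg _
    rcases Nat.lt_or_ge (L + 1) p with h7 | h7
    · have h4 := gcV_ge n n' L p hp
        ((range L).image fun i => -((-1) ^ i * vtx (n : ZMod p) (n' : ZMod p) 0 i))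
        (fun c hc => by
          intro i hi
          rw [isUnit_iff_ne_zero]
          intro h0
          apply hc
          rw [mem_image]
          refine ⟨i, mem_range.2 hi, ?_⟩
          rw [vtx_eq] at h0
          have e1 : ((-1 : ZMod p) ^ i) * (-1) ^ i = 1 := by
            rw [← mul_pow]
            simp
          have e2 : (-1 : ZMod p) ^ i * ((-1) ^ i * c + vtx (n : ZMod p) (n' : ZMod p) 0 i) = 0 := by
            rw [h0, mul_zero]
          rw [mul_add, ← mul_assoc, e1, one_mul] at e2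
          linear_combination -e2)
      have h5 : ((range L).image fun i =>
          -((-1) ^ i * vtx (n : ZMod p) (n' : ZMod p) 0 i)).card ≤ L := by
        refine card_image_le.trans ?_
        rw [card_range]
      have h6 : (p : ℝ) ≤ (gcV n n' L (ZMod p) : ℝ) + L := by
        exact_mod_cast h4.trans (by omega)
      have h7' : (L : ℝ) + 2 ≤ p := by exact_mod_cast h7
      have h8 := pwV_up (p : ℝ) (L : ℝ) ((L + 2) ^ 2) hp2' (by
        push_cast
        have h9 : (0 : ℝ) ≤ ((L : ℝ) + 2) ^ 2 - L + 1 := by nlinarith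
        nlinarith [mul_le_mul_of_nonneg_left h7' h9])
      linarith
    · have e1 := h3 h7
      have h4 := gcV_ge n n' L p hp {0, (n : ZMod p)} (fun c hc => by
        intro i _
        rw [mem_insert, mem_singleton, not_or] at hc
        rw [← e1, vtx_same, isUnit_iff_ne_zero]
        split_ifs
        · exact hc.1
        · rw [sub_ne_zero]; exact Ne.symm hc.2)
      have h5 := card_le_two (a := (0 : ZMod p)) (b := (n : ZMod p))
      have h6 : (p : ℝ) ≤ (gcV n n' L (ZMod p) : ℝ) + 2 := by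
        exact_mod_cast h4.trans (by omega)
      have h8 := pwV_up (p : ℝ) 2 ((L + 2) ^ 2) hp2' (by
        push_cast
        have h9 : (4 : ℝ) ≤ ((L : ℝ) + 2) ^ 2 := by nlinarith
        have h10 := mul_le_mul_of_nonneg_left hp3' (show (0 : ℝ) ≤ ((L : ℝ) + 2) ^ 2 - 2 + 1 by
          linarith)
        linarith)
      linarith

/-- the product -/
theorem gcV_low (n n' L : ℕ) (hn : Even n) (hn' : Even n')
    (h3 : ∀ p : ℕ, p.Prime → p ≤ L + 1 → (n : ZMod p) = (n' : ZMod p)) (W : ℕ) :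
    0 < W → (Nat.totient W : ℝ) * ∏ p ∈ W.primeFactors, pwV n n' ((L + 2) ^ 2) p ≤
      (gcV n n' L (ZMod W) : ℝ) := by
  induction W using Nat.recOnPosPrimePosCoprime with
  | zero => intro h; exact absurd h (lt_irrefl _)
  | one =>
    intro _
    rw [Nat.totient_one, Nat.primeFactors_one, prod_empty]
    have h1 : 1 ≤ gcV n n' L (ZMod 1) := by
      unfold gcV
      have : Nonempty {c : ZMod 1 // GdV n n' L (ZMod 1) c} :=
        ⟨⟨0, fun i _ => isUnit_of_subsingleton _⟩⟩
      exact Nat.card_pos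
    have h2 : (1 : ℝ) ≤ gcV n n' L (ZMod 1) := by exact_mod_cast h1
    simpa using h2
  | prime_pow p k hp hk =>
    intro _
    have hp' : p.Prime := hp
    rw [Nat.primeFactors_prime_pow hk.ne' hp', prod_singleton, Nat.totient_prime_pow hp' hk]
    have h1 := gcV_pow n n' L p k hp' hk
    have h2 := gcV_prime n n' L p hp' hn hn' (h3 p hp')
    have h4 : ((p ^ (k - 1) * gcV n n' L (ZMod p) : ℕ) : ℝ) ≤ gcV n n' L (ZMod (p ^ k)) := by
      exact_mod_cast h1
    push_cast at h4 ⊢
    rw [Nat.cast_sub hp'.one_le, Nat.cast_one]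
    calc (p : ℝ) ^ (k - 1) * ((p : ℝ) - 1) * pwV n n' ((L + 2) ^ 2) p
        = (p : ℝ) ^ (k - 1) * (((p : ℝ) - 1) * pwV n n' ((L + 2) ^ 2) p) := by ring
      _ ≤ (p : ℝ) ^ (k - 1) * gcV n n' L (ZMod p) := mul_le_mul_of_nonneg_left h2 (by positivity)
      _ ≤ _ := h4
  | coprime a b ha hb hab iha ihb =>
    intro _
    have h1 := iha (by omega)
    have h2 := ihb (by omega)
    rw [Nat.totient_mul hab, hab.primeFactors_mul, prod_union hab.disjoint_primeFactors,
      gcV_mul n n' L a b hab]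
    push_cast
    have h4 : 0 ≤ ∏ p ∈ b.primeFactors, pwV n n' ((L + 2) ^ 2) p :=
      prod_nonneg fun p hp => pwV_nonneg n n' _ p (Nat.prime_of_mem_primeFactors hp)
    calc (Nat.totient a : ℝ) * (Nat.totient b : ℝ) *
          ((∏ p ∈ a.primeFactors, pwV n n' ((L + 2) ^ 2) p) *
            ∏ p ∈ b.primeFactors, pwV n n' ((L + 2) ^ 2) p)
        = ((Nat.totient a : ℝ) * ∏ p ∈ a.primeFactors, pwV n n' ((L + 2) ^ 2) p) *
          ((Nat.totient b : ℝ) * ∏ p ∈ b.primeFactors, pwV n n' ((L + 2) ^ 2) p) := by ring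
      _ ≤ _ := mul_le_mul h1 h2 (by positivity) (by positivity)

theorem mem_PSet (W n n' L c : ℕ) : c ∈ PSet W n n' L ↔
    c < W ∧ ∀ i < L, IsUnit (vtx (n : ZMod W) (n' : ZMod W) (c : ZMod W) i) := by
  simp only [PSet, mem_filter, mem_range]

theorem path_cardV (W n n' L : ℕ) (hW : 1 ≤ W) : gcV n n' L (ZMod W) ≤ (PSet W n n' L).card := by
  classical
  have : NeZero W := ⟨by omega⟩
  have h1 : gcV n n' L (ZMod W) =
      ((univ : Finset (ZMod W)).filter (fun c => GdV n n' L (ZMod W) c)).card := by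
    unfold gcV
    rw [Nat.card_eq_fintype_card, Fintype.card_subtype]
  rw [h1]
  refine card_le_card_of_injOn (fun c => c.val) (fun c hc => ?_) (fun c _ c' _ h => ?_)
  · rw [mem_coe, mem_filter] at hc
    rw [mem_coe, mem_PSet]
    refine ⟨ZMod.val_lt c, ?_⟩
    have h2 := hc.2
    unfold GdV at h2
    rw [ZMod.natCast_zmod_val]
    exact h2
  · exact ZMod.val_injective W h

theorem pathV : PathV := by
  classical
  intro L
  obtain ⟨C, hC, hV⟩ := V_inv_le
  set a : ℕ := (L + 2) ^ 2 with ha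
  refine ⟨(L + 1).factorial, a, (1 / (2 * C)) ^ a, Nat.factorial_pos _, by positivity,
    fun H W n n' hH hW hn hn' hp hM => ?_⟩
  have h3 : ∀ p : ℕ, p.Prime → p ≤ L + 1 → (n : ZMod p) = (n' : ZMod p) := by
    intro p hp' hpL
    rw [ZMod.natCast_eq_natCast_iff]
    exact hM.of_dvd (Nat.dvd_factorial hp'.pos hpL)
  have hl2 : 0 < Real.log 2 := Real.log_pos (by norm_num)
  have hHr : (2 : ℝ) ≤ H := by exact_mod_cast hH
  have hlH : Real.log 2 ≤ Real.log H := Real.log_le_log (by norm_num) hHr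
  have hlH0 : 0 < Real.log H := by linarith
  -- Mertens
  have hVp : 0 < V ((H : ℝ) + 1) := V_pos _
  have hV1 : 1 / (2 * C * Real.log H) ≤ V ((H : ℝ) + 1) := by
    have h1 := hV ((H : ℝ) + 1) (by linarith)
    have h2 : Real.log ((H : ℝ) + 1) ≤ 2 * Real.log H := by
      have h4 : Real.log ((H : ℝ) ^ 2) = 2 * Real.log H := by
        rw [Real.log_pow]; norm_num
      rw [← h4]
      exact Real.log_le_log (by linarith) (by nlinarith)
    have h4 : 1 / V ((H : ℝ) + 1) ≤ 2 * C * Real.log H := by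
      refine h1.trans ?_
      calc C * Real.log ((H : ℝ) + 1) ≤ C * (2 * Real.log H) := mul_le_mul_of_nonneg_left h2 hC.le
        _ = 2 * C * Real.log H := by ring
    rw [div_le_iff₀ hVp] at h4
    rw [div_le_iff₀ (by positivity)]
    linarith
  have hprod : V ((H : ℝ) + 1) ^ a ≤ ∏ p ∈ W.primeFactors, pwV n n' a p := by
    unfold V
    rw [← prod_pow]
    have hnn : ∀ p ∈ pr 0 ((H : ℝ) + 1), 0 ≤ (1 - 1 / (p : ℝ)) ^ a ∧ (1 - 1 / (p : ℝ)) ^ a ≤ 1 := by
      intro p hp'
      have h1 := (mem_pr.1 hp').1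
      have h2 : (2 : ℝ) ≤ p := by exact_mod_cast h1.two_le
      have h4 : 1 / (p : ℝ) ≤ 1 := by
        rw [div_le_one (by linarith)]
        linarith
      have h5 : 0 < 1 / (p : ℝ) := by positivity
      exact ⟨pow_nonneg (by linarith) a, pow_le_one₀ (by linarith) (by linarith)⟩
    -- split
    have hsplit : ∏ p ∈ W.primeFactors, pwV n n' a p =
        ∏ p ∈ W.primeFactors.filter (fun p => ¬ (p ∣ n ∧ p ∣ n')), (1 - 1 / (p : ℝ)) ^ a := by
      rw [prod_filter]
      refine prod_congr rfl fun p _ => ?_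
      unfold pwV
      by_cases h : p ∣ n ∧ p ∣ n'
      · rw [if_pos h, if_neg (not_not.2 h)]
      · rw [if_neg h, if_pos h]
    rw [hsplit]
    have hsub : W.primeFactors.filter (fun p => ¬ (p ∣ n ∧ p ∣ n')) ⊆ pr 0 ((H : ℝ) + 1) := by
      intro p hp'
      rw [mem_filter, Nat.mem_primeFactors] at hp'
      obtain ⟨⟨a1, a2, -⟩, a3⟩ := hp'
      rw [mem_pr]
      refine ⟨a1, Nat.cast_nonneg _, ?_⟩
      rcases hp p a1 a2 with h | h
      · have : (p : ℝ) ≤ H := by exact_mod_cast h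
        linarith
      · exact absurd h a3
    rw [← prod_sdiff hsub]
    have k1 : ∏ p ∈ pr 0 ((H : ℝ) + 1) \ W.primeFactors.filter (fun p => ¬ (p ∣ n ∧ p ∣ n')),
        (1 - 1 / (p : ℝ)) ^ a ≤ 1 := prod_le_one (fun p hp' => (hnn p (mem_sdiff.1 hp').1).1)
          (fun p hp' => (hnn p (mem_sdiff.1 hp').1).2)
    have k2 : 0 ≤ ∏ p ∈ W.primeFactors.filter (fun p => ¬ (p ∣ n ∧ p ∣ n')),
        (1 - 1 / (p : ℝ)) ^ a := prod_nonneg fun p hp' => (hnn p (hsub hp')).1
    calc _ ≤ 1 * ∏ p ∈ W.primeFactors.filter (fun p => ¬ (p ∣ n ∧ p ∣ n')),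
        (1 - 1 / (p : ℝ)) ^ a := mul_le_mul_of_nonneg_right k1 k2
      _ = _ := one_mul _
  have h1 := gcV_low n n' L hn hn' h3 W (by omega)
  have h2 : (gcV n n' L (ZMod W) : ℝ) ≤ ((PSet W n n' L).card : ℝ) := by
    exact_mod_cast path_cardV W n n' L hW
  have h4 : (1 / (2 * C)) ^ a / (Real.log H) ^ a ≤ V ((H : ℝ) + 1) ^ a := by
    have h5 : (1 / (2 * C * Real.log H)) ^ a ≤ V ((H : ℝ) + 1) ^ a :=
      pow_le_pow_left₀ (by positivity) hV1 a
    refine le_trans (le_of_eq ?_) h5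
    rw [← div_pow, div_div]
  calc (1 / (2 * C)) ^ a / (Real.log H) ^ a * Nat.totient W
      ≤ (∏ p ∈ W.primeFactors, pwV n n' a p) * Nat.totient W :=
        mul_le_mul_of_nonneg_right (h4.trans hprod) (Nat.cast_nonneg _)
    _ = Nat.totient W * ∏ p ∈ W.primeFactors, pwV n n' a p := mul_comm _ _
    _ ≤ _ := h1.trans h2

end Pool.MP_dd84fd_nt.TC
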