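import Pool.Agent.Lib.MP_dd84fd_nt.TC.Str
import Pool.Agent.Lib.MP_dd84fd_nt.TC.VDefs

/-!
# TC-StrV: the moduli (helper15)

`W = lcm(2Λ, (q₁, q₂))`, `Q_i = lcm(q_i, W)`, `Λ = lcm(1, …, H)` as in TC/Str.lean; `(q₁, q₂)` divides
`(n Λ, n' Λ) = Λ (n, n')`; as TC/StrH.lean, with the bounds `Q_i ≤ q_i W`.
-/

set_option autoImplicit false

namespace Pool.MP_dd84fd_nt.TC

open Finset Pool.MP_67663b_nt.Odd
open Pool.MP_dd84fd_nt.BX (PC pv IsPC PR SX sN prc ind)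

theorem strV : StrV := by
  classical
  intro Y H n n' hY hH hn hn'
  set q1 := qY Y H n with hq1
  set q2 := qY Y H n' with hq2
  set Λ := Lm H with hΛ
  have hΛ0 : 0 < Λ := Lm_pos H
  have p1 : 0 < q1 := qY_pos Y H n hY
  have p2 : 0 < q2 := qY_pos Y H n' hY
  have d1 : q1 ∣ n * Λ := qY_dvd Y H n hY
  have d2 : q2 ∣ n' * Λ := qY_dvd Y H n' hY
  set W := Nat.lcm (2 * Λ) (Nat.gcd q1 q2) with hW
  have hW0 : 0 < W := Nat.lcm_pos (by omega) (Nat.gcd_pos_of_pos_left _ p1)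
  have w1 : 2 * Λ ∣ W := Nat.dvd_lcm_left _ _
  have w2 : Nat.gcd q1 q2 ∣ W := Nat.dvd_lcm_right _ _
  have w3 : Λ ∣ W := dvd_trans (Dvd.intro_left 2 rfl) w1
  refine ⟨W, Nat.lcm q1 W, Nat.lcm q2 W, Nat.lcm_pos p1 hW0, Nat.lcm_pos p2 hW0,
    lcm_gcd_self q1 q2 W p1 p2 hW0 w2, dvd_trans (Dvd.intro _ rfl) w1, ?_, ?_, ?_,
    Nat.le_of_dvd (Nat.mul_pos p1 hW0) (Nat.lcm_dvd_mul _ _),
    Nat.le_of_dvd (Nat.mul_pos p2 hW0) (Nat.lcm_dvd_mul _ _), ?_, ?_, ?_, ?_⟩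
  · -- `W` divides `2 Λ (n, n')`
    refine Nat.lcm_dvd (Dvd.intro _ rfl) ?_
    have g1 : Nat.gcd q1 q2 ∣ Nat.gcd (n * Λ) (n' * Λ) :=
      Nat.dvd_gcd ((Nat.gcd_dvd_left q1 q2).trans d1) ((Nat.gcd_dvd_right q1 q2).trans d2)
    rw [Nat.gcd_mul_right] at g1
    refine g1.trans ?_
    rw [mul_comm (Nat.gcd n n') Λ, mul_assoc]
    exact Dvd.intro_left 2 rfl
  · exact Nat.lcm_dvd (d1.trans (mul_dvd_mul_left n w3)) (Dvd.intro_left n rfl)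
  · exact Nat.lcm_dvd (d2.trans (mul_dvd_mul_left n' w3)) (Dvd.intro_left n' rfl)
  · have h1 : Nat.lcm (Nat.lcm q1 W) (Nat.lcm q2 W) ∣ 2 * Λ * Nat.lcm q1 q2 := by
      have a0 : W ∣ 2 * Λ * Nat.lcm q1 q2 := by
        refine Nat.lcm_dvd (Dvd.intro _ rfl) ?_
        exact ((Nat.gcd_dvd_left q1 q2).trans (Nat.dvd_lcm_left q1 q2)).trans (Dvd.intro_left _ rfl)
      refine Nat.lcm_dvd (Nat.lcm_dvd ?_ a0) (Nat.lcm_dvd ?_ a0)
      · exact (Nat.dvd_lcm_left q1 q2).trans (Dvd.intro_left _ rfl)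
      · exact (Nat.dvd_lcm_right q1 q2).trans (Dvd.intro_left _ rfl)
    exact Nat.le_of_dvd (Nat.mul_pos (by omega) (Nat.lcm_pos p1 p2)) h1
  · intro ψ hψ h
    exact (dvd_qY Y H n ψ hψ h).trans (Nat.dvd_lcm_left _ _)
  · intro ψ hψ h
    exact (dvd_qY Y H n' ψ hψ h).trans (Nat.dvd_lcm_left _ _)
  · intro p hp hpW
    have h1 : p ∣ 2 * Λ * Nat.gcd q1 q2 := hpW.trans (Nat.lcm_dvd_mul _ _)
    rcases (Nat.Prime.dvd_mul hp).1 h1 with h2 | h2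
    · left
      rcases (Nat.Prime.dvd_mul hp).1 h2 with h3 | h3
      · exact (Nat.le_of_dvd (by norm_num) h3).trans hH
      · exact prime_dvd_Lm hp h3
    · have h3 := (h2.trans (Nat.gcd_dvd_left _ _)).trans d1
      have h4 := (h2.trans (Nat.gcd_dvd_right _ _)).trans d2
      rcases (Nat.Prime.dvd_mul hp).1 h3 with h5 | h5
      · rcases (Nat.Prime.dvd_mul hp).1 h4 with h6 | h6
        · exact Or.inr ⟨h5, h6⟩
        · exact Or.inl (prime_dvd_Lm hp h6)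
      · exact Or.inl (prime_dvd_Lm hp h5)

end Pool.MP_dd84fd_nt.TC
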