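import Pool.Agent.Lib.MP_dd84fd_nt.TC.VDefs
import Pool.Agent.Lib.MP_dd84fd_nt.TC.SvG

/-!
# TC-SvV: the sieve for boundedly many inequivalent characters of a modulus `R ≤ X^(1-ν)`, `SVV`

`L = log X`, `Δ = X/(4 L^B)`, `D = ⌊X^(1/4 + ν/5)⌋`; `sva` and `mm_upper`.
-/

set_option autoImplicit false

namespace Pool.MP_dd84fd_nt.TC

open Finset Filter

open Classical in
/-- the sieve for moduli up to `X ^ (1 - ν)` -/
theorem svV : SVV := by
  intro ν hν hν20 B N0 hB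
  obtain ⟨C, hC, H⟩ := sva
  obtain ⟨Cd, hCd1, hCd⟩ := svg_div (ν / 200) (by positivity)
  -- the constants
  obtain ⟨A, hA⟩ : ∃ A : ℝ, A = (N0 + 64 + 8 * Cd + N0 * C * Cd) * 5 * 2 * 4 / (2 / 5 * ν) :=
    ⟨_, rfl⟩
  obtain ⟨X1, hX1⟩ := svg_log A (B + 1 + (B + 1)) (ν / 50) (by positivity)
  obtain ⟨X2, hX2⟩ := svg_log 2 0 (ν / 30) (by positivity)
  refine ⟨X1 + X2 + 3, fun X hX R W hR hRX hWR hWX c y hy1 hy2 Γ hΓ hI t => ?_⟩
  obtain ⟨T, hT⟩ : ∃ T : ℝ, T = ∑ χ ∈ Γ, ‖t χ‖ ^ 2 := ⟨_, rfl⟩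
  have hT0 : 0 ≤ T := by
    rw [hT]
    exact sum_nonneg fun χ _ => sq_nonneg _
  have hW1 : 1 ≤ W := Nat.pos_of_dvd_of_pos hWR hR
  have hX3 : 3 ≤ X := by omega
  have hX3' : (3 : ℝ) ≤ X := by exact_mod_cast hX3
  have hXp : (0 : ℝ) < X := by linarith
  have hX1' : (1 : ℝ) ≤ X := by linarith
  obtain ⟨L, hL⟩ : ∃ L : ℝ, L = Real.log X := ⟨_, rfl⟩
  have hL1 : 1 ≤ L := by
    rw [hL, Real.le_log_iff_exp_le hXp]
    exact Real.exp_one_lt_three.le.trans hX3'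
  have hL0 : 0 < L := by linarith
  have hΔ : 0 < Dl B X := by
    rw [Dl, ← hL]
    positivity
  have hφ : (0 : ℝ) < Nat.totient W := by exact_mod_cast Nat.totient_pos.2 hW1
  have hsw0 : 0 < sw X (Dl B X) W := by
    rw [sw, ← hL]
    positivity
  rw [← hT]
  by_cases hc : IsUnit c
  swap
  · -- no prime of the class
    have h0 : ∑ p ∈ UP X R, wv (Dl B X) y W c p * ‖∑ χ ∈ Γ, t χ * χ (p : ZMod R)‖ ^ 2 = 0 := by
      refine sum_eq_zero fun p hp => ?_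
      rw [UP, mem_filter] at hp
      have h1 : (p : ZMod W) ≠ c := by
        intro h
        apply hc
        rw [← h, ZMod.isUnit_iff_coprime]
        exact Nat.Coprime.coprime_dvd_right hWR hp.2.2.2
      rw [wv, if_neg h1, zero_mul]
    rw [h0]
    have : 0 ≤ 4 - ν := by linarith
    positivity
  -- the choice of `D`
  obtain ⟨α, hα⟩ : ∃ α : ℝ, α = 1 / 4 + ν / 5 := ⟨_, rfl⟩
  obtain ⟨D, hD⟩ : ∃ D : ℕ, D = ⌊(X : ℝ) ^ α⌋₊ := ⟨_, rfl⟩
  have hDle : (D : ℝ) ≤ (X : ℝ) ^ α := by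
    rw [hD]
    exact Nat.floor_le (by positivity)
  have hpow : ∀ a b : ℝ, a ≤ b → (X : ℝ) ^ a ≤ (X : ℝ) ^ b := fun a b h =>
    Real.rpow_le_rpow_of_exponent_le hX1' h
  have h2pow : 2 ≤ (X : ℝ) ^ (ν / 30) := by
    have h1 := hX2 X (by omega)
    rwa [pow_zero, mul_one] at h1
  have hDge : (X : ℝ) ^ (1 / 4 + ν / 6) ≤ D := by
    have h1 : (X : ℝ) ^ α = (X : ℝ) ^ (1 / 4 + ν / 6) * (X : ℝ) ^ (ν / 30) := by
      rw [← Real.rpow_add hXp]
      congr 1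
      rw [hα]
      ring
    have h2 : 1 ≤ (X : ℝ) ^ (1 / 4 + ν / 6) := Real.one_le_rpow hX1' (by positivity)
    have h3 : (X : ℝ) ^ α < D + 1 := by
      rw [hD]
      exact Nat.lt_floor_add_one _
    nlinarith
  have hD2 : 2 ≤ D := by
    have h1 : (2 : ℝ) ≤ D := h2pow.trans ((hpow _ _ (by linarith)).trans hDge)
    exact_mod_cast h1
  have hlogD : (1 / 4 + ν / 6) * L ≤ Real.log D := by
    rw [hL, ← Real.log_rpow hXp]
    exact Real.log_le_log (by positivity) hDge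
  have hlogD0 : 0 < Real.log D := lt_of_lt_of_le (by positivity) hlogD
  have hm := H X R W D N0 (Dl B X) y c hR hWR hD2 hΔ hc Γ hΓ hI t
  rw [← hT] at hm
  refine hm.trans (mul_le_mul_of_nonneg_right ?_ hT0)
  have hMM := mm_upper X (Dl B X) y hΔ
  have hXD : (X : ℝ) / Dl B X = 4 * L ^ B := by
    rw [Dl, ← hL]
    field_simp
  rw [hXD] at hMM ⊢
  have hLB : 1 ≤ L ^ B := one_le_pow₀ hL1
  -- the main term
  have hmain : (∑ n ∈ Icc 1 X, kf (((n : ℝ) - y) / Dl B X)) / (Nat.totient W * Real.log D) ≤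
      (4 - 7 / 5 * ν) * sw X (Dl B X) W + 64 * L ^ B := by
    have h1 : (∑ n ∈ Icc 1 X, kf (((n : ℝ) - y) / Dl B X)) / (Nat.totient W * Real.log D) ≤
        (Dl B X + 16 * L ^ B) / (Nat.totient W * ((1 / 4 + ν / 6) * L)) := by
      have h2 : ∑ n ∈ Icc 1 X, kf (((n : ℝ) - y) / Dl B X) ≤ Dl B X + 16 * L ^ B := by
        linarith
      have h3 : 0 ≤ Dl B X + 16 * L ^ B := by positivity
      have h4 : 0 < (Nat.totient W : ℝ) * ((1 / 4 + ν / 6) * L) := by positivity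
      have h5 : (Nat.totient W : ℝ) * ((1 / 4 + ν / 6) * L) ≤ Nat.totient W * Real.log D := by
        gcongr
      exact div_le_div₀ h3 h2 h4 h5
    refine h1.trans ?_
    have h2 : (Dl B X + 16 * L ^ B) / (Nat.totient W * ((1 / 4 + ν / 6) * L)) =
        (1 / (1 / 4 + ν / 6)) * ((Dl B X + 16 * L ^ B) / (Nat.totient W * L)) := by
      field_simp
    have h3 : 1 / (1 / 4 + ν / 6) ≤ 4 - 7 / 5 * ν := by
      rw [div_le_iff₀ (by positivity)]
      nlinarith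
    have h4 : (Dl B X + 16 * L ^ B) / (Nat.totient W * L) =
        sw X (Dl B X) W + 16 * L ^ B / (Nat.totient W * L) := by
      rw [sw, ← hL]
      ring
    have h5 : 16 * L ^ B / (Nat.totient W * L) ≤ 16 * L ^ B := by
      refine div_le_self (by positivity) ?_
      have h6 : (1 : ℝ) ≤ Nat.totient W := by exact_mod_cast Nat.totient_pos.2 hW1
      calc (1 : ℝ) = 1 * 1 := (one_mul _).symm
        _ ≤ Nat.totient W * L := mul_le_mul h6 hL1 zero_le_one (by linarith)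
    rw [h2, h4]
    have h6 : 0 ≤ sw X (Dl B X) W + 16 * L ^ B / (Nat.totient W * L) := by positivity
    have h7 : 0 < 4 - 7 / 5 * ν := by linarith
    calc 1 / (1 / 4 + ν / 6) * (sw X (Dl B X) W + 16 * L ^ B / (Nat.totient W * L))
        ≤ (4 - 7 / 5 * ν) * (sw X (Dl B X) W + 16 * L ^ B / (Nat.totient W * L)) :=
          mul_le_mul_of_nonneg_right h3 h6
      _ ≤ (4 - 7 / 5 * ν) * (sw X (Dl B X) W + 16 * L ^ B) := by gcongr
      _ ≤ (4 - 7 / 5 * ν) * sw X (Dl B X) W + 64 * L ^ B := by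
          have : 0 ≤ 7 / 5 * ν * (16 * L ^ B) := by positivity
          linarith
  -- the errors
  have hRle : R ≤ X := by
    have h1 : (R : ℝ) ≤ X := by
      calc (R : ℝ) ≤ (X : ℝ) ^ (1 - ν) := hRX
        _ ≤ (X : ℝ) ^ (1 : ℝ) := hpow _ _ (by linarith)
        _ = X := Real.rpow_one _
    exact_mod_cast h1
  have hτ := hCd X R hR hRle
  have hsqrt : Real.sqrt R ≤ (X : ℝ) ^ (1 / 2 - ν / 2) := by
    rw [Real.sqrt_le_left (by positivity), ← Real.rpow_mul_natCast hXp.le]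
    refine hRX.trans (le_of_eq ?_)
    congr 1
    push_cast
    ring
  have hlogR : Real.log R ≤ L := by
    rw [hL]
    have h1 : (R : ℝ) ≤ X := by exact_mod_cast hRle
    exact Real.log_le_log (by exact_mod_cast hR) h1
  have hlogR0 : 0 ≤ Real.log (R : ℝ) := Real.log_natCast_nonneg R
  have hDsq : (D : ℝ) ^ 2 ≤ (X : ℝ) ^ (1 / 2 + 2 * ν / 5) := by
    calc (D : ℝ) ^ 2 ≤ ((X : ℝ) ^ α) ^ 2 := by gcongr
      _ = (X : ℝ) ^ (1 / 2 + 2 * ν / 5) := by
        rw [← Real.rpow_mul_natCast hXp.le, hα]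
        congr 1
        push_cast
        ring
  obtain ⟨P, hP⟩ : ∃ P : ℝ, P = (X : ℝ) ^ (1 - ν / 10 + ν / 200) := ⟨_, rfl⟩
  obtain ⟨G, hG⟩ : ∃ G : ℝ, G = (5 * L ^ B) * (2 * L) * P := ⟨_, rfl⟩
  have hP1 : 1 ≤ P := by
    rw [hP]
    exact Real.one_le_rpow hX1' (by linarith)
  have h4L : 1 + 4 * L ^ B ≤ 5 * L ^ B := by linarith
  have h2L : 1 + Real.log R ≤ 2 * L := by linarith
  have hLG : L ^ B ≤ G := by
    rw [hG]
    have h1 : L ^ B * 1 * 1 ≤ (5 * L ^ B) * (2 * L) * P := by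
      gcongr
      · linarith
      · linarith
    linarith
  have hDG : (D : ℝ) ≤ G := by
    have h1 : (D : ℝ) ≤ P := by
      rw [hP]
      exact hDle.trans (hpow _ _ (by rw [hα]; linarith))
    have h2 : 1 * 1 * P ≤ G := by
      rw [hG]
      gcongr
      · linarith
      · linarith
    linarith
  have he1 : (D : ℝ) ^ 2 * (8 * (1 + 4 * L ^ B) * R.divisors.card) ≤ 8 * Cd * G := by
    calc (D : ℝ) ^ 2 * (8 * (1 + 4 * L ^ B) * R.divisors.card)
        ≤ (X : ℝ) ^ (1 / 2 + 2 * ν / 5) * (8 * (5 * L ^ B) * (Cd * (X : ℝ) ^ (ν / 200))) := by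
          gcongr
      _ = 8 * Cd * (5 * L ^ B) * ((X : ℝ) ^ (1 / 2 + 2 * ν / 5) * (X : ℝ) ^ (ν / 200)) := by ring
      _ = 8 * Cd * (5 * L ^ B) * (X : ℝ) ^ (1 / 2 + 2 * ν / 5 + ν / 200) := by
          rw [← Real.rpow_add hXp]
      _ ≤ 8 * Cd * (5 * L ^ B) * P := by
          rw [hP]
          have := hpow (1 / 2 + 2 * ν / 5 + ν / 200) (1 - ν / 10 + ν / 200) (by linarith)
          gcongr
      _ = 8 * Cd * (5 * L ^ B * 1 * P) := by ring
      _ ≤ 8 * Cd * (5 * L ^ B * (2 * L) * P) := by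
          gcongr
          linarith
      _ = 8 * Cd * G := by rw [hG]
  have he2 : (D : ℝ) ^ 2 * (C * (1 + 4 * L ^ B) *
      (Real.sqrt R * R.divisors.card * (1 + Real.log R))) ≤ C * Cd * G := by
    calc (D : ℝ) ^ 2 * (C * (1 + 4 * L ^ B) *
        (Real.sqrt R * R.divisors.card * (1 + Real.log R)))
        ≤ (X : ℝ) ^ (1 / 2 + 2 * ν / 5) * (C * (5 * L ^ B) *
          ((X : ℝ) ^ (1 / 2 - ν / 2) * (Cd * (X : ℝ) ^ (ν / 200)) * (2 * L))) := by
          gcongr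
      _ = C * Cd * ((5 * L ^ B) * (2 * L) * ((X : ℝ) ^ (1 / 2 + 2 * ν / 5) *
          (X : ℝ) ^ (1 / 2 - ν / 2) * (X : ℝ) ^ (ν / 200))) := by ring
      _ = C * Cd * ((5 * L ^ B) * (2 * L) * P) := by
          rw [← Real.rpow_add hXp, ← Real.rpow_add hXp, hP]
          congr 3
          ring
      _ = C * Cd * G := by rw [hG]
  -- the total error against `sw`
  have htot : (N0 + 64 + 8 * Cd + N0 * C * Cd) * G ≤ 2 / 5 * ν * sw X (Dl B X) W := by
    have h1 : (X : ℝ) ^ (1 - ν / 100) / (4 * L ^ (B + 1)) ≤ sw X (Dl B X) W := by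
      rw [sw, Dl, ← hL]
      have h2 : (Nat.totient W : ℝ) ≤ (X : ℝ) ^ (ν / 100) := by
        refine le_trans ?_ hWX
        exact_mod_cast Nat.totient_le W
      have h3 : (X : ℝ) ^ (1 - ν / 100) * (X : ℝ) ^ (ν / 100) = X := by
        rw [← Real.rpow_add hXp]
        have : 1 - ν / 100 + ν / 100 = (1 : ℝ) := by ring
        rw [this, Real.rpow_one]
      rw [div_div, div_le_div_iff₀ (by positivity) (by positivity)]
      calc (X : ℝ) ^ (1 - ν / 100) * (4 * L ^ B * (Nat.totient W * L))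
          ≤ (X : ℝ) ^ (1 - ν / 100) * (4 * L ^ B * ((X : ℝ) ^ (ν / 100) * L)) := by gcongr
        _ = ((X : ℝ) ^ (1 - ν / 100) * (X : ℝ) ^ (ν / 100)) * (4 * L ^ (B + 1)) := by ring
        _ = X * (4 * L ^ (B + 1)) := by rw [h3]
    have h2 : A * L ^ (B + 1 + (B + 1)) ≤ (X : ℝ) ^ (ν / 50) := by
      rw [hL]
      exact hX1 X (by omega)
    have h3 : (X : ℝ) ^ (ν / 50) * P ≤ (X : ℝ) ^ (1 - ν / 100) := by
      rw [hP, ← Real.rpow_add hXp]
      exact hpow _ _ (by linarith)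
    have h4 : (N0 + 64 + 8 * Cd + N0 * C * Cd) * G * (4 * L ^ (B + 1)) =
        2 / 5 * ν * (A * L ^ (B + 1 + (B + 1)) * P) := by
      rw [hG, hA]
      have : 2 / 5 * ν ≠ 0 := by positivity
      field_simp
      ring
    have h5 : (N0 + 64 + 8 * Cd + N0 * C * Cd) * G * (4 * L ^ (B + 1)) ≤
        2 / 5 * ν * (X : ℝ) ^ (1 - ν / 100) := by
      rw [h4]
      have h6 : A * L ^ (B + 1 + (B + 1)) * P ≤ (X : ℝ) ^ (ν / 50) * P := by
        gcongr
      have := h6.trans h3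
      gcongr
    calc (N0 + 64 + 8 * Cd + N0 * C * Cd) * G
        ≤ 2 / 5 * ν * (X : ℝ) ^ (1 - ν / 100) / (4 * L ^ (B + 1)) := by
          rw [le_div_iff₀ (by positivity)]
          exact h5
      _ = 2 / 5 * ν * ((X : ℝ) ^ (1 - ν / 100) / (4 * L ^ (B + 1))) := by ring
      _ ≤ 2 / 5 * ν * sw X (Dl B X) W := by gcongr
  have he3 : (N0 : ℝ) * (D + (D : ℝ) ^ 2 * (C * (1 + 4 * L ^ B) *
      (Real.sqrt R * R.divisors.card * (1 + Real.log R)))) ≤ N0 * (G + C * Cd * G) := by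
    gcongr
  have hsum : 64 * L ^ B + 8 * Cd * G + N0 * (G + C * Cd * G) ≤
      (N0 + 64 + 8 * Cd + N0 * C * Cd) * G := by
    have : 64 * L ^ B ≤ 64 * G := by linarith
    linarith
  calc _ ≤ ((4 - 7 / 5 * ν) * sw X (Dl B X) W + 64 * L ^ B) + 8 * Cd * G +
        N0 * (G + C * Cd * G) := by
        gcongr
    _ ≤ (4 - 7 / 5 * ν) * sw X (Dl B X) W + 2 / 5 * ν * sw X (Dl B X) W := by linarith
    _ = (4 - ν) * sw X (Dl B X) W := by ring

end Pool.MP_dd84fd_nt.TC
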