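import Pool.Agent.Lib.MP_dd84fd_nt.TC.MainH
import Pool.Agent.Lib.MP_dd84fd_nt.TC.SvV
import Pool.Agent.Lib.MP_dd84fd_nt.TC.CoreV
import Pool.Agent.Lib.MP_dd84fd_nt.TC.PthV
import Pool.Agent.Lib.MP_dd84fd_nt.TC.StrV
import Pool.Agent.Lib.MP_dd84fd_nt.TC.CntV
import Pool.Agent.Lib.MP_dd84fd_nt.TC.OneV
import Pool.Agent.Lib.MP_dd84fd_nt.TC.FinZ
import Pool.Agent.Lib.MP_dd84fd_nt.TC.DZ

/-!
# Project TC-V: pairs of failures, `U` and `V` with the nature of `d`, without hypotheses
-/

set_option autoImplicit false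

namespace Pool.MP_dd84fd_nt.TC

theorem coreV_all : CoreV := coreV svV (maH l2N massF) (exG l2N) rcH

theorem oneH_all : OneH := oneH coreH_all transF pathF strH cntH

theorem oneV_all : OneV := oneV coreV_all transF pathV strV cntV

/-- theorem `U` with the nature of `d` -/
theorem fin_allHZ : FinHZ := finHZ oneH_all dz

/-- theorems `U` and `V` with the nature of `d` -/
theorem fin_allVZ : FinVZ := finVZ oneH_all oneV_all dz

end Pool.MP_dd84fd_nt.TC
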