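import Pool.Agent.Lib.MP_dd84fd_nt.TC.Defs
import Pool.Agent.Lib.MP_dd84fd_nt.En.Sing

/-!
# Consequences of theorem TC (`FinT`) (helper3)

`tc_triple`: for all but `X^(1/3+ε)` of the `n ≤ X` one of `n, n+2, n+4` is not a failure;
`tc_ternary`: all but at most `X^(1/3+ε)` of the odd `N ≤ X` are `p₁ + p₂ + p₃` with
`p₃ = 3, 5` or `7`; `tc_three`: at most two failures in `[n, n + (log X)^K]`.
-/

set_option autoImplicit false

namespace Pool.MP_dd84fd_nt.TC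

open Finset Pool.MP_67663b_nt.Odd Pool.MP_dd84fd_nt.En Pool.MP_dd84fd_nt.E2 Pool.MP_dd84fd_nt.LS
open Pool.MP_dd84fd_nt.GX Pool.MP_dd84fd_nt.HX Pool.MP_dd84fd_nt.IX

/-- two of three numbers have a product that is not `2` modulo `3` -/
private theorem tc_mod3 (a b c : ℕ) : a * b % 3 ≠ 2 ∨ a * c % 3 ≠ 2 ∨ b * c % 3 ≠ 2 := by
  have ha : a % 3 < 3 := Nat.mod_lt _ (by norm_num)
  have hb : b % 3 < 3 := Nat.mod_lt _ (by norm_num)
  have hc : c % 3 < 3 := Nat.mod_lt _ (by norm_num)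
  rw [Nat.mul_mod a b, Nat.mul_mod a c, Nat.mul_mod b c]
  generalize a % 3 = x at *
  generalize b % 3 = y at *
  generalize c % 3 = z at *
  interval_cases x <;> interval_cases y <;> interval_cases z <;> simp

open Classical in
/-- at most two failures in `[n, n + (log X)^K]` -/
theorem tc_three (hT : FinT) : ∀ ε : ℝ, 0 < ε → ∃ δ : ℝ, 0 < δ ∧ ∀ K : ℕ, ∃ X0 : ℕ,
    ∀ X : ℕ, X0 ≤ X →
      (((Icc 1 X).filter (fun n : ℕ =>
        2 < ((Icc n (n + ⌊(Real.log X) ^ K⌋₊)).filter (fun m => Bd δ m)).card)).card : ℝ) ≤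
        (X : ℝ) ^ (1 / 3 + ε) := by
  intro ε hε
  obtain ⟨δ, hδ, h⟩ := hT ε hε
  refine ⟨δ, hδ, fun K => ?_⟩
  obtain ⟨X0, h⟩ := h K
  refine ⟨max X0 1, fun X hX => ?_⟩
  have h := h X (le_trans (le_max_left _ _) hX)
  have hX1 : 1 ≤ X := le_trans (le_max_right _ _) hX
  have hlog : 0 ≤ Real.log X := Real.log_nonneg (by exact_mod_cast hX1)
  refine le_trans ?_ h
  have key : ∀ n a b : ℕ, a ∈ (Icc n (n + ⌊(Real.log X) ^ K⌋₊)).filter (fun m => Bd δ m) →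
      b ∈ (Icc n (n + ⌊(Real.log X) ^ K⌋₊)).filter (fun m => Bd δ m) → a ≠ b →
      a * b % 3 ≠ 2 → ∃ m m' : ℕ, n ≤ m ∧ m < m' ∧
        (m' : ℝ) ≤ n + (Real.log X) ^ K ∧ Bd δ m ∧ Bd δ m' ∧ m * m' % 3 ≠ 2 := by
    intro n a b ha hb hab h3
    rw [mem_filter, mem_Icc] at ha hb
    have hfl : ∀ m : ℕ, m ≤ n + ⌊(Real.log X) ^ K⌋₊ → (m : ℝ) ≤ n + (Real.log X) ^ K := by
      intro m hm
      have e1 : (m : ℝ) ≤ n + (⌊(Real.log X) ^ K⌋₊ : ℝ) := by exact_mod_cast hm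
      have e2 := Nat.floor_le (a := (Real.log X) ^ K) (by positivity)
      linarith
    rcases lt_or_gt_of_ne hab with h1 | h1
    · exact ⟨a, b, ha.1.1, h1, hfl b hb.1.2, ha.2, hb.2, h3⟩
    · exact ⟨b, a, hb.1.1, h1, hfl a ha.1.2, hb.2, ha.2, by rwa [mul_comm]⟩
  have hsub : (Icc 1 X).filter (fun n : ℕ =>
        2 < ((Icc n (n + ⌊(Real.log X) ^ K⌋₊)).filter (fun m => Bd δ m)).card) ⊆
      (Icc 1 X).filter (fun n : ℕ => ∃ m m' : ℕ, n ≤ m ∧ m < m' ∧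
        (m' : ℝ) ≤ n + (Real.log X) ^ K ∧ Bd δ m ∧ Bd δ m' ∧ m * m' % 3 ≠ 2) := by
    intro n hn
    rw [mem_filter] at hn ⊢
    refine ⟨hn.1, ?_⟩
    obtain ⟨a, ha, b, hb, e, he, h1, h2, h3⟩ := Finset.two_lt_card.1 hn.2
    rcases tc_mod3 a b e with h4 | h4 | h4
    · exact key n a b ha hb h1 h4
    · exact key n a e ha he h2 h4
    · exact key n b e hb he h3 h4
  exact_mod_cast Finset.card_le_card hsub

open Classical in
/-- one of `n`, `n + 2`, `n + 4` is not a failure -/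
theorem tc_triple (hT : FinT) : ∀ ε : ℝ, 0 < ε → ∃ δ : ℝ, 0 < δ ∧ ∃ X0 : ℕ,
    ∀ X : ℕ, X0 ≤ X →
      (((Icc 1 X).filter (fun n : ℕ => Bd δ n ∧ Bd δ (n + 2) ∧ Bd δ (n + 4))).card : ℝ) ≤
        (X : ℝ) ^ (1 / 3 + ε) := by
  intro ε hε
  obtain ⟨δ, hδ, h⟩ := hT ε hε
  refine ⟨δ, hδ, ?_⟩
  obtain ⟨X1, h⟩ := h 1
  obtain ⟨X2, h2⟩ : ∃ X2 : ℕ, ∀ X : ℕ, X2 ≤ X → (4 : ℝ) ≤ Real.log X := by
    have h3 := Real.tendsto_log_atTop.comp (tendsto_natCast_atTop_atTop (R := ℝ))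
    exact Filter.eventually_atTop.1 (h3.eventually_ge_atTop 4)
  refine ⟨max X1 X2, fun X hX => ?_⟩
  have h := h X (le_trans (le_max_left _ _) hX)
  have h2 := h2 X (le_trans (le_max_right _ _) hX)
  refine le_trans ?_ h
  have hsub : (Icc 1 X).filter (fun n : ℕ => Bd δ n ∧ Bd δ (n + 2) ∧ Bd δ (n + 4)) ⊆
      (Icc 1 X).filter (fun n : ℕ => ∃ m m' : ℕ, n ≤ m ∧ m < m' ∧
        (m' : ℝ) ≤ n + (Real.log X) ^ 1 ∧ Bd δ m ∧ Bd δ m' ∧ m * m' % 3 ≠ 2) := by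
    intro n hn
    rw [mem_filter] at hn ⊢
    obtain ⟨h0, b0, b2, b4⟩ := hn
    refine ⟨h0, ?_⟩
    rcases tc_mod3 n (n + 2) (n + 4) with h4 | h4 | h4
    · refine ⟨n, n + 2, le_rfl, by omega, ?_, b0, b2, h4⟩
      push_cast
      linarith
    · refine ⟨n, n + 4, le_rfl, by omega, ?_, b0, b4, h4⟩
      push_cast
      linarith
    · refine ⟨n + 2, n + 4, by omega, by omega, ?_, b2, b4, h4⟩
      push_cast
      linarith
  exact_mod_cast Finset.card_le_card hsub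

private theorem tc_JJ (n : ℕ) : 0 ≤ JJ n := by
  unfold JJ
  refine Finset.sum_nonneg fun m _ => ?_
  exact div_nonneg zero_le_one (mul_nonneg (Real.log_natCast_nonneg _) (Real.log_natCast_nonneg _))

private theorem tc_SJ (n : ℕ) : 0 ≤ SS n * JJ n := by
  have s1 : 2 * Pool.MP_dd84fd_nt.En.C2 ≤ SS n := SS_ge n
  have s2 : 0 < Pool.MP_dd84fd_nt.En.C2 := C2_pos
  exact mul_nonneg (by linarith) (tc_JJ n)

private theorem tc_rep (n : ℕ) (h : g n ≠ 0) : ∃ p q : ℕ, p.Prime ∧ q.Prime ∧ p + q = n := by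
  unfold g at h
  obtain ⟨p, hp⟩ := Finset.card_pos.1 (Nat.pos_of_ne_zero h)
  rw [mem_filter, mem_range] at hp
  exact ⟨p, n - p, hp.2.1, hp.2.2, by omega⟩

open Classical in
/-- all but at most `X^(1/3+ε)` of the odd `N ≤ X` are `p₁ + p₂ + p₃` with `p₃ ∈ {3, 5, 7}` -/
theorem tc_ternary (hT : FinT) : ∀ ε : ℝ, 0 < ε → ∃ X0 : ℕ, ∀ X : ℕ, X0 ≤ X →
      (((Icc 1 X).filter (fun N : ℕ => Odd N ∧ ¬ ∃ p₁ p₂ p₃ : ℕ, p₁.Prime ∧ p₂.Prime ∧
        (p₃ = 3 ∨ p₃ = 5 ∨ p₃ = 7) ∧ p₁ + p₂ + p₃ = N)).card : ℝ) ≤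
        (X : ℝ) ^ (1 / 3 + ε) := by
  intro ε hε
  obtain ⟨δ, hδ, X1, h⟩ := tc_triple hT (ε / 2) (by positivity)
  obtain ⟨X2, h2⟩ : ∃ X2 : ℕ, ∀ X : ℕ, X2 ≤ X → (8 : ℝ) ≤ (X : ℝ) ^ (ε / 2) := by
    have h3 := (tendsto_rpow_atTop (show 0 < ε / 2 by positivity)).comp
      tendsto_natCast_atTop_atTop
    exact (Filter.eventually_atTop.1 (h3.eventually_ge_atTop (8 : ℝ)))
  refine ⟨max 1 (max X1 X2), fun X hX => ?_⟩
  have hX1 : 1 ≤ X := le_trans (le_max_left _ _) hX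
  have h := h X (le_trans (le_trans (le_max_left _ _) (le_max_right _ _)) hX)
  have h2 := h2 X (le_trans (le_trans (le_max_right _ _) (le_max_right _ _)) hX)
  have hXr : (1 : ℝ) ≤ X := by exact_mod_cast hX1
  have hX0 : (0 : ℝ) < X := by linarith
  have hBd : ∀ m : ℕ, Even m → g m = 0 → Bd δ m := by
    intro m hm hg
    refine ⟨hm, ?_⟩
    rw [hg]
    simpa using mul_nonneg hδ.le (tc_SJ m)
  have hsub : (Icc 1 X).filter (fun N : ℕ => Odd N ∧ ¬ ∃ p₁ p₂ p₃ : ℕ, p₁.Prime ∧ p₂.Prime ∧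
        (p₃ = 3 ∨ p₃ = 5 ∨ p₃ = 7) ∧ p₁ + p₂ + p₃ = N) ⊆
      (range 8).erase 0 ∪ ((Icc 1 X).filter (fun n : ℕ => Bd δ n ∧ Bd δ (n + 2) ∧
        Bd δ (n + 4))).image (fun n => n + 7) := by
    intro N hN
    rw [mem_filter, mem_Icc] at hN
    obtain ⟨⟨hN1, hNX⟩, hodd, hno⟩ := hN
    rw [mem_union]
    by_cases c1 : N < 8
    · exact Or.inl (mem_erase.2 ⟨by omega, mem_range.2 c1⟩)
    right
    rw [mem_image]
    obtain ⟨k, hk⟩ := hodd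
    have g0 : ∀ r : ℕ, r = 3 ∨ r = 5 ∨ r = 7 → g (N - r) = 0 := by
      intro r hr
      by_contra hne
      obtain ⟨p, q, hp, hq, hpq⟩ := tc_rep _ hne
      exact hno ⟨p, q, r, hp, hq, hr, by omega⟩
    refine ⟨N - 7, ?_, by omega⟩
    rw [mem_filter, mem_Icc]
    refine ⟨⟨by omega, by omega⟩, hBd _ ⟨k - 3, by omega⟩ (g0 7 (by norm_num)), ?_, ?_⟩
    · have e1 : N - 7 + 2 = N - 5 := by omega
      rw [e1]
      exact hBd _ ⟨k - 2, by omega⟩ (g0 5 (by norm_num))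
    · have e1 : N - 7 + 4 = N - 3 := by omega
      rw [e1]
      exact hBd _ ⟨k - 1, by omega⟩ (g0 3 (by norm_num))
  have e1 := (Finset.card_le_card hsub).trans ((Finset.card_union_le _ _).trans
    (add_le_add (le_refl _) Finset.card_image_le))
  have e2 : ((range 8).erase 0).card = 7 := by decide
  rw [e2] at e1
  have e3 : (((Icc 1 X).filter (fun N : ℕ => Odd N ∧ ¬ ∃ p₁ p₂ p₃ : ℕ, p₁.Prime ∧ p₂.Prime ∧
        (p₃ = 3 ∨ p₃ = 5 ∨ p₃ = 7) ∧ p₁ + p₂ + p₃ = N)).card : ℝ) ≤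
      7 + (((Icc 1 X).filter (fun n : ℕ => Bd δ n ∧ Bd δ (n + 2) ∧ Bd δ (n + 4))).card : ℝ) := by
    exact_mod_cast e1
  have f3 : 8 * (X : ℝ) ^ (1 / 3 + ε / 2) ≤ (X : ℝ) ^ (1 / 3 + ε) := by
    have e1 : (X : ℝ) ^ (1 / 3 + ε) = (X : ℝ) ^ (ε / 2) * (X : ℝ) ^ (1 / 3 + ε / 2) := by
      rw [← Real.rpow_add hX0]
      congr 1
      ring
    rw [e1]
    exact mul_le_mul_of_nonneg_right h2 (by positivity)
  have f4 : (1 : ℝ) ≤ (X : ℝ) ^ (1 / 3 + ε / 2) := Real.one_le_rpow hXr (by positivity)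
  linarith

/-- `J(n) ≥ n / (2 (log n)²)` -/
private theorem tc_J_ge (n : ℕ) (hn : 6 ≤ n) : (n : ℝ) / (2 * (Real.log n) ^ 2) ≤ JJ n := by
  have hn' : (6 : ℝ) ≤ n := by exact_mod_cast hn
  have hl : 0 < Real.log n := Real.log_pos (by linarith)
  have h1 : ∀ m ∈ Icc 2 (n - 2), 1 / (Real.log n) ^ 2 ≤
      1 / (Real.log (m : ℝ) * Real.log ((n - m : ℕ) : ℝ)) := by
    intro m hm
    rw [mem_Icc] at hm
    have a1 : (1 : ℝ) < m := by exact_mod_cast (by omega : 1 < m)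
    have a2 : (1 : ℝ) < ((n - m : ℕ) : ℝ) := by exact_mod_cast (by omega : 1 < n - m)
    have a3 : (m : ℝ) ≤ n := by exact_mod_cast (by omega : m ≤ n)
    have a4 : ((n - m : ℕ) : ℝ) ≤ n := by exact_mod_cast (by omega : n - m ≤ n)
    have b1 := Real.log_pos a1
    have b2 := Real.log_pos a2
    have b3 := Real.log_le_log (by linarith) a3
    have b4 := Real.log_le_log (by linarith) a4
    refine one_div_le_one_div_of_le (mul_pos b1 b2) ?_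
    rw [pow_two]
    exact mul_le_mul b3 b4 b2.le hl.le
  have h2 := Finset.card_nsmul_le_sum (Icc 2 (n - 2)) _ _ h1
  rw [Nat.card_Icc, nsmul_eq_mul] at h2
  have h3 : (n : ℝ) / 2 ≤ ((n - 2 + 1 - 2 : ℕ) : ℝ) := by
    have e1 : n - 2 + 1 - 2 = n - 3 := by omega
    rw [e1, Nat.cast_sub (by omega)]
    push_cast
    linarith
  unfold JJ
  refine le_trans ?_ h2
  have h4 : (n : ℝ) / (2 * (Real.log n) ^ 2) = (n : ℝ) / 2 * (1 / (Real.log n) ^ 2) := by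
    field_simp
  rw [h4]
  exact mul_le_mul_of_nonneg_right h3 (by positivity)

/-- if the inequality of Q1 fails at `n`, then `n` is a failure -/
theorem tc_q1 (δ : ℝ) (hδ : 0 < δ) (n : ℕ) (hn : 6 ≤ n) (he : Even n)
    (h : (g n : ℝ) < Pool.MP_dd84fd_nt.En.C2 * δ * n / (Real.log n) ^ 2) : Bd δ n := by
  refine ⟨he, h.le.trans ?_⟩
  have s1 : 2 * Pool.MP_dd84fd_nt.En.C2 ≤ SS n := SS_ge n
  have s2 : 0 < Pool.MP_dd84fd_nt.En.C2 := C2_pos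
  have h1 := tc_J_ge n hn
  have hn' : (6 : ℝ) ≤ n := by exact_mod_cast hn
  have hl : 0 < Real.log n := Real.log_pos (by linarith)
  have h2 : 2 * Pool.MP_dd84fd_nt.En.C2 * ((n : ℝ) / (2 * (Real.log n) ^ 2)) ≤ SS n * JJ n :=
    mul_le_mul s1 h1 (by positivity) (by linarith)
  have h3 : Pool.MP_dd84fd_nt.En.C2 * δ * n / (Real.log n) ^ 2 =
      δ * (2 * Pool.MP_dd84fd_nt.En.C2 * ((n : ℝ) / (2 * (Real.log n) ^ 2))) := by
    field_simp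
  rw [h3]
  exact mul_le_mul_of_nonneg_left h2 hδ.le

open Classical in
/-- one of `n`, `n + 2`, `n + 4` satisfies the inequality of Q1 -/
theorem tc_q1_triple (hT : FinT) : ∀ ε : ℝ, 0 < ε → ∃ δ : ℝ, 0 < δ ∧ ∃ X0 : ℕ,
    ∀ X : ℕ, X0 ≤ X →
      (((Icc 1 X).filter (fun n : ℕ => Even n ∧ ∀ m ∈ ({n, n + 2, n + 4} : Finset ℕ),
        (g m : ℝ) < δ * m / (Real.log m) ^ 2)).card : ℝ) ≤ (X : ℝ) ^ (1 / 3 + ε) := by
  intro ε hε
  obtain ⟨δ, hδ, X1, h⟩ := tc_triple hT (ε / 2) (by positivity)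
  obtain ⟨X2, h2⟩ : ∃ X2 : ℕ, ∀ X : ℕ, X2 ≤ X → (8 : ℝ) ≤ (X : ℝ) ^ (ε / 2) := by
    have h3 := (tendsto_rpow_atTop (show 0 < ε / 2 by positivity)).comp
      tendsto_natCast_atTop_atTop
    exact (Filter.eventually_atTop.1 (h3.eventually_ge_atTop (8 : ℝ)))
  refine ⟨Pool.MP_dd84fd_nt.En.C2 * δ, mul_pos C2_pos hδ, max 1 (max X1 X2), fun X hX => ?_⟩
  have hX1 : 1 ≤ X := le_trans (le_max_left _ _) hX
  have h := h X (le_trans (le_trans (le_max_left _ _) (le_max_right _ _)) hX)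
  have h2 := h2 X (le_trans (le_trans (le_max_right _ _) (le_max_right _ _)) hX)
  have hXr : (1 : ℝ) ≤ X := by exact_mod_cast hX1
  have hX0 : (0 : ℝ) < X := by linarith
  have hsub : (Icc 1 X).filter (fun n : ℕ => Even n ∧ ∀ m ∈ ({n, n + 2, n + 4} : Finset ℕ),
        (g m : ℝ) < Pool.MP_dd84fd_nt.En.C2 * δ * m / (Real.log m) ^ 2) ⊆
      (range 6) ∪ (Icc 1 X).filter (fun n : ℕ => Bd δ n ∧ Bd δ (n + 2) ∧ Bd δ (n + 4)) := by
    intro n hn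
    rw [mem_filter] at hn
    obtain ⟨hn1, he, hm⟩ := hn
    rw [mem_union]
    by_cases c1 : n < 6
    · exact Or.inl (mem_range.2 c1)
    right
    rw [mem_filter]
    refine ⟨hn1, ?_, ?_, ?_⟩
    · exact tc_q1 δ hδ n (by omega) he (hm n (by simp))
    · exact tc_q1 δ hδ (n + 2) (by omega) (he.add (by norm_num)) (hm (n + 2) (by simp))
    · exact tc_q1 δ hδ (n + 4) (by omega) (he.add (by decide)) (hm (n + 4) (by simp))
  have e1 := (Finset.card_le_card hsub).trans (Finset.card_union_le _ _)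
  rw [card_range] at e1
  have e3 : (((Icc 1 X).filter (fun n : ℕ => Even n ∧ ∀ m ∈ ({n, n + 2, n + 4} : Finset ℕ),
        (g m : ℝ) < Pool.MP_dd84fd_nt.En.C2 * δ * m / (Real.log m) ^ 2)).card : ℝ) ≤
      6 + (((Icc 1 X).filter (fun n : ℕ => Bd δ n ∧ Bd δ (n + 2) ∧ Bd δ (n + 4))).card : ℝ) := by
    exact_mod_cast e1
  have f3 : 8 * (X : ℝ) ^ (1 / 3 + ε / 2) ≤ (X : ℝ) ^ (1 / 3 + ε) := by
    have e1 : (X : ℝ) ^ (1 / 3 + ε) = (X : ℝ) ^ (ε / 2) * (X : ℝ) ^ (1 / 3 + ε / 2) := by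
      rw [← Real.rpow_add hX0]
      congr 1
      ring
    rw [e1]
    exact mul_le_mul_of_nonneg_right h2 (by positivity)
  have f4 : (1 : ℝ) ≤ (X : ℝ) ^ (1 / 3 + ε / 2) := Real.one_le_rpow hXr (by positivity)
  linarith

end Pool.MP_dd84fd_nt.TC
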