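import Pool.Agent.Lib.MP_dd84fd_nt.TC.TrD0
import Pool.Agent.Lib.MP_dd84fd_nt.BG.Ser
import Pool.Agent.Lib.MP_dd84fd_nt.En.Tot

/-!
# TC-TrA (0.8 h): the average of `m/φ(m)` over a residue class

Proof.  `g = (a,q) = (m,q)` for every `m ≡ a (q)`.  A prime `p ∣ m` which does not divide `g` does not
divide `q`, so `rt m = ∏_{p ∣ m} p/(p-1) ≤ rt g ∏_{p ∣ m, p ∤ q} (1 + 1/(p-1)) = rt g Σ_{d ∣ m, (d,q)=1}
μ²(d)/φ(d)` (`BG.ratio_eq`; `Finset.prod_one_add` / `prod_add_one`, or prove `≤` with a sum over the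
subsets of the primes).  For `(d,q) = 1` the conditions `m ≡ a (q)`, `d ∣ m`, `|m - x| ≤ D` describe at
most `2D/(qd) + 1` numbers (one class modulo `qd`; `BX.card_mult`-like count; count of integers of a class
in an interval of length `2D`).  So the sum is `≤ rt g Σ_{d ≤ 2X} μ²(d)/φ(d) (2D/(qd) + 1)`,
`Σ_d μ²(d)/(d φ(d)) ≤ C` and `Σ_{d ≤ 2X} μ²(d)/φ(d) ≤ C log X` (`∏_{p ≤ 2X} (1 + 1/(p-1))`, or in the
library: grep `totient` in MP_dd84fd_nt/BG/Ser, GX, HX/SvJb, BV).  `3 ≤ X`.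
-/

set_option autoImplicit false

namespace Pool.MP_dd84fd_nt.TC

open Finset Pool.MP_dd84fd_nt.En Pool.MP_dd84fd_nt.E2

private theorem tra_phi (t : Finset ℕ) (ht : ∀ p ∈ t, p.Prime) :
    (Nat.totient (∏ p ∈ t, p) : ℝ) = ∏ p ∈ t, ((p : ℝ) - 1) := by
  classical
  induction t using Finset.induction_on with
  | empty => simp
  | insert a t ha ih =>
    have h1 := ht a (Finset.mem_insert_self a t)
    have h2 : ∀ p ∈ t, p.Prime := fun p hp => ht p (Finset.mem_insert_of_mem hp)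
    have h3 : Nat.Coprime a (∏ p ∈ t, p) := by
      refine Nat.Coprime.prod_right fun p hp => ?_
      refine (Nat.coprime_primes h1 (h2 p hp)).2 ?_
      rintro rfl
      exact ha hp
    rw [Finset.prod_insert ha, Finset.prod_insert ha, Nat.totient_mul h3, Nat.totient_prime h1,
      Nat.cast_mul, ih h2, Nat.cast_sub h1.one_le, Nat.cast_one]

private theorem tra_prod (m q : ℕ) (hm : 1 ≤ m) :
    ∏ p ∈ m.primeFactors.filter (fun p => ¬ p ∣ q), ((p : ℝ) / ((p : ℝ) - 1)) ≤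
      ∑ d ∈ m.divisors.filter (fun d => Nat.Coprime d q), 1 / (Nat.totient d : ℝ) := by
  classical
  obtain ⟨P, hP⟩ : ∃ P, P = m.primeFactors.filter (fun p => ¬ p ∣ q) := ⟨_, rfl⟩
  rw [← hP]
  have hpr : ∀ p ∈ P, p.Prime := by
    intro p hp
    rw [hP] at hp
    exact Nat.prime_of_mem_primeFactors (Finset.mem_filter.1 hp).1
  have h1 : ∏ p ∈ P, ((p : ℝ) / ((p : ℝ) - 1)) =
      ∑ t ∈ P.powerset, 1 / (Nat.totient (∏ p ∈ t, p) : ℝ) := by
    have h2 : ∏ p ∈ P, ((p : ℝ) / ((p : ℝ) - 1)) = ∏ p ∈ P, (1 + 1 / ((p : ℝ) - 1)) := by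
      refine Finset.prod_congr rfl fun p hp => ?_
      have h3 : (2 : ℝ) ≤ p := by exact_mod_cast (hpr p hp).two_le
      have h4 : (p : ℝ) - 1 ≠ 0 := by linarith
      field_simp
      ring
    rw [h2, Finset.prod_one_add]
    refine Finset.sum_congr rfl fun t ht => ?_
    rw [tra_phi t fun p hp => hpr p (Finset.mem_powerset.1 ht hp), Finset.prod_div_distrib,
      Finset.prod_const_one]
  rw [h1]
  have hinj : Set.InjOn (fun t : Finset ℕ => ∏ p ∈ t, p) (P.powerset : Set (Finset ℕ)) := by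
    intro t ht t' ht' h
    have a1 := Finset.mem_powerset.1 (Finset.mem_coe.1 ht)
    have a2 := Finset.mem_powerset.1 (Finset.mem_coe.1 ht')
    simp only at h
    rw [← Nat.primeFactors_prod fun p hp => hpr p (a1 hp),
      ← Nat.primeFactors_prod fun p hp => hpr p (a2 hp), h]
  rw [← Finset.sum_image (f := fun d : ℕ => 1 / (Nat.totient d : ℝ)) hinj]
  refine Finset.sum_le_sum_of_subset_of_nonneg ?_ fun d _ _ => by positivity
  intro d hd
  obtain ⟨t, ht, rfl⟩ := Finset.mem_image.1 hd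
  have ht' := Finset.mem_powerset.1 ht
  rw [Finset.mem_filter, Nat.mem_divisors]
  refine ⟨⟨?_, by omega⟩, ?_⟩
  · refine (Finset.prod_dvd_prod_of_subset t m.primeFactors (fun p => p) ?_).trans
      (Nat.prod_primeFactors_dvd m)
    intro p hp
    have := ht' hp
    rw [hP] at this
    exact (Finset.mem_filter.1 this).1
  · refine Nat.Coprime.prod_left fun p hp => ?_
    have := ht' hp
    rw [hP] at this
    exact ((hpr p (ht' hp)).coprime_iff_not_dvd).2 (Finset.mem_filter.1 this).2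

private theorem tra_rt (m q : ℕ) (hm : 1 ≤ m) (hq : 1 ≤ q) :
    rt m ≤ rt (Nat.gcd m q) *
      ∑ d ∈ m.divisors.filter (fun d => Nat.Coprime d q), 1 / (Nat.totient d : ℝ) := by
  classical
  have hg : 1 ≤ Nat.gcd m q := Nat.gcd_pos_of_pos_left _ hm
  unfold rt
  rw [BG.ratio_eq m hm, BG.ratio_eq _ hg,
    ← Finset.prod_filter_mul_prod_filter_not m.primeFactors (fun p => p ∣ q)]
  have h1 : m.primeFactors.filter (fun p => p ∣ q) = (Nat.gcd m q).primeFactors := by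
    ext p
    rw [Finset.mem_filter, Nat.mem_primeFactors, Nat.mem_primeFactors]
    constructor
    · rintro ⟨⟨a1, a2, _⟩, a4⟩
      exact ⟨a1, Nat.dvd_gcd a2 a4, by omega⟩
    · rintro ⟨a1, a2, _⟩
      exact ⟨⟨a1, a2.trans (Nat.gcd_dvd_left m q), by omega⟩, a2.trans (Nat.gcd_dvd_right m q)⟩
  rw [h1]
  refine mul_le_mul_of_nonneg_left (tra_prod m q hm) ?_
  refine Finset.prod_nonneg fun p hp => ?_
  have h2 := (Nat.prime_of_mem_primeFactors hp).two_le
  have h3 : (2 : ℝ) ≤ p := by exact_mod_cast h2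
  exact div_nonneg (by linarith) (by linarith)

private theorem tra_B : ∃ C : ℝ, 0 < C ∧ ∀ M : ℕ,
    ∑ u ∈ Icc 1 M, 1 / ((u : ℝ) * (Nat.totient u : ℝ)) ≤ C := by
  obtain ⟨c, hc, h1⟩ := En.totient_rpow (ε := 1 / 2) (by norm_num)
  have hsum : Summable fun v : ℕ => (v : ℝ) ^ (-(3 / 2) : ℝ) :=
    Real.summable_nat_rpow.2 (by norm_num)
  have hT : 0 ≤ ∑' v : ℕ, (v : ℝ) ^ (-(3 / 2) : ℝ) := tsum_nonneg fun v => by positivity
  refine ⟨1 / c * (∑' v : ℕ, (v : ℝ) ^ (-(3 / 2) : ℝ)) + 1, by positivity, fun M => ?_⟩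
  have h2 : ∀ u ∈ Icc 1 M, 1 / ((u : ℝ) * (Nat.totient u : ℝ)) ≤
      1 / c * (u : ℝ) ^ (-(3 / 2) : ℝ) := by
    intro u hu
    have hu1 : 1 ≤ u := (Finset.mem_Icc.1 hu).1
    have hu0 : (0 : ℝ) < u := by exact_mod_cast hu1
    have h3 := h1 u hu1
    have h4 : c * (u : ℝ) ^ (3 / 2 : ℝ) ≤ (u : ℝ) * (Nat.totient u : ℝ) := by
      have h5 : (u : ℝ) ^ (3 / 2 : ℝ) = u * (u : ℝ) ^ (1 - 1 / 2 : ℝ) := by
        conv_rhs => rw [← Real.rpow_one_add' hu0.le (by norm_num)]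
        norm_num
      rw [h5]
      calc c * (u * (u : ℝ) ^ (1 - 1 / 2 : ℝ)) = u * (c * (u : ℝ) ^ (1 - 1 / 2 : ℝ)) := by ring
        _ ≤ u * (Nat.totient u : ℝ) := mul_le_mul_of_nonneg_left h3 hu0.le
    rw [Real.rpow_neg hu0.le, ← one_div, one_div_mul_one_div]
    exact one_div_le_one_div_of_le (by positivity) h4
  calc ∑ u ∈ Icc 1 M, 1 / ((u : ℝ) * (Nat.totient u : ℝ))
      ≤ ∑ u ∈ Icc 1 M, 1 / c * (u : ℝ) ^ (-(3 / 2) : ℝ) := Finset.sum_le_sum h2
    _ = 1 / c * ∑ u ∈ Icc 1 M, (u : ℝ) ^ (-(3 / 2) : ℝ) := by rw [Finset.mul_sum]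
    _ ≤ 1 / c * ∑' v : ℕ, (v : ℝ) ^ (-(3 / 2) : ℝ) := by
        refine mul_le_mul_of_nonneg_left ?_ (by positivity)
        exact hsum.sum_le_tsum _ fun v _ => by positivity
    _ ≤ _ := by linarith

private theorem tra_harm (Y : ℕ) : ∑ k ∈ Icc 1 Y, 1 / (k : ℝ) ≤ 1 + Real.log Y := by
  have h1 := harmonic_le_one_add_log Y
  rw [harmonic_eq_sum_Icc] at h1
  push_cast at h1
  refine le_trans (le_of_eq ?_) h1
  exact Finset.sum_congr rfl fun k _ => one_div _

private theorem tra_inv : ∃ C : ℝ, 0 < C ∧ ∀ Y : ℕ, 1 ≤ Y →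
    ∑ d ∈ Icc 1 Y, 1 / (Nat.totient d : ℝ) ≤ C * (1 + Real.log Y) := by
  classical
  obtain ⟨B, hB, hB'⟩ := tra_B
  refine ⟨B, hB, fun Y hY => ?_⟩
  have h1 : ∀ d ∈ Icc 1 Y, 1 / (Nat.totient d : ℝ) ≤
      ∑ u ∈ Icc 1 Y, if u ∣ d then 1 / (d : ℝ) * (1 / (Nat.totient u : ℝ)) else 0 := by
    intro d hd
    obtain ⟨hd1, hd2⟩ := Finset.mem_Icc.1 hd
    have hd0 : (0 : ℝ) < d := by exact_mod_cast hd1
    have h2 := tra_rt d 1 hd1 le_rfl
    rw [Nat.gcd_one_right] at h2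
    unfold rt at h2
    rw [Nat.totient_one, Nat.cast_one, div_one, one_mul] at h2
    have h3 : 1 / (Nat.totient d : ℝ) = 1 / (d : ℝ) * ((d : ℝ) / (Nat.totient d : ℝ)) := by
      field_simp
    rw [h3, ← Finset.sum_filter, ← Finset.mul_sum]
    refine mul_le_mul_of_nonneg_left (h2.trans ?_) (by positivity)
    refine Finset.sum_le_sum_of_subset_of_nonneg ?_ fun u _ _ => by positivity
    intro u hu
    have h4 := Nat.mem_divisors.1 (Finset.mem_filter.1 hu).1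
    rw [Finset.mem_filter, Finset.mem_Icc]
    exact ⟨⟨Nat.pos_of_dvd_of_pos h4.1 hd1, (Nat.le_of_dvd hd1 h4.1).trans hd2⟩, h4.1⟩
  refine (Finset.sum_le_sum h1).trans ?_
  rw [Finset.sum_comm]
  have h5 : ∀ u ∈ Icc 1 Y, ∑ d ∈ Icc 1 Y,
      (if u ∣ d then 1 / (d : ℝ) * (1 / (Nat.totient u : ℝ)) else 0) ≤
      1 / ((u : ℝ) * (Nat.totient u : ℝ)) * (1 + Real.log Y) := by
    intro u hu
    have hu1 := (Finset.mem_Icc.1 hu).1
    have hu0 : (0 : ℝ) < u := by exact_mod_cast hu1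
    rw [← Finset.sum_filter, ← Finset.sum_mul]
    have h6 : ∑ d ∈ (Icc 1 Y).filter (fun d => u ∣ d), 1 / (d : ℝ) ≤
        1 / (u : ℝ) * ∑ k ∈ Icc 1 Y, 1 / (k : ℝ) := by
      rw [Finset.mul_sum]
      have h7 : ∑ k ∈ Icc 1 Y, 1 / (u : ℝ) * (1 / (k : ℝ)) =
          ∑ d ∈ (Icc 1 Y).image (fun k => u * k), 1 / (d : ℝ) := by
        rw [Finset.sum_image]
        · refine Finset.sum_congr rfl fun k _ => ?_
          push_cast
          rw [one_div_mul_one_div]
        · intro k _ k' _ h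
          exact Nat.eq_of_mul_eq_mul_left hu1 h
      rw [h7]
      refine Finset.sum_le_sum_of_subset_of_nonneg ?_ fun d _ _ => by positivity
      intro d hd
      obtain ⟨hd1, k, rfl⟩ := Finset.mem_filter.1 hd
      obtain ⟨hd2, hd3⟩ := Finset.mem_Icc.1 hd1
      rw [Finset.mem_image]
      refine ⟨k, Finset.mem_Icc.2 ⟨Nat.pos_of_mul_pos_left hd2, ?_⟩, rfl⟩
      exact (Nat.le_mul_of_pos_left k hu1).trans hd3
    have h8 := tra_harm Y
    calc (∑ d ∈ (Icc 1 Y).filter (fun d => u ∣ d), 1 / (d : ℝ)) * (1 / (Nat.totient u : ℝ))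
        ≤ (1 / (u : ℝ) * (1 + Real.log Y)) * (1 / (Nat.totient u : ℝ)) := by
          refine mul_le_mul_of_nonneg_right (h6.trans ?_) (by positivity)
          exact mul_le_mul_of_nonneg_left h8 (by positivity)
      _ = _ := by
          rw [← one_div_mul_one_div]
          ring
  refine (Finset.sum_le_sum h5).trans ?_
  rw [← Finset.sum_mul]
  have h9 : 0 ≤ 1 + Real.log Y := by
    have := Real.log_nonneg (show (1 : ℝ) ≤ Y by exact_mod_cast hY)
    linarith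
  exact mul_le_mul_of_nonneg_right (hB' Y) h9

/-- numbers of one class in an interval -/
private theorem tra_cnt (S : Finset ℕ) (M : ℕ) (hM : 1 ≤ M) (D x : ℝ) (hD : 0 ≤ D)
    (hS : ∀ m ∈ S, ∀ m' ∈ S, m ≡ m' [MOD M]) (hx : ∀ m ∈ S, |(m : ℝ) - x| ≤ D) :
    (S.card : ℝ) ≤ 2 * D / M + 1 := by
  classical
  have hM0 : (0 : ℝ) < M := by exact_mod_cast hM
  rcases S.eq_empty_or_nonempty with h | h
  · rw [h, Finset.card_empty, Nat.cast_zero]
    positivity
  obtain ⟨m0, hm0, hmin⟩ := S.exists_min_image (fun m => m) h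
  have h1 : S.card ≤ (Finset.range (⌊2 * D / M⌋₊ + 1)).card := by
    refine Finset.card_le_card_of_injOn (fun m => (m - m0) / M) ?_ ?_
    · intro m hm
      have hm' := Finset.mem_coe.1 hm
      have h2 := hmin m hm'
      have h3 := hx m hm'
      have h4 := hx m0 hm0
      have h5 : (m : ℝ) - m0 ≤ 2 * D := by
        have := abs_le.1 h3
        have := abs_le.1 h4
        linarith [(abs_le.1 h3).2, (abs_le.1 h4).1]
      rw [Finset.mem_coe, Finset.mem_range, Nat.lt_succ_iff]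
      refine Nat.le_floor ?_
      refine (Nat.cast_div_le).trans ?_
      rw [Nat.cast_sub h2]
      exact div_le_div_of_nonneg_right h5 hM0.le
    · intro m hm m' hm' h2
      have hm1 := Finset.mem_coe.1 hm
      have hm2 := Finset.mem_coe.1 hm'
      have a1 := hmin m hm1
      have a2 := hmin m' hm2
      have b1 : M ∣ m - m0 := (Nat.modEq_iff_dvd' a1).1 (hS m0 hm0 m hm1)
      have b2 : M ∣ m' - m0 := (Nat.modEq_iff_dvd' a2).1 (hS m0 hm0 m' hm2)
      have h3 : m - m0 = m' - m0 := by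
        rw [← Nat.div_mul_cancel b1, ← Nat.div_mul_cancel b2]
        simp only at h2
        rw [h2]
      omega
  rw [Finset.card_range] at h1
  have h2 : (S.card : ℝ) ≤ (⌊2 * D / M⌋₊ : ℝ) + 1 := by exact_mod_cast h1
  have h3 := Nat.floor_le (show 0 ≤ 2 * D / M by positivity)
  linarith

open Classical in
theorem avP : AvP := by
  obtain ⟨B, hB, hB'⟩ := tra_B
  obtain ⟨C, hC, hC'⟩ := tra_inv
  refine ⟨2 * B + 3 * C, by positivity, fun X hX q a hq D x hD => ?_⟩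
  obtain ⟨S, hS⟩ : ∃ S, S = (Icc 1 (2 * X)).filter
    (fun m : ℕ => m ≡ a [MOD q] ∧ |(m : ℝ) - x| ≤ D) := ⟨_, rfl⟩
  rw [← hS]
  have hq0 : (0 : ℝ) < q := by exact_mod_cast hq
  have hX1 : 1 ≤ 2 * X := by omega
  have hlog : 1 ≤ Real.log X := by
    have h1 : Real.exp 1 < 3 := by
      have := Real.exp_one_lt_d9
      linarith
    rw [Real.le_log_iff_exp_le (by exact_mod_cast (by omega : 0 < X))]
    have h2 : (3 : ℝ) ≤ X := by exact_mod_cast hX
    linarith
  have hrg : 0 ≤ rt (Nat.gcd a q) := by unfold rt; positivity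
  -- one term
  have h1 : ∀ m ∈ S, rt m ≤ rt (Nat.gcd a q) *
      ∑ d ∈ (Icc 1 (2 * X)).filter (fun d => Nat.Coprime d q),
        if d ∣ m then 1 / (Nat.totient d : ℝ) else 0 := by
    intro m hm
    rw [hS] at hm
    obtain ⟨hm1, hm2, hm3⟩ := Finset.mem_filter.1 hm
    obtain ⟨hm4, hm5⟩ := Finset.mem_Icc.1 hm1
    have h2 := tra_rt m q hm4 hq
    rw [hm2.gcd_eq] at h2
    refine h2.trans (mul_le_mul_of_nonneg_left ?_ hrg)
    rw [← Finset.sum_filter]
    refine Finset.sum_le_sum_of_subset_of_nonneg ?_ fun u _ _ => by positivity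
    intro u hu
    obtain ⟨hu1, hu2⟩ := Finset.mem_filter.1 hu
    have h4 := Nat.mem_divisors.1 hu1
    rw [Finset.mem_filter, Finset.mem_filter, Finset.mem_Icc]
    exact ⟨⟨⟨Nat.pos_of_dvd_of_pos h4.1 hm4, (Nat.le_of_dvd hm4 h4.1).trans hm5⟩, hu2⟩, h4.1⟩
  refine (Finset.sum_le_sum h1).trans ?_
  rw [← Finset.mul_sum, Finset.sum_comm, mul_comm (2 * B + 3 * C) (rt (Nat.gcd a q)), mul_assoc]
  refine mul_le_mul_of_nonneg_left ?_ hrg
  have h2 : ∀ d ∈ (Icc 1 (2 * X)).filter (fun d => Nat.Coprime d q),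
      ∑ m ∈ S, (if d ∣ m then 1 / (Nat.totient d : ℝ) else 0) ≤
        2 * D / q * (1 / ((d : ℝ) * (Nat.totient d : ℝ))) + 1 / (Nat.totient d : ℝ) := by
    intro d hd
    obtain ⟨hd1, hd2⟩ := Finset.mem_filter.1 hd
    have hd3 := (Finset.mem_Icc.1 hd1).1
    have hd0 : (0 : ℝ) < d := by exact_mod_cast hd3
    have hf0 : (0 : ℝ) < Nat.totient d := by exact_mod_cast Nat.totient_pos.2 hd3
    rw [← Finset.sum_filter, Finset.sum_const, nsmul_eq_mul]
    have h3 := tra_cnt (S.filter fun m => d ∣ m) (q * d) (Nat.mul_pos hq hd3) D x hD (by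
      intro m hm m' hm'
      rw [hS] at hm hm'
      obtain ⟨a1, a2⟩ := Finset.mem_filter.1 hm
      obtain ⟨b1, b2⟩ := Finset.mem_filter.1 hm'
      have c1 := (Finset.mem_filter.1 a1).2.1
      have c2 := (Finset.mem_filter.1 b1).2.1
      refine (Nat.modEq_and_modEq_iff_modEq_mul hd2.symm).1 ⟨c1.trans c2.symm, ?_⟩
      exact ((Nat.modEq_zero_iff_dvd).2 a2).trans ((Nat.modEq_zero_iff_dvd).2 b2).symm) (by
      intro m hm
      rw [hS] at hm
      exact (Finset.mem_filter.1 (Finset.mem_filter.1 hm).1).2.2)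
    calc ((S.filter fun m => d ∣ m).card : ℝ) * (1 / (Nat.totient d : ℝ))
        ≤ (2 * D / ((q * d : ℕ) : ℝ) + 1) * (1 / (Nat.totient d : ℝ)) :=
          mul_le_mul_of_nonneg_right h3 (by positivity)
      _ = _ := by
          push_cast
          field_simp
  refine (Finset.sum_le_sum h2).trans ?_
  have h3 : ∑ d ∈ (Icc 1 (2 * X)).filter (fun d => Nat.Coprime d q),
      (2 * D / q * (1 / ((d : ℝ) * (Nat.totient d : ℝ))) + 1 / (Nat.totient d : ℝ)) ≤
      ∑ d ∈ Icc 1 (2 * X),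
      (2 * D / q * (1 / ((d : ℝ) * (Nat.totient d : ℝ))) + 1 / (Nat.totient d : ℝ)) :=
    Finset.sum_le_sum_of_subset_of_nonneg (Finset.filter_subset _ _)
      fun d _ _ => by positivity
  refine h3.trans ?_
  rw [Finset.sum_add_distrib, ← Finset.mul_sum]
  have h4 := hC' (2 * X) hX1
  have h5 : Real.log ((2 * X : ℕ) : ℝ) ≤ 2 * Real.log X := by
    have hX0 : (0 : ℝ) < X := by exact_mod_cast (by omega : 0 < X)
    push_cast
    rw [Real.log_mul (by norm_num) hX0.ne']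
    have h6 : Real.log 2 ≤ Real.log X :=
      Real.log_le_log (by norm_num) (by exact_mod_cast (by omega : 2 ≤ X))
    linarith
  have h6 : 2 * D / q * ∑ d ∈ Icc 1 (2 * X), 1 / ((d : ℝ) * (Nat.totient d : ℝ)) ≤
      2 * D / q * B := mul_le_mul_of_nonneg_left (hB' _) (by positivity)
  have h7 : C * (1 + Real.log ((2 * X : ℕ) : ℝ)) ≤ 3 * C * Real.log X := by
    nlinarith
  have h8 : 0 ≤ D / q := by positivity
  have h9 : 2 * D / q * B = 2 * B * (D / q) := by ring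
  have h10 : 0 ≤ C * (D / q) := by positivity
  have h11 : 0 ≤ B * Real.log X := by positivity
  nlinarith

end Pool.MP_dd84fd_nt.TC
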