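import Pool.Agent.Lib.MP_dd84fd_nt.TC.KDefs
import Pool.Agent.Lib.MP_dd84fd_nt.E2.Defs

/-!
# TC, TransF, definitions I (helper65): elementary part

`rt n = n/φ(n)`.  Tools for `n/φ(n)`: `BG.ratio_eq` (BG/Ser.lean): `n/φ(n) = ∏_{p ∣ n} p/(p-1)`.
-/

set_option autoImplicit false

namespace Pool.MP_dd84fd_nt.TC

open Finset Pool.MP_dd84fd_nt.En Pool.MP_dd84fd_nt.E2

/-- `n / φ(n)` -/
noncomputable def rt (n : ℕ) : ℝ := (n : ℝ) / (Nat.totient n : ℝ)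

open Classical in
/-- (AvP) the average of `m/φ(m)` over a residue class -/
def AvP : Prop := ∃ C : ℝ, 0 < C ∧ ∀ X : ℕ, 3 ≤ X → ∀ q a : ℕ, 1 ≤ q → ∀ D x : ℝ, 0 ≤ D →
  ∑ m ∈ (Icc 1 (2 * X)).filter (fun m : ℕ => m ≡ a [MOD q] ∧ |(m : ℝ) - x| ≤ D), rt m ≤
    C * rt (Nat.gcd a q) * (D / q + Real.log X)

/-- (AvW) the weighted average of `m/φ(m)` over a residue class -/
def AvW : Prop := ∃ C : ℝ, 0 < C ∧ ∀ X : ℕ, 3 ≤ X → ∀ q a : ℕ, 1 ≤ q → ∀ D x : ℝ, 1 ≤ D →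
  ∑ m ∈ (Icc 1 (2 * X)).filter (fun m : ℕ => m ≡ a [MOD q]), wk D ((m : ℝ) - x) * rt m ≤
    C * rt (Nat.gcd a q) * (D / q + Real.log X)

/-- (SPC) the special numbers -/
def SpcF : Prop := ∃ C : ℝ, 0 < C ∧ ∀ X : ℕ, 3 ≤ X → ∀ (Q n r h : ℕ) (D : ℝ), 1 ≤ D → 1 ≤ Q →
  1 ≤ r → r ≤ X → 1 ≤ h → h ^ 4 < r / Nat.gcd r n →
  ∑ m ∈ (Icc 1 (2 * X)).filter (fun m : ℕ => m ≡ n [MOD Q] ∧ r / Nat.gcd r m ≤ h),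
      wk D ((m : ℝ) - n) * rt m ≤
    C * rt (Nat.gcd n Q) * (D / Q / Real.sqrt h + h * (Real.log X) ^ 2)

/-- (BtG) the upper bound of the sieve -/
def BtG : Prop := ∃ C : ℝ, 0 < C ∧ ∃ X0 : ℕ, ∀ X : ℕ, X0 ≤ X → ∀ m : ℕ, 1 ≤ m → m ≤ 2 * X →
  Even m → (g m : ℝ) ≤ C * rt m * (X / (Real.log X) ^ 2)

/-- (JJC) -/
def JJC : Prop := ∀ m n : ℕ, |JJ m - JJ n| ≤ 3 * |(m : ℝ) - n|

/-- (JJU) -/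
def JJU : Prop := ∃ C : ℝ, 0 < C ∧ ∃ X0 : ℕ, ∀ X : ℕ, X0 ≤ X → ∀ n : ℕ, n ≤ X →
  JJ n ≤ C * (X / (Real.log X) ^ 2)

/-- (SsC) -/
def SsC : Prop := ∃ C : ℝ, 0 < C ∧ ∀ n : ℕ, 1 ≤ n → Even n → rt n ≤ C * SS n ∧ SS n ≤ C * rt n

end Pool.MP_dd84fd_nt.TC
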