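import Pool.Agent.Lib.MP_dd84fd_nt.TC.Defs
import Pool.Agent.Lib.MP_dd84fd_nt.TC.TrD0
import Pool.Agent.Lib.MP_dd84fd_nt.EF.Fin
import Pool.Agent.Lib.MP_dd84fd_nt.EF.DefsH

/-!
# TC, TransF, definitions II (helper65): the parts which need the explicit formula

`EF.SP`, `EF.II`: EF/Defs; `EF.coF`, `EF.SF`, `EF.SP_SF`, `EF.sf_bound`: EF/Fin.  `rs k n`: the Ramanujan
sum; `et r n k`: the terms of the Euler product of the singular series without the primes `p ∣ r`.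
-/

set_option autoImplicit false

namespace Pool.MP_dd84fd_nt.TC

open Finset Pool.MP_67663b_nt.Odd Pool.MP_dd84fd_nt.En Pool.MP_dd84fd_nt.E2 Pool.MP_dd84fd_nt.LS
open Pool.MP_dd84fd_nt.GX Pool.MP_dd84fd_nt.HX Pool.MP_dd84fd_nt.IX
open Pool.MP_dd84fd_nt.BX (PC pv IsPC PR SX sN prc ind)

/-- the Ramanujan sum -/
noncomputable def rs (k n : ℕ) : ℂ :=
  ∑ a ∈ (range k).filter (fun a => Nat.Coprime a k), ee (-((n : ℝ) * ((a : ℝ) / k)))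

open Classical in
/-- the terms of the Euler product -/
noncomputable def et (r n k : ℕ) : ℂ :=
  if Squarefree k ∧ Nat.Coprime k r then rs k n / (Nat.totient k : ℂ) ^ 2 else 0

/-- (FAC) the coefficients modulo the multiples of `[r₁, r₂]` -/
def FacF : Prop := ∀ ψ₁ ψ₂ : PC, IsPC ψ₁ → IsPC ψ₂ →
  (∀ n k : ℕ, EF.coF n ψ₁ ψ₂ (Nat.lcm ψ₁.1 ψ₂.1 * k) =
    EF.coF n ψ₁ ψ₂ (Nat.lcm ψ₁.1 ψ₂.1) * et (Nat.lcm ψ₁.1 ψ₂.1) n k) ∧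
  ∀ m n : ℕ, m ≡ n [MOD (Nat.lcm ψ₁.1 ψ₂.1)] →
    EF.coF m ψ₁ ψ₂ (Nat.lcm ψ₁.1 ψ₂.1) = EF.coF n ψ₁ ψ₂ (Nat.lcm ψ₁.1 ψ₂.1)

/-- (RAT) the Euler product without the primes `p ∣ r`, compared to the singular series -/
def RatF : Prop := ∀ r m n : ℕ, 1 ≤ r → 1 ≤ m → 1 ≤ n → Even m → Even n → m ≡ n [MOD r] →
  (∑' k : ℕ, et r m k) * (SS n : ℂ) = (∑' k : ℕ, et r n k) * (SS m : ℂ)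

/-- (SPR) the singular series of a pair of characters over a residue class -/
def SpR : Prop := ∀ ψ₁ ψ₂ : PC, IsPC ψ₁ → IsPC ψ₂ → ∀ m n : ℕ, 1 ≤ m → 1 ≤ n → Even m → Even n →
  m ≡ n [MOD (Nat.lcm ψ₁.1 ψ₂.1)] →
    EF.SP m ψ₁ ψ₂ * (SS n : ℂ) = EF.SP n ψ₁ ψ₂ * (SS m : ℂ)

/-- (IIC) size and continuity of the integrals -/
def IIC : Prop := ∃ C : ℝ, 0 < C ∧ ∀ B : ℕ, ∃ X0 : ℕ, ∀ X : ℕ, X0 ≤ X → ∀ ψ₁ ψ₂ : PC,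
  (IsPC ψ₁ ∧ 2 ≤ ψ₁.1 ∧ (ψ₁.1 : ℝ) ≤ (X : ℝ) ^ (2 / 3 : ℝ)) →
  (IsPC ψ₂ ∧ 2 ≤ ψ₂.1 ∧ (ψ₂.1 : ℝ) ≤ (X : ℝ) ^ (2 / 3 : ℝ)) → ∀ m n : ℕ,
    ‖EF.II X n ((Real.log X) ^ B) ψ₁ ψ₂‖ ≤ C * (X / (Real.log X) ^ 2) ∧
    ‖EF.II X m ((Real.log X) ^ B) ψ₁ ψ₂ - EF.II X n ((Real.log X) ^ B) ψ₁ ψ₂‖ ≤
      C * |(m : ℝ) - n| * ((Real.log X) ^ B / X) * (X / (Real.log X) ^ 2)

/-- (PT) the numbers near a failure -/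
def PtF : Prop := ∀ ν : ℝ, 0 < ν → ν ≤ 1 / 20 → ∃ C1 B1 : ℕ, 1 ≤ C1 ∧ 1 ≤ B1 ∧ ∀ B : ℕ, B1 ≤ B →
  ∀ δ : ℝ, 0 < δ → δ ≤ 1 → ∀ h : ℕ, (C1 : ℝ) / δ ^ C1 ≤ h → ∃ X0 : ℕ, ∀ X : ℕ, X0 ≤ X →
  ∃ (Y : Finset PC) (Ex : Finset ℕ), (Y.card : ℝ) ≤ C1 / δ ^ 18 ∧
    (Ex.card : ℝ) ≤ (X : ℝ) ^ (1 / 3 + ν / 2) ∧ (∀ ψ ∈ Y, 1 ≤ ψ.1 ∧ ψ.1 ≤ X) ∧
    ∀ n : ℕ, 6 / 10 * (X : ℝ) ≤ n → (n : ℝ) ≤ 9 / 10 * X → Even n → n ∉ Ex →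
    (g n : ℝ) ≤ δ * (SS n * JJ n) → ∀ Q : ℕ, 2 ∣ Q →
    (∀ ψ ∈ Y, ψ.1 / Nat.gcd ψ.1 n ≤ h ^ 4 → ψ.1 ∣ Q) →
    ∀ m : ℕ, m ≡ n [MOD Q] → |(m : ℝ) - n| ≤ Dl B X / δ → m ∉ Ex →
    (∀ ψ ∈ Y, ¬ ψ.1 ∣ Q → h < ψ.1 / Nat.gcd ψ.1 m) →
    (g m : ℝ) ≤ C1 * δ * rt m * (X / (Real.log X) ^ 2)

end Pool.MP_dd84fd_nt.TC
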