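import Pool.Agent.Lib.MP_dd84fd_nt.TC.TrDefs

/-!
# TC-TrM (1.5 h): a failure makes the average over a residue class small

Proof.  Constants: `C1, B1` from `PtF` (for `ν`), `h = ⌈C2/δ^C2⌉` with `C2 ≥ C1` large (`C1/δ^18 · C /√h ≤ δ²`),
`H = h^4`, `N = ⌈C1/δ^18⌉`, `Y`, `Ex` from `PtF`.  `Δ = Dl B X`, `D = Δ/δ`, `κ = rt (gcd n Q)`, `S = X/L²`.
Let `m ≡ n (Q)`, `1 ≤ m ≤ 2X`; `m` is even, `g m ≤ C rt m S` (`BtG`).
(1) `|m - n| > D`: `wk Δ u = (Δ/u)² ≤ δ² wk D u`, `AvW` with `D` (centre `n`): `≤ C δ² κ (D/Q + log X) S`.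
(2) `m ∈ Ex`: `wk ≤ 1`, `g m ≤ m + 1 ≤ 3X`: `≤ X^(1/3+ν/2) 3X ≤ δ (Δ/Q) κ S` (`Δ/Q ≥ X^(1/3+ν)/(4 L^B)`, `κ ≥ 1`).
(3) there is `ψ ∈ Y`, `¬ ψ.1 ∣ Q`, `ψ.1/(ψ.1,m) ≤ h`: then `ψ.1/(ψ.1,n) > H = h^4` by the hypothesis; `SpcF` for
every such `ψ` (`r = ψ.1 ≤ X`): `≤ N C κ (Δ/Q/√h + h L²) C S`.
(4) the others: `PtF`: `g m ≤ C1 δ rt m S`, `AvW` with `Δ`: `≤ C1 δ C κ (Δ/Q + log X) S`.
`log X`, `h L²` are `≤ δ² Δ/Q` for `X` large (`Δ/Q ≥ X^(1/3)`).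
-/

set_option autoImplicit false

namespace Pool.MP_dd84fd_nt.TC

open Finset Pool.MP_67663b_nt.Odd Pool.MP_dd84fd_nt.En Pool.MP_dd84fd_nt.E2 Pool.MP_dd84fd_nt.LS
open Pool.MP_dd84fd_nt.GX Pool.MP_dd84fd_nt.HX Pool.MP_dd84fd_nt.IX
open Pool.MP_dd84fd_nt.BX (PC pv IsPC PR SX sN prc ind GauBD h0 cP)

private theorem tm_g_le (m : ℕ) : (g m : ℝ) ≤ m + 1 := by
  unfold g
  have h := Finset.card_filter_le (range (m + 1)) (fun p => Nat.Prime p ∧ Nat.Prime (m - p))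
  rw [Finset.card_range] at h
  exact_mod_cast h

private theorem tm_wk_nonneg (Δ u : ℝ) : 0 ≤ wk Δ u := by
  unfold wk
  split_ifs
  · exact zero_le_one
  · exact sq_nonneg _

private theorem tm_wk_le_one {Δ u : ℝ} (hΔ : 0 ≤ Δ) : wk Δ u ≤ 1 := by
  unfold wk
  split_ifs with h
  · exact le_rfl
  · rw [not_le] at h
    rw [sq_le_one_iff_abs_le_one, abs_div, abs_of_nonneg hΔ]
    exact (div_le_one (lt_of_le_of_lt hΔ h)).2 h.le

private theorem tm_wk_far {Δ δ u : ℝ} (hΔ : 0 < Δ) (hδ : 0 < δ) (hδ1 : δ ≤ 1)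
    (h : Δ / δ < |u|) : wk Δ u = δ ^ 2 * wk (Δ / δ) u := by
  have h1 : Δ ≤ Δ / δ := (le_div_iff₀ hδ).2 (by nlinarith)
  have hu : u ≠ 0 := by
    rintro rfl
    rw [abs_zero] at h
    exact absurd h (not_lt.2 (by positivity))
  unfold wk
  rw [if_neg (not_le.2 (h1.trans_lt h)), if_neg (not_le.2 h)]
  field_simp

private theorem tm_rt_nonneg (n : ℕ) : 0 ≤ rt n := by
  unfold rt
  positivity

private theorem tm_one_le_rt {n : ℕ} (hn : 1 ≤ n) : 1 ≤ rt n := by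
  unfold rt
  have h1 : (0 : ℝ) < (Nat.totient n : ℝ) := by exact_mod_cast Nat.totient_pos.2 hn
  rw [le_div_iff₀ h1, one_mul]
  exact_mod_cast Nat.totient_le n

private theorem tm_ev (ν : ℝ) (hν : 0 < ν) (B : ℕ) (δ K : ℝ) (hδ : 0 < δ) :
    ∃ X0 : ℕ, 3 ≤ X0 ∧ ∀ X : ℕ, X0 ≤ X →
      12 * Real.log X ^ (B + 2) ≤ δ * (X : ℝ) ^ (ν / 2) ∧ K ≤ (X : ℝ) ^ (ν / 2) := by
  have h1 := (isLittleO_log_rpow_rpow_atTop ((B + 2 : ℕ) : ℝ) (half_pos hν)).def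
    (show (0 : ℝ) < δ / 12 by positivity)
  have h2 : ∀ᶠ x : ℝ in Filter.atTop, K ≤ x ^ (ν / 2) :=
    (tendsto_rpow_atTop (half_pos hν)).eventually_ge_atTop K
  have h3 := tendsto_natCast_atTop_atTop (R := ℝ) |>.eventually (h1.and h2)
  obtain ⟨X1, hX1⟩ := Filter.eventually_atTop.1 h3
  refine ⟨max X1 3, le_max_right _ _, fun X hX => ?_⟩
  obtain ⟨h4, h5⟩ := hX1 X ((le_max_left _ _).trans hX)
  have hX3 : 3 ≤ X := (le_max_right _ _).trans hX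
  refine ⟨?_, h5⟩
  have hX3' : (3 : ℝ) ≤ X := by exact_mod_cast hX3
  have hL : 0 ≤ Real.log X := Real.log_nonneg (by linarith)
  rw [Real.rpow_natCast, Real.norm_of_nonneg (by positivity),
    Real.norm_of_nonneg (by positivity)] at h4
  linarith

private theorem tm_log {X : ℕ} (hX : 3 ≤ X) : 1 ≤ Real.log X := by
  have h3 : (3 : ℝ) ≤ X := by exact_mod_cast hX
  rw [Real.le_log_iff_exp_le (by linarith)]
  have := Real.exp_one_lt_d9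
  linarith

private theorem tm_win {ν δ K : ℝ} {B X Q : ℕ} (hν : 0 < ν) (hδ : 0 < δ)
    (hδ1 : δ ≤ 1) (hX : 3 ≤ X) (h1 : 12 * Real.log X ^ (B + 2) ≤ δ * (X : ℝ) ^ (ν / 2))
    (h2 : K ≤ (X : ℝ) ^ (ν / 2)) (hQ : 1 ≤ Q) (hQX : (Q : ℝ) ≤ (X : ℝ) ^ (2 / 3 - ν)) :
    (X : ℝ) ^ (1 / 3 + ν / 2) * (3 * X) ≤ δ * (Dl B X / Q) * (X / Real.log X ^ 2) ∧
      K * Real.log X ^ 2 ≤ δ * (Dl B X / Q) ∧ Real.log X ≤ Dl B X / Q ∧ 1 ≤ Dl B X := by
  have hx3 : (3 : ℝ) ≤ X := by exact_mod_cast hX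
  have hx0 : (0 : ℝ) < X := by linarith
  have hL1 := tm_log hX
  have hQ0 : (0 : ℝ) < Q := by exact_mod_cast hQ
  have hQ1 : (1 : ℝ) ≤ Q := by exact_mod_cast hQ
  set L := Real.log X with hL
  set y := (X : ℝ) ^ (ν / 2) with hy
  set z := (X : ℝ) ^ (1 / 3 + ν / 2) with hz
  have hy0 : 0 < y := by positivity
  have hz0 : 0 < z := by positivity
  have hyz : y ≤ z := Real.rpow_le_rpow_of_exponent_le (by linarith) (by linarith)
  have hz1 : 1 ≤ z := Real.one_le_rpow (by linarith) (by linarith)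
  have hLB : 0 < L ^ B := by positivity
  have hL0 : 0 < L := by linarith
  have hmain : 3 * L ^ 2 * z ≤ δ * (Dl B X / Q) := by
    have e1 : (X : ℝ) ^ (2 / 3 - ν) * (z * y) = X := by
      rw [hz, hy, ← Real.rpow_add hx0, ← Real.rpow_add hx0]
      rw [show (2 / 3 - ν + (1 / 3 + ν / 2 + ν / 2) : ℝ) = 1 by ring, Real.rpow_one]
    have e2 : (Q : ℝ) * (z * y) ≤ X := by
      calc (Q : ℝ) * (z * y) ≤ (X : ℝ) ^ (2 / 3 - ν) * (z * y) :=
            mul_le_mul_of_nonneg_right hQX (by positivity)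
        _ = X := e1
    have e3 : z * y / (4 * L ^ B) ≤ Dl B X / Q := by
      unfold Dl
      rw [div_div, div_le_div_iff₀ (by positivity) (by positivity)]
      calc z * y * (4 * L ^ B * Q) = (Q * (z * y)) * (4 * L ^ B) := by ring
        _ ≤ X * (4 * L ^ B) := mul_le_mul_of_nonneg_right e2 (by positivity)
    calc 3 * L ^ 2 * z = (12 * L ^ (B + 2)) * (z / (4 * L ^ B)) := by
          rw [pow_add]
          field_simp
          ring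
      _ ≤ (δ * y) * (z / (4 * L ^ B)) := mul_le_mul_of_nonneg_right h1 (by positivity)
      _ = δ * (z * y / (4 * L ^ B)) := by ring
      _ ≤ δ * (Dl B X / Q) := mul_le_mul_of_nonneg_left e3 hδ.le
  have hD0 : 0 ≤ Dl B X / Q := by
    unfold Dl
    positivity
  have hL3 : L ≤ Dl B X / Q := by
    have e1 : δ * (Dl B X / Q) ≤ 1 * (Dl B X / Q) := mul_le_mul_of_nonneg_right hδ1 hD0
    have e2 : L ≤ 3 * L ^ 2 * z := by nlinarith [mul_le_mul hL1 hz1 zero_le_one hL0.le]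
    linarith
  refine ⟨?_, ?_, hL3, ?_⟩
  · calc z * (3 * X) = 3 * L ^ 2 * z * (X / L ^ 2) := by
          field_simp
      _ ≤ δ * (Dl B X / Q) * (X / L ^ 2) := mul_le_mul_of_nonneg_right hmain (by positivity)
  · have e1 : K * L ^ 2 ≤ z * L ^ 2 := mul_le_mul_of_nonneg_right (h2.trans hyz) (by positivity)
    have e2 : 0 < z * L ^ 2 := by positivity
    linarith
  · have e1 : Dl B X / Q ≤ Dl B X := by
      refine div_le_self ?_ hQ1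
      unfold Dl
      positivity
    linarith

theorem transF_of (hP : PtF) (hW : AvW) (hB : BtG) (hX : SpcF) : TransF := by
  classical
  intro ν hν hν1
  obtain ⟨C1, B1, hC1, hB1, hP⟩ := hP ν hν hν1
  obtain ⟨Cw, hCw, hW⟩ := hW
  obtain ⟨Cb, hCb, Xb, hB⟩ := hB
  obtain ⟨Cs, hCs, hX⟩ := hX
  have hC1r : (1 : ℝ) ≤ C1 := by exact_mod_cast hC1
  obtain ⟨c2, hc2⟩ := exists_nat_ge (max (max (C1 : ℝ) 38) ((C1 * Cb * Cs) ^ 2))
  have hc2a : (C1 : ℝ) ≤ c2 := ((le_max_left _ _).trans (le_max_left _ _)).trans hc2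
  have hc2b : (38 : ℝ) ≤ c2 := ((le_max_right _ _).trans (le_max_left _ _)).trans hc2
  have hc2c : (C1 * Cb * Cs) ^ 2 ≤ (c2 : ℝ) := (le_max_right _ _).trans hc2
  have hc2a' : C1 ≤ c2 := by exact_mod_cast hc2a
  have hc2b' : 38 ≤ c2 := by exact_mod_cast hc2b
  obtain ⟨C0, hC0⟩ := exists_nat_ge (16 * (c2 : ℝ) ^ 4 + 4 * c2 + (2 * Cb * Cw + 3 + 2 * C1 * Cw))
  have hC0a : 16 * (c2 : ℝ) ^ 4 ≤ C0 := by
    have : 0 ≤ 4 * (c2 : ℝ) + (2 * Cb * Cw + 3 + 2 * C1 * Cw) := by positivity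
    linarith
  have hC0b : 4 * c2 ≤ C0 := by
    have : 0 ≤ 16 * (c2 : ℝ) ^ 4 + (2 * Cb * Cw + 3 + 2 * C1 * Cw) := by positivity
    have h : (4 : ℝ) * c2 ≤ C0 := by linarith
    exact_mod_cast h
  have hC0c : 2 * Cb * Cw + 3 + 2 * C1 * Cw ≤ C0 := by
    have : 0 ≤ 16 * (c2 : ℝ) ^ 4 + 4 * (c2 : ℝ) := by positivity
    linarith
  refine ⟨C0, B1, hB1, fun B hBB δ hδ hδ1 => ?_⟩
  obtain ⟨h, hh⟩ : ∃ h : ℕ, h = ⌈(c2 : ℝ) / δ ^ c2⌉₊ := ⟨_, rfl⟩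
  have hlo : (c2 : ℝ) / δ ^ c2 ≤ h := by rw [hh]; exact Nat.le_ceil _
  have hup : (h : ℝ) ≤ (c2 : ℝ) / δ ^ c2 + 1 := by
    rw [hh]; exact (Nat.ceil_lt_add_one (by positivity)).le
  have hdp : ∀ k : ℕ, 0 < δ ^ k := fun k => by positivity
  have hd1 : ∀ k : ℕ, δ ^ k ≤ 1 := fun k => pow_le_one₀ hδ.le hδ1
  have hcd : (38 : ℝ) ≤ (c2 : ℝ) / δ ^ c2 := by
    rw [le_div_iff₀ (hdp _)]
    nlinarith [hd1 c2, hdp c2]
  have hh38 : (38 : ℝ) ≤ h := hcd.trans hlo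
  have hh38' : 38 ≤ h := by exact_mod_cast hh38
  -- the two lower bounds for `h`
  have hhC1 : (C1 : ℝ) / δ ^ C1 ≤ h := by
    refine le_trans ?_ hlo
    exact div_le_div₀ (by positivity) hc2a (hdp _) (pow_le_pow_of_le_one hδ.le hδ1 hc2a')
  have hsq : C1 * Cb * Cs / δ ^ 19 ≤ Real.sqrt h := by
    refine Real.le_sqrt_of_sq_le ?_
    rw [_root_.div_pow, ← pow_mul]
    refine le_trans ?_ hlo
    exact div_le_div₀ (by positivity) hc2c (hdp _) (pow_le_pow_of_le_one hδ.le hδ1 hc2b')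
  have hs0 : 0 < Real.sqrt h := Real.sqrt_pos.2 (by linarith)
  refine ⟨h ^ 4, ⌈(C1 : ℝ) / δ ^ 18⌉₊, ?_, ?_, ?_⟩
  · have e1 : (h : ℝ) ≤ 2 * ((c2 : ℝ) / δ ^ c2) := by linarith
    have e2 := pow_le_pow_left₀ (by positivity) e1 4
    push_cast
    refine e2.trans ?_
    calc (2 * ((c2 : ℝ) / δ ^ c2)) ^ 4 = 16 * (c2 : ℝ) ^ 4 / δ ^ (4 * c2) := by
          have e3 : δ ^ (4 * c2) = (δ ^ c2) ^ 4 := by rw [← pow_mul, mul_comm]
          rw [e3]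
          field_simp
          norm_num
      _ ≤ C0 / δ ^ C0 :=
        div_le_div₀ (by positivity) hC0a (hdp _) (pow_le_pow_of_le_one hδ.le hδ1 hC0b)
  · calc 2 ≤ h := by omega
      _ = h ^ 1 := (pow_one h).symm
      _ ≤ h ^ 4 := Nat.pow_le_pow_right (by omega) (by norm_num)
  obtain ⟨X1, hP⟩ := hP B hBB δ hδ hδ1 h hhC1
  obtain ⟨X2, hX2, hev⟩ := tm_ev ν hν B δ (C1 / δ ^ 18 * Cb * Cs * h) hδ
  refine ⟨max X1 (max X2 Xb), fun X hXX => ?_⟩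
  have hXX1 : X1 ≤ X := (le_max_left _ _).trans hXX
  have hXX2 : X2 ≤ X := ((le_max_left _ _).trans (le_max_right _ _)).trans hXX
  have hXXb : Xb ≤ X := ((le_max_right _ _).trans (le_max_right _ _)).trans hXX
  have hX3 : 3 ≤ X := hX2.trans hXX2
  have hx3 : (3 : ℝ) ≤ X := by exact_mod_cast hX3
  obtain ⟨hev1, hev2⟩ := hev X hXX2
  obtain ⟨Y, Ex, hY, hEx, hYr, hpt⟩ := hP X hXX1
  refine ⟨Y, Ex, ?_, ?_, hYr, fun n hn1 hn2 hne hnE hg Q hQ h2Q hQX hH => ?_⟩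
  · have e1 : (Y.card : ℝ) ≤ (⌈(C1 : ℝ) / δ ^ 18⌉₊ : ℝ) := hY.trans (Nat.le_ceil _)
    exact_mod_cast e1
  · exact hEx.trans (Real.rpow_le_rpow_of_exponent_le (by linarith) (by linarith))
  obtain ⟨w1, w2, w3, w4⟩ := tm_win (K := C1 / δ ^ 18 * Cb * Cs * h) hν hδ hδ1 hX3 hev1 hev2 hQ hQX
  have hL1 := tm_log hX3
  have hpt' := hpt n hn1 hn2 hne hnE hg Q h2Q hH
  obtain ⟨Δ, hΔ⟩ : ∃ Δ : ℝ, Δ = Dl B X := ⟨_, rfl⟩
  obtain ⟨L, hL⟩ : ∃ L : ℝ, L = Real.log X := ⟨_, rfl⟩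
  obtain ⟨S, hS⟩ : ∃ S : ℝ, S = X / L ^ 2 := ⟨_, rfl⟩
  obtain ⟨κ, hκ⟩ : ∃ κ : ℝ, κ = rt (Nat.gcd n Q) := ⟨_, rfl⟩
  have hW1 := hW X hX3 Q n hQ
  have hX1' := hX X hX3 Q n
  have hB1' := hB X hXXb
  rw [← hΔ, ← hL] at w1 w2 w3
  rw [← hΔ] at w4
  rw [← hS] at w1
  rw [← hΔ, ← hL, ← hS] at hpt'
  rw [← hL] at hL1
  simp only [← hL, ← hκ] at hW1 hX1'
  simp only [← hL] at hB1'
  simp only [← hS] at hB1'
  have hL0 : 0 < L := by linarith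
  have hS0 : 0 < S := by rw [hS]; positivity
  have hΔ0 : 0 < Δ := by linarith
  have hκ1 : 1 ≤ κ := by
    rw [hκ]
    exact tm_one_le_rt (Nat.gcd_pos_of_pos_right n hQ)
  have hQ0 : (0 : ℝ) < Q := by exact_mod_cast hQ
  set M := (Icc 1 (2 * X)).filter (fun m => m ≡ n [MOD Q]) with hM
  set Y' := Y.filter (fun ψ => ¬ ψ.1 ∣ Q) with hY'
  -- the pointwise bound
  have hpw : ∀ m ∈ M, wk Δ ((m : ℝ) - n) * (g m : ℝ) ≤
      Cb * δ ^ 2 * S * (wk (Δ / δ) ((m : ℝ) - n) * rt m) +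
      (if m ∈ Ex then 3 * (X : ℝ) else 0) +
      (∑ ψ ∈ Y', if ψ.1 / Nat.gcd ψ.1 m ≤ h then Cb * S * (wk Δ ((m : ℝ) - n) * rt m) else 0) +
      C1 * δ * S * (wk Δ ((m : ℝ) - n) * rt m) := by
    intro m hm
    rw [hM, Finset.mem_filter, Finset.mem_Icc] at hm
    obtain ⟨⟨hm1, hm2⟩, hmn⟩ := hm
    have hev : Even m := by
      have e1 : m ≡ n [MOD 2] := hmn.of_dvd h2Q
      have e2 : n % 2 = 0 := Nat.even_iff.1 hne
      rw [Nat.even_iff]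
      rw [← e2]
      exact e1
    have a0 : 0 ≤ wk Δ ((m : ℝ) - n) * rt m := mul_nonneg (tm_wk_nonneg _ _) (tm_rt_nonneg _)
    have b1 : 0 ≤ Cb * δ ^ 2 * S * (wk (Δ / δ) ((m : ℝ) - n) * rt m) :=
      mul_nonneg (by positivity) (mul_nonneg (tm_wk_nonneg _ _) (tm_rt_nonneg _))
    have b2 : 0 ≤ (if m ∈ Ex then 3 * (X : ℝ) else 0) := by
      split_ifs
      · positivity
      · exact le_rfl
    have b3 : 0 ≤ ∑ ψ ∈ Y', if ψ.1 / Nat.gcd ψ.1 m ≤ h then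
        Cb * S * (wk Δ ((m : ℝ) - n) * rt m) else 0 := by
      refine Finset.sum_nonneg fun ψ _ => ?_
      split_ifs
      · exact mul_nonneg (by positivity) a0
      · exact le_rfl
    have b4 : 0 ≤ C1 * δ * S * (wk Δ ((m : ℝ) - n) * rt m) := mul_nonneg (by positivity) a0
    have hgm : (g m : ℝ) ≤ Cb * rt m * S := hB1' m hm1 hm2 hev
    by_cases c1 : Δ / δ < |(m : ℝ) - n|
    · have e1 : wk Δ ((m : ℝ) - n) * (g m : ℝ) ≤
          Cb * δ ^ 2 * S * (wk (Δ / δ) ((m : ℝ) - n) * rt m) := by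
        rw [tm_wk_far hΔ0 hδ hδ1 c1]
        have e2 := mul_le_mul_of_nonneg_left hgm
          (mul_nonneg (sq_nonneg δ) (tm_wk_nonneg (Δ / δ) ((m : ℝ) - n)))
        calc _ ≤ _ := e2
          _ = _ := by ring
      linarith
    · rw [not_lt] at c1
      by_cases c2 : m ∈ Ex
      · rw [if_pos c2] at b2 ⊢
        have e1 : wk Δ ((m : ℝ) - n) * (g m : ℝ) ≤ 1 * (3 * X) := by
          refine mul_le_mul (tm_wk_le_one hΔ0.le) ?_ (Nat.cast_nonneg _) zero_le_one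
          have e2 := tm_g_le m
          have e3 : (m : ℝ) ≤ 2 * X := by exact_mod_cast hm2
          linarith
        linarith
      · by_cases c3 : ∃ ψ ∈ Y, ¬ ψ.1 ∣ Q ∧ ψ.1 / Nat.gcd ψ.1 m ≤ h
        · obtain ⟨ψ, hψ, hψQ, hψh⟩ := c3
          have hψ' : ψ ∈ Y' := Finset.mem_filter.2 ⟨hψ, hψQ⟩
          have e1 := Finset.single_le_sum (f := fun ψ : PC => if ψ.1 / Nat.gcd ψ.1 m ≤ h then
            Cb * S * (wk Δ ((m : ℝ) - n) * rt m) else 0) (fun ψ _ => by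
              split_ifs
              · exact mul_nonneg (by positivity) a0
              · exact le_rfl) hψ'
          rw [if_pos hψh] at e1
          have e2 := mul_le_mul_of_nonneg_left hgm (tm_wk_nonneg Δ ((m : ℝ) - n))
          have e3 : wk Δ ((m : ℝ) - n) * (Cb * rt m * S) =
            Cb * S * (wk Δ ((m : ℝ) - n) * rt m) := by ring
          linarith
        · have e1 : (g m : ℝ) ≤ C1 * δ * rt m * S := by
            refine hpt' m hmn c1 c2 fun ψ hψ hψQ => ?_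
            by_contra hc
            exact c3 ⟨ψ, hψ, hψQ, not_lt.1 hc⟩
          have e2 := mul_le_mul_of_nonneg_left e1 (tm_wk_nonneg Δ ((m : ℝ) - n))
          have e3 : wk Δ ((m : ℝ) - n) * (C1 * δ * rt m * S) =
            C1 * δ * S * (wk Δ ((m : ℝ) - n) * rt m) := by ring
          linarith
  have hsum := Finset.sum_le_sum hpw
  rw [Finset.sum_add_distrib, Finset.sum_add_distrib, Finset.sum_add_distrib, ← Finset.mul_sum,
    ← Finset.mul_sum] at hsum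
  -- first sum
  have t1 : ∑ m ∈ M, wk (Δ / δ) ((m : ℝ) - n) * rt m ≤ Cw * κ * (Δ / δ / Q + L) :=
    hW1 (Δ / δ) n ((le_div_iff₀ hδ).2 (by linarith))
  have t4 : ∑ m ∈ M, wk Δ ((m : ℝ) - n) * rt m ≤ Cw * κ * (Δ / Q + L) := hW1 Δ n w4
  -- second sum
  have t2 : ∑ m ∈ M, (if m ∈ Ex then 3 * (X : ℝ) else 0) ≤
      (X : ℝ) ^ (1 / 3 + ν / 2) * (3 * X) := by
    rw [← Finset.sum_filter, Finset.sum_const, nsmul_eq_mul]
    refine mul_le_mul_of_nonneg_right (le_trans ?_ hEx) (by positivity)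
    have e1 : M.filter (fun m => m ∈ Ex) ⊆ Ex := fun m hm => (Finset.mem_filter.1 hm).2
    exact_mod_cast Finset.card_le_card e1
  -- third sum
  have t3 : ∑ m ∈ M, (∑ ψ ∈ Y', if ψ.1 / Nat.gcd ψ.1 m ≤ h then
      Cb * S * (wk Δ ((m : ℝ) - n) * rt m) else 0) ≤
      C1 / δ ^ 18 * (Cb * S * (Cs * κ * (Δ / Q / Real.sqrt h + h * L ^ 2))) := by
    rw [Finset.sum_comm]
    have e0 : 0 ≤ Cb * S * (Cs * κ * (Δ / Q / Real.sqrt h + h * L ^ 2)) := by positivity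
    have e1 : ∀ ψ ∈ Y', (∑ m ∈ M, if ψ.1 / Nat.gcd ψ.1 m ≤ h then
        Cb * S * (wk Δ ((m : ℝ) - n) * rt m) else 0) ≤
        Cb * S * (Cs * κ * (Δ / Q / Real.sqrt h + h * L ^ 2)) := by
      intro ψ hψ
      obtain ⟨hψ1, hψ2⟩ := Finset.mem_filter.1 hψ
      rw [← Finset.sum_filter, ← Finset.mul_sum, hM, Finset.filter_filter]
      refine mul_le_mul_of_nonneg_left ?_ (by positivity)
      refine hX1' ψ.1 h Δ w4 hQ (hYr ψ hψ1).1 (hYr ψ hψ1).2 (by omega) ?_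
      by_contra hc
      exact hψ2 (hH ψ hψ1 (not_lt.1 hc))
    refine (Finset.sum_le_card_nsmul _ _ _ e1).trans ?_
    rw [nsmul_eq_mul]
    refine mul_le_mul_of_nonneg_right (le_trans ?_ hY) e0
    exact_mod_cast Finset.card_le_card (Finset.filter_subset _ _)
  -- the numbers
  obtain ⟨W, hWd⟩ : ∃ W : ℝ, W = Δ / Q := ⟨_, rfl⟩
  have hWe : Δ / δ / Q = W / δ := by rw [hWd]; ring
  rw [hWe] at t1
  rw [← hWd] at t3 t4 w1 w2 w3
  have hW0 : 0 < W := by rw [hWd]; positivity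
  have k1 : Cb * δ ^ 2 * S * ∑ m ∈ M, wk (Δ / δ) ((m : ℝ) - n) * rt m ≤
      2 * Cb * Cw * (κ * S * δ * W) := by
    have e1 := mul_le_mul_of_nonneg_left t1 (show 0 ≤ Cb * δ ^ 2 * S by positivity)
    refine e1.trans ?_
    have e2 : δ * L ≤ W := by nlinarith
    calc Cb * δ ^ 2 * S * (Cw * κ * (W / δ + L)) = Cb * Cw * (κ * S * δ) * (W + δ * L) := by
          field_simp
      _ ≤ Cb * Cw * (κ * S * δ) * (W + W) :=
          mul_le_mul_of_nonneg_left (by linarith) (by positivity)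
      _ = 2 * Cb * Cw * (κ * S * δ * W) := by ring
  have k2 : (X : ℝ) ^ (1 / 3 + ν / 2) * (3 * X) ≤ 1 * (κ * S * δ * W) := by
    refine w1.trans ?_
    have e1 : 0 ≤ δ * W * S := by positivity
    nlinarith
  have k3 : C1 / δ ^ 18 * (Cb * S * (Cs * κ * (W / Real.sqrt h + h * L ^ 2))) ≤
      2 * (κ * S * δ * W) := by
    have e1 : C1 / δ ^ 18 * Cb * Cs / Real.sqrt h ≤ δ := by
      rw [div_le_iff₀ hs0]
      calc C1 / δ ^ 18 * Cb * Cs = δ * (C1 * Cb * Cs / δ ^ 19) := by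
            field_simp
        _ ≤ δ * Real.sqrt h := mul_le_mul_of_nonneg_left hsq hδ.le
    calc C1 / δ ^ 18 * (Cb * S * (Cs * κ * (W / Real.sqrt h + h * L ^ 2)))
        = κ * S * ((C1 / δ ^ 18 * Cb * Cs / Real.sqrt h) * W +
          (C1 / δ ^ 18 * Cb * Cs * h) * L ^ 2) := by ring
      _ ≤ κ * S * (δ * W + δ * W) := by
          refine mul_le_mul_of_nonneg_left ?_ (by positivity)
          exact add_le_add (mul_le_mul_of_nonneg_right e1 hW0.le) w2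
      _ = 2 * (κ * S * δ * W) := by ring
  have k4 : C1 * δ * S * ∑ m ∈ M, wk Δ ((m : ℝ) - n) * rt m ≤
      2 * C1 * Cw * (κ * S * δ * W) := by
    have e1 := mul_le_mul_of_nonneg_left t4 (show 0 ≤ C1 * δ * S by positivity)
    refine e1.trans ?_
    calc C1 * δ * S * (Cw * κ * (W + L)) = C1 * Cw * (κ * S * δ) * (W + L) := by ring
      _ ≤ C1 * Cw * (κ * S * δ) * (W + W) :=
          mul_le_mul_of_nonneg_left (by linarith) (by positivity)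
      _ = 2 * C1 * Cw * (κ * S * δ * W) := by ring
  have hLC : LC X (Dl B X) n Q = ∑ m ∈ M, wk Δ ((m : ℝ) - n) * (g m : ℝ) := by
    rw [← hΔ]
    rfl
  have hLM : LM X (Dl B X) n Q = W * κ * S := by
    rw [← hΔ, hWd, hκ, hS, hL]
    rfl
  rw [hLC, hLM]
  have hfin : (2 * Cb * Cw + 3 + 2 * C1 * Cw) * (κ * S * δ * W) ≤ C0 * (κ * S * δ * W) :=
    mul_le_mul_of_nonneg_right hC0c (by positivity)
  calc ∑ m ∈ M, wk Δ ((m : ℝ) - n) * (g m : ℝ)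
      ≤ (2 * Cb * Cw + 3 + 2 * C1 * Cw) * (κ * S * δ * W) := by linarith
    _ ≤ C0 * (κ * S * δ * W) := hfin
    _ = C0 * δ * (W * κ * S) := by ring

end Pool.MP_dd84fd_nt.TC
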