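import Pool.Agent.Lib.MP_dd84fd_nt.TC.TrD0
import Pool.Agent.Lib.MP_dd84fd_nt.BG.Ser
import Pool.Agent.Lib.MP_dd84fd_nt.En.Tot

/-!
# TC-TrX (1 h): the special numbers

Proof.  Every `m` of the filter has `d = (r,m)`, `h' = r/d ≤ h`, `1 ≤ h' ∣ r`, `d = r/h' ∣ m`.  So the sum is
at most `Σ_{h' ∈ Icc 1 h, h' ∣ r}` of the sums over the `m ≡ n (Q)` with `r/h' ∣ m` (terms `≥ 0`).  Fix
`h'`, `d = r/h'`; if there is no such `m` the sum is `0`, otherwise let `m₀` be one of them: all `m` are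
`≡ m₀` modulo `lcm(Q,d) = Q k`, `k = d/(d,Q)`, and `AvW` (class `m₀` modulo `Qk`, centre `x = n`) gives
`≤ C rt (m₀, Qk) (D/(Qk) + log X)`.  `(m₀, Qk) ∣ (m₀,Q) (m₀,k)` (`Nat.gcd_mul_dvd_mul_gcd`), `rt` is
monotone under divisibility and `rt (ab) ≤ rt a rt b` (`BG.ratio_eq`), `(m₀,Q) = (n,Q)`: `rt (m₀,Qk) ≤
rt (n,Q) rt k`.  `(d,Q) ∣ n` (`m₀ ≡ n (Q)`, `d ∣ m₀`) and `(d,Q) ∣ r`, so `(d,Q) ≤ (r,n)`; `r = d h' ≤ k
(d,Q) h ≤ k h (r,n)` and `r ≥ (h^4 + 1) (r,n)`: `k h > h^4`, `k ≥ h³`.  `rt k/k = 1/φ(k) ≤ 2/√k ≤ 2/h^(3/2)`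
(`k ≤ 2 φ(k)²`: `Nat.totient`, over the prime powers, or `rt k ≤ 2 √k`... ), `rt k ≤ C log X` (`k ≤ r ≤ X`, `rt k ≤ 1 + log k`; in
the library: grep `1 + Real.log` `totient`).  Sum over the `≤ h` values `h'`.
-/

set_option autoImplicit false

namespace Pool.MP_dd84fd_nt.TC

open Finset Pool.MP_dd84fd_nt.En Pool.MP_dd84fd_nt.E2

private theorem sx_wk_nonneg (Δ u : ℝ) : 0 ≤ wk Δ u := by
  unfold wk
  split_ifs
  · exact zero_le_one
  · exact sq_nonneg _

private theorem sx_one_le_prod (S : Finset ℕ) (f : ℕ → ℝ) (h : ∀ p ∈ S, 1 ≤ f p) :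
    1 ≤ ∏ p ∈ S, f p :=
  Finset.prod_induction f (fun x => 1 ≤ x) (fun _ _ ha hb => one_le_mul_of_one_le_of_one_le ha hb)
    le_rfl h

private theorem sx_fac (p : ℕ) (hp : p.Prime) : 1 ≤ (p : ℝ) / ((p : ℝ) - 1) := by
  have h3 : (2 : ℝ) ≤ p := by exact_mod_cast hp.two_le
  rw [le_div_iff₀ (by linarith)]
  linarith

private theorem sx_rt_pos {n : ℕ} (hn : 1 ≤ n) : 0 < rt n := by
  unfold rt
  have h1 : (0 : ℝ) < n := by exact_mod_cast hn
  have h2 : (0 : ℝ) < Nat.totient n := by exact_mod_cast Nat.totient_pos.2 hn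
  positivity

private theorem sx_rt_mono {a b : ℕ} (h : a ∣ b) (hb : 1 ≤ b) : rt a ≤ rt b := by
  have ha : 1 ≤ a := Nat.pos_of_dvd_of_pos h hb
  unfold rt
  rw [BG.ratio_eq a ha, BG.ratio_eq b hb]
  have hsub : a.primeFactors ⊆ b.primeFactors := Nat.primeFactors_mono h (by omega)
  rw [← prod_sdiff hsub]
  have h1 := sx_one_le_prod (b.primeFactors \ a.primeFactors) (fun p => (p : ℝ) / ((p : ℝ) - 1))
    (fun p hp => sx_fac p (Nat.prime_of_mem_primeFactors (mem_sdiff.1 hp).1))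
  have h2 := sx_one_le_prod (a.primeFactors) (fun p => (p : ℝ) / ((p : ℝ) - 1))
    (fun p hp => sx_fac p (Nat.prime_of_mem_primeFactors hp))
  nlinarith

private theorem sx_rt_mul {a b : ℕ} (ha : 1 ≤ a) (hb : 1 ≤ b) : rt (a * b) ≤ rt a * rt b := by
  unfold rt
  rw [BG.ratio_eq a ha, BG.ratio_eq b hb, BG.ratio_eq (a * b) (Nat.mul_pos ha hb),
    Nat.primeFactors_mul (by omega) (by omega), ← prod_union_inter]
  have h1 := sx_one_le_prod (a.primeFactors ∩ b.primeFactors) (fun p => (p : ℝ) / ((p : ℝ) - 1))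
    (fun p hp => sx_fac p (Nat.prime_of_mem_primeFactors (mem_inter.1 hp).1))
  have h2 := sx_one_le_prod (a.primeFactors ∪ b.primeFactors) (fun p => (p : ℝ) / ((p : ℝ) - 1))
    (fun p hp => sx_fac p (by
      rcases mem_union.1 hp with h | h
      · exact Nat.prime_of_mem_primeFactors h
      · exact Nat.prime_of_mem_primeFactors h))
  nlinarith

private theorem sx_lcm {a b m n : ℕ} (h1 : a ≡ b [MOD m]) (h2 : a ≡ b [MOD n]) :
    a ≡ b [MOD Nat.lcm m n] := by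
  rw [Nat.modEq_iff_dvd] at h1 h2 ⊢
  rw [Int.natCast_dvd] at h1 h2 ⊢
  exact Nat.lcm_dvd h1 h2

private theorem sx_kap : ∃ C : ℝ, 1 ≤ C ∧ ∀ k : ℕ, 1 ≤ k →
    (k : ℝ) ≤ C * (Nat.totient k : ℝ) ^ 2 := by
  obtain ⟨C, hC, h⟩ := BG.kap_le
  refine ⟨C, hC, fun k hk => ?_⟩
  have h1 := h k hk
  have hk1 : (1 : ℝ) ≤ k := by exact_mod_cast hk
  have hφ : (0 : ℝ) < Nat.totient k := by exact_mod_cast Nat.totient_pos.2 hk
  have h2 : (k : ℝ) ^ (-(1 / 4) : ℝ) ≤ 1 := Real.rpow_le_one_of_one_le_of_nonpos hk1 (by norm_num)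
  have h3 : (1 : ℝ) ≤ Real.sqrt ((k : ℝ) * k.divisors.card) := by
    have h4 : (1 : ℝ) ≤ k.divisors.card := by
      have : 0 < k.divisors.card := card_pos.2 ⟨1, Nat.one_mem_divisors.2 (by omega)⟩
      exact_mod_cast this
    exact Real.one_le_sqrt.2 (by nlinarith)
  have h5 : (k : ℝ) / Nat.totient k * (1 / Nat.totient k) ≤ C * 1 := by
    refine le_trans ?_ (h1.trans (mul_le_mul_of_nonneg_left h2 (by linarith)))
    refine mul_le_mul_of_nonneg_left ?_ (by positivity)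
    unfold BG.kap
    gcongr
  rw [div_mul_div_comm, mul_one, mul_one, div_le_iff₀ (by positivity)] at h5
  rw [sq]
  exact h5

private theorem sx_log {X k : ℕ} (hX : 3 ≤ X) (hk : 1 ≤ k) (hkX : k ≤ X) :
    rt k ≤ 4 * Real.log X := by
  have h1 := En.totient_ge k hk
  have hk0 : (0 : ℝ) < k := by exact_mod_cast hk
  have hφ : (0 : ℝ) < Nat.totient k := by exact_mod_cast Nat.totient_pos.2 hk
  have hX3 : (3 : ℝ) ≤ X := by exact_mod_cast hX
  have hlX : 1 ≤ Real.log X := by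
    rw [Real.le_log_iff_exp_le (by linarith)]
    have := Real.exp_one_lt_d9
    linarith
  have h3 : Real.logb 2 k ≤ 2 * Real.log X := by
    unfold Real.logb
    have h4 : Real.log k ≤ Real.log X := Real.log_le_log hk0 (by exact_mod_cast hkX)
    have h5 : (1 : ℝ) / 2 ≤ Real.log 2 := by linarith [Real.log_two_gt_d9]
    have h6 : 0 ≤ Real.log k := Real.log_natCast_nonneg k
    rw [div_le_iff₀ (by linarith)]
    nlinarith
  unfold rt
  rw [div_le_iff₀ hφ]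
  nlinarith

private theorem sx_T {C C0 : ℝ} (hC : 0 < C) (hC0 : 1 ≤ C0)
    (hk : ∀ k : ℕ, 1 ≤ k → (k : ℝ) ≤ C0 * (Nat.totient k : ℝ) ^ 2)
    {X : ℕ} (hX : 3 ≤ X) (hA : ∀ q a : ℕ, 1 ≤ q → ∀ D x : ℝ, 1 ≤ D →
      ∑ m ∈ (Icc 1 (2 * X)).filter (fun m : ℕ => m ≡ a [MOD q]), wk D ((m : ℝ) - x) * rt m ≤
        C * rt (Nat.gcd a q) * (D / q + Real.log X))
    {Q n r h : ℕ} {D : ℝ} (hD : 1 ≤ D) (hQ : 1 ≤ Q) (hr : 1 ≤ r) (hrX : r ≤ X) (hh : 1 ≤ h)
    (hrn : h ^ 4 < r / Nat.gcd r n) {d h' : ℕ} (hdr : d * h' = r) (hh' : h' ≤ h) :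
    ∑ m ∈ (Icc 1 (2 * X)).filter (fun m : ℕ => m ≡ n [MOD Q] ∧ d ∣ m), wk D ((m : ℝ) - n) * rt m ≤
      C * rt (Nat.gcd n Q) * (D / Q * (Real.sqrt C0 / (h * Real.sqrt h)) + 4 * (Real.log X) ^ 2) := by
  classical
  have hX3 : (3 : ℝ) ≤ X := by exact_mod_cast hX
  have hlX : 1 ≤ Real.log X := by
    rw [Real.le_log_iff_exp_le (by linarith)]
    have := Real.exp_one_lt_d9
    linarith
  have hh0 : (1 : ℝ) ≤ h := by exact_mod_cast hh
  have hQ0 : (1 : ℝ) ≤ Q := by exact_mod_cast hQ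
  have hg : 1 ≤ Nat.gcd n Q := Nat.gcd_pos_of_pos_right _ hQ
  have hd : 1 ≤ d := by
    rcases Nat.eq_zero_or_pos d with h0 | h0
    · rw [h0, zero_mul] at hdr
      omega
    · exact h0
  by_cases hne : ((Icc 1 (2 * X)).filter (fun m : ℕ => m ≡ n [MOD Q] ∧ d ∣ m)).Nonempty
  · obtain ⟨m₀, hm₀⟩ := hne
    obtain ⟨hm0, hm1, hm2⟩ := mem_filter.1 hm₀
    have hm0p : 1 ≤ m₀ := (mem_Icc.1 hm0).1
    obtain ⟨k, hkd⟩ : Nat.gcd d Q ∣ d := Nat.gcd_dvd_left d Q
    have hk1 : 1 ≤ k := by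
      rcases Nat.eq_zero_or_pos k with h0 | h0
      · rw [h0, mul_zero] at hkd
        omega
      · exact h0
    have hL : Nat.lcm Q d = Q * k := by
      have h1 : Nat.gcd Q d * Nat.lcm Q d = Q * d := Nat.gcd_mul_lcm Q d
      have h2 : 0 < Nat.gcd Q d := Nat.gcd_pos_of_pos_left _ hQ
      have h3 : Nat.gcd Q d * Nat.lcm Q d = Nat.gcd Q d * (Q * k) := by
        rw [h1]
        conv_lhs => rw [hkd, Nat.gcd_comm d Q]
        ring
      exact Nat.eq_of_mul_eq_mul_left h2 h3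
    -- the bound by `AvW`
    have h1 : ∑ m ∈ (Icc 1 (2 * X)).filter (fun m : ℕ => m ≡ n [MOD Q] ∧ d ∣ m),
        wk D ((m : ℝ) - n) * rt m ≤
        C * rt (Nat.gcd m₀ (Q * k)) * (D / ((Q * k : ℕ) : ℝ) + Real.log X) := by
      refine le_trans ?_ (hA (Q * k) m₀ (Nat.mul_pos hQ hk1) D n hD)
      refine sum_le_sum_of_subset_of_nonneg ?_ ?_
      · intro m hm
        obtain ⟨ha, hb, hc⟩ := mem_filter.1 hm
        refine mem_filter.2 ⟨ha, ?_⟩
        rw [← hL]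
        refine sx_lcm (hb.trans hm1.symm) ?_
        exact ((Nat.modEq_zero_iff_dvd.2 hc)).trans (Nat.modEq_zero_iff_dvd.2 hm2).symm
      · intro m hm _
        refine mul_nonneg (sx_wk_nonneg _ _) (sx_rt_pos (mem_Icc.1 (mem_filter.1 hm).1).1).le
    -- `rt` of the gcd
    have h2 : rt (Nat.gcd m₀ (Q * k)) ≤ rt (Nat.gcd n Q) * rt k := by
      have e1 : Nat.gcd m₀ (Q * k) ∣ Nat.gcd m₀ Q * Nat.gcd m₀ k := Nat.gcd_mul_right_dvd_mul_gcd m₀ Q k
      have e2 : Nat.gcd m₀ Q = Nat.gcd n Q := hm1.gcd_eq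
      rw [e2] at e1
      have e3 : 1 ≤ Nat.gcd m₀ k := Nat.gcd_pos_of_pos_right _ hk1
      refine (sx_rt_mono e1 (Nat.mul_pos hg e3)).trans ((sx_rt_mul hg e3).trans ?_)
      exact mul_le_mul_of_nonneg_left (sx_rt_mono (Nat.gcd_dvd_right _ _) hk1) (sx_rt_pos hg).le
    -- the size of `k`
    have h3 : h ^ 3 ≤ k := by
      have e1 : Nat.gcd d Q ∣ Nat.gcd r n := by
        refine Nat.dvd_gcd ((Nat.gcd_dvd_left d Q).trans (Dvd.intro h' hdr)) ?_
        rw [← hm1.dvd_iff (Nat.gcd_dvd_right d Q)]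
        exact (Nat.gcd_dvd_left d Q).trans hm2
      have hG : 0 < Nat.gcd r n := Nat.gcd_pos_of_pos_left _ hr
      have e2 : Nat.gcd d Q ≤ Nat.gcd r n := Nat.le_of_dvd hG e1
      have e3 : (h ^ 4 + 1) * Nat.gcd r n ≤ r := (Nat.le_div_iff_mul_le hG).1 hrn
      have e4 : r ≤ (k * h) * Nat.gcd r n := by
        calc r = (Nat.gcd d Q * k) * h' := by rw [← hkd, hdr]
          _ ≤ (Nat.gcd r n * k) * h := by gcongr
          _ = (k * h) * Nat.gcd r n := by ring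
      have e5 : h ^ 4 + 1 ≤ k * h := Nat.le_of_mul_le_mul_right (e3.trans e4) hG
      by_contra hcon
      push Not at hcon
      have e6 : k * h ≤ h ^ 3 * h := Nat.mul_le_mul_right h hcon.le
      have e7 : h ^ 3 * h = h ^ 4 := by ring
      omega
    have hkr : (1 : ℝ) ≤ k := by exact_mod_cast hk1
    have hφ : (0 : ℝ) < Nat.totient k := by exact_mod_cast Nat.totient_pos.2 hk1
    have h4 : rt k / k ≤ Real.sqrt C0 / (h * Real.sqrt h) := by
      have e1 : rt k / k = 1 / Nat.totient k := by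
        unfold rt
        field_simp
      rw [e1, div_le_div_iff₀ hφ (by positivity), one_mul]
      refine (sq_le_sq₀ (by positivity) (by positivity)).1 ?_
      rw [mul_pow, mul_pow, Real.sq_sqrt (by linarith), Real.sq_sqrt (by linarith)]
      have e2 : ((h : ℝ)) ^ 2 * h ≤ k := by
        have : ((h ^ 3 : ℕ) : ℝ) ≤ k := by exact_mod_cast h3
        push_cast at this
        nlinarith
      exact e2.trans (hk k hk1)
    have hkX : k ≤ X := by
      have e1 : k ≤ d := by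
        rw [hkd]
        exact Nat.le_mul_of_pos_left _ (Nat.gcd_pos_of_pos_left _ hd)
      have e2 : d ≤ r := Nat.le_of_dvd hr (Dvd.intro h' hdr)
      omega
    have h5 : rt k ≤ 4 * Real.log X := sx_log hX hk1 hkX
    refine h1.trans ?_
    have hrt := sx_rt_pos hg
    have hrk := sx_rt_pos hk1
    have hD0 : 0 ≤ D / ((Q * k : ℕ) : ℝ) + Real.log X := by positivity
    calc C * rt (Nat.gcd m₀ (Q * k)) * (D / ((Q * k : ℕ) : ℝ) + Real.log X)
        ≤ C * (rt (Nat.gcd n Q) * rt k) * (D / ((Q * k : ℕ) : ℝ) + Real.log X) := by gcongr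
      _ = C * rt (Nat.gcd n Q) * (D / Q * (rt k / k) + rt k * Real.log X) := by
          push_cast
          field_simp
      _ ≤ C * rt (Nat.gcd n Q) * (D / Q * (Real.sqrt C0 / (h * Real.sqrt h)) +
            (4 * Real.log X) * Real.log X) := by
          gcongr
      _ = _ := by ring
  · rw [not_nonempty_iff_eq_empty] at hne
    rw [hne, sum_empty]
    have := sx_rt_pos hg
    positivity

theorem spcF (hA : AvW) : SpcF := by
  classical
  obtain ⟨C, hC, hA⟩ := hA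
  obtain ⟨C0, hC0, hk⟩ := sx_kap
  refine ⟨C * (Real.sqrt C0 + 4), by positivity, fun X hX Q n r h D hD hQ hr hrX hh hrn => ?_⟩
  have hX3 : (3 : ℝ) ≤ X := by exact_mod_cast hX
  have hlX : 1 ≤ Real.log X := by
    rw [Real.le_log_iff_exp_le (by linarith)]
    have := Real.exp_one_lt_d9
    linarith
  have hh0 : (1 : ℝ) ≤ h := by exact_mod_cast hh
  have hQ0 : (1 : ℝ) ≤ Q := by exact_mod_cast hQ
  have hg : 1 ≤ Nat.gcd n Q := Nat.gcd_pos_of_pos_right _ hQ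
  have hrt := sx_rt_pos hg
  have hG : ∀ m, 0 < Nat.gcd r m := fun m => Nat.gcd_pos_of_pos_left _ hr
  rw [← sum_fiberwise_of_maps_to (s := (Icc 1 (2 * X)).filter
      (fun m : ℕ => m ≡ n [MOD Q] ∧ r / Nat.gcd r m ≤ h)) (t := Icc 1 h)
      (g := fun m : ℕ => r / Nat.gcd r m)]
  · have h1 : ∀ h' ∈ Icc 1 h, ∑ m ∈ ((Icc 1 (2 * X)).filter
        (fun m : ℕ => m ≡ n [MOD Q] ∧ r / Nat.gcd r m ≤ h)).filter
          (fun m : ℕ => r / Nat.gcd r m = h'), wk D ((m : ℝ) - n) * rt m ≤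
        C * rt (Nat.gcd n Q) * (D / Q * (Real.sqrt C0 / (h * Real.sqrt h)) +
          4 * (Real.log X) ^ 2) := by
      intro h' hh'
      by_cases hdv : h' ∣ r
      · obtain ⟨d, hd⟩ := hdv
        have hdr : d * h' = r := by rw [hd, mul_comm]
        refine le_trans ?_ (sx_T hC hC0 hk hX (hA X hX) hD hQ hr hrX hh hrn hdr (mem_Icc.1 hh').2)
        refine sum_le_sum_of_subset_of_nonneg ?_ ?_
        · intro m hm
          obtain ⟨ha, hb⟩ := mem_filter.1 hm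
          obtain ⟨hc, hd1, _⟩ := mem_filter.1 ha
          refine mem_filter.2 ⟨hc, hd1, ?_⟩
          have e1 : r = Nat.gcd r m * h' := by
            rw [← hb, Nat.mul_div_cancel' (Nat.gcd_dvd_left r m)]
          have e2 : d = Nat.gcd r m := by
            have e3 : d * h' = Nat.gcd r m * h' := by rw [hdr]; exact e1
            exact Nat.eq_of_mul_eq_mul_right (mem_Icc.1 hh').1 e3
          rw [e2]
          exact Nat.gcd_dvd_right r m
        · intro m hm _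
          exact mul_nonneg (sx_wk_nonneg _ _) (sx_rt_pos (mem_Icc.1 (mem_filter.1 hm).1).1).le
      · have hemp : ((Icc 1 (2 * X)).filter
            (fun m : ℕ => m ≡ n [MOD Q] ∧ r / Nat.gcd r m ≤ h)).filter
              (fun m : ℕ => r / Nat.gcd r m = h') = ∅ := by
          refine filter_eq_empty_iff.2 fun m _ hm => hdv ?_
          rw [← hm]
          exact Nat.div_dvd_of_dvd (Nat.gcd_dvd_left r m)
        rw [hemp, sum_empty]
        positivity
    refine (sum_le_sum h1).trans ?_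
    rw [sum_const, Nat.card_Icc, nsmul_eq_mul, Nat.add_sub_cancel]
    have hs : (0 : ℝ) < Real.sqrt h := Real.sqrt_pos.2 (by linarith)
    have hs0 : 0 ≤ Real.sqrt C0 := Real.sqrt_nonneg _
    have e1 : (h : ℝ) * (C * rt (Nat.gcd n Q) * (D / Q * (Real.sqrt C0 / (h * Real.sqrt h)) +
          4 * (Real.log X) ^ 2)) = C * rt (Nat.gcd n Q) * (Real.sqrt C0 * (D / Q / Real.sqrt h) +
          4 * (h * (Real.log X) ^ 2)) := by
      field_simp
    rw [e1]
    have e2 : 0 ≤ D / Q / Real.sqrt h := by positivity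
    have e3 : 0 ≤ (h : ℝ) * (Real.log X) ^ 2 := by positivity
    have e4 : C * (Real.sqrt C0 + 4) * rt (Nat.gcd n Q) * (D / Q / Real.sqrt h + h * (Real.log X) ^ 2)
        = C * rt (Nat.gcd n Q) * ((Real.sqrt C0 + 4) * (D / Q / Real.sqrt h) +
          (Real.sqrt C0 + 4) * (h * (Real.log X) ^ 2)) := by ring
    rw [e4]
    refine mul_le_mul_of_nonneg_left ?_ (by positivity)
    nlinarith
  · intro m hm
    obtain ⟨_, _, hc⟩ := mem_filter.1 hm
    refine mem_Icc.2 ⟨?_, hc⟩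
    exact Nat.div_pos (Nat.le_of_dvd hr (Nat.gcd_dvd_left r m)) (hG m)

end Pool.MP_dd84fd_nt.TC
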