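import Pool.Agent.Lib.MP_dd84fd_nt.TC.UCor
import Pool.Agent.Lib.MP_dd84fd_nt.TC.Gap

/-!
# Theorem U with its consequences for short windows, in one statement (helper3)

Windows of length `(log X)^K`; sums of three primes, one of them `5` or `11` (helper18's remark: the
product of `N - 5` and `N - 11` is a square modulo 3); pairs of failures at distance at most `h`.
-/

set_option autoImplicit false

namespace Pool.MP_dd84fd_nt.TC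

open Finset Pool.MP_67663b_nt.Odd Pool.MP_dd84fd_nt.En Pool.MP_dd84fd_nt.E2 Pool.MP_dd84fd_nt.LS
open Pool.MP_dd84fd_nt.GX Pool.MP_dd84fd_nt.HX Pool.MP_dd84fd_nt.IX

private theorem ua_SJ (n : ℕ) : 0 ≤ SS n * JJ n := by
  have s1 : 2 * Pool.MP_dd84fd_nt.En.C2 ≤ SS n := SS_ge n
  have s2 : 0 < Pool.MP_dd84fd_nt.En.C2 := C2_pos
  have s3 : 0 ≤ JJ n := by
    unfold JJ
    refine Finset.sum_nonneg fun m _ => ?_
    exact div_nonneg zero_le_one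
      (mul_nonneg (Real.log_natCast_nonneg _) (Real.log_natCast_nonneg _))
  exact mul_nonneg (by linarith) s3

theorem ua_mono {δ δ' : ℝ} (h : δ ≤ δ') {m : ℕ} (hb : Bd δ m) : Bd δ' m :=
  ⟨hb.1, hb.2.trans (mul_le_mul_of_nonneg_right h (ua_SJ m))⟩

open Classical in
/-- everything with the same `δ`, `c`, `X0` -/
theorem u_all (hU : FinH) (ε : ℝ) (hε : 0 < ε) : ∃ δ c : ℝ, 0 < δ ∧ 0 < c ∧ ∀ K : ℕ, ∃ X0 : ℕ,
    ∀ X : ℕ, X0 ≤ X →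
    (∃ E : Finset ℕ, (E.card : ℝ) ≤ (X : ℝ) ^ (1 / 3 + ε) ∧ ∀ n : ℕ, 1 ≤ n → n ≤ X → n ∉ E →
      ((Icc n (n + ⌊(Real.log X) ^ K⌋₊)).filter (fun m => Bd δ m)).card ≤ 2 ∧
      (Even n → (∃ m : ℕ, (m = n ∨ m = n + 2 ∨ m = n + 4) ∧ δ * (SS m * JJ m) < g m) ∧
        ∃ m : ℕ, (m = n ∨ m = n + 6) ∧ δ * (SS m * JJ m) < g m)) ∧
    (((Icc 1 X).filter (fun N : ℕ => Odd N ∧ ¬ ∃ p₁ p₂ p₃ : ℕ, p₁.Prime ∧ p₂.Prime ∧
      (p₃ = 5 ∨ p₃ = 11) ∧ p₁ + p₂ + p₃ = N)).card : ℝ) ≤ (X : ℝ) ^ (1 / 3 + ε) ∧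
    ∃ d : ℕ, (Real.log X) ^ K < d ∧ ∀ h : ℕ, 1 ≤ h → ∃ G : Finset ℕ,
      (G.card : ℝ) ≤ min (h : ℝ) ((X : ℝ) ^ (1 / 3 : ℝ)) * (X : ℝ) ^ (1 / 3 + ε) ∧
      ∀ m m' : ℕ, m < m' → m' ≤ X → m' ≤ m + h → 4 * m' ≤ 5 * m → m ∉ G → m' ∉ G →
        Bd δ m → Bd δ m' → m * m' % 3 ≠ 2 → (Nat.gcd m m' : ℝ) ≤ (X : ℝ) ^ c →
          d ∣ Nat.gcd m m' := by
  obtain ⟨δ1, c, hδ1, hc, h1⟩ := hU ε hε
  obtain ⟨δ2, hδ2, h2⟩ := gap (finT_of_finH hU) (ε / 2) (by positivity)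
  obtain ⟨δ, hδ, hd1, hd2⟩ : ∃ δ : ℝ, 0 < δ ∧ δ ≤ δ1 ∧ δ ≤ δ2 :=
    ⟨min δ1 δ2, lt_min hδ1 hδ2, min_le_left _ _, min_le_right _ _⟩
  refine ⟨δ, c, hδ, hc, fun K => ?_⟩
  obtain ⟨X1, h1⟩ := h1 K
  obtain ⟨X2, h2⟩ := h2 (K + 1)
  obtain ⟨X3, h3⟩ := g6_log_ge 6
  obtain ⟨X4, h4⟩ := g6_pow_log_le 0 2 (ε / 2) (by positivity)
  obtain ⟨X5, h5⟩ := g6_pow_log_le 0 12 (1 / 3) (by norm_num)
  refine ⟨max (max (max X1 X2) X3) (max X4 X5), fun X hX => ?_⟩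
  simp only [max_le_iff] at hX
  obtain ⟨⟨⟨x1, x2⟩, x3⟩, x4, x5⟩ := hX
  have h1 := h1 X x1
  obtain ⟨E, hE, h2⟩ := h2 X x2
  have hL := h3 X x3
  have h4 := h4 X x4
  have h5 := h5 X x5
  rw [pow_zero, mul_one] at h4 h5
  have hX1 : (1 : ℝ) ≤ X := by
    by_contra hcon
    push Not at hcon
    have : Real.log X ≤ 0 := Real.log_nonpos (Nat.cast_nonneg X) hcon.le
    linarith
  have hX0 : (0 : ℝ) < X := by linarith
  have hmul : (X : ℝ) ^ (1 / 3 + ε) = (X : ℝ) ^ (1 / 3 + ε / 2) * (X : ℝ) ^ (ε / 2) := by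
    rw [← Real.rpow_add hX0]
    congr 1
    ring
  have hge : (X : ℝ) ^ (1 / 3 : ℝ) ≤ (X : ℝ) ^ (1 / 3 + ε / 2) :=
    Real.rpow_le_rpow_of_exponent_le hX1 (by linarith)
  have hpos : (0 : ℝ) ≤ (X : ℝ) ^ (1 / 3 + ε / 2) := by positivity
  have hbig : (X : ℝ) ^ (1 / 3 + ε / 2) + 12 ≤ (X : ℝ) ^ (1 / 3 + ε) := by
    rw [hmul]
    nlinarith
  have hK : (Real.log X) ^ K ≤ (Real.log X) ^ (K + 1) :=
    pow_le_pow_right₀ (by linarith) (Nat.le_succ K)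
  have hK1 : 6 ≤ (Real.log X) ^ (K + 1) := by
    have h3 : (1 : ℝ) ≤ (Real.log X) ^ K := one_le_pow₀ (by linarith)
    rw [pow_succ]
    nlinarith
  have six : ∀ n : ℕ, 1 ≤ n → n ≤ X → n ∉ E → Even n →
      ∃ m : ℕ, (m = n ∨ m = n + 6) ∧ δ * (SS m * JJ m) < g m := by
    intro n hn1 hnX hnE hev
    by_contra hcon
    push Not at hcon
    have f0 : Bd δ n := ⟨hev, hcon n (Or.inl rfl)⟩
    have f6 : Bd δ (n + 6) := ⟨by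
      obtain ⟨k, hk⟩ := hev
      exact ⟨k + 3, by omega⟩, hcon (n + 6) (Or.inr rfl)⟩
    have t := (h2 n hn1 hnX hnE).1 n (n + 6) le_rfl (by omega) (by push_cast; linarith)
      (ua_mono hd2 f0) (ua_mono hd2 f6)
    rcases gap_mod t with t1 | t1 <;> omega
  refine ⟨⟨E, by linarith, fun n hn1 hnX hnE => ⟨?_, fun hev => ⟨?_, six n hn1 hnX hnE hev⟩⟩⟩,
    ?_, ?_⟩
  · refine le_trans (Finset.card_le_card ?_) (h2 n hn1 hnX hnE).2.1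
    intro m hm
    rw [mem_filter, mem_Icc] at hm ⊢
    exact ⟨⟨hm.1.1, hm.1.2.trans (Nat.add_le_add_left (Nat.floor_le_floor hK) n)⟩,
      ua_mono hd2 hm.2⟩
  · obtain ⟨m, hm, hg⟩ := (h2 n hn1 hnX hnE).2.2 hev
    exact ⟨m, hm, lt_of_le_of_lt (mul_le_mul_of_nonneg_right hd2 (ua_SJ m)) hg⟩
  · have hsub : (Icc 1 X).filter (fun N : ℕ => Odd N ∧ ¬ ∃ p₁ p₂ p₃ : ℕ, p₁.Prime ∧ p₂.Prime ∧
          (p₃ = 5 ∨ p₃ = 11) ∧ p₁ + p₂ + p₃ = N) ⊆ E.image (fun e => e + 11) ∪ Icc 1 12 := by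
      intro N hN
      rw [mem_filter, mem_Icc] at hN
      obtain ⟨⟨hN1, hN2⟩, hodd, hno⟩ := hN
      by_cases h8 : N ≤ 12
      · exact mem_union_right _ (mem_Icc.2 ⟨hN1, h8⟩)
      · apply mem_union_left
        rw [mem_image]
        refine ⟨N - 11, ?_, by omega⟩
        by_contra hNE
        apply hno
        have hev : Even (N - 11) := by
          obtain ⟨k, hk⟩ := hodd
          exact ⟨k - 5, by omega⟩
        obtain ⟨m, hm, hg⟩ := six (N - 11) (by omega) (by omega) hNE hev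
        obtain ⟨p, q, hp, hq, hpq⟩ := g_pos hδ hg
        refine ⟨p, q, N - m, hp, hq, ?_, ?_⟩
        · omega
        · omega
    have hcard : (((Icc 1 X).filter (fun N : ℕ => Odd N ∧ ¬ ∃ p₁ p₂ p₃ : ℕ, p₁.Prime ∧ p₂.Prime ∧
          (p₃ = 5 ∨ p₃ = 11) ∧ p₁ + p₂ + p₃ = N)).card : ℝ) ≤ (E.card : ℝ) + 12 := by
      have h5 := (card_le_card hsub).trans ((card_union_le _ _).trans
        (Nat.add_le_add_right card_image_le _))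
      rw [Nat.card_Icc] at h5
      exact_mod_cast h5
    linarith
  · obtain ⟨d, hd, h1⟩ := h1
    refine ⟨d, hd, fun h hh => ?_⟩
    obtain ⟨G, hG, h1⟩ := h1 h hh
    exact ⟨G, hG, fun m m' a1 a2 a3 a4 a5 a6 a7 a8 => h1 m m' a1 a2 a3 a4 a5 a6 (ua_mono hd1 a7)
      (ua_mono hd1 a8)⟩

end Pool.MP_dd84fd_nt.TC
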