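import Pool.Agent.Lib.MP_dd84fd_nt.TC.HDefs

/-!
# Consequences of theorem U (`FinH`) (helper3)

`win_pair`: two failures in a window of length `X^c`; `win_three`: at most two failures in
`[n, n + X^c]` which are not divisible by `d`; `log_three`: at most two failures in
`[n, n + (log X)^K]`; `triple`: one of `n, n+2, n+4` is not a failure; `three_primes`: odd numbers
as sums of three primes, one of them `3`, `5` or `7`; `far_three`: failures at any distance.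
-/

set_option autoImplicit false

namespace Pool.MP_dd84fd_nt.TC

open Finset Pool.MP_67663b_nt.Odd Pool.MP_dd84fd_nt.En Pool.MP_dd84fd_nt.E2 Pool.MP_dd84fd_nt.LS
open Pool.MP_dd84fd_nt.GX Pool.MP_dd84fd_nt.HX Pool.MP_dd84fd_nt.IX

/-- two of three numbers have a product that is not `2` modulo `3` -/
theorem uc_mod3 (a b c : ℕ) : a * b % 3 ≠ 2 ∨ a * c % 3 ≠ 2 ∨ b * c % 3 ≠ 2 := by
  have ha : a % 3 < 3 := Nat.mod_lt _ (by norm_num)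
  have hb : b % 3 < 3 := Nat.mod_lt _ (by norm_num)
  have hc : c % 3 < 3 := Nat.mod_lt _ (by norm_num)
  rw [Nat.mul_mod a b, Nat.mul_mod a c, Nat.mul_mod b c]
  generalize a % 3 = x at *
  generalize b % 3 = y at *
  generalize c % 3 = z at *
  interval_cases x <;> interval_cases y <;> interval_cases z <;> simp

open Classical in
/-- two failures in a window of length `X^c` -/
theorem win_pair (hU : FinH) : ∀ ε : ℝ, 0 < ε → ∃ δ c : ℝ, 0 < δ ∧ 0 < c ∧ ∀ K : ℕ, ∃ X0 : ℕ,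
    ∀ X : ℕ, X0 ≤ X → ∃ d : ℕ, (Real.log X) ^ K < d ∧
      (((Icc 1 X).filter (fun n : ℕ => ∃ m m' : ℕ, n ≤ m ∧ m < m' ∧
        (m' : ℝ) ≤ n + (X : ℝ) ^ c ∧ Bd δ m ∧ Bd δ m' ∧ m * m' % 3 ≠ 2 ∧
        ¬ d ∣ Nat.gcd m m')).card : ℝ) ≤ (X : ℝ) ^ (1 / 3 + ε) := by
  intro ε hε
  obtain ⟨δ, c1, hδ, hc1, h⟩ := hU (ε / 4) (by positivity)
  obtain ⟨c, hc0, hcc, hcε, hc4⟩ : ∃ c : ℝ, 0 < c ∧ c ≤ c1 ∧ c ≤ ε / 8 ∧ c ≤ 1 / 4 :=
    ⟨min c1 (min (ε / 8) (1 / 4)), lt_min hc1 (lt_min (by positivity) (by norm_num)),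
      min_le_left _ _, le_trans (min_le_right _ _) (min_le_left _ _),
      le_trans (min_le_right _ _) (min_le_right _ _)⟩
  refine ⟨δ, c, hδ, hc0, fun K => ?_⟩
  obtain ⟨X1, h⟩ := h K
  obtain ⟨X2, h2⟩ : ∃ X2 : ℕ, ∀ X : ℕ, X2 ≤ X → (9 : ℝ) ≤ (X : ℝ) ^ (ε / 2) := by
    have h3 := (tendsto_rpow_atTop (show 0 < ε / 2 by positivity)).comp
      tendsto_natCast_atTop_atTop
    exact (Filter.eventually_atTop.1 (h3.eventually_ge_atTop (9 : ℝ)))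
  refine ⟨max 1 (max X1 X2), fun X hX => ?_⟩
  have hX1 : 1 ≤ X := le_trans (le_max_left _ _) hX
  have hX1' : X1 ≤ X := le_trans (le_trans (le_max_left _ _) (le_max_right _ _)) hX
  have hX2' : X2 ≤ X := le_trans (le_trans (le_max_right _ _) (le_max_right _ _)) hX
  have hXr : (1 : ℝ) ≤ X := by exact_mod_cast hX1
  have hX0 : (0 : ℝ) < X := by linarith
  have hXc1 : (1 : ℝ) ≤ (X : ℝ) ^ c := Real.one_le_rpow hXr hc0.le
  obtain ⟨d, hd, h⟩ := h X hX1'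
  refine ⟨d, hd, ?_⟩
  obtain ⟨H, hH⟩ : ∃ H : ℕ, H = ⌊(X : ℝ) ^ c⌋₊ := ⟨_, rfl⟩
  have hH1 : 1 ≤ H := by
    rw [hH]
    exact Nat.le_floor (by simpa using hXc1)
  have hHle : (H : ℝ) ≤ (X : ℝ) ^ c := by
    rw [hH]
    exact Nat.floor_le (by positivity)
  obtain ⟨G, hG, h⟩ := h H hH1
  have hsub : (Icc 1 X).filter (fun n : ℕ => ∃ m m' : ℕ, n ≤ m ∧ m < m' ∧
        (m' : ℝ) ≤ n + (X : ℝ) ^ c ∧ Bd δ m ∧ Bd δ m' ∧ m * m' % 3 ≠ 2 ∧
        ¬ d ∣ Nat.gcd m m') ⊆ (range (4 * H + 1)) ∪ (Icc (X - H) X) ∪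
          G.biUnion (fun g => Icc (g - H) g) := by
    intro n hn
    rw [mem_filter, mem_Icc] at hn
    obtain ⟨⟨hn1, hnX⟩, m, m', hnm, hmm, hm', hb, hb', h3, hdd⟩ := hn
    have hm'' : m' ≤ n + H := by
      have e1 : ((m' - n : ℕ) : ℝ) ≤ (X : ℝ) ^ c := by
        rw [Nat.cast_sub (by omega)]
        linarith
      have e2 : m' - n ≤ H := by
        rw [hH]
        exact Nat.le_floor e1
      omega
    rw [mem_union, mem_union]
    by_cases c1 : n ≤ 4 * H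
    · exact Or.inl (Or.inl (mem_range.2 (by omega)))
    by_cases c2 : X < m'
    · exact Or.inl (Or.inr (mem_Icc.2 ⟨by omega, hnX⟩))
    right
    rw [mem_biUnion]
    by_cases g1 : m ∈ G
    · exact ⟨m, g1, mem_Icc.2 ⟨by omega, hnm⟩⟩
    by_cases g2 : m' ∈ G
    · exact ⟨m', g2, mem_Icc.2 ⟨by omega, by omega⟩⟩
    exfalso
    refine hdd (h m m' hmm (by omega) (by omega) (by omega) g1 g2 hb hb' h3 ?_)
    have e3 : Nat.gcd m m' ∣ m' - m :=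
      Nat.dvd_sub (Nat.gcd_dvd_right m m') (Nat.gcd_dvd_left m m')
    have e4 : Nat.gcd m m' ≤ H := (Nat.le_of_dvd (by omega) e3).trans (by omega)
    have e5 : (Nat.gcd m m' : ℝ) ≤ H := by exact_mod_cast e4
    exact e5.trans (hHle.trans (Real.rpow_le_rpow_of_exponent_le hXr hcc))
  have hcard : (((Icc 1 X).filter (fun n : ℕ => ∃ m m' : ℕ, n ≤ m ∧ m < m' ∧
        (m' : ℝ) ≤ n + (X : ℝ) ^ c ∧ Bd δ m ∧ Bd δ m' ∧ m * m' % 3 ≠ 2 ∧
        ¬ d ∣ Nat.gcd m m')).card : ℝ) ≤ (4 * H + 1) + (H + 1) + G.card * (H + 1) := by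
    have e1 := Finset.card_le_card hsub
    have e2 : (range (4 * H + 1) ∪ (Icc (X - H) X) ∪
          G.biUnion (fun g => Icc (g - H) g)).card ≤ (4 * H + 1) + (H + 1) + G.card * (H + 1) := by
      refine (Finset.card_union_le _ _).trans (add_le_add ?_ ?_)
      · refine (Finset.card_union_le _ _).trans (add_le_add ?_ ?_)
        · rw [card_range]
        · rw [Nat.card_Icc]
          omega
      · refine (Finset.card_biUnion_le_card_mul _ _ (H + 1) fun g _ => ?_)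
        rw [Nat.card_Icc]
        omega
    exact_mod_cast e1.trans e2
  refine hcard.trans ?_
  have hGc : (G.card : ℝ) ≤ (X : ℝ) ^ c * (X : ℝ) ^ (1 / 3 + ε / 4) := by
    refine hG.trans (mul_le_mul_of_nonneg_right ((min_le_left _ _).trans hHle) (by positivity))
  have f1 : (X : ℝ) ^ c * (X : ℝ) ^ (1 / 3 + ε / 4) * (2 * (X : ℝ) ^ c) ≤
      2 * (X : ℝ) ^ (1 / 3 + ε / 2) := by
    have e1 : (X : ℝ) ^ c * (X : ℝ) ^ (1 / 3 + ε / 4) * (2 * (X : ℝ) ^ c) =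
        2 * (X : ℝ) ^ (c + (1 / 3 + ε / 4) + c) := by
      rw [Real.rpow_add hX0 (c + (1 / 3 + ε / 4)) c, Real.rpow_add hX0 c (1 / 3 + ε / 4)]
      ring
    rw [e1]
    refine mul_le_mul_of_nonneg_left (Real.rpow_le_rpow_of_exponent_le hXr ?_) (by norm_num)
    linarith
  have f2 : (X : ℝ) ^ c ≤ (X : ℝ) ^ (1 / 3 + ε / 2) :=
    Real.rpow_le_rpow_of_exponent_le hXr (by linarith)
  have f3 : 9 * (X : ℝ) ^ (1 / 3 + ε / 2) ≤ (X : ℝ) ^ (1 / 3 + ε) := by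
    have e1 : (X : ℝ) ^ (1 / 3 + ε) = (X : ℝ) ^ (ε / 2) * (X : ℝ) ^ (1 / 3 + ε / 2) := by
      rw [← Real.rpow_add hX0]
      congr 1
      ring
    rw [e1]
    exact mul_le_mul_of_nonneg_right (h2 X hX2') (by positivity)
  have f4 : (G.card : ℝ) * (H + 1) ≤
      (X : ℝ) ^ c * (X : ℝ) ^ (1 / 3 + ε / 4) * (2 * (X : ℝ) ^ c) := by
    refine mul_le_mul hGc (by linarith) (by positivity) (by positivity)
  linarith

open Classical in
/-- at most two failures in `[n, n + X^c]` which are not divisible by `d` -/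
theorem win_three (hU : FinH) : ∀ ε : ℝ, 0 < ε → ∃ δ c : ℝ, 0 < δ ∧ 0 < c ∧ ∀ K : ℕ, ∃ X0 : ℕ,
    ∀ X : ℕ, X0 ≤ X → ∃ d : ℕ, (Real.log X) ^ K < d ∧
      (((Icc 1 X).filter (fun n : ℕ =>
        2 < ((Icc n (n + ⌊(X : ℝ) ^ c⌋₊)).filter (fun m => Bd δ m ∧ ¬ d ∣ m)).card)).card : ℝ) ≤
        (X : ℝ) ^ (1 / 3 + ε) := by
  intro ε hε
  obtain ⟨δ, c, hδ, hc, h⟩ := win_pair hU ε hε
  refine ⟨δ, c, hδ, hc, fun K => ?_⟩
  obtain ⟨X0, h⟩ := h K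
  refine ⟨X0, fun X hX => ?_⟩
  obtain ⟨d, hd, h⟩ := h X hX
  refine ⟨d, hd, le_trans ?_ h⟩
  have key : ∀ n a b : ℕ, a ∈ (Icc n (n + ⌊(X : ℝ) ^ c⌋₊)).filter (fun m => Bd δ m ∧ ¬ d ∣ m) →
      b ∈ (Icc n (n + ⌊(X : ℝ) ^ c⌋₊)).filter (fun m => Bd δ m ∧ ¬ d ∣ m) → a ≠ b →
      a * b % 3 ≠ 2 → ∃ m m' : ℕ, n ≤ m ∧ m < m' ∧
        (m' : ℝ) ≤ n + (X : ℝ) ^ c ∧ Bd δ m ∧ Bd δ m' ∧ m * m' % 3 ≠ 2 ∧
        ¬ d ∣ Nat.gcd m m' := by
    intro n a b ha hb hab h3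
    rw [mem_filter, mem_Icc] at ha hb
    have hfl : ∀ m : ℕ, m ≤ n + ⌊(X : ℝ) ^ c⌋₊ → (m : ℝ) ≤ n + (X : ℝ) ^ c := by
      intro m hm
      have e1 : (m : ℝ) ≤ n + (⌊(X : ℝ) ^ c⌋₊ : ℝ) := by exact_mod_cast hm
      have e2 := Nat.floor_le (a := (X : ℝ) ^ c) (by positivity)
      linarith
    rcases lt_or_gt_of_ne hab with h1 | h1
    · exact ⟨a, b, ha.1.1, h1, hfl b hb.1.2, ha.2.1, hb.2.1, h3,
        fun h4 => ha.2.2 (h4.trans (Nat.gcd_dvd_left a b))⟩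
    · exact ⟨b, a, hb.1.1, h1, hfl a ha.1.2, hb.2.1, ha.2.1, by rwa [mul_comm],
        fun h4 => hb.2.2 (h4.trans (Nat.gcd_dvd_left b a))⟩
  have hsub : (Icc 1 X).filter (fun n : ℕ =>
        2 < ((Icc n (n + ⌊(X : ℝ) ^ c⌋₊)).filter (fun m => Bd δ m ∧ ¬ d ∣ m)).card) ⊆
      (Icc 1 X).filter (fun n : ℕ => ∃ m m' : ℕ, n ≤ m ∧ m < m' ∧
        (m' : ℝ) ≤ n + (X : ℝ) ^ c ∧ Bd δ m ∧ Bd δ m' ∧ m * m' % 3 ≠ 2 ∧
        ¬ d ∣ Nat.gcd m m') := by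
    intro n hn
    rw [mem_filter] at hn ⊢
    refine ⟨hn.1, ?_⟩
    obtain ⟨a, ha, b, hb, e, he, h1, h2, h3⟩ := Finset.two_lt_card.1 hn.2
    rcases uc_mod3 a b e with h4 | h4 | h4
    · exact key n a b ha hb h1 h4
    · exact key n a e ha he h2 h4
    · exact key n b e hb he h3 h4
  exact_mod_cast Finset.card_le_card hsub

open Classical in
/-- at most two failures in `[n, n + (log X)^K]` -/
theorem log_three (hU : FinH) : ∀ ε : ℝ, 0 < ε → ∃ δ : ℝ, 0 < δ ∧ ∀ K : ℕ, ∃ X0 : ℕ,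
    ∀ X : ℕ, X0 ≤ X →
      (((Icc 1 X).filter (fun n : ℕ =>
        2 < ((Icc n (n + ⌊(Real.log X) ^ K⌋₊)).filter (fun m => Bd δ m)).card)).card : ℝ) ≤
        (X : ℝ) ^ (1 / 3 + ε) := by
  intro ε hε
  obtain ⟨δ, c, hδ, hc, h⟩ := win_pair hU ε hε
  refine ⟨δ, hδ, fun K => ?_⟩
  obtain ⟨X0, h⟩ := h K
  obtain ⟨X2, h2⟩ : ∃ X2 : ℕ, ∀ X : ℕ, X2 ≤ X → (Real.log X) ^ K ≤ (X : ℝ) ^ c := by
    have h3 := (isLittleO_log_rpow_rpow_atTop (r := (K : ℝ)) (s := c) hc).bound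
      (show (0 : ℝ) < 1 by norm_num)
    have h4 := (tendsto_natCast_atTop_atTop (R := ℝ)).eventually h3
    obtain ⟨X2, h5⟩ := Filter.eventually_atTop.1 h4
    refine ⟨max 1 X2, fun X hX => ?_⟩
    have h6 := h5 X (le_trans (le_max_right _ _) hX)
    have h7 : (1 : ℝ) ≤ X := by exact_mod_cast le_trans (le_max_left _ _) hX
    rw [Real.rpow_natCast, one_mul, Real.norm_eq_abs, Real.norm_eq_abs,
      abs_of_nonneg (by positivity : (0 : ℝ) ≤ (X : ℝ) ^ c)] at h6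
    exact (le_abs_self _).trans h6
  refine ⟨max X0 (max X2 1), fun X hX => ?_⟩
  obtain ⟨d, hd, h⟩ := h X (le_trans (le_max_left _ _) hX)
  have h2 := h2 X (le_trans (le_trans (le_max_left _ _) (le_max_right _ _)) hX)
  have hX1 : 1 ≤ X := le_trans (le_trans (le_max_right _ _) (le_max_right _ _)) hX
  have hlog : 0 ≤ Real.log X := Real.log_nonneg (by exact_mod_cast hX1)
  refine le_trans ?_ h
  have key : ∀ n a b : ℕ, a ∈ (Icc n (n + ⌊(Real.log X) ^ K⌋₊)).filter (fun m => Bd δ m) →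
      b ∈ (Icc n (n + ⌊(Real.log X) ^ K⌋₊)).filter (fun m => Bd δ m) → a < b →
      a * b % 3 ≠ 2 → ∃ m m' : ℕ, n ≤ m ∧ m < m' ∧
        (m' : ℝ) ≤ n + (X : ℝ) ^ c ∧ Bd δ m ∧ Bd δ m' ∧ m * m' % 3 ≠ 2 ∧
        ¬ d ∣ Nat.gcd m m' := by
    intro n a b ha hb hab h3
    rw [mem_filter, mem_Icc] at ha hb
    have e2 := Nat.floor_le (a := (Real.log X) ^ K) (by positivity)
    have e1 : (b : ℝ) ≤ n + (⌊(Real.log X) ^ K⌋₊ : ℝ) := by exact_mod_cast hb.1.2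
    refine ⟨a, b, ha.1.1, hab, by linarith, ha.2, hb.2, h3, fun h4 => ?_⟩
    have h5 : d ∣ b - a := Nat.dvd_sub (h4.trans (Nat.gcd_dvd_right a b))
      (h4.trans (Nat.gcd_dvd_left a b))
    have h6 : d ≤ b - a := Nat.le_of_dvd (by omega) h5
    have h7 : d ≤ ⌊(Real.log X) ^ K⌋₊ := by omega
    have h8 : (d : ℝ) ≤ (⌊(Real.log X) ^ K⌋₊ : ℝ) := by exact_mod_cast h7
    linarith
  have key2 : ∀ n a b : ℕ, a ∈ (Icc n (n + ⌊(Real.log X) ^ K⌋₊)).filter (fun m => Bd δ m) →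
      b ∈ (Icc n (n + ⌊(Real.log X) ^ K⌋₊)).filter (fun m => Bd δ m) → a ≠ b →
      a * b % 3 ≠ 2 → ∃ m m' : ℕ, n ≤ m ∧ m < m' ∧
        (m' : ℝ) ≤ n + (X : ℝ) ^ c ∧ Bd δ m ∧ Bd δ m' ∧ m * m' % 3 ≠ 2 ∧
        ¬ d ∣ Nat.gcd m m' := by
    intro n a b ha hb hab h3
    rcases lt_or_gt_of_ne hab with h1 | h1
    · exact key n a b ha hb h1 h3
    · exact key n b a hb ha h1 (by rwa [mul_comm])
  have hsub : (Icc 1 X).filter (fun n : ℕ =>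
        2 < ((Icc n (n + ⌊(Real.log X) ^ K⌋₊)).filter (fun m => Bd δ m)).card) ⊆
      (Icc 1 X).filter (fun n : ℕ => ∃ m m' : ℕ, n ≤ m ∧ m < m' ∧
        (m' : ℝ) ≤ n + (X : ℝ) ^ c ∧ Bd δ m ∧ Bd δ m' ∧ m * m' % 3 ≠ 2 ∧
        ¬ d ∣ Nat.gcd m m') := by
    intro n hn
    rw [mem_filter] at hn ⊢
    refine ⟨hn.1, ?_⟩
    obtain ⟨a, ha, b, hb, e, he, h1, h2, h3⟩ := Finset.two_lt_card.1 hn.2
    rcases uc_mod3 a b e with h4 | h4 | h4
    · exact key2 n a b ha hb h1 h4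
    · exact key2 n a e ha he h2 h4
    · exact key2 n b e hb he h3 h4
  exact_mod_cast Finset.card_le_card hsub

open Classical in
/-- theorem U contains theorem TC -/
theorem finT_of_finH (hU : FinH) : FinT := by
  intro ε hε
  obtain ⟨δ, c, hδ, hc, h⟩ := win_pair hU ε hε
  refine ⟨δ, hδ, fun K => ?_⟩
  obtain ⟨X0, h⟩ := h K
  obtain ⟨X2, h2⟩ : ∃ X2 : ℕ, ∀ X : ℕ, X2 ≤ X → (Real.log X) ^ K ≤ (X : ℝ) ^ c := by
    have h3 := (isLittleO_log_rpow_rpow_atTop (r := (K : ℝ)) (s := c) hc).bound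
      (show (0 : ℝ) < 1 by norm_num)
    have h4 := (tendsto_natCast_atTop_atTop (R := ℝ)).eventually h3
    obtain ⟨X2, h5⟩ := Filter.eventually_atTop.1 h4
    refine ⟨max 1 X2, fun X hX => ?_⟩
    have h6 := h5 X (le_trans (le_max_right _ _) hX)
    have h7 : (1 : ℝ) ≤ X := by exact_mod_cast le_trans (le_max_left _ _) hX
    rw [Real.rpow_natCast, one_mul, Real.norm_eq_abs, Real.norm_eq_abs,
      abs_of_nonneg (by positivity : (0 : ℝ) ≤ (X : ℝ) ^ c)] at h6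
    exact (le_abs_self _).trans h6
  refine ⟨max X0 X2, fun X hX => ?_⟩
  obtain ⟨d, hd, h⟩ := h X (le_trans (le_max_left _ _) hX)
  have h2 := h2 X (le_trans (le_max_right _ _) hX)
  refine le_trans ?_ h
  have hsub : (Icc 1 X).filter (fun n : ℕ => ∃ m m' : ℕ, n ≤ m ∧ m < m' ∧
      (m' : ℝ) ≤ n + (Real.log X) ^ K ∧ Bd δ m ∧ Bd δ m' ∧ m * m' % 3 ≠ 2) ⊆
      (Icc 1 X).filter (fun n : ℕ => ∃ m m' : ℕ, n ≤ m ∧ m < m' ∧
        (m' : ℝ) ≤ n + (X : ℝ) ^ c ∧ Bd δ m ∧ Bd δ m' ∧ m * m' % 3 ≠ 2 ∧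
        ¬ d ∣ Nat.gcd m m') := by
    intro n hn
    rw [mem_filter] at hn ⊢
    obtain ⟨h0, a, b, hna, hab, hb, f1, f2, h3⟩ := hn
    refine ⟨h0, a, b, hna, hab, by linarith, f1, f2, h3, fun h4 => ?_⟩
    have h5 : d ∣ b - a := Nat.dvd_sub (h4.trans (Nat.gcd_dvd_right a b))
      (h4.trans (Nat.gcd_dvd_left a b))
    have h6 : d ≤ b - a := Nat.le_of_dvd (by omega) h5
    have h7 : (d : ℝ) ≤ ((b - a : ℕ) : ℝ) := by exact_mod_cast h6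
    rw [Nat.cast_sub hab.le] at h7
    have h8 : (n : ℝ) ≤ a := by exact_mod_cast hna
    linarith
  exact_mod_cast Finset.card_le_card hsub

open Classical in
/-- failures at any distance: there is a set `G` of at most `X^(2/3+ε)` numbers such that every set of
numbers of `(4X/5, X]` with pairwise greatest common divisors at most `X^c` contains at most two
failures outside `G` which are not divisible by `d`, and at most two failures outside `G` at all if the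
greatest common divisors are at most `(log X)^K` -/
theorem far_set (hU : FinH) : ∀ ε : ℝ, 0 < ε → ∃ δ c : ℝ, 0 < δ ∧ 0 < c ∧ ∀ K : ℕ, ∃ X0 : ℕ,
    ∀ X : ℕ, X0 ≤ X → ∃ d : ℕ, (Real.log X) ^ K < d ∧ ∃ G : Finset ℕ,
      (G.card : ℝ) ≤ (X : ℝ) ^ (2 / 3 + ε) ∧ ∀ A : Finset ℕ, (∀ a ∈ A, 4 * X < 5 * a ∧ a ≤ X) →
        ((∀ a ∈ A, ∀ b ∈ A, a ≠ b → (Nat.gcd a b : ℝ) ≤ (X : ℝ) ^ c) →
          (A.filter (fun m => Bd δ m ∧ m ∉ G ∧ ¬ d ∣ m)).card ≤ 2) ∧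
        ((∀ a ∈ A, ∀ b ∈ A, a ≠ b → (Nat.gcd a b : ℝ) ≤ (Real.log X) ^ K) →
          (A.filter (fun m => Bd δ m ∧ m ∉ G)).card ≤ 2) := by
  intro ε hε
  obtain ⟨δ, c, hδ, hc, h⟩ := hU ε hε
  refine ⟨δ, c, hδ, hc, fun K => ?_⟩
  obtain ⟨X0, h⟩ := h K
  obtain ⟨X2, h2⟩ : ∃ X2 : ℕ, ∀ X : ℕ, X2 ≤ X → (Real.log X) ^ K ≤ (X : ℝ) ^ c := by
    have h3 := (isLittleO_log_rpow_rpow_atTop (r := (K : ℝ)) (s := c) hc).bound
      (show (0 : ℝ) < 1 by norm_num)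
    have h4 := (tendsto_natCast_atTop_atTop (R := ℝ)).eventually h3
    obtain ⟨X2, h5⟩ := Filter.eventually_atTop.1 h4
    refine ⟨max 1 X2, fun X hX => ?_⟩
    have h6 := h5 X (le_trans (le_max_right _ _) hX)
    have h7 : (1 : ℝ) ≤ X := by exact_mod_cast le_trans (le_max_left _ _) hX
    rw [Real.rpow_natCast, one_mul, Real.norm_eq_abs, Real.norm_eq_abs,
      abs_of_nonneg (by positivity : (0 : ℝ) ≤ (X : ℝ) ^ c)] at h6
    exact (le_abs_self _).trans h6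
  refine ⟨max (max X0 X2) 1, fun X hX => ?_⟩
  have hX1 : 1 ≤ X := le_trans (le_max_right _ _) hX
  have hXr : (0 : ℝ) < X := by exact_mod_cast hX1
  obtain ⟨d, hd, h⟩ := h X (le_trans (le_trans (le_max_left _ _) (le_max_left _ _)) hX)
  have h2 := h2 X (le_trans (le_trans (le_max_right _ _) (le_max_left _ _)) hX)
  obtain ⟨G, hG, h⟩ := h X hX1
  refine ⟨d, hd, G, hG.trans ?_, ?_⟩
  · refine (mul_le_mul_of_nonneg_right (min_le_right _ _) (by positivity)).trans (le_of_eq ?_)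
    rw [← Real.rpow_add hXr]
    congr 1
    ring
  intro A hA
  have pair : ∀ a ∈ A, ∀ b ∈ A, a ≠ b → Bd δ a → a ∉ G → Bd δ b → b ∉ G → a * b % 3 ≠ 2 →
      (Nat.gcd a b : ℝ) ≤ (X : ℝ) ^ c → d ∣ Nat.gcd a b := by
    intro a ha b hb hab f1 f2 f3 f4 f5 f6
    have a1 := hA a ha
    have b1 := hA b hb
    rcases lt_or_gt_of_ne hab with h1 | h1
    · exact h a b h1 b1.2 (by omega) (by omega) f2 f4 f1 f3 f5 f6
    · rw [Nat.gcd_comm]
      rw [Nat.gcd_comm] at f6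
      exact h b a h1 a1.2 (by omega) (by omega) f4 f2 f3 f1 (by rwa [mul_comm]) f6
  refine ⟨fun hg => ?_, fun hg => ?_⟩
  · by_contra hcon
    obtain ⟨a, ha, b, hb, e, he, h3, h4, h5⟩ := Finset.two_lt_card.1 (not_le.1 hcon)
    rw [mem_filter] at ha hb he
    rcases uc_mod3 a b e with h6 | h6 | h6
    · exact ha.2.2.2 ((pair a ha.1 b hb.1 h3 ha.2.1 ha.2.2.1 hb.2.1 hb.2.2.1 h6
        (hg a ha.1 b hb.1 h3)).trans (Nat.gcd_dvd_left _ _))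
    · exact ha.2.2.2 ((pair a ha.1 e he.1 h4 ha.2.1 ha.2.2.1 he.2.1 he.2.2.1 h6
        (hg a ha.1 e he.1 h4)).trans (Nat.gcd_dvd_left _ _))
    · exact hb.2.2.2 ((pair b hb.1 e he.1 h5 hb.2.1 hb.2.2.1 he.2.1 he.2.2.1 h6
        (hg b hb.1 e he.1 h5)).trans (Nat.gcd_dvd_left _ _))
  · have key : ∀ a ∈ A, ∀ b ∈ A, a ≠ b → Bd δ a → a ∉ G → Bd δ b → b ∉ G →
        a * b % 3 ≠ 2 → False := by
      intro a ha b hb hab f1 f2 f3 f4 f5
      have g1 := pair a ha b hb hab f1 f2 f3 f4 f5 ((hg a ha b hb hab).trans h2)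
      have a1 := hA a ha
      have g2 : d ≤ Nat.gcd a b := Nat.le_of_dvd (Nat.gcd_pos_of_pos_left _ (by omega)) g1
      have g3 : (d : ℝ) ≤ (Nat.gcd a b : ℝ) := by exact_mod_cast g2
      have g4 := hg a ha b hb hab
      linarith
    by_contra hcon
    obtain ⟨a, ha, b, hb, e, he, h3, h4, h5⟩ := Finset.two_lt_card.1 (not_le.1 hcon)
    rw [mem_filter] at ha hb he
    rcases uc_mod3 a b e with h6 | h6 | h6
    · exact key a ha.1 b hb.1 h3 ha.2.1 ha.2.2 hb.2.1 hb.2.2 h6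
    · exact key a ha.1 e he.1 h4 ha.2.1 ha.2.2 he.2.1 he.2.2 h6
    · exact key b hb.1 e he.1 h5 hb.2.1 hb.2.2 he.2.1 he.2.2 h6

end Pool.MP_dd84fd_nt.TC
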