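import Pool.Agent.Lib.MP_dd84fd_nt.TC.DZDefs
import Pool.Agent.Lib.MP_dd84fd_nt.TC.UAll

/-!
# Theorems U and V with the nature of `d` and the consequences for short windows, in one statement (helper3)

Windows of length `(log X)^K` and `X^c`; sums of three primes, one of them `5` or `11`; pairs of failures
at distance at most `h` (U), pairs in one class modulo `M` (V); the set `D X` of at most one number.
-/

set_option autoImplicit false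

namespace Pool.MP_dd84fd_nt.TC

open Finset Pool.MP_67663b_nt.Odd Pool.MP_dd84fd_nt.En Pool.MP_dd84fd_nt.E2 Pool.MP_dd84fd_nt.LS
open Pool.MP_dd84fd_nt.GX Pool.MP_dd84fd_nt.HX Pool.MP_dd84fd_nt.IX

open Classical in
/-- the windows of length `X^c` with two failures, from the U clause with `h = ⌊X^c⌋` -/
theorem va_count {ε δ c : ℝ} {X H : ℕ} {D : Finset ℕ} {G : Finset ℕ} (hX1 : 1 ≤ X)
    (hH : H = ⌊(X : ℝ) ^ c⌋₊) (hH1 : 1 ≤ H) (hc0 : 0 < c) (hcε : c ≤ ε / 8)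
    (h9 : (9 : ℝ) ≤ (X : ℝ) ^ (ε / 4))
    (hG : (G.card : ℝ) ≤ min (H : ℝ) ((X : ℝ) ^ (1 / 3 : ℝ)) * (X : ℝ) ^ (1 / 3 + ε / 4))
    (h : ∀ m m' : ℕ, m < m' → m' ≤ X → m' ≤ m + H → 4 * m' ≤ 5 * m → m ∉ G → m' ∉ G →
      Bd δ m → Bd δ m' → m * m' % 3 ≠ 2 → (Nat.gcd m m' : ℝ) ≤ (X : ℝ) ^ c →
      ∃ d ∈ D, d ∣ Nat.gcd m m') :
    (((Icc 1 X).filter (fun n : ℕ => ∃ m m' : ℕ, n ≤ m ∧ m < m' ∧
        (m' : ℝ) ≤ n + (X : ℝ) ^ c ∧ Bd δ m ∧ Bd δ m' ∧ m * m' % 3 ≠ 2 ∧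
        ¬ ∃ d ∈ D, d ∣ Nat.gcd m m')).card : ℝ) ≤ (X : ℝ) ^ (1 / 3 + 3 * ε / 4) := by
  have hXr : (1 : ℝ) ≤ X := by exact_mod_cast hX1
  have hX0 : (0 : ℝ) < X := by linarith
  have hXc1 : (1 : ℝ) ≤ (X : ℝ) ^ c := Real.one_le_rpow hXr hc0.le
  have hHle : (H : ℝ) ≤ (X : ℝ) ^ c := by
    rw [hH]
    exact Nat.floor_le (by positivity)
  have hsub : (Icc 1 X).filter (fun n : ℕ => ∃ m m' : ℕ, n ≤ m ∧ m < m' ∧
        (m' : ℝ) ≤ n + (X : ℝ) ^ c ∧ Bd δ m ∧ Bd δ m' ∧ m * m' % 3 ≠ 2 ∧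
        ¬ ∃ d ∈ D, d ∣ Nat.gcd m m') ⊆ (range (4 * H + 1)) ∪ (Icc (X - H) X) ∪
          G.biUnion (fun g => Icc (g - H) g) := by
    intro n hn
    rw [mem_filter, mem_Icc] at hn
    obtain ⟨⟨hn1, hnX⟩, m, m', hnm, hmm, hm', hb, hb', h3, hdd⟩ := hn
    have hm'' : m' ≤ n + H := by
      have e1 : ((m' - n : ℕ) : ℝ) ≤ (X : ℝ) ^ c := by
        rw [Nat.cast_sub (by omega)]
        linarith
      have e2 : m' - n ≤ H := by
        rw [hH]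
        exact Nat.le_floor e1
      omega
    rw [mem_union, mem_union]
    by_cases c1 : n ≤ 4 * H
    · exact Or.inl (Or.inl (mem_range.2 (by omega)))
    by_cases c2 : X < m'
    · exact Or.inl (Or.inr (mem_Icc.2 ⟨by omega, hnX⟩))
    right
    rw [mem_biUnion]
    by_cases g1 : m ∈ G
    · exact ⟨m, g1, mem_Icc.2 ⟨by omega, hnm⟩⟩
    by_cases g2 : m' ∈ G
    · exact ⟨m', g2, mem_Icc.2 ⟨by omega, by omega⟩⟩
    exfalso
    refine hdd (h m m' hmm (by omega) (by omega) (by omega) g1 g2 hb hb' h3 ?_)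
    have e3 : Nat.gcd m m' ∣ m' - m :=
      Nat.dvd_sub (Nat.gcd_dvd_right m m') (Nat.gcd_dvd_left m m')
    have e4 : Nat.gcd m m' ≤ H := (Nat.le_of_dvd (by omega) e3).trans (by omega)
    have e5 : (Nat.gcd m m' : ℝ) ≤ H := by exact_mod_cast e4
    exact e5.trans hHle
  have hcard : (((Icc 1 X).filter (fun n : ℕ => ∃ m m' : ℕ, n ≤ m ∧ m < m' ∧
        (m' : ℝ) ≤ n + (X : ℝ) ^ c ∧ Bd δ m ∧ Bd δ m' ∧ m * m' % 3 ≠ 2 ∧
        ¬ ∃ d ∈ D, d ∣ Nat.gcd m m')).card : ℝ) ≤ (4 * H + 1) + (H + 1) + G.card * (H + 1) := by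
    have e1 := Finset.card_le_card hsub
    have e2 : (range (4 * H + 1) ∪ (Icc (X - H) X) ∪
          G.biUnion (fun g => Icc (g - H) g)).card ≤ (4 * H + 1) + (H + 1) + G.card * (H + 1) := by
      refine (Finset.card_union_le _ _).trans (add_le_add ?_ ?_)
      · refine (Finset.card_union_le _ _).trans (add_le_add ?_ ?_)
        · rw [card_range]
        · rw [Nat.card_Icc]
          omega
      · refine (Finset.card_biUnion_le_card_mul _ _ (H + 1) fun g _ => ?_)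
        rw [Nat.card_Icc]
        omega
    exact_mod_cast e1.trans e2
  refine hcard.trans ?_
  have hH1r : (1 : ℝ) ≤ H := by exact_mod_cast hH1
  have hGc : (G.card : ℝ) ≤ (X : ℝ) ^ c * (X : ℝ) ^ (1 / 3 + ε / 4) := by
    refine hG.trans (mul_le_mul_of_nonneg_right ((min_le_left _ _).trans hHle) (by positivity))
  have f1 : (X : ℝ) ^ c * (X : ℝ) ^ (1 / 3 + ε / 4) * (2 * (X : ℝ) ^ c) ≤
      2 * (X : ℝ) ^ (1 / 3 + ε / 2) := by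
    have e1 : (X : ℝ) ^ c * (X : ℝ) ^ (1 / 3 + ε / 4) * (2 * (X : ℝ) ^ c) =
        2 * (X : ℝ) ^ (c + (1 / 3 + ε / 4) + c) := by
      rw [Real.rpow_add hX0 (c + (1 / 3 + ε / 4)) c, Real.rpow_add hX0 c (1 / 3 + ε / 4)]
      ring
    rw [e1]
    refine mul_le_mul_of_nonneg_left (Real.rpow_le_rpow_of_exponent_le hXr ?_) (by norm_num)
    linarith
  have f2 : (X : ℝ) ^ c ≤ (X : ℝ) ^ (1 / 3 + ε / 2) :=
    Real.rpow_le_rpow_of_exponent_le hXr (by linarith)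
  have f3 : 9 * (X : ℝ) ^ (1 / 3 + ε / 2) ≤ (X : ℝ) ^ (1 / 3 + 3 * ε / 4) := by
    have e1 : (X : ℝ) ^ (1 / 3 + 3 * ε / 4) = (X : ℝ) ^ (ε / 4) * (X : ℝ) ^ (1 / 3 + ε / 2) := by
      rw [← Real.rpow_add hX0]
      congr 1
      ring
    rw [e1]
    exact mul_le_mul_of_nonneg_right h9 (by positivity)
  have f4 : (G.card : ℝ) * (H + 1) ≤
      (X : ℝ) ^ c * (X : ℝ) ^ (1 / 3 + ε / 4) * (2 * (X : ℝ) ^ c) := by
    refine mul_le_mul hGc (by linarith) (by positivity) (by positivity)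
  linarith

open Classical in
/-- everything with the same `δ`, `c`, `M`, `D` -/
theorem v_all (hZ : FinVZ) (ε : ℝ) (hε : 0 < ε) : ∃ δ c : ℝ, ∃ M : ℕ, 0 < δ ∧ 0 < c ∧ 1 ≤ M ∧
    ∃ D : ℕ → Finset ℕ, (∀ X, (D X).card ≤ 1) ∧ (∀ X₁ : ℕ, ∃ X : ℕ, X₁ ≤ X ∧ D X = ∅) ∧
    ∀ K : ℕ, ∃ X₀ : ℕ, ∀ X : ℕ, X₀ ≤ X →
      (∀ d ∈ D X, (Real.log X) ^ K < d ∧ RZd M X d) ∧
      (∃ E : Finset ℕ, (E.card : ℝ) ≤ (X : ℝ) ^ (1 / 3 + ε) ∧ ∀ n : ℕ, 1 ≤ n → n ≤ X → n ∉ E →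
        ((Icc n (n + ⌊(Real.log X) ^ K⌋₊)).filter (fun m => Bd δ m)).card ≤ 2 ∧
        ((Icc n (n + ⌊(X : ℝ) ^ c⌋₊)).filter (fun m => Bd δ m ∧ ∀ d ∈ D X, ¬ d ∣ m)).card ≤ 2 ∧
        (Even n → (∃ m : ℕ, (m = n ∨ m = n + 2 ∨ m = n + 4) ∧ δ * (SS m * JJ m) < g m) ∧
          ∃ m : ℕ, (m = n ∨ m = n + 6) ∧ δ * (SS m * JJ m) < g m)) ∧
      (((Icc 1 X).filter (fun N : ℕ => Odd N ∧ ¬ ∃ p₁ p₂ p₃ : ℕ, p₁.Prime ∧ p₂.Prime ∧
        (p₃ = 5 ∨ p₃ = 11) ∧ p₁ + p₂ + p₃ = N)).card : ℝ) ≤ (X : ℝ) ^ (1 / 3 + ε) ∧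
      ∀ h : ℕ, 1 ≤ h →
        (∃ G : Finset ℕ,
          (G.card : ℝ) ≤ min (h : ℝ) ((X : ℝ) ^ (1 / 3 : ℝ)) * (X : ℝ) ^ (1 / 3 + ε) ∧
          ∀ m m' : ℕ, m < m' → m' ≤ X → m' ≤ m + h → 4 * m' ≤ 5 * m → m ∉ G → m' ∉ G →
            Bd δ m → Bd δ m' → m * m' % 3 ≠ 2 → (Nat.gcd m m' : ℝ) ≤ (X : ℝ) ^ c →
            ∃ d ∈ D X, d ∣ Nat.gcd m m') ∧
        (∃ G : Finset ℕ, (G.card : ℝ) ≤ (X : ℝ) ^ (1 / 3 + ε) +
            min (h : ℝ) ((X : ℝ) ^ (1 / 2 : ℝ)) * (X : ℝ) ^ ε ∧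
          ∀ m m' : ℕ, m < m' → m' ≤ X → m' ≤ m + h → M * m' ≤ (M + 1) * m → m ∉ G → m' ∉ G →
            Bd δ m → Bd δ m' → m ≡ m' [MOD M] → (Nat.gcd m m' : ℝ) ≤ (X : ℝ) ^ c →
            ∃ d ∈ D X, d ∣ Nat.gcd m m') := by
  obtain ⟨δ, c1, M, hδ, hc1, hM, D, ⟨hD1, hD2, hD3⟩, X1, h⟩ := hZ (ε / 4) (by positivity)
  obtain ⟨c, hc0, hcc, hcε⟩ : ∃ c : ℝ, 0 < c ∧ c ≤ c1 ∧ c ≤ ε / 8 :=
    ⟨min c1 (ε / 8), lt_min hc1 (by positivity), min_le_left _ _, min_le_right _ _⟩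
  refine ⟨δ, c, M, hδ, hc0, hM, D, hD1, hD2, fun K => ?_⟩
  obtain ⟨X2, hK⟩ := hD3 K
  obtain ⟨X3, hK1⟩ := hD3 1
  obtain ⟨X4, h4⟩ := g6_log_ge 12
  obtain ⟨X5, h5⟩ := g6_pow_log_le 0 9 (ε / 4) (by positivity)
  obtain ⟨X6, h6⟩ := g6_pow_log_le 0 12 (1 / 3) (by norm_num)
  obtain ⟨X7, h7⟩ := g6_pow_log_le 0 6 c hc0
  obtain ⟨X8, h8⟩ := g6_pow_log_le K 1 c hc0
  refine ⟨max (max (max X1 X2) (max X3 X4)) (max (max X5 X6) (max X7 X8)), fun X hX => ?_⟩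
  simp only [max_le_iff] at hX
  obtain ⟨⟨⟨x1, x2⟩, x3, x4⟩, ⟨x5, x6⟩, x7, x8⟩ := hX
  have h := h X x1
  have hK := hK X x2
  have hK1 := hK1 X x3
  have hL := h4 X x4
  have h5 := h5 X x5
  have h6 := h6 X x6
  have h7 := h7 X x7
  have h8 := h8 X x8
  rw [pow_zero, mul_one] at h5 h6 h7
  rw [one_mul] at h8
  have hX1 : (1 : ℝ) ≤ X := by
    by_contra hcon
    push Not at hcon
    have : Real.log X ≤ 0 := Real.log_nonpos (Nat.cast_nonneg X) hcon.le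
    linarith
  have hX0 : (0 : ℝ) < X := by linarith
  have hX1n : 1 ≤ X := by exact_mod_cast hX1
  have hXc : (X : ℝ) ^ c ≤ (X : ℝ) ^ c1 := Real.rpow_le_rpow_of_exponent_le hX1 hcc
  obtain ⟨H, hH⟩ : ∃ H : ℕ, H = ⌊(X : ℝ) ^ c⌋₊ := ⟨_, rfl⟩
  have hH1 : 1 ≤ H := by
    rw [hH]
    exact Nat.le_floor (by push_cast; linarith)
  obtain ⟨G0, hG0, hU0⟩ := (h H hH1).1
  have hE := va_count (ε := ε) (δ := δ) (D := D X) hX1n hH hH1 hc0 hcε h5 hG0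
    (fun m m' a1 a2 a3 a4 a5 a6 a7 a8 a9 a10 => hU0 m m' a1 a2 a3 a4 a5 a6 a7 a8 a9
      (a10.trans hXc))
  obtain ⟨E, hEdef⟩ : ∃ E : Finset ℕ, E = (Icc 1 X).filter (fun n : ℕ => ∃ m m' : ℕ, n ≤ m ∧
        m < m' ∧ (m' : ℝ) ≤ n + (X : ℝ) ^ c ∧ Bd δ m ∧ Bd δ m' ∧ m * m' % 3 ≠ 2 ∧
        ¬ ∃ d ∈ D X, d ∣ Nat.gcd m m') := ⟨_, rfl⟩
  rw [← hEdef] at hE
  -- two failures in a window of length `X^c`
  have key : ∀ n : ℕ, 1 ≤ n → n ≤ X → n ∉ E → ∀ m m' : ℕ, n ≤ m → m < m' →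
      (m' : ℝ) ≤ n + (X : ℝ) ^ c → Bd δ m → Bd δ m' → m * m' % 3 ≠ 2 →
      ∃ d ∈ D X, d ∣ Nat.gcd m m' := by
    intro n hn1 hnX hnE m m' a1 a2 a3 a4 a5 a6
    by_contra hcon
    apply hnE
    rw [hEdef, mem_filter, mem_Icc]
    exact ⟨⟨hn1, hnX⟩, m, m', a1, a2, a3, a4, a5, a6, hcon⟩
  -- small distance
  have small : ∀ n : ℕ, 1 ≤ n → n ≤ X → n ∉ E → ∀ T : ℝ, T ≤ (X : ℝ) ^ c →
      (∀ d ∈ D X, T < d) → ∀ a b : ℕ, n ≤ a → n ≤ b → (a : ℝ) ≤ n + T → (b : ℝ) ≤ n + T →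
      Bd δ a → Bd δ b → a ≠ b → a * b % 3 = 2 := by
    intro n hn1 hnX hnE T hT hdT
    have main : ∀ a b : ℕ, n ≤ a → a < b → (b : ℝ) ≤ n + T → Bd δ a → Bd δ b →
        a * b % 3 = 2 := by
      intro a b a1 a2 a3 a4 a5
      by_contra hcon
      obtain ⟨d, hd, hdv⟩ := key n hn1 hnX hnE a b a1 a2 (by linarith) a4 a5 hcon
      have g1 : d ∣ b - a := Nat.dvd_sub (hdv.trans (Nat.gcd_dvd_right a b))
        (hdv.trans (Nat.gcd_dvd_left a b))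
      have g2 : d ≤ b - a := Nat.le_of_dvd (by omega) g1
      have g3 : (d : ℝ) ≤ ((b - a : ℕ) : ℝ) := by exact_mod_cast g2
      rw [Nat.cast_sub a2.le] at g3
      have g4 : (n : ℝ) ≤ a := by exact_mod_cast a1
      have g5 := hdT d hd
      linarith
    intro a b a1 b1 a2 b2 a3 b3 hab
    rcases lt_or_gt_of_ne hab with hlt | hlt
    · exact main a b a1 hlt b2 a3 b3
    · rw [mul_comm]
      exact main b a b1 hlt a2 b3 a3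
  have d12 : ∀ d ∈ D X, (6 : ℝ) < d := by
    intro d hd
    have := (hK1 d hd).1
    rw [pow_one] at this
    linarith
  have six : ∀ n : ℕ, 1 ≤ n → n ≤ X → n ∉ E → Even n →
      ∃ m : ℕ, (m = n ∨ m = n + 6) ∧ δ * (SS m * JJ m) < g m := by
    intro n hn1 hnX hnE hev
    by_contra hcon
    push Not at hcon
    have f0 : Bd δ n := ⟨hev, hcon n (Or.inl rfl)⟩
    have f6 : Bd δ (n + 6) := ⟨by
      obtain ⟨k, hk⟩ := hev
      exact ⟨k + 3, by omega⟩, hcon (n + 6) (Or.inr rfl)⟩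
    have t := small n hn1 hnX hnE 6 h7 d12 n (n + 6) le_rfl (by omega) (by linarith)
      (by push_cast; linarith) f0 f6 (by omega)
    rcases gap_mod t with t1 | t1 <;> omega
  have three : ∀ n : ℕ, 1 ≤ n → n ≤ X → n ∉ E → Even n →
      ∃ m : ℕ, (m = n ∨ m = n + 2 ∨ m = n + 4) ∧ δ * (SS m * JJ m) < g m := by
    intro n hn1 hnX hnE hev
    by_contra hcon
    push Not at hcon
    have f0 : Bd δ n := ⟨hev, hcon n (Or.inl rfl)⟩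
    have f2 : Bd δ (n + 2) := ⟨by
      obtain ⟨k, hk⟩ := hev
      exact ⟨k + 1, by omega⟩, hcon (n + 2) (Or.inr (Or.inl rfl))⟩
    have f4 : Bd δ (n + 4) := ⟨by
      obtain ⟨k, hk⟩ := hev
      exact ⟨k + 2, by omega⟩, hcon (n + 4) (Or.inr (Or.inr rfl))⟩
    have t1 := small n hn1 hnX hnE 6 h7 d12 n (n + 2) le_rfl (by omega) (by linarith)
      (by push_cast; linarith) f0 f2 (by omega)
    have t2 := small n hn1 hnX hnE 6 h7 d12 n (n + 4) le_rfl (by omega) (by linarith)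
      (by push_cast; linarith) f0 f4 (by omega)
    have t3 := small n hn1 hnX hnE 6 h7 d12 (n + 2) (n + 4) (by omega) (by omega)
      (by push_cast; linarith) (by push_cast; linarith) f2 f4 (by omega)
    have u1 := gap_mod t1
    have u2 := gap_mod t2
    have u3 := gap_mod t3
    omega
  have hmul : (X : ℝ) ^ (1 / 3 + ε) = (X : ℝ) ^ (1 / 3 + 3 * ε / 4) * (X : ℝ) ^ (ε / 4) := by
    rw [← Real.rpow_add hX0]
    congr 1
    ring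
  have hge : (X : ℝ) ^ (1 / 3 : ℝ) ≤ (X : ℝ) ^ (1 / 3 + 3 * ε / 4) :=
    Real.rpow_le_rpow_of_exponent_le hX1 (by linarith)
  have hbig : (X : ℝ) ^ (1 / 3 + 3 * ε / 4) + 12 ≤ (X : ℝ) ^ (1 / 3 + ε) := by
    rw [hmul]
    nlinarith
  refine ⟨hK, ⟨E, by linarith, fun n hn1 hnX hnE => ⟨?_, ?_, fun hev =>
    ⟨three n hn1 hnX hnE hev, six n hn1 hnX hnE hev⟩⟩⟩, ?_, ?_⟩
  · by_contra hcon
    obtain ⟨a, ha, b, hb, e, he, n1, n2, n3⟩ := Finset.two_lt_card.1 (not_le.1 hcon)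
    rw [mem_filter, mem_Icc] at ha hb he
    have hfl : ∀ m : ℕ, m ≤ n + ⌊(Real.log X) ^ K⌋₊ → (m : ℝ) ≤ n + (Real.log X) ^ K := by
      intro m hm
      have e1 : (m : ℝ) ≤ n + (⌊(Real.log X) ^ K⌋₊ : ℝ) := by exact_mod_cast hm
      have e2 := Nat.floor_le (a := (Real.log X) ^ K) (by positivity)
      linarith
    have hdK : ∀ d ∈ D X, (Real.log X) ^ K < d := fun d hd => (hK d hd).1
    have t1 := small n hn1 hnX hnE _ h8 hdK a b ha.1.1 hb.1.1 (hfl a ha.1.2) (hfl b hb.1.2)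
      ha.2 hb.2 n1
    have t2 := small n hn1 hnX hnE _ h8 hdK a e ha.1.1 he.1.1 (hfl a ha.1.2) (hfl e he.1.2)
      ha.2 he.2 n2
    have t3 := small n hn1 hnX hnE _ h8 hdK b e hb.1.1 he.1.1 (hfl b hb.1.2) (hfl e he.1.2)
      hb.2 he.2 n3
    rcases uc_mod3 a b e with r | r | r
    · exact r t1
    · exact r t2
    · exact r t3
  · by_contra hcon
    obtain ⟨a, ha, b, hb, e, he, n1, n2, n3⟩ := Finset.two_lt_card.1 (not_le.1 hcon)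
    rw [mem_filter, mem_Icc] at ha hb he
    have hfl : ∀ m : ℕ, m ≤ n + ⌊(X : ℝ) ^ c⌋₊ → (m : ℝ) ≤ n + (X : ℝ) ^ c := by
      intro m hm
      have e1 : (m : ℝ) ≤ n + (⌊(X : ℝ) ^ c⌋₊ : ℝ) := by exact_mod_cast hm
      have e2 := Nat.floor_le (a := (X : ℝ) ^ c) (by positivity)
      linarith
    have pair : ∀ x y : ℕ, n ≤ x → n ≤ y → (x : ℝ) ≤ n + (X : ℝ) ^ c →
        (y : ℝ) ≤ n + (X : ℝ) ^ c → Bd δ x → Bd δ y → x ≠ y → x * y % 3 ≠ 2 →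
        ∃ d ∈ D X, d ∣ x := by
      intro x y p1 p2 p3 p4 p5 p6 p7 p8
      rcases lt_or_gt_of_ne p7 with hlt | hlt
      · obtain ⟨d, hd, hdv⟩ := key n hn1 hnX hnE x y p1 hlt p4 p5 p6 p8
        exact ⟨d, hd, hdv.trans (Nat.gcd_dvd_left x y)⟩
      · obtain ⟨d, hd, hdv⟩ := key n hn1 hnX hnE y x p2 hlt p3 p6 p5 (by rwa [mul_comm])
        exact ⟨d, hd, hdv.trans (Nat.gcd_dvd_right y x)⟩
    rcases uc_mod3 a b e with r | r | r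
    · obtain ⟨d, hd, hdv⟩ := pair a b ha.1.1 hb.1.1 (hfl a ha.1.2) (hfl b hb.1.2) ha.2.1 hb.2.1
        n1 r
      exact ha.2.2 d hd hdv
    · obtain ⟨d, hd, hdv⟩ := pair a e ha.1.1 he.1.1 (hfl a ha.1.2) (hfl e he.1.2) ha.2.1 he.2.1
        n2 r
      exact ha.2.2 d hd hdv
    · obtain ⟨d, hd, hdv⟩ := pair b e hb.1.1 he.1.1 (hfl b hb.1.2) (hfl e he.1.2) hb.2.1 he.2.1
        n3 r
      exact hb.2.2 d hd hdv
  · have hsub : (Icc 1 X).filter (fun N : ℕ => Odd N ∧ ¬ ∃ p₁ p₂ p₃ : ℕ, p₁.Prime ∧ p₂.Prime ∧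
          (p₃ = 5 ∨ p₃ = 11) ∧ p₁ + p₂ + p₃ = N) ⊆ E.image (fun e => e + 11) ∪ Icc 1 12 := by
      intro N hN
      rw [mem_filter, mem_Icc] at hN
      obtain ⟨⟨hN1, hN2⟩, hodd, hno⟩ := hN
      by_cases h8 : N ≤ 12
      · exact mem_union_right _ (mem_Icc.2 ⟨hN1, h8⟩)
      · apply mem_union_left
        rw [mem_image]
        refine ⟨N - 11, ?_, by omega⟩
        by_contra hNE
        apply hno
        have hev : Even (N - 11) := by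
          obtain ⟨k, hk⟩ := hodd
          exact ⟨k - 5, by omega⟩
        obtain ⟨m, hm, hg⟩ := six (N - 11) (by omega) (by omega) hNE hev
        obtain ⟨p, q, hp, hq, hpq⟩ := g_pos hδ hg
        refine ⟨p, q, N - m, hp, hq, ?_, ?_⟩
        · omega
        · omega
    have hcard : (((Icc 1 X).filter (fun N : ℕ => Odd N ∧ ¬ ∃ p₁ p₂ p₃ : ℕ, p₁.Prime ∧ p₂.Prime ∧
          (p₃ = 5 ∨ p₃ = 11) ∧ p₁ + p₂ + p₃ = N)).card : ℝ) ≤ (E.card : ℝ) + 12 := by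
      have h5 := (card_le_card hsub).trans ((card_union_le _ _).trans
        (Nat.add_le_add_right card_image_le _))
      rw [Nat.card_Icc] at h5
      exact_mod_cast h5
    linarith
  · intro hh hh1
    obtain ⟨⟨G, hG, hU⟩, ⟨G', hG', hV⟩⟩ := h hh hh1
    have hmono : ∀ a b : ℝ, a ≤ b → (X : ℝ) ^ a ≤ (X : ℝ) ^ b := fun a b hab =>
      Real.rpow_le_rpow_of_exponent_le hX1 hab
    refine ⟨⟨G, hG.trans (mul_le_mul_of_nonneg_left (hmono _ _ (by linarith)) ?_), ?_⟩,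
      ⟨G', hG'.trans (add_le_add (hmono _ _ (by linarith))
        (mul_le_mul_of_nonneg_left (hmono _ _ (by linarith)) ?_)), ?_⟩⟩
    · exact le_min (Nat.cast_nonneg _) (by positivity)
    · exact fun m m' a1 a2 a3 a4 a5 a6 a7 a8 a9 a10 => hU m m' a1 a2 a3 a4 a5 a6 a7 a8 a9
        (a10.trans hXc)
    · exact le_min (Nat.cast_nonneg _) (by positivity)
    · exact fun m m' a1 a2 a3 a4 a5 a6 a7 a8 a9 a10 => hV m m' a1 a2 a3 a4 a5 a6 a7 a8 a9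
        (a10.trans hXc)

end Pool.MP_dd84fd_nt.TC
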